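import Pool.Agent.MP_e4ecdb_ag.Herm
open Module

/-! Linear algebra of primitive symplectic representations: stable subspaces, invariant hermitian
forms, and their eigenspaces. -/

namespace Pool.Agent.MP_e4ecdb_ag.BB

variable {V : Type} [AddCommGroup V] [Module ℂ V] {G : Type} [Group G]

/-- stable under the group -/
def Stable (ρ : Representation ℂ G V) (K : Submodule ℂ V) : Prop := ∀ g, ∀ x ∈ K, ρ g x ∈ K

/-- every proper nonzero stable subspace is Lagrangian -/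
lemma stable_lagr [FiniteDimensional ℂ V] [Finite G] {ρ : Representation ℂ G V}
    {σ : LinearMap.BilinForm ℂ V} (hσ : IsPrimitiveSymplectic ρ σ) {K : Submodule ℂ V}
    (hK : Stable ρ K) (h0 : K ≠ ⊥) (h1 : K ≠ ⊤) :
    (∀ x ∈ K, ∀ y ∈ K, σ x y = 0) ∧ 2 * finrank ℂ K = finrank ℂ V := by
  obtain ⟨P, hP1, hP2, hP3⟩ := exists_equivariant_proj ρ K hK
  obtain ⟨x₁, hx₁⟩ : ∃ x, x ∉ K := by
    by_contra h
    push Not at h
    exact h1 (eq_top_iff.2 fun x _ => h x)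
  obtain ⟨x₀, hx₀K, hx₀⟩ := (Submodule.ne_bot_iff K).1 h0
  have hne1 : ∃ x, x ≠ 0 ∧ P x = 0 := by
    refine ⟨x₁ - P x₁, ?_, ?_⟩
    · intro h
      rw [sub_eq_zero] at h
      exact hx₁ (h ▸ hP1 x₁)
    · rw [map_sub, hP2 _ (hP1 x₁), sub_self]
  have hiso1 := isotropic_of_invariant ρ σ hσ.nondeg hσ.alt hσ.inv hσ.prim P hP3 hne1
  let P' : V →ₗ[ℂ] V := LinearMap.id - P
  have hP3' : ∀ g x, P' (ρ g x) = ρ g (P' x) := by
    intro g x
    simp [P', hP3]
  have hne2 : ∃ x, x ≠ 0 ∧ P' x = 0 := ⟨x₀, hx₀, by simp [P', hP2 x₀ hx₀K]⟩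
  have hiso2 := isotropic_of_invariant ρ σ hσ.nondeg hσ.alt hσ.inv hσ.prim P' hP3' hne2
  have hisoK : ∀ x ∈ K, ∀ y ∈ K, σ x y = 0 := by
    intro x hx y hy
    rw [← hP2 x hx, ← hP2 y hy]
    exact hiso1 x y
  have hisoK' : ∀ x ∈ LinearMap.ker P, ∀ y ∈ LinearMap.ker P, σ x y = 0 := by
    intro x hx y hy
    rw [LinearMap.mem_ker] at hx hy
    have := hiso2 x y
    simpa [P', hx, hy] using this
  have hcompl : IsCompl K (LinearMap.ker P) := by
    constructor
    · rw [Submodule.disjoint_def]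
      intro x hx hx'
      rw [LinearMap.mem_ker, hP2 x hx] at hx'
      exact hx'
    · rw [codisjoint_iff, eq_top_iff]
      intro x _
      have : x = P x + (x - P x) := by abel
      rw [this]
      apply Submodule.add_mem_sup (hP1 x)
      rw [LinearMap.mem_ker, map_sub, hP2 _ (hP1 x), sub_self]
  exact ⟨hisoK, finrank_of_isotropic_compl σ hσ.nondeg hσ.alt _ _ hisoK hisoK' hcompl⟩

/-- two different proper nonzero stable subspaces are complementary -/
lemma stable_compl [FiniteDimensional ℂ V] [Finite G] {ρ : Representation ℂ G V}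
    {σ : LinearMap.BilinForm ℂ V} (hσ : IsPrimitiveSymplectic ρ σ) {K K' : Submodule ℂ V}
    (hK : Stable ρ K) (h0 : K ≠ ⊥) (h1 : K ≠ ⊤) (hK' : Stable ρ K') (h0' : K' ≠ ⊥) (h1' : K' ≠ ⊤)
    (hne : K ≠ K') : IsCompl K K' := by
  have d1 := (stable_lagr hσ hK h0 h1).2
  have d2 := (stable_lagr hσ hK' h0' h1').2
  have hb : K ⊓ K' = ⊥ := by
    by_contra hb
    have hs : Stable ρ (K ⊓ K') := fun g x hx => ⟨hK g x hx.1, hK' g x hx.2⟩
    have ht : K ⊓ K' ≠ ⊤ := fun h => h1 (eq_top_iff.2 (h ▸ inf_le_left))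
    have d3 := (stable_lagr hσ hs hb ht).2
    have e1 : K ⊓ K' = K := Submodule.eq_of_le_of_finrank_eq inf_le_left (by omega)
    have e2 : K ⊓ K' = K' := Submodule.eq_of_le_of_finrank_eq inf_le_right (by omega)
    exact hne (e1.symm.trans e2)
  refine ⟨disjoint_iff.2 hb, codisjoint_iff.2 ?_⟩
  apply Submodule.eq_top_of_finrank_eq
  have h3 := Submodule.finrank_sup_add_finrank_inf_eq K K'
  rw [hb, finrank_bot] at h3
  omega

/-- the real vector space of invariant hermitian forms -/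
def InvHerm (ρ : Representation ℂ G V) : Submodule ℝ (V →ₗ⋆[ℂ] V →ₗ[ℂ] ℂ) where
  carrier := {H | (∀ x y, H x y = (starRingEnd ℂ) (H y x)) ∧ ∀ g x y, H (ρ g x) (ρ g y) = H x y}
  add_mem' := by
    rintro H H' ⟨h1, h2⟩ ⟨h1', h2'⟩
    refine ⟨fun x y => ?_, fun g x y => ?_⟩
    · rw [LinearMap.add_apply, LinearMap.add_apply, LinearMap.add_apply, LinearMap.add_apply,
        map_add, ← h1, ← h1']
    · rw [LinearMap.add_apply, LinearMap.add_apply, LinearMap.add_apply, LinearMap.add_apply,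
        h2, h2']
  zero_mem' := ⟨fun x y => by simp, fun g x y => by simp⟩
  smul_mem' := by
    rintro c H ⟨h1, h2⟩
    refine ⟨fun x y => ?_, fun g x y => ?_⟩
    · rw [LinearMap.smul_apply, LinearMap.smul_apply, LinearMap.smul_apply, LinearMap.smul_apply,
        h1 x y]
      simp
    · rw [LinearMap.smul_apply, LinearMap.smul_apply, LinearMap.smul_apply, LinearMap.smul_apply, h2]

lemma surj_of_pos [FiniteDimensional ℂ V] {h : V →ₗ⋆[ℂ] V →ₗ[ℂ] ℂ}
    (hp : ∀ x, x ≠ 0 → 0 < (h x x).re) : Function.Bijective h := by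
  constructor
  · intro x y hxy
    by_contra hne
    have h1 := hp (x - y) (sub_ne_zero.2 hne)
    have h0 : h (x - y) = 0 := by rw [map_sub, hxy, sub_self]
    rw [h0] at h1
    simp at h1
  · rw [← LinearMap.range_eq_top]
    have h1 : (LinearMap.range h).dualCoannihilator = ⊥ := by
      rw [eq_bot_iff]
      intro y hy
      rw [Submodule.mem_dualCoannihilator] at hy
      by_contra hne
      have h2 := hp y hne
      rw [hy _ ⟨y, rfl⟩] at h2
      simp at h2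
    have h2 := Subspace.dualCoannihilator_dualAnnihilator_eq (W := LinearMap.range h)
    rw [h1, Submodule.dualAnnihilator_bot] at h2
    exact h2.symm

/-- the operator of `H` with respect to `h` -/
noncomputable def op [FiniteDimensional ℂ V] {h : V →ₗ⋆[ℂ] V →ₗ[ℂ] ℂ}
    (hp : ∀ x, x ≠ 0 → 0 < (h x x).re) (H : V →ₗ⋆[ℂ] V →ₗ[ℂ] ℂ) : V →ₗ[ℂ] V :=
  ((LinearEquiv.ofBijective h (surj_of_pos hp)).symm : (V →ₗ[ℂ] ℂ) →ₗ⋆[ℂ] V).comp H

lemma op_spec [FiniteDimensional ℂ V] {h : V →ₗ⋆[ℂ] V →ₗ[ℂ] ℂ}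
    (hp : ∀ x, x ≠ 0 → 0 < (h x x).re) (H : V →ₗ⋆[ℂ] V →ₗ[ℂ] ℂ) (x y : V) :
    h (op hp H x) y = H x y := by
  have h1 : h (op hp H x) = H x :=
    (LinearEquiv.ofBijective h (surj_of_pos hp)).apply_symm_apply (H x)
  rw [h1]

lemma op_unique [FiniteDimensional ℂ V] {h : V →ₗ⋆[ℂ] V →ₗ[ℂ] ℂ}
    (hp : ∀ x, x ≠ 0 → 0 < (h x x).re) {H : V →ₗ⋆[ℂ] V →ₗ[ℂ] ℂ} {a : V →ₗ[ℂ] V}
    (ha : ∀ x y, h (a x) y = H x y) : a = op hp H := by
  apply LinearMap.ext
  intro x
  apply (surj_of_pos hp).1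
  apply LinearMap.ext
  intro y
  rw [ha, op_spec]

/-- the operator depends linearly on the form -/
noncomputable def opL [FiniteDimensional ℂ V] {h : V →ₗ⋆[ℂ] V →ₗ[ℂ] ℂ}
    (hp : ∀ x, x ≠ 0 → 0 < (h x x).re) : (V →ₗ⋆[ℂ] V →ₗ[ℂ] ℂ) →ₗ[ℝ] (V →ₗ[ℂ] V) where
  toFun := op hp
  map_add' H H' := by
    symm
    apply op_unique
    intro x y
    rw [LinearMap.add_apply, map_add, LinearMap.add_apply, op_spec, op_spec]
    rfl
  map_smul' c H := by
    symm
    apply op_unique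
    intro x y
    have h1 : (c • op hp H) x = (c : ℂ) • op hp H x := rfl
    change h ((c • op hp H) x) y = _
    rw [h1, LinearMap.map_smulₛₗ, LinearMap.smul_apply, op_spec]
    simp

end Pool.Agent.MP_e4ecdb_ag.BB
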