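import Pool.Agent.MP_e4ecdb_ag.BBa
open Module

namespace Pool.Agent.MP_e4ecdb_ag.BB

variable {V : Type} [AddCommGroup V] [Module ℂ V] {G : Type} [Group G]

section
variable [FiniteDimensional ℂ V] {ρ : Representation ℂ G V} {h : V →ₗ⋆[ℂ] V →ₗ[ℂ] ℂ}

lemma op_self (hp : ∀ x, x ≠ 0 → 0 < (h x x).re) {H : V →ₗ⋆[ℂ] V →ₗ[ℂ] ℂ}
    (hh : ∀ x y, h x y = (starRingEnd ℂ) (h y x)) (hH : ∀ x y, H x y = (starRingEnd ℂ) (H y x))
    (x y : V) : h (op hp H x) y = h x (op hp H y) := by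
  rw [op_spec, hH, ← op_spec hp, ← hh]

lemma op_comm (hp : ∀ x, x ≠ 0 → 0 < (h x x).re) (hh : h ∈ InvHerm ρ)
    {H : V →ₗ⋆[ℂ] V →ₗ[ℂ] ℂ} (hH : H ∈ InvHerm ρ) (g : G) (x : V) :
    op hp H (ρ g x) = ρ g (op hp H x) := by
  apply (surj_of_pos hp).1
  apply LinearMap.ext
  intro y
  have h1 : y = ρ g (ρ g⁻¹ y) := by
    rw [← Module.End.mul_apply, ← map_mul, mul_inv_cancel, map_one]
    rfl
  rw [op_spec, h1, hh.2, hH.2, op_spec]

/-- a selfadjoint operator whose shifted square vanishes -/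
lemma sq_zero (hp : ∀ x, x ≠ 0 → 0 < (h x x).re) {a : V →ₗ[ℂ] V}
    (ha : ∀ x y, h (a x) y = h x (a y)) (l : ℝ) {x : V} (hx : a (a x - (l : ℂ) • x) = (l : ℂ) • (a x - (l : ℂ) • x)) :
    a x = (l : ℂ) • x := by
  by_contra hne
  have hne' : a x - (l : ℂ) • x ≠ 0 := sub_ne_zero.2 hne
  have h1 := hp _ hne'
  set y := a x - (l : ℂ) • x with hy
  have h2 : h y y = 0 := by
    have e0 : h y = h (a x) - (l : ℂ) • h x := by
      rw [hy, map_sub, LinearMap.map_smulₛₗ, Complex.conj_ofReal]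
    have e1 : h y y = h (a x) y - (l : ℂ) * h x y := by
      rw [e0, LinearMap.sub_apply, LinearMap.smul_apply, smul_eq_mul]
    rw [e1, ha, hx, map_smul, smul_eq_mul, sub_self]
  rw [h2] at h1
  simp at h1

/-- eigenvalues of selfadjoint operators are real -/
lemma eig_real (hp : ∀ x, x ≠ 0 → 0 < (h x x).re) {a : V →ₗ[ℂ] V}
    (ha : ∀ x y, h (a x) y = h x (a y)) {l : ℂ} {x : V} (hx : x ≠ 0) (hl : a x = l • x) :
    (l.re : ℂ) = l := by
  have h1 := ha x x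
  rw [hl, LinearMap.map_smulₛₗ, LinearMap.smul_apply, map_smul, smul_eq_mul, smul_eq_mul] at h1
  have h2 : h x x ≠ 0 := fun h0 => by
    have := hp x hx
    rw [h0] at this
    simp at this
  have h3 := mul_right_cancel₀ h2 h1
  exact Complex.conj_eq_iff_re.1 h3

/-- the eigenspace -/
def Ei (a : V →ₗ[ℂ] V) (l : ℝ) : Submodule ℂ V := LinearMap.ker (a - (l : ℂ) • LinearMap.id)

lemma mem_Ei {a : V →ₗ[ℂ] V} {l : ℝ} {x : V} : x ∈ Ei a l ↔ a x = (l : ℂ) • x := by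
  unfold Ei
  rw [LinearMap.mem_ker, LinearMap.sub_apply, sub_eq_zero]
  rfl

lemma Ei_stable {a : V →ₗ[ℂ] V} (hc : ∀ g x, a (ρ g x) = ρ g (a x)) (l : ℝ) :
    Stable ρ (Ei a l) := by
  intro g x hx
  rw [mem_Ei] at hx ⊢
  rw [hc, hx, map_smul]

lemma Ei_orth {a : V →ₗ[ℂ] V}
    (ha : ∀ x y, h (a x) y = h x (a y)) {l m : ℝ} (hlm : l ≠ m) {x y : V} (hx : x ∈ Ei a l)
    (hy : y ∈ Ei a m) : h x y = 0 := by
  rw [mem_Ei] at hx hy
  have h1 := ha x y
  rw [hx, hy, LinearMap.map_smulₛₗ, LinearMap.smul_apply, map_smul, smul_eq_mul, smul_eq_mul,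
    Complex.conj_ofReal] at h1
  have h2 : ((l : ℂ) - m) * h x y = 0 := by rw [sub_mul, h1, sub_self]
  rcases mul_eq_zero.1 h2 with h3 | h3
  · exfalso
    apply hlm
    rw [sub_eq_zero] at h3
    exact_mod_cast h3
  · exact h3

/-- the two eigenvalues of a nonscalar invariant selfadjoint operator -/
lemma two_eig [Nontrivial V] [Finite G] {σ : LinearMap.BilinForm ℂ V} (hσ : IsPrimitiveSymplectic ρ σ)
    (hp : ∀ x, x ≠ 0 → 0 < (h x x).re)
    {a : V →ₗ[ℂ] V} (ha : ∀ x y, h (a x) y = h x (a y)) (hc : ∀ g x, a (ρ g x) = ρ g (a x)) :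
    (∃ l : ℝ, ∀ x, a x = (l : ℂ) • x) ∨
    ∃ l m : ℝ, l ≠ m ∧ IsCompl (Ei a l) (Ei a m) ∧ (∀ x ∈ Ei a l, ∀ y ∈ Ei a m, h x y = 0) ∧
      (∀ x ∈ Ei a l, ∀ y ∈ Ei a l, σ x y = 0) ∧ (∀ x ∈ Ei a m, ∀ y ∈ Ei a m, σ x y = 0) ∧
      2 * finrank ℂ (Ei a l) = finrank ℂ V ∧ 2 * finrank ℂ (Ei a m) = finrank ℂ V := by
  obtain ⟨l', hl'⟩ := Module.End.exists_eigenvalue a
  obtain ⟨x, hx⟩ := hl'.exists_hasEigenvector
  have hx1 : a x = l' • x := hx.apply_eq_smul
  have hx0 : x ≠ 0 := hx.2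
  have hlr := eig_real hp ha hx0 hx1
  set l : ℝ := l'.re with hl
  rw [← hlr] at hx1
  have hxl : x ∈ Ei a l := mem_Ei.2 hx1
  have hb : Ei a l ≠ ⊥ := (Submodule.ne_bot_iff _).2 ⟨x, hxl, hx0⟩
  by_cases ht : Ei a l = ⊤
  · left
    exact ⟨l, fun y => mem_Ei.1 (ht ▸ Submodule.mem_top)⟩
  · right
    -- the second eigenvalue
    set b : V →ₗ[ℂ] V := a - (l : ℂ) • LinearMap.id with hb'
    have hbx : ∀ x, b x = a x - (l : ℂ) • x := fun x => rfl
    have hab : ∀ x, a (b x) = b (a x) := fun x => by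
      rw [hbx, hbx, map_sub, map_smul]
    let W : Submodule ℂ V := LinearMap.range b
    have hW : ∀ y ∈ W, a y ∈ W := by
      rintro y ⟨z, rfl⟩
      exact ⟨a z, (hab z).symm⟩
    have hWn : Nontrivial W := by
      rw [Submodule.nontrivial_iff_ne_bot]
      intro h0
      apply ht
      rw [eq_top_iff]
      intro y _
      have : b y ∈ W := ⟨y, rfl⟩
      rw [h0, Submodule.mem_bot] at this
      exact LinearMap.mem_ker.2 this
    obtain ⟨m', hm'⟩ := Module.End.exists_eigenvalue (a.restrict hW)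
    obtain ⟨y, hy⟩ := hm'.exists_hasEigenvector
    have hy1 : a y = m' • (y : V) := congrArg Subtype.val hy.apply_eq_smul
    have hy0 : (y : V) ≠ 0 := fun h0 => hy.2 (Subtype.ext h0)
    have hmr := eig_real hp ha hy0 hy1
    set m : ℝ := m'.re with hm
    rw [← hmr] at hy1
    have hym : (y : V) ∈ Ei a m := mem_Ei.2 hy1
    have hlm : l ≠ m := by
      intro hlm
      rw [← hlm] at hy1
      obtain ⟨z, hz⟩ := y.2
      apply hy0
      rw [← hz] at hy1 ⊢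
      rw [hbx] at hy1 ⊢
      rw [sq_zero hp ha l hy1, sub_self]
    have hbm : Ei a m ≠ ⊥ := (Submodule.ne_bot_iff _).2 ⟨y, hym, hy0⟩
    have htm : Ei a m ≠ ⊤ := by
      intro h0
      apply hlm
      have h1 : x ∈ Ei a m := h0 ▸ Submodule.mem_top
      rw [mem_Ei, hx1] at h1
      have h2 : ((l : ℂ) - m) • x = 0 := by rw [sub_smul, h1, sub_self]
      rcases smul_eq_zero.1 h2 with h3 | h3
      · rw [sub_eq_zero] at h3
        exact_mod_cast h3
      · exact absurd h3 hx0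
    have hne : Ei a l ≠ Ei a m := by
      intro h0
      rw [h0, mem_Ei, hx1] at hxl
      have h2 : ((l : ℂ) - m) • x = 0 := by rw [sub_smul, hxl, sub_self]
      rcases smul_eq_zero.1 h2 with h3 | h3
      · apply hlm
        rw [sub_eq_zero] at h3
        exact_mod_cast h3
      · exact hx0 h3
    have s1 := Ei_stable (ρ := ρ) hc l
    have s2 := Ei_stable (ρ := ρ) hc m
    obtain ⟨i1, d1⟩ := stable_lagr hσ s1 hb ht
    obtain ⟨i2, d2⟩ := stable_lagr hσ s2 hbm htm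
    exact ⟨l, m, hlm, stable_compl hσ s1 hb ht s2 hbm htm hne,
      fun x hx y hy => Ei_orth ha hlm hx hy, i1, i2, d1, d2⟩

/-- trace, trace of the square, determinant -/
lemma trace_det {a : V →ₗ[ℂ] V} {l m : ℝ} (hc : IsCompl (Ei a l) (Ei a m))
    (d1 : 2 * finrank ℂ (Ei a l) = finrank ℂ V) (d2 : 2 * finrank ℂ (Ei a m) = finrank ℂ V) :
    LinearMap.trace ℂ V a = (finrank ℂ (Ei a l) : ℂ) * (l + m) ∧
    LinearMap.trace ℂ V (a * a) = (finrank ℂ (Ei a l) : ℂ) * (l ^ 2 + m ^ 2) ∧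
    LinearMap.det a = ((l : ℂ) * m) ^ (finrank ℂ (Ei a l)) := by
  have hfr : finrank ℂ (Ei a m) = finrank ℂ (Ei a l) := by omega
  let e := Submodule.prodEquivOfIsCompl (Ei a l) (Ei a m) hc
  let c : (Ei a l × Ei a m) →ₗ[ℂ] (Ei a l × Ei a m) :=
    ((l : ℂ) • LinearMap.id).prodMap ((m : ℂ) • LinearMap.id)
  have hconj : a = e.toLinearMap ∘ₗ c ∘ₗ e.symm.toLinearMap := by
    apply LinearMap.ext
    intro x
    obtain ⟨⟨y, z⟩, rfl⟩ := e.surjective x
    have h1 : e (y, z) = (y : V) + z := rfl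
    rw [LinearMap.comp_apply, LinearMap.comp_apply]
    have h2 : e.symm.toLinearMap (e (y, z)) = (y, z) := e.symm_apply_apply _
    rw [h2]
    have h3 : c (y, z) = ((l : ℂ) • y, (m : ℂ) • z) := rfl
    rw [h3, h1, map_add, mem_Ei.1 y.2, mem_Ei.1 z.2]
    rfl
  have hconj2 : a * a = e.toLinearMap ∘ₗ (c * c) ∘ₗ e.symm.toLinearMap := by
    conv_lhs => rw [hconj]
    apply LinearMap.ext
    intro x
    simp [Module.End.mul_apply]
  have ht : ∀ c' : (Ei a l × Ei a m) →ₗ[ℂ] (Ei a l × Ei a m),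
      LinearMap.trace ℂ V (e.toLinearMap ∘ₗ c' ∘ₗ e.symm.toLinearMap) = LinearMap.trace ℂ _ c' := by
    intro c'
    exact LinearMap.trace_conj' c' e
  have hcc : c * c = (((l : ℂ) ^ 2) • LinearMap.id).prodMap (((m : ℂ) ^ 2) • LinearMap.id) := by
    apply LinearMap.ext
    rintro ⟨y, z⟩
    change ((l : ℂ) • ((l : ℂ) • y), (m : ℂ) • ((m : ℂ) • z)) = ((l : ℂ) ^ 2 • y, (m : ℂ) ^ 2 • z)
    rw [smul_smul, smul_smul, sq, sq]
  refine ⟨?_, ?_, ?_⟩
  · conv_lhs => rw [hconj]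
    rw [ht, LinearMap.trace_prodMap']
    rw [map_smul, map_smul, LinearMap.trace_id, LinearMap.trace_id, hfr]
    simp only [smul_eq_mul]
    ring
  · rw [hconj2, ht, hcc, LinearMap.trace_prodMap', map_smul, map_smul, LinearMap.trace_id,
      LinearMap.trace_id, hfr]
    simp only [smul_eq_mul]
    ring
  · conv_lhs => rw [hconj]
    have h1 : LinearMap.det (e.toLinearMap ∘ₗ c ∘ₗ e.symm.toLinearMap) = LinearMap.det c :=
      LinearMap.det_conj c e
    rw [h1, LinearMap.det_prodMap, LinearMap.det_smul, LinearMap.det_smul, LinearMap.det_id,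
      LinearMap.det_id, hfr, mul_pow, mul_one, mul_one]

end

end Pool.Agent.MP_e4ecdb_ag.BB
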