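import Pool.Agent.MP_e4ecdb_ag.BBb
open Module

namespace Pool.Agent.MP_e4ecdb_ag.BB

variable {V : Type} [AddCommGroup V] [Module ℂ V] {G : Type} [Group G]

section
variable [FiniteDimensional ℂ V] {ρ : Representation ℂ G V} {h : V →ₗ⋆[ℂ] V →ₗ[ℂ] ℂ}

lemma tr_smul (c : ℝ) (a : V →ₗ[ℂ] V) :
    LinearMap.trace ℂ V (c • a) = (c : ℂ) * LinearMap.trace ℂ V a := by
  have h1 : c • a = (c : ℂ) • a := rfl
  rw [h1, map_smul, smul_eq_mul]

/-- the Beauville-Bogomolov form, in terms of traces -/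
noncomputable def BF (hp : ∀ x, x ≠ 0 → 0 < (h x x).re) :
    LinearMap.BilinForm ℝ (V →ₗ⋆[ℂ] V →ₗ[ℂ] ℂ) :=
  LinearMap.mk₂ ℝ (fun H H' => (2 * LinearMap.trace ℂ V (opL hp H) * LinearMap.trace ℂ V (opL hp H') /
      (finrank ℂ V : ℂ) ^ 2 - LinearMap.trace ℂ V (opL hp H * opL hp H') / (finrank ℂ V : ℂ)).re)
    (fun H₁ H₂ H' => by
      rw [← Complex.add_re, (opL hp).map_add, add_mul, LinearMap.map_add, LinearMap.map_add]
      congr 1
      ring)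
    (fun c H H' => by
      rw [(opL hp).map_smul, smul_mul_assoc, smul_eq_mul, ← Complex.re_ofReal_mul, tr_smul, tr_smul]
      congr 1
      ring)
    (fun H H₁ H₂ => by
      rw [← Complex.add_re, (opL hp).map_add, mul_add, LinearMap.map_add, LinearMap.map_add]
      congr 1
      ring)
    (fun c H H' => by
      rw [(opL hp).map_smul, mul_smul_comm, smul_eq_mul, ← Complex.re_ofReal_mul, tr_smul, tr_smul]
      congr 1
      ring)

lemma BF_apply (hp : ∀ x, x ≠ 0 → 0 < (h x x).re) (H H' : V →ₗ⋆[ℂ] V →ₗ[ℂ] ℂ) :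
    BF hp H H' = (2 * LinearMap.trace ℂ V (op hp H) * LinearMap.trace ℂ V (op hp H') /
      (finrank ℂ V : ℂ) ^ 2 - LinearMap.trace ℂ V (op hp H * op hp H') / (finrank ℂ V : ℂ)).re := rfl

lemma BF_symm (hp : ∀ x, x ≠ 0 → 0 < (h x x).re) (H H' : V →ₗ⋆[ℂ] V →ₗ[ℂ] ℂ) :
    BF hp H H' = BF hp H' H := by
  rw [BF_apply, BF_apply, LinearMap.trace_mul_comm]
  congr 2
  ring

lemma op_h (hp : ∀ x, x ≠ 0 → 0 < (h x x).re) : op hp h = LinearMap.id := by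
  symm
  apply op_unique
  intro x y
  rfl

/-- the two cases for an invariant hermitian form -/
inductive Cls (σ : LinearMap.BilinForm ℂ V) (hp : ∀ x, x ≠ 0 → 0 < (h x x).re)
    (H : V →ₗ⋆[ℂ] V →ₗ[ℂ] ℂ) : Prop
  | sc (l : ℝ) (hl : ∀ x, op hp H x = (l : ℂ) • x)
  | two (l m : ℝ) (hlm : l ≠ m) (hc : IsCompl (Ei (op hp H) l) (Ei (op hp H) m))
      (ho : ∀ x ∈ Ei (op hp H) l, ∀ y ∈ Ei (op hp H) m, h x y = 0)
      (i1 : ∀ x ∈ Ei (op hp H) l, ∀ y ∈ Ei (op hp H) l, σ x y = 0)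
      (i2 : ∀ x ∈ Ei (op hp H) m, ∀ y ∈ Ei (op hp H) m, σ x y = 0)
      (d1 : 2 * finrank ℂ (Ei (op hp H) l) = finrank ℂ V)
      (d2 : 2 * finrank ℂ (Ei (op hp H) m) = finrank ℂ V)

lemma cls [Nontrivial V] [Finite G] {σ : LinearMap.BilinForm ℂ V} (hσ : IsPrimitiveSymplectic ρ σ)
    (hp : ∀ x, x ≠ 0 → 0 < (h x x).re) (hh : h ∈ InvHerm ρ) {H : V →ₗ⋆[ℂ] V →ₗ[ℂ] ℂ}
    (hH : H ∈ InvHerm ρ) : Cls σ hp H := by
  rcases two_eig hσ hp (op_self hp hh.1 hH.1) (op_comm hp hh hH) with ⟨l, hl⟩ | ⟨l, m, h1, h2, h3, h4, h5, h6, h7⟩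
  · exact Cls.sc l hl
  · exact Cls.two l m h1 h2 h3 h4 h5 h6 h7

lemma sc_trace {a : V →ₗ[ℂ] V} {l : ℝ} (hl : ∀ x, a x = (l : ℂ) • x) :
    LinearMap.trace ℂ V a = (l : ℂ) * finrank ℂ V ∧
    LinearMap.trace ℂ V (a * a) = (l : ℂ) ^ 2 * finrank ℂ V ∧
    LinearMap.det a = (l : ℂ) ^ (finrank ℂ V) := by
  have h1 : a = (l : ℂ) • LinearMap.id := LinearMap.ext hl
  have h2 : a * a = ((l : ℂ) ^ 2) • LinearMap.id := by
    apply LinearMap.ext
    intro x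
    rw [Module.End.mul_apply, hl, hl, smul_smul, ← sq]
    rfl
  refine ⟨?_, ?_, ?_⟩
  · rw [h1, map_smul, LinearMap.trace_id, smul_eq_mul]
  · rw [h2, map_smul, LinearMap.trace_id, smul_eq_mul]
  · rw [h1, LinearMap.det_smul, LinearMap.det_id, mul_one]

variable [Nontrivial V]

lemma q_sc (hp : ∀ x, x ≠ 0 → 0 < (h x x).re) {H : V →ₗ⋆[ℂ] V →ₗ[ℂ] ℂ} {l : ℝ}
    (hl : ∀ x, op hp H x = (l : ℂ) • x) : BF hp H H = l ^ 2 ∧ BF hp h H = l := by
  obtain ⟨t1, t2, _⟩ := sc_trace hl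
  have hd : (finrank ℂ V : ℂ) ≠ 0 := by exact_mod_cast finrank_pos.ne'
  constructor
  · rw [BF_apply, t1, t2]
    have : 2 * ((l : ℂ) * finrank ℂ V) * ((l : ℂ) * finrank ℂ V) / (finrank ℂ V : ℂ) ^ 2 -
        (l : ℂ) ^ 2 * finrank ℂ V / (finrank ℂ V : ℂ) = ((l ^ 2 : ℝ) : ℂ) := by
      push_cast
      field_simp
      ring
    rw [this, Complex.ofReal_re]
  · rw [BF_apply, op_h, LinearMap.trace_id]
    have e1 : (LinearMap.id : V →ₗ[ℂ] V) * op hp H = op hp H := rfl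
    rw [e1, t1]
    have : 2 * (finrank ℂ V : ℂ) * ((l : ℂ) * finrank ℂ V) / (finrank ℂ V : ℂ) ^ 2 -
        (l : ℂ) * finrank ℂ V / (finrank ℂ V : ℂ) = (l : ℂ) := by
      field_simp
      ring
    rw [this, Complex.ofReal_re]

lemma q_two (hp : ∀ x, x ≠ 0 → 0 < (h x x).re) {H : V →ₗ⋆[ℂ] V →ₗ[ℂ] ℂ} {l m : ℝ}
    (hc : IsCompl (Ei (op hp H) l) (Ei (op hp H) m))
    (d1 : 2 * finrank ℂ (Ei (op hp H) l) = finrank ℂ V)
    (d2 : 2 * finrank ℂ (Ei (op hp H) m) = finrank ℂ V) :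
    BF hp H H = l * m ∧ BF hp h H = (l + m) / 2 := by
  obtain ⟨t1, t2, _⟩ := trace_det hc d1 d2
  have hd : (finrank ℂ (Ei (op hp H) l) : ℂ) ≠ 0 := by
    have := finrank_pos (R := ℂ) (M := V)
    have h2 : finrank ℂ (Ei (op hp H) l) ≠ 0 := by omega
    exact_mod_cast h2
  have hd2 : (finrank ℂ V : ℂ) = 2 * finrank ℂ (Ei (op hp H) l) := by exact_mod_cast d1.symm
  constructor
  · rw [BF_apply, t1, t2, hd2]
    set d : ℂ := (finrank ℂ (Ei (op hp H) l) : ℂ)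
    have : 2 * (d * (l + m)) * (d * (l + m)) / (2 * d) ^ 2 - d * (l ^ 2 + m ^ 2) / (2 * d) =
        ((l * m : ℝ) : ℂ) := by
      push_cast
      field_simp
      ring
    rw [this, Complex.ofReal_re]
  · rw [BF_apply, op_h, LinearMap.trace_id]
    have e1 : (LinearMap.id : V →ₗ[ℂ] V) * op hp H = op hp H := rfl
    rw [e1, t1, hd2]
    set d : ℂ := (finrank ℂ (Ei (op hp H) l) : ℂ)
    have : 2 * (2 * d) * (d * (l + m)) / (2 * d) ^ 2 - d * (l + m) / (2 * d) =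
        (((l + m) / 2 : ℝ) : ℂ) := by
      push_cast
      field_simp
      ring
    rw [this, Complex.ofReal_re]

/-- Fujiki relation, operator form -/
lemma fujiki_op [Finite G] {σ : LinearMap.BilinForm ℂ V} (hσ : IsPrimitiveSymplectic ρ σ)
    (hp : ∀ x, x ≠ 0 → 0 < (h x x).re) (hh : h ∈ InvHerm ρ) {n : ℕ} (hn : finrank ℂ V = 2 * n)
    {H : V →ₗ⋆[ℂ] V →ₗ[ℂ] ℂ} (hH : H ∈ InvHerm ρ) :
    LinearMap.det (op hp H) = ((BF hp H H : ℝ) : ℂ) ^ n := by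
  rcases cls hσ hp hh hH with ⟨l, hl⟩ | ⟨l, m, hlm, hc, ho, i1, i2, d1, d2⟩
  · rw [(sc_trace hl).2.2, (q_sc hp hl).1, hn, pow_mul]
    push_cast
    rfl
  · rw [(trace_det hc d1 d2).2.2, (q_two hp hc d1 d2).1]
    have : finrank ℂ (Ei (op hp H) l) = n := by omega
    rw [this]
    push_cast
    rfl

/-- the matrix of a form in a basis -/
lemma det_matrix (hp : ∀ x, x ≠ 0 → 0 < (h x x).re) (H : V →ₗ⋆[ℂ] V →ₗ[ℂ] ℂ)
    {ι : Type} [Fintype ι] [DecidableEq ι] (b : Basis ι ℂ V) :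
    (Matrix.of fun i j => H (b i) (b j)).det =
      (starRingEnd ℂ) (LinearMap.det (op hp H)) * (Matrix.of fun i j => h (b i) (b j)).det := by
  have h1 : (Matrix.of fun i j => H (b i) (b j)) =
      ((starRingEnd ℂ).mapMatrix (LinearMap.toMatrix b b (op hp H))).transpose *
        (Matrix.of fun i j => h (b i) (b j)) := by
    ext i j
    rw [Matrix.mul_apply]
    simp only [Matrix.of_apply, Matrix.transpose_apply, RingHom.mapMatrix_apply, Matrix.map_apply,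
      LinearMap.toMatrix_apply]
    rw [← op_spec hp]
    conv_lhs => rw [← b.sum_repr (op hp H (b i))]
    rw [map_sum, LinearMap.sum_apply]
    refine Finset.sum_congr rfl fun k _ => ?_
    rw [LinearMap.map_smulₛₗ, LinearMap.smul_apply, smul_eq_mul]
  rw [h1, Matrix.det_mul, Matrix.det_transpose, ← RingHom.map_det, LinearMap.det_toMatrix]

/-- signature of the form: negative definite on the orthogonal of `h` -/
lemma neg_def [Finite G] {σ : LinearMap.BilinForm ℂ V} (hσ : IsPrimitiveSymplectic ρ σ)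
    (hp : ∀ x, x ≠ 0 → 0 < (h x x).re) (hh : h ∈ InvHerm ρ)
    {H : V →ₗ⋆[ℂ] V →ₗ[ℂ] ℂ} (hH : H ∈ InvHerm ρ) (h0 : BF hp h H = 0) (hne : H ≠ 0) :
    BF hp H H < 0 := by
  rcases cls hσ hp hh hH with ⟨l, hl⟩ | ⟨l, m, hlm, hc, ho, i1, i2, d1, d2⟩
  · exfalso
    rw [(q_sc hp hl).2] at h0
    apply hne
    apply LinearMap.ext
    intro x
    apply LinearMap.ext
    intro y
    rw [← op_spec hp, hl, h0]
    simp
  · rw [(q_two hp hc d1 d2).2] at h0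
    rw [(q_two hp hc d1 d2).1]
    have hm : m = - l := by linarith
    subst hm
    have : l ≠ 0 := fun h => hlm (by rw [h]; simp)
    have := mul_self_pos.2 this
    linarith

end

end Pool.Agent.MP_e4ecdb_ag.BB
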