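import Pool.Agent.MP_e4ecdb_ag.BBc
open Module

namespace Pool.Agent.MP_e4ecdb_ag.BB

variable {V : Type} [AddCommGroup V] [Module ℂ V] {G : Type} [Group G]

section
variable [FiniteDimensional ℂ V] {ρ : Representation ℂ G V} {h : V →ₗ⋆[ℂ] V →ₗ[ℂ] ℂ}

lemma quad_two (hp : ∀ x, x ≠ 0 → 0 < (h x x).re) (hh : ∀ x y, h x y = (starRingEnd ℂ) (h y x))
    {H : V →ₗ⋆[ℂ] V →ₗ[ℂ] ℂ} {l m : ℝ}
    (ho : ∀ x ∈ Ei (op hp H) l, ∀ y ∈ Ei (op hp H) m, h x y = 0) {y z : V}
    (hy : y ∈ Ei (op hp H) l) (hz : z ∈ Ei (op hp H) m) :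
    (H (y + z) (y + z)).re = l * (h y y).re + m * (h z z).re := by
  have h1 : h y z = 0 := ho y hy z hz
  have h2 : h z y = 0 := by rw [hh, h1, map_zero]
  have e1 : op hp H (y + z) = (l : ℂ) • y + (m : ℂ) • z := by
    rw [map_add, mem_Ei.1 hy, mem_Ei.1 hz]
  have e2 : h ((l : ℂ) • y + (m : ℂ) • z) = (l : ℂ) • h y + (m : ℂ) • h z := by
    rw [map_add, LinearMap.map_smulₛₗ, LinearMap.map_smulₛₗ, Complex.conj_ofReal,
      Complex.conj_ofReal]
  rw [← op_spec hp, e1, e2, LinearMap.add_apply, LinearMap.smul_apply, LinearMap.smul_apply, map_add,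
    map_add, h1, h2, smul_eq_mul, smul_eq_mul, zero_add,
    add_zero, Complex.add_re, Complex.re_ofReal_mul, Complex.re_ofReal_mul]

lemma quad_sc (hp : ∀ x, x ≠ 0 → 0 < (h x x).re)
    {H : V →ₗ⋆[ℂ] V →ₗ[ℂ] ℂ} {l : ℝ} (hl : ∀ x, op hp H x = (l : ℂ) • x) (x y : V) :
    H x y = (l : ℂ) * h x y := by
  rw [← op_spec hp, hl, LinearMap.map_smulₛₗ, LinearMap.smul_apply, Complex.conj_ofReal, smul_eq_mul]

lemma re_nonneg (hp : ∀ x, x ≠ 0 → 0 < (h x x).re) (x : V) : 0 ≤ (h x x).re := by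
  by_cases hx : x = 0
  · rw [hx]; simp
  · exact (hp x hx).le

variable [Nontrivial V] [Finite G] {σ : LinearMap.BilinForm ℂ V}

theorem definite_of_pos (hσ : IsPrimitiveSymplectic ρ σ) (hp : ∀ x, x ≠ 0 → 0 < (h x x).re)
    (hh : h ∈ InvHerm ρ) {H : V →ₗ⋆[ℂ] V →ₗ[ℂ] ℂ} (hH : H ∈ InvHerm ρ) (hq : 0 < BF hp H H) :
    (∀ x, x ≠ 0 → 0 < (H x x).re) ∨ (∀ x, x ≠ 0 → (H x x).re < 0) := by
  rcases cls hσ hp hh hH with ⟨l, hl⟩ | ⟨l, m, hlm, hc, ho, i1, i2, d1, d2⟩
  · rw [(q_sc hp hl).1] at hq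
    have hl0 : l ≠ 0 := fun h0 => by rw [h0] at hq; norm_num at hq
    rcases lt_or_gt_of_ne hl0 with h1 | h1
    · right
      intro x hx
      rw [quad_sc hp hl, Complex.re_ofReal_mul]
      exact mul_neg_of_neg_of_pos h1 (hp x hx)
    · left
      intro x hx
      rw [quad_sc hp hl, Complex.re_ofReal_mul]
      exact mul_pos h1 (hp x hx)
  · rw [(q_two hp hc d1 d2).1] at hq
    have key : ∀ x : V, x ≠ 0 → ∃ y z : V, x = y + z ∧ y ∈ Ei (op hp H) l ∧ z ∈ Ei (op hp H) m ∧
        (y ≠ 0 ∨ z ≠ 0) := by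
      intro x hx
      have hx' : x ∈ Ei (op hp H) l ⊔ Ei (op hp H) m := by rw [hc.sup_eq_top]; trivial
      obtain ⟨y, hy, z, hz, rfl⟩ := Submodule.mem_sup.1 hx'
      refine ⟨y, z, rfl, hy, hz, ?_⟩
      by_contra hcon
      push Not at hcon
      apply hx
      rw [hcon.1, hcon.2, add_zero]
    rcases mul_pos_iff.1 hq with ⟨h1, h2⟩ | ⟨h1, h2⟩
    · left
      intro x hx
      obtain ⟨y, z, rfl, hy, hz, hyz⟩ := key x hx
      rw [quad_two hp hh.1 ho hy hz]
      have e1 := re_nonneg hp y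
      have e2 := re_nonneg hp z
      rcases hyz with h3 | h3
      · have := mul_pos h1 (hp y h3)
        have := mul_nonneg h2.le e2
        linarith
      · have := mul_pos h2 (hp z h3)
        have := mul_nonneg h1.le e1
        linarith
    · right
      intro x hx
      obtain ⟨y, z, rfl, hy, hz, hyz⟩ := key x hx
      rw [quad_two hp hh.1 ho hy hz]
      have e1 := re_nonneg hp y
      have e2 := re_nonneg hp z
      rcases hyz with h3 | h3
      · have := mul_neg_of_neg_of_pos h1 (hp y h3)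
        have := mul_nonpos_of_nonpos_of_nonneg h2.le e2
        linarith
      · have := mul_neg_of_neg_of_pos h2 (hp z h3)
        have := mul_nonpos_of_nonpos_of_nonneg h1.le e1
        linarith

/-- an eigenspace of half dimension contains a nonzero vector -/
lemma exists_ne_zero_of_half {K : Submodule ℂ V} (d : 2 * finrank ℂ K = finrank ℂ V) :
    ∃ x ∈ K, x ≠ 0 := by
  have h1 : K ≠ ⊥ := by
    intro h0
    rw [h0, finrank_bot] at d
    have := finrank_pos (R := ℂ) (M := V)
    omega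
  exact (Submodule.ne_bot_iff K).1 h1

/-- isotropic classes are, up to sign, semipositive, and the radical is an eigenspace -/
theorem semipos_of_zero (hσ : IsPrimitiveSymplectic ρ σ) (hp : ∀ x, x ≠ 0 → 0 < (h x x).re)
    (hh : h ∈ InvHerm ρ) {H : V →ₗ⋆[ℂ] V →ₗ[ℂ] ℂ} (hH : H ∈ InvHerm ρ) (hne : H ≠ 0)
    (hq : BF hp H H = 0) :
    ((∀ x, 0 ≤ (H x x).re) ∨ (∀ x, (H x x).re ≤ 0)) ∧ (∃ x, x ≠ 0 ∧ ∀ y, H x y = 0) := by
  have hrad : ∀ x ∈ Ei (op hp H) 0, ∀ y, H x y = 0 := by
    intro x hx y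
    rw [← op_spec hp, mem_Ei.1 hx]
    simp
  rcases cls hσ hp hh hH with ⟨l, hl⟩ | ⟨l, m, hlm, hc, ho, i1, i2, d1, d2⟩
  · exfalso
    rw [(q_sc hp hl).1] at hq
    have hl0 : l = 0 := by
      rcases pow_eq_zero_iff (two_ne_zero) |>.1 hq with h
      exact h
    apply hne
    apply LinearMap.ext
    intro x
    apply LinearMap.ext
    intro y
    rw [quad_sc hp hl, hl0]
    simp
  · rw [(q_two hp hc d1 d2).1] at hq
    have key : ∀ x : V, ∃ y z : V, x = y + z ∧ y ∈ Ei (op hp H) l ∧ z ∈ Ei (op hp H) m := by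
      intro x
      have hx' : x ∈ Ei (op hp H) l ⊔ Ei (op hp H) m := by rw [hc.sup_eq_top]; trivial
      obtain ⟨y, hy, z, hz, rfl⟩ := Submodule.mem_sup.1 hx'
      exact ⟨y, z, rfl, hy, hz⟩
    have hx0 : ∃ x, x ≠ 0 ∧ x ∈ Ei (op hp H) 0 := by
      rcases mul_eq_zero.1 hq with h0 | h0
      · obtain ⟨x, hx, hx0⟩ := exists_ne_zero_of_half d1
        exact ⟨x, hx0, h0 ▸ hx⟩
      · obtain ⟨x, hx, hx0⟩ := exists_ne_zero_of_half d2
        exact ⟨x, hx0, h0 ▸ hx⟩
    obtain ⟨x, hx, hxE⟩ := hx0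
    refine ⟨?_, x, hx, hrad x hxE⟩
    have hsign : (0 ≤ l ∧ 0 ≤ m) ∨ (l ≤ 0 ∧ m ≤ 0) := by
      rcases mul_eq_zero.1 hq with h0 | h0
      · rcases le_total 0 m with h1 | h1
        · left; exact ⟨h0.ge, h1⟩
        · right; exact ⟨h0.le, h1⟩
      · rcases le_total 0 l with h1 | h1
        · left; exact ⟨h1, h0.ge⟩
        · right; exact ⟨h1, h0.le⟩
    rcases hsign with ⟨h1, h2⟩ | ⟨h1, h2⟩
    · left
      intro x
      obtain ⟨y, z, rfl, hy, hz⟩ := key x
      rw [quad_two hp hh.1 ho hy hz]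
      have e1 := mul_nonneg h1 (re_nonneg hp y)
      have e2 := mul_nonneg h2 (re_nonneg hp z)
      linarith
    · right
      intro x
      obtain ⟨y, z, rfl, hy, hz⟩ := key x
      rw [quad_two hp hh.1 ho hy hz]
      have e1 := mul_nonpos_of_nonpos_of_nonneg h1 (re_nonneg hp y)
      have e2 := mul_nonpos_of_nonpos_of_nonneg h2 (re_nonneg hp z)
      linarith

/-- negative classes take both signs -/
theorem both_of_neg (hσ : IsPrimitiveSymplectic ρ σ) (hp : ∀ x, x ≠ 0 → 0 < (h x x).re)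
    (hh : h ∈ InvHerm ρ) {H : V →ₗ⋆[ℂ] V →ₗ[ℂ] ℂ} (hH : H ∈ InvHerm ρ) (hq : BF hp H H < 0) :
    (∃ x, 0 < (H x x).re) ∧ (∃ x, (H x x).re < 0) := by
  rcases cls hσ hp hh hH with ⟨l, hl⟩ | ⟨l, m, hlm, hc, ho, i1, i2, d1, d2⟩
  · exfalso
    rw [(q_sc hp hl).1] at hq
    nlinarith [sq_nonneg l]
  · rw [(q_two hp hc d1 d2).1] at hq
    obtain ⟨x, hx, hx0⟩ := exists_ne_zero_of_half d1
    obtain ⟨y, hy, hy0⟩ := exists_ne_zero_of_half d2
    have e1 : (H x x).re = l * (h x x).re := by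
      have := quad_two hp hh.1 ho hx (Submodule.zero_mem _)
      simpa using this
    have e2 : (H y y).re = m * (h y y).re := by
      have := quad_two hp hh.1 ho (Submodule.zero_mem _) hy
      simpa using this
    rcases mul_neg_iff.1 hq with ⟨h1, h2⟩ | ⟨h1, h2⟩
    · exact ⟨⟨x, by rw [e1]; exact mul_pos h1 (hp x hx0)⟩,
        ⟨y, by rw [e2]; exact mul_neg_of_neg_of_pos h2 (hp y hy0)⟩⟩
    · exact ⟨⟨y, by rw [e2]; exact mul_pos h2 (hp y hy0)⟩,
        ⟨x, by rw [e1]; exact mul_neg_of_neg_of_pos h1 (hp x hx0)⟩⟩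

end

/-- a positive definite invariant hermitian form exists -/
theorem exists_posdef [FiniteDimensional ℂ V] [Finite G] (ρ : Representation ℂ G V) :
    ∃ h ∈ InvHerm ρ, ∀ x, x ≠ 0 → 0 < (h x x).re := by
  classical
  have := Fintype.ofFinite G
  let b := Module.finBasis ℂ V
  let h1 : V →ₗ⋆[ℂ] V →ₗ[ℂ] ℂ := LinearMap.mk₂'ₛₗ (starRingEnd ℂ) (RingHom.id ℂ)
    (fun x y => ∑ g : G, ∑ i, (starRingEnd ℂ) (b.repr (ρ g x) i) * b.repr (ρ g y) i)
    (fun x x' y => by
      rw [← Finset.sum_add_distrib]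
      refine Finset.sum_congr rfl fun g _ => ?_
      rw [← Finset.sum_add_distrib]
      refine Finset.sum_congr rfl fun i _ => ?_
      simp only [map_add, Finsupp.add_apply]
      ring)
    (fun c x y => by
      rw [smul_eq_mul, Finset.mul_sum]
      refine Finset.sum_congr rfl fun g _ => ?_
      rw [Finset.mul_sum]
      refine Finset.sum_congr rfl fun i _ => ?_
      simp only [map_smul, Finsupp.smul_apply, smul_eq_mul, map_mul]
      ring)
    (fun x y y' => by
      rw [← Finset.sum_add_distrib]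
      refine Finset.sum_congr rfl fun g _ => ?_
      rw [← Finset.sum_add_distrib]
      refine Finset.sum_congr rfl fun i _ => ?_
      simp only [map_add, Finsupp.add_apply]
      ring)
    (fun c x y => by
      rw [smul_eq_mul, Finset.mul_sum]
      refine Finset.sum_congr rfl fun g _ => ?_
      rw [Finset.mul_sum]
      refine Finset.sum_congr rfl fun i _ => ?_
      simp only [map_smul, Finsupp.smul_apply, smul_eq_mul, RingHom.id_apply]
      ring)
  have h1a : ∀ x y, h1 x y = ∑ g : G, ∑ i, (starRingEnd ℂ) (b.repr (ρ g x) i) * b.repr (ρ g y) i :=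
    fun x y => rfl
  refine ⟨h1, ⟨?_, ?_⟩, ?_⟩
  · intro x y
    rw [h1a, h1a, map_sum]
    refine Finset.sum_congr rfl fun g _ => ?_
    rw [map_sum]
    refine Finset.sum_congr rfl fun i _ => ?_
    rw [map_mul, Complex.conj_conj, mul_comm]
  · intro g x y
    rw [h1a, h1a]
    refine Fintype.sum_equiv (Equiv.mulRight g) _ _ fun g' => ?_
    have e : ∀ z, ρ g' (ρ g z) = ρ (g' * g) z := fun z => by
      rw [map_mul, Module.End.mul_apply]
    rw [e, e]
    rfl
  · intro x hx
    have e1 : ∀ g : G, (∑ i, (starRingEnd ℂ) (b.repr (ρ g x) i) * b.repr (ρ g x) i).re =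
        ∑ i, Complex.normSq (b.repr (ρ g x) i) := by
      intro g
      rw [Complex.re_sum]
      refine Finset.sum_congr rfl fun i _ => ?_
      rw [← Complex.normSq_eq_conj_mul_self, Complex.ofReal_re]
    rw [h1a, Complex.re_sum]
    refine Finset.sum_pos' (fun g _ => ?_) ⟨1, Finset.mem_univ _, ?_⟩
    · rw [e1]
      exact Finset.sum_nonneg fun i _ => Complex.normSq_nonneg _
    · rw [e1, map_one, Module.End.one_apply]
      have h2 : ∃ i, b.repr x i ≠ 0 := by
        by_contra hcon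
        push Not at hcon
        apply hx
        apply b.repr.injective
        ext i
        rw [hcon i]; simp
      obtain ⟨i, hi⟩ := h2
      exact Finset.sum_pos' (fun i _ => Complex.normSq_nonneg _)
        ⟨i, Finset.mem_univ _, Complex.normSq_pos.2 hi⟩

/-- a symplectic vector space has even dimension -/
theorem even_finrank [FiniteDimensional ℂ V] {σ : LinearMap.BilinForm ℂ V}
    (hnd : ∀ x, (∀ y, σ x y = 0) → x = 0) (halt : ∀ x, σ x x = 0) : Even (finrank ℂ V) := by
  classical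
  have hsk : ∀ x y, σ x y = - σ y x := fun x y => by
    have := halt (x + y)
    simp only [map_add, LinearMap.add_apply, halt] at this
    linear_combination this
  have hN : σ.Nondegenerate := by
    constructor
    · exact hnd
    · intro y hy
      apply hnd
      intro x
      rw [hsk, hy, neg_zero]
  let b := Module.finBasis ℂ V
  have hd := (LinearMap.BilinForm.nondegenerate_iff_det_ne_zero b).1 hN
  have ht : (LinearMap.BilinForm.toMatrix b σ).transpose = - LinearMap.BilinForm.toMatrix b σ := by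
    ext i j
    rw [Matrix.transpose_apply, Matrix.neg_apply, LinearMap.BilinForm.toMatrix_apply,
      LinearMap.BilinForm.toMatrix_apply, hsk]
  have h1 := congrArg Matrix.det ht
  rw [Matrix.det_transpose, Matrix.det_neg, Fintype.card_fin] at h1
  by_contra hodd
  rw [Nat.not_even_iff_odd] at hodd
  rw [hodd.neg_one_pow] at h1
  apply hd
  linear_combination (1 / 2 : ℂ) * h1

open ComplexOrder in
/-- the Gram determinant of a positive definite form is positive -/
theorem gram_pos {h : V →ₗ⋆[ℂ] V →ₗ[ℂ] ℂ} (hh : ∀ x y, h x y = (starRingEnd ℂ) (h y x))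
    (hp : ∀ x, x ≠ 0 → 0 < (h x x).re) {ι : Type} [Fintype ι] [DecidableEq ι] (b : Basis ι ℂ V) :
    ∃ c : ℝ, 0 < c ∧ (Matrix.of fun i j => h (b i) (b j)).det = (c : ℂ) := by
  have hM : (Matrix.of fun i j => h (b i) (b j)).PosDef := by
    rw [Matrix.posDef_iff_dotProduct_mulVec]
    refine ⟨?_, ?_⟩
    · ext i j
      rw [Matrix.conjTranspose_apply, Matrix.of_apply, Matrix.of_apply, hh]
      exact (Complex.conj_conj _)
    · intro x hx
      have e1 : dotProduct (star x) (Matrix.mulVec (Matrix.of fun i j => h (b i) (b j)) x) =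
          h (∑ i, x i • b i) (∑ j, x j • b j) := by
        rw [map_sum h, LinearMap.sum_apply]
        simp only [dotProduct, Matrix.mulVec, Matrix.of_apply, Pi.star_apply]
        refine Finset.sum_congr rfl fun i _ => ?_
        rw [LinearMap.map_smulₛₗ, LinearMap.smul_apply, map_sum, smul_eq_mul]
        congr 1
        refine Finset.sum_congr rfl fun j _ => ?_
        rw [map_smul, smul_eq_mul, mul_comm]
      rw [e1]
      have hne : (∑ i, x i • b i) ≠ 0 := by
        intro h0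
        apply hx
        funext i
        exact (Fintype.linearIndependent_iff.1 b.linearIndependent x h0 i)
      have h2 := hp _ hne
      set y := ∑ i, x i • b i
      have h3 : (h y y).im = 0 := by
        have := congrArg Complex.im (hh y y)
        rw [Complex.conj_im] at this
        linarith
      rw [Complex.lt_def]
      exact ⟨by simpa using h2, by simp [h3]⟩
  have h1 := hM.det_pos
  rw [Complex.lt_def] at h1
  refine ⟨(Matrix.of fun i j => h (b i) (b j)).det.re, h1.1, ?_⟩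
  apply Complex.ext
  · simp
  · simpa using h1.2.symm

end Pool.Agent.MP_e4ecdb_ag.BB
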