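import Pool.Agent.MP_e4ecdb_ag.TDefs
open Module

/-! The Beauville-Bogomolov-Fujiki form on `H^{1,1}(X, ℝ)` of a torus quotient `X = V / Γ`, and its
Lagrangian fibrations. -/

namespace Pool.Agent.MP_e4ecdb_ag

variable {V : Type} [NormedAddCommGroup V] [NormedSpace ℂ V]

/-- `H^{1,1}(X, ℝ)` for `X = V / Γ`: the real vector space of the `Γ`-invariant hermitian forms. -/
def H11 (Γ : Subgroup (V ≃ᵃ[ℂ] V)) : Submodule ℝ (V →ₗ⋆[ℂ] V →ₗ[ℂ] ℂ) where
  carrier := {H | (∀ x y, H x y = (starRingEnd ℂ) (H y x)) ∧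
    ∀ γ ∈ Γ, ∀ x y, H (γ.linear x) (γ.linear y) = H x y}
  add_mem' := by
    rintro H F ⟨h1, h2⟩ ⟨f1, f2⟩
    refine ⟨fun x y => ?_, fun γ hγ x y => ?_⟩
    · simp only [LinearMap.add_apply, map_add, ← h1, ← f1]
    · simp only [LinearMap.add_apply, h2 γ hγ, f2 γ hγ]
  zero_mem' := by
    refine ⟨fun x y => ?_, fun γ hγ x y => ?_⟩ <;> simp
  smul_mem' := by
    rintro r H ⟨h1, h2⟩
    refine ⟨fun x y => ?_, fun γ hγ x y => ?_⟩
    · have := h1 x y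
      simp only [LinearMap.smul_apply, Complex.real_smul, map_mul, Complex.conj_ofReal]
      rw [← this]
    · simp only [LinearMap.smul_apply, h2 γ hγ]

/-- `H` is a Kaehler class: the hermitian form is positive definite. -/
def IsPos (H : V →ₗ⋆[ℂ] V →ₗ[ℂ] ℂ) : Prop := ∀ x, x ≠ 0 → 0 < (H x x).re

/-- `H` is a nef class: the hermitian form is positive semidefinite. -/
def IsNef (H : V →ₗ⋆[ℂ] V →ₗ[ℂ] ℂ) : Prop := ∀ x, 0 ≤ (H x x).re

/-- `H` is an integral class: its imaginary part takes integral values on lattice vectors. -/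
def IsInt (Γ : Subgroup (V ≃ᵃ[ℂ] V)) (H : V →ₗ⋆[ℂ] V →ₗ[ℂ] ℂ) : Prop :=
  ∀ x y, AffineEquiv.constVAdd ℂ V x ∈ Γ → AffineEquiv.constVAdd ℂ V y ∈ Γ →
    ∃ n : ℤ, (H x y).im = n

/-- `q` is the Beauville-Bogomolov-Fujiki form of `X = V / Γ` on `H^{1,1}(X, ℝ)` (up to a positive
factor): a quadratic form which satisfies Fujiki's relation `∫ H^(2n) = c q(H)^n`, `2n = dim X` (the
integral is a constant times the Gram determinant in any basis of `V`), and is positive on Kaehler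
classes. -/
structure IsBBF (Γ : Subgroup (V ≃ᵃ[ℂ] V)) (q : QuadraticForm ℝ (H11 Γ)) : Prop where
  fujiki : ∀ b : Basis (Fin (finrank ℂ V)) ℂ V, ∃ c : ℝ, 0 < c ∧ ∀ H : H11 Γ,
    (Matrix.of fun i j => H.1 (b i) (b j)).det = ((c * q H ^ (finrank ℂ V / 2) : ℝ) : ℂ)
  pos : ∀ H : H11 Γ, IsPos H.1 → 0 < q H

/-- The number of linear parts of `Γ`, that is, the order of `G` for `X = T / G`. -/
noncomputable def numLin (Γ : Subgroup (V ≃ᵃ[ℂ] V)) : ℕ :=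
  Set.ncard {A : V ≃ₗ[ℂ] V | ∃ γ ∈ Γ, γ.linear = A}

/-- The factor of automorphy of the dual line bundle. -/
noncomputable def dual (e : (V ≃ᵃ[ℂ] V) → V → ℂ) : (V ≃ᵃ[ℂ] V) → V → ℂ := fun γ v => (e γ v)⁻¹

/-- The linear system `|L^N|` on `X = V / Γ` has no base points, and the map it defines takes the same
value at `v` and `w` if and only if `w` is `Γ`-equivalent to a point of `v + K`: it is the quotient map
`X → (V / K) / Γ`. For `K = 0` it is injective on `X`. -/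
def Induces (Γ : Subgroup (V ≃ᵃ[ℂ] V)) (e : (V ≃ᵃ[ℂ] V) → V → ℂ) (K : Submodule ℂ V) (N : ℕ) :
    Prop :=
  (∀ v, ∃ s ∈ sections Γ e N, s v ≠ 0) ∧
    ∀ v w, (∀ s ∈ sections Γ e N, ∀ t ∈ sections Γ e N, s v * t w = s w * t v) ↔
      ∃ γ ∈ Γ, γ w - v ∈ K

/-- The exponents `N` of the theorem: the positive multiples of `3 g ^ 2`, `g` the number of linear
parts of `Γ`. -/
def Exps (Γ : Subgroup (V ≃ᵃ[ℂ] V)) : Set ℕ := {N | 1 ≤ N ∧ 3 * numLin Γ ^ 2 ∣ N}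

/-- The `Γ`-stable complex subspaces `K ≠ 0, V` of `V` spanned over `ℝ` by lattice vectors. They
correspond to the fibrations `X → (V / K) / Γ` of `X = V / Γ`. -/
def RatStable (Γ : Subgroup (V ≃ᵃ[ℂ] V)) : Set (Submodule ℂ V) :=
  {K | K ≠ ⊥ ∧ K ≠ ⊤ ∧ (∀ γ ∈ Γ, ∀ x ∈ K, γ.linear x ∈ K) ∧
    K.restrictScalars ℝ = Submodule.span ℝ {x | AffineEquiv.constVAdd ℂ V x ∈ Γ ∧ x ∈ K}}

end Pool.Agent.MP_e4ecdb_ag
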