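import Pool.Agent.MP_e4ecdb_ag.Herm
open Module

namespace Pool.Agent.MP_e4ecdb_ag

/-- linear algebra of torus quotients (helper95) -/
theorem lin_main {V : Type} [AddCommGroup V] [Module ℂ V] {ι : Type} [Fintype ι] (b : Basis ι ℝ V)
    {G : Type} [Group G] [Finite G] (ρ : Representation ℂ G V)
    (σ : LinearMap.BilinForm ℂ V) (hσ : IsPrimitiveSymplectic ρ σ)
    (H : V →ₗ⋆[ℂ] V →ₗ[ℂ] ℂ) (hH : IsChernForm ρ (Submodule.span ℤ (Set.range b)) H)
    (hne : H ≠ 0) (hdeg : ∃ x, x ≠ 0 ∧ ∀ y, H x y = 0) :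
    ∃ P : V →ₗ[ℂ] V, (∀ x, P x ∈ kerForm H) ∧ (∀ x ∈ kerForm H, P x = x) ∧
      (∀ x ∈ kerForm H, ∀ y ∈ kerForm H, σ x y = 0) ∧
      2 * finrank ℂ (kerForm H) = finrank ℂ V ∧
      (kerForm H).restrictScalars ℝ ≤
        Submodule.span ℝ {x | x ∈ Submodule.span ℤ (Set.range b) ∧
          x ∈ (kerForm H).restrictScalars ℝ} := by
  have hfin : FiniteDimensional ℝ V := Module.Finite.of_basis b
  have hfinC : FiniteDimensional ℂ V := Module.Finite.of_restrictScalars_finite ℝ ℂ V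
  have hstab : ∀ g, ∀ x ∈ kerForm H, ρ g x ∈ kerForm H := by
    intro g x hx
    rw [mem_kerForm] at hx ⊢
    intro y
    have h1 : ρ g (ρ g⁻¹ y) = y := by
      rw [← Module.End.mul_apply, ← map_mul, mul_inv_cancel, map_one]
      rfl
    rw [← h1, hH.inv]
    exact hx _
  obtain ⟨P, hP1, hP2, hP3⟩ := exists_equivariant_proj ρ (kerForm H) hstab
  -- a vector outside the kernel
  obtain ⟨x₁, hx₁⟩ : ∃ x, x ∉ kerForm H := by
    by_contra h
    push Not at h
    apply hne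
    ext x y
    exact (mem_kerForm H x).mp (h x) y
  obtain ⟨x₀, hx₀, hx₀K⟩ := hdeg
  have hx₀K' : x₀ ∈ kerForm H := (mem_kerForm H x₀).mpr hx₀K
  have hne1 : ∃ x, x ≠ 0 ∧ P x = 0 := by
    refine ⟨x₁ - P x₁, ?_, ?_⟩
    · intro h
      rw [sub_eq_zero] at h
      exact hx₁ (h ▸ hP1 x₁)
    · rw [map_sub, hP2 _ (hP1 x₁), sub_self]
  have hiso1 := isotropic_of_invariant ρ σ hσ.nondeg hσ.alt hσ.inv hσ.prim P hP3 hne1
  let P' : V →ₗ[ℂ] V := LinearMap.id - P
  have hP3' : ∀ g x, P' (ρ g x) = ρ g (P' x) := by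
    intro g x
    simp [P', hP3]
  have hne2 : ∃ x, x ≠ 0 ∧ P' x = 0 := ⟨x₀, hx₀, by simp [P', hP2 x₀ hx₀K']⟩
  have hiso2 := isotropic_of_invariant ρ σ hσ.nondeg hσ.alt hσ.inv hσ.prim P' hP3' hne2
  have hisoK : ∀ x ∈ kerForm H, ∀ y ∈ kerForm H, σ x y = 0 := by
    intro x hx y hy
    rw [← hP2 x hx, ← hP2 y hy]
    exact hiso1 x y
  have hisoK' : ∀ x ∈ LinearMap.ker P, ∀ y ∈ LinearMap.ker P, σ x y = 0 := by
    intro x hx y hy
    rw [LinearMap.mem_ker] at hx hy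
    have := hiso2 x y
    simpa [P', hx, hy] using this
  have hcompl : IsCompl (kerForm H) (LinearMap.ker P) := by
    constructor
    · rw [Submodule.disjoint_def]
      intro x hx hx'
      rw [LinearMap.mem_ker, hP2 x hx] at hx'
      exact hx'
    · rw [codisjoint_iff, eq_top_iff]
      intro x _
      have : x = P x + (x - P x) := by abel
      rw [this]
      apply Submodule.add_mem_sup (hP1 x)
      rw [LinearMap.mem_ker, map_sub, hP2 _ (hP1 x), sub_self]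
  have hspan := kerForm_span b H (fun i j => hH.int _ (Submodule.subset_span ⟨i, rfl⟩) _
    (Submodule.subset_span ⟨j, rfl⟩))
  exact ⟨P, hP1, hP2, hisoK,
    finrank_of_isotropic_compl σ hσ.nondeg hσ.alt _ _ hisoK hisoK' hcompl, hspan⟩

end Pool.Agent.MP_e4ecdb_ag
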