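import Pool.Agent.MP_e4ecdb_ag.TLevel
import Pool.Agent.MP_e4ecdb_ag.LinMain
open Module

namespace Pool.Agent.MP_e4ecdb_ag.TQ

open Theta

variable {V : Type} [NormedAddCommGroup V] [NormedSpace ℂ V]

lemma aff_differentiable [FiniteDimensional ℂ V] (γ : V ≃ᵃ[ℂ] V) :
    Differentiable ℂ (fun v => γ v) := by
  have h1 : (fun v => γ v) = fun v => γ.linear v + γ 0 := funext fun v => aff_apply γ v
  rw [h1]
  have h2 : Differentiable ℂ (fun v => (LinearMap.toContinuousLinearMap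
    (γ.linear : V →ₗ[ℂ] V)) v) := (LinearMap.toContinuousLinearMap
    (γ.linear : V →ₗ[ℂ] V)).differentiable
  exact h2.add_const _

/-- group of linear parts -/
abbrev LG (Γ : Subgroup (V ≃ᵃ[ℂ] V)) : Subgroup (V ≃ₗ[ℂ] V) :=
  Γ.map (AffineEquiv.linearHom : (V ≃ᵃ[ℂ] V) →* (V ≃ₗ[ℂ] V))

/-- the norm of a function -/
noncomputable def Nm {Γ : Subgroup (V ≃ᵃ[ℂ] V)} [Fintype (LG Γ)]
    (g : LG Γ → (V ≃ᵃ[ℂ] V)) (f : (V ≃ᵃ[ℂ] V) → V → ℂ) (k : ℕ) (θ : V → ℂ) (v : V) : ℂ :=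
  ∏ A : LG Γ, θ (g A v) * (f (g A) v ^ k)⁻¹

section norm

variable {Γ : Subgroup (V ≃ᵃ[ℂ] V)} {H : V →ₗ⋆[ℂ] V →ₗ[ℂ] ℂ}
  {f : (V ≃ᵃ[ℂ] V) → V → ℂ} {c : (V ≃ᵃ[ℂ] V) → ℂ}

lemma ratio_eq (hN : Normal Γ H f c) {k : ℕ} {θ : V → ℂ} (hθ : θ ∈ TrSec Γ f k)
    {γ γ' : V ≃ᵃ[ℂ] V} (hγ : γ ∈ Γ) (hγ' : γ' ∈ Γ) (hl : γ.linear = γ'.linear) (v : V) :
    θ (γ v) * (f γ v ^ k)⁻¹ = θ (γ' v) * (f γ' v ^ k)⁻¹ := by
  have h1 : γ = tr (γ 0 - γ' 0) * γ' := by
    ext v
    rw [aff_mul, tr_apply, aff_apply γ v, aff_apply γ' v, hl]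
    abel
  have h2 : tr (γ 0 - γ' 0) ∈ Γ := by
    have h3 : tr (γ 0 - γ' 0) = γ * γ'⁻¹ := by rw [eq_mul_inv_iff_mul_eq]; exact h1.symm
    rw [h3]
    exact Γ.mul_mem hγ (Γ.inv_mem hγ')
  set x := γ 0 - γ' 0
  have h3 : f γ v = f (tr x) (γ' v) * f γ' v := by
    conv_lhs => rw [h1]
    exact hN.mul _ h2 _ hγ' v
  have h4 : θ (γ v) = f (tr x) (γ' v) ^ k * θ (γ' v) := by
    have h5 : γ v = x + γ' v := by
      conv_lhs => rw [h1]
      rfl
    rw [h5]
    exact hθ.2 x h2 (γ' v)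
  have h5 := f_ne_zero hN h2 (γ' v)
  have h6 := f_ne_zero hN hγ' v
  rw [h3, h4, mul_pow]
  field_simp

lemma Nm_equivariant (hN : Normal Γ H f c) [Fintype (LG Γ)] {g : LG Γ → (V ≃ᵃ[ℂ] V)}
    (hg : ∀ A, g A ∈ Γ) (hg2 : ∀ A, (g A).linear = (A : V ≃ₗ[ℂ] V)) {k : ℕ} {θ : V → ℂ}
    (hθ : θ ∈ TrSec Γ f k) {δ : V ≃ᵃ[ℂ] V} (hδ : δ ∈ Γ) (v : V) :
    Nm g f k θ (δ v) = f δ v ^ (k * Fintype.card (LG Γ)) * Nm g f k θ v := by
  let B : LG Γ := ⟨δ.linear, δ, hδ, rfl⟩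
  have h1 : ∀ A : LG Γ, θ (g A (δ v)) * (f (g A) (δ v) ^ k)⁻¹ =
      f δ v ^ k * (θ (g (A * B) v) * (f (g (A * B)) v ^ k)⁻¹) := by
    intro A
    have hmem : g A * δ ∈ Γ := Γ.mul_mem (hg A) hδ
    have hlin : (g A * δ).linear = (g (A * B)).linear := by
      rw [hg2 (A * B)]
      ext x
      rw [lin_mul, hg2 A]
      rfl
    rw [← ratio_eq hN hθ hmem (hg _) hlin v, hN.mul _ (hg A) _ hδ v, aff_mul, mul_pow]
    have h2 := f_ne_zero hN hδ v
    have h3 := f_ne_zero hN (hg A) (δ v)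
    field_simp
  unfold Nm
  simp_rw [h1]
  rw [Finset.prod_mul_distrib, Finset.prod_const, Finset.card_univ, ← pow_mul]
  congr 1
  exact Equiv.prod_comp (Equiv.mulRight B) (fun A => θ (g A v) * (f (g A) v ^ k)⁻¹)

lemma Nm_differentiable [FiniteDimensional ℂ V] (hN : Normal Γ H f c) [Fintype (LG Γ)]
    (hfd : ∀ γ ∈ Γ, Differentiable ℂ (f γ)) {g : LG Γ → (V ≃ᵃ[ℂ] V)}
    (hg : ∀ A, g A ∈ Γ) {k : ℕ} {θ : V → ℂ} (hθ : Differentiable ℂ θ) :
    Differentiable ℂ (Nm g f k θ) := by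
  classical
  have h1 : ∀ A : LG Γ, Differentiable ℂ (fun v => θ (g A v) * (f (g A) v ^ k)⁻¹) := by
    intro A
    apply (hθ.comp (aff_differentiable (g A))).mul
    apply Differentiable.fun_inv
    · exact (hfd _ (hg A)).pow k
    · intro v
      exact pow_ne_zero _ (f_ne_zero hN (hg A) v)
  have h2 : ∀ s : Finset (LG Γ), Differentiable ℂ
      (fun v => ∏ A ∈ s, θ (g A v) * (f (g A) v ^ k)⁻¹) := by
    intro s
    induction s using Finset.induction_on with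
    | empty => simp
    | insert A s hA ih =>
      have h3 : (fun v => ∏ A ∈ insert A s, θ (g A v) * (f (g A) v ^ k)⁻¹) =
          fun v => (θ (g A v) * (f (g A) v ^ k)⁻¹) *
            ∏ A ∈ s, θ (g A v) * (f (g A) v ^ k)⁻¹ := by
        funext v
        rw [Finset.prod_insert hA]
      rw [h3]
      exact (h1 A).mul ih
  exact h2 Finset.univ

end norm

/-- the full statement, with `K` the kernel of `H` -/
theorem main [FiniteDimensional ℂ V] {Γ : Subgroup (V ≃ᵃ[ℂ] V)} (hΓ : IsCrystallographic Γ)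
    {σ : LinearMap.BilinForm ℂ V} (hσ : IsPrimSympl Γ σ) {e : (V ≃ᵃ[ℂ] V) → V → ℂ}
    (he : IsFactor Γ e) {H : V →ₗ⋆[ℂ] V →ₗ[ℂ] ℂ} (hH : IsChern Γ e H)
    (hnef : ∀ x, 0 ≤ (H x x).re) (hne : H ≠ 0) (hdeg : ∃ x, x ≠ 0 ∧ ∀ y, H x y = 0) :
    ∃ (K : Submodule ℂ V) (k : ℕ), 1 ≤ k ∧
      (∀ γ ∈ Γ, ∀ x ∈ K, γ.linear x ∈ K) ∧
      (∀ x ∈ K, ∀ y ∈ K, σ x y = 0) ∧
      2 * finrank ℂ K = finrank ℂ V ∧
      K.restrictScalars ℝ =
        Submodule.span ℝ {x | AffineEquiv.constVAdd ℂ V x ∈ Γ ∧ x ∈ K} ∧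
      ∀ j : ℕ, 1 ≤ j → (∀ v, ∃ s ∈ sections Γ e (k * j), s v ≠ 0) ∧
        ∀ v w, (∀ s ∈ sections Γ e (k * j), ∀ t ∈ sections Γ e (k * j), s v * t w = s w * t v) ↔
          ∃ γ ∈ Γ, γ w - v ∈ K := by
  classical
  obtain ⟨ι, hι, b, hb⟩ := hΓ.lattice
  obtain ⟨u, c, hu, hu0, hN⟩ := exists_normal he hH
  set f : (V ≃ᵃ[ℂ] V) → V → ℂ := fun γ v => e γ v * u (γ v) / u v with hf
  have hfd : ∀ γ ∈ Γ, Differentiable ℂ (f γ) := by
    intro γ hγ
    have h3 : Differentiable ℂ (fun v => (e γ v * u (γ v)) * (u v)⁻¹) :=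
      ((he.holo γ hγ).mul (hu.comp (aff_differentiable γ))).mul (hu.fun_inv hu0)
    exact h3
  have hfin : Finite (LG Γ) := by
    have : ((LG Γ : Subgroup (V ≃ₗ[ℂ] V)) : Set (V ≃ₗ[ℂ] V)) =
        {A : V ≃ₗ[ℂ] V | ∃ γ ∈ Γ, γ.linear = A} := by
      ext A
      simp [LG]
    have h2 : ((LG Γ : Subgroup (V ≃ₗ[ℂ] V)) : Set (V ≃ₗ[ℂ] V)).Finite := by
      rw [this]; exact hΓ.finite
    exact h2.to_subtype
  have := Fintype.ofFinite (LG Γ)
  have hmem : ∀ A : LG Γ, ∃ γ ∈ Γ, γ.linear = (A : V ≃ₗ[ℂ] V) := by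
    rintro ⟨A, γ, hγ, rfl⟩
    exact ⟨γ, hγ, rfl⟩
  choose g hg hg2 using hmem
  -- linear algebra
  let ρ : Representation ℂ (LG Γ) V :=
    (LinearEquiv.automorphismGroup.toLinearMapMonoidHom (R := ℂ) (M := V)).comp (LG Γ).subtype
  have hρ : ∀ (A : LG Γ) (x : V), ρ A x = (g A).linear x := by
    intro A x
    rw [hg2]; rfl
  have hσ' : IsPrimitiveSymplectic ρ σ := by
    refine ⟨hσ.alt, hσ.nondeg, ?_, ?_, ?_⟩
    · intro A x y
      rw [hρ, hρ]; exact hσ.inv _ (hg A) x y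
    · intro τ h1 h2
      apply hσ.prim τ h1
      intro γ hγ x y
      exact h2 ⟨γ.linear, γ, hγ, rfl⟩ x y
    · intro x hx
      apply hσ.no_inv x
      intro γ hγ
      exact hx ⟨γ.linear, γ, hγ, rfl⟩
  have hH' : IsChernForm ρ (Submodule.span ℤ (Set.range b)) H := by
    refine ⟨hH.herm, ?_, ?_⟩
    · intro A x y
      rw [hρ, hρ]; exact hH.inv _ (hg A) x y
    · intro x hx y hy
      exact im_int hN ((hb x).1 hx) ((hb y).1 hy)
  obtain ⟨P, hP1, hP2, hiso, hdim, hspan⟩ := lin_main b ρ σ hσ' H hH' hne hdeg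
  set n := Fintype.card (LG Γ) with hn
  have hn1 : 1 ≤ n := Fintype.card_pos
  have htor : ∀ x, tr x ∈ Γ → (∀ y, H x y = 0) → c (tr x) ^ n = 1 := by
    intro x hx hk
    have := torsion hN hσ.no_inv hx hk
    rwa [Nat.card_eq_fintype_card] at this
  have hpos : ∀ x, (∃ y, H x y ≠ 0) → 0 < (H x x).re := by
    rintro x ⟨y, hy⟩
    rcases (hnef x).lt_or_eq with h | h
    · exact h
    · exact absurd (herm_zero_of_re_zero H hH.herm hnef x h.symm y) hy
  obtain ⟨m, hm1, hbpf, hsep⟩ := exists_trSec_level hN b hb hpos P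
    (fun x y => (mem_kerForm H _).1 (hP1 x) y) (fun x hx => hP2 x ((mem_kerForm H x).2 hx))
    hspan hn1 htor
  set k0 := n * m with hk0
  have hk01 : 1 ≤ k0 := Nat.mul_pos hn1 hm1
  have hKeq : (kerForm H).restrictScalars ℝ =
      Submodule.span ℝ {x | AffineEquiv.constVAdd ℂ V x ∈ Γ ∧ x ∈ kerForm H} := by
    apply le_antisymm
    · refine hspan.trans (Submodule.span_mono ?_)
      rintro x ⟨h1, h2⟩
      exact ⟨(hb x).1 h1, h2⟩
    · rw [Submodule.span_le]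
      rintro x ⟨_, h2⟩
      exact h2
  -- from `TrSec` to sections
  have hsec : ∀ θ ∈ TrSec Γ f k0, (fun v => Nm g f k0 θ v * (u v ^ (k0 * n))⁻¹) ∈
      sections Γ e (k0 * n) := by
    intro θ hθ
    refine ⟨?_, ?_⟩
    · apply (Nm_differentiable hN hfd hg hθ.1).mul
      apply Differentiable.fun_inv
      · exact hu.pow _
      · intro v
        exact pow_ne_zero _ (hu0 v)
    · intro δ hδ v
      have h0 : Nm g f k0 θ (δ v) = f δ v ^ (k0 * n) * Nm g f k0 θ v :=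
        Nm_equivariant hN hg hg2 hθ hδ v
      have h1 := hu0 v
      have h2 := hu0 (δ v)
      have h3 : f δ v = e δ v * u (δ v) / u v := rfl
      simp only
      rw [h0, h3, div_pow, mul_pow]
      field_simp
  have hpow : ∀ (k j : ℕ) (s : V → ℂ), s ∈ sections Γ e k → (fun v => s v ^ j) ∈
      sections Γ e (k * j) := by
    rintro k j s ⟨h1, h2⟩
    refine ⟨h1.pow j, fun γ hγ v => ?_⟩
    simp only
    rw [h2 γ hγ v, mul_pow, pow_mul]
  -- nonvanishing of the norm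
  have hNm0 : ∀ (θ : V → ℂ) (v : V), (∀ A, θ (g A v) ≠ 0) → Nm g f k0 θ v ≠ 0 := by
    intro θ v h
    unfold Nm
    rw [Finset.prod_ne_zero_iff]
    intro A _
    exact mul_ne_zero (h A) (inv_ne_zero (pow_ne_zero _ (f_ne_zero hN (hg A) v)))
  -- base point freeness
  have hbp : ∀ v, ∃ s ∈ sections Γ e (k0 * n), s v ≠ 0 := by
    intro v
    obtain ⟨θ, hθ, hθ2⟩ := Module.Dual.exists_forall_mem_ne_zero_of_forall_exists
      (TrSec Γ f k0) (fun A : LG Γ => (LinearMap.proj (g A v) : (V → ℂ) →ₗ[ℂ] ℂ))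
      (fun A => hbpf (g A v))
    refine ⟨_, hsec θ hθ, ?_⟩
    exact mul_ne_zero (hNm0 θ v hθ2) (inv_ne_zero (pow_ne_zero _ (hu0 v)))
  have hsp : ∀ v w, (∀ γ ∈ Γ, γ w - v ∉ kerForm H) →
      ∃ s ∈ sections Γ e (k0 * n), s v = 0 ∧ s w ≠ 0 := by
    intro v w hvw
    let p : Submodule ℂ (V → ℂ) := TrSec Γ f k0 ⊓
      LinearMap.ker (LinearMap.proj v : (V → ℂ) →ₗ[ℂ] ℂ)
    obtain ⟨θ, hθ, hθ2⟩ := Module.Dual.exists_forall_mem_ne_zero_of_forall_exists
      p (fun A : LG Γ => (LinearMap.proj (g A w) : (V → ℂ) →ₗ[ℂ] ℂ)) (fun A => by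
        obtain ⟨s, hs, hs1, hs2⟩ := hsep v (g A w) (fun x hx hcon => by
          have h1 : tr (-x) * g A ∈ Γ := by
            refine Γ.mul_mem ?_ (hg A)
            have h2 : tr (-x) = (tr x)⁻¹ := by
              rw [eq_inv_iff_mul_eq_one, tr_mul, neg_add_cancel]
              ext v; simp
            rw [h2]
            exact Γ.inv_mem hx
          apply hvw _ h1
          rw [mem_kerForm]
          have h3 : (tr (-x) * g A) w - v = g A w - v - x := by
            rw [aff_mul, tr_apply]; abel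
          rw [h3]
          exact hcon)
        exact ⟨s, ⟨hs, hs1⟩, hs2⟩)
    refine ⟨_, hsec θ hθ.1, ?_, ?_⟩
    · have h1 : Nm g f k0 θ v = 0 := by
        unfold Nm
        apply Finset.prod_eq_zero (Finset.mem_univ (1 : LG Γ))
        have h2 : (g 1).linear = (1 : V ≃ᵃ[ℂ] V).linear := by rw [hg2]; rfl
        rw [ratio_eq hN hθ.1 (hg 1) Γ.one_mem h2 v]
        have h3 : θ ((1 : V ≃ᵃ[ℂ] V) v) = 0 := hθ.2
        rw [h3, zero_mul]
      rw [h1, zero_mul]
    · exact mul_ne_zero (hNm0 θ w hθ2) (inv_ne_zero (pow_ne_zero _ (hu0 w)))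
  refine ⟨kerForm H, k0 * n, Nat.mul_pos hk01 hn1, ?_, hiso, hdim, hKeq, ?_⟩
  · intro γ hγ x hx
    rw [mem_kerForm] at hx ⊢
    exact ker_lin hN hx hγ
  · intro j hj
    constructor
    · intro v
      obtain ⟨s, hs, hsv⟩ := hbp v
      exact ⟨_, hpow _ j s hs, pow_ne_zero _ hsv⟩
    · intro v w
      constructor
      · intro h
        by_contra hcon
        push Not at hcon
        obtain ⟨s, hs, hsv, hsw⟩ := hsp v w hcon
        obtain ⟨t, ht, htv⟩ := hbp v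
        have h1 := h _ (hpow _ j s hs) _ (hpow _ j t ht)
        simp only [hsv] at h1
        rw [zero_pow (by omega), zero_mul] at h1
        exact (mul_ne_zero (pow_ne_zero j hsw) (pow_ne_zero j htv)) h1.symm
      · rintro ⟨γ, hγ, hγK⟩ s hs t ht
        set N := k0 * n * j with hNdef
        -- normalised sections are constant along `K`
        have hconst : ∀ s ∈ sections Γ e N, ∀ x ∈ kerForm H, ∀ v,
            s (x + v) * u (x + v) ^ N = s v * u v ^ N := by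
          rintro s ⟨h1, h2⟩ x hx v
          refine const_along (kerForm H) (S := {
              carrier := {x | tr x ∈ Γ}
              zero_mem' := by
                have h0 : tr (0 : V) = 1 := by ext v; simp
                change tr (0 : V) ∈ Γ
                rw [h0]; exact Γ.one_mem
              add_mem' := by
                intro x y hx hy
                change tr (x + y) ∈ Γ
                rw [← tr_mul]; exact Γ.mul_mem hx hy
              neg_mem' := by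
                intro x hx
                change tr (-x) ∈ Γ
                have h2 : tr (-x) = (tr x)⁻¹ := by
                  rw [eq_inv_iff_mul_eq_one, tr_mul, neg_add_cancel]
                  ext v; simp
                rw [h2]; exact Γ.inv_mem hx }) hKeq (s := fun v => s v * u v ^ N)
              (h1.mul (hu.pow N)) ?_ x hx v
          intro x hxS hxK v
          have hxS' : tr x ∈ Γ := hxS
          have h3 := h2 _ hxS' v
          have h4 : e (tr x) v * u (tr x v) / u v = c (tr x) :=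
            f_tr_ker hN hxS' ((mem_kerForm H x).1 hxK) v
          have h5 : c (tr x) ^ N = 1 := by
            rw [hNdef, hk0, mul_assoc, mul_assoc, pow_mul, htor x hxS' ((mem_kerForm H x).1 hxK),
              one_pow]
          rw [← h4, div_pow, mul_pow, div_eq_one_iff_eq (pow_ne_zero _ (hu0 v))] at h5
          rw [tr_apply] at h3 h5
          rw [h3, ← h5]; ring
        have hx := hconst s hs (γ w - v) hγK v
        have hy := hconst t ht (γ w - v) hγK v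
        rw [sub_add_cancel] at hx hy
        rw [hs.2 γ hγ w] at hx
        rw [ht.2 γ hγ w] at hy
        have hu1 := pow_ne_zero N (hu0 v)
        apply mul_right_cancel₀ hu1
        linear_combination t w * (-hx) - s w * (-hy)

end Pool.Agent.MP_e4ecdb_ag.TQ
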