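import Pool.Agent.MP_e4ecdb_ag.BBd
import Pool.Agent.MP_e4ecdb_ag.QDefs
import Pool.Agent.MP_e4ecdb_ag.TFinal
open Module

/-! The Beauville-Bogomolov-Fujiki form of a primitive symplectic torus quotient. -/

namespace Pool.Agent.MP_e4ecdb_ag.TQ

variable {V : Type} [NormedAddCommGroup V] [NormedSpace ℂ V] {Γ : Subgroup (V ≃ᵃ[ℂ] V)}
  {σ : LinearMap.BilinForm ℂ V}

/-- the representation of the group of linear parts -/
noncomputable def rep (Γ : Subgroup (V ≃ᵃ[ℂ] V)) : Representation ℂ (LG Γ) V :=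
  (LinearEquiv.automorphismGroup.toLinearMapMonoidHom (R := ℂ) (M := V)).comp (LG Γ).subtype

lemma rep_apply (A : LG Γ) (x : V) : rep Γ A x = (A : V ≃ₗ[ℂ] V) x := rfl

lemma exists_rep {γ : V ≃ᵃ[ℂ] V} (hγ : γ ∈ Γ) : ∃ A : LG Γ, ∀ x, rep Γ A x = γ.linear x :=
  ⟨⟨γ.linear, γ, hγ, rfl⟩, fun _ => rfl⟩

lemma exists_of_rep (A : LG Γ) : ∃ γ ∈ Γ, ∀ x, rep Γ A x = γ.linear x := by
  obtain ⟨A, γ, hγ, rfl⟩ := A
  exact ⟨γ, hγ, fun _ => rfl⟩

lemma finite_LG (hΓ : IsCrystallographic Γ) : Finite (LG Γ) := by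
  have : ((LG Γ : Subgroup (V ≃ₗ[ℂ] V)) : Set (V ≃ₗ[ℂ] V)) =
      {A : V ≃ₗ[ℂ] V | ∃ γ ∈ Γ, γ.linear = A} := by
    ext A
    simp [LG]
  have h2 : ((LG Γ : Subgroup (V ≃ₗ[ℂ] V)) : Set (V ≃ₗ[ℂ] V)).Finite := by
    rw [this]; exact hΓ.finite
  exact h2.to_subtype

lemma prim_rep (hσ : IsPrimSympl Γ σ) : IsPrimitiveSymplectic (rep Γ) σ where
  alt := hσ.alt
  nondeg := hσ.nondeg
  inv A x y := by
    obtain ⟨γ, hγ, h⟩ := exists_of_rep A
    rw [h, h]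
    exact hσ.inv γ hγ x y
  prim τ h1 h2 := by
    apply hσ.prim τ h1
    intro γ hγ x y
    obtain ⟨A, h⟩ := exists_rep hγ
    rw [← h, ← h]
    exact h2 A x y
  no_inv x h1 := by
    apply hσ.no_inv x
    intro γ hγ
    obtain ⟨A, h⟩ := exists_rep hγ
    rw [← h]
    exact h1 A

lemma mem_H11_iff {H : V →ₗ⋆[ℂ] V →ₗ[ℂ] ℂ} : H ∈ H11 Γ ↔ H ∈ BB.InvHerm (rep Γ) := by
  constructor
  · rintro ⟨h1, h2⟩
    refine ⟨h1, fun A x y => ?_⟩
    obtain ⟨γ, hγ, h⟩ := exists_of_rep A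
    rw [h, h]
    exact h2 γ hγ x y
  · rintro ⟨h1, h2⟩
    refine ⟨h1, fun γ hγ x y => ?_⟩
    obtain ⟨A, h⟩ := exists_rep hγ
    rw [← h, ← h]
    exact h2 A x y

lemma stable_iff {K : Submodule ℂ V} : (∀ γ ∈ Γ, ∀ x ∈ K, γ.linear x ∈ K) ↔ BB.Stable (rep Γ) K := by
  constructor
  · intro h A x hx
    obtain ⟨γ, hγ, h'⟩ := exists_of_rep A
    rw [h']
    exact h γ hγ x hx
  · intro h γ hγ x hx
    obtain ⟨A, h'⟩ := exists_rep hγ
    rw [← h']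
    exact h A x hx

/-- P1 (helper30) -/
theorem exists_bbf [FiniteDimensional ℂ V] (hΓ : IsCrystallographic Γ) (hσ : IsPrimSympl Γ σ)
    (hV : Nontrivial V) :
    ∃ q : QuadraticForm ℝ (H11 Γ), IsBBF Γ q ∧
      (∀ H : H11 Γ, 0 < q H → IsPos H.1 ∨ IsPos (-H.1)) ∧
      (∀ H : H11 Γ, q H = 0 → H ≠ 0 → (IsNef H.1 ∨ IsNef (-H.1)) ∧ ∃ x, x ≠ 0 ∧ ∀ y, H.1 x y = 0) ∧
      (∀ H : H11 Γ, q H < 0 → (∃ x, (H.1 x x).re < 0) ∧ ∃ x, 0 < (H.1 x x).re) ∧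
      ∃ h : H11 Γ, IsPos h.1 ∧ ∀ H : H11 Γ, H ≠ 0 → QuadraticMap.polar q h H = 0 → q H < 0 := by
  have hfin := finite_LG hΓ
  have hσ' := prim_rep hσ
  obtain ⟨h, hh, hp⟩ := BB.exists_posdef (rep Γ)
  have hh11 : h ∈ H11 Γ := mem_H11_iff.2 hh
  let B : LinearMap.BilinForm ℝ (H11 Γ) := (BB.BF hp).compl₁₂ (H11 Γ).subtype (H11 Γ).subtype
  have hB : ∀ H F : H11 Γ, B H F = BB.BF hp H.1 F.1 := fun H F => rfl
  let q : QuadraticForm ℝ (H11 Γ) := LinearMap.BilinMap.toQuadraticMap B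
  have hq : ∀ H : H11 Γ, q H = BB.BF hp H.1 H.1 := fun H => rfl
  obtain ⟨n, hn⟩ := BB.even_finrank hσ.nondeg hσ.alt
  have hn2 : finrank ℂ V = 2 * n := by omega
  have hn3 : finrank ℂ V / 2 = n := by omega
  refine ⟨q, ⟨?_, ?_⟩, ?_, ?_, ?_, ⟨h, hh11⟩, hp, ?_⟩
  · intro b
    obtain ⟨c, hc, hc2⟩ := BB.gram_pos hh.1 hp b
    refine ⟨c, hc, fun H => ?_⟩
    rw [BB.det_matrix hp, BB.fujiki_op hσ' hp hh hn2 (mem_H11_iff.1 H.2), hc2, hn3, hq]
    rw [map_pow, Complex.conj_ofReal]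
    push_cast
    ring
  · intro H hpos
    rw [hq]
    by_contra hneg
    push Not at hneg
    rcases hneg.lt_or_eq with h1 | h1
    · obtain ⟨_, x, hx⟩ := BB.both_of_neg hσ' hp hh (mem_H11_iff.1 H.2) h1
      have hx0 : x ≠ 0 := fun h0 => by rw [h0] at hx; simp at hx
      have := hpos x hx0
      linarith
    · have hne : H.1 ≠ 0 := by
        intro h0
        obtain ⟨x, hx⟩ := exists_ne (0 : V)
        have := hpos x hx
        rw [h0] at this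
        simp at this
      obtain ⟨_, x, hx, hx2⟩ := BB.semipos_of_zero hσ' hp hh (mem_H11_iff.1 H.2) hne h1
      have := hpos x hx
      rw [hx2] at this
      simp at this
  · intro H h0
    rcases BB.definite_of_pos hσ' hp hh (mem_H11_iff.1 H.2) h0 with h1 | h1
    · left; exact h1
    · right
      intro x hx
      have := h1 x hx
      simp only [LinearMap.neg_apply, Complex.neg_re]
      linarith
  · intro H h0 hne
    have hne' : H.1 ≠ 0 := fun h => hne (Subtype.ext h)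
    obtain ⟨h1, h2⟩ := BB.semipos_of_zero hσ' hp hh (mem_H11_iff.1 H.2) hne' h0
    refine ⟨?_, h2⟩
    rcases h1 with h1 | h1
    · left; exact h1
    · right
      intro x
      have := h1 x
      simp only [LinearMap.neg_apply, Complex.neg_re]
      linarith
  · intro H h0
    obtain ⟨h1, h2⟩ := BB.both_of_neg hσ' hp hh (mem_H11_iff.1 H.2) h0
    exact ⟨h2, h1⟩
  · intro H hne h0
    have hne' : H.1 ≠ 0 := fun h => hne (Subtype.ext h)
    apply BB.neg_def hσ' hp hh (mem_H11_iff.1 H.2) _ hne'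
    have e1 : QuadraticMap.polar q ⟨h, hh11⟩ H = B ⟨h, hh11⟩ H + B H ⟨h, hh11⟩ := by
      rw [QuadraticMap.polar]
      change B _ _ - B _ _ - B _ _ = _
      simp only [map_add, LinearMap.add_apply]
      ring
    rw [e1, hB, hB, BB.BF_symm hp H.1] at h0
    linarith

end Pool.Agent.MP_e4ecdb_ag.TQ
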