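import Pool.Agent.MP_e4ecdb_ag.BBe
open Module

/-! Rational stable subspaces are radicals of integral forms. -/

namespace Pool.Agent.MP_e4ecdb_ag.BB

section integral
variable {W : Type} [AddCommGroup W] [Module ℝ W] {ι : Type} [Fintype ι]

/-- expansion of a bilinear form in a basis -/
lemma bil_sum (E : W →ₗ[ℝ] W →ₗ[ℝ] ℝ) (u : ι → W) (z w : ι → ℤ) :
    E (∑ k, z k • u k) (∑ l, w l • u l) = ∑ p : ι × ι, E (u p.1) (u p.2) * ((z p.1 : ℝ) * (w p.2 : ℝ)) := by
  rw [Fintype.sum_prod_type, map_sum E, LinearMap.sum_apply]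
  refine Finset.sum_congr rfl fun k _ => ?_
  rw [map_sum]
  refine Finset.sum_congr rfl fun l _ => ?_
  rw [← Int.cast_smul_eq_zsmul ℝ (z k), ← Int.cast_smul_eq_zsmul ℝ (w l), map_smul, map_smul,
    LinearMap.smul_apply, smul_eq_mul, smul_eq_mul]
  ring

lemma exists_integral_form [DecidableEq ι] (b : Basis ι ℝ W) (A : Set (W →ₗ[ℝ] W))
    (hA : ∀ a ∈ A, ∀ i, a (b i) ∈ Submodule.span ℤ (Set.range b)) (K : Submodule ℝ W)
    (hK : K ≤ Submodule.span ℝ {x | x ∈ Submodule.span ℤ (Set.range b) ∧ x ∈ K})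
    (E₁ : W →ₗ[ℝ] W →ₗ[ℝ] ℝ) (halt : ∀ x y, E₁ x y = - E₁ y x)
    (hinv : ∀ a ∈ A, ∀ x y, E₁ (a x) (a y) = E₁ x y) (hrad : ∀ x ∈ K, ∀ y, E₁ x y = 0)
    (hne : E₁ ≠ 0) :
    ∃ E : W →ₗ[ℝ] W →ₗ[ℝ] ℝ, (∀ x y, E x y = - E y x) ∧
      (∀ a ∈ A, ∀ x y, E (a x) (a y) = E x y) ∧ (∀ x ∈ K, ∀ y, E x y = 0) ∧ E ≠ 0 ∧
      ∀ x ∈ Submodule.span ℤ (Set.range b), ∀ y ∈ Submodule.span ℤ (Set.range b),
        ∃ n : ℤ, E x y = n := by
  have hA' : ∀ a : A, ∀ i, ∃ m : ι → ℤ, ∑ k, m k • b k = a.1 (b i) := fun a i => by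
    exact (Submodule.mem_span_range_iff_exists_fun ℤ).1 (hA a.1 a.2 i)
  choose m hm using hA'
  let κ : Type _ := (ι × ι) ⊕ (A × (ι × ι)) ⊕ ({z : ι → ℤ // (∑ k, z k • b k) ∈ K} × ι)
  let M : (ι × ι) → κ → ℤ := fun p s =>
    match s with
    | Sum.inl (i, j) => (if p = (i, j) then 1 else 0) + (if p = (j, i) then 1 else 0)
    | Sum.inr (Sum.inl (a, (i, j))) => m a i p.1 * m a j p.2 - (if p = (i, j) then 1 else 0)
    | Sum.inr (Sum.inr (z, j)) => z.1 p.1 * (if p.2 = j then 1 else 0)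
  -- evaluation of the three kinds of functionals
  have S1 : ∀ (e : ι × ι → ℝ) i j, ∑ p, e p * (M p (Sum.inl (i, j)) : ℝ) = e (i, j) + e (j, i) := by
    intro e i j
    simp only [M]
    push_cast
    simp only [mul_add, Finset.sum_add_distrib, mul_ite, mul_one, mul_zero, Finset.sum_ite_eq',
      Finset.mem_univ, if_true]
  have S2 : ∀ (e : ι × ι → ℝ) a i j, ∑ p, e p * (M p (Sum.inr (Sum.inl (a, (i, j)))) : ℝ) =
      (∑ p : ι × ι, e p * ((m a i p.1 : ℝ) * (m a j p.2 : ℝ))) - e (i, j) := by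
    intro e a i j
    simp only [M]
    push_cast
    simp only [mul_sub, Finset.sum_sub_distrib, mul_ite, mul_one, mul_zero, Finset.sum_ite_eq',
      Finset.mem_univ, if_true]
  have S3 : ∀ (e : ι × ι → ℝ) (z : {z : ι → ℤ // (∑ k, z k • b k) ∈ K}) j,
      ∑ p, e p * (M p (Sum.inr (Sum.inr (z, j))) : ℝ) = ∑ k, (z.1 k : ℝ) * e (k, j) := by
    intro e z j
    simp only [M]
    rw [Fintype.sum_prod_type]
    refine Finset.sum_congr rfl fun k _ => ?_
    push_cast
    simp only [mul_ite, mul_one, mul_zero, Finset.sum_ite_eq', Finset.mem_univ, if_true]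
    ring
  have hker : ∀ s : κ, ∑ p : ι × ι, (E₁ (b p.1) (b p.2)) * (M p s : ℝ) = 0 := by
    rintro (⟨i, j⟩ | ⟨a, i, j⟩ | ⟨z, j⟩)
    · rw [S1 (fun p => E₁ (b p.1) (b p.2)) i j]
      simp only
      rw [halt (b i) (b j)]
      ring
    · rw [S2 (fun p => E₁ (b p.1) (b p.2)) a i j]
      simp only
      rw [← bil_sum E₁ b (m a i) (m a j), hm, hm, hinv a.1 a.2, sub_self]
    · rw [S3 (fun p => E₁ (b p.1) (b p.2)) z j]
      simp only
      have h1 := hrad _ z.2 (b j)
      rw [map_sum, LinearMap.sum_apply] at h1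
      rw [← h1]
      refine Finset.sum_congr rfl fun k _ => ?_
      rw [← Int.cast_smul_eq_zsmul ℝ (z.1 k), map_smul, LinearMap.smul_apply, smul_eq_mul]
  have hspan := rational_kernel M (fun p => E₁ (b p.1) (b p.2)) hker
  -- a nonzero integral solution
  have hex : ∃ z : ι × ι → ℤ, z ≠ 0 ∧ ∀ s : κ, ∑ p : ι × ι, (z p : ℝ) * (M p s : ℝ) = 0 := by
    by_contra hcon
    push Not at hcon
    have h0 : {y : ι × ι → ℝ | (∃ z : ι × ι → ℤ, y = fun i => (z i : ℝ)) ∧
        ∀ j, ∑ i, y i * (M i j : ℝ) = 0} ⊆ {0} := by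
      rintro y ⟨⟨z, rfl⟩, hz⟩
      by_cases hz0 : z = 0
      · rw [hz0]
        simp only [Set.mem_singleton_iff]
        funext p
        simp
      · obtain ⟨s, hs⟩ := hcon z hz0
        exact absurd (hz s) hs
    have h1 := Submodule.span_mono h0 hspan
    rw [Submodule.span_zero_singleton, Submodule.mem_bot] at h1
    apply hne
    refine b.ext fun i => b.ext fun j => ?_
    exact congrFun h1 (i, j)
  obtain ⟨z, hz0, hz⟩ := hex
  let E : LinearMap.BilinForm ℝ W := Matrix.toBilin b (Matrix.of fun i j => (z (i, j) : ℝ))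
  have hE : ∀ i j, E (b i) (b j) = (z (i, j) : ℝ) := by
    intro i j
    have := congrFun (congrFun (LinearMap.BilinForm.toMatrix_toBilin b
      (Matrix.of fun i j => (z (i, j) : ℝ))) i) j
    rw [LinearMap.BilinForm.toMatrix_apply] at this
    exact this
  have hEp : (fun p : ι × ι => (z p : ℝ)) = fun p => E (b p.1) (b p.2) := by
    funext p
    rw [hE]
  refine ⟨E, ?_, ?_, ?_, ?_, ?_⟩
  · have h1 : E = - (LinearMap.flip E) := by
      refine b.ext fun i => b.ext fun j => ?_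
      have := hz (Sum.inl (i, j))
      rw [S1 (fun p => (z p : ℝ)) i j] at this
      rw [LinearMap.neg_apply, LinearMap.neg_apply, LinearMap.flip_apply, hE, hE]
      linarith
    intro x y
    conv_lhs => rw [h1]
    rfl
  · intro a ha x y
    have h1 : E.compl₁₂ a a = E := by
      refine b.ext fun i => b.ext fun j => ?_
      have := hz (Sum.inr (Sum.inl (⟨a, ha⟩, (i, j))))
      rw [S2 (fun p => (z p : ℝ)) ⟨a, ha⟩ i j] at this
      have h2 : ∑ p : ι × ι, (z p : ℝ) * ((m ⟨a, ha⟩ i p.1 : ℝ) * (m ⟨a, ha⟩ j p.2 : ℝ)) =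
          E (a (b i)) (a (b j)) := by
        rw [← hm ⟨a, ha⟩ i, ← hm ⟨a, ha⟩ j, bil_sum E b]
        refine Finset.sum_congr rfl fun p _ => ?_
        rw [hE]
      rw [h2] at this
      rw [LinearMap.compl₁₂_apply, hE]
      linarith
    have h2 := congrArg (fun F => F x y) h1
    simpa using h2
  · have h1 : ∀ x ∈ {x | x ∈ Submodule.span ℤ (Set.range b) ∧ x ∈ K}, E x = 0 := by
      rintro x ⟨hx, hxK⟩
      obtain ⟨w, rfl⟩ := (Submodule.mem_span_range_iff_exists_fun ℤ).1 hx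
      refine b.ext fun j => ?_
      have := hz (Sum.inr (Sum.inr (⟨w, hxK⟩, j)))
      rw [S3 (fun p => (z p : ℝ)) ⟨w, hxK⟩ j] at this
      rw [map_sum, LinearMap.sum_apply, LinearMap.zero_apply, ← this]
      refine Finset.sum_congr rfl fun k _ => ?_
      rw [← Int.cast_smul_eq_zsmul ℝ (w k), map_smul, LinearMap.smul_apply, smul_eq_mul, hE]
    have h2 : K ≤ LinearMap.ker E := hK.trans (Submodule.span_le.2 h1)
    intro x hx y
    rw [LinearMap.mem_ker.1 (h2 hx)]
    rfl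
  · intro h0
    apply hz0
    funext p
    have := hE p.1 p.2
    rw [h0] at this
    have h1 : (z p : ℝ) = 0 := by
      rw [← this]; rfl
    exact_mod_cast h1
  · intro x hx y hy
    obtain ⟨w, rfl⟩ := (Submodule.mem_span_range_iff_exists_fun ℤ).1 hx
    obtain ⟨v, rfl⟩ := (Submodule.mem_span_range_iff_exists_fun ℤ).1 hy
    rw [bil_sum E b]
    refine ⟨∑ p : ι × ι, z p * (w p.1 * v p.2), ?_⟩
    push_cast
    refine Finset.sum_congr rfl fun p _ => ?_
    rw [hE]

end integral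

section complex
variable {V : Type} [AddCommGroup V] [Module ℂ V]

lemma cs_apply (E : V →ₗ[ℝ] V →ₗ[ℝ] ℝ) (c : ℂ) (x y : V) :
    E (c • x) y = c.re * E x y + c.im * E (Complex.I • x) y := by
  have h1 : c • x = c.re • x + c.im • (Complex.I • x) := by
    conv_lhs => rw [← Complex.re_add_im c, add_smul, mul_smul]
    rfl
  rw [h1, map_add, map_smul, map_smul, LinearMap.add_apply, LinearMap.smul_apply,
    LinearMap.smul_apply, smul_eq_mul, smul_eq_mul]

lemma cs_apply' (E : V →ₗ[ℝ] V →ₗ[ℝ] ℝ) (c : ℂ) (x y : V) :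
    E x (c • y) = c.re * E x y + c.im * E x (Complex.I • y) := by
  have h1 : c • y = c.re • y + c.im • (Complex.I • y) := by
    conv_lhs => rw [← Complex.re_add_im c, add_smul, mul_smul]
    rfl
  rw [h1, map_add, map_smul, map_smul, smul_eq_mul, smul_eq_mul]

/-- the `(2,0)`-part of a real form -/
noncomputable def tau (E : V →ₗ[ℝ] V →ₗ[ℝ] ℝ) : LinearMap.BilinForm ℂ V :=
  LinearMap.mk₂ ℂ (fun x y => ((E x y - E (Complex.I • x) (Complex.I • y) : ℝ) : ℂ) -
      ((E (Complex.I • x) y + E x (Complex.I • y) : ℝ) : ℂ) * Complex.I)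
    (fun x x' y => by
      simp only [smul_add, map_add, LinearMap.add_apply]
      push_cast
      ring)
    (fun c x y => by
      have h1 := cs_apply E c x y
      have h2 := cs_apply E c x (Complex.I • y)
      have h3 := cs_apply E c (Complex.I • x) y
      have h4 := cs_apply E c (Complex.I • x) (Complex.I • y)
      have h5 : Complex.I • (Complex.I • x) = -x := by
        rw [smul_smul, Complex.I_mul_I, neg_smul, one_smul]
      rw [h5, map_neg, LinearMap.neg_apply] at h3 h4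
      rw [smul_comm Complex.I c x, h1, h2, h3, h4, smul_eq_mul]
      apply Complex.ext <;> simp <;> ring)
    (fun x y y' => by
      simp only [smul_add, map_add, LinearMap.add_apply]
      push_cast
      ring)
    (fun c x y => by
      have h1 := cs_apply' E c x y
      have h2 := cs_apply' E c (Complex.I • x) y
      have h3 := cs_apply' E c x (Complex.I • y)
      have h4 := cs_apply' E c (Complex.I • x) (Complex.I • y)
      have h5 : Complex.I • (Complex.I • y) = -y := by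
        rw [smul_smul, Complex.I_mul_I, neg_smul, one_smul]
      rw [h5, map_neg] at h3 h4
      rw [smul_comm Complex.I c y, h1, h2, h3, h4, smul_eq_mul]
      apply Complex.ext <;> simp <;> ring)

lemma tau_apply (E : V →ₗ[ℝ] V →ₗ[ℝ] ℝ) (x y : V) :
    tau E x y = ((E x y - E (Complex.I • x) (Complex.I • y) : ℝ) : ℂ) -
      ((E (Complex.I • x) y + E x (Complex.I • y) : ℝ) : ℂ) * Complex.I := rfl

/-- the hermitian form with imaginary part `E` -/
noncomputable def toH (E : V →ₗ[ℝ] V →ₗ[ℝ] ℝ)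
    (hE : ∀ x y, E (Complex.I • x) y = - E x (Complex.I • y)) : V →ₗ⋆[ℂ] V →ₗ[ℂ] ℂ :=
  LinearMap.mk₂'ₛₗ (starRingEnd ℂ) (RingHom.id ℂ)
    (fun x y => (E x (Complex.I • y) : ℂ) + (E x y : ℂ) * Complex.I)
    (fun x x' y => by
      simp only [map_add, LinearMap.add_apply]
      push_cast
      ring)
    (fun c x y => by
      have h1 := cs_apply E c x y
      have h2 := cs_apply E c x (Complex.I • y)
      have h5 : Complex.I • (Complex.I • y) = -y := by
        rw [smul_smul, Complex.I_mul_I, neg_smul, one_smul]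
      rw [hE, h5, map_neg] at h2
      rw [hE] at h1
      rw [h1, h2, smul_eq_mul]
      apply Complex.ext <;> simp <;> ring)
    (fun x y y' => by
      simp only [smul_add, map_add, LinearMap.add_apply]
      push_cast
      ring)
    (fun c x y => by
      have h1 := cs_apply' E c x y
      have h3 := cs_apply' E c x (Complex.I • y)
      have h5 : Complex.I • (Complex.I • y) = -y := by
        rw [smul_smul, Complex.I_mul_I, neg_smul, one_smul]
      rw [h5, map_neg] at h3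
      rw [smul_comm Complex.I c y, h1, h3, smul_eq_mul]
      apply Complex.ext <;> simp <;> ring)

lemma toH_apply (E : V →ₗ[ℝ] V →ₗ[ℝ] ℝ)
    (hE : ∀ x y, E (Complex.I • x) y = - E x (Complex.I • y)) (x y : V) :
    toH E hE x y = (E x (Complex.I • y) : ℂ) + (E x y : ℂ) * Complex.I := rfl

/-- the imaginary part of a sesquilinear form -/
noncomputable def imF (H : V →ₗ⋆[ℂ] V →ₗ[ℂ] ℂ) : V →ₗ[ℝ] V →ₗ[ℝ] ℝ :=
  LinearMap.mk₂ ℝ (fun x y => (H x y).im)
    (fun x x' y => by rw [map_add, LinearMap.add_apply, Complex.add_im])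
    (fun c x y => by
      have h1 : c • x = (c : ℂ) • x := rfl
      rw [h1, LinearMap.map_smulₛₗ, LinearMap.smul_apply, Complex.conj_ofReal, smul_eq_mul,
        Complex.im_ofReal_mul, smul_eq_mul])
    (fun x y y' => by rw [map_add, Complex.add_im])
    (fun c x y => by
      have h1 : c • y = (c : ℂ) • y := rfl
      rw [h1, map_smul, smul_eq_mul, Complex.im_ofReal_mul, smul_eq_mul])

lemma imF_apply (H : V →ₗ⋆[ℂ] V →ₗ[ℂ] ℂ) (x y : V) : imF H x y = (H x y).im := rfl

/-- a real form is the imaginary part of a hermitian form as soon as its `(2,0)`-part vanishes -/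
lemma of_tau_zero {E : V →ₗ[ℝ] V →ₗ[ℝ] ℝ} (h0 : tau E = 0) (x y : V) :
    E (Complex.I • x) y = - E x (Complex.I • y) := by
  have h1 : tau E x y = 0 := by rw [h0]; rfl
  rw [tau_apply] at h1
  have h2 := congrArg Complex.im h1
  simp at h2
  linarith

end complex

end Pool.Agent.MP_e4ecdb_ag.BB

namespace Pool.Agent.MP_e4ecdb_ag.TQ

variable {V : Type} [NormedAddCommGroup V] [NormedSpace ℂ V] {Γ : Subgroup (V ≃ᵃ[ℂ] V)}
  {σ : LinearMap.BilinForm ℂ V}

/-- a nonzero invariant hermitian form with a nonzero radical is semidefinite -/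
lemma semidef_of_rad [FiniteDimensional ℂ V] (hΓ : IsCrystallographic Γ) (hσ : IsPrimSympl Γ σ)
    (hV : Nontrivial V) {H : V →ₗ⋆[ℂ] V →ₗ[ℂ] ℂ} (hH : H ∈ H11 Γ) (hne : H ≠ 0)
    (hrad : ∃ x, x ≠ 0 ∧ ∀ y, H x y = 0) : IsNef H ∨ IsNef (-H) := by
  have hfin := finite_LG hΓ
  obtain ⟨q, hq, hpos, hzero, hneg, h, hh, hh2⟩ := exists_bbf hΓ hσ hV
  obtain ⟨x, hx, hx2⟩ := hrad
  have hfu : q ⟨H, hH⟩ = 0 := by
    by_contra hne0
    obtain ⟨c, hc, hc2⟩ := hq.fujiki (Module.finBasis ℂ V)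
    have h1 := hc2 ⟨H, hH⟩
    -- the Gram matrix is singular
    have h2 : (Matrix.of fun i j => H (Module.finBasis ℂ V i) (Module.finBasis ℂ V j)).det = 0 := by
      rw [← Matrix.exists_vecMul_eq_zero_iff]
      refine ⟨fun i => (starRingEnd ℂ) ((Module.finBasis ℂ V).repr x i), ?_, ?_⟩
      · intro h0
        apply hx
        apply (Module.finBasis ℂ V).repr.injective
        ext i
        have := congrFun h0 i
        simp only [Pi.zero_apply] at this
        rw [map_zero, Finsupp.zero_apply]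
        exact (map_eq_zero (starRingEnd ℂ)).1 this
      · funext j
        have h3 := hx2 (Module.finBasis ℂ V j)
        conv at h3 => lhs; rw [← (Module.finBasis ℂ V).sum_repr x]
        rw [map_sum H, LinearMap.sum_apply] at h3
        rw [Pi.zero_apply, ← h3]
        simp only [Matrix.vecMul, dotProduct, Matrix.of_apply]
        refine Finset.sum_congr rfl fun i _ => ?_
        rw [LinearMap.map_smulₛₗ, LinearMap.smul_apply, smul_eq_mul]
    change (Matrix.of fun i j => H (Module.finBasis ℂ V i) (Module.finBasis ℂ V j)).det = _ at h1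
    rw [h2] at h1
    have h3 : c * q ⟨H, hH⟩ ^ (finrank ℂ V / 2) = 0 := by exact_mod_cast h1.symm
    rcases mul_eq_zero.1 h3 with h4 | h4
    · exact hc.ne' h4
    · have h5 : finrank ℂ V / 2 ≠ 0 := by
        have := finrank_pos (R := ℂ) (M := V)
        obtain ⟨n, hn⟩ := BB.even_finrank hσ.nondeg hσ.alt
        omega
      exact hne0 ((pow_eq_zero_iff h5).1 h4)
  exact (hzero ⟨H, hH⟩ hfu (fun h0 => hne (congrArg Subtype.val h0))).1

/-- P4 (helper30): every rational stable subspace is the radical of an integral nef class -/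
theorem exists_form [FiniteDimensional ℂ V] (hΓ : IsCrystallographic Γ) (hσ : IsPrimSympl Γ σ)
    {K : Submodule ℂ V} (hK : K ∈ RatStable Γ) :
    ∃ H ∈ H11 Γ, IsNef H ∧ (∀ x, x ∈ K ↔ ∀ y, H x y = 0) ∧
      ∀ x y, AffineEquiv.constVAdd ℂ V x ∈ Γ → AffineEquiv.constVAdd ℂ V y ∈ Γ →
        ∃ n : ℤ, (H x y).im = n := by
  classical
  obtain ⟨hK0, hK1, hKs, hKr⟩ := hK
  have hfin := finite_LG hΓ
  have hσ' := prim_rep hσ
  obtain ⟨x₀, hx₀K, hx₀⟩ := (Submodule.ne_bot_iff K).1 hK0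
  have hV : Nontrivial V := ⟨⟨x₀, 0, hx₀⟩⟩
  obtain ⟨ι, hι, b, hb⟩ := hΓ.lattice
  obtain ⟨h, hh, hp⟩ := BB.exists_posdef (rep Γ)
  obtain ⟨P, hP1, hP2, hP3⟩ := exists_equivariant_proj (rep Γ) K (stable_iff.1 hKs)
  -- the semipositive form with radical `K`
  let Q : V →ₗ[ℂ] V := LinearMap.id - P
  have hQ : ∀ x, Q x = x - P x := fun x => rfl
  let H₁ : V →ₗ⋆[ℂ] V →ₗ[ℂ] ℂ := LinearMap.mk₂'ₛₗ (starRingEnd ℂ) (RingHom.id ℂ)
    (fun x y => h (Q x) (Q y))
    (fun x x' y => by rw [map_add, map_add, LinearMap.add_apply])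
    (fun c x y => by rw [map_smul, LinearMap.map_smulₛₗ, LinearMap.smul_apply])
    (fun x y y' => by rw [map_add, map_add])
    (fun c x y => by rw [map_smul, map_smul]; rfl)
  have hH₁ : ∀ x y, H₁ x y = h (x - P x) (y - P y) := fun x y => rfl
  have hherm₁ : ∀ x y, H₁ x y = (starRingEnd ℂ) (H₁ y x) := fun x y => by
    rw [hH₁, hH₁]; exact hh.1 _ _
  have hinv₁ : ∀ γ ∈ Γ, ∀ x y, H₁ (γ.linear x) (γ.linear y) = H₁ x y := by
    intro γ hγ x y
    obtain ⟨A, hA⟩ := exists_rep hγ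
    rw [hH₁, hH₁, ← hA, ← hA, hP3, hP3, ← map_sub, ← map_sub, hh.2]
  have hrad₁ : ∀ x ∈ K, ∀ y, H₁ x y = 0 := by
    intro x hx y
    rw [hH₁, hP2 x hx, sub_self]
    simp
  have hne₁ : BB.imF H₁ ≠ 0 := by
    intro h0
    apply hK1
    rw [eq_top_iff]
    intro x _
    by_contra hx
    have hx' : x - P x ≠ 0 := fun h => hx (by rw [sub_eq_zero] at h; rw [h]; exact hP1 x)
    have h1 := hp _ hx'
    rw [← hH₁] at h1
    have h2 : (H₁ x (Complex.I • x)).im = 0 := by
      rw [← BB.imF_apply, h0]; rfl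
    rw [map_smul, smul_eq_mul] at h2
    simp at h2
    linarith
  have halt₁ : ∀ x y, BB.imF H₁ x y = - BB.imF H₁ y x := by
    intro x y
    rw [BB.imF_apply, BB.imF_apply, hherm₁, Complex.conj_im]
  -- the real linear parts
  let A : Set (V →ₗ[ℝ] V) := {a | ∃ γ ∈ Γ, ∀ x, a x = γ.linear x}
  have hA : ∀ a ∈ A, ∀ i, a (b i) ∈ Submodule.span ℤ (Set.range b) := by
    rintro a ⟨γ, hγ, ha⟩ i
    rw [ha, hb]
    exact tr_lin_mem ((hb _).1 (Submodule.subset_span ⟨i, rfl⟩)) hγ
  have hKspan : K.restrictScalars ℝ ≤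
      Submodule.span ℝ {x | x ∈ Submodule.span ℤ (Set.range b) ∧ x ∈ K.restrictScalars ℝ} := by
    rw [hKr]
    apply Submodule.span_le.2
    rintro x ⟨hx, hxK⟩
    refine Submodule.subset_span ⟨(hb x).2 hx, ?_⟩
    rw [← hKr]
    exact hxK
  obtain ⟨E, hE1, hE2, hE3, hE4, hE5⟩ := BB.exists_integral_form b A hA (K.restrictScalars ℝ) hKspan
    (BB.imF H₁) halt₁ (by
      rintro a ⟨γ, hγ, ha⟩ x y
      rw [BB.imF_apply, BB.imF_apply, ha, ha, hinv₁ γ hγ]) (by
      intro x hx y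
      rw [BB.imF_apply, hrad₁ x hx]
      rfl) hne₁
  have hEinv : ∀ γ ∈ Γ, ∀ x y, E (γ.linear x) (γ.linear y) = E x y := by
    intro γ hγ x y
    let a : V →ₗ[ℝ] V := (γ.linear : V →ₗ[ℂ] V).restrictScalars ℝ
    exact hE2 a ⟨γ, hγ, fun x => rfl⟩ x y
  have hErad : ∀ x ∈ K, ∀ y, E x y = 0 := fun x hx y => hE3 x hx y
  -- the `(2,0)`-part vanishes
  have htau : BB.tau E = 0 := by
    obtain ⟨c, hc⟩ := hσ.prim (BB.tau E) (fun x => by
      rw [BB.tau_apply]
      have e1 := hE1 x x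
      have e2 := hE1 (Complex.I • x) (Complex.I • x)
      have e3 := hE1 (Complex.I • x) x
      have f1 : E x x = 0 := by linarith
      have f2 : E (Complex.I • x) (Complex.I • x) = 0 := by linarith
      rw [f1, f2, e3]
      simp) (fun γ hγ x y => by
      rw [BB.tau_apply, BB.tau_apply, ← map_smul, ← map_smul, hEinv γ hγ, hEinv γ hγ, hEinv γ hγ,
        hEinv γ hγ])
    have hc0 : c = 0 := by
      by_contra hc0
      apply hx₀
      apply hσ.nondeg
      intro y
      have h1 : BB.tau E x₀ y = c * σ x₀ y := by rw [hc]; rfl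
      rw [BB.tau_apply, hErad x₀ hx₀K, hErad x₀ hx₀K, hErad _ (K.smul_mem _ hx₀K),
        hErad _ (K.smul_mem _ hx₀K)] at h1
      simp at h1
      rcases h1 with h1 | h1
      · exact absurd h1 hc0
      · exact h1
    rw [hc, hc0, zero_smul]
  have hEI := BB.of_tau_zero htau
  let H := BB.toH E hEI
  have hHa : ∀ x y, H x y = (E x (Complex.I • y) : ℂ) + (E x y : ℂ) * Complex.I := fun x y => rfl
  have hHherm : ∀ x y, H x y = (starRingEnd ℂ) (H y x) := by
    intro x y
    rw [hHa, hHa, map_add, map_mul, Complex.conj_ofReal, Complex.conj_ofReal, Complex.conj_I,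
      hE1 y x, hE1 y (Complex.I • x), hEI]
    push_cast
    ring
  have hHinv : ∀ γ ∈ Γ, ∀ x y, H (γ.linear x) (γ.linear y) = H x y := by
    intro γ hγ x y
    rw [hHa, hHa, ← map_smul, hEinv γ hγ, hEinv γ hγ]
  have hHrad : ∀ x ∈ K, ∀ y, H x y = 0 := by
    intro x hx y
    rw [hHa, hErad x hx, hErad x hx]
    simp
  have hHne : H ≠ 0 := by
    intro h0
    apply hE4
    refine LinearMap.ext fun x => LinearMap.ext fun y => ?_
    have h1 : (H x y).im = 0 := by rw [h0]; rfl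
    rw [hHa] at h1
    simpa using h1
  have hHim : ∀ x y, (H x y).im = E x y := by
    intro x y
    rw [hHa]
    simp
  have hH11 : H ∈ H11 Γ := ⟨hHherm, hHinv⟩
  -- the radical is exactly `K`
  have hradK : ∀ x, (∀ y, H x y = 0) → x ∈ K := by
    have hle : K ≤ kerForm H := fun x hx => (mem_kerForm H x).2 (hHrad x hx)
    have hst : BB.Stable (rep Γ) (kerForm H) := by
      rw [← stable_iff]
      intro γ hγ x hx
      rw [mem_kerForm] at hx ⊢
      intro y
      have h1 : y = γ.linear (γ.linear.symm y) := (γ.linear.apply_symm_apply y).symm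
      rw [h1, hHinv γ hγ]
      exact hx _
    have hkb : kerForm H ≠ ⊥ := fun h0 => hK0 (eq_bot_iff.2 (h0 ▸ hle))
    have hkt : kerForm H ≠ ⊤ := by
      intro h0
      apply hHne
      refine LinearMap.ext fun x => LinearMap.ext fun y => ?_
      exact (mem_kerForm H x).1 (h0 ▸ Submodule.mem_top) y
    have d1 := (BB.stable_lagr hσ' (stable_iff.1 hKs) hK0 hK1).2
    have d2 := (BB.stable_lagr hσ' hst hkb hkt).2
    have heq : K = kerForm H := Submodule.eq_of_le_of_finrank_eq hle (by omega)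
    intro x hx
    rw [heq, mem_kerForm]
    exact hx
  rcases semidef_of_rad hΓ hσ hV hH11 hHne ⟨x₀, hx₀, hHrad x₀ hx₀K⟩ with hnef | hnef
  · refine ⟨H, hH11, hnef, fun x => ⟨hHrad x, hradK x⟩, fun x y hx hy => ?_⟩
    rw [hHim]
    exact hE5 x ((hb x).2 hx) y ((hb y).2 hy)
  · refine ⟨-H, (H11 Γ).neg_mem hH11, hnef, fun x => ⟨fun hx y => ?_, fun hx => hradK x fun y => ?_⟩,
      fun x y hx hy => ?_⟩
    · rw [LinearMap.neg_apply, LinearMap.neg_apply, hHrad x hx, neg_zero]
    · have := hx y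
      rw [LinearMap.neg_apply, LinearMap.neg_apply, neg_eq_zero] at this
      exact this
    · obtain ⟨n, hn⟩ := hE5 x ((hb x).2 hx) y ((hb y).2 hy)
      refine ⟨-n, ?_⟩
      rw [LinearMap.neg_apply, LinearMap.neg_apply, Complex.neg_im, hHim, hn]
      push_cast
      rfl

end Pool.Agent.MP_e4ecdb_ag.TQ
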