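import Pool.Agent.MP_e4ecdb_ag.TQuot
open Module Complex

/-! An explicit primitive symplectic torus quotient of dimension four that is not simply connected. -/

namespace Pool.Agent.MP_e4ecdb_ag.CEx

/-- `ℂ⁴`, in two blocks of size two -/
abbrev E : Type := Fin 2 → Fin 2 → ℂ

/-- the translation vector with given integer data -/
noncomputable def tv (m n k l : Fin 2 → ℤ) : E :=
  fun i => ![(m i : ℂ) / 2 + n i * I, (k i : ℂ) + l i * I]

/-- the determinant of a signed permutation -/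
def kap (p : Equiv.Perm (Fin 2)) (ε : Fin 2 → ℤˣ) : ℤˣ := (∏ i, ε i) * Equiv.Perm.sign p

/-- `γ` is given by the signed permutation `(p, ε)` of the two blocks and by the integers
`m, n, k, l`, with the parity conditions -/
structure Dat (γ : E ≃ᵃ[ℂ] E) (p : Equiv.Perm (Fin 2)) (ε : Fin 2 → ℤˣ) (m n k l : Fin 2 → ℤ) :
    Prop where
  hm : ∀ i, (-1 : ℤˣ) ^ (m i) = kap p ε
  hn : ∏ i, (-1 : ℤˣ) ^ (n i) = kap p ε
  act : ∀ v i j, γ v i j = ((ε i : ℤ) : ℂ) * v (p i) j + tv m n k l i j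

lemma kap_mul (p p' : Equiv.Perm (Fin 2)) (ε ε' : Fin 2 → ℤˣ) :
    kap (p' * p) (fun i => ε i * ε' (p i)) = kap p ε * kap p' ε' := by
  unfold kap
  rw [Finset.prod_mul_distrib, Equiv.prod_comp p ε', Equiv.Perm.sign_mul]
  ac_rfl

lemma neg_one_zpow_unit (u : ℤˣ) (m : ℤ) : (-1 : ℤˣ) ^ ((u : ℤ) * m) = (-1 : ℤˣ) ^ m := by
  rcases Int.units_eq_one_or u with h | h <;> subst h <;> simp

lemma tv_mul (ε : Fin 2 → ℤˣ) (p : Equiv.Perm (Fin 2)) (m n k l m' n' k' l' : Fin 2 → ℤ) (i j : Fin 2) :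
    tv (fun i => m i + (ε i : ℤ) * m' (p i)) (fun i => n i + (ε i : ℤ) * n' (p i))
      (fun i => k i + (ε i : ℤ) * k' (p i)) (fun i => l i + (ε i : ℤ) * l' (p i)) i j =
      ((ε i : ℤ) : ℂ) * tv m' n' k' l' (p i) j + tv m n k l i j := by
  fin_cases j <;> simp [tv] <;> ring

lemma Dat.mul {γ γ' : E ≃ᵃ[ℂ] E} {p p' : Equiv.Perm (Fin 2)} {ε ε' : Fin 2 → ℤˣ}
    {m n k l m' n' k' l' : Fin 2 → ℤ} (h : Dat γ p ε m n k l) (h' : Dat γ' p' ε' m' n' k' l') :
    Dat (γ * γ') (p' * p) (fun i => ε i * ε' (p i))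
      (fun i => m i + (ε i : ℤ) * m' (p i)) (fun i => n i + (ε i : ℤ) * n' (p i))
      (fun i => k i + (ε i : ℤ) * k' (p i)) (fun i => l i + (ε i : ℤ) * l' (p i)) where
  hm i := by
    rw [kap_mul, zpow_add, neg_one_zpow_unit, h.hm, h'.hm]
  hn := by
    rw [kap_mul, ← h.hn, ← h'.hn, ← Equiv.prod_comp p (fun i => (-1 : ℤˣ) ^ n' i),
      ← Finset.prod_mul_distrib]
    refine Finset.prod_congr rfl fun i _ => ?_
    rw [zpow_add, neg_one_zpow_unit]
  act v i j := by
    have h1 : (γ * γ') v = γ (γ' v) := rfl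
    rw [h1, h.act, h'.act, tv_mul]
    push_cast
    rw [Function.comp_apply]
    ring

lemma unit_mul_self (u : ℤˣ) : ((u : ℤ) : ℂ) * ((u : ℤ) : ℂ) = 1 := by
  rcases Int.units_eq_one_or u with h | h <;> subst h <;> simp

lemma Dat.inv {γ : E ≃ᵃ[ℂ] E} {p : Equiv.Perm (Fin 2)} {ε : Fin 2 → ℤˣ}
    {m n k l : Fin 2 → ℤ} (h : Dat γ p ε m n k l) :
    Dat γ⁻¹ p⁻¹ (fun i => ε (p⁻¹ i))
      (fun i => (ε (p⁻¹ i) : ℤ) * (- m (p⁻¹ i))) (fun i => (ε (p⁻¹ i) : ℤ) * (- n (p⁻¹ i)))
      (fun i => (ε (p⁻¹ i) : ℤ) * (- k (p⁻¹ i))) (fun i => (ε (p⁻¹ i) : ℤ) * (- l (p⁻¹ i))) where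
  hm i := by
    rw [neg_one_zpow_unit, zpow_neg, h.hm]
    unfold kap
    rw [Equiv.prod_comp p⁻¹ ε, Equiv.Perm.sign_inv]
    rcases Int.units_eq_one_or ((∏ i, ε i) * Equiv.Perm.sign p) with h | h <;> rw [h] <;> rfl
  hn := by
    have h1 : ∏ i, (-1 : ℤˣ) ^ ((ε (p⁻¹ i) : ℤ) * (- n (p⁻¹ i))) = ∏ i, (-1 : ℤˣ) ^ (n i) := by
      rw [← Equiv.prod_comp p⁻¹ (fun i => (-1 : ℤˣ) ^ n i)]
      refine Finset.prod_congr rfl fun i _ => ?_
      rw [neg_one_zpow_unit, zpow_neg]
      rcases Int.units_eq_one_or ((-1 : ℤˣ) ^ n (p⁻¹ i)) with h | h <;> rw [h] <;> rfl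
    rw [h1, h.hn]
    unfold kap
    rw [Equiv.prod_comp p⁻¹ ε, Equiv.Perm.sign_inv]
  act v i j := by
    set w : E := fun i j => ((ε (p⁻¹ i) : ℤ) : ℂ) * v (p⁻¹ i) j +
      tv (fun i => (ε (p⁻¹ i) : ℤ) * (- m (p⁻¹ i))) (fun i => (ε (p⁻¹ i) : ℤ) * (- n (p⁻¹ i)))
      (fun i => (ε (p⁻¹ i) : ℤ) * (- k (p⁻¹ i))) (fun i => (ε (p⁻¹ i) : ℤ) * (- l (p⁻¹ i))) i j
      with hw
    have h1 : γ w = v := by
      funext i j
      rw [h.act, hw]
      have h3 : p⁻¹ (p i) = i := p.symm_apply_apply i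
      simp only [h3]
      have h2 := unit_mul_self (ε i)
      fin_cases j
      · simp [tv]
        linear_combination (v i 0 - (m i / 2 + n i * I)) * h2
      · simp [tv]
        linear_combination (v i 1 - (k i + l i * I)) * h2
    have h3 : γ⁻¹ v = w := by
      rw [← h1]
      exact γ.symm_apply_apply w
    rw [h3]

/-- the crystallographic group -/
noncomputable def Gam : Subgroup (E ≃ᵃ[ℂ] E) where
  carrier := {γ | ∃ p ε m n k l, Dat γ p ε m n k l}
  mul_mem' := by
    rintro γ γ' ⟨p, ε, m, n, k, l, h⟩ ⟨p', ε', m', n', k', l', h'⟩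
    exact ⟨_, _, _, _, _, _, h.mul h'⟩
  one_mem' := by
    refine ⟨1, 1, 0, 0, 0, 0, ?_, ?_, ?_⟩
    · intro i; simp [kap]
    · simp [kap]
    · intro v i j
      change v i j = _
      fin_cases j <;> simp [tv]
  inv_mem' := by
    rintro γ ⟨p, ε, m, n, k, l, h⟩
    exact ⟨_, _, _, _, _, _, h.inv⟩

lemma mem_Gam {γ : E ≃ᵃ[ℂ] E} : γ ∈ Gam ↔ ∃ p ε m n k l, Dat γ p ε m n k l := Iff.rfl

/-- the linear map given by a signed permutation -/
noncomputable def A (p : Equiv.Perm (Fin 2)) (ε : Fin 2 → ℤˣ) : E ≃ₗ[ℂ] E :=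
  (LinearEquiv.funCongrLeft ℂ (Fin 2 → ℂ) p).trans
    (LinearEquiv.piCongrRight fun i => LinearEquiv.smulOfUnit (Units.map (Int.castRingHom ℂ).toMonoidHom (ε i)))

lemma A_apply (p : Equiv.Perm (Fin 2)) (ε : Fin 2 → ℤˣ) (v : E) (i j : Fin 2) :
    A p ε v i j = ((ε i : ℤ) : ℂ) * v (p i) j := rfl

lemma Dat.linear {γ : E ≃ᵃ[ℂ] E} {p : Equiv.Perm (Fin 2)} {ε : Fin 2 → ℤˣ}
    {m n k l : Fin 2 → ℤ} (h : Dat γ p ε m n k l) : γ.linear = A p ε := by
  ext1 v
  have h1 : γ v = γ.linear v + γ 0 := TQ.aff_apply γ v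
  funext i j
  have h2 := congrFun (congrFun h1 i) j
  rw [Pi.add_apply, Pi.add_apply, h.act, h.act] at h2
  rw [A_apply]
  simp only [Pi.zero_apply, mul_zero, zero_add, add_left_inj] at h2
  exact h2.symm

/-- the affine map with given data -/
noncomputable def mk (p : Equiv.Perm (Fin 2)) (ε : Fin 2 → ℤˣ) (m n k l : Fin 2 → ℤ) : E ≃ᵃ[ℂ] E :=
  AffineEquiv.constVAdd ℂ E (tv m n k l) * (A p ε).toAffineEquiv

lemma mk_dat (p : Equiv.Perm (Fin 2)) (ε : Fin 2 → ℤˣ) (m n k l : Fin 2 → ℤ)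
    (hm : ∀ i, (-1 : ℤˣ) ^ (m i) = kap p ε) (hn : ∏ i, (-1 : ℤˣ) ^ (n i) = kap p ε) :
    Dat (mk p ε m n k l) p ε m n k l where
  hm := hm
  hn := hn
  act v i j := by
    change tv m n k l i j + A p ε v i j = _
    rw [A_apply, add_comm]

/-- real coordinates adapted to the lattice -/
noncomputable def coord : E ≃ₗ[ℝ] (Fin 8 → ℝ) where
  toFun x := ![(x 0 0).re, (x 1 0).re, ((x 0 0).im + (x 1 0).im) / 2, ((x 0 0).im - (x 1 0).im) / 2,
    (x 0 1).re, (x 0 1).im, (x 1 1).re, (x 1 1).im]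
  invFun c := ![![⟨c 0, c 2 + c 3⟩, ⟨c 4, c 5⟩], ![⟨c 1, c 2 - c 3⟩, ⟨c 6, c 7⟩]]
  map_add' x y := by
    funext i
    fin_cases i <;> simp <;> ring
  map_smul' a x := by
    funext i
    fin_cases i <;> simp <;> ring
  left_inv x := by
    funext i j
    fin_cases i <;> fin_cases j <;> apply Complex.ext <;> simp <;> ring
  right_inv c := by
    funext i
    fin_cases i <;> simp <;> ring

lemma even_of_zpow {m : ℤ} (h : (-1 : ℤˣ) ^ m = 1) : Even m := by
  rcases Int.even_or_odd m with h1 | h1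
  · exact h1
  · rw [h1.neg_one_zpow] at h
    exact absurd h (by decide)

lemma Dat.trans {x : E} {p : Equiv.Perm (Fin 2)} {ε : Fin 2 → ℤˣ}
    {m n k l : Fin 2 → ℤ} (h : Dat (AffineEquiv.constVAdd ℂ E x) p ε m n k l) : p = 1 ∧ ε = 1 := by
  have hlin : ∀ (v : E) (i j : Fin 2), v i j = ((ε i : ℤ) : ℂ) * v (p i) j := fun v i j => by
    rw [← A_apply, ← h.linear]
    rfl
  have hp : ∀ i, p i = i ∧ ε i = 1 := fun i => by
    have h1 := hlin (Pi.single i (fun _ => 1)) i 0
    by_cases hpi : p i = i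
    · refine ⟨hpi, ?_⟩
      rw [hpi] at h1
      rcases Int.units_eq_one_or (ε i) with h2 | h2
      · exact h2
      · rw [h2] at h1
        norm_num at h1
    · rw [Pi.single_eq_same, Pi.single_eq_of_ne hpi] at h1
      simp at h1
  exact ⟨Equiv.ext fun i => (hp i).1, funext fun i => (hp i).2⟩

lemma cryst : IsCrystallographic Gam where
  lattice := by
    refine ⟨Fin 8, inferInstance, Basis.ofEquivFun coord, fun x => ?_⟩
    rw [Basis.mem_span_iff_repr_mem]
    have hr : ∀ i, (Basis.ofEquivFun coord).repr x i = coord x i := fun i => by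
      rw [← Basis.equivFun_apply, Basis.equivFun_ofEquivFun]
    constructor
    · intro h
      have h' : ∀ i, ∃ c : ℤ, (c : ℝ) = coord x i := fun i => by
        obtain ⟨c, hc⟩ := h i
        exact ⟨c, by rw [← hr]; simpa using hc⟩
      choose c hc using h'
      have h0 := hc 0
      have h1 := hc 1
      have h2 := hc 2
      have h3 := hc 3
      have h4 := hc 4
      have h5 := hc 5
      have h6 := hc 6
      have h7 := hc 7
      simp [coord] at h0 h1 h2 h3 h4 h5 h6 h7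
      refine ⟨1, 1, ![2 * c 0, 2 * c 1], ![c 2 + c 3, c 2 - c 3], ![c 4, c 6], ![c 5, c 7],
        ?_, ?_, ?_⟩
      · intro i
        fin_cases i <;> simp [kap, zpow_mul]
      · simp only [kap, Fin.prod_univ_two, Matrix.cons_val_zero, Matrix.cons_val_one]
        rw [← zpow_add]
        have : c 2 + c 3 + (c 2 - c 3) = 2 * c 2 := by ring
        rw [this, zpow_mul]
        simp
      · intro v i j
        change x i j + v i j = _
        have : x i j = tv ![2 * c 0, 2 * c 1] ![c 2 + c 3, c 2 - c 3] ![c 4, c 6] ![c 5, c 7] i j := by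
          fin_cases i <;> fin_cases j <;> apply Complex.ext <;>
            simp [tv, h0, h1, h2, h3, h4, h5, h6, h7] <;> ring
        rw [this]
        simp [add_comm]
    · rintro ⟨p, ε, m, n, k, l, h⟩
      obtain ⟨hp1, he1⟩ := h.trans
      subst hp1 he1
      have hk : kap 1 1 = 1 := by simp [kap]
      have hx : x = tv m n k l := by
        funext i j
        have h1 := h.act 0 i j
        change x i j + 0 = _ at h1
        simpa using h1
      have hm0 := h.hm 0
      have hm1 := h.hm 1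
      have hn := h.hn
      rw [hk] at hm0 hm1 hn
      rw [Fin.prod_univ_two, ← zpow_add] at hn
      obtain ⟨a0, ha0⟩ := even_of_zpow hm0
      obtain ⟨a1, ha1⟩ := even_of_zpow hm1
      obtain ⟨b, hb⟩ := even_of_zpow hn
      have hn1 : n 1 = 2 * b - n 0 := by omega
      have ha0' : (m 0 : ℝ) = a0 + a0 := by exact_mod_cast ha0
      have ha1' : (m 1 : ℝ) = a1 + a1 := by exact_mod_cast ha1
      have hn1' : (n 1 : ℝ) = 2 * b - n 0 := by exact_mod_cast hn1
      intro i
      rw [hr, hx]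
      fin_cases i
      · exact ⟨a0, by simp [coord, tv, ha0']⟩
      · exact ⟨a1, by simp [coord, tv, ha1']⟩
      · exact ⟨b, by simp [coord, tv, hn1']⟩
      · exact ⟨n 0 - b, by simp [coord, tv, hn1']; ring⟩
      · exact ⟨k 0, by simp [coord, tv]⟩
      · exact ⟨l 0, by simp [coord, tv]⟩
      · exact ⟨k 1, by simp [coord, tv]⟩
      · exact ⟨l 1, by simp [coord, tv]⟩
  finite := by
    refine (Set.finite_range (fun q : Equiv.Perm (Fin 2) × (Fin 2 → ℤˣ) => A q.1 q.2)).subset ?_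
    rintro B ⟨γ, ⟨p, ε, m, n, k, l, h⟩, rfl⟩
    exact ⟨(p, ε), h.linear.symm⟩

/-- the symplectic form -/
noncomputable def sig : LinearMap.BilinForm ℂ E :=
  LinearMap.mk₂ ℂ (fun v w => ∑ i, (v i 0 * w i 1 - v i 1 * w i 0))
    (fun v v' w => by
      rw [← Finset.sum_add_distrib]
      exact Finset.sum_congr rfl fun i _ => by simp only [Pi.add_apply]; ring)
    (fun c v w => by
      rw [smul_eq_mul, Finset.mul_sum]
      exact Finset.sum_congr rfl fun i _ => by simp only [Pi.smul_apply, smul_eq_mul]; ring)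
    (fun v w w' => by
      rw [← Finset.sum_add_distrib]
      exact Finset.sum_congr rfl fun i _ => by simp only [Pi.add_apply]; ring)
    (fun c v w => by
      rw [smul_eq_mul, Finset.mul_sum]
      exact Finset.sum_congr rfl fun i _ => by simp only [Pi.smul_apply, smul_eq_mul]; ring)

lemma sig_apply (v w : E) : sig v w = ∑ i, (v i 0 * w i 1 - v i 1 * w i 0) := rfl

/-- the standard basis vectors -/
noncomputable def eb (i j : Fin 2) : E := Pi.single i (Pi.single j 1)

lemma eb_same (i j : Fin 2) : eb i j i j = 1 := by simp [eb]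

lemma expand (v : E) : v = ∑ i, ∑ j, v i j • eb i j := by
  funext i j
  simp only [Fin.sum_univ_two, eb]
  fin_cases i <;> fin_cases j <;> simp

lemma bil_expand (τ : LinearMap.BilinForm ℂ E) (v w : E) :
    τ v w = ∑ i, ∑ j, ∑ i', ∑ j', v i j * w i' j' * τ (eb i j) (eb i' j') := by
  conv_lhs => rw [expand v, expand w]
  simp only [Fin.sum_univ_two, map_add, map_smul, LinearMap.add_apply, LinearMap.smul_apply,
    smul_eq_mul]
  ring

/-- the reflection `(x, y) ↦ (x, -y)` in the linear part -/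
noncomputable def gd : E ≃ᵃ[ℂ] E := mk 1 ![1, -1] ![1, 1] ![1, 0] 0 0
/-- the rotation `(x, y) ↦ (-y, x)` -/
noncomputable def gr : E ≃ᵃ[ℂ] E := mk (Equiv.swap 0 1) ![-1, 1] 0 0 0 0

lemma gd_dat : Dat gd 1 ![1, -1] ![1, 1] ![1, 0] 0 0 := by
  apply mk_dat
  · intro i; fin_cases i <;> simp [kap]
  · simp [kap]

lemma gr_dat : Dat gr (Equiv.swap 0 1) ![-1, 1] 0 0 0 0 := by
  apply mk_dat
  · intro i; fin_cases i <;> simp [kap]
  · simp [kap]

lemma gd_mem : gd ∈ Gam := ⟨_, _, _, _, _, _, gd_dat⟩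
lemma gr_mem : gr ∈ Gam := ⟨_, _, _, _, _, _, gr_dat⟩

lemma gd_eb0 (j : Fin 2) : gd.linear (eb 0 j) = eb 0 j := by
  rw [gd_dat.linear]
  funext i j'
  rw [A_apply]
  fin_cases i <;> simp [eb]

lemma gd_eb1 (j : Fin 2) : gd.linear (eb 1 j) = - eb 1 j := by
  rw [gd_dat.linear]
  funext i j'
  rw [A_apply]
  fin_cases i <;> simp [eb]

lemma gr_eb0 (j : Fin 2) : gr.linear (eb 0 j) = eb 1 j := by
  rw [gr_dat.linear]
  funext i j'
  rw [A_apply]
  fin_cases i <;> simp [eb]

lemma prim : IsPrimSympl Gam sig where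
  alt v := by
    rw [sig_apply]
    exact Finset.sum_eq_zero fun i _ => by ring
  nondeg v h := by
    funext i j
    have h1 := h (eb i 1)
    have h2 := h (eb i 0)
    rw [sig_apply, Fin.sum_univ_two] at h1 h2
    fin_cases i <;> fin_cases j <;> simp [eb] at h1 h2 ⊢ <;> assumption
  inv := by
    rintro γ ⟨p, ε, m, n, k, l, h⟩ v w
    rw [h.linear, sig_apply, sig_apply,
      ← Equiv.sum_comp p (fun i => v i 0 * w i 1 - v i 1 * w i 0)]
    refine Finset.sum_congr rfl fun i _ => ?_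
    rw [A_apply, A_apply, A_apply, A_apply]
    linear_combination (v (p i) 0 * w (p i) 1 - v (p i) 1 * w (p i) 0) * unit_mul_self (ε i)
  prim τ halt hinv := by
    refine ⟨τ (eb 0 0) (eb 0 1), ?_⟩
    have hsk : ∀ x y, τ x y = - τ y x := fun x y => by
      have := halt (x + y)
      simp only [map_add, LinearMap.add_apply, halt] at this
      linear_combination this
    have h01 : ∀ j j', τ (eb 0 j) (eb 1 j') = 0 := fun j j' => by
      have := hinv gd gd_mem (eb 0 j) (eb 1 j')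
      rw [gd_eb0, gd_eb1, map_neg] at this
      linear_combination (-1 / 2 : ℂ) * this
    have h10 : ∀ j j', τ (eb 1 j) (eb 0 j') = 0 := fun j j' => by
      rw [hsk, h01, neg_zero]
    have h11 : ∀ j j', τ (eb 1 j) (eb 1 j') = τ (eb 0 j) (eb 0 j') := fun j j' => by
      have := hinv gr gr_mem (eb 0 j) (eb 0 j')
      rwa [gr_eb0, gr_eb0] at this
    refine LinearMap.ext fun v => LinearMap.ext fun w => ?_
    rw [LinearMap.smul_apply, LinearMap.smul_apply, bil_expand τ v w, sig_apply, smul_eq_mul]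
    simp only [Fin.sum_univ_two, h01, h10, h11, halt]
    rw [hsk (eb 0 1) (eb 0 0)]
    ring
  no_inv v h := by
    have h1 := h gd gd_mem
    have h2 := h gr gr_mem
    rw [gd_dat.linear] at h1
    rw [gr_dat.linear] at h2
    have h3 : ∀ j, v 1 j = 0 := fun j => by
      have := congrFun (congrFun h1 1) j
      rw [A_apply] at this
      simp at this
      linear_combination (-1 / 2 : ℂ) * this
    funext i j
    fin_cases i
    · have := congrFun (congrFun h2 0) j
      rw [A_apply] at this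
      simp [h3] at this
      simpa using this.symm
    · exact h3 j

/-- the factor of automorphy of the line bundle: the determinant character -/
noncomputable def fac (γ : E ≃ᵃ[ℂ] E) (_ : E) : ℂ :=
  Complex.exp (2 * Real.pi * I * ((γ 0 0 0).re : ℂ))

lemma Dat.fac {γ : E ≃ᵃ[ℂ] E} {p : Equiv.Perm (Fin 2)} {ε : Fin 2 → ℤˣ}
    {m n k l : Fin 2 → ℤ} (h : Dat γ p ε m n k l) (v : E) :
    CEx.fac γ v = ((kap p ε : ℤ) : ℂ) := by
  unfold CEx.fac
  have h1 : (γ 0 0 0).re = (m 0 : ℝ) / 2 := by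
    rw [h.act]
    simp [tv]
  rw [h1]
  have h2 : 2 * (Real.pi : ℂ) * I * (((m 0 : ℝ) / 2 : ℝ) : ℂ) = (m 0 : ℤ) * (Real.pi * I) := by
    push_cast
    ring
  rw [h2, Complex.exp_int_mul, Complex.exp_pi_mul_I, ← h.hm 0]
  rcases Int.even_or_odd (m 0) with h3 | h3
  · rw [h3.neg_one_zpow, h3.neg_one_zpow]
    simp
  · rw [h3.neg_one_zpow, h3.neg_one_zpow]
    simp

lemma perm_two : ∀ p : Equiv.Perm (Fin 2), p = 1 ∨ p = Equiv.swap 0 1 := by decide

/-- the elements of determinant `-1` act without fixed points -/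
lemma kap_of_fixed {γ : E ≃ᵃ[ℂ] E} {p : Equiv.Perm (Fin 2)} {ε : Fin 2 → ℤˣ}
    {m n k l : Fin 2 → ℤ} (h : Dat γ p ε m n k l) {v : E} (hv : γ v = v) : kap p ε = 1 := by
  have hfix : ∀ i j, ((ε i : ℤ) : ℂ) * v (p i) j + tv m n k l i j = v i j := fun i j => by
    rw [← h.act, hv]
  have hre : ∀ i, ((ε i : ℤ) : ℝ) * (v (p i) 0).re + m i / 2 = (v i 0).re := fun i => by
    have := congrArg Complex.re (hfix i 0)
    simpa [tv] using this
  have him : ∀ i, ((ε i : ℤ) : ℝ) * (v (p i) 0).im + n i = (v i 0).im := fun i => by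
    have := congrArg Complex.im (hfix i 0)
    simpa [tv] using this
  rcases perm_two p with hp | hp
  · subst hp
    by_contra hk
    have hex : ∃ i, ε i = 1 := by
      by_contra hne
      push Not at hne
      apply hk
      have h0 := (Int.units_eq_one_or (ε 0)).resolve_left (hne 0)
      have h1 := (Int.units_eq_one_or (ε 1)).resolve_left (hne 1)
      simp [kap, h0, h1]
    obtain ⟨i, hi⟩ := hex
    have h1 := hre i
    rw [hi] at h1
    have h2 : (m i : ℝ) = 0 := by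
      simp at h1
      exact_mod_cast h1
    have h3 : m i = 0 := by exact_mod_cast h2
    apply hk
    rw [← h.hm i, h3]
    rfl
  · subst hp
    have h0 := him 0
    have h1 := him 1
    rw [Equiv.swap_apply_left] at h0
    rw [Equiv.swap_apply_right] at h1
    have hn := h.hn
    rw [Fin.prod_univ_two, ← zpow_add] at hn
    rcases Int.units_eq_one_or (ε 0) with e0 | e0 <;> rcases Int.units_eq_one_or (ε 1) with e1 | e1
    · -- both `1`
      rw [e0] at h0
      rw [e1] at h1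
      have h2 : (n 0 : ℝ) + n 1 = 0 := by
        push_cast at h0 h1
        simp at h0 h1
        linarith
      have h3 : n 0 + n 1 = 0 := by exact_mod_cast h2
      rw [← hn, h3]
      rfl
    · simp [kap, e0, e1]
    · simp [kap, e0, e1]
    · rw [e0] at h0
      rw [e1] at h1
      have h2 : (n 0 : ℝ) = n 1 := by
        push_cast at h0 h1
        simp at h0 h1
        linarith
      have h3 : n 0 = n 1 := by exact_mod_cast h2
      rw [← hn, h3, ← two_mul, zpow_mul]
      simp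

lemma kap_sq (p : Equiv.Perm (Fin 2)) (ε : Fin 2 → ℤˣ) : ((kap p ε : ℤ) : ℂ) ^ 2 = 1 := by
  rcases Int.units_eq_one_or (kap p ε) with h | h <;> rw [h] <;> simp

lemma factor : IsFactor Gam fac where
  holo γ _ := differentiable_const _
  ne_zero := by
    rintro γ ⟨p, ε, m, n, k, l, h⟩ v
    rw [h.fac v]
    intro h0
    have := kap_sq p ε
    rw [h0] at this
    norm_num at this
  mul := by
    rintro γ ⟨p, ε, m, n, k, l, h⟩ γ' ⟨p', ε', m', n', k', l', h'⟩ v
    rw [(h.mul h').fac v, h.fac, h'.fac v, kap_mul]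
    push_cast
    rfl

lemma chern : IsChern Gam fac 0 where
  herm x y := by simp
  inv γ _ x y := by simp
  metric := by
    refine ⟨fun _ => 1, differentiable_const _, fun _ => one_ne_zero, ?_⟩
    rintro γ ⟨p, ε, m, n, k, l, h⟩ v
    rw [h.fac v]
    have h1 : ‖((kap p ε : ℤ) : ℂ)‖ ^ 2 = 1 := by
      rw [← norm_pow, kap_sq, norm_one]
    rw [h1]
    simp

/-- every section of every power is constant -/
lemma const (k : ℕ) {s : E → ℂ} (hs : s ∈ sections Gam fac k) (v w : E) : s v = s w := by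
  obtain ⟨ι, _, b, hb⟩ := cryst.lattice
  let S : AddSubgroup E := (Submodule.span ℤ (Set.range b)).toAddSubgroup
  have hK : (⊤ : Submodule ℂ E).restrictScalars ℝ =
      Submodule.span ℝ {x | x ∈ S ∧ x ∈ (⊤ : Submodule ℂ E)} := by
    apply le_antisymm
    · intro x _
      have h1 : x ∈ Submodule.span ℝ (Set.range b) := by rw [b.span_eq]; trivial
      refine Submodule.span_mono ?_ h1
      rintro y ⟨i, rfl⟩
      exact ⟨Submodule.subset_span ⟨i, rfl⟩, trivial⟩
    · intro x _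
      trivial
  have hper : ∀ x ∈ S, x ∈ (⊤ : Submodule ℂ E) → ∀ v, s (x + v) = s v := by
    intro x hx _ v
    have hx' : AffineEquiv.constVAdd ℂ E x ∈ Gam := (hb x).1 hx
    have h1 := hs.2 _ hx' v
    obtain ⟨p, ε, m, n, k', l, h⟩ := hx'
    obtain ⟨hp1, he1⟩ := h.trans
    subst hp1 he1
    rw [h.fac v] at h1
    have h2 : ((kap 1 1 : ℤ) : ℂ) = 1 := by simp [kap]
    rw [h2, one_pow, one_mul] at h1
    exact h1
  have := TQ.const_along ⊤ S hK hs.1 hper (v - w) trivial w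
  rwa [sub_add_cancel] at this

/-- the line bundle has no nowhere vanishing section -/
lemma nontrivial : ¬ ∃ s ∈ sections Gam fac 1, ∀ v, s v ≠ 0 := by
  rintro ⟨s, hs, hne⟩
  have h1 := hs.2 gd gd_mem 0
  rw [gd_dat.fac, const 1 hs (gd 0) 0] at h1
  have h2 : ((kap 1 ![1, -1] : ℤ) : ℂ) = -1 := by simp [kap]
  rw [h2] at h1
  apply hne 0
  linear_combination (1 / 2 : ℂ) * h1

/-- A primitive symplectic torus quotient `X = ℂ⁴ / Gam` with a nontrivial torsion line bundle: the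
word `nontrivial` in the question must be read as `c_1(L) ≠ 0` in real cohomology. -/
theorem torsion_example : IsCrystallographic Gam ∧ IsPrimSympl Gam sig ∧ IsFactor Gam fac ∧
    (∀ γ ∈ Gam, ∀ v, γ v = v → fac γ v = 1) ∧ IsChern Gam fac 0 ∧
    (¬ ∃ s ∈ sections Gam fac 1, ∀ v, s v ≠ 0) ∧
    ∀ k, ∀ s ∈ sections Gam fac k, ∀ v w, s v = s w := by
  refine ⟨cryst, prim, factor, ?_, chern, nontrivial, fun k s hs v w => const k hs v w⟩
  rintro γ ⟨p, ε, m, n, k, l, h⟩ v hv
  rw [h.fac v, kap_of_fixed h hv]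
  simp

end Pool.Agent.MP_e4ecdb_ag.CEx
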