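import Pool.Agent.MP_e4ecdb_ag.QDefs
open Module

/-! Row P6: every integral class of `H^{1,1}(X, ℝ)`, `X = V / Γ`, has a positive multiple which is the
Chern class of a line bundle on `X`. -/

namespace Pool.Agent.MP_e4ecdb_ag.TQ.QN

variable {V : Type} [NormedAddCommGroup V] [NormedSpace ℂ V]

lemma aff_add (γ : V ≃ᵃ[ℂ] V) (x v : V) : γ (x + v) = γ.linear x + γ v := by
  have := γ.map_vadd v x
  simpa using this

lemma aff_apply (γ : V ≃ᵃ[ℂ] V) (v : V) : γ v = γ.linear v + γ 0 := by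
  have := aff_add γ v 0
  simpa using this

/-- the translation part with respect to the origin `o` -/
def bt (o : V) (γ : V ≃ᵃ[ℂ] V) : V := γ o - o

lemma bt_mul (o : V) (γ δ : V ≃ᵃ[ℂ] V) : bt o (γ * δ) = γ.linear (bt o δ) + bt o γ := by
  have h1 : (γ * δ) o = γ (δ o) := rfl
  have h2 : γ (δ o) = γ.linear (bt o δ) + γ o := by
    rw [← aff_add, bt, sub_add_cancel]
  have h3 : bt o (γ * δ) = (γ * δ) o - o := rfl
  have h4 : bt o γ = γ o - o := rfl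
  rw [h3, h1, h2, h4, add_sub_assoc]

lemma bt_one (o : V) : bt o (1 : V ≃ᵃ[ℂ] V) = 0 := by
  have h1 : (1 : V ≃ᵃ[ℂ] V) o = o := rfl
  rw [bt, h1, sub_self]

lemma apply_sub (o : V) (γ : V ≃ᵃ[ℂ] V) (v : V) : γ v - o = γ.linear (v - o) + bt o γ := by
  have h1 : γ v = γ ((v - o) + o) := by rw [sub_add_cancel]
  rw [h1, aff_add, bt]
  abel

lemma mem_tr_of_linear_one {Γ : Subgroup (V ≃ᵃ[ℂ] V)} {γ δ : V ≃ᵃ[ℂ] V} (hγ : γ ∈ Γ) (hδ : δ ∈ Γ)
    (h : γ.linear = δ.linear) : AffineEquiv.constVAdd ℂ V (γ 0 - δ 0) ∈ Γ := by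
  have h1 : AffineEquiv.constVAdd ℂ V (γ 0 - δ 0) = γ * δ⁻¹ := by
    rw [eq_mul_inv_iff_mul_eq]
    ext v
    have h2 : (AffineEquiv.constVAdd ℂ V (γ 0 - δ 0) * δ) v = (γ 0 - δ 0) + δ v := rfl
    rw [h2, aff_apply γ v, aff_apply δ v, h]
    abel
  rw [h1]
  exact Γ.mul_mem hγ (Γ.inv_mem hδ)

lemma tr_add {Γ : Subgroup (V ≃ᵃ[ℂ] V)} {x y : V} (hx : AffineEquiv.constVAdd ℂ V x ∈ Γ)
    (hy : AffineEquiv.constVAdd ℂ V y ∈ Γ) : AffineEquiv.constVAdd ℂ V (x + y) ∈ Γ := by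
  have h1 : AffineEquiv.constVAdd ℂ V (x + y) =
      AffineEquiv.constVAdd ℂ V x * AffineEquiv.constVAdd ℂ V y := by
    ext v
    change (x + y) + v = x + (y + v)
    rw [add_assoc]
  rw [h1]
  exact Γ.mul_mem hx hy

lemma tr_zero {Γ : Subgroup (V ≃ᵃ[ℂ] V)} : AffineEquiv.constVAdd ℂ V 0 ∈ Γ := by
  have h1 : AffineEquiv.constVAdd ℂ V (0 : V) = 1 := by
    ext v
    change (0 : V) + v = v
    rw [zero_add]
  rw [h1]
  exact Γ.one_mem

lemma tr_linear {Γ : Subgroup (V ≃ᵃ[ℂ] V)} {x : V} (hx : AffineEquiv.constVAdd ℂ V x ∈ Γ)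
    {γ : V ≃ᵃ[ℂ] V} (hγ : γ ∈ Γ) : AffineEquiv.constVAdd ℂ V (γ.linear x) ∈ Γ := by
  have h1 : AffineEquiv.constVAdd ℂ V (γ.linear x) =
      γ * AffineEquiv.constVAdd ℂ V x * γ⁻¹ := by
    rw [eq_mul_inv_iff_mul_eq]
    ext v
    change γ.linear x + γ v = γ (x + v)
    rw [aff_add]
  rw [h1]
  exact Γ.mul_mem (Γ.mul_mem hγ hx) (Γ.inv_mem hγ)

/-- The group of linear parts. -/
def LP (Γ : Subgroup (V ≃ᵃ[ℂ] V)) : Subgroup (V ≃ₗ[ℂ] V) :=
  Γ.map (AffineEquiv.linearHom : (V ≃ᵃ[ℂ] V) →* (V ≃ₗ[ℂ] V))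

lemma finite_LP {Γ : Subgroup (V ≃ᵃ[ℂ] V)} (hΓ : IsCrystallographic Γ) : Finite (LP Γ) := by
  have h1 : ((LP Γ : Subgroup (V ≃ₗ[ℂ] V)) : Set (V ≃ₗ[ℂ] V)) =
      {A : V ≃ₗ[ℂ] V | ∃ γ ∈ Γ, γ.linear = A} := by
    ext A
    simp [LP]
  have h2 := hΓ.finite
  rw [← h1] at h2
  exact h2.to_subtype

/-- A point `o` such that all `g (γ o - o)` are in the lattice. -/
lemma exists_origin {Γ : Subgroup (V ≃ᵃ[ℂ] V)} (hΓ : IsCrystallographic Γ) :
    ∃ o : V, ∀ γ ∈ Γ, AffineEquiv.constVAdd ℂ V ((Nat.card (LP Γ) : ℂ) • bt o γ) ∈ Γ := by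
  classical
  have := finite_LP hΓ
  have := Fintype.ofFinite (LP Γ)
  have hmem : ∀ A : LP Γ, ∃ γ ∈ Γ, γ.linear = (A : V ≃ₗ[ℂ] V) := by
    rintro ⟨A, γ, hγ, rfl⟩
    exact ⟨γ, hγ, rfl⟩
  choose s hs1 hs2 using hmem
  have hg : (Nat.card (LP Γ) : ℂ) ≠ 0 := by
    have : 0 < Nat.card (LP Γ) := Nat.card_pos
    exact_mod_cast this.ne'
  refine ⟨(Nat.card (LP Γ) : ℂ)⁻¹ • ∑ A : LP Γ, s A 0, fun γ hγ => ?_⟩
  set o' : V := ∑ A : LP Γ, s A 0 with ho'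
  let B : LP Γ := ⟨γ.linear, γ, hγ, rfl⟩
  -- the sum over the translated representatives
  have h1 : γ.linear o' + (Nat.card (LP Γ) : ℂ) • γ 0 = ∑ A : LP Γ, (γ * s A) 0 := by
    have h2 : ∀ A : LP Γ, (γ * s A) 0 = γ.linear (s A 0) + γ 0 := fun A => aff_apply γ (s A 0)
    simp_rw [h2]
    rw [Finset.sum_add_distrib, Finset.sum_const, Finset.card_univ, ← map_sum,
      Nat.card_eq_fintype_card, ← Nat.cast_smul_eq_nsmul ℂ]
  have h3 : ∑ A : LP Γ, s (B * A) 0 = o' :=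
    Equiv.sum_comp (Equiv.mulLeft B) (fun A : LP Γ => s A 0)
  have h4 : (Nat.card (LP Γ) : ℂ) • bt ((Nat.card (LP Γ) : ℂ)⁻¹ • o') γ =
      ∑ A : LP Γ, ((γ * s A) 0 - s (B * A) 0) := by
    rw [Finset.sum_sub_distrib, h3, ← h1, bt, aff_apply γ, smul_sub, smul_add, map_smul,
      smul_smul, smul_smul, mul_inv_cancel₀ hg, one_smul, one_smul]
  rw [h4]
  have h5 : ∀ A : LP Γ, AffineEquiv.constVAdd ℂ V ((γ * s A) 0 - s (B * A) 0) ∈ Γ := by
    intro A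
    apply mem_tr_of_linear_one (Γ.mul_mem hγ (hs1 A)) (hs1 _)
    rw [hs2]
    have h6 : (γ * s A).linear = γ.linear * (s A).linear := rfl
    rw [h6, hs2 A]
    rfl
  have h7 : ∀ t : Finset (LP Γ),
      AffineEquiv.constVAdd ℂ V (∑ A ∈ t, ((γ * s A) 0 - s (B * A) 0)) ∈ Γ := by
    intro t
    induction t using Finset.induction_on with
    | empty => rw [Finset.sum_empty]; exact tr_zero
    | insert A t hA ih => rw [Finset.sum_insert hA]; exact tr_add (h5 A) ih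
  exact h7 Finset.univ

section factor

variable (H : V →ₗ⋆[ℂ] V →ₗ[ℂ] ℂ) (o : V)

/-- exponent -/
noncomputable def ex (γ : V ≃ᵃ[ℂ] V) (v : V) : ℂ :=
  H (bt o γ) (γ.linear (v - o)) + H (bt o γ) (bt o γ) / 2

/-- the factor of automorphy with Chern form `M H` -/
noncomputable def fc (M : ℕ) (γ : V ≃ᵃ[ℂ] V) (v : V) : ℂ :=
  Complex.exp (Real.pi * M * ex H o γ v)

variable {H}

lemma ex_mul (hh : ∀ x y, H x y = (starRingEnd ℂ) (H y x)) {γ : V ≃ᵃ[ℂ] V}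
    (hinv : ∀ x y, H (γ.linear x) (γ.linear y) = H x y)
    (δ : V ≃ᵃ[ℂ] V) (v : V) :
    ex H o (γ * δ) v = ex H o γ (δ v) + ex H o δ v -
      Complex.I * (H (bt o γ) (γ.linear (bt o δ))).im := by
  have h0 : (γ * δ).linear (v - o) = γ.linear (δ.linear (v - o)) := rfl
  have h1 : (H (γ.linear (bt o δ)) (bt o γ) - H (bt o γ) (γ.linear (bt o δ))) =
      -(2 * Complex.I * (H (bt o γ) (γ.linear (bt o δ))).im) := by
    rw [hh (γ.linear (bt o δ)) (bt o γ)]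
    have := Complex.sub_conj (H (bt o γ) (γ.linear (bt o δ)))
    rw [← neg_sub, this]
    push_cast
    ring
  unfold ex
  rw [h0, bt_mul, apply_sub o δ v]
  simp only [map_add, LinearMap.add_apply, hinv]
  linear_combination (1 / 2 : ℂ) * h1

lemma fc_one (M : ℕ) (v : V) : fc H o M 1 v = 1 := by
  unfold fc ex
  rw [bt_one]
  simp

lemma fc_ne_zero (M : ℕ) (γ : V ≃ᵃ[ℂ] V) (v : V) : fc H o M γ v ≠ 0 := Complex.exp_ne_zero _

lemma fc_holo [FiniteDimensional ℂ V] (M : ℕ) (γ : V ≃ᵃ[ℂ] V) :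
    Differentiable ℂ (fc H o M γ) := by
  unfold fc ex
  apply Differentiable.cexp
  apply Differentiable.const_mul
  apply Differentiable.add_const
  have h2 : Differentiable ℂ (fun v => (LinearMap.toContinuousLinearMap
    ((H (bt o γ)).comp (γ.linear : V →ₗ[ℂ] V))) v) := (LinearMap.toContinuousLinearMap
    ((H (bt o γ)).comp (γ.linear : V →ₗ[ℂ] V))).differentiable
  exact h2.comp (differentiable_id.sub_const o)

lemma fc_mul {M : ℕ} (hh : ∀ x y, H x y = (starRingEnd ℂ) (H y x)) {γ : V ≃ᵃ[ℂ] V}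
    (hinv : ∀ x y, H (γ.linear x) (γ.linear y) = H x y) {δ : V ≃ᵃ[ℂ] V}
    (hM : ∃ n : ℤ, (M : ℝ) * (H (bt o γ) (γ.linear (bt o δ))).im = 2 * n) (v : V) :
    fc H o M (γ * δ) v = fc H o M γ (δ v) * fc H o M δ v := by
  obtain ⟨n, hn⟩ := hM
  unfold fc
  rw [← Complex.exp_add, Complex.exp_eq_exp_iff_exists_int]
  refine ⟨-n, ?_⟩
  rw [ex_mul o hh hinv]
  have hn' : (M : ℂ) * ((H (bt o γ) (γ.linear (bt o δ))).im : ℂ) = 2 * n := by exact_mod_cast hn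
  push_cast
  linear_combination (-(Real.pi : ℂ) * Complex.I) * hn'

lemma norm_fc (M : ℕ) (γ : V ≃ᵃ[ℂ] V) (v : V) :
    ‖fc H o M γ v‖ = Real.exp (Real.pi * M * (ex H o γ v).re) := by
  unfold fc
  rw [Complex.norm_exp]
  congr 1
  have h1 : (Real.pi * M * ex H o γ v : ℂ) = ((Real.pi * M : ℝ) : ℂ) * ex H o γ v := by
    push_cast; ring
  rw [h1, Complex.re_ofReal_mul]

lemma norm_ex (m : ℕ) (z : ℂ) :
    ‖Complex.exp (Real.pi * m * z)‖ = Real.exp (Real.pi * m * z.re) := by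
  rw [Complex.norm_exp]
  congr 1
  have h1 : (Real.pi * m * z : ℂ) = ((Real.pi * m : ℝ) : ℂ) * z := by
    push_cast; ring
  rw [h1, Complex.re_ofReal_mul]

lemma re_key (hh : ∀ x y, H x y = (starRingEnd ℂ) (H y x)) {γ : V ≃ᵃ[ℂ] V}
    (hinv : ∀ x y, H (γ.linear x) (γ.linear y) = H x y) (v : V) :
    2 * (ex H o γ v).re + 2 * (H o (γ v)).re - (H (γ v) (γ v)).re =
      2 * (H o v).re - (H v v).re := by
  have hs : ∀ x y, (H x y).re = (H y x).re := fun x y => by rw [hh, Complex.conj_re]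
  have e1 : γ v = γ.linear (v - o) + bt o γ + o := by
    rw [← apply_sub, sub_add_cancel]
  have e2 : (ex H o γ v).re = (H (bt o γ) (γ.linear (v - o))).re + (H (bt o γ) (bt o γ)).re / 2 := by
    unfold ex
    rw [Complex.add_re]
    congr 1
    have h2 : (H (bt o γ) (bt o γ) / 2 : ℂ) = ((1 / 2 : ℝ) : ℂ) * H (bt o γ) (bt o γ) := by
      push_cast; ring
    rw [h2, Complex.re_ofReal_mul]
    ring
  have e3 : ∀ x : V, (H (x + o) (x + o)).re = (H x x).re + 2 * (H o x).re + (H o o).re := by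
    intro x
    simp only [map_add, LinearMap.add_apply, Complex.add_re]
    rw [hs x o]
    ring
  have e4 : (H v v).re = (H (v - o) (v - o)).re + 2 * (H o (v - o)).re + (H o o).re := by
    have := e3 (v - o)
    rwa [sub_add_cancel] at this
  have e5 : (H o v).re = (H o (v - o)).re + (H o o).re := by
    have : H o v = H o ((v - o) + o) := by rw [sub_add_cancel]
    rw [this, map_add, Complex.add_re]
  rw [e2, e1, e3, e4, e5]
  simp only [map_add, LinearMap.add_apply, Complex.add_re, hinv]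
  rw [hs (γ.linear (v - o)) (bt o γ)]
  ring

end factor

end Pool.Agent.MP_e4ecdb_ag.TQ.QN

namespace Pool.Agent.MP_e4ecdb_ag.TQ
open QN

variable {V : Type} [NormedAddCommGroup V] [NormedSpace ℂ V] [FiniteDimensional ℂ V]
  {Γ : Subgroup (V ≃ᵃ[ℂ] V)}

omit [FiniteDimensional ℂ V] in
lemma numLin_eq_card_LP (Γ : Subgroup (V ≃ᵃ[ℂ] V)) : numLin Γ = Nat.card (LP Γ) := by
  have h1 : ((LP Γ : Subgroup (V ≃ₗ[ℂ] V)) : Set (V ≃ₗ[ℂ] V)) =
      {A : V ≃ₗ[ℂ] V | ∃ γ ∈ Γ, γ.linear = A} := by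
    ext A
    simp [LP]
  unfold numLin
  rw [← h1]
  exact (Nat.card_coe_set_eq _).symm

omit [FiniteDimensional ℂ V] in
lemma numLin_pos (hΓ : IsCrystallographic Γ) : 1 ≤ numLin Γ := by
  have := finite_LP hΓ
  rw [numLin_eq_card_LP]
  exact Nat.card_pos

/-- P6, explicit: for every integral class `H` the class `2 g ^ 3 H` is the Chern class of a line
bundle. The last clause says that `e` is a line bundle on `X = V / Γ` itself. -/
theorem exists_bundle (hΓ : IsCrystallographic Γ) {H : V →ₗ⋆[ℂ] V →ₗ[ℂ] ℂ} (hH : H ∈ H11 Γ)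
    (hint : ∀ x y, AffineEquiv.constVAdd ℂ V x ∈ Γ → AffineEquiv.constVAdd ℂ V y ∈ Γ →
        ∃ n : ℤ, (H x y).im = n) :
    ∃ e : (V ≃ᵃ[ℂ] V) → V → ℂ, IsFactor Γ e ∧
      IsChern Γ e (((2 * numLin Γ ^ 3 : ℕ) : ℝ) • H) ∧ ∀ γ ∈ Γ, ∀ v, γ v = v → e γ v = 1 := by
  classical
  rw [show 2 * numLin Γ ^ 3 = 2 * Nat.card (LP Γ) ^ 2 * Nat.card (LP Γ) by
    rw [numLin_eq_card_LP]; ring]
  obtain ⟨hh, hinv⟩ := hH
  have hfin := finite_LP hΓ
  obtain ⟨o, ho⟩ := exists_origin hΓ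
  set g : ℕ := Nat.card (LP Γ) with hg
  have hg1 : 1 ≤ g := Nat.card_pos
  have hgR : (g : ℝ) ≠ 0 := by
    have : 0 < g := hg1
    exact_mod_cast this.ne'
  -- the cocycle condition
  have hM : ∀ γ ∈ Γ, ∀ δ ∈ Γ, ∃ n : ℤ,
      ((2 * g ^ 2 : ℕ) : ℝ) * (H (bt o γ) (γ.linear (bt o δ))).im = 2 * n := by
    intro γ hγ δ hδ
    obtain ⟨n, hn⟩ := hint _ _ (ho γ hγ) (QN.tr_linear (ho δ hδ) hγ)
    refine ⟨n, ?_⟩
    rw [← hn]
    simp only [map_smul, map_smulₛₗ, LinearMap.smul_apply, smul_eq_mul, map_natCast]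
    have h1 : ((g : ℂ) * ((g : ℂ) * H (bt o γ) (γ.linear (bt o δ)))).im =
        (g : ℝ) * ((g : ℝ) * (H (bt o γ) (γ.linear (bt o δ))).im) := by
      have h2 : (g : ℂ) = ((g : ℝ) : ℂ) := by push_cast; rfl
      rw [h2, Complex.im_ofReal_mul, Complex.im_ofReal_mul]
    rw [h1]
    push_cast
    ring
  have hmul : ∀ γ ∈ Γ, ∀ δ ∈ Γ, ∀ v, fc H o (2 * g ^ 2) (γ * δ) v =
      fc H o (2 * g ^ 2) γ (δ v) * fc H o (2 * g ^ 2) δ v := fun γ hγ δ hδ v =>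
    fc_mul o hh (hinv γ hγ) (hM γ hγ δ hδ) v
  refine ⟨fun γ v => fc H o (2 * g ^ 2) γ v ^ g, ⟨?_, ?_, ?_⟩, ⟨?_, ?_, ?_⟩, ?_⟩
  · exact fun γ _ => (fc_holo o _ γ).pow g
  · exact fun γ _ v => pow_ne_zero _ (fc_ne_zero o _ γ v)
  · intro γ hγ δ hδ v
    rw [hmul γ hγ δ hδ, mul_pow]
  · intro x y
    simp only [LinearMap.smul_apply, Complex.real_smul, map_mul, Complex.conj_ofReal]
    rw [← hh x y]
  · intro γ hγ x y
    simp only [LinearMap.smul_apply, hinv γ hγ]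
  · refine ⟨fun v => Complex.exp (Real.pi * (2 * g ^ 2 * g : ℕ) * H o v), ?_, ?_, ?_⟩
    · apply Differentiable.cexp
      apply Differentiable.const_mul
      exact (LinearMap.toContinuousLinearMap (H o)).differentiable
    · exact fun v => Complex.exp_ne_zero _
    · intro γ hγ v
      have h1 := re_key o hh (hinv γ hγ) v
      rw [norm_pow, norm_fc, norm_ex, norm_ex]
      simp only [LinearMap.smul_apply, Complex.real_smul, Complex.re_ofReal_mul]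
      rw [← Real.exp_nat_mul, ← Real.exp_nat_mul, ← Real.exp_nat_mul, ← Real.exp_nat_mul,
        ← Real.exp_add, ← Real.exp_add, ← Real.exp_add]
      congr 1
      push_cast
      linear_combination (Real.pi * (2 * (g : ℝ) ^ 2 * g)) * h1
  · intro γ hγ v hv
    have h1 : ∀ n : ℕ, (γ ^ n) v = v ∧ fc H o (2 * g ^ 2) (γ ^ n) v =
        fc H o (2 * g ^ 2) γ v ^ n := by
      intro n
      induction n with
      | zero => exact ⟨rfl, by rw [pow_zero, pow_zero, fc_one]⟩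
      | succ n ih =>
        have h2 : (γ ^ (n + 1)) v = (γ ^ n) (γ v) := by rw [pow_succ]; rfl
        refine ⟨by rw [h2, hv, ih.1], ?_⟩
        rw [pow_succ γ n, hmul _ (Γ.pow_mem hγ n) _ hγ, hv, ih.2, ← pow_succ]
    have h3 : γ ^ g = 1 := by
      let B : LP Γ := ⟨γ.linear, γ, hγ, rfl⟩
      have h4 : B ^ g = 1 := pow_card_eq_one'
      have h5 : (γ ^ g).linear = (1 : V ≃ₗ[ℂ] V) := by
        have h6 : (γ ^ g).linear = (AffineEquiv.linearHom (γ ^ g) : V ≃ₗ[ℂ] V) := rfl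
        rw [h6, map_pow]
        exact congrArg Subtype.val h4
      ext w
      have h7 : (γ ^ g) w = (γ ^ g) ((w - v) + v) := by rw [sub_add_cancel]
      rw [h7, QN.aff_add, h5, (h1 g).1]
      change (w - v) + v = w
      rw [sub_add_cancel]
    simp only
    rw [← (h1 g).2, h3, fc_one]

end Pool.Agent.MP_e4ecdb_ag.TQ
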