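import Pool.Agent.MP_e4ecdb_ag.QMain
import Pool.Agent.MP_e4ecdb_ag.BBf
import Pool.Agent.MP_e4ecdb_ag.QNorm
open Module

/-! Meromorphic functions on primitive symplectic torus quotients: the algebraic reduction. -/

namespace Pool.Agent.MP_e4ecdb_ag.TQ

open Theta

variable {V : Type} [NormedAddCommGroup V] [NormedSpace ℂ V] [FiniteDimensional ℂ V]
  {Γ : Subgroup (V ≃ᵃ[ℂ] V)} {σ : LinearMap.BilinForm ℂ V}

/-- Every meromorphic function `s / t` on `X = V / Γ`, where `s`, `t` are sections of a line bundle,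
is constant along the translates of `K`: it comes from a meromorphic function on `(V / K) / Γ`. -/
def ConstAlong (Γ : Subgroup (V ≃ᵃ[ℂ] V)) (K : Submodule ℂ V) : Prop :=
  ∀ e H, IsFactor Γ e → IsChern Γ e H → ∀ s ∈ sections Γ e 1, ∀ t ∈ sections Γ e 1,
    ∀ v w, w - v ∈ K → s v * t w = s w * t v

/-- entire functions of one variable with the same `N`-th power and the same nonzero value at `0` -/
lemma eq_of_pow {N : ℕ} (hN : 1 ≤ N) {f g : ℂ → ℂ} (hf : Differentiable ℂ f)
    (hg : Differentiable ℂ g) (hfg : ∀ z, f z ^ N = g z ^ N) (h0 : f 0 = g 0) (hne : f 0 ≠ 0)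
    (z : ℂ) : f z = g z := by
  by_contra hcon
  have hd : Differentiable ℂ (fun z => f z - g z) := hf.sub hg
  have hS : Continuous (fun z => ∑ i ∈ Finset.range N, f z ^ i * g z ^ (N - 1 - i)) := by
    refine continuous_finsetSum _ fun i _ => ?_
    exact (hf.continuous.pow _).mul (hg.continuous.pow _)
  have h1 := eq_of_mul_eq hd ⟨z, sub_ne_zero.2 hcon⟩ hS (continuous_const (y := (0 : ℂ)))
    (fun a => by
      rw [mul_zero, mul_comm, Commute.geom_sum₂_mul (Commute.all _ _), hfg, sub_self]) 0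
  rw [← h0] at h1
  have h2 : ∀ i ∈ Finset.range N, f 0 ^ i * f 0 ^ (N - 1 - i) = f 0 ^ (N - 1) := by
    intro i hi
    rw [Finset.mem_range] at hi
    rw [← pow_add]
    congr 1
    omega
  rw [Finset.sum_congr rfl h2, Finset.sum_const, Finset.card_range, nsmul_eq_mul] at h1
  have h3 : (N : ℂ) ≠ 0 := by exact_mod_cast (by omega : N ≠ 0)
  exact (mul_ne_zero h3 (pow_ne_zero _ hne)) h1

omit [FiniteDimensional ℂ V] in
/-- if the `N`-th power of the bundle induces the fibration by `K`, the quotients of sections of the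
bundle itself are constant along `K` -/
lemma const_of_induces {e : (V ≃ᵃ[ℂ] V) → V → ℂ} {K : Submodule ℂ V} {N : ℕ} (hN : 1 ≤ N)
    (hI : Induces Γ e K N) {s t : V → ℂ} (hs : s ∈ sections Γ e 1) (ht : t ∈ sections Γ e 1)
    (v w : V) (hvw : w - v ∈ K) : s v * t w = s w * t v := by
  have hpow : ∀ {u : V → ℂ}, u ∈ sections Γ e 1 → (fun v => u v ^ N) ∈ sections Γ e N := by
    intro u hu
    refine ⟨hu.1.pow N, fun γ hγ v => ?_⟩
    simp only
    rw [hu.2 γ hγ v, pow_one, mul_pow]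
  have hN2 : ∀ v w, w - v ∈ K → (s v * t w) ^ N = (s w * t v) ^ N := by
    intro v w hvw
    have h1 := ((hI.2 v w).2 ⟨1, Γ.one_mem, hvw⟩) _ (hpow hs) _ (hpow ht)
    rw [mul_pow, mul_pow]
    exact h1
  by_cases hs0 : ∃ x, s x ≠ 0
  swap
  · push Not at hs0
    rw [hs0, hs0, zero_mul, zero_mul]
  by_cases ht0 : ∃ x, t x ≠ 0
  swap
  · push Not at ht0
    rw [ht0, ht0, mul_zero, mul_zero]
  have hdense : Dense {x | s x ≠ 0 ∧ t x ≠ 0} :=
    (dense_ne_zero hs.1 hs0).inter_of_isOpen_left (dense_ne_zero ht.1 ht0)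
      (isOpen_ne_fun hs.1.continuous continuous_const)
  set x := w - v with hx
  have hw : w = v + x := by rw [hx]; abel
  rw [hw]
  have hc1 : Continuous (fun v => s v * t (v + x)) :=
    hs.1.continuous.mul (ht.1.continuous.comp (continuous_id.add continuous_const))
  have hc2 : Continuous (fun v => s (v + x) * t v) :=
    (hs.1.continuous.comp (continuous_id.add continuous_const)).mul ht.1.continuous
  have heq : (fun v => s v * t (v + x)) = (fun v => s (v + x) * t v) := by
    refine Continuous.ext_on hdense hc1 hc2 ?_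
    rintro a ⟨ha1, ha2⟩
    have hline : Differentiable ℂ (fun z : ℂ => a + z • x) :=
      (differentiable_id.smul_const x).const_add a
    have hf : Differentiable ℂ (fun z : ℂ => s a * t (a + z • x)) :=
      (ht.1.comp hline).const_mul (s a)
    have hg : Differentiable ℂ (fun z : ℂ => s (a + z • x) * t a) :=
      (hs.1.comp hline).mul_const (t a)
    have := eq_of_pow hN hf hg (fun z => hN2 a (a + z • x) (by
      rw [add_sub_cancel_left]
      exact K.smul_mem z hvw)) (by simp) (by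
      simp only [zero_smul, add_zero]
      exact mul_ne_zero ha1 ha2) 1
    simpa using this
  exact congrFun heq v

/-- the Chern form of a bundle is integral on the lattice -/
lemma chern_int {e : (V ≃ᵃ[ℂ] V) → V → ℂ} (he : IsFactor Γ e) {H : V →ₗ⋆[ℂ] V →ₗ[ℂ] ℂ}
    (hH : IsChern Γ e H) (x y : V) (hx : AffineEquiv.constVAdd ℂ V x ∈ Γ)
    (hy : AffineEquiv.constVAdd ℂ V y ∈ Γ) : ∃ n : ℤ, (H x y).im = n := by
  obtain ⟨u, c, hu, hu0, hN⟩ := exists_normal he hH
  exact im_int hN hx hy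

/-- P8 (helper30): the algebraic reduction -/
theorem mero [Nontrivial V] (hΓ : IsCrystallographic Γ) (hσ : IsPrimSympl Γ σ) :
    (∃ e H, IsFactor Γ e ∧ IsChern Γ e H ∧ IsPos H ∧ ∀ N ∈ Exps Γ, Induces Γ e ⊥ N) ∨
    (∃ K, RatStable Γ = {K} ∧ ConstAlong Γ K) ∨
    (RatStable Γ = ∅ ∧ ConstAlong Γ ⊤) := by
  classical
  have hV : Nontrivial V := inferInstance
  obtain ⟨⟨q, hq⟩, htri⟩ := trichotomy hΓ hσ hV
  obtain ⟨hsig, hpos, hnef, -, hline⟩ := htri q hq
  by_cases hA : ∃ e H, IsFactor Γ e ∧ IsChern Γ e H ∧ IsPos H ∧ ∀ N ∈ Exps Γ, Induces Γ e ⊥ N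
  · exact Or.inl hA
  right
  have hg : 1 ≤ numLin Γ := by
    rw [numLin_eq]
    have := finite_LG hΓ
    exact Nat.card_pos
  have hExps : 3 * numLin Γ ^ 2 ∈ Exps Γ := by
    have h1 : 0 < numLin Γ ^ 2 := pow_pos hg 2
    exact ⟨by omega, dvd_refl _⟩
  -- no integral class is positive
  have hnopos : ∀ H ∈ H11 Γ, (∀ x y, AffineEquiv.constVAdd ℂ V x ∈ Γ →
      AffineEquiv.constVAdd ℂ V y ∈ Γ → ∃ n : ℤ, (H x y).im = n) → ¬ IsPos H := by
    intro H hH hint hHp
    apply hA
    obtain ⟨e, he, hc, -⟩ := exists_bundle hΓ hH hint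
    have hp : IsPos (((2 * numLin Γ ^ 3 : ℕ) : ℝ) • H) := by
      intro x hx
      rw [LinearMap.smul_apply, LinearMap.smul_apply, Complex.real_smul, Complex.re_ofReal_mul]
      have : (0 : ℝ) < ((2 * numLin Γ ^ 3 : ℕ) : ℝ) := by
        have : 0 < 2 * numLin Γ ^ 3 := by positivity
        exact_mod_cast this
      exact mul_pos this (hHp x hx)
    refine ⟨e, _, he, hc, hp, fun N hN => ?_⟩
    exact line_pos hΓ hσ.no_inv he hc hp hN.1 (by rw [← numLin_eq]; exact hN.2)
  -- sections only for bundles with `q = 0` and nef class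
  have hsec : ∀ e H, IsFactor Γ e → IsChern Γ e H → (∃ s ∈ sections Γ e 1, s ≠ 0) →
      IsNef H ∧ (H ≠ 0 → kerForm H ∈ RatStable Γ ∧ Induces Γ e (kerForm H) (3 * numLin Γ ^ 2)) ∧
        (H = 0 → Induces Γ e ⊤ (3 * numLin Γ ^ 2)) := by
    intro e H he hH ⟨s, hs, hs0⟩
    have hH11 : H ∈ H11 Γ := ⟨hH.herm, hH.inv⟩
    have h1 : IsNef H := by
      by_contra hcon
      unfold IsNef at hcon
      push Not at hcon
      exact hs0 (sections_zero hΓ he hH hcon le_rfl hs)
    have h2 : ¬ IsPos H := hnopos H hH11 (chern_int he hH)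
    refine ⟨h1, fun hne => ?_, fun h0 => ?_⟩
    · have hq0 : 0 ≤ q ⟨H, hH11⟩ := (hnef ⟨H, hH11⟩).2 (Or.inl h1)
      have hq1 : ¬ 0 < q ⟨H, hH11⟩ := by
        intro hq1
        rcases (hpos ⟨H, hH11⟩).1 hq1 with h3 | h3
        · exact h2 h3
        · obtain ⟨x, hx⟩ := exists_ne (0 : V)
          have h4 := h3 x hx
          have h5 := h1 x
          simp only [LinearMap.neg_apply, Complex.neg_re] at h4
          linarith
      have hq2 : q ⟨H, hH11⟩ = 0 := le_antisymm (not_lt.1 hq1) hq0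
      obtain ⟨K, hK, hK2, -⟩ := (hline e he ⟨H, hH11⟩ hH).2.1 hq2
        (fun h => hne (congrArg Subtype.val h))
      obtain ⟨x, hxK, hx0⟩ := (Submodule.ne_bot_iff K).1 hK.1
      obtain ⟨h6, h7⟩ := line_nef hΓ hσ.no_inv he hH h1 hne ⟨x, hx0, (hK2 x).1 hxK⟩
      exact ⟨h6, h7 _ hExps.1 (by rw [← numLin_eq])⟩
    · exact (hline e he ⟨H, hH11⟩ hH).2.2.2 (Subtype.ext h0) _ hExps
  -- at most one stable rational subspace
  have huniq : ∀ K ∈ RatStable Γ, ∀ K' ∈ RatStable Γ, K = K' := by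
    intro K hK K' hK'
    by_contra hne
    obtain ⟨H, hH, hHn, hHr, hHi⟩ := exists_form hΓ hσ hK
    obtain ⟨H', hH', hHn', hHr', hHi'⟩ := exists_form hΓ hσ hK'
    apply hnopos (H + H') ((H11 Γ).add_mem hH hH') (fun x y hx hy => by
      obtain ⟨n, hn⟩ := hHi x y hx hy
      obtain ⟨m, hm⟩ := hHi' x y hx hy
      refine ⟨n + m, ?_⟩
      rw [LinearMap.add_apply, LinearMap.add_apply, Complex.add_im, hn, hm]
      push_cast
      rfl)
    intro x hx
    rw [LinearMap.add_apply, LinearMap.add_apply, Complex.add_re]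
    have e1 := hHn x
    have e2 := hHn' x
    by_contra hcon
    have z1 : (H x x).re = 0 := by linarith
    have z2 : (H' x x).re = 0 := by linarith
    have hxK : x ∈ K := (hHr x).2 fun y => herm_zero_of_re_zero H hH.1 hHn x z1 y
    have hxK' : x ∈ K' := (hHr' x).2 fun y => herm_zero_of_re_zero H' hH'.1 hHn' x z2 y
    have hfin := finite_LG hΓ
    have hc := BB.stable_compl (prim_rep hσ) (stable_iff.1 hK.2.2.1) hK.1 hK.2.1
      (stable_iff.1 hK'.2.2.1) hK'.1 hK'.2.1 hne
    have := Submodule.disjoint_def.1 hc.disjoint x hxK hxK'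
    exact hx this
  by_cases hR : RatStable Γ = ∅
  · right
    refine ⟨hR, fun e H he hH s hs t ht v w hvw => ?_⟩
    by_cases hs0 : s = 0
    · rw [hs0]; simp
    obtain ⟨h1, h2, h3⟩ := hsec e H he hH ⟨s, hs, hs0⟩
    by_cases hH0 : H = 0
    · exact const_of_induces hExps.1 (h3 hH0) hs ht v w hvw
    · have := (h2 hH0).1
      rw [hR] at this
      exact absurd this (Set.notMem_empty _)
  · left
    obtain ⟨K, hK⟩ := Set.nonempty_iff_ne_empty.2 hR
    refine ⟨K, ?_, fun e H he hH s hs t ht v w hvw => ?_⟩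
    · ext K'
      constructor
      · intro hK'
        exact huniq K' hK' K hK
      · intro h
        rw [Set.mem_singleton_iff] at h
        rw [h]
        exact hK
    · by_cases hs0 : s = 0
      · rw [hs0]; simp
      obtain ⟨h1, h2, h3⟩ := hsec e H he hH ⟨s, hs, hs0⟩
      by_cases hH0 : H = 0
      · exact const_of_induces hExps.1 (h3 hH0) hs ht v w trivial
      · obtain ⟨h4, h5⟩ := h2 hH0
        rw [huniq K hK _ h4] at hvw
        exact const_of_induces hExps.1 h5 hs ht v w hvw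

end Pool.Agent.MP_e4ecdb_ag.TQ
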