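import Pool.Agent.MP_e4ecdb_ag.QPub
import Pool.Agent.MP_e4ecdb_ag.QMero
open Module

/-! The statements of `QPub` from the theorems about the definitions of `TDefs` and `QDefs`. -/

namespace Pool.Agent.MP_e4ecdb_ag.SYZ

variable {V : Type} [NormedAddCommGroup V] [NormedSpace ℂ V]

/-- the affine automorphisms in `Γ` -/
def old (Γ : Subgroup (Equiv.Perm V)) : Subgroup (V ≃ᵃ[ℂ] V) where
  carrier := {a | a.toEquiv ∈ Γ}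
  mul_mem' := by
    intro a b ha hb
    exact Γ.mul_mem ha hb
  one_mem' := Γ.one_mem
  inv_mem' := by
    intro a ha
    exact Γ.inv_mem ha

lemma mem_old {Γ : Subgroup (Equiv.Perm V)} {a : V ≃ᵃ[ℂ] V} : a ∈ old Γ ↔ a.toEquiv ∈ Γ := Iff.rfl

lemma lin_eq (a : V ≃ᵃ[ℂ] V) (x : V) : lin a.toEquiv x = a.linear x := by
  have h1 : a x = a.linear x + a 0 := TQ.aff_apply a x
  change a x - a 0 = a.linear x
  rw [h1, add_sub_cancel_right]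

lemma exists_aff {Γ : Subgroup (Equiv.Perm V)} (h : IsCryst Γ) {γ : Equiv.Perm V}
    (hγ : γ ∈ Γ) : ∃ a ∈ old Γ, a.toEquiv = γ := by
  obtain ⟨A, hA⟩ := h.affine γ hγ
  let a : V ≃ᵃ[ℂ] V :=
    { toEquiv := γ
      linear := A
      map_vadd' := by
        intro p v
        change γ (v + p) = A v + γ p
        rw [hA (v + p), hA p, map_add, add_assoc] }
  exact ⟨a, hγ, rfl⟩

lemma toEquiv_inj {a b : V ≃ᵃ[ℂ] V} (h : a.toEquiv = b.toEquiv) : a = b := by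
  ext x
  exact congrArg (fun f : Equiv.Perm V => f x) h

lemma tr_eq (x : V) : (AffineEquiv.constVAdd ℂ V x).toEquiv = Equiv.addLeft x := by
  ext v
  rfl

lemma tr_mem {Γ : Subgroup (Equiv.Perm V)} {x : V} :
    AffineEquiv.constVAdd ℂ V x ∈ old Γ ↔ Equiv.addLeft x ∈ Γ := by
  rw [mem_old, tr_eq]

/-- linear parts -/
lemma ex_lin {Γ : Subgroup (Equiv.Perm V)} (h : IsCryst Γ) {P : (V → V) → Prop} :
    (∃ γ ∈ Γ, P (lin γ)) ↔ ∃ a ∈ old Γ, P a.linear := by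
  constructor
  · rintro ⟨γ, hγ, hP⟩
    obtain ⟨a, ha, rfl⟩ := exists_aff h hγ
    refine ⟨a, ha, ?_⟩
    rwa [show (lin a.toEquiv : V → V) = a.linear from funext (lin_eq a)] at hP
  · rintro ⟨a, ha, hP⟩
    refine ⟨a.toEquiv, ha, ?_⟩
    rwa [show (lin a.toEquiv : V → V) = a.linear from funext (lin_eq a)]

lemma image_lin {Γ : Subgroup (Equiv.Perm V)} (h : IsCryst Γ) :
    {f : V → V | ∃ γ ∈ Γ, lin γ = f} =
      (fun A : V ≃ₗ[ℂ] V => (A : V → V)) '' {A : V ≃ₗ[ℂ] V | ∃ a ∈ old Γ, a.linear = A} := by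
  ext f
  simp only [Set.mem_setOf_eq, Set.mem_image]
  constructor
  · intro hf
    obtain ⟨a, ha, h1⟩ := (ex_lin h (P := fun g => g = f)).1 hf
    exact ⟨a.linear, ⟨a, ha, rfl⟩, h1⟩
  · rintro ⟨A, ⟨a, ha, rfl⟩, h1⟩
    exact (ex_lin h (P := fun g => g = f)).2 ⟨a, ha, h1⟩

lemma coe_inj : Function.Injective (fun A : V ≃ₗ[ℂ] V => (A : V → V)) := DFunLike.coe_injective

lemma old_cryst {Γ : Subgroup (Equiv.Perm V)} (h : IsCryst Γ) :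
    MP_e4ecdb_ag.IsCrystallographic (old Γ) := by
  obtain ⟨ι, hι, b, hb⟩ := h.lattice
  refine ⟨⟨ι, hι, b, fun x => (hb x).trans tr_mem.symm⟩, ?_⟩
  have h1 := h.finite
  rw [image_lin h] at h1
  exact h1.of_finite_image coe_inj.injOn

lemma numLin_old {Γ : Subgroup (Equiv.Perm V)} (h : IsCryst Γ) :
    numLin Γ = MP_e4ecdb_ag.numLin (old Γ) := by
  unfold numLin MP_e4ecdb_ag.numLin
  rw [image_lin h, Set.ncard_image_of_injective _ coe_inj]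

/-- a statement about all `γ ∈ Γ` -/
lemma forall_old {Γ : Subgroup (Equiv.Perm V)} (h : IsCryst Γ)
    {P : Equiv.Perm V → Prop} : (∀ γ ∈ Γ, P γ) ↔ ∀ a ∈ old Γ, P a.toEquiv := by
  constructor
  · intro h1 a ha
    exact h1 _ ha
  · intro h1 γ hγ
    obtain ⟨a, ha, rfl⟩ := exists_aff h hγ
    exact h1 a ha

lemma exists_old {Γ : Subgroup (Equiv.Perm V)} (h : IsCryst Γ)
    {P : Equiv.Perm V → Prop} : (∃ γ ∈ Γ, P γ) ↔ ∃ a ∈ old Γ, P a.toEquiv := by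
  constructor
  · rintro ⟨γ, hγ, hP⟩
    obtain ⟨a, ha, rfl⟩ := exists_aff h hγ
    exact ⟨a, ha, hP⟩
  · rintro ⟨a, ha, hP⟩
    exact ⟨a.toEquiv, ha, hP⟩

lemma old_prim {Γ : Subgroup (Equiv.Perm V)} (h : IsCryst Γ)
    {σ : LinearMap.BilinForm ℂ V} (hσ : IsPrimSympl Γ σ) :
    MP_e4ecdb_ag.IsPrimSympl (old Γ) σ := by
  refine ⟨hσ.alt, hσ.nondeg, fun a ha x y => ?_, fun τ h1 h2 => ?_, fun x hx => ?_⟩
  · have := hσ.inv a.toEquiv ha x y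
    rwa [lin_eq, lin_eq] at this
  · apply hσ.prim τ h1
    rw [forall_old h]
    intro a ha x y
    rw [lin_eq, lin_eq]
    exact h2 a ha x y
  · apply hσ.no_inv x
    rw [forall_old h]
    intro a ha
    rw [lin_eq]
    exact hx a ha

/-- the factor of automorphy, restricted to affine automorphisms -/
def oe (e : Equiv.Perm V → V → ℂ) : (V ≃ᵃ[ℂ] V) → V → ℂ := fun a v => e a.toEquiv v

open Classical in
/-- the factor of automorphy, extended by `1` to the permutations which are not affine -/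
noncomputable def ne' (e : (V ≃ᵃ[ℂ] V) → V → ℂ) : Equiv.Perm V → V → ℂ := fun γ v =>
  if h : ∃ a : V ≃ᵃ[ℂ] V, a.toEquiv = γ then e h.choose v else 1

lemma ne'_eq (e : (V ≃ᵃ[ℂ] V) → V → ℂ) (a : V ≃ᵃ[ℂ] V) : ne' e a.toEquiv = e a := by
  have h : ∃ b : V ≃ᵃ[ℂ] V, b.toEquiv = a.toEquiv := ⟨a, rfl⟩
  funext v
  rw [ne', dif_pos h, toEquiv_inj h.choose_spec]

lemma old_factor {Γ : Subgroup (Equiv.Perm V)} {e : Equiv.Perm V → V → ℂ} (h : IsFactor Γ e) :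
    MP_e4ecdb_ag.IsFactor (old Γ) (oe e) :=
  ⟨fun a ha => h.holo _ ha, fun a ha => h.ne_zero _ ha, fun a ha b hb v => h.mul _ ha _ hb v⟩

lemma new_factor {Γ : Subgroup (Equiv.Perm V)} (hΓ : IsCryst Γ)
    {e : (V ≃ᵃ[ℂ] V) → V → ℂ} (h : MP_e4ecdb_ag.IsFactor (old Γ) e) : IsFactor Γ (ne' e) := by
  refine ⟨?_, ?_, ?_⟩
  · rw [forall_old hΓ]
    intro a ha
    rw [ne'_eq]
    exact h.holo a ha
  · rw [forall_old hΓ]
    intro a ha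
    rw [ne'_eq]
    exact h.ne_zero a ha
  · intro γ hγ δ hδ v
    obtain ⟨a, ha, rfl⟩ := exists_aff hΓ hγ
    obtain ⟨b, hb, rfl⟩ := exists_aff hΓ hδ
    have h1 : a.toEquiv * b.toEquiv = (a * b).toEquiv := rfl
    rw [h1, ne'_eq, ne'_eq, ne'_eq]
    exact h.mul a ha b hb v

lemma mem_H11 {Γ : Subgroup (Equiv.Perm V)} (hΓ : IsCryst Γ)
    {H : V →ₗ⋆[ℂ] V →ₗ[ℂ] ℂ} : H ∈ H11 Γ ↔ H ∈ MP_e4ecdb_ag.H11 (old Γ) := by
  refine and_congr Iff.rfl ?_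
  rw [forall_old hΓ]
  refine forall_congr' fun a => forall_congr' fun _ => ?_
  simp only [lin_eq]

lemma H11_eq {Γ : Subgroup (Equiv.Perm V)} (hΓ : IsCryst Γ) :
    (H11 Γ : Set (V →ₗ⋆[ℂ] V →ₗ[ℂ] ℂ)) = MP_e4ecdb_ag.H11 (old Γ) :=
  Set.ext fun _ => mem_H11 hΓ

lemma h11_eq {Γ : Subgroup (Equiv.Perm V)} (hΓ : IsCryst Γ) :
    h11 Γ = finrank ℝ (MP_e4ecdb_ag.H11 (old Γ)) := by
  unfold h11
  rw [H11_eq hΓ, Submodule.span_eq]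

lemma old_chern {Γ : Subgroup (Equiv.Perm V)} (hΓ : IsCryst Γ)
    {e : Equiv.Perm V → V → ℂ} {H : V →ₗ⋆[ℂ] V →ₗ[ℂ] ℂ}
    (h : IsChern Γ e H) : MP_e4ecdb_ag.IsChern (old Γ) (oe e) H := by
  obtain ⟨u, hu, hu0, h1⟩ := h.metric
  have h2 := (mem_H11 hΓ).1 h.mem
  exact ⟨h2.1, h2.2, ⟨u, hu, hu0, fun a ha v => h1 _ ha v⟩⟩

lemma new_chern {Γ : Subgroup (Equiv.Perm V)} (hΓ : IsCryst Γ)
    {e : (V ≃ᵃ[ℂ] V) → V → ℂ} {H : V →ₗ⋆[ℂ] V →ₗ[ℂ] ℂ}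
    (h : MP_e4ecdb_ag.IsChern (old Γ) e H) : IsChern Γ (ne' e) H := by
  obtain ⟨u, hu, hu0, h1⟩ := h.metric
  refine ⟨(mem_H11 hΓ).2 ⟨h.herm, h.inv⟩, u, hu, hu0, ?_⟩
  rw [forall_old hΓ]
  intro a ha v
  rw [ne'_eq]
  exact h1 a ha v

lemma sec_eq {Γ : Subgroup (Equiv.Perm V)} (hΓ : IsCryst Γ)
    (e : Equiv.Perm V → V → ℂ) (k : ℕ) :
    sections Γ e k = MP_e4ecdb_ag.sections (old Γ) (oe e) k := by
  ext s
  refine and_congr Iff.rfl ?_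
  rw [forall_old hΓ]
  rfl

lemma sec_eq' {Γ : Subgroup (Equiv.Perm V)} (hΓ : IsCryst Γ)
    (e : (V ≃ᵃ[ℂ] V) → V → ℂ) (k : ℕ) :
    sections Γ (ne' e) k = MP_e4ecdb_ag.sections (old Γ) e k := by
  rw [sec_eq hΓ]
  have : oe (ne' e) = e := by
    funext a
    exact ne'_eq e a
  rw [this]

lemma old_psef {Γ : Subgroup (Equiv.Perm V)} (hΓ : IsCryst Γ)
    {H : V →ₗ⋆[ℂ] V →ₗ[ℂ] ℂ} (h : IsPsef Γ H) :
    MP_e4ecdb_ag.IsPseudoeffective (old Γ) H := by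
  obtain ⟨N, a, F, h1, h2⟩ := h
  refine ⟨N, a, F, fun n i => ⟨(h1 n i).1, ?_⟩, h2⟩
  rcases (h1 n i).2 with ⟨e, he, hc, s, hs, hs0⟩ | ⟨h3, h4⟩
  · rw [sec_eq hΓ] at hs
    exact Or.inl ⟨oe e, old_factor he, old_chern hΓ hc, s, hs, hs0⟩
  · have h5 := (mem_H11 hΓ).1 h3
    exact Or.inr ⟨h5.1, h5.2, h4⟩

lemma new_induces {Γ : Subgroup (Equiv.Perm V)} (hΓ : IsCryst Γ)
    {e : Equiv.Perm V → V → ℂ} {K : Submodule ℂ V}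
    (h : ∀ N ∈ MP_e4ecdb_ag.Exps (old Γ), MP_e4ecdb_ag.Induces (old Γ) (oe e) K N) :
    Induces Γ e K := by
  intro N h1 h2
  rw [numLin_old hΓ] at h2
  obtain ⟨h3, h4⟩ := h N ⟨h1, h2⟩
  refine ⟨?_, fun v w => ?_⟩
  · rw [sec_eq hΓ]
    exact h3
  · rw [sec_eq hΓ, exists_old hΓ]
    exact h4 v w

lemma new_induces' {Γ : Subgroup (Equiv.Perm V)} (hΓ : IsCryst Γ)
    {e : (V ≃ᵃ[ℂ] V) → V → ℂ} {K : Submodule ℂ V}
    (h : ∀ N ∈ MP_e4ecdb_ag.Exps (old Γ), MP_e4ecdb_ag.Induces (old Γ) e K N) :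
    Induces Γ (ne' e) K := by
  apply new_induces hΓ
  have : oe (ne' e) = e := by
    funext a
    exact ne'_eq e a
  rw [this]
  exact h

lemma rat_eq {Γ : Subgroup (Equiv.Perm V)} (hΓ : IsCryst Γ) :
    RatStable Γ = MP_e4ecdb_ag.RatStable (old Γ) := by
  ext K
  refine and_congr Iff.rfl (and_congr Iff.rfl (and_congr ?_ ?_))
  · rw [forall_old hΓ]
    refine forall_congr' fun a => forall_congr' fun _ => ?_
    simp only [lin_eq]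
  · simp only [tr_mem]

/-- the restriction of a quadratic form on all sesquilinear forms to `H11` -/
noncomputable def res (Γ : Subgroup (Equiv.Perm V)) (q : QuadraticForm ℝ (V →ₗ⋆[ℂ] V →ₗ[ℂ] ℂ)) :
    QuadraticForm ℝ (MP_e4ecdb_ag.H11 (old Γ)) :=
  q.comp (MP_e4ecdb_ag.H11 (old Γ)).subtype

lemma old_bbf {Γ : Subgroup (Equiv.Perm V)} (hΓ : IsCryst Γ)
    {q : QuadraticForm ℝ (V →ₗ⋆[ℂ] V →ₗ[ℂ] ℂ)}
    (h : IsBBF Γ q) : MP_e4ecdb_ag.IsBBF (old Γ) (res Γ q) := by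
  refine ⟨fun b => ?_, fun H hH => ?_⟩
  · obtain ⟨c, hc, h1⟩ := h.fujiki b
    exact ⟨c, hc, fun H => h1 H.1 ((mem_H11 hΓ).2 H.2)⟩
  · exact h.pos H.1 ((mem_H11 hΓ).2 H.2) hH

variable [FiniteDimensional ℂ V]

lemma exists_bbf [Nontrivial V] {Γ : Subgroup (Equiv.Perm V)} {σ : LinearMap.BilinForm ℂ V}
    (hΓ : IsCryst Γ) (hσ : IsPrimSympl Γ σ) : ∃ q, IsBBF Γ q := by
  obtain ⟨q0, hq0⟩ := (TQ.trichotomy (old_cryst hΓ) (old_prim hΓ hσ) inferInstance).1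
  obtain ⟨Q, hQ⟩ := Submodule.exists_isCompl (MP_e4ecdb_ag.H11 (old Γ))
  set P := Submodule.projectionOnto (MP_e4ecdb_ag.H11 (old Γ)) Q hQ with hP
  have hPH : ∀ (H : V →ₗ⋆[ℂ] V →ₗ[ℂ] ℂ) (hH : H ∈ MP_e4ecdb_ag.H11 (old Γ)),
      P H = ⟨H, hH⟩ := by
    intro H hH
    exact Submodule.projectionOnto_apply_left hQ ⟨H, hH⟩
  refine ⟨q0.comp P, ⟨fun b => ?_, fun H hH hp => ?_⟩⟩
  · obtain ⟨c, hc, h1⟩ := hq0.fujiki b
    refine ⟨c, hc, fun H hH => ?_⟩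
    rw [QuadraticMap.comp_apply, hPH H ((mem_H11 hΓ).1 hH)]
    exact h1 ⟨H, _⟩
  · rw [QuadraticMap.comp_apply, hPH H ((mem_H11 hΓ).1 hH)]
    exact hq0.pos ⟨H, _⟩ hp

lemma cones [Nontrivial V] {Γ : Subgroup (Equiv.Perm V)} {σ : LinearMap.BilinForm ℂ V}
    (hΓ : IsCryst Γ) (hσ : IsPrimSympl Γ σ)
    {q : QuadraticForm ℝ (V →ₗ⋆[ℂ] V →ₗ[ℂ] ℂ)} (hq : IsBBF Γ q) : Cones Γ q := by
  obtain ⟨⟨h, h1, h2⟩, h3, h4, h5, -⟩ :=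
    (TQ.trichotomy (old_cryst hΓ) (old_prim hΓ hσ) inferInstance).2 _ (old_bbf hΓ hq)
  refine ⟨⟨h.1, (mem_H11 hΓ).2 h.2, h1, fun H hH hne hpol => ?_⟩,
    fun H hH => h3 ⟨H, (mem_H11 hΓ).1 hH⟩, fun H hH => h4 ⟨H, (mem_H11 hΓ).1 hH⟩,
    fun H hH => h5 ⟨H, (mem_H11 hΓ).1 hH⟩⟩
  exact h2 ⟨H, (mem_H11 hΓ).1 hH⟩ (fun h0 => hne (congrArg Subtype.val h0)) hpol

lemma tri [Nontrivial V] {Γ : Subgroup (Equiv.Perm V)} {σ : LinearMap.BilinForm ℂ V}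
    (hΓ : IsCryst Γ) (hσ : IsPrimSympl Γ σ)
    {q : QuadraticForm ℝ (V →ₗ⋆[ℂ] V →ₗ[ℂ] ℂ)} (hq : IsBBF Γ q) {e : Equiv.Perm V → V → ℂ}
    (he : IsFactor Γ e) {H : V →ₗ⋆[ℂ] V →ₗ[ℂ] ℂ} (hH : IsChern Γ e H) : Trichotomy Γ q e H := by
  obtain ⟨-, -, -, -, h5⟩ :=
    (TQ.trichotomy (old_cryst hΓ) (old_prim hΓ hσ) inferInstance).2 _ (old_bbf hΓ hq)
  obtain ⟨a, b, c, d⟩ := h5 _ (old_factor he) ⟨H, (mem_H11 hΓ).1 hH.mem⟩ (old_chern hΓ hH)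
  refine ⟨fun h => ?_, fun h hne => ?_, fun h k hk s hs => ?_, fun h => ?_⟩
  · exact (a h).imp (new_induces hΓ) (new_induces hΓ (e := dual e))
  · obtain ⟨K, hK, h1, h2⟩ := b h (fun h0 => hne (congrArg Subtype.val h0))
    refine ⟨K, ?_, h1, h2.imp (new_induces hΓ)
      (fun h3 => ⟨new_induces hΓ (e := dual e) h3.1, fun h4 => h3.2 ?_⟩)⟩
    · rw [rat_eq hΓ]; exact hK
    · exact old_psef hΓ h4
  · obtain ⟨h1, h2⟩ := c h k hk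
    rw [sec_eq hΓ, sec_eq hΓ] at hs
    exact hs.elim (h1 s) (h2 s)
  · exact new_induces hΓ (d (Subtype.ext h))

lemma lagr_ray [Nontrivial V] {Γ : Subgroup (Equiv.Perm V)} {σ : LinearMap.BilinForm ℂ V}
    (hΓ : IsCryst Γ) (hσ : IsPrimSympl Γ σ) {K : Submodule ℂ V}
    (hK : K ∈ RatStable Γ) : IsLagr σ K ∧ IsRay Γ K := by
  have hK' : K ∈ MP_e4ecdb_ag.RatStable (old Γ) := by rw [← rat_eq hΓ]; exact hK
  refine ⟨(TQ.ratStable_card (old_cryst hΓ) (old_prim hΓ hσ)).1 K hK', ?_⟩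
  obtain ⟨H, hH, hnef, hrad, hint⟩ := TQ.exists_form (old_cryst hΓ) (old_prim hΓ hσ) hK'
  refine ⟨H, (mem_H11 hΓ).2 hH, fun x y hx hy => hint x y (tr_mem.2 hx) (tr_mem.2 hy), hnef, hrad,
    fun F hF hFK => ?_⟩
  obtain ⟨c, hc⟩ := TQ.ray_unique' (old_cryst hΓ) (old_prim hΓ hσ) inferInstance hK.1
    (H := ⟨H, hH⟩) (F := ⟨F, (mem_H11 hΓ).1 hF⟩) (by
      intro h0
      apply hK.2.1
      rw [eq_top_iff]
      intro x _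
      rw [hrad]
      have h1 : H = 0 := congrArg Subtype.val h0
      rw [h1]
      intro y
      rfl) (fun x hx => (hrad x).1 hx) hFK
  exact ⟨c, congrArg Subtype.val hc⟩

lemma bundle {Γ : Subgroup (Equiv.Perm V)} (hΓ : IsCryst Γ)
    {H : V →ₗ⋆[ℂ] V →ₗ[ℂ] ℂ} (hH : H ∈ H11 Γ) (hint : IsInt Γ H) :
    ∃ e, IsFactor Γ e ∧ (∀ γ ∈ Γ, ∀ v, γ v = v → e γ v = 1) ∧
      IsChern Γ e ((2 * numLin Γ ^ 3) • H) := by
  obtain ⟨e, he, hHe, hfix⟩ := TQ.exists_bundle (old_cryst hΓ) ((mem_H11 hΓ).1 hH)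
    (fun x y hx hy => hint x y (tr_mem.1 hx) (tr_mem.1 hy))
  refine ⟨ne' e, new_factor hΓ he, ?_, ?_⟩
  · rw [forall_old hΓ]
    intro a ha v hv
    rw [ne'_eq]
    exact hfix a ha v hv
  have h1 : (((2 * MP_e4ecdb_ag.numLin (old Γ) ^ 3 : ℕ) : ℝ) • H) = (2 * numLin Γ ^ 3) • H := by
    rw [Nat.cast_smul_eq_nsmul, numLin_old hΓ]
  rw [← h1]
  exact new_chern hΓ hHe

lemma mero [Nontrivial V] {Γ : Subgroup (Equiv.Perm V)} {σ : LinearMap.BilinForm ℂ V}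
    (hΓ : IsCryst Γ) (hσ : IsPrimSympl Γ σ) :
    (∃ e H, IsFactor Γ e ∧ IsChern Γ e H ∧ IsPos H ∧ Induces Γ e ⊥) ∨
      (∃ K, RatStable Γ = {K} ∧ ConstAlong Γ K) ∨ (RatStable Γ = ∅ ∧ ConstAlong Γ ⊤) := by
  have hc : ∀ K, TQ.ConstAlong (old Γ) K → ConstAlong Γ K := by
    intro K h e H he hH
    rw [sec_eq hΓ]
    exact h (oe e) H (old_factor he) (old_chern hΓ hH)
  rw [rat_eq hΓ]
  rcases TQ.mero (old_cryst hΓ) (old_prim hΓ hσ) with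
    ⟨e, H, h1, h2, h3, h4⟩ | ⟨K, h1, h2⟩ | ⟨h1, h2⟩
  · exact Or.inl ⟨ne' e, H, new_factor hΓ h1, new_chern hΓ h2, h3, new_induces' hΓ h4⟩
  · exact Or.inr (Or.inl ⟨K, h1, hc K h2⟩)
  · exact Or.inr (Or.inr ⟨h1, hc ⊤ h2⟩)

lemma card [Nontrivial V] {Γ : Subgroup (Equiv.Perm V)} {σ : LinearMap.BilinForm ℂ V}
    (hΓ : IsCryst Γ) (hσ : IsPrimSympl Γ σ) :
    (h11 Γ = 1 ∨ h11 Γ = 2 ∨ h11 Γ = 4) ∧
      ((RatStable Γ).Finite → (RatStable Γ).ncard ≤ 2) ∧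
      (h11 Γ = 1 → RatStable Γ = ∅) ∧ (h11 Γ = 2 → (RatStable Γ).Finite) ∧
      numLin Γ ∣ Nat.card (Matrix.GeneralLinearGroup (Fin (2 * finrank ℂ V)) (ZMod 3)) := by
  obtain ⟨-, c2, c3, c4⟩ := TQ.ratStable_card (old_cryst hΓ) (old_prim hΓ hσ)
  rw [h11_eq hΓ, rat_eq hΓ, numLin_old hΓ]
  refine ⟨TQ.finrank_H11 (old_cryst hΓ) (old_prim hΓ hσ) inferInstance, c2, c3, c4, ?_⟩
  rw [TQ.numLin_eq]
  exact TQ.card_dvd (old_cryst hΓ)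

end Pool.Agent.MP_e4ecdb_ag.SYZ
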