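import Pool.Agent.MP_e4ecdb_ag.DDefs
import Pool.Agent.MP_e4ecdb_ag.QPubProof
open Module

namespace Pool.Agent.MP_e4ecdb_ag.SYZ

variable {V : Type} [NormedAddCommGroup V] [NormedSpace ℂ V]

lemma mem_conj {h : V ≃ₗ[ℝ] V} {Γ : Subgroup (Equiv.Perm V)} {δ : Equiv.Perm V} :
    δ ∈ conj h Γ ↔ ∃ γ ∈ Γ, ∀ x, δ x = h (γ (h.symm x)) := by
  unfold conj
  rw [Subgroup.mem_map]
  constructor
  · rintro ⟨γ, hγ, rfl⟩
    exact ⟨γ, hγ, fun x => rfl⟩
  · rintro ⟨γ, hγ, h1⟩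
    refine ⟨γ, hγ, ?_⟩
    ext x
    exact (h1 x).symm

/-- the conjugate element -/
noncomputable def cj (h : V ≃ₗ[ℝ] V) (γ : Equiv.Perm V) : Equiv.Perm V := MulAut.conj h.toEquiv γ

lemma cj_apply (h : V ≃ₗ[ℝ] V) (γ : Equiv.Perm V) (x : V) : cj h γ x = h (γ (h.symm x)) := rfl

lemma cj_mem {h : V ≃ₗ[ℝ] V} {Γ : Subgroup (Equiv.Perm V)} {γ : Equiv.Perm V} (hγ : γ ∈ Γ) :
    cj h γ ∈ conj h Γ := mem_conj.2 ⟨γ, hγ, fun _ => rfl⟩

lemma forall_conj {h : V ≃ₗ[ℝ] V} {Γ : Subgroup (Equiv.Perm V)} {P : Equiv.Perm V → Prop} :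
    (∀ δ ∈ conj h Γ, P δ) ↔ ∀ γ ∈ Γ, P (cj h γ) := by
  constructor
  · intro h1 γ hγ
    exact h1 _ (cj_mem hγ)
  · intro h1 δ hδ
    obtain ⟨γ, hγ, h2⟩ := mem_conj.1 hδ
    have : δ = cj h γ := by
      ext x
      exact h2 x
    rw [this]
    exact h1 γ hγ

variable {Γ : Subgroup (Equiv.Perm V)}

lemma lin_real (hΓ : IsCryst Γ) {γ : Equiv.Perm V} (hγ : γ ∈ Γ) :
    ∃ A : V ≃ₗ[ℂ] V, (∀ x, lin γ x = A x) ∧ ∀ v, γ v = A v + γ 0 := by
  obtain ⟨A, hA⟩ := hΓ.affine γ hγ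
  refine ⟨A, fun x => ?_, hA⟩
  unfold lin
  rw [hA x, add_sub_cancel_right]

lemma lin_cj (hΓ : IsCryst Γ) {h : V ≃ₗ[ℝ] V} (hh : h ∈ Def Γ) {γ : Equiv.Perm V} (hγ : γ ∈ Γ)
    (x : V) : lin (cj h γ) x = lin γ x := by
  obtain ⟨A, hA, hA'⟩ := lin_real hΓ hγ
  have h1 : lin (cj h γ) x = h (lin γ (h.symm x)) := by
    unfold lin
    rw [cj_apply, cj_apply, map_zero, map_sub]
  rw [h1, hh γ hγ, LinearEquiv.apply_symm_apply]

lemma addLeft_conj {h : V ≃ₗ[ℝ] V} (x : V) :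
    Equiv.addLeft x ∈ conj h Γ ↔ Equiv.addLeft (h.symm x) ∈ Γ := by
  rw [mem_conj]
  constructor
  · rintro ⟨γ, hγ, h1⟩
    have : Equiv.addLeft (h.symm x) = γ := by
      ext y
      have h2 := h1 (h y)
      rw [LinearEquiv.symm_apply_apply] at h2
      have h3 := congrArg h.symm h2
      rw [LinearEquiv.symm_apply_apply] at h3
      rw [← h3]
      simp
    rw [this]
    exact hγ
  · intro h1
    refine ⟨_, h1, fun y => ?_⟩
    simp

lemma conj_cryst (hΓ : IsCryst Γ) {h : V ≃ₗ[ℝ] V} (hh : h ∈ Def Γ) : IsCryst (conj h Γ) := by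
  refine ⟨?_, ?_, ?_⟩
  · rw [forall_conj]
    intro γ hγ
    obtain ⟨A, hA, hA'⟩ := lin_real hΓ hγ
    refine ⟨A, fun v => ?_⟩
    have h1 := lin_cj hΓ hh hγ v
    rw [hA] at h1
    rw [← h1]
    unfold lin
    rw [sub_add_cancel]
  · obtain ⟨ι, hι, b, hb⟩ := hΓ.lattice
    refine ⟨ι, hι, b.map h, fun x => ?_⟩
    rw [addLeft_conj, ← hb, Basis.coe_map, Set.range_comp]
    constructor
    · intro hx
      have h1 : Submodule.span ℤ (h '' Set.range b) ≤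
          (Submodule.span ℤ (Set.range b)).comap ((h.symm : V →ₗ[ℝ] V).restrictScalars ℤ) := by
        rw [Submodule.span_le]
        rintro _ ⟨y, hy, rfl⟩
        change h.symm (h y) ∈ Submodule.span ℤ (Set.range b)
        rw [LinearEquiv.symm_apply_apply]
        exact Submodule.subset_span hy
      exact h1 hx
    · intro hx
      have h1 : Submodule.span ℤ (Set.range b) ≤
          (Submodule.span ℤ (h '' Set.range b)).comap ((h : V →ₗ[ℝ] V).restrictScalars ℤ) := by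
        rw [Submodule.span_le]
        intro y hy
        exact Submodule.subset_span ⟨y, hy, rfl⟩
      have h2 := h1 hx
      change h (h.symm x) ∈ Submodule.span ℤ (h '' Set.range b) at h2
      rwa [LinearEquiv.apply_symm_apply] at h2
  · refine hΓ.finite.subset ?_
    rintro f ⟨δ, hδ, rfl⟩
    obtain ⟨γ, hγ, h2⟩ := mem_conj.1 hδ
    have h3 : δ = cj h γ := by
      ext x
      exact h2 x
    refine ⟨γ, hγ, ?_⟩
    rw [h3]
    funext x
    exact (lin_cj hΓ hh hγ x).symm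

lemma conj_prim (hΓ : IsCryst Γ) {σ : LinearMap.BilinForm ℂ V} (hσ : IsPrimSympl Γ σ)
    {h : V ≃ₗ[ℝ] V} (hh : h ∈ Def Γ) : IsPrimSympl (conj h Γ) σ := by
  refine ⟨hσ.alt, hσ.nondeg, ?_, fun τ h1 h2 => ?_, fun x hx => ?_⟩
  · rw [forall_conj]
    intro γ hγ x y
    rw [lin_cj hΓ hh hγ, lin_cj hΓ hh hγ]
    exact hσ.inv γ hγ x y
  · rw [forall_conj] at h2
    apply hσ.prim τ h1
    intro γ hγ x y
    have := h2 γ hγ x y
    rwa [lin_cj hΓ hh hγ, lin_cj hΓ hh hγ] at this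
  · rw [forall_conj] at hx
    apply hσ.no_inv x
    intro γ hγ
    have := hx γ hγ
    rwa [lin_cj hΓ hh hγ] at this

lemma conj_H11 (hΓ : IsCryst Γ) {h : V ≃ₗ[ℝ] V} (hh : h ∈ Def Γ) : H11 (conj h Γ) = H11 Γ := by
  ext H
  refine and_congr Iff.rfl ?_
  rw [forall_conj]
  refine forall_congr' fun γ => forall_congr' fun hγ => ?_
  simp only [lin_cj hΓ hh hγ]

lemma conj_h11 (hΓ : IsCryst Γ) {h : V ≃ₗ[ℝ] V} (hh : h ∈ Def Γ) : h11 (conj h Γ) = h11 Γ := by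
  unfold h11
  rw [conj_H11 hΓ hh]

/-- pairs as in the question exist if and only if there is a rational stable subspace -/
lemma hasPair_iff [FiniteDimensional ℂ V] [Nontrivial V] {σ : LinearMap.BilinForm ℂ V}
    (hΓ : IsCryst Γ) (hσ : IsPrimSympl Γ σ) : HasPair Γ ↔ (RatStable Γ).Nonempty := by
  constructor
  · rintro ⟨q, e, H, hq, he, hH, -, hne, h0⟩
    obtain ⟨K, hK, -⟩ := (tri hΓ hσ hq he hH).null h0 hne
    exact ⟨K, hK⟩
  · rintro ⟨K, hK⟩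
    obtain ⟨-, H, hH, hint, hnef, hrad, -⟩ := lagr_ray hΓ hσ hK
    obtain ⟨q, hq⟩ := exists_bbf hΓ hσ
    obtain ⟨e, he, -, hc⟩ := bundle hΓ hH hint
    have hn0 : numLin Γ ≠ 0 := by
      unfold numLin
      exact Set.ncard_ne_zero_of_mem ⟨1, Γ.one_mem, rfl⟩ hΓ.finite
    have hk : 2 * numLin Γ ^ 3 ≠ 0 := by positivity
    have hmem : (2 * numLin Γ ^ 3) • H ∈ H11 Γ := hc.mem
    have hHne : H ≠ 0 := by
      intro h0
      apply hK.2.1
      rw [eq_top_iff]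
      intro x _
      rw [hrad, h0]
      intro y
      rfl
    obtain ⟨x, hxK, hx0⟩ := (Submodule.ne_bot_iff K).1 hK.1
    refine ⟨q, e, (2 * numLin Γ ^ 3) • H, hq, he, hc, fun y => ?_, ?_, ?_⟩
    · have h1 : (((2 * numLin Γ ^ 3) • H) y y).re = (2 * numLin Γ ^ 3 : ℕ) * (H y y).re := by
        rw [LinearMap.smul_apply, LinearMap.smul_apply, ← Nat.cast_smul_eq_nsmul ℝ, Complex.smul_re,
          smul_eq_mul]
      rw [h1]
      exact mul_nonneg (Nat.cast_nonneg _) (hnef y)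
    · intro h0
      apply hHne
      rw [← Nat.cast_smul_eq_nsmul ℝ] at h0
      rcases smul_eq_zero.1 h0 with h1 | h1
      · exfalso
        exact hk (by exact_mod_cast h1)
      · exact h1
    · rw [(cones hΓ hσ hq).degenerate _ hmem]
      refine ⟨x, hx0, fun y => ?_⟩
      rw [LinearMap.smul_apply, LinearMap.smul_apply, (hrad x).1 hxK y, smul_zero]

end Pool.Agent.MP_e4ecdb_ag.SYZ
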