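import Pool.Agent.MP_e4ecdb_ag.QPub
open Module

/-! Definitions for the statement on the deformation classes of primitive symplectic torus
quotients. -/

namespace Pool.Agent.MP_e4ecdb_ag.SYZ

variable {V : Type} [NormedAddCommGroup V] [NormedSpace ℂ V]

/-- The real-linear automorphisms `h` of `V` which commute with all linear parts of `Γ`. They
parametrise the deformations `V / (h Γ h⁻¹)` of `X = V / Γ`. -/
def Def (Γ : Subgroup (Equiv.Perm V)) : Set (V ≃ₗ[ℝ] V) :=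
  {h | ∀ γ ∈ Γ, ∀ x, h (lin γ x) = lin γ (h x)}

/-- The group `h Γ h⁻¹` of permutations of `V`. -/
noncomputable def conj (h : V ≃ₗ[ℝ] V) (Γ : Subgroup (Equiv.Perm V)) : Subgroup (Equiv.Perm V) :=
  Γ.map (MulAut.conj h.toEquiv).toMonoidHom

/-- `X = V / Γ` has a line bundle `L` as in the question: `L` is nef, `c_1(L) ≠ 0` and
`q(L) = 0` for a Beauville-Bogomolov-Fujiki form `q`. -/
def HasPair (Γ : Subgroup (Equiv.Perm V)) : Prop :=
  ∃ q e H, IsBBF Γ q ∧ IsFactor Γ e ∧ IsChern Γ e H ∧ IsNef H ∧ H ≠ 0 ∧ q H = 0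

/-- The lattice of `Γ` is rationally reducible: there is a real subspace `W ≠ 0, V`, stable under all
linear parts of `Γ` and spanned by lattice vectors. -/
def Reducible (Γ : Subgroup (Equiv.Perm V)) : Prop :=
  ∃ W : Submodule ℝ V, W ≠ ⊥ ∧ W ≠ ⊤ ∧ (∀ γ ∈ Γ, ∀ x ∈ W, lin γ x ∈ W) ∧
    W = Submodule.span ℝ {x | Equiv.addLeft x ∈ Γ ∧ x ∈ W}

end Pool.Agent.MP_e4ecdb_ag.SYZ
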