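import Pool.Agent.MP_e4ecdb_ag.QDim
import Pool.Agent.MP_e4ecdb_ag.BBb

/-!
Primitive symplectic torus quotients: the number of the rational stable subspaces is 0, 1, 2 or
infinite.
-/

open Module

namespace Pool.Agent.MP_e4ecdb_ag.QC

open BB QD

variable {V : Type} [NormedAddCommGroup V] [NormedSpace ℂ V]
  {Γ : Subgroup (V ≃ᵃ[ℂ] V)} {σ : LinearMap.BilinForm ℂ V}

lemma stable_of {K : Submodule ℂ V} (h : ∀ γ ∈ Γ, ∀ x ∈ K, γ.linear x ∈ K) :
    Stable (rho Γ) K := by
  rintro ⟨A, γ, hγ, rfl⟩ x hx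
  exact h γ hγ x hx

lemma of_stable {K : Submodule ℂ V} (h : Stable (rho Γ) K) :
    ∀ γ ∈ Γ, ∀ x ∈ K, γ.linear x ∈ K := fun γ hγ x hx => h ⟨γ.linear, mem_LG hγ⟩ x hx

lemma add_re {H F : V →ₗ⋆[ℂ] V →ₗ[ℂ] ℂ} (a b : ℝ) (x : V) :
    (((a • H + b • F) x x).re : ℝ) = a * (H x x).re + b * (F x x).re := by
  simp

variable [FiniteDimensional ℂ V]

/-- a nef class with radical `K` -/
lemma exists_radical (hΓ : IsCrystallographic Γ) {K : Submodule ℂ V} (hK : Stable (rho Γ) K) :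
    ∃ H ∈ H11 Γ, (∀ x, 0 ≤ (H x x).re) ∧ ∀ x, (H x x).re = 0 ↔ x ∈ K := by
  have hfin := finite_LG hΓ
  obtain ⟨h, ⟨hh1, hh2⟩, hpos⟩ := exists_pos hΓ
  obtain ⟨P, hP1, hP2, hP3⟩ := exists_equivariant_proj (rho Γ) K hK
  set Q : V →ₗ[ℂ] V := LinearMap.id - P with hQ
  have hQx : ∀ x, Q x = x - P x := fun x => rfl
  let H : V →ₗ⋆[ℂ] V →ₗ[ℂ] ℂ := LinearMap.mk₂'ₛₗ (starRingEnd ℂ) (RingHom.id ℂ)
    (fun x y => h (Q x) (Q y))
    (fun x x' y => by simp) (fun c x y => by simp) (fun x y y' => by simp) (fun c x y => by simp)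
  have hH : ∀ x y, H x y = h (Q x) (Q y) := fun x y => rfl
  refine ⟨H, ⟨fun x y => ?_, fun γ hγ x y => ?_⟩, fun x => ?_, fun x => ?_⟩
  · rw [hH, hH]
    exact hh1 _ _
  · have h3 : ∀ z, Q (γ.linear z) = γ.linear (Q z) := by
      intro z
      have := hP3 ⟨γ.linear, mem_LG hγ⟩ z
      rw [rho_apply, rho_apply] at this
      rw [hQx, hQx, this, map_sub]
    rw [hH, hH, h3, h3]
    exact hh2 γ hγ _ _
  · rw [hH]
    by_cases h0 : Q x = 0
    · rw [h0]; simp
    · exact (hpos _ h0).le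
  · rw [hH]
    constructor
    · intro h0
      have h1 : Q x = 0 := by
        by_contra hne
        exact absurd h0 (hpos _ hne).ne'
      rw [hQx, sub_eq_zero] at h1
      rw [h1]
      exact hP1 x
    · intro hx
      rw [hQx, hP2 x hx, sub_self]
      simp

/-- two independent classes -/
lemma finrank_two (hΓ : IsCrystallographic Γ) (hfd : Module.Finite ℝ (H11 Γ)) {K : Submodule ℂ V}
    (hK : Stable (rho Γ) K) (h0 : K ≠ ⊥) (h1 : K ≠ ⊤) : 2 ≤ finrank ℝ (H11 Γ) := by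
  obtain ⟨h, hh, hpos⟩ := exists_pos hΓ
  obtain ⟨H, hH, hnn, hrad⟩ := exists_radical hΓ hK
  obtain ⟨x₀, hx₀K, hx₀⟩ := (Submodule.ne_bot_iff K).1 h0
  obtain ⟨x₁, hx₁⟩ : ∃ x, x ∉ K := by
    by_contra hcon
    push Not at hcon
    exact h1 (eq_top_iff.2 fun x _ => hcon x)
  let f : (Fin 2 → ℝ) →ₗ[ℝ] H11 Γ := Fintype.linearCombination ℝ ![(⟨h, hh⟩ : H11 Γ), ⟨H, hH⟩]
  have hf : ∀ g, f g = g 0 • (⟨h, hh⟩ : H11 Γ) + g 1 • (⟨H, hH⟩ : H11 Γ) := by
    intro g
    simp only [f, Fintype.linearCombination_apply, Fin.sum_univ_two]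
    rfl
  have hinj : Function.Injective f := by
    refine (injective_iff_map_eq_zero f).2 fun g hg => ?_
    rw [hf] at hg
    have h2 : ∀ x, g 0 * (h x x).re + g 1 * (H x x).re = 0 := by
      intro x
      have h3 := congrArg (fun F : H11 Γ => ((F : V →ₗ⋆[ℂ] V →ₗ[ℂ] ℂ) x x).re) hg
      simpa using h3
    have ha : g 0 = 0 := by
      have h3 := h2 x₀
      rw [(hrad x₀).2 hx₀K, mul_zero, add_zero] at h3
      rcases mul_eq_zero.1 h3 with h | h
      · exact h
      · exact absurd h (hpos x₀ hx₀).ne'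
    have hb : g 1 = 0 := by
      have h3 := h2 x₁
      rw [ha, zero_mul, zero_add] at h3
      rcases mul_eq_zero.1 h3 with h | h
      · exact h
      · exact absurd ((hrad x₁).1 h) hx₁
    funext i
    fin_cases i
    · exact ha
    · exact hb
  simpa using LinearMap.finrank_le_finrank_of_injective hinj

omit [FiniteDimensional ℂ V] in
lemma finite_H11 (h : 0 < finrank ℝ (H11 Γ)) : Module.Finite ℝ (H11 Γ) :=
  FiniteDimensional.of_finrank_pos (K := ℝ) (V := H11 Γ) h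

/-- three independent classes -/
lemma finrank_three (hΓ : IsCrystallographic Γ) (hfd : Module.Finite ℝ (H11 Γ))
    {K1 K2 K3 : Submodule ℂ V}
    (hK1 : Stable (rho Γ) K1) (hK2 : Stable (rho Γ) K2) (hK3 : Stable (rho Γ) K3)
    (h1 : K1 ≠ ⊥) (h2 : K2 ≠ ⊥) (h3 : K3 ≠ ⊥) (h12 : Disjoint K1 K2) (h13 : Disjoint K1 K3)
    (h23 : Disjoint K2 K3) : 3 ≤ finrank ℝ (H11 Γ) := by
  obtain ⟨H1, hH1, nn1, r1⟩ := exists_radical hΓ hK1
  obtain ⟨H2, hH2, nn2, r2⟩ := exists_radical hΓ hK2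
  obtain ⟨H3, hH3, nn3, r3⟩ := exists_radical hΓ hK3
  obtain ⟨x1, hx1, h01⟩ := (Submodule.ne_bot_iff K1).1 h1
  obtain ⟨x2, hx2, h02⟩ := (Submodule.ne_bot_iff K2).1 h2
  obtain ⟨x3, hx3, h03⟩ := (Submodule.ne_bot_iff K3).1 h3
  have dj : ∀ {K L : Submodule ℂ V} {x : V}, Disjoint K L → x ∈ K → x ≠ 0 → x ∉ L := by
    intro K L x hd hx h0 hL
    exact h0 ((Submodule.disjoint_def.1 hd) x hx hL)
  have p : ∀ {H : V →ₗ⋆[ℂ] V →ₗ[ℂ] ℂ} {K : Submodule ℂ V} {x : V}, (∀ x, 0 ≤ (H x x).re) →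
      (∀ x, (H x x).re = 0 ↔ x ∈ K) → x ∉ K → 0 < (H x x).re := by
    intro H K x hn hr hx
    exact lt_of_le_of_ne (hn x) fun h => hx ((hr x).1 h.symm)
  let f : (Fin 3 → ℝ) →ₗ[ℝ] H11 Γ :=
    Fintype.linearCombination ℝ ![(⟨H1, hH1⟩ : H11 Γ), ⟨H2, hH2⟩, ⟨H3, hH3⟩]
  have hf : ∀ g, f g = g 0 • (⟨H1, hH1⟩ : H11 Γ) + g 1 • (⟨H2, hH2⟩ : H11 Γ) +
      g 2 • (⟨H3, hH3⟩ : H11 Γ) := by
    intro g
    simp only [f, Fintype.linearCombination_apply, Fin.sum_univ_three]
    rfl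
  have hinj : Function.Injective f := by
    refine (injective_iff_map_eq_zero f).2 fun g hg => ?_
    rw [hf] at hg
    have e : ∀ x, g 0 * (H1 x x).re + g 1 * (H2 x x).re + g 2 * (H3 x x).re = 0 := by
      intro x
      have h3 := congrArg (fun F : H11 Γ => ((F : V →ₗ⋆[ℂ] V →ₗ[ℂ] ℂ) x x).re) hg
      simpa using h3
    have e1 := e x1
    have e2 := e x2
    have e3 := e x3
    rw [(r1 x1).2 hx1, mul_zero, zero_add] at e1
    rw [(r2 x2).2 hx2, mul_zero, add_zero] at e2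
    rw [(r3 x3).2 hx3, mul_zero, add_zero] at e3
    have p12 := p nn1 r1 (dj h12.symm hx2 h02)
    have p13 := p nn1 r1 (dj h13.symm hx3 h03)
    have p21 := p nn2 r2 (dj h12 hx1 h01)
    have p23 := p nn2 r2 (dj h23.symm hx3 h03)
    have p31 := p nn3 r3 (dj h13 hx1 h01)
    have p32 := p nn3 r3 (dj h23 hx2 h02)
    -- the signs
    have s : ∀ {a b u v : ℝ}, 0 < u → 0 < v → a * u + b * v = 0 → a * b ≤ 0 := by
      intro a b u v hu hv h
      by_contra hcon
      push Not at hcon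
      have h5 : a * (a * u + b * v) = 0 := by rw [h, mul_zero]
      nlinarith [mul_pos hcon hv, mul_nonneg (mul_self_nonneg a) hu.le]
    have z : ∀ {a b u v : ℝ}, 0 < v → a = 0 → a * u + b * v = 0 → b = 0 := by
      intro a b u v hv ha h
      rw [ha, zero_mul, zero_add] at h
      rcases mul_eq_zero.1 h with h | h
      · exact h
      · exact absurd h hv.ne'
    have s12 : g 0 * g 1 ≤ 0 := s p13 p23 e3
    have s13 : g 0 * g 2 ≤ 0 := s p12 p32 e2
    have s23 : g 1 * g 2 ≤ 0 := s p21 p31 e1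
    have hg0 : g 0 = 0 := by
      by_contra hne
      have h1 : g 1 ≠ 0 := by
        intro h
        apply hne
        exact z (a := g 1) (b := g 0) (u := (H2 x3 x3).re) p13 h (by linarith)
      have h2 : g 2 ≠ 0 := by
        intro h
        apply hne
        exact z (a := g 2) (b := g 0) (u := (H3 x2 x2).re) p12 h (by linarith)
      have q12 : g 0 * g 1 < 0 := lt_of_le_of_ne s12 (mul_ne_zero hne h1)
      have q13 : g 0 * g 2 < 0 := lt_of_le_of_ne s13 (mul_ne_zero hne h2)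
      have q : 0 < (g 0 * g 1) * (g 0 * g 2) := mul_pos_of_neg_of_neg q12 q13
      have q' : (g 0 * g 1) * (g 0 * g 2) = (g 0) ^ 2 * (g 1 * g 2) := by ring
      rw [q'] at q
      have := mul_nonpos_of_nonneg_of_nonpos (sq_nonneg (g 0)) s23
      linarith
    have hg1 : g 1 = 0 := z (u := (H1 x3 x3).re) p23 hg0 e3
    have hg2 : g 2 = 0 := z (u := (H1 x2 x2).re) p32 hg0 e2
    funext i
    fin_cases i
    · exact hg0
    · exact hg1
    · exact hg2
  simpa using LinearMap.finrank_le_finrank_of_injective hinj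

omit [FiniteDimensional ℂ V] in
/-- the projections of a lattice vector along rational subspaces are rational -/
lemma rat_proj {ι : Type} [Fintype ι] (b : Basis ι ℝ V) (K1 K2 : Submodule ℝ V)
    (h1 : K1 ≤ Submodule.span ℝ {x | x ∈ Submodule.span ℤ (Set.range b) ∧ x ∈ K1})
    (h2 : K2 ≤ Submodule.span ℝ {x | x ∈ Submodule.span ℤ (Set.range b) ∧ x ∈ K2})
    (hs : K1 ⊔ K2 = ⊤) {x : V} (hx : x ∈ Submodule.span ℤ (Set.range b)) :
    ∃ N : ℕ, 1 ≤ N ∧ ∃ l1 ∈ Submodule.span ℤ (Set.range b), ∃ l2 ∈ Submodule.span ℤ (Set.range b),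
      l1 ∈ K1 ∧ l2 ∈ K2 ∧ N • x = l1 + l2 := by
  classical
  set Λ : Submodule ℤ V := Submodule.span ℤ (Set.range b) with hΛ
  have : FiniteDimensional ℝ V := Module.Finite.of_basis b
  have hfin : Module.Finite ℤ Λ := Module.Finite.span_of_finite ℤ (Set.finite_range b)
  have : IsAddTorsionFree V := torsionFree_of_real V
  have hfree : Module.Free ℤ Λ := inferInstance
  have hrank : finrank ℤ Λ = finrank ℝ V := by
    let b' : Basis ι ℤ Λ := b.restrictScalars ℤ
    rw [Module.finrank_eq_card_basis b', Module.finrank_eq_card_basis b]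
  let L1 : Submodule ℤ Λ := (K1.restrictScalars ℤ).comap Λ.subtype
  let L2 : Submodule ℤ Λ := (K2.restrictScalars ℤ).comap Λ.subtype
  have hfl : Module.Finite ℤ (((L1 ⊔ L2).map Λ.subtype : Submodule ℤ V)) := inferInstance
  have hsp : (⊤ : Submodule ℝ V) ≤
      Submodule.span ℝ (((L1 ⊔ L2).map Λ.subtype : Submodule ℤ V) : Set V) := by
    rw [← hs]
    refine sup_le (h1.trans (Submodule.span_mono ?_)) (h2.trans (Submodule.span_mono ?_))
    · rintro y ⟨hy, hy1⟩
      exact ⟨⟨y, hy⟩, (le_sup_left : L1 ≤ L1 ⊔ L2) hy1, rfl⟩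
    · rintro y ⟨hy, hy1⟩
      exact ⟨⟨y, hy⟩, (le_sup_right : L2 ≤ L1 ⊔ L2) hy1, rfl⟩
  have hr := finrank_le_of_span ⊤ ((L1 ⊔ L2).map Λ.subtype) hsp
  rw [LinearEquiv.finrank_eq (Submodule.equivMapOfInjective Λ.subtype Λ.injective_subtype _).symm,
    finrank_top] at hr
  have heq : finrank ℤ (L1 ⊔ L2 : Submodule ℤ Λ) = finrank ℤ Λ :=
    le_antisymm (Submodule.finrank_le _) (by rw [hrank]; exact hr)
  have hq : Finite (Λ ⧸ (L1 ⊔ L2)) := Submodule.finiteQuotientOfFreeOfRankEq _ heq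
  have hN : Nat.card (Λ ⧸ (L1 ⊔ L2)) • (⟨x, hx⟩ : Λ) ∈ L1 ⊔ L2 := by
    rw [← Submodule.Quotient.mk_eq_zero, Submodule.Quotient.mk_smul]
    exact card_nsmul_eq_zero'
  obtain ⟨l1, hl1, l2, hl2, hl⟩ := Submodule.mem_sup.1 hN
  refine ⟨Nat.card (Λ ⧸ (L1 ⊔ L2)), Nat.card_pos, l1, l1.2, l2, l2.2, hl1, hl2, ?_⟩
  have h3 := congrArg Λ.subtype hl
  simp only [map_add, Submodule.subtype_apply] at h3
  rw [h3]
  rfl

/-- three rational stable subspaces give infinitely many -/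
lemma infinite_of_three (hΓ : IsCrystallographic Γ) (hσ : IsPrimSympl Γ σ)
    {K1 K2 K3 : Submodule ℂ V} (h1 : K1 ∈ RatStable Γ) (h2 : K2 ∈ RatStable Γ)
    (h3 : K3 ∈ RatStable Γ) (n12 : K1 ≠ K2) (n13 : K1 ≠ K3) (n23 : K2 ≠ K3) :
    (RatStable Γ).Infinite := by
  have hfin := finite_LG hΓ
  obtain ⟨a1, b1, c1, d1⟩ := h1
  obtain ⟨a2, b2, c2, d2⟩ := h2
  obtain ⟨a3, b3, c3, d3⟩ := h3
  have c12 := stable_compl (prim hσ) (stable_of c1) a1 b1 (stable_of c2) a2 b2 n12
  have c13 := stable_compl (prim hσ) (stable_of c1) a1 b1 (stable_of c3) a3 b3 n13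
  have c23 := stable_compl (prim hσ) (stable_of c2) a2 b2 (stable_of c3) a3 b3 n23
  obtain ⟨ι, hι, b, hb⟩ := hΓ.lattice
  set P : V →ₗ[ℂ] V := K1.projection K2 c12 with hP
  have hP1 : ∀ x, P x ∈ K1 := fun x => Submodule.projection_apply_mem c12 x
  have hP2 : ∀ x, x - P x ∈ K2 := fun x => Submodule.sub_projection_mem c12 x
  have hP3 : ∀ x ∈ K1, P x = x := fun x hx => Submodule.projection_apply_of_mem_left c12 hx
  have hP4 : ∀ x, P x = 0 ↔ x ∈ K2 := fun x => Submodule.projection_apply_eq_zero_iff c12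
  have hPc : ∀ γ ∈ Γ, ∀ x, P (γ.linear x) = γ.linear (P x) := by
    intro γ hγ x
    have e1 : γ.linear x = γ.linear (P x) + γ.linear (x - P x) := by
      rw [← map_add]; congr 1; abel
    rw [e1, map_add, hP3 _ (c1 γ hγ _ (hP1 x)), (hP4 _).2 (c2 γ hγ _ (hP2 x)), add_zero]
  let f : ℕ → V →ₗ[ℂ] V := fun m => P + ((m : ℂ) + 1) • (LinearMap.id - P)
  have hf : ∀ m x, f m x = P x + ((m : ℂ) + 1) • (x - P x) := fun m x => rfl
  have hPf : ∀ m x, P (f m x) = P x := by
    intro m x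
    rw [hf, map_add, map_smul, hP3 _ (hP1 x), (hP4 _).2 (hP2 x), smul_zero, add_zero]
  have hm0 : ∀ m : ℕ, ((m : ℂ) + 1) ≠ 0 := fun m => Nat.cast_add_one_ne_zero m
  have hinj : ∀ m x, f m x = 0 → x = 0 := by
    intro m x hx
    have e1 : P x = 0 := by rw [← hPf m x, hx, map_zero]
    rw [hf, e1, sub_zero, zero_add] at hx
    exact (smul_eq_zero.1 hx).resolve_left (hm0 m)
  have hfc : ∀ m, ∀ γ ∈ Γ, ∀ x, f m (γ.linear x) = γ.linear (f m x) := by
    intro m γ hγ x
    rw [hf, hf, hPc γ hγ, map_add, map_smul, map_sub]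
  let K : ℕ → Submodule ℂ V := fun m => K3.map (f m)
  have hK : ∀ m, K m ∈ RatStable Γ := by
    intro m
    refine ⟨?_, ?_, ?_, ?_⟩
    · obtain ⟨x, hx, hx0⟩ := (Submodule.ne_bot_iff K3).1 a3
      exact (Submodule.ne_bot_iff _).2 ⟨f m x, ⟨x, hx, rfl⟩, fun h => hx0 (hinj m x h)⟩
    · intro h
      have e1 : finrank ℂ (K m) ≤ finrank ℂ K3 := Submodule.finrank_map_le (f m) K3
      rw [h, finrank_top] at e1
      have e2 := Submodule.finrank_lt b3
      omega
    · rintro γ hγ _ ⟨x, hx, rfl⟩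
      exact ⟨γ.linear x, c3 γ hγ x hx, hfc m γ hγ x⟩
    · apply le_antisymm
      · rintro _ ⟨x, hx, rfl⟩
        have hx3 : x ∈ Submodule.span ℝ {x | AffineEquiv.constVAdd ℂ V x ∈ Γ ∧ x ∈ K3} := by
          rw [← d3]
          exact hx
        induction hx3 using Submodule.span_induction with
        | mem l hl =>
          obtain ⟨N, hN, l1, hl1, l2, hl2, k1, k2, e⟩ := rat_proj b (K1.restrictScalars ℝ)
            (K2.restrictScalars ℝ) (by
              rw [d1]
              exact Submodule.span_mono fun z hz => ⟨(hb z).2 hz.1, Submodule.subset_span hz⟩) (by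
              rw [d2]
              exact Submodule.span_mono fun z hz => ⟨(hb z).2 hz.1, Submodule.subset_span hz⟩) (by
              have := c12.sup_eq_top
              rw [Submodule.eq_top_iff'] at this ⊢
              intro z
              obtain ⟨z1, hz1, z2, hz2, hz⟩ := Submodule.mem_sup.1 (this z)
              exact Submodule.mem_sup.2 ⟨z1, hz1, z2, hz2, hz⟩) ((hb l).2 hl.1)
          have e1 : f m (N • l) = l1 + (m + 1) • l2 := by
            have e2 : P (N • l) = l1 := by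
              rw [e, map_add, hP3 _ k1, (hP4 _).2 k2, add_zero]
            rw [hf, e2, e, add_sub_cancel_left]
            congr 1
            rw [← Nat.cast_smul_eq_nsmul ℂ]
            push_cast
            rfl
          have e3 : l1 + (m + 1) • l2 ∈ Submodule.span ℝ
              {x | AffineEquiv.constVAdd ℂ V x ∈ Γ ∧ x ∈ K m} := by
            apply Submodule.subset_span
            refine ⟨(hb _).1 (Submodule.add_mem _ hl1 (Submodule.smul_of_tower_mem _ _ hl2)), ?_⟩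
            rw [← e1]
            exact ⟨N • l, Submodule.smul_of_tower_mem _ _ hl.2, rfl⟩
          have e4 : (f m).restrictScalars ℝ l = (N : ℝ)⁻¹ • (l1 + (m + 1) • l2) := by
            have e5 : (N : ℝ) ≠ 0 := by positivity
            have e6 : (N : ℝ) • f m l = l1 + (m + 1) • l2 := by
              rw [Nat.cast_smul_eq_nsmul, ← map_nsmul, e1]
            rw [← e6, smul_smul, inv_mul_cancel₀ e5, one_smul]
            rfl
          have e7 : (f m) l = (N : ℝ)⁻¹ • (l1 + (m + 1) • l2) := e4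
          rw [e7]
          exact Submodule.smul_mem _ _ e3
        | zero => rw [map_zero]; exact Submodule.zero_mem _
        | add x y hx' hy' ih1 ih2 =>
          have kx : x ∈ K3 := by
            have : x ∈ K3.restrictScalars ℝ := by rw [d3]; exact hx'
            exact this
          have ky : y ∈ K3 := by
            have : y ∈ K3.restrictScalars ℝ := by rw [d3]; exact hy'
            exact this
          rw [map_add]
          exact Submodule.add_mem _ (ih1 kx) (ih2 ky)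
        | smul c x hx' ih =>
          have kx : x ∈ K3 := by
            have : x ∈ K3.restrictScalars ℝ := by rw [d3]; exact hx'
            exact this
          have e8 : f m (c • x) = c • f m x := ((f m).restrictScalars ℝ).map_smul c x
          rw [e8]
          exact Submodule.smul_mem _ _ (ih kx)
      · rw [Submodule.span_le]
        rintro x ⟨_, hx⟩
        exact hx
  refine Set.infinite_of_injective_forall_mem (f := K) ?_ hK
  intro m m' hmm
  obtain ⟨x, hx, hx0⟩ := (Submodule.ne_bot_iff K3).1 a3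
  have e1 : f m x ∈ K m' := by
    rw [← hmm]
    exact ⟨x, hx, rfl⟩
  obtain ⟨y, hy, hxy⟩ := e1
  have e2 : P y = P x := by rw [← hPf m' y, hxy, hPf]
  have e3 : y - x ∈ K2 := by
    rw [← hP4, map_sub, e2, sub_self]
  have e4 : y = x := by
    have := (Submodule.disjoint_def.1 c23.disjoint) (y - x) e3 (K3.sub_mem hy hx)
    exact sub_eq_zero.1 this
  rw [e4, hf, hf] at hxy
  have e5 : x - P x ≠ 0 := by
    intro h
    have h5 : x ∈ K1 := by
      rw [sub_eq_zero.1 h]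
      exact hP1 x
    exact hx0 ((Submodule.disjoint_def.1 c13.disjoint) x h5 hx)
  have e6 : ((m' : ℂ) + 1) • (x - P x) = ((m : ℂ) + 1) • (x - P x) := add_left_cancel hxy
  have e7 := smul_left_injective ℂ e5 e6
  have e8 : (m' : ℂ) = m := add_right_cancel e7
  exact_mod_cast e8.symm

end Pool.Agent.MP_e4ecdb_ag.QC

namespace Pool.Agent.MP_e4ecdb_ag.TQ

open BB QD QC

variable {V : Type} [NormedAddCommGroup V] [NormedSpace ℂ V] [FiniteDimensional ℂ V]
  {Γ : Subgroup (V ≃ᵃ[ℂ] V)} {σ : LinearMap.BilinForm ℂ V}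

/-- The rational stable subspaces of a primitive symplectic torus quotient are Lagrangian; their
number is 0, 1, 2 or infinite, it is 0 if `dim H^{1,1} = 1` and at most 2 if `dim H^{1,1} = 2`. -/
theorem ratStable_card (hΓ : IsCrystallographic Γ) (hσ : IsPrimSympl Γ σ) :
    (∀ K ∈ RatStable Γ, (∀ x ∈ K, ∀ y ∈ K, σ x y = 0) ∧ 2 * finrank ℂ K = finrank ℂ V) ∧
    ((RatStable Γ).Finite → (RatStable Γ).ncard ≤ 2) ∧
    (finrank ℝ (H11 Γ) = 1 → RatStable Γ = ∅) ∧
    (finrank ℝ (H11 Γ) = 2 → (RatStable Γ).Finite) := by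
  have hfin := finite_LG hΓ
  refine ⟨?_, ?_, ?_, ?_⟩
  · rintro K ⟨h1, h2, h3, -⟩
    exact stable_lagr (prim hσ) (stable_of h3) h1 h2
  · intro hf
    by_contra hcon
    push Not at hcon
    obtain ⟨K1, K2, K3, h1, h2, h3, n12, n13, n23⟩ := (Set.two_lt_ncard_iff hf).1 hcon
    exact infinite_of_three hΓ hσ h1 h2 h3 n12 n13 n23 hf
  · intro hr
    have hr0 : 0 < finrank ℝ (H11 Γ) := by omega
    have hfd : Module.Finite ℝ (H11 Γ) := finite_H11 hr0
    rw [Set.eq_empty_iff_forall_notMem]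
    rintro K ⟨h1, h2, h3, -⟩
    have := finrank_two hΓ hfd (stable_of h3) h1 h2
    omega
  · intro hr
    have hr0 : 0 < finrank ℝ (H11 Γ) := by omega
    have hfd : Module.Finite ℝ (H11 Γ) := finite_H11 hr0
    by_contra hinf
    obtain ⟨t, ht1, ht2, ht3⟩ := (show (RatStable Γ).Infinite from hinf).exists_subset_ncard_eq 3
    obtain ⟨K1, K2, K3, h1, h2, h3, n12, n13, n23⟩ :=
      (Set.two_lt_ncard_iff ht2).1 (by omega)
    obtain ⟨a1, b1, c1, -⟩ := ht1 h1
    obtain ⟨a2, b2, c2, -⟩ := ht1 h2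
    obtain ⟨a3, b3, c3, -⟩ := ht1 h3
    have c12 := stable_compl (prim hσ) (stable_of c1) a1 b1 (stable_of c2) a2 b2 n12
    have c13 := stable_compl (prim hσ) (stable_of c1) a1 b1 (stable_of c3) a3 b3 n13
    have c23 := stable_compl (prim hσ) (stable_of c2) a2 b2 (stable_of c3) a3 b3 n23
    have := finrank_three hΓ hfd (stable_of c1) (stable_of c2) (stable_of c3) a1 a2 a3
      c12.disjoint c13.disjoint c23.disjoint
    omega

end Pool.Agent.MP_e4ecdb_ag.TQ
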