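import Pool.Agent.MP_e4ecdb_ag.DShear
import Pool.Agent.MP_e4ecdb_ag.QCount
open Module

namespace Pool.Agent.MP_e4ecdb_ag.DF

open BB

variable {V : Type} [NormedAddCommGroup V] [NormedSpace ℂ V] {G : Type} [Group G]

/-- `a` maps the lattice into its rational multiples -/
def Rat (Λ : Submodule ℤ V) (a : V →ₗ[ℝ] V) : Prop := ∃ N : ℕ, 1 ≤ N ∧ ∀ x ∈ Λ, N • a x ∈ Λ

lemma rat_sum {κ : Type} [Fintype κ] {Λ : Submodule ℤ V} (E : κ → V →ₗ[ℝ] V)
    (hE : ∀ k, Rat Λ (E k)) (q : κ → ℚ) : Rat Λ (∑ k, ((q k : ℚ) : ℝ) • E k) := by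
  classical
  choose N hN1 hN2 using hE
  -- a common denominator
  refine ⟨∏ k, ((q k).den * N k), Nat.one_le_iff_ne_zero.2 (Finset.prod_ne_zero_iff.2 fun k _ =>
    Nat.mul_ne_zero (q k).den_nz (Nat.one_le_iff_ne_zero.1 (hN1 k))), fun x hx => ?_⟩
  rw [LinearMap.sum_apply, Finset.smul_sum]
  refine Λ.sum_mem fun k _ => ?_
  rw [← Finset.mul_prod_erase _ _ (Finset.mem_univ k)]
  set M := ∏ k ∈ Finset.univ.erase k, ((q k).den * N k) with hM
  have h1 : (((q k).den * N k * M : ℕ)) • ((((q k : ℚ) : ℝ) • E k) x) =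
      ((q k).num * (M : ℤ)) • (N k • E k x) := by
    rw [LinearMap.smul_apply, ← Nat.cast_smul_eq_nsmul ℝ, ← Nat.cast_smul_eq_nsmul ℝ,
      ← Int.cast_smul_eq_zsmul ℝ, smul_smul, smul_smul]
    congr 1
    have h2 : ((q k : ℚ) : ℝ) * ((q k).den : ℝ) = ((q k).num : ℝ) := by
      have := Rat.mul_den_eq_num (q k)
      exact_mod_cast this
    push_cast
    rw [← h2]
    ring
  rw [h1]
  exact Λ.smul_mem _ (hN2 k x hx)

/-- finitely many rational equivariant maps span the equivariant real-linear maps -/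
lemma exists_span [Finite G] (ρ : Representation ℂ G V) {ι : Type} [Fintype ι]
    (b : Basis ι ℝ V) (hΛ : ∀ g, ∀ x ∈ Submodule.span ℤ (Set.range b), ρ g x ∈ Submodule.span ℤ (Set.range b)) :
    ∃ E : ι × ι → (V →ₗ[ℝ] V), (∀ k, (∀ g x, E k (ρ g x) = ρ g (E k x)) ∧
      Rat (Submodule.span ℤ (Set.range b)) (E k)) ∧
      ∀ T : V →ₗ[ℝ] V, (∀ g x, T (ρ g x) = ρ g (T x)) → ∃ t : ι × ι → ℝ, T = ∑ k, t k • E k := by
  classical
  have := Fintype.ofFinite G
  set Λ := Submodule.span ℤ (Set.range b) with hΛdef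
  have hn : (Fintype.card G : ℝ) ≠ 0 := by
    exact_mod_cast Fintype.card_ne_zero
  let R : G → (V →ₗ[ℝ] V) := fun g => (ρ g).restrictScalars ℝ
  have hR : ∀ g x, R g x = ρ g x := fun g x => rfl
  let avg : (V →ₗ[ℝ] V) → (V →ₗ[ℝ] V) := fun f =>
    (Fintype.card G : ℝ)⁻¹ • ∑ g : G, (R g) ∘ₗ f ∘ₗ (R g⁻¹)
  have havg : ∀ f x, avg f x = (Fintype.card G : ℝ)⁻¹ • ∑ g : G, ρ g (f (ρ g⁻¹ x)) := by
    intro f x
    simp [avg, LinearMap.sum_apply, hR]
  have hinv : ∀ g x, ρ g (ρ g⁻¹ x) = x := by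
    intro g x
    rw [← Module.End.mul_apply, ← map_mul, mul_inv_cancel, map_one]
    rfl
  have hcomm : ∀ f g x, avg f (ρ g x) = ρ g (avg f x) := by
    intro f h x
    have hs : ∀ (r : ℝ) (y : V), ρ h (r • y) = r • ρ h y := fun r y => (R h).map_smul r y
    rw [havg, havg, hs, map_sum]
    congr 1
    refine Finset.sum_bij' (fun g _ => h⁻¹ * g) (fun g _ => h * g) ?_ ?_ ?_ ?_ ?_
    · simp
    · simp
    · simp
    · simp
    · intro g _
      have e1 : ρ h (ρ (h⁻¹ * g) (f (ρ (h⁻¹ * g)⁻¹ x))) = ρ g (f (ρ (h⁻¹ * g)⁻¹ x)) := by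
        rw [← Module.End.mul_apply, ← map_mul, mul_inv_cancel_left]
      rw [e1]
      congr 2
      rw [← Module.End.mul_apply, ← map_mul, mul_inv_rev, inv_inv]
  let E0 : ι × ι → (V →ₗ[ℝ] V) := fun k => (b.coord k.1).smulRight (b k.2)
  have hE0 : ∀ k x, E0 k x = b.repr x k.1 • b k.2 := fun k x => rfl
  refine ⟨fun k => avg (E0 k), fun k => ⟨hcomm _, Fintype.card G, Fintype.card_pos, fun x hx => ?_⟩,
    fun T hT => ?_⟩
  · have h1 : Fintype.card G • avg (E0 k) x = ∑ g : G, ρ g (E0 k (ρ g⁻¹ x)) := by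
      rw [havg, ← Nat.cast_smul_eq_nsmul ℝ, smul_smul, mul_inv_cancel₀ hn, one_smul]
    rw [h1]
    refine Λ.sum_mem fun g _ => hΛ g _ ?_
    have h2 := hΛ g⁻¹ x hx
    rw [hE0]
    obtain ⟨n, hn'⟩ := (b.mem_span_iff_repr_mem ℤ (ρ g⁻¹ x)).1 h2 k.1
    rw [← hn']
    have h3 : (algebraMap ℤ ℝ n) • b k.2 = n • b k.2 := by
      rw [algebraMap_smul]
    rw [h3]
    exact Λ.smul_mem _ (Submodule.subset_span ⟨_, rfl⟩)
  · refine ⟨fun k => b.repr (T (b k.1)) k.2, ?_⟩
    have hTavg : avg T = T := by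
      ext x
      rw [havg]
      have : ∀ g ∈ (Finset.univ : Finset G), ρ g (T (ρ g⁻¹ x)) = T x := by
        intro g _
        rw [← hT, hinv]
      rw [Finset.sum_congr rfl this, Finset.sum_const, Finset.card_univ, ← Nat.cast_smul_eq_nsmul ℝ,
        smul_smul, inv_mul_cancel₀ hn, one_smul]
    have hT0 : T = ∑ k, b.repr (T (b k.1)) k.2 • E0 k := by
      apply b.ext
      intro i
      rw [LinearMap.sum_apply, Fintype.sum_prod_type]
      simp only [LinearMap.smul_apply, hE0, Basis.repr_self]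
      rw [Finset.sum_eq_single i]
      · simp only [Finsupp.single_eq_same, one_smul]
        exact (b.sum_repr _).symm
      · intro j _ hj
        apply Finset.sum_eq_zero
        intro k _
        rw [Finsupp.single_eq_of_ne hj, zero_smul, smul_zero]
      · intro h
        exact absurd (Finset.mem_univ i) h
    conv_lhs => rw [← hTavg, hT0]
    ext x
    rw [havg, LinearMap.sum_apply]
    simp only [LinearMap.sum_apply, LinearMap.smul_apply, havg, map_sum]
    rw [Finset.sum_comm, Finset.smul_sum]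
    refine Finset.sum_congr rfl fun k _ => ?_
    have hs : ∀ (g : G) (r : ℝ) (y : V), ρ g (r • y) = r • ρ g y := fun g r y => (R g).map_smul r y
    simp only [hs]
    rw [← Finset.smul_sum, smul_comm]

lemma norm_bound [FiniteDimensional ℝ V] (f : V →ₗ[ℝ] V) : ∃ C : ℝ, 0 < C ∧ ∀ x, ‖f x‖ ≤ C * ‖x‖ := by
  refine ⟨‖LinearMap.toContinuousLinearMap f‖ + 1, by positivity, fun x => ?_⟩
  have h1 := (LinearMap.toContinuousLinearMap f).le_opNorm x
  have h2 : (LinearMap.toContinuousLinearMap f) x = f x := rfl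
  rw [h2] at h1
  nlinarith [norm_nonneg x]

/-- the rational equivariant maps are dense in the equivariant real-linear maps -/
lemma exists_rat_near [Finite G] (ρ : Representation ℂ G V) {ι : Type} [Fintype ι]
    (b : Basis ι ℝ V) (hΛ : ∀ g, ∀ x ∈ Submodule.span ℤ (Set.range b), ρ g x ∈ Submodule.span ℤ (Set.range b))
    (T : V →ₗ[ℝ] V) (hT : ∀ g x, T (ρ g x) = ρ g (T x)) {ε : ℝ} (hε : 0 < ε) :
    ∃ a : V →ₗ[ℝ] V, (∀ g x, a (ρ g x) = ρ g (a x)) ∧ Rat (Submodule.span ℤ (Set.range b)) a ∧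
      ∀ x, ‖a x - T x‖ ≤ ε * ‖x‖ := by
  classical
  have : FiniteDimensional ℝ V := Module.Finite.of_basis b
  obtain ⟨E, hE, hspan⟩ := exists_span ρ b hΛ
  obtain ⟨t, ht⟩ := hspan T hT
  choose C hC0 hC using fun k => norm_bound (E k)
  set S : ℝ := ∑ k, C k with hS
  have hS0 : 0 ≤ S := Finset.sum_nonneg fun k _ => (hC0 k).le
  have hδ : 0 < ε / (S + 1) := by positivity
  have hq : ∀ k, ∃ q : ℚ, |((q : ℚ) : ℝ) - t k| < ε / (S + 1) := by
    intro k
    obtain ⟨q, hq1, hq2⟩ := exists_rat_btwn (show t k - ε / (S + 1) < t k + ε / (S + 1) by linarith)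
    exact ⟨q, by rw [abs_lt]; constructor <;> linarith⟩
  choose q hq using hq
  refine ⟨∑ k, ((q k : ℚ) : ℝ) • E k, fun g x => ?_, rat_sum E (fun k => (hE k).2) q, fun x => ?_⟩
  · rw [LinearMap.sum_apply, LinearMap.sum_apply, map_sum]
    refine Finset.sum_congr rfl fun k _ => ?_
    rw [LinearMap.smul_apply, LinearMap.smul_apply, (hE k).1]
    exact (((ρ g).restrictScalars ℝ).map_smul _ _).symm
  · rw [ht, LinearMap.sum_apply, LinearMap.sum_apply, ← Finset.sum_sub_distrib]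
    calc ‖∑ k, ((((q k : ℚ) : ℝ) • E k) x - (t k • E k) x)‖
        ≤ ∑ k, ‖(((q k : ℚ) : ℝ) • E k) x - (t k • E k) x‖ := norm_sum_le _ _
      _ ≤ ∑ k, ε / (S + 1) * (C k * ‖x‖) := by
          refine Finset.sum_le_sum fun k _ => ?_
          rw [LinearMap.smul_apply, LinearMap.smul_apply, ← sub_smul, norm_smul, Real.norm_eq_abs]
          exact mul_le_mul (hq k).le (hC k x) (norm_nonneg _) hδ.le
      _ = ε / (S + 1) * S * ‖x‖ := by
          rw [← Finset.mul_sum, ← Finset.sum_mul, ← hS]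
          ring
      _ ≤ ε * ‖x‖ := by
          apply mul_le_mul_of_nonneg_right _ (norm_nonneg x)
          rw [div_mul_eq_mul_div, div_le_iff₀ (by positivity)]
          nlinarith

/-- the preimage of a rational subspace under a rational automorphism is rational -/
lemma rat_preimage {ι : Type} [Fintype ι] (b : Basis ι ℝ V) {a : V →ₗ[ℝ] V}
    (ha : Rat (Submodule.span ℤ (Set.range b)) a) (hinj : Function.Injective a) {W : Submodule ℝ V}
    (hW : W ≤ Submodule.span ℝ {x | x ∈ Submodule.span ℤ (Set.range b) ∧ x ∈ W}) :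
    W.comap a ≤ Submodule.span ℝ {x | x ∈ Submodule.span ℤ (Set.range b) ∧ x ∈ W.comap a} := by
  classical
  obtain ⟨N, hN1, hN⟩ := ha
  set Λ : Submodule ℤ V := Submodule.span ℤ (Set.range b) with hΛ
  have : FiniteDimensional ℝ V := Module.Finite.of_basis b
  have hfin : Module.Finite ℤ Λ := Module.Finite.span_of_finite ℤ (Set.finite_range b)
  have : IsAddTorsionFree V := torsionFree_of_real V
  have hfree : Module.Free ℤ Λ := inferInstance
  -- the map `N a` on the lattice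
  let f : Λ →ₗ[ℤ] Λ :=
    { toFun := fun x => ⟨N • a x, hN x x.2⟩
      map_add' := fun x y => by
        apply Subtype.ext
        change N • a ((x : V) + y) = N • a x + N • a y
        rw [map_add, smul_add]
      map_smul' := fun n x => by
        apply Subtype.ext
        change N • a (n • (x : V)) = n • (N • a x)
        rw [map_zsmul, smul_comm] }
  have hf : Function.Injective f := by
    rw [injective_iff_map_eq_zero]
    intro x hx
    have h1 : N • a x = 0 := congrArg Subtype.val hx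
    rw [← Nat.cast_smul_eq_nsmul ℝ] at h1
    rcases smul_eq_zero.1 h1 with h2 | h2
    · exfalso
      have : (N : ℝ) ≠ 0 := by exact_mod_cast Nat.one_le_iff_ne_zero.1 hN1
      exact this h2
    · apply Subtype.ext
      exact hinj (by rw [h2]; exact (map_zero a).symm)
  have heq : finrank ℤ (LinearMap.range f) = finrank ℤ Λ := LinearMap.finrank_range_of_inj hf
  have hq : Finite (Λ ⧸ LinearMap.range f) := Submodule.finiteQuotientOfFreeOfRankEq _ heq
  set M := Nat.card (Λ ⧸ LinearMap.range f) with hM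
  have hMpos : 0 < M := Nat.card_pos
  have key : ∀ y ∈ Λ, ∃ x ∈ Λ, M • y = N • a x := by
    intro y hy
    have h1 : M • (⟨y, hy⟩ : Λ) ∈ LinearMap.range f := by
      rw [← Submodule.Quotient.mk_eq_zero, Submodule.Quotient.mk_smul]
      exact card_nsmul_eq_zero'
    obtain ⟨x, hx⟩ := h1
    refine ⟨x, x.2, ?_⟩
    have := congrArg Subtype.val hx
    exact this.symm
  have hM0 : (M : ℝ) ≠ 0 := by exact_mod_cast hMpos.ne'
  have hN0 : (N : ℝ) ≠ 0 := by exact_mod_cast Nat.one_le_iff_ne_zero.1 hN1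
  set S := Submodule.span ℝ {x | x ∈ Λ ∧ x ∈ W.comap a} with hS
  have hle : W ≤ S.map a := by
    refine hW.trans (Submodule.span_le.2 ?_)
    rintro y ⟨hy, hyW⟩
    obtain ⟨x, hx, hxy⟩ := key y hy
    have h1 : a x = ((M : ℝ) / N) • y := by
      rw [← Nat.cast_smul_eq_nsmul ℝ, ← Nat.cast_smul_eq_nsmul ℝ] at hxy
      rw [div_eq_inv_mul, mul_smul, hxy, smul_smul, inv_mul_cancel₀ hN0, one_smul]
    have hxW : x ∈ W.comap a := by
      rw [Submodule.mem_comap, h1]
      exact W.smul_mem _ hyW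
    refine ⟨((N : ℝ) / M) • x, S.smul_mem _ (Submodule.subset_span ⟨hx, hxW⟩), ?_⟩
    rw [map_smul, h1, smul_smul, div_mul_div_cancel₀ hM0, div_self hN0, one_smul]
  intro x hx
  obtain ⟨z, hz, hzx⟩ := hle (Submodule.mem_comap.1 hx)
  rw [← hinj hzx]
  exact hz

end Pool.Agent.MP_e4ecdb_ag.DF
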