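import Pool.Agent.MP_e4ecdb_ag.DReal
open Module

/-! The real-linear endomorphisms commuting with the group: their dimension is `4 h^{1,1}`. -/

namespace Pool.Agent.MP_e4ecdb_ag.DF

open BB

variable {V : Type} [AddCommGroup V] [Module ℂ V] {G : Type} [Group G]

/-- the real-linear endomorphisms commuting with the group -/
def Cm (ρ : Representation ℂ G V) : Submodule ℝ (V →ₗ[ℝ] V) where
  carrier := {T | ∀ g x, T (ρ g x) = ρ g (T x)}
  add_mem' := by
    intro T T' h h' g x
    rw [LinearMap.add_apply, LinearMap.add_apply, h, h', map_add]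
  zero_mem' := by
    intro g x
    rw [LinearMap.zero_apply, LinearMap.zero_apply, map_zero]
  smul_mem' := by
    intro c T h g x
    rw [LinearMap.smul_apply, LinearMap.smul_apply, h]
    exact (((ρ g).restrictScalars ℝ).map_smul c (T x)).symm

lemma mem_Cm {ρ : Representation ℂ G V} {T : V →ₗ[ℝ] V} :
    T ∈ Cm ρ ↔ ∀ g x, T (ρ g x) = ρ g (T x) := Iff.rfl

variable [FiniteDimensional ℂ V]

/-- an equivariant antilinear automorphism -/
lemma exists_J {ρ : Representation ℂ G V} {σ : LinearMap.BilinForm ℂ V}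
    (hσ : IsPrimitiveSymplectic ρ σ) {h : V →ₗ⋆[ℂ] V →ₗ[ℂ] ℂ}
    (hp : ∀ x, x ≠ 0 → 0 < (h x x).re) (hh : h ∈ InvHerm ρ) :
    ∃ J : V →ₗ[ℝ] V, (∀ x, J (Complex.I • x) = -(Complex.I • J x)) ∧
      (∀ g x, J (ρ g x) = ρ g (J x)) ∧ Function.Bijective J := by
  have : FiniteDimensional ℝ V := FiniteDimensional.complexToReal V
  set E := LinearEquiv.ofBijective h (surj_of_pos hp) with hE
  have hEs : ∀ x y, h (E.symm (σ x)) y = σ x y := by
    intro x y
    have h1 : h (E.symm (σ x)) = σ x := E.apply_symm_apply (σ x)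
    rw [h1]
  let J : V →ₗ[ℝ] V :=
    { toFun := fun x => E.symm (σ x)
      map_add' := fun x y => by rw [map_add, map_add]
      map_smul' := fun c x => by
        have h1 : σ (c • x) = (c : ℂ) • σ x := σ.map_smul (c : ℂ) x
        rw [h1, LinearEquiv.map_smulₛₗ]
        simp }
  have hJ : ∀ x y, h (J x) y = σ x y := hEs
  have hinj : Function.Injective J := by
    rw [injective_iff_map_eq_zero]
    intro x hx
    apply hσ.nondeg
    intro y
    rw [← hJ, hx, map_zero, LinearMap.zero_apply]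
  refine ⟨J, fun x => ?_, fun g x => ?_, hinj, LinearMap.injective_iff_surjective.1 hinj⟩
  · apply (surj_of_pos hp).1
    apply LinearMap.ext
    intro y
    rw [hJ, map_smul, LinearMap.smul_apply, map_neg, LinearMap.map_smulₛₗ, LinearMap.neg_apply,
      LinearMap.smul_apply, hJ, Complex.conj_I, smul_eq_mul, smul_eq_mul]
    ring
  · apply (surj_of_pos hp).1
    apply LinearMap.ext
    intro y
    have h1 : y = ρ g (ρ g⁻¹ y) := by
      rw [← Module.End.mul_apply, ← map_mul, mul_inv_cancel, map_one]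
      rfl
    rw [hJ, h1, hσ.inv, hh.2, hJ]

omit [FiniteDimensional ℂ V] in
lemma smulR (r : ℝ) (x : V) : r • x = (r : ℂ) • x := rfl

/-- a complex-linear equivariant map is a sum of a selfadjoint and a skew one -/
lemma split_herm {ρ : Representation ℂ G V} {h : V →ₗ⋆[ℂ] V →ₗ[ℂ] ℂ}
    (hp : ∀ x, x ≠ 0 → 0 < (h x x).re) (hh : h ∈ InvHerm ρ) (A : V →ₗ[ℂ] V)
    (hA : ∀ g x, A (ρ g x) = ρ g (A x)) :
    ∃ H1 ∈ InvHerm ρ, ∃ H2 ∈ InvHerm ρ, ∀ x, A x = op hp H1 x + Complex.I • op hp H2 x := by
  let S : V →ₗ⋆[ℂ] V →ₗ[ℂ] ℂ := h.comp A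
  let S' : V →ₗ⋆[ℂ] V →ₗ[ℂ] ℂ := LinearMap.mk₂'ₛₗ (starRingEnd ℂ) (RingHom.id ℂ)
    (fun x y => h x (A y))
    (by
      intro x x' y
      rw [map_add, LinearMap.add_apply])
    (by
      intro c x y
      rw [LinearMap.map_smulₛₗ, LinearMap.smul_apply])
    (by
      intro x y y'
      rw [map_add, map_add])
    (by
      intro c x y
      rw [map_smul, map_smul, RingHom.id_apply])
  have hS : ∀ x y, S x y = h (A x) y := fun x y => rfl
  have hS' : ∀ x y, S' x y = h x (A y) := fun x y => rfl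
  refine ⟨(1 / 2 : ℂ) • (S + S'), ⟨fun x y => ?_, fun g x y => ?_⟩,
    (Complex.I / 2 : ℂ) • (S - S'), ⟨fun x y => ?_, fun g x y => ?_⟩, fun x => ?_⟩
  · have e3 : (starRingEnd ℂ) (1 / 2 : ℂ) = 1 / 2 := by
      rw [map_div₀, map_one, map_ofNat]
    simp only [LinearMap.smul_apply, LinearMap.add_apply, hS, hS', smul_eq_mul, map_mul, map_add]
    rw [← hh.1 x (A y), ← hh.1 (A x) y, e3]
    ring
  · simp only [LinearMap.smul_apply, LinearMap.add_apply, hS, hS', hA, hh.2]
  · have e3 : (starRingEnd ℂ) (Complex.I / 2 : ℂ) = -(Complex.I / 2) := by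
      rw [map_div₀, Complex.conj_I, map_ofNat, neg_div]
    simp only [LinearMap.smul_apply, LinearMap.sub_apply, hS, hS', smul_eq_mul, map_mul, map_sub]
    rw [← hh.1 x (A y), ← hh.1 (A x) y, e3]
    ring
  · simp only [LinearMap.smul_apply, LinearMap.sub_apply, hS, hS', hA, hh.2]
  · apply (surj_of_pos hp).1
    apply LinearMap.ext
    intro y
    rw [map_add, LinearMap.add_apply, LinearMap.map_smulₛₗ, LinearMap.smul_apply, op_spec, op_spec,
      LinearMap.smul_apply, LinearMap.smul_apply, LinearMap.smul_apply, LinearMap.smul_apply,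
      LinearMap.add_apply, LinearMap.add_apply, LinearMap.sub_apply, LinearMap.sub_apply, hS, hS',
      Complex.conj_I, smul_eq_mul, smul_eq_mul, smul_eq_mul]
    linear_combination ((h (A x) y - h x (A y)) / 2) * Complex.I_mul_I

/-- composition on the left -/
def lc (f : V →ₗ[ℝ] V) : (V →ₗ[ℝ] V) →ₗ[ℝ] (V →ₗ[ℝ] V) where
  toFun T := f ∘ₗ T
  map_add' T T' := by
    ext x
    simp
  map_smul' c T := by
    ext x
    simp

/-- multiplication by `i` -/
def mI : V →ₗ[ℝ] V where
  toFun x := Complex.I • x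
  map_add' x y := smul_add _ _ _
  map_smul' c x := by
    rw [RingHom.id_apply]
    exact smul_comm _ _ _

/-- the dimension of the real commutant -/
theorem finrank_Cm [Finite G] {ρ : Representation ℂ G V} {σ : LinearMap.BilinForm ℂ V}
    (hσ : IsPrimitiveSymplectic ρ σ) {h : V →ₗ⋆[ℂ] V →ₗ[ℂ] ℂ}
    (hp : ∀ x, x ≠ 0 → 0 < (h x x).re) (hh : h ∈ InvHerm ρ)
    (hfin : Module.Finite ℝ (InvHerm ρ)) :
    finrank ℝ (Cm ρ) = 4 * finrank ℝ (InvHerm ρ) := by
  have : FiniteDimensional ℝ V := FiniteDimensional.complexToReal V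
  obtain ⟨J, hJI, hJG, hJinj, hJsur⟩ := exists_J hσ hp hh
  let q : InvHerm ρ →ₗ[ℝ] (V →ₗ[ℝ] V) :=
    { toFun := fun H => (op hp H.1).restrictScalars ℝ
      map_add' := fun H H' => by
        ext x
        exact congrArg (fun f : V →ₗ[ℂ] V => f x) ((opL hp).map_add H.1 H'.1)
      map_smul' := fun c H => by
        ext x
        exact congrArg (fun f : V →ₗ[ℂ] V => f x) ((opL hp).map_smul c H.1) }
  have hq : ∀ H x, q H x = op hp H.1 x := fun H x => rfl
  let Θ : ((InvHerm ρ × InvHerm ρ) × (InvHerm ρ × InvHerm ρ)) →ₗ[ℝ] (V →ₗ[ℝ] V) :=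
    (q.coprod (lc mI ∘ₗ q)).coprod (lc J ∘ₗ (q.coprod (lc mI ∘ₗ q)))
  have hΘ : ∀ p x, Θ p x = (op hp p.1.1.1 x + Complex.I • op hp p.1.2.1 x) +
      J (op hp p.2.1.1 x + Complex.I • op hp p.2.2.1 x) := fun p x => rfl
  -- injectivity
  have hself : ∀ H ∈ InvHerm ρ, ∀ x y, h (op hp H x) y = h x (op hp H y) :=
    fun H hH x y => op_self hp hh.1 hH.1 x y
  have key : ∀ H1 H2 : InvHerm ρ, (∀ x, op hp H1.1 x + Complex.I • op hp H2.1 x = 0) →
      H1 = 0 ∧ H2 = 0 := by
    intro H1 H2 h0
    have h2 : ∀ x y, h x (op hp H2.1 y) = 0 := by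
      intro x y
      have e1 : op hp H1.1 x = -(Complex.I • op hp H2.1 x) := eq_neg_of_add_eq_zero_left (h0 x)
      have e2 : op hp H1.1 y = -(Complex.I • op hp H2.1 y) := eq_neg_of_add_eq_zero_left (h0 y)
      have e3 := hself H1.1 H1.2 x y
      rw [e1, e2, map_neg, map_neg, LinearMap.neg_apply, LinearMap.map_smulₛₗ,
        LinearMap.smul_apply, map_smul, hself H2.1 H2.2, Complex.conj_I, smul_eq_mul,
        smul_eq_mul] at e3
      have e4 : (2 * Complex.I) * h x (op hp H2.1 y) = 0 := by linear_combination e3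
      exact (mul_eq_zero.1 e4).resolve_left (mul_ne_zero two_ne_zero Complex.I_ne_zero)
    have h3 : ∀ y, op hp H2.1 y = 0 := by
      intro y
      by_contra hne
      have h4 := hp _ hne
      rw [h2] at h4
      simp at h4
    have h5 : ∀ y, op hp H1.1 y = 0 := by
      intro y
      have := h0 y
      rwa [h3, smul_zero, add_zero] at this
    constructor
    · apply Subtype.ext
      apply LinearMap.ext
      intro x
      apply LinearMap.ext
      intro y
      rw [← op_spec hp, h5, map_zero]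
      rfl
    · apply Subtype.ext
      apply LinearMap.ext
      intro x
      apply LinearMap.ext
      intro y
      rw [← op_spec hp, h3, map_zero]
      rfl
  have hinj : Function.Injective Θ := by
    rw [injective_iff_map_eq_zero]
    rintro ⟨⟨H1, H2⟩, ⟨H3, H4⟩⟩ h0
    have h1 : ∀ x, (op hp H1.1 x + Complex.I • op hp H2.1 x) +
        J (op hp H3.1 x + Complex.I • op hp H4.1 x) = 0 := by
      intro x
      have := congrArg (fun f : V →ₗ[ℝ] V => f x) h0
      exact this
    have h2 : ∀ x, (op hp H1.1 x + Complex.I • op hp H2.1 x) -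
        J (op hp H3.1 x + Complex.I • op hp H4.1 x) = 0 := by
      intro x
      have e1 := h1 (Complex.I • x)
      have e2 : (op hp H1.1 (Complex.I • x) + Complex.I • op hp H2.1 (Complex.I • x)) =
          Complex.I • (op hp H1.1 x + Complex.I • op hp H2.1 x) := by
        rw [map_smul, map_smul, smul_add]
      have e3 : (op hp H3.1 (Complex.I • x) + Complex.I • op hp H4.1 (Complex.I • x)) =
          Complex.I • (op hp H3.1 x + Complex.I • op hp H4.1 x) := by
        rw [map_smul, map_smul, smul_add]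
      rw [e2, e3, hJI, ← sub_eq_add_neg, ← smul_sub] at e1
      exact (smul_eq_zero.1 e1).resolve_left Complex.I_ne_zero
    have h3 : ∀ x, op hp H1.1 x + Complex.I • op hp H2.1 x = 0 := by
      intro x
      have e1 : (2 : ℂ) • (op hp H1.1 x + Complex.I • op hp H2.1 x) = 0 := by
        have := congrArg₂ (· + ·) (h1 x) (h2 x)
        simp only [add_zero] at this
        rw [← this, two_smul]
        abel
      exact (smul_eq_zero.1 e1).resolve_left two_ne_zero
    have h4 : ∀ x, op hp H3.1 x + Complex.I • op hp H4.1 x = 0 := by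
      intro x
      have e1 := h1 x
      rw [h3, zero_add] at e1
      exact hJinj (by rw [e1, map_zero])
    obtain ⟨rfl, rfl⟩ := key H1 H2 h3
    obtain ⟨rfl, rfl⟩ := key H3 H4 h4
    rfl
  -- the range
  have hrange : LinearMap.range Θ = Cm ρ := by
    apply le_antisymm
    · rintro _ ⟨p, rfl⟩
      rw [mem_Cm]
      intro g x
      rw [hΘ, hΘ, op_comm hp hh p.1.1.2, op_comm hp hh p.1.2.2, op_comm hp hh p.2.1.2,
        op_comm hp hh p.2.2.2, map_add (ρ g), map_add (ρ g), (ρ g).map_smul, ← hJG,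
        map_add (ρ g), (ρ g).map_smul]
    · intro T hT
      rw [mem_Cm] at hT
      let Ji : V ≃ₗ[ℝ] V := LinearEquiv.ofBijective J ⟨hJinj, hJsur⟩
      have hJi : ∀ x, J (Ji.symm x) = x := fun x => Ji.apply_symm_apply x
      have hJi' : ∀ x, Ji.symm (Complex.I • x) = -(Complex.I • Ji.symm x) := by
        intro x
        apply hJinj
        rw [hJi, map_neg, hJI, hJi, neg_neg]
      have hJiG : ∀ g x, Ji.symm (ρ g x) = ρ g (Ji.symm x) := by
        intro g x
        apply hJinj
        rw [hJi, hJG, hJi]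
      have hsc : ∀ (T : V →ₗ[ℝ] V) (hTI : ∀ x, T (Complex.I • x) = Complex.I • T x) (c : ℂ) (x : V),
          T (c • x) = c • T x := by
        intro T hTI c x
        rw [smul_split c x, map_add, hTI, map_smul, map_smul, smul_split c (T x)]
      have hI2 : ∀ x : V, Complex.I • (Complex.I • x) = -x := I_smul_I
      let A0 : V →ₗ[ℝ] V := (1 / 2 : ℝ) • (T - mI ∘ₗ T ∘ₗ mI)
      have hA0 : ∀ x, A0 x = (1 / 2 : ℝ) • (T x - Complex.I • T (Complex.I • x)) := fun x => rfl
      have hA0I : ∀ x, A0 (Complex.I • x) = Complex.I • A0 x := by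
        intro x
        rw [hA0, hA0, hI2 x, map_neg, smul_neg, sub_neg_eq_add, I_smul_real,
          smul_sub Complex.I (T x), hI2 (T (Complex.I • x)), sub_neg_eq_add, add_comm]
      let B0 : V →ₗ[ℝ] V := (1 / 2 : ℝ) • (T + mI ∘ₗ T ∘ₗ mI)
      have hB0 : ∀ x, B0 x = (1 / 2 : ℝ) • (T x + Complex.I • T (Complex.I • x)) := fun x => rfl
      have hB0I : ∀ x, B0 (Complex.I • x) = -(Complex.I • B0 x) := by
        intro x
        have k1 : B0 (Complex.I • x) = (1 / 2 : ℝ) • (T (Complex.I • x) - Complex.I • T x) := by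
          rw [hB0, hI2 x, map_neg, smul_neg, ← sub_eq_add_neg]
        have k2 : Complex.I • B0 x = (1 / 2 : ℝ) • (Complex.I • T x - T (Complex.I • x)) := by
          rw [hB0, I_smul_real, smul_add Complex.I (T x), hI2 (T (Complex.I • x)),
            ← sub_eq_add_neg]
        rw [k1, k2, ← smul_neg, neg_sub]
      let A : V →ₗ[ℂ] V :=
        { toFun := A0
          map_add' := A0.map_add
          map_smul' := fun c x => hsc A0 hA0I c x }
      let B : V →ₗ[ℂ] V :=
        { toFun := fun x => Ji.symm (B0 x)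
          map_add' := fun x y => by rw [map_add, map_add]
          map_smul' := fun c x => by
            exact hsc ((Ji.symm : V →ₗ[ℝ] V) ∘ₗ B0) (by
              intro x
              change Ji.symm (B0 (Complex.I • x)) = Complex.I • Ji.symm (B0 x)
              rw [hB0I, map_neg, hJi', neg_neg]) c x }
      have hA : ∀ x, A x = (1 / 2 : ℝ) • (T x - Complex.I • T (Complex.I • x)) := fun x => rfl
      have hB : ∀ x, J (B x) = (1 / 2 : ℝ) • (T x + Complex.I • T (Complex.I • x)) :=
        fun x => hJi _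
      have hρr : ∀ g (r : ℝ) (x : V), ρ g (r • x) = r • ρ g x :=
        fun g r x => ((ρ g).restrictScalars ℝ).map_smul r x
      have hAG : ∀ g x, A (ρ g x) = ρ g (A x) := by
        intro g x
        have e5 : T (Complex.I • ρ g x) = ρ g (T (Complex.I • x)) := by
          rw [← hT, (ρ g).map_smul]
        rw [hA, hA, hT, e5, hρr, map_sub (ρ g), (ρ g).map_smul]
      have hBG : ∀ g x, B (ρ g x) = ρ g (B x) := by
        intro g x
        apply hJinj
        have e5 : T (Complex.I • ρ g x) = ρ g (T (Complex.I • x)) := by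
          rw [← hT, (ρ g).map_smul]
        rw [hJG, hB, hB, hT, e5, hρr, map_add (ρ g), (ρ g).map_smul]
      obtain ⟨H1, m1, H2, m2, e1⟩ := split_herm hp hh A hAG
      obtain ⟨H3, m3, H4, m4, e2⟩ := split_herm hp hh B hBG
      refine ⟨((⟨H1, m1⟩, ⟨H2, m2⟩), (⟨H3, m3⟩, ⟨H4, m4⟩)), ?_⟩
      ext x
      rw [hΘ]
      change (op hp H1 x + Complex.I • op hp H2 x) + J (op hp H3 x + Complex.I • op hp H4 x) = T x
      rw [← e1, ← e2, hA, hB, ← smul_add]
      have e3 : T x - Complex.I • T (Complex.I • x) + (T x + Complex.I • T (Complex.I • x)) =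
          (2 : ℝ) • T x := by
        rw [two_smul]
        abel
      rw [e3, smul_smul]
      norm_num
  have hfree : Module.Free ℝ (InvHerm ρ) := by
    have := Module.Free.of_divisionRing ℝ (InvHerm ρ)
    exact this
  rw [← hrange, LinearMap.finrank_range_of_inj hinj, Module.finrank_prod, Module.finrank_prod]
  ring

end Pool.Agent.MP_e4ecdb_ag.DF
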