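import Pool.Agent.MP_e4ecdb_ag.DDense
import Pool.Agent.MP_e4ecdb_ag.DDim
open Module

/-! An irreducible lattice is a free module over a division algebra of dimension `4 h^{1,1}`. -/

namespace Pool.Agent.MP_e4ecdb_ag.DF

open BB

variable {V : Type} [NormedAddCommGroup V] [NormedSpace ℂ V] {G : Type} [Group G]

/-- `W` is spanned by lattice vectors -/
def RatSub {ι : Type} (b : Basis ι ℝ V) (W : Submodule ℝ V) : Prop :=
  W ≤ Submodule.span ℝ {x | x ∈ Submodule.span ℤ (Set.range b) ∧ x ∈ W}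

lemma ker_comb {ι κ : Type} [Fintype ι] [Fintype κ] (b : Basis ι ℝ V) (v : κ → V)
    (hv : ∀ k, v k ∈ Submodule.span ℤ (Set.range b)) (y : κ → ℝ) (hy : ∑ k, y k • v k = 0) :
    y ∈ Submodule.span ℝ {y : κ → ℝ | (∃ z : κ → ℤ, y = fun k => (z k : ℝ)) ∧
      ∑ k, y k • v k = 0} := by
  classical
  have h1 : ∀ k, ∃ M : ι → ℤ, ∑ i, M i • b i = v k := fun k =>
    (Submodule.mem_span_range_iff_exists_fun ℤ).1 (hv k)
  choose M hM using h1
  have h2 : ∀ y : κ → ℝ, ∑ k, y k • v k = ∑ i, (∑ k, y k * (M k i : ℝ)) • b i := by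
    intro y
    calc ∑ k, y k • v k = ∑ k, ∑ i, (y k * (M k i : ℝ)) • b i := by
          refine Finset.sum_congr rfl fun k _ => ?_
          rw [← hM k, Finset.smul_sum]
          refine Finset.sum_congr rfl fun i _ => ?_
          rw [mul_smul, Int.cast_smul_eq_zsmul]
      _ = ∑ i, ∑ k, (y k * (M k i : ℝ)) • b i := Finset.sum_comm
      _ = _ := by
          refine Finset.sum_congr rfl fun i _ => ?_
          rw [Finset.sum_smul]
  have h3 : ∀ y : κ → ℝ, ∑ k, y k • v k = 0 ↔ ∀ i, ∑ k, y k * (M k i : ℝ) = 0 := by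
    intro y
    rw [h2]
    constructor
    · intro h i
      exact Fintype.linearIndependent_iff.1 b.linearIndependent _ h i
    · intro h
      exact Finset.sum_eq_zero fun i _ => by rw [h i, zero_smul]
  have h4 := rational_kernel M y ((h3 y).1 hy)
  refine Submodule.span_mono ?_ h4
  rintro z ⟨hz, hz'⟩
  exact ⟨hz, (h3 z).2 hz'⟩

lemma ker_rat {ι : Type} [Fintype ι] (b : Basis ι ℝ V) {a : V →ₗ[ℝ] V}
    (ha : Rat (Submodule.span ℤ (Set.range b)) a) : RatSub b (LinearMap.ker a) := by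
  obtain ⟨N, hN1, hN⟩ := ha
  intro x hx
  rw [LinearMap.mem_ker] at hx
  have h1 : ∑ i, b.repr x i • (N • a (b i)) = 0 := by
    calc ∑ i, b.repr x i • (N • a (b i)) = N • a (∑ i, b.repr x i • b i) := by
          rw [map_sum, Finset.smul_sum]
          refine Finset.sum_congr rfl fun i _ => ?_
          rw [map_smul, smul_comm]
      _ = 0 := by rw [b.sum_repr, hx, smul_zero]
  have h2 := ker_comb b (fun i => N • a (b i)) (fun i => hN _ (Submodule.subset_span ⟨i, rfl⟩))
    (b.repr x) h1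
  have h3 : ∀ y : ι → ℝ, y ∈ Submodule.span ℝ {y : ι → ℝ | (∃ z : ι → ℤ, y = fun k => (z k : ℝ)) ∧
      ∑ k, y k • (N • a (b k)) = 0} → ∑ i, y i • b i ∈
        Submodule.span ℝ {x | x ∈ Submodule.span ℤ (Set.range b) ∧ x ∈ LinearMap.ker a} := by
    intro y hy
    induction hy using Submodule.span_induction with
    | mem y hy =>
      obtain ⟨⟨z, rfl⟩, hz⟩ := hy
      apply Submodule.subset_span
      constructor
      · refine Submodule.sum_mem _ fun i _ => ?_
        rw [Int.cast_smul_eq_zsmul]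
        exact Submodule.smul_mem _ _ (Submodule.subset_span ⟨i, rfl⟩)
      · rw [LinearMap.mem_ker]
        have h4 : N • a (∑ i, (z i : ℝ) • b i) = 0 := by
          rw [map_sum, Finset.smul_sum, ← hz]
          refine Finset.sum_congr rfl fun i _ => ?_
          rw [map_smul, smul_comm]
        rw [← Nat.cast_smul_eq_nsmul ℝ] at h4
        exact (smul_eq_zero.1 h4).resolve_left (by exact_mod_cast Nat.one_le_iff_ne_zero.1 hN1)
    | zero => simp
    | add y y' _ _ h h' =>
      have : ∑ i, (y + y') i • b i = ∑ i, y i • b i + ∑ i, y' i • b i := by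
        rw [← Finset.sum_add_distrib]
        exact Finset.sum_congr rfl fun i _ => add_smul _ _ _
      rw [this]
      exact Submodule.add_mem _ h h'
    | smul c y _ h =>
      have : ∑ i, (c • y) i • b i = c • ∑ i, y i • b i := by
        rw [Finset.smul_sum]
        exact Finset.sum_congr rfl fun i _ => by rw [Pi.smul_apply, smul_eq_mul, mul_smul]
      rw [this]
      exact Submodule.smul_mem _ _ h
  have h4 := h3 _ h2
  rwa [b.sum_repr] at h4

/-- the lattice is irreducible -/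
def Irr {ι : Type} (ρ : Representation ℂ G V) (b : Basis ι ℝ V) : Prop :=
  ∀ W : Submodule ℝ V, RStable ρ W → RatSub b W → W = ⊥ ∨ W = ⊤

lemma inj_of {ι : Type} [Fintype ι] {ρ : Representation ℂ G V} {b : Basis ι ℝ V}
    (hirr : Irr ρ b) {a : V →ₗ[ℝ] V} (ha : a ∈ Cm ρ) (har : Rat (Submodule.span ℤ (Set.range b)) a)
    (h0 : a ≠ 0) : Function.Injective a := by
  rcases hirr (LinearMap.ker a) (fun g x hx => by
    rw [LinearMap.mem_ker] at hx ⊢
    rw [mem_Cm.1 ha, hx, map_zero]) (ker_rat b har) with h | h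
  · exact LinearMap.ker_eq_bot.1 h
  · exact absurd (LinearMap.ker_eq_top.1 h) h0

lemma key_mem [Finite G] {ι : Type} [Fintype ι] {ρ : Representation ℂ G V} {b : Basis ι ℝ V}
    (hΛ : ∀ g, ∀ x ∈ Submodule.span ℤ (Set.range b), ρ g x ∈ Submodule.span ℤ (Set.range b))
    (hirr : Irr ρ b) {m : V} (hm : m ∈ Submodule.span ℤ (Set.range b)) {N : Submodule ℝ V}
    (hN : RatSub b N) (hNC : ∀ a ∈ Cm ρ, ∀ x ∈ N, a x ∈ N) {T : V →ₗ[ℝ] V} (hT : T ∈ Cm ρ)
    (hT0 : T ≠ 0) (hTm : T m ∈ N) : m ∈ N := by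
  classical
  have hV : FiniteDimensional ℝ V := Module.Finite.of_basis b
  obtain ⟨E, hE, hspan⟩ := exists_span ρ b hΛ
  obtain ⟨t, ht⟩ := hspan T hT
  choose D hD1 hD2 using fun k => (hE k).2
  obtain ⟨n, f, s, hfs⟩ := (Submodule.mem_span_set' (R := ℝ)).1 (hN hTm)
  let v : (ι × ι) ⊕ Fin n → V := Sum.elim (fun k => D k • E k m) (fun j => -(s j : V))
  have hv : ∀ k, v k ∈ Submodule.span ℤ (Set.range b) := by
    rintro (k | j)
    · exact hD2 k m hm
    · exact Submodule.neg_mem _ (s j).2.1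
  let y : (ι × ι) ⊕ Fin n → ℝ := Sum.elim (fun k => t k / D k) f
  have hD0 : ∀ k, (D k : ℝ) ≠ 0 := fun k => by exact_mod_cast Nat.one_le_iff_ne_zero.1 (hD1 k)
  have hy : ∑ k, y k • v k = 0 := by
    rw [Fintype.sum_sum_type]
    have e1 : ∑ k, y (Sum.inl k) • v (Sum.inl k) = T m := by
      rw [ht, LinearMap.sum_apply]
      refine Finset.sum_congr rfl fun k _ => ?_
      change (t k / D k) • (D k • E k m) = _
      rw [LinearMap.smul_apply, ← Nat.cast_smul_eq_nsmul ℝ, smul_smul, div_mul_cancel₀ _ (hD0 k)]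
    have e2 : ∑ j, y (Sum.inr j) • v (Sum.inr j) = -T m := by
      rw [← hfs, ← Finset.sum_neg_distrib]
      refine Finset.sum_congr rfl fun j _ => ?_
      change f j • (-(s j : V)) = _
      rw [smul_neg]
    rw [e1, e2, add_neg_cancel]
  have h1 := ker_comb b v hv y hy
  let Φ : ((ι × ι) ⊕ Fin n → ℝ) →ₗ[ℝ] (V →ₗ[ℝ] V) :=
    { toFun := fun y => ∑ k, y (Sum.inl k) • ((D k : ℝ) • E k)
      map_add' := fun y y' => by
        rw [← Finset.sum_add_distrib]
        exact Finset.sum_congr rfl fun k _ => add_smul _ _ _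
      map_smul' := fun c y => by
        rw [RingHom.id_apply, Finset.smul_sum]
        exact Finset.sum_congr rfl fun k _ => by rw [Pi.smul_apply, smul_eq_mul, mul_smul] }
  have hΦ : ∀ y, Φ y = ∑ k, y (Sum.inl k) • ((D k : ℝ) • E k) := fun y => rfl
  have hΦy : Φ y = T := by
    rw [hΦ, ht]
    refine Finset.sum_congr rfl fun k _ => ?_
    change (t k / D k) • _ = _
    rw [smul_smul, div_mul_cancel₀ _ (hD0 k)]
  obtain ⟨z, hz, hz0⟩ : ∃ z : (ι × ι) ⊕ Fin n → ℤ, ∑ k, (z k : ℝ) • v k = 0 ∧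
      Φ (fun k => (z k : ℝ)) ≠ 0 := by
    by_contra hcon
    push Not at hcon
    apply hT0
    rw [← hΦy]
    have h2 : Submodule.span ℝ {y : (ι × ι) ⊕ Fin n → ℝ | (∃ z : (ι × ι) ⊕ Fin n → ℤ,
        y = fun k => (z k : ℝ)) ∧ ∑ k, y k • v k = 0} ≤ LinearMap.ker Φ := by
      rw [Submodule.span_le]
      rintro _ ⟨⟨z, rfl⟩, hz⟩
      exact hcon z hz
    exact h2 h1
  set a : V →ₗ[ℝ] V := Φ (fun k => (z k : ℝ)) with ha
  have hax : ∀ x, a x = ∑ k, z (Sum.inl k) • (D k • E k x) := by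
    intro x
    rw [ha, hΦ, LinearMap.sum_apply]
    refine Finset.sum_congr rfl fun k _ => ?_
    rw [LinearMap.smul_apply, LinearMap.smul_apply, Int.cast_smul_eq_zsmul,
      Nat.cast_smul_eq_nsmul]
  have haC : a ∈ Cm ρ := by
    rw [ha, hΦ]
    refine Submodule.sum_mem _ fun k _ => Submodule.smul_mem _ _ (Submodule.smul_mem _ _ (hE k).1)
  have haR : Rat (Submodule.span ℤ (Set.range b)) a := by
    refine ⟨1, le_rfl, fun x hx => ?_⟩
    rw [one_smul, hax]
    exact Submodule.sum_mem _ fun k _ => Submodule.smul_mem _ _ (hD2 k x hx)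
  have hinj := inj_of hirr haC haR hz0
  have ham : a m ∈ N := by
    rw [Fintype.sum_sum_type] at hz
    have e1 : ∑ k, ((z (Sum.inl k) : ℤ) : ℝ) • v (Sum.inl k) = a m := by
      rw [hax]
      refine Finset.sum_congr rfl fun k _ => ?_
      rw [Int.cast_smul_eq_zsmul]
      rfl
    rw [e1] at hz
    have e2 : a m = -∑ j, ((z (Sum.inr j) : ℤ) : ℝ) • v (Sum.inr j) :=
      eq_neg_of_add_eq_zero_left hz
    rw [e2]
    refine N.neg_mem (N.sum_mem fun j _ => N.smul_mem _ (N.neg_mem (s j).2.2))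
  let a' : V ≃ₗ[ℝ] V := LinearEquiv.ofInjectiveEndo a hinj
  have ha' : ∀ x, a' x = a x := fun x => rfl
  have hC' : (a'.symm : V →ₗ[ℝ] V) ∈ Cm ρ := by
    rw [mem_Cm]
    intro g x
    change a'.symm (ρ g x) = ρ g (a'.symm x)
    apply a'.injective
    rw [LinearEquiv.apply_symm_apply, ha', mem_Cm.1 haC, ← ha', LinearEquiv.apply_symm_apply]
  have h5 := hNC _ hC' _ ham
  have h6 : (a'.symm : V →ₗ[ℝ] V) (a m) = m := a'.symm_apply_apply m
  rwa [h6] at h5

/-- The dimensions of rational subspaces stable under the commutant are divisible. -/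
theorem dvd_finrank [Nontrivial V] [Finite G] {ι : Type} [Fintype ι] {ρ : Representation ℂ G V}
    {b : Basis ι ℝ V}
    (hΛ : ∀ g, ∀ x ∈ Submodule.span ℤ (Set.range b), ρ g x ∈ Submodule.span ℤ (Set.range b))
    (hirr : Irr ρ b) {M : Submodule ℝ V} (hM : RatSub b M)
    (hMC : ∀ a ∈ Cm ρ, ∀ x ∈ M, a x ∈ M) : finrank ℝ (Cm ρ) ∣ finrank ℝ M := by
  classical
  have hV : FiniteDimensional ℝ V := Module.Finite.of_basis b
  have hid : (LinearMap.id : V →ₗ[ℝ] V) ∈ Cm ρ := fun g x => rfl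
  have hne : (LinearMap.id : V →ₗ[ℝ] V) ≠ 0 := by
    intro h
    obtain ⟨x, hx⟩ := exists_ne (0 : V)
    exact hx (congrArg (fun f : V →ₗ[ℝ] V => f x) h)
  have hpos : 0 < finrank ℝ (Cm ρ) := by
    rw [Module.finrank_pos_iff]
    exact ⟨⟨LinearMap.id, hid⟩, 0, fun h => hne (congrArg Subtype.val h)⟩
  have main : ∀ (n : ℕ) (N : Submodule ℝ V), RatSub b N → (∀ a ∈ Cm ρ, ∀ x ∈ N, a x ∈ N) →
      N ≤ M → finrank ℝ M - finrank ℝ N = n → finrank ℝ (Cm ρ) ∣ n := by
    intro n
    induction n using Nat.strong_induction_on with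
    | _ n ih =>
      intro N hN hNC hNM hn
      by_cases hEq : N = M
      · rw [hEq, Nat.sub_self] at hn
        rw [← hn]
        exact dvd_zero _
      -- a new lattice vector
      obtain ⟨m, hm, hmM, hmN⟩ : ∃ m ∈ Submodule.span ℤ (Set.range b), m ∈ M ∧ m ∉ N := by
        by_contra hcon
        push Not at hcon
        apply hEq
        apply le_antisymm hNM
        refine hM.trans (Submodule.span_le.2 ?_)
        rintro x ⟨hx, hxM⟩
        exact hcon x hx hxM
      let ev : Cm ρ →ₗ[ℝ] V :=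
        { toFun := fun T => T.1 m
          map_add' := fun T T' => rfl
          map_smul' := fun c T => rfl }
      have hev : ∀ T : Cm ρ, ev T = T.1 m := fun T => rfl
      have hk : ∀ T : Cm ρ, T.1 m ∈ N → T = 0 := by
        intro T hT
        by_contra hT0
        exact hmN (key_mem hΛ hirr hm hN hNC T.2 (fun h => hT0 (Subtype.ext h)) hT)
      have hinj : Function.Injective ev := by
        rw [injective_iff_map_eq_zero]
        intro T hT
        exact hk T (by rw [← hev, hT]; exact N.zero_mem)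
      set R := LinearMap.range ev with hR
      have hinf : N ⊓ R = ⊥ := by
        rw [eq_bot_iff]
        rintro x ⟨hx, ⟨T, rfl⟩⟩
        rw [hk T hx, map_zero]
        exact Submodule.zero_mem _
      have hfr : finrank ℝ (N ⊔ R : Submodule ℝ V) = finrank ℝ N + finrank ℝ (Cm ρ) := by
        have := Submodule.finrank_sup_add_finrank_inf_eq N R
        rw [hinf, finrank_bot, add_zero, hR, LinearMap.finrank_range_of_inj hinj] at this
        exact this
      have hle : N ⊔ R ≤ M := by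
        refine sup_le hNM ?_
        rintro _ ⟨T, rfl⟩
        exact hMC T.1 T.2 m hmM
      have hNC' : ∀ a ∈ Cm ρ, ∀ x ∈ N ⊔ R, a x ∈ N ⊔ R := by
        intro a ha x hx
        obtain ⟨u, hu, w, ⟨T, rfl⟩, rfl⟩ := Submodule.mem_sup.1 hx
        rw [map_add]
        refine Submodule.add_mem_sup (hNC a ha u hu) ?_
        refine ⟨⟨a ∘ₗ T.1, fun g x => ?_⟩, rfl⟩
        rw [LinearMap.comp_apply, LinearMap.comp_apply, mem_Cm.1 T.2, mem_Cm.1 ha]
      have hrat : RatSub b (N ⊔ R) := by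
        refine sup_le (hN.trans (Submodule.span_mono ?_)) ?_
        · rintro x ⟨hx, hxN⟩
          exact ⟨hx, (le_sup_left : N ≤ N ⊔ R) hxN⟩
        · rintro _ ⟨T, rfl⟩
          obtain ⟨E, hE, hspan⟩ := exists_span ρ b hΛ
          obtain ⟨t, ht⟩ := hspan T.1 T.2
          rw [hev, ht, LinearMap.sum_apply]
          refine Submodule.sum_mem _ fun k _ => ?_
          rw [LinearMap.smul_apply]
          apply Submodule.smul_mem
          obtain ⟨D, hD1, hD2⟩ := (hE k).2
          have hD0 : (D : ℝ) ≠ 0 := by exact_mod_cast Nat.one_le_iff_ne_zero.1 hD1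
          have e1 : E k m = (D : ℝ)⁻¹ • (D • E k m) := by
            rw [← Nat.cast_smul_eq_nsmul ℝ, smul_smul, inv_mul_cancel₀ hD0, one_smul]
          rw [e1]
          apply Submodule.smul_mem
          apply Submodule.subset_span
          refine ⟨hD2 m hm, (le_sup_right : R ≤ N ⊔ R) ?_⟩
          rw [← Nat.cast_smul_eq_nsmul ℝ]
          exact R.smul_mem _ ⟨⟨E k, (hE k).1⟩, rfl⟩
      have hle2 := Submodule.finrank_mono hle
      have h7 := ih (finrank ℝ M - finrank ℝ (N ⊔ R : Submodule ℝ V)) (by omega) (N ⊔ R) hrat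
        hNC' hle rfl
      have h8 : n = (finrank ℝ M - finrank ℝ (N ⊔ R : Submodule ℝ V)) + finrank ℝ (Cm ρ) := by
        omega
      rw [h8]
      exact Dvd.dvd.add h7 (dvd_refl _)
  have := main (finrank ℝ M) ⊥ bot_le (fun a _ x hx => by
    rw [Submodule.mem_bot] at hx ⊢
    rw [hx, map_zero]) bot_le (by rw [finrank_bot, Nat.sub_zero])
  exact this

end Pool.Agent.MP_e4ecdb_ag.DF
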