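import Mathlib

/-! The arithmetic behind the example: the norm form of a quaternion algebra over `ℚ(√-2)`. -/

namespace Pool.Agent.MP_e4ecdb_ag.DEx

/-- the norm form of the Eisenstein integers -/
def q (a b : ℤ) : ℤ := a ^ 2 + a * b + b ^ 2

/-- its polar form -/
def t (a b c d : ℤ) : ℤ := 2 * a * c + a * d + b * c + 2 * b * d

lemma q_nonneg (a b : ℤ) : 0 ≤ q a b := by
  unfold q
  nlinarith [sq_nonneg (a + b), sq_nonneg a, sq_nonneg b]

lemma q_zero {a b : ℤ} (h : q a b = 0) : a = 0 ∧ b = 0 := by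
  unfold q at h
  have h1 : (a + b) ^ 2 + a ^ 2 + b ^ 2 = 0 := by linarith [h]
  constructor <;> nlinarith [sq_nonneg (a + b), sq_nonneg a, sq_nonneg b]

lemma three (x y : ℤ) (h : 3 ∣ x ^ 2 + y ^ 2) : 3 ∣ x ∧ 3 ∣ y := by
  have h1 : x % 3 = 0 ∨ x % 3 = 1 ∨ x % 3 = 2 := by omega
  have h2 : y % 3 = 0 ∨ y % 3 = 1 ∨ y % 3 = 2 := by omega
  have h3 : (x ^ 2 + y ^ 2) % 3 = 0 := by omega
  rcases h1 with h1 | h1 | h1 <;> rcases h2 with h2 | h2 | h2 <;>
    simp [pow_two, Int.add_emod, Int.mul_emod, h1, h2] at h3 ⊢ <;> omega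

lemma q_mod (a b c d : ℤ) (h : 3 ∣ q a b + q c d) : 3 ∣ a - b ∧ 3 ∣ c - d := by
  apply three
  have h1 : (a - b) ^ 2 + (c - d) ^ 2 = q a b + q c d - 3 * (a * b + c * d) := by
    unfold q
    ring
  rw [h1]
  exact Dvd.dvd.sub h (dvd_mul_right 3 _)

lemma descent : ∀ (n : ℕ) (a1 b1 c1 d1 a2 b2 c2 d2 : ℤ), q a2 b2 + q c2 d2 = n →
    q a1 b1 + q c1 d1 = 2 * (q a2 b2 + q c2 d2) → t a1 b1 a2 b2 + t c1 d1 c2 d2 = 0 → n = 0 := by
  intro n
  induction n using Nat.strong_induction_on with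
  | _ n ih =>
    intro a1 b1 c1 d1 a2 b2 c2 d2 hn h1 h2
    by_contra h0
    have e1 : q (a1 + a2) (b1 + b2) + q (c1 + c2) (d1 + d2) = 3 * (q a2 b2 + q c2 d2) := by
      have : q (a1 + a2) (b1 + b2) + q (c1 + c2) (d1 + d2) =
          (q a1 b1 + q c1 d1) + (q a2 b2 + q c2 d2) + (t a1 b1 a2 b2 + t c1 d1 c2 d2) := by
        unfold q t
        ring
      rw [this, h1, h2]
      ring
    have e2 : q (a1 - a2) (b1 - b2) + q (c1 - c2) (d1 - d2) = 3 * (q a2 b2 + q c2 d2) := by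
      have : q (a1 - a2) (b1 - b2) + q (c1 - c2) (d1 - d2) =
          (q a1 b1 + q c1 d1) + (q a2 b2 + q c2 d2) - (t a1 b1 a2 b2 + t c1 d1 c2 d2) := by
        unfold q t
        ring
      rw [this, h1, h2]
      ring
    obtain ⟨f1, f2⟩ := q_mod _ _ _ _ (Dvd.intro _ e1.symm)
    obtain ⟨f3, f4⟩ := q_mod _ _ _ _ (Dvd.intro _ e2.symm)
    obtain ⟨k1, g1⟩ : ∃ k, a1 - b1 = 3 * k := ⟨(a1 - b1) / 3, by omega⟩
    obtain ⟨k2, g2⟩ : ∃ k, a2 - b2 = 3 * k := ⟨(a2 - b2) / 3, by omega⟩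
    obtain ⟨k3, g3⟩ : ∃ k, c1 - d1 = 3 * k := ⟨(c1 - d1) / 3, by omega⟩
    obtain ⟨k4, g4⟩ : ∃ k, c2 - d2 = 3 * k := ⟨(c2 - d2) / 3, by omega⟩
    obtain rfl : b1 = a1 - 3 * k1 := by omega
    obtain rfl : b2 = a2 - 3 * k2 := by omega
    obtain rfl : d1 = c1 - 3 * k3 := by omega
    obtain rfl : d2 = c2 - 3 * k4 := by omega
    have hq : ∀ a k : ℤ, q a (a - 3 * k) = 3 * q (a - 2 * k) (-a + k) := by
      intro a k
      unfold q
      ring
    have ht : ∀ a k c l : ℤ, t a (a - 3 * k) c (c - 3 * l) =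
        3 * t (a - 2 * k) (-a + k) (c - 2 * l) (-c + l) := by
      intro a k c l
      unfold t
      ring
    rw [hq, hq] at hn
    rw [hq, hq, hq, hq] at h1
    rw [ht, ht] at h2
    have hnn : 0 ≤ q (a2 - 2 * k2) (-a2 + k2) + q (c2 - 2 * k4) (-c2 + k4) :=
      add_nonneg (q_nonneg _ _) (q_nonneg _ _)
    obtain ⟨m, hm⟩ := Int.eq_ofNat_of_zero_le hnn
    have h3 : m = 0 := ih m (by omega) (a1 - 2 * k1) (-a1 + k1) (c1 - 2 * k3) (-c1 + k3)
      (a2 - 2 * k2) (-a2 + k2) (c2 - 2 * k4) (-c2 + k4) hm (by linarith) (by linarith)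
    omega

/-- the sixth root of unity -/
noncomputable def om : ℂ := ⟨1 / 2, Real.sqrt 3 / 2⟩

lemma om_re : om.re = 1 / 2 := rfl
lemma om_im : om.im = Real.sqrt 3 / 2 := rfl

lemma s3 : Real.sqrt 3 * Real.sqrt 3 = 3 := Real.mul_self_sqrt (by norm_num)

lemma om_sq : om ^ 2 = om - 1 := by
  apply Complex.ext
  · rw [pow_two, Complex.mul_re, Complex.sub_re, om_re, om_im, Complex.one_re]
    nlinarith [s3]
  · rw [pow_two, Complex.mul_im, Complex.sub_im, om_re, om_im, Complex.one_im]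
    ring

/-- its inverse -/
noncomputable def omb : ℂ := 1 - om

lemma om_conj : (starRingEnd ℂ) om = omb := by
  unfold omb
  apply Complex.ext
  · rw [Complex.conj_re, Complex.sub_re, om_re, Complex.one_re]
    norm_num
  · rw [Complex.conj_im, Complex.sub_im, om_im, Complex.one_im]
    ring

lemma omb_conj : (starRingEnd ℂ) omb = om := by
  rw [← om_conj, Complex.conj_conj]

lemma om_omb : om * omb = 1 := by
  have := om_sq
  unfold omb
  linear_combination -this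

lemma omb_om : omb * om = 1 := by rw [mul_comm, om_omb]

lemma om_ne : om ^ 2 ≠ 1 := by
  intro h
  rw [om_sq] at h
  have h1 := congrArg Complex.im h
  rw [Complex.sub_im, om_im, Complex.one_im] at h1
  have h2 : (0 : ℝ) < Real.sqrt 3 := Real.sqrt_pos.2 (by norm_num)
  linarith

lemma omb_ne : omb ^ 2 ≠ 1 := by
  intro h
  apply om_ne
  have h1 : (om * omb) ^ 2 = 1 := by rw [om_omb, one_pow]
  rw [mul_pow, h, mul_one] at h1
  exact h1

lemma om_ne_one : om ≠ 1 := fun h => om_ne (by rw [h, one_pow])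
lemma omb_ne_one : omb ≠ 1 := fun h => omb_ne (by rw [h, one_pow])

/-- the Eisenstein integers -/
def R : AddSubgroup ℂ where
  carrier := {z | ∃ a b : ℤ, z = a + b * om}
  add_mem' := by
    rintro _ _ ⟨a, b, rfl⟩ ⟨c, d, rfl⟩
    exact ⟨a + c, b + d, by push_cast; ring⟩
  zero_mem' := ⟨0, 0, by simp⟩
  neg_mem' := by
    rintro _ ⟨a, b, rfl⟩
    exact ⟨-a, -b, by push_cast; ring⟩

lemma mem_R {z : ℂ} : z ∈ R ↔ ∃ a b : ℤ, z = a + b * om := Iff.rfl

lemma om_mem {z : ℂ} (h : z ∈ R) : om * z ∈ R := by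
  obtain ⟨a, b, rfl⟩ := h
  refine ⟨-b, a + b, ?_⟩
  push_cast
  linear_combination (b : ℂ) * om_sq

lemma omb_mem {z : ℂ} (h : z ∈ R) : omb * z ∈ R := by
  have : omb * z = z - om * z := by unfold omb; ring
  rw [this]
  exact R.sub_mem h (om_mem h)

lemma nsq (a b : ℤ) : Complex.normSq (a + b * om) = (q a b : ℝ) := by
  rw [Complex.normSq_apply]
  have h1 : ((a : ℂ) + b * om).re = a + b / 2 := by
    simp [om_re]
    ring
  have h2 : ((a : ℂ) + b * om).im = b * (Real.sqrt 3 / 2) := by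
    simp [om_im]
  rw [h1, h2]
  unfold q
  push_cast
  nlinarith [s3]

lemma ntr (a b c d : ℤ) : 2 * ((starRingEnd ℂ) (a + b * om) * (c + d * om)).re = (t a b c d : ℝ) := by
  have h1 : ((a : ℂ) + b * om).re = a + b / 2 := by
    simp [om_re]
    ring
  have h2 : ((a : ℂ) + b * om).im = b * (Real.sqrt 3 / 2) := by
    simp [om_im]
  have h3 : ((c : ℂ) + d * om).re = c + d / 2 := by
    simp [om_re]
    ring
  have h4 : ((c : ℂ) + d * om).im = d * (Real.sqrt 3 / 2) := by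
    simp [om_im]
  rw [Complex.mul_re, Complex.conj_re, Complex.conj_im, h1, h2, h3, h4]
  unfold t
  push_cast
  linear_combination ((b : ℝ) * d / 2) * s3

/-- The quaternion algebra has no zero divisors. -/
lemma aniso {z1 w1 z2 w2 : ℂ} (h1 : z1 ∈ R) (h2 : w1 ∈ R) (h3 : z2 ∈ R) (h4 : w2 ∈ R)
    (e1 : Complex.normSq z1 + Complex.normSq w1 - 2 * (Complex.normSq z2 + Complex.normSq w2) = 0)
    (e2 : 2 * ((starRingEnd ℂ) z1 * z2).re + 2 * ((starRingEnd ℂ) w1 * w2).re = 0) :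
    z1 = 0 ∧ w1 = 0 ∧ z2 = 0 ∧ w2 = 0 := by
  obtain ⟨a1, b1, rfl⟩ := h1
  obtain ⟨c1, d1, rfl⟩ := h2
  obtain ⟨a2, b2, rfl⟩ := h3
  obtain ⟨c2, d2, rfl⟩ := h4
  rw [nsq, nsq, nsq, nsq] at e1
  rw [ntr, ntr] at e2
  have e1' : q a1 b1 + q c1 d1 = 2 * (q a2 b2 + q c2 d2) := by
    have : ((q a1 b1 + q c1 d1 : ℤ) : ℝ) = ((2 * (q a2 b2 + q c2 d2) : ℤ) : ℝ) := by
      push_cast
      linarith
    exact_mod_cast this
  have e2' : t a1 b1 a2 b2 + t c1 d1 c2 d2 = 0 := by exact_mod_cast e2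
  have hnn : 0 ≤ q a2 b2 + q c2 d2 := add_nonneg (q_nonneg _ _) (q_nonneg _ _)
  obtain ⟨m, hm⟩ := Int.eq_ofNat_of_zero_le hnn
  have hm0 := descent m a1 b1 c1 d1 a2 b2 c2 d2 hm e1' e2'
  subst hm0
  have g1 := q_nonneg a1 b1
  have g2 := q_nonneg c1 d1
  have g3 := q_nonneg a2 b2
  have g4 := q_nonneg c2 d2
  obtain ⟨rfl, rfl⟩ := q_zero (a := a1) (b := b1) (by omega)
  obtain ⟨rfl, rfl⟩ := q_zero (a := c1) (b := d1) (by omega)
  obtain ⟨rfl, rfl⟩ := q_zero (a := a2) (b := b2) (by omega)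
  obtain ⟨rfl, rfl⟩ := q_zero (a := c2) (b := d2) (by omega)
  simp

end Pool.Agent.MP_e4ecdb_ag.DEx
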