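import Pool.Agent.MP_e4ecdb_ag.DDefs
import Pool.Agent.MP_e4ecdb_ag.DExA
open Module

/-! The example: the group. -/

namespace Pool.Agent.MP_e4ecdb_ag.DEx

open SYZ

/-- `ℂ⁴` -/
abbrev Z := Fin 4 → ℂ

/-- `ℂ⁸` -/
abbrev V8 := Z × Z

/-- linear maps of `ℂ⁴` acting diagonally -/
def two (f g : Z →ₗ[ℂ] Z) : V8 →ₗ[ℂ] V8 := f.prodMap g

/-- multiplication by the eighth root of unity -/
def zt : Z →ₗ[ℂ] Z where
  toFun z := ![-z 3, z 0, z 1, z 2]
  map_add' x y := by
    ext i
    fin_cases i <;> simp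
    ring
  map_smul' c x := by
    ext i
    fin_cases i <;> simp

/-- its inverse -/
def zi : Z →ₗ[ℂ] Z where
  toFun z := ![z 1, z 2, z 3, -z 0]
  map_add' x y := by
    ext i
    fin_cases i <;> simp
    ring
  map_smul' c x := by
    ext i
    fin_cases i <;> simp

/-- the Galois automorphism -/
def ga : Z →ₗ[ℂ] Z where
  toFun z := ![z 0, z 3, -z 2, z 1]
  map_add' x y := by
    ext i
    fin_cases i <;> simp
    ring
  map_smul' c x := by
    ext i
    fin_cases i <;> simp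

lemma zt_apply (z : Z) : zt z = ![-z 3, z 0, z 1, z 2] := rfl
lemma zi_apply (z : Z) : zi z = ![z 1, z 2, z 3, -z 0] := rfl
lemma ga_apply (z : Z) : ga z = ![z 0, z 3, -z 2, z 1] := rfl

lemma zt_zi (z : Z) : zt (zi z) = z := by
  rw [zt_apply, zi_apply]
  ext i
  fin_cases i <;> simp

lemma zi_zt (z : Z) : zi (zt z) = z := by
  rw [zt_apply, zi_apply]
  ext i
  fin_cases i <;> simp

lemma ga_ga (z : Z) : ga (ga z) = z := by
  rw [ga_apply, ga_apply]
  ext i
  fin_cases i <;> simp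

/-- the four generators -/
noncomputable def A1 : V8 ≃ₗ[ℂ] V8 where
  toFun x := (om • x.1, omb • x.2)
  map_add' x y := by simp
  map_smul' c x := by
    simp only [Prod.smul_fst, Prod.smul_snd, RingHom.id_apply, Prod.smul_mk, smul_comm c]
  invFun x := (omb • x.1, om • x.2)
  left_inv x := by simp [smul_smul, om_omb, omb_om]
  right_inv x := by simp [smul_smul, om_omb, omb_om]

/-- the second generator -/
noncomputable def B1 : V8 ≃ₗ[ℂ] V8 where
  toFun x := (-x.2, x.1)
  map_add' x y := by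
    simp
    ring
  map_smul' c x := by simp
  invFun x := (x.2, -x.1)
  left_inv x := by simp
  right_inv x := by simp

/-- the third generator -/
noncomputable def A2 : V8 ≃ₗ[ℂ] V8 where
  toFun x := (zt x.1, zt x.2)
  map_add' x y := by simp
  map_smul' c x := by simp
  invFun x := (zi x.1, zi x.2)
  left_inv x := by simp [zi_zt]
  right_inv x := by simp [zt_zi]

/-- the fourth generator -/
noncomputable def B2 : V8 ≃ₗ[ℂ] V8 where
  toFun x := (ga x.1, ga x.2)
  map_add' x y := by simp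
  map_smul' c x := by simp
  invFun x := (ga x.1, ga x.2)
  left_inv x := by simp [ga_ga]
  right_inv x := by simp [ga_ga]

lemma A1_apply (x : V8) : A1 x = (om • x.1, omb • x.2) := rfl
lemma B1_apply (x : V8) : B1 x = (-x.2, x.1) := rfl
lemma A2_apply (x : V8) : A2 x = (zt x.1, zt x.2) := rfl
lemma B2_apply (x : V8) : B2 x = (ga x.1, ga x.2) := rfl

/-- the lattice -/
def L : AddSubgroup V8 where
  carrier := {x | ∀ i, x.1 i ∈ R ∧ x.2 i ∈ R}
  add_mem' := fun hx hy i => ⟨R.add_mem (hx i).1 (hy i).1, R.add_mem (hx i).2 (hy i).2⟩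
  zero_mem' := fun _ => ⟨R.zero_mem, R.zero_mem⟩
  neg_mem' := fun hx i => ⟨R.neg_mem (hx i).1, R.neg_mem (hx i).2⟩

lemma mem_L {x : V8} : x ∈ L ↔ ∀ i, x.1 i ∈ R ∧ x.2 i ∈ R := Iff.rfl

/-- the symplectic form -/
noncomputable def S0 : LinearMap.BilinForm ℂ V8 :=
  LinearMap.mk₂ ℂ (fun x y => ∑ i, (x.1 i * y.2 i - x.2 i * y.1 i))
    (by
      intro x x' y
      rw [← Finset.sum_add_distrib]
      refine Finset.sum_congr rfl fun i _ => ?_
      simp only [Prod.fst_add, Prod.snd_add, Pi.add_apply]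
      ring)
    (by
      intro c x y
      rw [smul_eq_mul, Finset.mul_sum]
      refine Finset.sum_congr rfl fun i _ => ?_
      simp only [Prod.smul_fst, Prod.smul_snd, Pi.smul_apply, smul_eq_mul]
      ring)
    (by
      intro x y y'
      rw [← Finset.sum_add_distrib]
      refine Finset.sum_congr rfl fun i _ => ?_
      simp only [Prod.fst_add, Prod.snd_add, Pi.add_apply]
      ring)
    (by
      intro c x y
      rw [smul_eq_mul, Finset.mul_sum]
      refine Finset.sum_congr rfl fun i _ => ?_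
      simp only [Prod.smul_fst, Prod.smul_snd, Pi.smul_apply, smul_eq_mul]
      ring)

lemma S0_apply (x y : V8) : S0 x y = ∑ i, (x.1 i * y.2 i - x.2 i * y.1 i) := rfl

/-- `(x, T y)` for the standard hermitian form -/
noncomputable def HT (T : Z →ₗ[ℂ] Z) : V8 →ₗ⋆[ℂ] V8 →ₗ[ℂ] ℂ :=
  LinearMap.mk₂'ₛₗ (starRingEnd ℂ) (RingHom.id ℂ)
    (fun x y => ∑ i, ((starRingEnd ℂ) (x.1 i) * T y.1 i + (starRingEnd ℂ) (x.2 i) * T y.2 i))
    (by
      intro x x' y
      rw [← Finset.sum_add_distrib]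
      refine Finset.sum_congr rfl fun i _ => ?_
      simp only [Prod.fst_add, Prod.snd_add, Pi.add_apply, map_add]
      ring)
    (by
      intro c x y
      rw [smul_eq_mul, Finset.mul_sum]
      refine Finset.sum_congr rfl fun i _ => ?_
      simp only [Prod.smul_fst, Prod.smul_snd, Pi.smul_apply, smul_eq_mul, map_mul]
      ring)
    (by
      intro x y y'
      rw [← Finset.sum_add_distrib]
      refine Finset.sum_congr rfl fun i _ => ?_
      simp only [Prod.fst_add, Prod.snd_add, Pi.add_apply, map_add]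
      ring)
    (by
      intro c x y
      rw [RingHom.id_apply, smul_eq_mul, Finset.mul_sum]
      refine Finset.sum_congr rfl fun i _ => ?_
      simp only [Prod.smul_fst, Prod.smul_snd, map_smul, Pi.smul_apply, smul_eq_mul]
      ring)

lemma HT_apply (T : Z →ₗ[ℂ] Z) (x y : V8) : HT T x y =
    ∑ i, ((starRingEnd ℂ) (x.1 i) * T y.1 i + (starRingEnd ℂ) (x.2 i) * T y.2 i) := rfl

/-- the first hermitian form -/
noncomputable def H0 : V8 →ₗ⋆[ℂ] V8 →ₗ[ℂ] ℂ := HT LinearMap.id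

/-- the second hermitian form -/
noncomputable def H1 : V8 →ₗ⋆[ℂ] V8 →ₗ[ℂ] ℂ := HT (Complex.I • (zt - zi))

/-- the linear group -/
def GG0 : Subgroup (V8 ≃ₗ[ℂ] V8) where
  carrier := {A | (∀ x, A x ∈ L ↔ x ∈ L) ∧ (∀ x y, S0 (A x) (A y) = S0 x y) ∧
    (∀ x y, H0 (A x) (A y) = H0 x y) ∧ (∀ x y, H1 (A x) (A y) = H1 x y)}
  mul_mem' := by
    rintro A B ⟨a1, a2, a3, a4⟩ ⟨b1, b2, b3, b4⟩
    refine ⟨fun x => ?_, fun x y => ?_, fun x y => ?_, fun x y => ?_⟩
    · exact (a1 _).trans (b1 _)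
    · exact (a2 _ _).trans (b2 _ _)
    · exact (a3 _ _).trans (b3 _ _)
    · exact (a4 _ _).trans (b4 _ _)
  one_mem' := ⟨fun _ => Iff.rfl, fun _ _ => rfl, fun _ _ => rfl, fun _ _ => rfl⟩
  inv_mem' := by
    rintro A ⟨a1, a2, a3, a4⟩
    have h : ∀ x, A (A⁻¹ x) = x := fun x => A.apply_symm_apply x
    refine ⟨fun x => ?_, fun x y => ?_, fun x y => ?_, fun x y => ?_⟩
    · rw [← a1, h]
    · rw [← a2, h, h]
    · rw [← a3, h, h]
    · rw [← a4, h, h]

/-- the group -/
def G0 : Subgroup (Equiv.Perm V8) where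
  carrier := {γ | ∃ A ∈ GG0, ∃ l ∈ L, ∀ v, γ v = A v + l}
  mul_mem' := by
    rintro γ δ ⟨A, hA, l, hl, h1⟩ ⟨B, hB, m, hm, h2⟩
    refine ⟨A * B, GG0.mul_mem hA hB, A m + l, L.add_mem ((hA.1 m).2 hm) hl, fun v => ?_⟩
    rw [Equiv.Perm.mul_apply, h1, h2, map_add, add_assoc]
    rfl
  one_mem' := ⟨1, GG0.one_mem, 0, L.zero_mem, fun v => by simp⟩
  inv_mem' := by
    rintro γ ⟨A, hA, l, hl, h1⟩
    refine ⟨A⁻¹, GG0.inv_mem hA, -(A⁻¹ l), L.neg_mem (((GG0.inv_mem hA).1 l).2 hl), fun v => ?_⟩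
    rw [Equiv.Perm.inv_eq_iff_eq, h1, map_add, map_neg]
    have h : ∀ x, A (A⁻¹ x) = x := fun x => A.apply_symm_apply x
    rw [h, h]
    simp

lemma lin_of {γ : Equiv.Perm V8} (h : γ ∈ G0) : ∃ A ∈ GG0, ∀ x, lin γ x = A x := by
  obtain ⟨A, hA, l, hl, h1⟩ := h
  refine ⟨A, hA, fun x => ?_⟩
  unfold lin
  rw [h1, h1, map_zero]
  simp

lemma of_lin {A : V8 ≃ₗ[ℂ] V8} (hA : A ∈ GG0) : ∃ γ ∈ G0, ∀ x, lin γ x = A x := by
  refine ⟨A.toEquiv, ⟨A, hA, 0, L.zero_mem, fun v => by simp⟩, fun x => ?_⟩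
  unfold lin
  change A x - A 0 = A x
  rw [map_zero, sub_zero]

lemma forall_lin {P : (V8 → V8) → Prop} : (∀ γ ∈ G0, P (lin γ)) ↔ ∀ A ∈ GG0, P A := by
  constructor
  · intro h A hA
    obtain ⟨γ, hγ, h1⟩ := of_lin hA
    have : (A : V8 → V8) = lin γ := by
      funext x
      exact (h1 x).symm
    rw [this]
    exact h γ hγ
  · intro h γ hγ
    obtain ⟨A, hA, h1⟩ := lin_of hγ
    have : lin γ = A := by
      funext x
      exact h1 x
    rw [this]
    exact h A hA

lemma addLeft_iff {x : V8} : Equiv.addLeft x ∈ G0 ↔ x ∈ L := by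
  constructor
  · rintro ⟨A, hA, l, hl, h1⟩
    have h2 : x + 0 = A 0 + l := h1 0
    rw [add_zero, LinearEquiv.map_zero, zero_add] at h2
    rwa [h2]
  · intro h
    exact ⟨1, GG0.one_mem, x, h, fun v => by simp [add_comm]⟩

lemma A1_mem : A1 ∈ GG0 := by
  refine ⟨fun x => ?_, fun x y => ?_, fun x y => ?_, fun x y => ?_⟩
  · rw [A1_apply, mem_L, mem_L]
    constructor
    · intro h i
      have h1 := omb_mem (h i).1
      have h2 := om_mem (h i).2
      simp only [Pi.smul_apply, smul_eq_mul, ← mul_assoc, omb_om, om_omb, one_mul] at h1 h2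
      exact ⟨h1, h2⟩
    · intro h i
      exact ⟨om_mem (h i).1, omb_mem (h i).2⟩
  · rw [S0_apply, S0_apply, A1_apply, A1_apply]
    refine Finset.sum_congr rfl fun i _ => ?_
    simp only [Pi.smul_apply, smul_eq_mul]
    linear_combination (x.1 i * y.2 i - x.2 i * y.1 i) * om_omb
  · unfold H0
    rw [HT_apply, HT_apply, A1_apply, A1_apply]
    refine Finset.sum_congr rfl fun i _ => ?_
    simp only [LinearMap.id_apply, Pi.smul_apply, smul_eq_mul, map_mul, om_conj, omb_conj]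
    linear_combination ((starRingEnd ℂ) (x.1 i) * y.1 i + (starRingEnd ℂ) (x.2 i) * y.2 i) * om_omb
  · unfold H1
    rw [HT_apply, HT_apply, A1_apply, A1_apply]
    refine Finset.sum_congr rfl fun i _ => ?_
    simp only [map_smul, Pi.smul_apply, smul_eq_mul, map_mul, om_conj, omb_conj]
    linear_combination ((starRingEnd ℂ) (x.1 i) * (Complex.I • (zt - zi)) y.1 i +
      (starRingEnd ℂ) (x.2 i) * (Complex.I • (zt - zi)) y.2 i) * om_omb

lemma B1_mem : B1 ∈ GG0 := by
  refine ⟨fun x => ?_, fun x y => ?_, fun x y => ?_, fun x y => ?_⟩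
  · rw [B1_apply, mem_L, mem_L]
    constructor
    · intro h i
      have h1 := R.neg_mem (h i).1
      simp only [Pi.neg_apply, neg_neg] at h1
      exact ⟨(h i).2, h1⟩
    · intro h i
      exact ⟨R.neg_mem (h i).2, (h i).1⟩
  · rw [S0_apply, S0_apply, B1_apply, B1_apply]
    refine Finset.sum_congr rfl fun i _ => ?_
    simp only [Pi.neg_apply]
    ring
  · unfold H0
    rw [HT_apply, HT_apply, B1_apply, B1_apply]
    refine Finset.sum_congr rfl fun i _ => ?_
    simp only [LinearMap.id_apply, Pi.neg_apply, map_neg]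
    ring
  · unfold H1
    rw [HT_apply, HT_apply, B1_apply, B1_apply]
    refine Finset.sum_congr rfl fun i _ => ?_
    simp only [map_neg, Pi.neg_apply]
    ring

lemma all4 {P : Fin 4 → Prop} : (∀ i, P i) ↔ P 0 ∧ P 1 ∧ P 2 ∧ P 3 := by
  constructor
  · intro h
    exact ⟨h 0, h 1, h 2, h 3⟩
  · rintro ⟨h0, h1, h2, h3⟩ i
    fin_cases i
    exacts [h0, h1, h2, h3]

lemma A2_mem : A2 ∈ GG0 := by
  refine ⟨fun x => ?_, fun x y => ?_, fun x y => ?_, fun x y => ?_⟩
  · rw [A2_apply, mem_L, mem_L, all4, all4]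
    simp only [zt_apply, Matrix.cons_val_zero, Matrix.cons_val_one, Matrix.cons_val, neg_mem_iff]
    tauto
  · rw [S0_apply, S0_apply, A2_apply, A2_apply]
    simp [Fin.sum_univ_four, zt_apply]
    ring
  · unfold H0
    rw [HT_apply, HT_apply, A2_apply, A2_apply]
    simp [Fin.sum_univ_four, zt_apply]
    ring
  · unfold H1
    rw [HT_apply, HT_apply, A2_apply, A2_apply]
    simp [Fin.sum_univ_four, zt_apply, zi_apply]
    ring

lemma B2_mem : B2 ∈ GG0 := by
  refine ⟨fun x => ?_, fun x y => ?_, fun x y => ?_, fun x y => ?_⟩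
  · rw [B2_apply, mem_L, mem_L, all4, all4]
    simp only [ga_apply, Matrix.cons_val_zero, Matrix.cons_val_one, Matrix.cons_val, neg_mem_iff]
    tauto
  · rw [S0_apply, S0_apply, B2_apply, B2_apply]
    simp [Fin.sum_univ_four, ga_apply]
    ring
  · unfold H0
    rw [HT_apply, HT_apply, B2_apply, B2_apply]
    simp [Fin.sum_univ_four, ga_apply]
    ring
  · unfold H1
    rw [HT_apply, HT_apply, B2_apply, B2_apply]
    simp [Fin.sum_univ_four, zt_apply, zi_apply, ga_apply]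
    ring

end Pool.Agent.MP_e4ecdb_ag.DEx
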