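import Pool.Agent.MP_e4ecdb_ag.DExB
open Module

/-! The example: the lattice is irreducible. -/

namespace Pool.Agent.MP_e4ecdb_ag.DEx

open SYZ

variable {W : Submodule ℝ V8}

/-- stability under the four generators -/
def St (W : Submodule ℝ V8) : Prop :=
  ∀ x ∈ W, A1 x ∈ W ∧ B1 x ∈ W ∧ A2 x ∈ W ∧ B2 x ∈ W

lemma st_of (h : ∀ γ ∈ G0, ∀ x ∈ W, lin γ x ∈ W) : St W := by
  have h1 := (forall_lin (P := fun f => ∀ x ∈ W, f x ∈ W)).1 h
  exact fun x hx => ⟨h1 _ A1_mem x hx, h1 _ B1_mem x hx, h1 _ A2_mem x hx, h1 _ B2_mem x hx⟩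

/-- left multiplication by a complex number -/
lemma st_c (hW : St W) {x : V8} (hx : x ∈ W) (c : ℂ) :
    ((c • x.1, (starRingEnd ℂ) c • x.2) : V8) ∈ W := by
  have h3 : (Real.sqrt 3 : ℝ) ≠ 0 := by
    have : (0 : ℝ) < Real.sqrt 3 := Real.sqrt_pos.2 (by norm_num)
    exact this.ne'
  have h1 : ((c • x.1, (starRingEnd ℂ) c • x.2) : V8) =
      (c.re - c.im / Real.sqrt 3) • x + (2 * c.im / Real.sqrt 3) • A1 x := by
    have e1 : c = ((c.re - c.im / Real.sqrt 3 : ℝ) : ℂ) + ((2 * c.im / Real.sqrt 3 : ℝ) : ℂ) * om := by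
      apply Complex.ext
      · rw [Complex.add_re, Complex.re_ofReal_mul, Complex.ofReal_re, om_re]
        ring
      · rw [Complex.add_im, Complex.im_ofReal_mul, Complex.ofReal_im, om_im]
        field_simp
        ring
    have e2 : (starRingEnd ℂ) c =
        ((c.re - c.im / Real.sqrt 3 : ℝ) : ℂ) + ((2 * c.im / Real.sqrt 3 : ℝ) : ℂ) * omb := by
      conv_lhs => rw [e1]
      rw [map_add, map_mul, om_conj, Complex.conj_ofReal, Complex.conj_ofReal]
    refine Prod.ext ?_ ?_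
    · change c • x.1 = (c.re - c.im / Real.sqrt 3) • x.1 + (2 * c.im / Real.sqrt 3) • (om • x.1)
      conv_lhs => rw [e1]
      rw [add_smul, mul_smul, Complex.coe_smul, Complex.coe_smul]
    · change (starRingEnd ℂ) c • x.2 =
        (c.re - c.im / Real.sqrt 3) • x.2 + (2 * c.im / Real.sqrt 3) • (omb • x.2)
      rw [e2, add_smul, mul_smul, Complex.coe_smul, Complex.coe_smul]
  rw [h1]
  exact W.add_mem (W.smul_mem _ hx) (W.smul_mem _ (hW x hx).1)

/-- left multiplication by a quaternion -/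
lemma st_q (hW : St W) {x : V8} (hx : x ∈ W) (c d : ℂ) :
    ((c • x.1 - (starRingEnd ℂ) d • x.2, (starRingEnd ℂ) c • x.2 + d • x.1) : V8) ∈ W := by
  have h1 := W.add_mem (st_c hW hx c) (hW _ (st_c hW hx d)).2.1
  rw [B1_apply] at h1
  convert h1 using 1
  refine Prod.ext ?_ ?_
  · change c • x.1 - (starRingEnd ℂ) d • x.2 = c • x.1 + -((starRingEnd ℂ) d • x.2)
    rw [sub_eq_add_neg]
  · rfl

/-- multiplication by the square root of `-2` -/
lemma st_s (hW : St W) {x : V8} (hx : x ∈ W) :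
    ((![-x.1 1 - x.1 3, x.1 0 - x.1 2, x.1 1 - x.1 3, x.1 0 + x.1 2],
      ![-x.2 1 - x.2 3, x.2 0 - x.2 2, x.2 1 - x.2 3, x.2 0 + x.2 2]) : V8) ∈ W := by
  have h1 := (hW x hx).2.2.1
  have h3 := (hW _ (hW _ h1).2.2.1).2.2.1
  have h4 := W.add_mem h1 h3
  convert h4 using 1
  rw [A2_apply, A2_apply, A2_apply]
  refine Prod.ext ?_ ?_
  · ext i
    fin_cases i <;> simp [zt_apply] <;> ring
  · ext i
    fin_cases i <;> simp [zt_apply] <;> ring

/-- The first basis vector generates. -/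
lemma top_of (hW : St W) (h0 : ((![1, 0, 0, 0], 0) : V8) ∈ W) : W = ⊤ := by
  have e0 : ∀ c d : ℂ, ((![c, 0, 0, 0], ![d, 0, 0, 0]) : V8) ∈ W := by
    intro c d
    have := st_q hW h0 c d
    convert this using 1
    refine Prod.ext ?_ ?_
    · ext i
      fin_cases i <;> simp
    · ext i
      fin_cases i <;> simp
  have e1 : ∀ c d : ℂ, ((![0, c, 0, 0], ![0, d, 0, 0]) : V8) ∈ W := by
    intro c d
    have := (hW _ (e0 c d)).2.2.1
    convert this using 1
    rw [A2_apply]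
    refine Prod.ext ?_ ?_
    · ext i
      fin_cases i <;> simp [zt_apply]
    · ext i
      fin_cases i <;> simp [zt_apply]
  have e2 : ∀ c d : ℂ, ((![0, 0, c, 0], ![0, 0, d, 0]) : V8) ∈ W := by
    intro c d
    have := (hW _ (e1 c d)).2.2.1
    convert this using 1
    rw [A2_apply]
    refine Prod.ext ?_ ?_
    · ext i
      fin_cases i <;> simp [zt_apply]
    · ext i
      fin_cases i <;> simp [zt_apply]
  have e3 : ∀ c d : ℂ, ((![0, 0, 0, c], ![0, 0, 0, d]) : V8) ∈ W := by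
    intro c d
    have := (hW _ (e2 c d)).2.2.1
    convert this using 1
    rw [A2_apply]
    refine Prod.ext ?_ ?_
    · ext i
      fin_cases i <;> simp [zt_apply]
    · ext i
      fin_cases i <;> simp [zt_apply]
  rw [eq_top_iff]
  intro x _
  have h5 := W.add_mem (W.add_mem (W.add_mem (e0 (x.1 0) (x.2 0)) (e1 (x.1 1) (x.2 1)))
    (e2 (x.1 2) (x.2 2))) (e3 (x.1 3) (x.2 3))
  convert h5 using 1
  refine Prod.ext ?_ ?_
  · ext i
    fin_cases i <;> simp
  · ext i
    fin_cases i <;> simp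

/-- A nonzero element of the quaternion algebra is invertible. -/
lemma unit_of (hW : St W) {z1 z2 w1 w2 : ℂ}
    (hx : ((![z1, z2, 0, z2], ![w1, w2, 0, w2]) : V8) ∈ W)
    (h1 : z1 ∈ R) (h2 : w1 ∈ R) (h3 : z2 ∈ R) (h4 : w2 ∈ R)
    (hne : ¬ (z1 = 0 ∧ w1 = 0 ∧ z2 = 0 ∧ w2 = 0)) : ((![1, 0, 0, 0], 0) : V8) ∈ W := by
  set α : ℝ := Complex.normSq z1 + Complex.normSq w1 - 2 * (Complex.normSq z2 + Complex.normSq w2)
    with hα
  set β : ℝ := 2 * ((starRingEnd ℂ) z1 * z2).re + 2 * ((starRingEnd ℂ) w1 * w2).re with hβ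
  have hab : α ^ 2 + 2 * β ^ 2 ≠ 0 := by
    intro h
    have ha : α = 0 := by nlinarith [sq_nonneg α, sq_nonneg β]
    have hb : β = 0 := by nlinarith [sq_nonneg α, sq_nonneg β]
    exact hne (aniso h1 h2 h3 h4 ha hb)
  have e1 : (α : ℂ) = (starRingEnd ℂ) z1 * z1 + (starRingEnd ℂ) w1 * w1 -
      2 * ((starRingEnd ℂ) z2 * z2 + (starRingEnd ℂ) w2 * w2) := by
    rw [hα]
    push_cast
    rw [Complex.normSq_eq_conj_mul_self, Complex.normSq_eq_conj_mul_self,
      Complex.normSq_eq_conj_mul_self, Complex.normSq_eq_conj_mul_self]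
  have hre : ∀ z w : ℂ, ((2 * ((starRingEnd ℂ) z * w).re : ℝ) : ℂ) =
      (starRingEnd ℂ) z * w + (starRingEnd ℂ) w * z := by
    intro z w
    have := Complex.add_conj ((starRingEnd ℂ) z * w)
    rw [← this, map_mul, Complex.conj_conj, mul_comm z]
  have e2 : (β : ℂ) = (starRingEnd ℂ) z1 * z2 + (starRingEnd ℂ) w1 * w2 +
      ((starRingEnd ℂ) z2 * z1 + (starRingEnd ℂ) w2 * w1) := by
    rw [hβ, Complex.ofReal_add, hre, hre]
    ring
  have g1 := st_q hW hx ((starRingEnd ℂ) z1) (-w1)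
  have g2 := st_s hW (st_q hW hx ((starRingEnd ℂ) z2) (-w2))
  have g3 : ((![(α : ℂ), (β : ℂ), 0, (β : ℂ)], 0) : V8) ∈ W := by
    convert W.add_mem g1 g2 using 1
    refine Prod.ext ?_ ?_
    · ext i
      fin_cases i
      · simp [e1]
        ring
      · simp [e2]
      · simp
      · simp [e2]
    · ext i
      fin_cases i <;> simp <;> ring
  have g4 := st_s hW g3
  have g5 := W.sub_mem (W.smul_mem α g3) (W.smul_mem β g4)
  have g6 := W.smul_mem (α ^ 2 + 2 * β ^ 2)⁻¹ g5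
  convert g6 using 1
  have hab' : ((α : ℂ) ^ 2 + 2 * (β : ℂ) ^ 2) ≠ 0 := by exact_mod_cast hab
  refine Prod.ext ?_ ?_
  · ext i
    fin_cases i
    · simp
      field_simp
      ring
    · simp
      right
      ring
    · simp
    · simp
      right
      ring
  · ext i
    fin_cases i <;> simp

/-- A stable subspace containing a nonzero lattice vector is everything. -/
theorem irr' (hW : St W) {x : V8} (hx1 : x ∈ L) (hx2 : x ∈ W) (hx3 : x ≠ 0) : W = ⊤ := by
  apply top_of hW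
  -- first projection
  have p1 := W.add_mem hx2 (hW x hx2).2.2.2
  have p2 := (hW _ (hW x hx2).2.2.1).2.2.1
  have p3 := W.add_mem p2 (hW _ p2).2.2.2
  by_cases c1 : 2 * x.1 0 = 0 ∧ 2 * x.2 0 = 0 ∧ x.1 1 + x.1 3 = 0 ∧ x.2 1 + x.2 3 = 0
  · have q3 : ((![-(2 * x.1 2), x.1 1 - x.1 3, 0, x.1 1 - x.1 3],
        ![-(2 * x.2 2), x.2 1 - x.2 3, 0, x.2 1 - x.2 3]) : V8) ∈ W := by
      convert p3 using 1
      rw [A2_apply, A2_apply, B2_apply]
      refine Prod.ext ?_ ?_
      · ext i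
        fin_cases i <;> simp [zt_apply, ga_apply] <;> ring
      · ext i
        fin_cases i <;> simp [zt_apply, ga_apply] <;> ring
    refine unit_of hW q3 ?_ ?_ ?_ ?_ ?_
    · rw [two_mul]
      exact R.neg_mem (R.add_mem (hx1 2).1 (hx1 2).1)
    · rw [two_mul]
      exact R.neg_mem (R.add_mem (hx1 2).2 (hx1 2).2)
    · exact R.sub_mem (hx1 1).1 (hx1 3).1
    · exact R.sub_mem (hx1 1).2 (hx1 3).2
    · rintro ⟨d1, d2, d3, d4⟩
      obtain ⟨c1, c2, c3, c4⟩ := c1
      apply hx3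
      have k0 : x.1 0 = 0 := by linear_combination c1 / 2
      have k1 : x.1 1 = 0 := by linear_combination (c3 + d3) / 2
      have k2 : x.1 2 = 0 := by linear_combination -d1 / 2
      have k3 : x.1 3 = 0 := by linear_combination (c3 - d3) / 2
      have l0 : x.2 0 = 0 := by linear_combination c2 / 2
      have l1 : x.2 1 = 0 := by linear_combination (c4 + d4) / 2
      have l2 : x.2 2 = 0 := by linear_combination -d2 / 2
      have l3 : x.2 3 = 0 := by linear_combination (c4 - d4) / 2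
      refine Prod.ext ?_ ?_
      · ext i
        fin_cases i
        exacts [k0, k1, k2, k3]
      · ext i
        fin_cases i
        exacts [l0, l1, l2, l3]
  · have q1 : ((![2 * x.1 0, x.1 1 + x.1 3, 0, x.1 1 + x.1 3],
        ![2 * x.2 0, x.2 1 + x.2 3, 0, x.2 1 + x.2 3]) : V8) ∈ W := by
      convert p1 using 1
      rw [B2_apply]
      refine Prod.ext ?_ ?_
      · ext i
        fin_cases i <;> simp [ga_apply] <;> ring
      · ext i
        fin_cases i <;> simp [ga_apply] <;> ring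
    refine unit_of hW q1 ?_ ?_ ?_ ?_ c1
    · rw [two_mul]
      exact R.add_mem (hx1 0).1 (hx1 0).1
    · rw [two_mul]
      exact R.add_mem (hx1 0).2 (hx1 0).2
    · exact R.add_mem (hx1 1).1 (hx1 3).1
    · exact R.add_mem (hx1 1).2 (hx1 3).2

end Pool.Agent.MP_e4ecdb_ag.DEx
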