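import Pool.Agent.MP_e4ecdb_ag.DExB
open Module

/-! The example: the crystallographic group. -/

namespace Pool.Agent.MP_e4ecdb_ag.DEx

open SYZ

/-- coordinates of a complex number in the basis `1, om` -/
noncomputable def co : ℂ ≃ₗ[ℝ] (Fin 2 → ℝ) where
  toFun z := ![z.re - z.im / Real.sqrt 3, 2 * z.im / Real.sqrt 3]
  map_add' x y := by
    ext i
    fin_cases i <;> simp <;> ring
  map_smul' c x := by
    ext i
    fin_cases i <;> simp <;> ring
  invFun f := (f 0 : ℂ) + (f 1 : ℂ) * om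
  left_inv z := by
    have h3 : (Real.sqrt 3 : ℝ) ≠ 0 := (Real.sqrt_pos.2 (by norm_num : (0 : ℝ) < 3)).ne'
    apply Complex.ext
    · simp [om_re]
      ring
    · simp [om_im]
      field_simp
  right_inv f := by
    have h3 : (Real.sqrt 3 : ℝ) ≠ 0 := (Real.sqrt_pos.2 (by norm_num : (0 : ℝ) < 3)).ne'
    ext i
    fin_cases i
    · simp [om_re, om_im]
      field_simp
      ring
    · simp [om_im]
      field_simp

lemma co_symm (f : Fin 2 → ℝ) : co.symm f = (f 0 : ℂ) + (f 1 : ℂ) * om := rfl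

lemma mem_R_iff (z : ℂ) : z ∈ R ↔ ∀ i, co z i ∈ Set.range (algebraMap ℤ ℝ) := by
  constructor
  · rintro ⟨a, b, rfl⟩ i
    have h1 : co ((a : ℂ) + b * om) = ![(a : ℝ), (b : ℝ)] := by
      rw [← LinearEquiv.eq_symm_apply, co_symm]
      simp
    rw [h1]
    fin_cases i
    · exact ⟨a, by simp⟩
    · exact ⟨b, by simp⟩
  · intro h
    obtain ⟨a, ha⟩ := h 0
    obtain ⟨b, hb⟩ := h 1
    refine ⟨a, b, ?_⟩
    have h1 : z = co.symm (co z) := (co.symm_apply_apply z).symm
    rw [h1, co_symm, ← ha, ← hb]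
    simp

/-- the index type of the basis -/
abbrev Ix := (Fin 4 × Fin 2) ⊕ (Fin 4 × Fin 2)

/-- coordinates on `V8` -/
noncomputable def cV : V8 ≃ₗ[ℝ] (Ix → ℝ) where
  toFun x := Sum.elim (fun p => co (x.1 p.1) p.2) (fun p => co (x.2 p.1) p.2)
  map_add' x y := by
    ext i
    rcases i with i | i <;> simp
  map_smul' c x := by
    ext i
    rcases i with i | i
    · change co (c • x.1 i.1) i.2 = c * co (x.1 i.1) i.2
      rw [map_smul]
      rfl
    · change co (c • x.2 i.1) i.2 = c * co (x.2 i.1) i.2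
      rw [map_smul]
      rfl
  invFun f := (fun j => co.symm (fun k => f (Sum.inl (j, k))), fun j => co.symm (fun k => f (Sum.inr (j, k))))
  left_inv x := by
    refine Prod.ext ?_ ?_
    · ext j
      exact co.symm_apply_apply (x.1 j)
    · ext j
      exact co.symm_apply_apply (x.2 j)
  right_inv f := by
    ext i
    rcases i with ⟨j, k⟩ | ⟨j, k⟩
    · exact congrFun (co.apply_symm_apply (fun k => f (Sum.inl (j, k)))) k
    · exact congrFun (co.apply_symm_apply (fun k => f (Sum.inr (j, k)))) k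

/-- the lattice basis -/
noncomputable def bV : Basis Ix ℝ V8 := Basis.ofEquivFun cV

lemma mem_span_bV (x : V8) : x ∈ Submodule.span ℤ (Set.range bV) ↔ x ∈ L := by
  rw [Basis.mem_span_iff_repr_mem, mem_L]
  constructor
  · intro h j
    rw [mem_R_iff, mem_R_iff]
    refine ⟨fun k => ?_, fun k => ?_⟩
    · exact h (Sum.inl (j, k))
    · exact h (Sum.inr (j, k))
  · rintro h (⟨j, k⟩ | ⟨j, k⟩)
    · exact (mem_R_iff _).1 (h j).1 k
    · exact (mem_R_iff _).1 (h j).2 k

lemma H0_self (x : V8) : (H0 x x).re = ∑ i, (Complex.normSq (x.1 i) + Complex.normSq (x.2 i)) := by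
  unfold H0
  rw [HT_apply, Complex.re_sum]
  refine Finset.sum_congr rfl fun i _ => ?_
  rw [LinearMap.id_apply, LinearMap.id_apply, ← Complex.normSq_eq_conj_mul_self,
    ← Complex.normSq_eq_conj_mul_self, Complex.add_re, Complex.ofReal_re, Complex.ofReal_re]

lemma bound (x : V8) {C : ℝ} (hC : 0 ≤ C) (h : (H0 x x).re ≤ C ^ 2) : ‖x‖ ≤ C := by
  rw [H0_self] at h
  have h1 : ∀ i, ‖x.1 i‖ ^ 2 ≤ C ^ 2 ∧ ‖x.2 i‖ ^ 2 ≤ C ^ 2 := by
    intro i
    have h2 : Complex.normSq (x.1 i) + Complex.normSq (x.2 i) ≤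
        ∑ i, (Complex.normSq (x.1 i) + Complex.normSq (x.2 i)) :=
      Finset.single_le_sum (f := fun i => Complex.normSq (x.1 i) + Complex.normSq (x.2 i))
        (fun i _ => add_nonneg (Complex.normSq_nonneg _) (Complex.normSq_nonneg _))
        (Finset.mem_univ i)
    have h3 := Complex.normSq_nonneg (x.1 i)
    have h4 := Complex.normSq_nonneg (x.2 i)
    rw [← Complex.normSq_eq_norm_sq, ← Complex.normSq_eq_norm_sq]
    constructor <;> linarith
  rw [Prod.norm_def, max_le_iff, pi_norm_le_iff_of_nonneg hC, pi_norm_le_iff_of_nonneg hC]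
  exact ⟨fun i => le_of_sq_le_sq (h1 i).1 hC, fun i => le_of_sq_le_sq (h1 i).2 hC⟩

lemma finite_G : ({f : V8 → V8 | ∃ γ ∈ G0, lin γ = f}).Finite := by
  -- a bound for the images of the basis
  obtain ⟨C, hC0, hC⟩ : ∃ C : ℝ, 0 ≤ C ∧ ∀ i, (H0 (bV i) (bV i)).re ≤ C ^ 2 := by
    refine ⟨1 + ∑ i, |(H0 (bV i) (bV i)).re|, ?_, fun i => ?_⟩
    · have := Finset.sum_nonneg (s := Finset.univ) (f := fun i => |(H0 (bV i) (bV i)).re|)
        fun i _ => abs_nonneg _
      linarith
    · have h1 : |(H0 (bV i) (bV i)).re| ≤ ∑ i, |(H0 (bV i) (bV i)).re| :=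
        Finset.single_le_sum (f := fun i => |(H0 (bV i) (bV i)).re|) (fun i _ => abs_nonneg _)
          (Finset.mem_univ i)
      have h2 := le_abs_self (H0 (bV i) (bV i)).re
      have h3 := abs_nonneg (H0 (bV i) (bV i)).re
      nlinarith
  have hfin : (Metric.closedBall (0 : V8) C ∩ Submodule.span ℤ (Set.range bV) : Set V8).Finite :=
    ZSpan.setFinite_inter bV Metric.isBounded_closedBall
  have hfin2 := Set.Finite.pi' (ι := Ix) (fun _ : Ix => hfin)
  refine Set.Finite.subset (hfin2.image fun F : Ix → V8 => fun x : V8 =>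
    ∑ i, bV.repr x i • F i) ?_
  rintro f ⟨γ, hγ, rfl⟩
  obtain ⟨A, hA, h1⟩ := lin_of hγ
  refine ⟨fun i => A (bV i), fun i => ⟨?_, ?_⟩, ?_⟩
  · rw [mem_closedBall_zero_iff]
    apply bound _ hC0
    rw [hA.2.2.1]
    exact hC i
  · rw [SetLike.mem_coe, mem_span_bV, hA.1, ← mem_span_bV]
    exact Submodule.subset_span ⟨i, rfl⟩
  · funext x
    rw [h1]
    conv_rhs => rw [← bV.sum_repr x]
    have h2 : A (∑ i, bV.repr x i • bV i) = (A.restrictScalars ℝ) (∑ i, bV.repr x i • bV i) := rfl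
    rw [h2, map_sum]
    refine Finset.sum_congr rfl fun i _ => ?_
    rw [map_smul]
    rfl

theorem cryst : IsCryst G0 where
  affine := by
    rintro γ ⟨A, hA, l, hl, h1⟩
    refine ⟨A, fun v => ?_⟩
    rw [h1, h1, map_zero, zero_add]
  lattice := ⟨Ix, inferInstance, bV, fun x => (mem_span_bV x).trans addLeft_iff.symm⟩
  finite := finite_G

end Pool.Agent.MP_e4ecdb_ag.DEx
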