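import Pool.Agent.MP_e4ecdb_ag.DExB
open Module

/-! The example: the invariant forms. -/

namespace Pool.Agent.MP_e4ecdb_ag.DEx

open SYZ

/-- the basis vectors of the first factor -/
noncomputable def p (i : Fin 4) : V8 := (Pi.single i 1, 0)

/-- the basis vectors of the second factor -/
noncomputable def r (i : Fin 4) : V8 := (0, Pi.single i 1)

/-- the standard basis -/
noncomputable def bC : Basis (Fin 4 ⊕ Fin 4) ℂ V8 := (Pi.basisFun ℂ (Fin 4)).prod (Pi.basisFun ℂ (Fin 4))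

lemma bC_inl (i : Fin 4) : bC (Sum.inl i) = p i := by
  unfold bC p
  refine Prod.ext ?_ ?_ <;> simp

lemma bC_inr (i : Fin 4) : bC (Sum.inr i) = r i := by
  unfold bC r
  refine Prod.ext ?_ ?_ <;> simp

lemma A1_p (i : Fin 4) : A1 (p i) = om • p i := by
  unfold p
  rw [A1_apply]
  simp

lemma A1_r (i : Fin 4) : A1 (r i) = omb • r i := by
  unfold r
  rw [A1_apply]
  simp

lemma B1_p (i : Fin 4) : B1 (p i) = r i := by
  unfold p r
  rw [B1_apply]
  simp

lemma B1_r (i : Fin 4) : B1 (r i) = -p i := by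
  unfold p r
  rw [B1_apply]
  simp

lemma zt_single : zt (Pi.single 0 1) = Pi.single 1 1 ∧ zt (Pi.single 1 1) = Pi.single 2 1 ∧
    zt (Pi.single 2 1) = Pi.single 3 1 ∧ zt (Pi.single 3 1) = -Pi.single 0 1 := by
  refine ⟨?_, ?_, ?_, ?_⟩ <;> ext i <;> fin_cases i <;> simp [zt_apply]

lemma ga_single : ga (Pi.single 0 1) = Pi.single 0 1 ∧ ga (Pi.single 1 1) = Pi.single 3 1 ∧
    ga (Pi.single 2 1) = -Pi.single 2 1 ∧ ga (Pi.single 3 1) = Pi.single 1 1 := by
  refine ⟨?_, ?_, ?_, ?_⟩ <;> ext i <;> fin_cases i <;> simp [ga_apply]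

lemma A2_p0 : A2 (p 0) = p 1 := by
  unfold p
  rw [A2_apply, zt_single.1, map_zero]
lemma A2_p1 : A2 (p 1) = p 2 := by
  unfold p
  rw [A2_apply, zt_single.2.1, map_zero]
lemma A2_p2 : A2 (p 2) = p 3 := by
  unfold p
  rw [A2_apply, zt_single.2.2.1, map_zero]
lemma A2_p3 : A2 (p 3) = -p 0 := by
  unfold p
  rw [A2_apply, zt_single.2.2.2, map_zero]
  simp
lemma A2_r0 : A2 (r 0) = r 1 := by
  unfold r
  rw [A2_apply, zt_single.1, map_zero]
lemma A2_r1 : A2 (r 1) = r 2 := by
  unfold r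
  rw [A2_apply, zt_single.2.1, map_zero]
lemma A2_r2 : A2 (r 2) = r 3 := by
  unfold r
  rw [A2_apply, zt_single.2.2.1, map_zero]
lemma A2_r3 : A2 (r 3) = -r 0 := by
  unfold r
  rw [A2_apply, zt_single.2.2.2, map_zero]
  simp
lemma B2_p0 : B2 (p 0) = p 0 := by
  unfold p
  rw [B2_apply, ga_single.1, map_zero]
lemma B2_p1 : B2 (p 1) = p 3 := by
  unfold p
  rw [B2_apply, ga_single.2.1, map_zero]
lemma B2_p2 : B2 (p 2) = -p 2 := by
  unfold p
  rw [B2_apply, ga_single.2.2.1, map_zero]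
  simp
lemma B2_p3 : B2 (p 3) = p 1 := by
  unfold p
  rw [B2_apply, ga_single.2.2.2, map_zero]
lemma B2_r0 : B2 (r 0) = r 0 := by
  unfold r
  rw [B2_apply, ga_single.1, map_zero]
lemma B2_r1 : B2 (r 1) = r 3 := by
  unfold r
  rw [B2_apply, ga_single.2.1, map_zero]
lemma B2_r2 : B2 (r 2) = -r 2 := by
  unfold r
  rw [B2_apply, ga_single.2.2.1, map_zero]
  simp
lemma B2_r3 : B2 (r 3) = r 1 := by
  unfold r
  rw [B2_apply, ga_single.2.2.2, map_zero]

/-- Consequences of invariance for a matrix `T`. -/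
lemma mat (T : Fin 4 → Fin 4 → ℂ)
    (a01 : T 1 2 = T 0 1) (a12 : T 2 3 = T 1 2) (a23 : -T 3 0 = T 2 3)
    (a02 : T 1 3 = T 0 2) (a13 : -T 2 0 = T 1 3) (a20 : T 3 1 = T 2 0)
    (a03 : -T 1 0 = T 0 3) (a10 : T 2 1 = T 1 0) (a21 : T 3 2 = T 2 1)
    (a00 : T 1 1 = T 0 0) (a11 : T 2 2 = T 1 1) (a22 : T 3 3 = T 2 2)
    (b01 : T 0 3 = T 0 1) (b02 : -T 0 2 = T 0 2) :
    ∀ i j, T i j = T 0 0 * (if i = j then 1 else 0) +
      T 0 1 * ((![![0, 1, 0, 1], ![-1, 0, 1, 0], ![0, -1, 0, 1], ![-1, 0, -1, 0]] :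
        Fin 4 → Fin 4 → ℂ) i j) := by
  have c02 : T 0 2 = 0 := by linear_combination -b02 / 2
  have c13 : T 1 3 = 0 := by rw [a02, c02]
  have c20 : T 2 0 = 0 := by linear_combination -a13 - c13
  have c31 : T 3 1 = 0 := by rw [a20, c20]
  have c10 : T 1 0 = -T 0 1 := by linear_combination -a03 - b01
  have c30 : T 3 0 = -T 0 1 := by linear_combination -a23 - a12 - a01
  intro i j
  fin_cases i <;> fin_cases j
  · simp
  · simp
  · simp [c02]
  · simp [b01]
  · simp [c10]
  · simp [a00]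
  · simp [a01]
  · simp [c13]
  · simp [c20]
  · simp [a10, c10]
  · simp [a11, a00]
  · simp [a12, a01]
  · simp [c30]
  · simp [c31]
  · simp [a21, a10, c10]
  · simp [a22, a11, a00]

/-- The invariant alternating forms. -/
theorem prim0 (τ : LinearMap.BilinForm ℂ V8) (halt : ∀ x, τ x x = 0)
    (h : ∀ A ∈ GG0, ∀ x y, τ (A x) (A y) = τ x y) : ∃ c : ℂ, τ = c • S0 := by
  have hanti : ∀ x y, τ x y = -τ y x := by
    intro x y
    have h1 := halt (x + y)
    simp only [map_add, LinearMap.add_apply, halt] at h1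
    linear_combination h1
  have hA1 := h _ A1_mem
  have hB1 := h _ B1_mem
  have hA2 := h _ A2_mem
  have hB2 := h _ B2_mem
  have e1 : ∀ i j, τ (p i) (p j) = 0 := by
    intro i j
    have h1 := hA1 (p i) (p j)
    simp only [A1_p, map_smul, LinearMap.smul_apply, smul_eq_mul] at h1
    have h2 : (om ^ 2 - 1) * τ (p i) (p j) = 0 := by linear_combination h1
    exact (mul_eq_zero.1 h2).resolve_left (sub_ne_zero.2 om_ne)
  have e2 : ∀ i j, τ (r i) (r j) = 0 := by
    intro i j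
    have h1 := hA1 (r i) (r j)
    simp only [A1_r, map_smul, LinearMap.smul_apply, smul_eq_mul] at h1
    have h2 : (omb ^ 2 - 1) * τ (r i) (r j) = 0 := by linear_combination h1
    exact (mul_eq_zero.1 h2).resolve_left (sub_ne_zero.2 omb_ne)
  have e3 : ∀ i j, τ (p i) (r j) = τ (p j) (r i) := by
    intro i j
    have h1 := hB1 (p i) (r j)
    rw [B1_p, B1_r, map_neg] at h1
    rw [← h1, hanti (p j)]
  set T : Fin 4 → Fin 4 → ℂ := fun i j => τ (p i) (r j) with hT
  have e4 := mat T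
    (by have := hA2 (p 0) (r 1); rwa [A2_p0, A2_r1] at this)
    (by have := hA2 (p 1) (r 2); rwa [A2_p1, A2_r2] at this)
    (by have := hA2 (p 2) (r 3); rwa [A2_p2, A2_r3, map_neg] at this)
    (by have := hA2 (p 0) (r 2); rwa [A2_p0, A2_r2] at this)
    (by have := hA2 (p 1) (r 3); rwa [A2_p1, A2_r3, map_neg] at this)
    (by have := hA2 (p 2) (r 0); rwa [A2_p2, A2_r0] at this)
    (by have := hA2 (p 0) (r 3); rwa [A2_p0, A2_r3, map_neg] at this)
    (by have := hA2 (p 1) (r 0); rwa [A2_p1, A2_r0] at this)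
    (by have := hA2 (p 2) (r 1); rwa [A2_p2, A2_r1] at this)
    (by have := hA2 (p 0) (r 0); rwa [A2_p0, A2_r0] at this)
    (by have := hA2 (p 1) (r 1); rwa [A2_p1, A2_r1] at this)
    (by have := hA2 (p 2) (r 2); rwa [A2_p2, A2_r2] at this)
    (by have := hB2 (p 0) (r 1); rwa [B2_p0, B2_r1] at this)
    (by have := hB2 (p 0) (r 2); rwa [B2_p0, B2_r2, map_neg] at this)
  have c01 : T 0 1 = 0 := by
    have h1 : T 1 0 = T 0 1 := e3 1 0
    have h2 := e4 1 0
    simp at h2
    linear_combination (h2 - h1) / 2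
  refine ⟨T 0 0, LinearMap.ext_basis bC bC fun i j => ?_⟩
  rcases i with i | i <;> rcases j with j | j
  · rw [bC_inl, bC_inl, e1, LinearMap.smul_apply, LinearMap.smul_apply, S0_apply]
    simp [p]
  · rw [bC_inl, bC_inr, LinearMap.smul_apply, LinearMap.smul_apply, S0_apply]
    have h1 : τ (p i) (r j) = T i j := rfl
    rw [h1, e4, c01]
    simp [p, r, Pi.single_apply, eq_comm]
  · rw [bC_inr, bC_inl, LinearMap.smul_apply, LinearMap.smul_apply, S0_apply, hanti]
    have h1 : τ (p j) (r i) = T j i := rfl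
    rw [h1, e4, c01]
    simp [p, r, Pi.single_apply, eq_comm]
  · rw [bC_inr, bC_inr, e2, LinearMap.smul_apply, LinearMap.smul_apply, S0_apply]
    simp [r]

theorem primSympl : IsPrimSympl G0 S0 where
  alt x := by
    rw [S0_apply]
    refine Finset.sum_eq_zero fun i _ => ?_
    ring
  nondeg x h := by
    refine Prod.ext ?_ ?_
    · ext i
      have := h (r i)
      rw [S0_apply] at this
      simpa [r, Pi.single_apply] using this
    · ext i
      have := h (p i)
      rw [S0_apply] at this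
      simpa [p, Pi.single_apply] using this
  inv γ hγ x y := by
    obtain ⟨A, hA, h1⟩ := lin_of hγ
    rw [h1, h1]
    exact hA.2.1 x y
  prim τ halt h := by
    refine prim0 τ halt fun A hA => ?_
    exact (forall_lin (P := fun f => ∀ x y, τ (f x) (f y) = τ x y)).1 h A hA
  no_inv x h := by
    have h1 := (forall_lin (P := fun f => f x = x)).1 h _ A1_mem
    rw [A1_apply] at h1
    have h2 := congrArg Prod.fst h1
    have h3 := congrArg Prod.snd h1
    refine Prod.ext ?_ ?_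
    · have h4 : (om - 1) • x.1 = 0 := by
        rw [sub_smul, one_smul, sub_eq_zero]
        exact h2
      exact (smul_eq_zero.1 h4).resolve_left (sub_ne_zero.2 om_ne_one)
    · have h4 : (omb - 1) • x.2 = 0 := by
        rw [sub_smul, one_smul, sub_eq_zero]
        exact h3
      exact (smul_eq_zero.1 h4).resolve_left (sub_ne_zero.2 omb_ne_one)

end Pool.Agent.MP_e4ecdb_ag.DEx
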