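import Pool.Agent.MP_e4ecdb_ag.DExC
import Pool.Agent.MP_e4ecdb_ag.DExD
import Pool.Agent.MP_e4ecdb_ag.DExE
open Module

/-! The example: the invariant hermitian forms. -/

namespace Pool.Agent.MP_e4ecdb_ag.DEx

open SYZ

/-- the matrix of multiplication by `-√-2` -/
def MM : Fin 4 → Fin 4 → ℂ := ![![0, 1, 0, 1], ![-1, 0, 1, 0], ![0, -1, 0, 1], ![-1, 0, -1, 0]]

lemma H0_pp (i j : Fin 4) : H0 (p i) (p j) = if i = j then 1 else 0 := by
  unfold H0
  rw [HT_apply]
  simp [p, Pi.single_apply, eq_comm]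

lemma H0_rr (i j : Fin 4) : H0 (r i) (r j) = if i = j then 1 else 0 := by
  unfold H0
  rw [HT_apply]
  simp [r, Pi.single_apply, eq_comm]

lemma HT_pr (T : Z →ₗ[ℂ] Z) (i j : Fin 4) : HT T (p i) (r j) = 0 := by
  rw [HT_apply]
  simp [p, r]

lemma HT_rp (T : Z →ₗ[ℂ] Z) (i j : Fin 4) : HT T (r i) (p j) = 0 := by
  rw [HT_apply]
  simp [p, r]

lemma H1_pp (i j : Fin 4) : H1 (p i) (p j) = -Complex.I * MM i j := by
  unfold H1
  rw [HT_apply]
  fin_cases i <;> fin_cases j <;> simp [p, MM, zt_apply, zi_apply, Fin.sum_univ_four]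

lemma H1_rr (i j : Fin 4) : H1 (r i) (r j) = -Complex.I * MM i j := by
  unfold H1
  rw [HT_apply]
  fin_cases i <;> fin_cases j <;> simp [r, MM, zt_apply, zi_apply, Fin.sum_univ_four]

lemma H0_mem : H0 ∈ H11 G0 := by
  refine ⟨fun x y => ?_, fun γ hγ x y => ?_⟩
  · unfold H0
    rw [HT_apply, HT_apply, map_sum]
    refine Finset.sum_congr rfl fun i _ => ?_
    simp only [LinearMap.id_apply, map_add, map_mul, Complex.conj_conj]
    ring
  · obtain ⟨A, hA, h1⟩ := lin_of hγ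
    rw [h1, h1]
    exact hA.2.2.1 x y

lemma H1_mem : H1 ∈ H11 G0 := by
  refine ⟨fun x y => ?_, fun γ hγ x y => ?_⟩
  · unfold H1
    rw [HT_apply, HT_apply]
    simp [Fin.sum_univ_four, zt_apply, zi_apply]
    ring
  · obtain ⟨A, hA, h1⟩ := lin_of hγ
    rw [h1, h1]
    exact hA.2.2.2 x y

lemma mem_H11 {H : V8 →ₗ⋆[ℂ] V8 →ₗ[ℂ] ℂ} (hH : H ∈ H11 G0) :
    ∃ a b : ℝ, H = a • H0 + b • H1 := by
  obtain ⟨hherm, hinv⟩ := hH
  have h := (forall_lin (P := fun f => ∀ x y, H (f x) (f y) = H x y)).1 hinv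
  have hA1 := h _ A1_mem
  have hB1 := h _ B1_mem
  have hA2 := h _ A2_mem
  have hB2 := h _ B2_mem
  have e1 : ∀ i j, H (p i) (r j) = 0 := by
    intro i j
    have h1 := hA1 (p i) (r j)
    rw [A1_p, A1_r] at h1
    simp only [LinearMap.map_smulₛₗ, LinearMap.smul_apply, smul_eq_mul, RingHom.id_apply, om_conj] at h1
    have h2 : (omb ^ 2 - 1) * H (p i) (r j) = 0 := by linear_combination h1
    exact (mul_eq_zero.1 h2).resolve_left (sub_ne_zero.2 omb_ne)
  have e2 : ∀ i j, H (r i) (p j) = 0 := by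
    intro i j
    rw [hherm, e1, map_zero]
  have e3 : ∀ i j, H (r i) (r j) = H (p i) (p j) := by
    intro i j
    have h1 := hB1 (p i) (p j)
    rwa [B1_p, B1_p] at h1
  set T : Fin 4 → Fin 4 → ℂ := fun i j => H (p i) (p j) with hT
  have e4 := mat T
    (by have := hA2 (p 0) (p 1); rwa [A2_p0, A2_p1] at this)
    (by have := hA2 (p 1) (p 2); rwa [A2_p1, A2_p2] at this)
    (by have := hA2 (p 2) (p 3); rwa [A2_p2, A2_p3, map_neg] at this)
    (by have := hA2 (p 0) (p 2); rwa [A2_p0, A2_p2] at this)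
    (by have := hA2 (p 1) (p 3); rwa [A2_p1, A2_p3, map_neg] at this)
    (by have := hA2 (p 2) (p 0); rwa [A2_p2, A2_p0] at this)
    (by have := hA2 (p 0) (p 3); rwa [A2_p0, A2_p3, map_neg] at this)
    (by have := hA2 (p 1) (p 0); rwa [A2_p1, A2_p0] at this)
    (by have := hA2 (p 2) (p 1); rwa [A2_p2, A2_p1] at this)
    (by have := hA2 (p 0) (p 0); rwa [A2_p0] at this)
    (by have := hA2 (p 1) (p 1); rwa [A2_p1] at this)
    (by have := hA2 (p 2) (p 2); rwa [A2_p2] at this)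
    (by have := hB2 (p 0) (p 1); rwa [B2_p0, B2_p1] at this)
    (by have := hB2 (p 0) (p 2); rwa [B2_p0, B2_p2, map_neg] at this)
  have c00 : T 0 0 = ((T 0 0).re : ℂ) := (Complex.conj_eq_iff_re.1 (hherm (p 0) (p 0)).symm).symm
  have c01 : T 0 1 = Complex.I * ((T 0 1).im : ℂ) := by
    have h1 : T 1 0 = (starRingEnd ℂ) (T 0 1) := hherm (p 1) (p 0)
    have h2 := e4 1 0
    simp at h2
    rw [h2] at h1
    have h3 := congrArg Complex.re h1
    rw [Complex.neg_re, Complex.conj_re] at h3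
    apply Complex.ext
    · simp
      linarith
    · simp
  refine ⟨(T 0 0).re, -(T 0 1).im, LinearMap.ext_basis bC bC fun i j => ?_⟩
  have g1 : ∀ x y : V8, ((T 0 0).re • H0 + -(T 0 1).im • H1 : V8 →ₗ⋆[ℂ] V8 →ₗ[ℂ] ℂ) x y =
      ((T 0 0).re : ℂ) * H0 x y - ((T 0 1).im : ℂ) * H1 x y := by
    intro x y
    rw [LinearMap.add_apply, LinearMap.add_apply, LinearMap.smul_apply, LinearMap.smul_apply,
      LinearMap.smul_apply, LinearMap.smul_apply, Complex.real_smul, Complex.real_smul]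
    push_cast
    ring
  have g2 : ∀ i j, T i j = ((T 0 0).re : ℂ) * (if i = j then 1 else 0) -
      ((T 0 1).im : ℂ) * (-Complex.I * MM i j) := by
    intro i j
    rw [e4 i j]
    conv_lhs => rw [c00, c01]
    unfold MM
    ring
  rw [g1]
  rcases i with i | i <;> rcases j with j | j
  · rw [bC_inl, bC_inl, H0_pp, H1_pp]
    exact g2 i j
  · rw [bC_inl, bC_inr, e1]
    unfold H0 H1
    rw [HT_pr, HT_pr]
    simp
  · rw [bC_inr, bC_inl, e2]
    unfold H0 H1
    rw [HT_rp, HT_rp]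
    simp
  · rw [bC_inr, bC_inr, e3, H0_rr, H1_rr]
    exact g2 i j

theorem h11_G0 : h11 G0 = 2 := by
  unfold h11
  have h1 : Submodule.span ℝ (H11 G0) = Submodule.span ℝ (Set.range ![H0, H1]) := by
    apply le_antisymm
    · rw [Submodule.span_le]
      intro H hH
      obtain ⟨a, b, rfl⟩ := mem_H11 hH
      refine Submodule.add_mem _ (Submodule.smul_mem _ _ (Submodule.subset_span ⟨0, rfl⟩))
        (Submodule.smul_mem _ _ (Submodule.subset_span ⟨1, rfl⟩))
    · rw [Submodule.span_le]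
      rintro _ ⟨i, rfl⟩
      fin_cases i
      · exact Submodule.subset_span H0_mem
      · exact Submodule.subset_span H1_mem
  have h2 : LinearIndependent ℝ ![H0, H1] := by
    rw [LinearIndependent.pair_iff]
    intro s t h
    have k1 : ∀ x y : V8, (s : ℂ) * H0 x y + (t : ℂ) * H1 x y = 0 := by
      intro x y
      have := congrArg (fun F : V8 →ₗ⋆[ℂ] V8 →ₗ[ℂ] ℂ => F x y) h
      simp only [LinearMap.add_apply, LinearMap.smul_apply, Complex.real_smul,
        LinearMap.zero_apply] at this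
      exact this
    have k2 := k1 (p 0) (p 0)
    have k3 := k1 (p 0) (p 1)
    rw [H0_pp, H1_pp] at k2 k3
    simp [MM] at k2 k3
    exact ⟨k2, k3⟩
  rw [h1, finrank_span_eq_card h2]
  simp

end Pool.Agent.MP_e4ecdb_ag.DEx
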