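import Pool.Agent.MP_e4ecdb_ag.DExF
open Module

/-! The example in dimension `8 (m + 1)`. -/

namespace Pool.Agent.MP_e4ecdb_ag.DEx

open SYZ

/-- `V8 ^ (m + 1)` -/
abbrev VM (m : ℕ) := Fin (m + 1) → V8

variable {m : ℕ}

/-- the lattice -/
def LM (m : ℕ) : AddSubgroup (VM m) where
  carrier := {x | ∀ k, x k ∈ L}
  add_mem' := fun hx hy k => L.add_mem (hx k) (hy k)
  zero_mem' := fun _ => L.zero_mem
  neg_mem' := fun hx k => L.neg_mem (hx k)

lemma mem_LM {x : VM m} : x ∈ LM m ↔ ∀ k, x k ∈ L := Iff.rfl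

/-- the symplectic form -/
noncomputable def SM (m : ℕ) : LinearMap.BilinForm ℂ (VM m) :=
  LinearMap.mk₂ ℂ (fun x y => ∑ k, S0 (x k) (y k))
    (by
      intro x x' y
      rw [← Finset.sum_add_distrib]
      refine Finset.sum_congr rfl fun i _ => ?_
      rw [Pi.add_apply, map_add, LinearMap.add_apply])
    (by
      intro c x y
      rw [smul_eq_mul, Finset.mul_sum]
      refine Finset.sum_congr rfl fun i _ => ?_
      rw [Pi.smul_apply, map_smul, LinearMap.smul_apply, smul_eq_mul])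
    (by
      intro x y y'
      rw [← Finset.sum_add_distrib]
      refine Finset.sum_congr rfl fun i _ => ?_
      rw [Pi.add_apply, map_add])
    (by
      intro c x y
      rw [smul_eq_mul, Finset.mul_sum]
      refine Finset.sum_congr rfl fun i _ => ?_
      rw [Pi.smul_apply, map_smul, smul_eq_mul])

lemma SM_apply (x y : VM m) : SM m x y = ∑ k, S0 (x k) (y k) := rfl

/-- the sum of the hermitian forms of the factors -/
noncomputable def HM (m : ℕ) (H : V8 →ₗ⋆[ℂ] V8 →ₗ[ℂ] ℂ) : VM m →ₗ⋆[ℂ] VM m →ₗ[ℂ] ℂ :=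
  LinearMap.mk₂'ₛₗ (starRingEnd ℂ) (RingHom.id ℂ) (fun x y => ∑ k, H (x k) (y k))
    (by
      intro x x' y
      rw [← Finset.sum_add_distrib]
      refine Finset.sum_congr rfl fun i _ => ?_
      rw [Pi.add_apply, map_add, LinearMap.add_apply])
    (by
      intro c x y
      rw [smul_eq_mul, Finset.mul_sum]
      refine Finset.sum_congr rfl fun i _ => ?_
      rw [Pi.smul_apply, LinearMap.map_smulₛₗ, LinearMap.smul_apply, smul_eq_mul])
    (by
      intro x y y'
      rw [← Finset.sum_add_distrib]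
      refine Finset.sum_congr rfl fun i _ => ?_
      rw [Pi.add_apply, map_add])
    (by
      intro c x y
      rw [RingHom.id_apply, smul_eq_mul, Finset.mul_sum]
      refine Finset.sum_congr rfl fun i _ => ?_
      rw [Pi.smul_apply, map_smul, smul_eq_mul])

lemma HM_apply (H : V8 →ₗ⋆[ℂ] V8 →ₗ[ℂ] ℂ) (x y : VM m) : HM m H x y = ∑ k, H (x k) (y k) := rfl

/-- the linear group -/
def GGM (m : ℕ) : Subgroup (VM m ≃ₗ[ℂ] VM m) where
  carrier := {A | (∀ x, A x ∈ LM m ↔ x ∈ LM m) ∧ (∀ x y, SM m (A x) (A y) = SM m x y) ∧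
    (∀ x y, HM m H0 (A x) (A y) = HM m H0 x y) ∧ (∀ x y, HM m H1 (A x) (A y) = HM m H1 x y)}
  mul_mem' := by
    rintro A B ⟨a1, a2, a3, a4⟩ ⟨b1, b2, b3, b4⟩
    refine ⟨fun x => ?_, fun x y => ?_, fun x y => ?_, fun x y => ?_⟩
    · exact (a1 _).trans (b1 _)
    · exact (a2 _ _).trans (b2 _ _)
    · exact (a3 _ _).trans (b3 _ _)
    · exact (a4 _ _).trans (b4 _ _)
  one_mem' := ⟨fun _ => Iff.rfl, fun _ _ => rfl, fun _ _ => rfl, fun _ _ => rfl⟩
  inv_mem' := by
    rintro A ⟨a1, a2, a3, a4⟩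
    have h : ∀ x, A (A⁻¹ x) = x := fun x => A.apply_symm_apply x
    refine ⟨fun x => ?_, fun x y => ?_, fun x y => ?_, fun x y => ?_⟩
    · rw [← a1, h]
    · rw [← a2, h, h]
    · rw [← a3, h, h]
    · rw [← a4, h, h]

/-- the group -/
def GM (m : ℕ) : Subgroup (Equiv.Perm (VM m)) where
  carrier := {γ | ∃ A ∈ GGM m, ∃ l ∈ LM m, ∀ v, γ v = A v + l}
  mul_mem' := by
    rintro γ δ ⟨A, hA, l, hl, h1⟩ ⟨B, hB, n, hn, h2⟩
    refine ⟨A * B, (GGM m).mul_mem hA hB, A n + l, (LM m).add_mem ((hA.1 n).2 hn) hl, fun v => ?_⟩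
    rw [Equiv.Perm.mul_apply, h1, h2, map_add, add_assoc]
    rfl
  one_mem' := ⟨1, (GGM m).one_mem, 0, (LM m).zero_mem, fun v => by simp⟩
  inv_mem' := by
    rintro γ ⟨A, hA, l, hl, h1⟩
    refine ⟨A⁻¹, (GGM m).inv_mem hA, -(A⁻¹ l),
      (LM m).neg_mem ((((GGM m).inv_mem hA).1 l).2 hl), fun v => ?_⟩
    rw [Equiv.Perm.inv_eq_iff_eq, h1, map_add, map_neg]
    have h : ∀ x, A (A⁻¹ x) = x := fun x => A.apply_symm_apply x
    rw [h, h]
    simp

lemma linM_of {γ : Equiv.Perm (VM m)} (h : γ ∈ GM m) : ∃ A ∈ GGM m, ∀ x, lin γ x = A x := by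
  obtain ⟨A, hA, l, hl, h1⟩ := h
  refine ⟨A, hA, fun x => ?_⟩
  unfold lin
  rw [h1, h1, map_zero]
  simp

lemma forall_linM {P : (VM m → VM m) → Prop} : (∀ γ ∈ GM m, P (lin γ)) ↔ ∀ A ∈ GGM m, P A := by
  constructor
  · intro h A hA
    have hγ : A.toEquiv ∈ GM m := ⟨A, hA, 0, (LM m).zero_mem, fun v => by simp⟩
    have : (A : VM m → VM m) = lin A.toEquiv := by
      funext x
      unfold lin
      change A x = A x - A 0
      rw [map_zero, sub_zero]
    rw [this]
    exact h _ hγ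
  · intro h γ hγ
    obtain ⟨A, hA, h1⟩ := linM_of hγ
    have : lin γ = A := by
      funext x
      exact h1 x
    rw [this]
    exact h A hA

lemma addLeftM_iff {x : VM m} : Equiv.addLeft x ∈ GM m ↔ x ∈ LM m := by
  constructor
  · rintro ⟨A, hA, l, hl, h1⟩
    have h2 : x + 0 = A 0 + l := h1 0
    rw [add_zero, LinearEquiv.map_zero, zero_add] at h2
    rwa [h2]
  · intro h
    exact ⟨1, (GGM m).one_mem, x, h, fun v => by simp [add_comm]⟩

/-- a linear map acting on one factor -/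
noncomputable def blk (k : Fin (m + 1)) (A : V8 ≃ₗ[ℂ] V8) : VM m ≃ₗ[ℂ] VM m :=
  LinearEquiv.piCongrRight fun l => if l = k then A else LinearEquiv.refl ℂ V8

lemma blk_same (k : Fin (m + 1)) (A : V8 ≃ₗ[ℂ] V8) (x : VM m) : blk k A x k = A (x k) := by
  change (if k = k then A else LinearEquiv.refl ℂ V8) (x k) = _
  rw [if_pos rfl]

lemma blk_ne {k l : Fin (m + 1)} (h : l ≠ k) (A : V8 ≃ₗ[ℂ] V8) (x : VM m) : blk k A x l = x l := by
  change (if l = k then A else LinearEquiv.refl ℂ V8) (x l) = _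
  rw [if_neg h]
  rfl

lemma blk_mem (k : Fin (m + 1)) {A : V8 ≃ₗ[ℂ] V8} (hA : A ∈ GG0) : blk k A ∈ GGM m := by
  refine ⟨fun x => ?_, fun x y => ?_, fun x y => ?_, fun x y => ?_⟩
  · rw [mem_LM, mem_LM]
    refine forall_congr' fun l => ?_
    by_cases h : l = k
    · subst h
      rw [blk_same, hA.1]
    · rw [blk_ne h]
  · rw [SM_apply, SM_apply]
    refine Finset.sum_congr rfl fun l _ => ?_
    by_cases h : l = k
    · subst h
      rw [blk_same, blk_same, hA.2.1]
    · rw [blk_ne h, blk_ne h]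
  · rw [HM_apply, HM_apply]
    refine Finset.sum_congr rfl fun l _ => ?_
    by_cases h : l = k
    · subst h
      rw [blk_same, blk_same, hA.2.2.1]
    · rw [blk_ne h, blk_ne h]
  · rw [HM_apply, HM_apply]
    refine Finset.sum_congr rfl fun l _ => ?_
    by_cases h : l = k
    · subst h
      rw [blk_same, blk_same, hA.2.2.2]
    · rw [blk_ne h, blk_ne h]

/-- a permutation of the factors -/
noncomputable def swp (π : Equiv.Perm (Fin (m + 1))) : VM m ≃ₗ[ℂ] VM m :=
  LinearEquiv.funCongrLeft ℂ V8 π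

lemma swp_apply (π : Equiv.Perm (Fin (m + 1))) (x : VM m) (k : Fin (m + 1)) :
    swp π x k = x (π k) := rfl

lemma swp_mem (π : Equiv.Perm (Fin (m + 1))) : swp π ∈ GGM m := by
  refine ⟨fun x => ?_, fun x y => ?_, fun x y => ?_, fun x y => ?_⟩
  · rw [mem_LM, mem_LM]
    constructor
    · intro h k
      have h1 := h (π.symm k)
      rwa [swp_apply, Equiv.apply_symm_apply] at h1
    · intro h k
      exact h (π k)
  · rw [SM_apply, SM_apply]
    exact Equiv.sum_comp π fun k => S0 (x k) (y k)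
  · rw [HM_apply, HM_apply]
    exact Equiv.sum_comp π fun k => H0 (x k) (y k)
  · rw [HM_apply, HM_apply]
    exact Equiv.sum_comp π fun k => H1 (x k) (y k)

/-- the inclusion of a factor -/
noncomputable def emb (k : Fin (m + 1)) : V8 →ₗ[ℂ] VM m := LinearMap.single ℂ (fun _ => V8) k

lemma emb_apply (k l : Fin (m + 1)) (x : V8) : emb k x l = if l = k then x else 0 := by
  change (Pi.single k x : VM m) l = _
  rw [Pi.single_apply]

lemma emb_same (k : Fin (m + 1)) (x : V8) : emb k x k = x := by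
  rw [emb_apply, if_pos rfl]

lemma emb_ne {k l : Fin (m + 1)} (h : l ≠ k) (x : V8) : emb k x l = 0 := by
  rw [emb_apply, if_neg h]

lemma blk_emb (k : Fin (m + 1)) (A : V8 ≃ₗ[ℂ] V8) (x : V8) : blk k A (emb k x) = emb k (A x) := by
  funext l
  by_cases h : l = k
  · subst h
    rw [blk_same, emb_same, emb_same]
  · rw [blk_ne h, emb_ne h, emb_ne h]

lemma blk_emb_ne {k l : Fin (m + 1)} (h : l ≠ k) (A : V8 ≃ₗ[ℂ] V8) (x : V8) :
    blk k A (emb l x) = emb l x := by
  funext j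
  by_cases hj : j = k
  · subst hj
    rw [blk_same, emb_ne (Ne.symm h), map_zero]
  · rw [blk_ne hj]

lemma swp_emb (k l : Fin (m + 1)) (x : V8) : swp (Equiv.swap k l) (emb k x) = emb l x := by
  funext j
  rw [swp_apply]
  by_cases hj : j = l
  · subst hj
    rw [Equiv.swap_apply_right, emb_same, emb_same]
  · rw [emb_ne hj]
    apply emb_ne
    intro h
    apply hj
    have h2 := congrArg (Equiv.swap k l) h
    rwa [Equiv.swap_apply_self, Equiv.swap_apply_left] at h2

lemma sum_emb (x : VM m) : x = ∑ k, emb k (x k) := by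
  funext l
  rw [Finset.sum_apply, Finset.sum_eq_single l]
  · rw [emb_same]
  · intro k _ hk
    exact emb_ne (Ne.symm hk) _
  · intro h
    exact absurd (Finset.mem_univ l) h

/-- minus one -/
noncomputable def neg1 : V8 ≃ₗ[ℂ] V8 := LinearEquiv.neg ℂ

lemma neg1_apply (x : V8) : neg1 x = -x := rfl

lemma neg1_mem : neg1 ∈ GG0 := by
  refine ⟨fun x => ?_, fun x y => ?_, fun x y => ?_, fun x y => ?_⟩
  · rw [neg1_apply, neg_mem_iff]
  · rw [neg1_apply, neg1_apply, map_neg, map_neg, LinearMap.neg_apply, neg_neg]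
  · rw [neg1_apply, neg1_apply, map_neg, map_neg, LinearMap.neg_apply, neg_neg]
  · rw [neg1_apply, neg1_apply, map_neg, map_neg, LinearMap.neg_apply, neg_neg]

end Pool.Agent.MP_e4ecdb_ag.DEx
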