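import Pool.Agent.MP_e4ecdb_ag.DExM
open Module

/-! The example in dimension `8 (m + 1)`: proofs. -/

namespace Pool.Agent.MP_e4ecdb_ag.DEx

open SYZ

variable {m : ℕ}

/-- the lattice basis -/
noncomputable def bM (m : ℕ) : Basis (Σ _ : Fin (m + 1), Ix) ℝ (VM m) := Pi.basis fun _ => bV

lemma mem_span_bM (x : VM m) : x ∈ Submodule.span ℤ (Set.range (bM m)) ↔ x ∈ LM m := by
  rw [Basis.mem_span_iff_repr_mem, mem_LM]
  constructor
  · intro h k
    rw [← mem_span_bV, Basis.mem_span_iff_repr_mem]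
    intro i
    have := h ⟨k, i⟩
    unfold bM at this
    rwa [Pi.basis_repr] at this
  · rintro h ⟨k, i⟩
    have h1 := h k
    rw [← mem_span_bV, Basis.mem_span_iff_repr_mem] at h1
    unfold bM
    rw [Pi.basis_repr]
    exact h1 i

lemma H0_nonneg (x : V8) : 0 ≤ (H0 x x).re := by
  rw [H0_self]
  exact Finset.sum_nonneg fun i _ => add_nonneg (Complex.normSq_nonneg _) (Complex.normSq_nonneg _)

lemma boundM (x : VM m) {C : ℝ} (hC : 0 ≤ C) (h : (HM m H0 x x).re ≤ C ^ 2) : ‖x‖ ≤ C := by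
  rw [HM_apply, Complex.re_sum] at h
  rw [pi_norm_le_iff_of_nonneg hC]
  intro k
  apply bound _ hC
  exact (Finset.single_le_sum (f := fun k => (H0 (x k) (x k)).re) (fun k _ => H0_nonneg _)
    (Finset.mem_univ k)).trans h

lemma finite_GM : ({f : VM m → VM m | ∃ γ ∈ GM m, lin γ = f}).Finite := by
  obtain ⟨C, hC0, hC⟩ : ∃ C : ℝ, 0 ≤ C ∧ ∀ i, (HM m H0 (bM m i) (bM m i)).re ≤ C ^ 2 := by
    refine ⟨1 + ∑ i, |(HM m H0 (bM m i) (bM m i)).re|, ?_, fun i => ?_⟩
    · have := Finset.sum_nonneg (s := Finset.univ)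
        (f := fun i => |(HM m H0 (bM m i) (bM m i)).re|) fun i _ => abs_nonneg _
      linarith
    · have h1 : |(HM m H0 (bM m i) (bM m i)).re| ≤ ∑ i, |(HM m H0 (bM m i) (bM m i)).re| :=
        Finset.single_le_sum (f := fun i => |(HM m H0 (bM m i) (bM m i)).re|)
          (fun i _ => abs_nonneg _) (Finset.mem_univ i)
      have h2 := le_abs_self (HM m H0 (bM m i) (bM m i)).re
      have h3 := abs_nonneg (HM m H0 (bM m i) (bM m i)).re
      nlinarith
  have hfin : (Metric.closedBall (0 : VM m) C ∩ Submodule.span ℤ (Set.range (bM m)) :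
      Set (VM m)).Finite := ZSpan.setFinite_inter (bM m) Metric.isBounded_closedBall
  have hfin2 := Set.Finite.pi' (ι := Σ _ : Fin (m + 1), Ix) (fun _ => hfin)
  refine Set.Finite.subset (hfin2.image fun F : (Σ _ : Fin (m + 1), Ix) → VM m => fun x : VM m =>
    ∑ i, (bM m).repr x i • F i) ?_
  rintro f ⟨γ, hγ, rfl⟩
  obtain ⟨A, hA, h1⟩ := linM_of hγ
  refine ⟨fun i => A (bM m i), fun i => ⟨?_, ?_⟩, ?_⟩
  · rw [mem_closedBall_zero_iff]
    apply boundM _ hC0
    rw [hA.2.2.1]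
    exact hC i
  · rw [SetLike.mem_coe, mem_span_bM, hA.1, ← mem_span_bM]
    exact Submodule.subset_span ⟨i, rfl⟩
  · funext x
    rw [h1]
    conv_rhs => rw [← (bM m).sum_repr x]
    have h2 : A (∑ i, (bM m).repr x i • bM m i) =
        (A.restrictScalars ℝ) (∑ i, (bM m).repr x i • bM m i) := rfl
    rw [h2, map_sum]
    refine Finset.sum_congr rfl fun i _ => ?_
    rw [map_smul]
    rfl

theorem crystM (m : ℕ) : IsCryst (GM m) where
  affine := by
    rintro γ ⟨A, hA, l, hl, h1⟩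
    refine ⟨A, fun v => ?_⟩
    rw [h1, h1, map_zero, zero_add]
  lattice := ⟨Σ _ : Fin (m + 1), Ix, inferInstance, bM m,
    fun x => (mem_span_bM x).trans addLeftM_iff.symm⟩
  finite := finite_GM

/-- The invariant alternating forms. -/
theorem primM (τ : LinearMap.BilinForm ℂ (VM m)) (halt : ∀ x, τ x x = 0)
    (h : ∀ A ∈ GGM m, ∀ x y, τ (A x) (A y) = τ x y) : ∃ c : ℂ, τ = c • SM m := by
  -- the diagonal blocks
  have h1 : ∀ k, ∃ c : ℂ, τ.compl₁₂ (emb k) (emb k) = c • S0 := by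
    intro k
    refine prim0 _ (fun x => ?_) fun A hA x y => ?_
    · rw [LinearMap.compl₁₂_apply]
      exact halt _
    · rw [LinearMap.compl₁₂_apply, LinearMap.compl₁₂_apply, ← blk_emb, ← blk_emb]
      exact h _ (blk_mem k hA) _ _
  choose c hc using h1
  have hc' : ∀ k x y, τ (emb k x) (emb k y) = c k * S0 x y := by
    intro k x y
    have := congrArg (fun F : LinearMap.BilinForm ℂ V8 => F x y) (hc k)
    simpa [LinearMap.compl₁₂_apply] using this
  have hS : S0 (p 0) (r 0) = 1 := by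
    rw [S0_apply]
    simp [p, r, Fin.sum_univ_four]
  have hck : ∀ k, c k = c 0 := by
    intro k
    have h2 := h _ (swp_mem (Equiv.swap k 0)) (emb k (p 0)) (emb k (r 0))
    rw [swp_emb, swp_emb, hc', hc', hS, mul_one, mul_one] at h2
    exact h2.symm
  have hoff : ∀ k l, k ≠ l → ∀ x y, τ (emb k x) (emb l y) = 0 := by
    intro k l hkl x y
    have h2 := h _ (blk_mem k neg1_mem) (emb k x) (emb l y)
    rw [blk_emb, blk_emb_ne (Ne.symm hkl), neg1_apply, map_neg, map_neg, LinearMap.neg_apply] at h2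
    have h3 : 2 * τ (emb k x) (emb l y) = 0 := by linear_combination -h2
    exact (mul_eq_zero.1 h3).resolve_left two_ne_zero
  refine ⟨c 0, LinearMap.ext fun x => LinearMap.ext fun y => ?_⟩
  rw [LinearMap.smul_apply, LinearMap.smul_apply, SM_apply, smul_eq_mul, Finset.mul_sum]
  conv_lhs => rw [sum_emb x, sum_emb y]
  have e1 : τ (∑ k, emb k (x k)) = ∑ k, τ (emb k (x k)) := map_sum τ _ _
  rw [e1, LinearMap.sum_apply]
  refine Finset.sum_congr rfl fun k _ => ?_
  rw [map_sum, Finset.sum_eq_single k]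
  · rw [hc', hck]
  · intro l _ hl
    exact hoff k l (Ne.symm hl) _ _
  · intro h5
    exact absurd (Finset.mem_univ k) h5

theorem primSymplM (m : ℕ) : IsPrimSympl (GM m) (SM m) where
  alt x := by
    rw [SM_apply]
    exact Finset.sum_eq_zero fun i _ => primSympl.alt _
  nondeg x h := by
    funext k
    apply primSympl.nondeg
    intro y
    have h1 := h (emb k y)
    rw [SM_apply, Finset.sum_eq_single k] at h1
    · rwa [emb_same] at h1
    · intro l _ hl
      rw [emb_ne hl, map_zero]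
    · intro h5
      exact absurd (Finset.mem_univ k) h5
  inv γ hγ x y := by
    obtain ⟨A, hA, h1⟩ := linM_of hγ
    rw [h1, h1]
    exact hA.2.1 x y
  prim τ halt h :=
    primM τ halt fun A hA => (forall_linM (P := fun f => ∀ x y, τ (f x) (f y) = τ x y)).1 h A hA
  no_inv x h := by
    funext k
    have h1 := (forall_linM (P := fun f => f x = x)).1 h _ (blk_mem k neg1_mem)
    have h2 := congrFun h1 k
    rw [blk_same, neg1_apply] at h2
    have h3 : (2 : ℂ) • x k = 0 := by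
      rw [two_smul]
      nth_rewrite 1 [← h2]
      exact neg_add_cancel _
    exact (smul_eq_zero.1 h3).resolve_left two_ne_zero

lemma HM_mem {H : V8 →ₗ⋆[ℂ] V8 →ₗ[ℂ] ℂ} (h1 : ∀ x y, H x y = (starRingEnd ℂ) (H y x))
    (h2 : ∀ A ∈ GGM m, ∀ x y, HM m H (A x) (A y) = HM m H x y) : HM m H ∈ H11 (GM m) := by
  refine ⟨fun x y => ?_, fun γ hγ x y => ?_⟩
  · rw [HM_apply, HM_apply, map_sum]
    exact Finset.sum_congr rfl fun i _ => h1 _ _
  · obtain ⟨A, hA, h3⟩ := linM_of hγ
    rw [h3, h3]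
    exact h2 A hA x y

lemma mem_H11M {H : VM m →ₗ⋆[ℂ] VM m →ₗ[ℂ] ℂ} (hH : H ∈ H11 (GM m)) :
    ∃ a b : ℝ, H = a • HM m H0 + b • HM m H1 := by
  obtain ⟨hherm, hinv⟩ := hH
  have h := (forall_linM (P := fun f => ∀ x y, H (f x) (f y) = H x y)).1 hinv
  let F : V8 →ₗ⋆[ℂ] V8 →ₗ[ℂ] ℂ := LinearMap.mk₂'ₛₗ (starRingEnd ℂ) (RingHom.id ℂ)
    (fun x y => H (emb 0 x) (emb 0 y))
    (by
      intro x x' y
      rw [map_add, map_add, LinearMap.add_apply])
    (by
      intro c x y
      rw [map_smul, LinearMap.map_smulₛₗ, LinearMap.smul_apply])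
    (by
      intro x y y'
      rw [map_add, map_add])
    (by
      intro c x y
      rw [map_smul, map_smul, RingHom.id_apply])
  have hblk : ∀ x y, F x y = H (emb 0 x) (emb 0 y) := fun x y => rfl
  obtain ⟨a, b, hab⟩ := mem_H11 (H := F) (by
    refine ⟨fun x y => ?_, fun γ hγ x y => ?_⟩
    · rw [hblk, hblk]
      exact hherm _ _
    · obtain ⟨A, hA, h3⟩ := lin_of hγ
      rw [hblk, hblk, h3, h3, ← blk_emb, ← blk_emb]
      exact h _ (blk_mem 0 hA) _ _)
  have hk : ∀ k x y, H (emb k x) (emb k y) = (a : ℂ) * H0 x y + (b : ℂ) * H1 x y := by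
    intro k x y
    have h2 := h _ (swp_mem (Equiv.swap k 0)) (emb k x) (emb k y)
    rw [swp_emb, swp_emb] at h2
    rw [← h2, ← hblk, hab]
    rfl
  have hoff : ∀ k l, k ≠ l → ∀ x y, H (emb k x) (emb l y) = 0 := by
    intro k l hkl x y
    have h2 := h _ (blk_mem k neg1_mem) (emb k x) (emb l y)
    rw [blk_emb, blk_emb_ne (Ne.symm hkl), neg1_apply, map_neg, map_neg, LinearMap.neg_apply] at h2
    have h3 : 2 * H (emb k x) (emb l y) = 0 := by linear_combination -h2
    exact (mul_eq_zero.1 h3).resolve_left two_ne_zero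
  refine ⟨a, b, LinearMap.ext fun x => LinearMap.ext fun y => ?_⟩
  have e1 : (a • HM m H0 + b • HM m H1 : VM m →ₗ⋆[ℂ] VM m →ₗ[ℂ] ℂ) x y =
      (a : ℂ) * HM m H0 x y + (b : ℂ) * HM m H1 x y := rfl
  rw [e1, HM_apply, HM_apply, Finset.mul_sum, Finset.mul_sum, ← Finset.sum_add_distrib]
  conv_lhs => rw [sum_emb x, sum_emb y]
  have e2 : H (∑ k, emb k (x k)) = ∑ k, H (emb k (x k)) := map_sum H _ _
  rw [e2, LinearMap.sum_apply]
  refine Finset.sum_congr rfl fun k _ => ?_
  rw [map_sum, Finset.sum_eq_single k]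
  · exact hk k _ _
  · intro l _ hl
    exact hoff k l (Ne.symm hl) _ _
  · intro h5
    exact absurd (Finset.mem_univ k) h5

theorem h11_GM (m : ℕ) : h11 (GM m) = 2 := by
  unfold h11
  have h1 : Submodule.span ℝ (H11 (GM m)) = Submodule.span ℝ (Set.range ![HM m H0, HM m H1]) := by
    apply le_antisymm
    · rw [Submodule.span_le]
      intro H hH
      obtain ⟨a, b, rfl⟩ := mem_H11M hH
      refine Submodule.add_mem _ (Submodule.smul_mem _ _ (Submodule.subset_span ⟨0, rfl⟩))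
        (Submodule.smul_mem _ _ (Submodule.subset_span ⟨1, rfl⟩))
    · rw [Submodule.span_le]
      rintro _ ⟨i, rfl⟩
      fin_cases i
      · exact Submodule.subset_span (HM_mem H0_mem.1 fun A hA => hA.2.2.1)
      · exact Submodule.subset_span (HM_mem H1_mem.1 fun A hA => hA.2.2.2)
  have h2 : LinearIndependent ℝ ![HM m H0, HM m H1] := by
    rw [LinearIndependent.pair_iff]
    intro s t h
    have k1 : ∀ x y : V8, (s : ℂ) * H0 x y + (t : ℂ) * H1 x y = 0 := by
      intro x y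
      have := congrArg (fun F : VM m →ₗ⋆[ℂ] VM m →ₗ[ℂ] ℂ => F (emb 0 x) (emb 0 y)) h
      have e1 : (s • HM m H0 + t • HM m H1 : VM m →ₗ⋆[ℂ] VM m →ₗ[ℂ] ℂ) (emb 0 x) (emb 0 y) =
        (s : ℂ) * HM m H0 (emb 0 x) (emb 0 y) + (t : ℂ) * HM m H1 (emb 0 x) (emb 0 y) := rfl
      have e2 : ∀ H : V8 →ₗ⋆[ℂ] V8 →ₗ[ℂ] ℂ, HM m H (emb 0 x) (emb 0 y) = H x y := by
        intro H
        rw [HM_apply, Finset.sum_eq_single 0]
        · rw [emb_same, emb_same]
        · intro k _ hk
          rw [emb_ne hk, map_zero, LinearMap.zero_apply]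
        · intro h5
          exact absurd (Finset.mem_univ 0) h5
      rw [e2, e2] at e1
      rw [← e1]
      exact this
    have k2 := k1 (p 0) (p 0)
    have k3 := k1 (p 0) (p 1)
    rw [H0_pp, H1_pp] at k2 k3
    simp [MM] at k2 k3
    exact ⟨k2, k3⟩
  rw [h1, finrank_span_eq_card h2]
  simp

/-- The lattice is irreducible. -/
theorem irrM (m : ℕ) : ¬ Reducible (GM m) := by
  rintro ⟨W, hbot, htop, hst, hspan⟩
  have hW := (forall_linM (P := fun f => ∀ x ∈ W, f x ∈ W)).1 hst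
  apply htop
  obtain ⟨x, hx1, hx2, hx3⟩ : ∃ x ∈ LM m, x ∈ W ∧ x ≠ 0 := by
    by_contra hcon
    push Not at hcon
    apply hbot
    rw [hspan, Submodule.span_eq_bot]
    rintro x ⟨h1, h2⟩
    exact hcon x (addLeftM_iff.1 h1) h2
  obtain ⟨k, hk⟩ : ∃ k, x k ≠ 0 := by
    by_contra hcon
    push Not at hcon
    exact hx3 (funext hcon)
  have h1 : ∀ l, W.comap ((emb l : V8 →ₗ[ℂ] VM m).restrictScalars ℝ) = ⊤ → ∀ v, emb l v ∈ W := by
    intro l hl v
    have : v ∈ W.comap ((emb l : V8 →ₗ[ℂ] VM m).restrictScalars ℝ) := by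
      rw [hl]
      exact Submodule.mem_top
    exact this
  have h2 : W.comap ((emb k : V8 →ₗ[ℂ] VM m).restrictScalars ℝ) = ⊤ := by
    have hmem : ∀ v, v ∈ W.comap ((emb k : V8 →ₗ[ℂ] VM m).restrictScalars ℝ) ↔ emb k v ∈ W :=
      fun v => Iff.rfl
    have hst' : St (W.comap ((emb k : V8 →ₗ[ℂ] VM m).restrictScalars ℝ)) := by
      intro v hv
      rw [hmem] at hv
      rw [hmem, hmem, hmem, hmem, ← blk_emb, ← blk_emb, ← blk_emb, ← blk_emb]
      exact ⟨hW _ (blk_mem k A1_mem) _ hv, hW _ (blk_mem k B1_mem) _ hv,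
        hW _ (blk_mem k A2_mem) _ hv, hW _ (blk_mem k B2_mem) _ hv⟩
    refine irr' hst' (x := x k + x k) (L.add_mem (hx1 k) (hx1 k)) ?_ ?_
    · rw [hmem]
      have h3 := W.sub_mem hx2 (hW _ (blk_mem k neg1_mem) _ hx2)
      convert h3 using 1
      funext l
      rw [Pi.sub_apply]
      by_cases h : l = k
      · subst h
        rw [emb_same, blk_same, neg1_apply, sub_neg_eq_add]
      · rw [emb_ne h, blk_ne h, sub_self]
    · intro h0
      apply hk
      have h3 : (2 : ℂ) • x k = 0 := by rw [two_smul, h0]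
      exact (smul_eq_zero.1 h3).resolve_left two_ne_zero
  have h3 : ∀ l v, emb l v ∈ W := by
    intro l v
    have h4 := hW _ (swp_mem (Equiv.swap k l)) _ (h1 k h2 v)
    rwa [swp_emb] at h4
  rw [eq_top_iff]
  intro v _
  rw [sum_emb v]
  exact W.sum_mem fun l _ => h3 l _

lemma finrank_VM (m : ℕ) : finrank ℂ (VM m) = 8 * (m + 1) := by
  rw [Module.finrank_pi_fintype]
  have h7 : finrank ℂ V8 = 8 := by
    rw [Module.finrank_prod, Module.finrank_fin_fun]
  rw [h7, Finset.sum_const, Finset.card_univ, Fintype.card_fin, smul_eq_mul, mul_comm]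

end Pool.Agent.MP_e4ecdb_ag.DEx
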