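import Pool.Agent.MP_e4ecdb_ag.DReal
open Module

namespace Pool.Agent.MP_e4ecdb_ag.DF

open BB

variable {V : Type} [AddCommGroup V] [Module ℂ V] {G : Type} [Group G]

lemma proj_equiv {ρ : Representation ℂ G V} {W U : Submodule ℝ V} (h : IsCompl W U)
    (hW : RStable ρ W) (hU : RStable ρ U) (g : G) (x : V) :
    Submodule.projection W U h (ρ g x) = ρ g (Submodule.projection W U h x) := by
  have e : ρ g x = ρ g (Submodule.projection W U h x) +
      ρ g (x - Submodule.projection W U h x) := by
    rw [← map_add, add_sub_cancel]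
  rw [e, map_add, Submodule.projection_apply_of_mem_left h
      (hW g _ (Submodule.projection_apply_mem h x)),
    (Submodule.projection_apply_eq_zero_iff h).2 (hU g _ (Submodule.sub_projection_mem h x)),
    add_zero]

/-- A real stable subspace becomes complex after an equivariant real-linear automorphism. -/
lemma exists_shear {ρ : Representation ℂ G V} {K K' : Submodule ℂ V} (hK : Stable ρ K)
    (hK' : Stable ρ K') (hc : IsCompl K K')
    (irr : ∀ U : Submodule ℝ V, U ≤ K.restrictScalars ℝ → RStable ρ U →
      U = ⊥ ∨ U = K.restrictScalars ℝ)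
    (irr' : ∀ U : Submodule ℝ V, U ≤ K'.restrictScalars ℝ → RStable ρ U →
      U = ⊥ ∨ U = K'.restrictScalars ℝ)
    {W : Submodule ℝ V} (hW : RStable ρ W) (h0 : W ≠ ⊥) (h1 : W ≠ ⊤) :
    ∃ e : V ≃ₗ[ℝ] V, (∀ g x, e (ρ g x) = ρ g (e x)) ∧
      ((∀ x, e x ∈ K ↔ x ∈ W) ∨ (∀ x, e x ∈ K' ↔ x ∈ W)) := by
  have hKR : RStable ρ (K.restrictScalars ℝ) := fun g x hx => hK g x hx
  have hK'R : RStable ρ (K'.restrictScalars ℝ) := fun g x hx => hK' g x hx
  have hcR : IsCompl (K.restrictScalars ℝ) (K'.restrictScalars ℝ) := by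
    constructor
    · rw [Submodule.disjoint_def]
      exact fun x hx hx' => (Submodule.disjoint_def.1 hc.disjoint) x hx hx'
    · rw [codisjoint_iff, eq_top_iff]
      intro x _
      have hx : x ∈ K ⊔ K' := by rw [hc.sup_eq_top]; exact Submodule.mem_top
      obtain ⟨a, ha, b, hb, rfl⟩ := Submodule.mem_sup.1 hx
      exact Submodule.add_mem_sup ha hb
  have split : ∀ x, ∃ a ∈ K, ∃ b ∈ K', a + b = x := by
    intro x
    have hx : x ∈ K ⊔ K' := by rw [hc.sup_eq_top]; exact Submodule.mem_top
    obtain ⟨a, ha, b, hb, h⟩ := Submodule.mem_sup.1 hx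
    exact ⟨a, ha, b, hb, h⟩
  rcases irr (W ⊓ K.restrictScalars ℝ) inf_le_right (fun g x hx => ⟨hW g x hx.1, hKR g x hx.2⟩)
    with h2 | h2
  · -- `W` is a complement of `K`
    have hsup : K'.restrictScalars ℝ ≤ W ⊔ K.restrictScalars ℝ := by
      have hst : RStable ρ ((W ⊔ K.restrictScalars ℝ) ⊓ K'.restrictScalars ℝ) := by
        rintro g x ⟨hx, hx'⟩
        refine ⟨?_, hK' g x hx'⟩
        obtain ⟨a, ha, b, hb, rfl⟩ := Submodule.mem_sup.1 hx
        rw [map_add]
        exact Submodule.add_mem_sup (hW g a ha) (hK g b hb)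
      rcases irr' _ inf_le_right hst with h3 | h3
      · exfalso
        apply h0
        rw [Submodule.eq_bot_iff]
        intro x hx
        obtain ⟨a, ha, b, hb, rfl⟩ := split x
        have hb' : b ∈ (W ⊔ K.restrictScalars ℝ) ⊓ K'.restrictScalars ℝ := by
          refine ⟨?_, hb⟩
          have : b = (a + b) + (-a) := by abel
          rw [this]
          exact Submodule.add_mem_sup hx (K.neg_mem ha)
        rw [h3, Submodule.mem_bot] at hb'
        have : a + b ∈ W ⊓ K.restrictScalars ℝ := ⟨hx, by rw [hb', add_zero]; exact ha⟩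
        rw [h2, Submodule.mem_bot] at this
        exact this
      · rw [← h3]
        exact inf_le_left
    have hWK : IsCompl W (K.restrictScalars ℝ) := by
      refine ⟨disjoint_iff.2 h2, codisjoint_iff.2 ?_⟩
      rw [eq_top_iff]
      intro x _
      obtain ⟨a, ha, b, hb, rfl⟩ := split x
      exact Submodule.add_mem _ ((le_sup_right : K.restrictScalars ℝ ≤ _) ha) (hsup hb)
    set p := Submodule.projection W (K.restrictScalars ℝ) hWK with hp
    set q := Submodule.projection (K.restrictScalars ℝ) (K'.restrictScalars ℝ) hcR with hq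
    have hpK : ∀ x ∈ K, p x = 0 := fun x hx => (Submodule.projection_apply_eq_zero_iff hWK).2 hx
    have hqmem : ∀ x, q x ∈ K := fun x => Submodule.projection_apply_mem hcR x
    have hpq : ∀ x, p (q x) = 0 := fun x => hpK _ (hqmem x)
    let N : V →ₗ[ℝ] V := q ∘ₗ p
    have hN : ∀ x, N x = q (p x) := fun x => rfl
    have hNN : ∀ x, N (N x) = 0 := by
      intro x
      rw [hN, hN, hpq, map_zero]
    let e : V ≃ₗ[ℝ] V := LinearEquiv.ofLinearMap (LinearMap.id - N) (LinearMap.id + N)
      (by
        ext x
        simp only [LinearMap.comp_apply, LinearMap.add_apply, LinearMap.sub_apply,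
          LinearMap.id_apply, map_add, hNN]
        abel)
      (by
        ext x
        simp only [LinearMap.comp_apply, LinearMap.add_apply, LinearMap.sub_apply,
          LinearMap.id_apply, map_sub, hNN]
        abel)
    have he : ∀ x, e x = x - q (p x) := fun x => rfl
    refine ⟨e, fun g x => ?_, Or.inr fun x => ?_⟩
    · rw [he, he, hp, proj_equiv hWK hW hKR, ← hp, hq, proj_equiv hcR hKR hK'R, ← hq, map_sub]
    · constructor
      · intro hx
        -- x = k + w
        have h4 : x - p x ∈ K := Submodule.sub_projection_mem hWK x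
        have h5 : q (e x) = 0 := (Submodule.projection_apply_eq_zero_iff hcR).2 hx
        rw [he, map_sub, hq, Submodule.projection_apply_of_mem_left hcR
          (Submodule.projection_apply_mem hcR _), ← hq, ← map_sub,
          hq, Submodule.projection_apply_of_mem_left hcR h4, sub_eq_zero] at h5
        rw [h5]
        exact Submodule.projection_apply_mem hWK x
      · intro hx
        rw [he, hp, Submodule.projection_apply_of_mem_left hWK hx]
        exact Submodule.sub_projection_mem hcR x
  · -- `W = K`
    have hKW : K.restrictScalars ℝ ≤ W := by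
      rw [← h2]
      exact inf_le_left
    refine ⟨LinearEquiv.refl ℝ V, fun g x => rfl, Or.inl fun x => ?_⟩
    refine ⟨fun hx => hKW hx, fun hx => ?_⟩
    rcases irr' (W ⊓ K'.restrictScalars ℝ) inf_le_right
      (fun g x hx => ⟨hW g x hx.1, hK'R g x hx.2⟩) with h3 | h3
    · obtain ⟨a, ha, b, hb, rfl⟩ := split x
      have hb' : b ∈ W ⊓ K'.restrictScalars ℝ := by
        refine ⟨?_, hb⟩
        have : b = (a + b) - a := by abel
        rw [this]
        exact W.sub_mem hx (hKW ha)
      rw [h3, Submodule.mem_bot] at hb'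
      rw [hb', add_zero]
      exact ha
    · exfalso
      apply h1
      rw [eq_top_iff]
      intro y _
      obtain ⟨a, ha, b, hb, rfl⟩ := split y
      have hb' : b ∈ W ⊓ K'.restrictScalars ℝ := by rw [h3]; exact hb
      exact W.add_mem (hKW ha) hb'.1

end Pool.Agent.MP_e4ecdb_ag.DF
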