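import Pool.Agent.MP_e4ecdb_ag.DDim
import Pool.Agent.MP_e4ecdb_ag.DShear
open Module

/-! A totally real stable subspace of half dimension has a stable complex complement when there are
more than two invariant hermitian forms. -/

namespace Pool.Agent.MP_e4ecdb_ag.DF

open BB

variable {V : Type} [AddCommGroup V] [Module ℂ V] {G : Type} [Group G]

/-- the conjugation with respect to a totally real subspace -/
lemma exists_conj {ρ : Representation ℂ G V} {W : Submodule ℝ V} (hW : RStable ρ W)
    (hd : ∀ u ∈ W, Complex.I • u ∈ W → u = 0) (hs : ∀ x, ∃ u ∈ W, ∃ v ∈ W, x = u + Complex.I • v) :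
    ∃ c : V →ₗ[ℝ] V, (∀ x, c (Complex.I • x) = -(Complex.I • c x)) ∧ (∀ x, c (c x) = x) ∧
      (∀ g x, c (ρ g x) = ρ g (c x)) ∧ ∀ x ∈ W, c x = x := by
  have hI2 : ∀ x : V, Complex.I • (Complex.I • x) = -x := I_smul_I
  have huniq : ∀ u ∈ W, ∀ v ∈ W, ∀ u' ∈ W, ∀ v' ∈ W, u + Complex.I • v = u' + Complex.I • v' →
      u = u' ∧ v = v' := by
    intro u hu v hv u' hu' v' hv' h
    have h1 : Complex.I • (v' - v) = u - u' := by
      rw [smul_sub]
      have := sub_eq_zero.2 h
      have h2 : Complex.I • v' - Complex.I • v = u - u' - (u + Complex.I • v - (u' + Complex.I • v')) := by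
        abel
      rw [h2, this, sub_zero]
    have h3 : v' - v = 0 := hd _ (W.sub_mem hv' hv) (by rw [h1]; exact W.sub_mem hu hu')
    rw [h3, smul_zero] at h1
    exact ⟨(sub_eq_zero.1 h1.symm), (sub_eq_zero.1 h3).symm⟩
  choose u hu v hv huv using hs
  have hsplit : ∀ x, ∀ a ∈ W, ∀ b ∈ W, x = a + Complex.I • b → u x = a ∧ v x = b :=
    fun x a ha b hb h => huniq _ (hu x) _ (hv x) _ ha _ hb (by rw [← huv x, h])
  let c : V →ₗ[ℝ] V :=
    { toFun := fun x => u x - Complex.I • v x
      map_add' := fun x y => by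
        obtain ⟨e1, e2⟩ := hsplit (x + y) (u x + u y) (W.add_mem (hu x) (hu y)) (v x + v y)
          (W.add_mem (hv x) (hv y)) (by
            conv_lhs => rw [huv x, huv y]
            rw [smul_add]
            abel)
        rw [e1, e2, smul_add]
        abel
      map_smul' := fun r x => by
        obtain ⟨e1, e2⟩ := hsplit (r • x) (r • u x) (W.smul_mem _ (hu x)) (r • v x)
          (W.smul_mem _ (hv x)) (by
            conv_lhs => rw [huv x]
            rw [smul_add, I_smul_real])
        rw [e1, e2, RingHom.id_apply, smul_sub, I_smul_real] }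
  have hc : ∀ x, c x = u x - Complex.I • v x := fun x => rfl
  have hcs : ∀ a ∈ W, ∀ b ∈ W, c (a + Complex.I • b) = a - Complex.I • b := by
    intro a ha b hb
    obtain ⟨e1, e2⟩ := hsplit (a + Complex.I • b) a ha b hb rfl
    rw [hc, e1, e2]
  refine ⟨c, fun x => ?_, fun x => ?_, fun g x => ?_, fun x hx => ?_⟩
  · have e1 : Complex.I • x = -v x + Complex.I • u x := by
      conv_lhs => rw [huv x]
      rw [smul_add, hI2]
      abel
    rw [e1, hcs _ (W.neg_mem (hv x)) _ (hu x), hc, smul_sub, hI2]
    abel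
  · have e1 : c x = u x + Complex.I • (-v x) := by rw [hc, smul_neg, sub_eq_add_neg]
    rw [e1, hcs _ (hu x) _ (W.neg_mem (hv x)), smul_neg, sub_neg_eq_add, ← huv x]
  · have e1 : ρ g x = ρ g (u x) + Complex.I • ρ g (v x) := by
      conv_lhs => rw [huv x]
      rw [map_add, map_smul]
    rw [e1, hcs _ (hW g _ (hu x)) _ (hW g _ (hv x)), hc, map_sub, map_smul]
  · have e1 : x = x + Complex.I • (0 : V) := by rw [smul_zero, add_zero]
    conv_lhs => rw [e1]
    rw [hcs _ hx _ W.zero_mem, smul_zero, sub_zero]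

variable [FiniteDimensional ℂ V]

/-- a stable complex subspace which meets `W` only in `0` -/
lemma exists_K_disj [Nontrivial V] [Finite G] {ρ : Representation ℂ G V}
    {σ : LinearMap.BilinForm ℂ V} (hσ : IsPrimitiveSymplectic ρ σ) {h0 : V →ₗ⋆[ℂ] V →ₗ[ℂ] ℂ}
    (hh0 : h0 ∈ InvHerm ρ) (hp0 : ∀ x, x ≠ 0 → 0 < (h0 x x).re)
    (hr : 2 < finrank ℝ (InvHerm ρ))
    {W : Submodule ℝ V} (hW : RStable ρ W)
    (hd : ∀ u ∈ W, Complex.I • u ∈ W → u = 0) (hs : ∀ x, ∃ u ∈ W, ∃ v ∈ W, x = u + Complex.I • v) :
    ∃ K : Submodule ℂ V, Stable ρ K ∧ K ≠ ⊥ ∧ K ≠ ⊤ ∧ ∀ x ∈ K, x ∈ W → x = 0 := by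
  obtain ⟨c, hcI, hcc, hcG, hcW⟩ := exists_conj hW hd hs
  have hcs : ∀ (a : ℂ) (x : V), c (a • x) = (starRingEnd ℂ) a • c x := by
    intro a x
    rw [smul_split a x, map_add, hcI, map_smul, map_smul, smul_split ((starRingEnd ℂ) a) (c x),
      Complex.conj_re, Complex.conj_im, neg_smul, smul_neg]
  -- conjugate forms
  let cf : (V →ₗ⋆[ℂ] V →ₗ[ℂ] ℂ) → (V →ₗ⋆[ℂ] V →ₗ[ℂ] ℂ) := fun H =>
    LinearMap.mk₂'ₛₗ (starRingEnd ℂ) (RingHom.id ℂ) (fun x y => (starRingEnd ℂ) (H (c x) (c y)))
      (by
        intro x x' y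
        rw [map_add, map_add, LinearMap.add_apply, map_add])
      (by
        intro a x y
        rw [hcs, LinearMap.map_smulₛₗ, LinearMap.smul_apply, smul_eq_mul, map_mul, smul_eq_mul,
          Complex.conj_conj])
      (by
        intro x y y'
        rw [map_add, map_add, map_add])
      (by
        intro a x y
        rw [hcs, map_smul, smul_eq_mul, map_mul, smul_eq_mul, Complex.conj_conj, RingHom.id_apply])
  have hcf : ∀ H x y, cf H x y = (starRingEnd ℂ) (H (c x) (c y)) := fun H x y => rfl
  have hcfI : ∀ H ∈ InvHerm ρ, cf H ∈ InvHerm ρ := by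
    rintro H ⟨e1, e2⟩
    refine ⟨fun x y => ?_, fun g x y => ?_⟩
    · rw [hcf, hcf, e1]
    · rw [hcf, hcf, hcG, hcG, e2]
  have hcfcf : ∀ H x y, cf (cf H) x y = H x y := by
    intro H x y
    rw [hcf, hcf, hcc, hcc, Complex.conj_conj]
  -- a positive form which is real on `W`
  set h := h0 + cf h0 with hh
  have hhx : ∀ x y, h x y = h0 x y + cf h0 x y := fun x y => rfl
  have hhI : h ∈ InvHerm ρ := (InvHerm ρ).add_mem hh0 (hcfI _ hh0)
  have hp : ∀ x, x ≠ 0 → 0 < (h x x).re := by
    intro x hx
    rw [hhx, hcf, Complex.add_re, Complex.conj_re]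
    have h2 : c x ≠ 0 := fun h3 => hx (by rw [← hcc x, h3, map_zero])
    have h3 := hp0 x hx
    have h4 := hp0 _ h2
    linarith
  have hhc : ∀ x y, h (c x) (c y) = (starRingEnd ℂ) (h x y) := by
    intro x y
    rw [hhx, hhx, hcf, hcf, hcc, hcc, map_add, Complex.conj_conj]
    ring
  -- forms of the second kind
  obtain ⟨H, hHI, hHne, hHc⟩ : ∃ H ∈ InvHerm ρ, H ≠ 0 ∧ ∀ x y, cf H x y = -H x y := by
    by_contra hcon
    push Not at hcon
    have hall : ∀ H ∈ InvHerm ρ, ∀ x y, H (c x) (c y) = (starRingEnd ℂ) (H x y) := by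
      intro H hH x y
      by_contra hne
      obtain ⟨x', y', h5⟩ := hcon (H - cf H) ((InvHerm ρ).sub_mem hH (hcfI _ hH)) (by
        intro h6
        apply hne
        have h7 : H (c x) (c y) - cf H (c x) (c y) = 0 :=
          congrArg (fun F : V →ₗ⋆[ℂ] V →ₗ[ℂ] ℂ => F (c x) (c y)) h6
        rw [hcf, hcc, hcc, sub_eq_zero] at h7
        exact h7)
      apply h5
      have e1 : cf (H - cf H) x' y' = cf H x' y' - cf (cf H) x' y' := by
        rw [hcf, LinearMap.sub_apply, LinearMap.sub_apply, map_sub, ← hcf, ← hcf]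
      rw [e1, hcfcf, LinearMap.sub_apply, LinearMap.sub_apply]
      ring
    -- the operators commute with `c`
    have hopc : ∀ H ∈ InvHerm ρ, ∀ x, op hp H (c x) = c (op hp H x) := by
      intro H hH x
      apply (surj_of_pos hp).1
      apply LinearMap.ext
      intro y
      have e1 : y = c (c y) := (hcc y).symm
      rw [op_spec, e1, hall H hH, hhc, op_spec]
    -- so they commute
    have hcomm : ∀ H ∈ InvHerm ρ, ∀ H' ∈ InvHerm ρ, ∀ x,
        op hp H (op hp H' x) = op hp H' (op hp H x) := by
      intro H hH H' hH' x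
      set T := op hp H with hT
      set S := op hp H' with hS
      have hTs : ∀ x y, h (T x) y = h x (T y) := op_self hp hhI.1 hH.1
      have hSs : ∀ x y, h (S x) y = h x (S y) := op_self hp hhI.1 hH'.1
      let A : V →ₗ[ℂ] V := T ∘ₗ S - S ∘ₗ T
      have hA : ∀ x, A x = T (S x) - S (T x) := fun x => rfl
      have hAs : ∀ x y, h (A x) y = -h x (A y) := by
        intro x y
        rw [hA, hA, map_sub, LinearMap.sub_apply, hTs, hSs, hSs, hTs, map_sub]
        ring
      let F : V →ₗ⋆[ℂ] V →ₗ[ℂ] ℂ := (-Complex.I) • (h.comp A)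
      have hF : ∀ x y, F x y = -Complex.I * h (A x) y := fun x y => rfl
      have hFI : F ∈ InvHerm ρ := by
        refine ⟨fun x y => ?_, fun g x y => ?_⟩
        · rw [hF, hF, map_mul, map_neg, Complex.conj_I, hAs x y, ← hhI.1]
          ring
        · have e1 : A (ρ g x) = ρ g (A x) := by
            rw [hA, hA, hS, op_comm hp hhI hH', hT, op_comm hp hhI hH, op_comm hp hhI hH,
              op_comm hp hhI hH', map_sub]
          rw [hF, hF, e1, hhI.2]
      have hAc : ∀ x, A (c x) = c (A x) := by
        intro x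
        rw [hA, hA, hS, hopc H' hH', hT, hopc H hH, hopc H hH, hopc H' hH', map_sub]
      have hF0 : ∀ x y, F x y = 0 := by
        intro x y
        have e1 := hall F hFI x y
        rw [hF, hF, hAc, hhc, map_mul, map_neg, Complex.conj_I] at e1
        have e2 : (2 * Complex.I) * (starRingEnd ℂ) (h (A x) y) = 0 := by linear_combination -e1
        have e3 := (mul_eq_zero.1 e2).resolve_left (mul_ne_zero two_ne_zero Complex.I_ne_zero)
        rw [hF, (map_eq_zero _).1 e3, mul_zero]
      have hA0 : A x = 0 := by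
        by_contra hne
        have e1 := hp _ hne
        have e2 := hF0 x (A x)
        rw [hF] at e2
        have e3 := (mul_eq_zero.1 e2).resolve_left (neg_ne_zero.2 Complex.I_ne_zero)
        rw [e3] at e1
        simp at e1
      rw [hA, sub_eq_zero] at hA0
      exact hA0
    -- so there are at most two forms
    have hle : ∃ H1 : V →ₗ⋆[ℂ] V →ₗ[ℂ] ℂ, InvHerm ρ ≤ Submodule.span ℝ {h, H1} := by
      have hscal : ∀ H' ∈ InvHerm ρ, ∀ l : ℝ, (∀ x, op hp H' x = (l : ℂ) • x) → H' = l • h := by
        intro H' hH' l hl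
        apply LinearMap.ext
        intro x
        apply LinearMap.ext
        intro y
        rw [← op_spec hp, hl, LinearMap.map_smulₛₗ, Complex.conj_ofReal]
        rfl
      by_cases hns : ∃ H1 ∈ InvHerm ρ, ¬ ∃ l : ℝ, ∀ x, op hp H1 x = (l : ℂ) • x
      · obtain ⟨H1, hH1, hns⟩ := hns
        refine ⟨H1, fun H' hH' => ?_⟩
        rcases two_eig hσ hp (op_self hp hhI.1 hH1.1) (op_comm hp hhI hH1) with
          h5 | ⟨l, m, hlm, hcompl, -, -, -, f1, f2⟩
        · exact absurd h5 hns
        rcases two_eig hσ hp (op_self hp hhI.1 hH'.1) (op_comm hp hhI hH') with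
          ⟨l', h5⟩ | ⟨l', m', hlm', hcompl', -, -, -, f1', f2'⟩
        · rw [hscal H' hH' l' h5]
          exact Submodule.smul_mem _ _ (Submodule.subset_span (by simp))
        · set T := op hp H1 with hT
          set S := op hp H' with hS
          have hTS := hcomm H1 hH1 H' hH'
          -- `S` is scalar on each eigenspace of `T`
          have hsc : ∀ l : ℝ, 2 * finrank ℂ (Ei T l) = finrank ℂ V →
              ∃ n : ℝ, ∀ x ∈ Ei T l, S x = (n : ℂ) • x := by
            intro l hl
            have hdec : ∀ x ∈ Ei T l, ∃ y ∈ Ei T l ⊓ Ei S l', ∃ z ∈ Ei T l ⊓ Ei S m',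
                x = y + z := by
              intro x hx
              have hxs : x ∈ Ei S l' ⊔ Ei S m' := by
                rw [hcompl'.sup_eq_top]
                exact Submodule.mem_top
              obtain ⟨y, hy, z, hz, hyz⟩ := Submodule.mem_sup.1 hxs
              have hne : ((l' : ℂ) - (m' : ℂ)) ≠ 0 := by
                rw [sub_ne_zero]
                exact_mod_cast hlm'
              have e1 : S x - (m' : ℂ) • x = ((l' : ℂ) - (m' : ℂ)) • y := by
                rw [← hyz, map_add, mem_Ei.1 hy, mem_Ei.1 hz, smul_add, sub_smul]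
                abel
              have hSx : S x ∈ Ei T l := by
                rw [mem_Ei, hTS, mem_Ei.1 hx, map_smul]
              have hy2 : y ∈ Ei T l := by
                have e2 : y = ((l' : ℂ) - (m' : ℂ))⁻¹ • (S x - (m' : ℂ) • x) := by
                  rw [e1, smul_smul, inv_mul_cancel₀ hne, one_smul]
                rw [e2]
                exact Submodule.smul_mem _ _ (Submodule.sub_mem _ hSx (Submodule.smul_mem _ _ hx))
              have hz2 : z ∈ Ei T l := by
                have e2 : z = x - y := by rw [← hyz]; abel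
                rw [e2]
                exact Submodule.sub_mem _ hx hy2
              exact ⟨y, ⟨hy2, hy⟩, z, ⟨hz2, hz⟩, hyz.symm⟩
            have hstT := Ei_stable (op_comm hp hhI hH1) l
            have hstS := Ei_stable (op_comm hp hhI hH') l'
            have hst : Stable ρ (Ei T l ⊓ Ei S l') := fun g x hx => ⟨hstT g x hx.1, hstS g x hx.2⟩
            have hVp : 0 < finrank ℂ V := finrank_pos
            by_cases hb : Ei T l ⊓ Ei S l' = ⊥
            · refine ⟨m', fun x hx => ?_⟩
              obtain ⟨y, hy, z, hz, rfl⟩ := hdec x hx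
              rw [hb, Submodule.mem_bot] at hy
              rw [hy, zero_add]
              exact mem_Ei.1 hz.2
            · refine ⟨l', fun x hx => ?_⟩
              have ht : Ei T l ⊓ Ei S l' ≠ ⊤ := by
                intro ht
                have h6 : Ei T l = ⊤ := eq_top_iff.2 (ht ▸ inf_le_left)
                rw [h6, finrank_top] at hl
                omega
              have h6 := (stable_lagr hσ hst hb ht).2
              have h7 : Ei T l ⊓ Ei S l' = Ei T l :=
                Submodule.eq_of_le_of_finrank_eq inf_le_left (by omega)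
              rw [← h7] at hx
              exact mem_Ei.1 hx.2
          obtain ⟨n1, hn1⟩ := hsc l f1
          obtain ⟨n2, hn2⟩ := hsc m f2
          have hlm0 : (l - m : ℝ) ≠ 0 := sub_ne_zero.2 hlm
          -- `S = α + β T`
          have hSab : ∀ x, S x = (((n1 * (-m) + n2 * l) / (l - m) : ℝ) : ℂ) • x +
              (((n1 - n2) / (l - m) : ℝ) : ℂ) • T x := by
            intro x
            have hxs : x ∈ Ei T l ⊔ Ei T m := by
              rw [hcompl.sup_eq_top]
              exact Submodule.mem_top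
            obtain ⟨y, hy, z, hz, rfl⟩ := Submodule.mem_sup.1 hxs
            have e3 : ∀ (k n : ℝ) (y : V), (n1 * (-m) + n2 * l) / (l - m) + (n1 - n2) / (l - m) * k = n →
                S y = (n : ℂ) • y → T y = (k : ℂ) • y →
                S y = (((n1 * (-m) + n2 * l) / (l - m) : ℝ) : ℂ) • y +
                  (((n1 - n2) / (l - m) : ℝ) : ℂ) • T y := by
              intro k n y e4 e5 e6
              rw [e5, e6, smul_smul, ← add_smul]
              congr 1
              exact_mod_cast e4.symm
            have e7 := e3 l n1 y (by field_simp; ring) (hn1 y hy) (mem_Ei.1 hy)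
            have e8 := e3 m n2 z (by field_simp; ring) (hn2 z hz) (mem_Ei.1 hz)
            rw [map_add, e7, e8, map_add, smul_add, smul_add]
            abel
          have hH' : H' = ((n1 * (-m) + n2 * l) / (l - m) : ℝ) • h + ((n1 - n2) / (l - m) : ℝ) • H1 := by
            apply LinearMap.ext
            intro x
            apply LinearMap.ext
            intro y
            have e1 : (((n1 * (-m) + n2 * l) / (l - m) : ℝ) • h +
                ((n1 - n2) / (l - m) : ℝ) • H1 : V →ₗ⋆[ℂ] V →ₗ[ℂ] ℂ) x y =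
                (((n1 * (-m) + n2 * l) / (l - m) : ℝ) : ℂ) * h x y +
                (((n1 - n2) / (l - m) : ℝ) : ℂ) * H1 x y := rfl
            rw [e1, ← op_spec hp H', ← hS, hSab, map_add, LinearMap.add_apply,
              LinearMap.map_smulₛₗ, LinearMap.map_smulₛₗ, LinearMap.smul_apply,
              LinearMap.smul_apply, Complex.conj_ofReal, Complex.conj_ofReal, smul_eq_mul,
              smul_eq_mul, hT, op_spec]
          rw [hH']
          exact Submodule.add_mem _ (Submodule.smul_mem _ _ (Submodule.subset_span (by simp)))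
            (Submodule.smul_mem _ _ (Submodule.subset_span (by simp)))
      · push Not at hns
        refine ⟨h, fun H' hH' => ?_⟩
        obtain ⟨l, hl⟩ := hns H' hH'
        rw [hscal H' hH' l hl]
        exact Submodule.smul_mem _ _ (Submodule.subset_span (by simp))
    obtain ⟨H1, hle⟩ := hle
    have hfs : Module.Finite ℝ (Submodule.span ℝ ({h, H1} : Set (V →ₗ⋆[ℂ] V →ₗ[ℂ] ℂ))) :=
      Module.Finite.span_of_finite ℝ (Set.toFinite _)
    have e9 := Submodule.finrank_mono hle
    classical
    have e10 := finrank_span_finset_le_card (R := ℝ)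
      ({h, H1} : Finset (V →ₗ⋆[ℂ] V →ₗ[ℂ] ℂ))
    have e11 : ({h, H1} : Finset (V →ₗ⋆[ℂ] V →ₗ[ℂ] ℂ)).card ≤ 2 := Finset.card_le_two
    rw [Finset.coe_insert, Finset.coe_singleton] at e10
    have e12 : finrank ℝ (Submodule.span ℝ ({h, H1} : Set (V →ₗ⋆[ℂ] V →ₗ[ℂ] ℂ))) ≤ 2 :=
      e10.trans e11
    omega
  -- its operator anticommutes with `c`
  have hanti : ∀ x, op hp H (c x) = -c (op hp H x) := by
    intro x
    apply (surj_of_pos hp).1
    apply LinearMap.ext
    intro y
    have e1 : y = c (c y) := (hcc y).symm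
    rw [map_neg, LinearMap.neg_apply, op_spec, e1, hhc, op_spec]
    have e2 := hHc x (c y)
    rw [hcf, hcc] at e2
    rw [hcc]
    have e3 := congrArg (starRingEnd ℂ) e2
    rw [Complex.conj_conj, map_neg] at e3
    exact e3
  have hker : ∀ l : ℝ, l ≠ 0 → ∀ x ∈ Ei (op hp H) l, x ∈ W → x = 0 := by
    intro l hl x hx hxW
    have e1 := hanti x
    rw [hcW x hxW, mem_Ei.1 hx, hcs, Complex.conj_ofReal, hcW x hxW] at e1
    have e2 : (2 * (l : ℂ)) • x = 0 := by
      rw [two_mul, add_smul]
      nth_rewrite 1 [e1]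
      exact neg_add_cancel _
    exact (smul_eq_zero.1 e2).resolve_left (mul_ne_zero two_ne_zero (by exact_mod_cast hl))
  have hVp : 0 < finrank ℂ V := finrank_pos
  have hfin : ∀ l : ℝ, l ≠ 0 → 2 * finrank ℂ (Ei (op hp H) l) = finrank ℂ V →
      ∃ K : Submodule ℂ V, Stable ρ K ∧ K ≠ ⊥ ∧ K ≠ ⊤ ∧ ∀ x ∈ K, x ∈ W → x = 0 := by
    intro l hl hfl
    refine ⟨Ei (op hp H) l, Ei_stable (op_comm hp hhI hHI) l, ?_, ?_, hker l hl⟩
    · intro hb
      rw [hb, finrank_bot] at hfl
      omega
    · intro ht
      rw [ht, finrank_top] at hfl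
      omega
  rcases two_eig hσ hp (op_self hp hhI.1 hHI.1) (op_comm hp hhI hHI) with
    ⟨l, hl⟩ | ⟨l, m, hlm, -, -, -, -, f1, f2⟩
  · exfalso
    have hl0 : l ≠ 0 := by
      intro h0
      apply hHne
      apply LinearMap.ext
      intro x
      apply LinearMap.ext
      intro y
      rw [← op_spec hp, hl, h0, Complex.ofReal_zero, zero_smul, map_zero]
      rfl
    obtain ⟨x, hx⟩ := exists_ne (0 : V)
    obtain ⟨u, hu, v, hv, huv⟩ := hs x
    have hu0 := hker l hl0 u (mem_Ei.2 (hl u)) hu
    have hv0 := hker l hl0 v (mem_Ei.2 (hl v)) hv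
    rw [hu0, hv0, smul_zero, add_zero] at huv
    exact hx huv
  · by_cases hl0 : l = 0
    · exact hfin m (fun hm => hlm (by rw [hl0, hm])) f2
    · exact hfin l hl0 f1

end Pool.Agent.MP_e4ecdb_ag.DF
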