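import Pool.Agent.MP_e4ecdb_ag.DDiv
import Pool.Agent.MP_e4ecdb_ag.DFour
open Module

/-! Shears, small rational subspaces and rational complements. -/

namespace Pool.Agent.MP_e4ecdb_ag.DF

open BB

section
variable {V : Type} [AddCommGroup V] [Module ℂ V] {G : Type} [Group G]

/-- A shear along a common complement. -/
lemma exists_shear2 {ρ : Representation ℂ G V} {W K K' : Submodule ℝ V} (hW : RStable ρ W)
    (hKR : RStable ρ K) (hK'R : RStable ρ K') (hWK : IsCompl W K) (hcR : IsCompl K K') :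
    ∃ e : V ≃ₗ[ℝ] V, (∀ g x, e (ρ g x) = ρ g (e x)) ∧ ∀ x, e x ∈ K' ↔ x ∈ W := by
  set p := Submodule.projection W K hWK with hp
  set q := Submodule.projection K K' hcR with hq
  have hpK : ∀ x ∈ K, p x = 0 := fun x hx => (Submodule.projection_apply_eq_zero_iff hWK).2 hx
  have hqmem : ∀ x, q x ∈ K := fun x => Submodule.projection_apply_mem hcR x
  have hpq : ∀ x, p (q x) = 0 := fun x => hpK _ (hqmem x)
  let N : V →ₗ[ℝ] V := q ∘ₗ p
  have hN : ∀ x, N x = q (p x) := fun x => rfl
  have hNN : ∀ x, N (N x) = 0 := by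
    intro x
    rw [hN, hN, hpq, map_zero]
  let e : V ≃ₗ[ℝ] V := LinearEquiv.ofLinearMap (LinearMap.id - N) (LinearMap.id + N)
    (by
      ext x
      simp only [LinearMap.comp_apply, LinearMap.add_apply, LinearMap.sub_apply,
        LinearMap.id_apply, map_add, hNN]
      abel)
    (by
      ext x
      simp only [LinearMap.comp_apply, LinearMap.add_apply, LinearMap.sub_apply,
        LinearMap.id_apply, map_sub, hNN]
      abel)
  have he : ∀ x, e x = x - q (p x) := fun x => rfl
  refine ⟨e, fun g x => ?_, fun x => ?_⟩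
  · rw [he, he, hp, proj_equiv hWK hW hKR, ← hp, hq, proj_equiv hcR hKR hK'R, ← hq, map_sub]
  · constructor
    · intro hx
      have h4 : x - p x ∈ K := Submodule.sub_projection_mem hWK x
      have h5 : q (e x) = 0 := (Submodule.projection_apply_eq_zero_iff hcR).2 hx
      rw [he, map_sub, hq, Submodule.projection_apply_of_mem_left hcR
        (Submodule.projection_apply_mem hcR _), ← hq, ← map_sub,
        hq, Submodule.projection_apply_of_mem_left hcR h4, sub_eq_zero] at h5
      rw [h5]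
      exact Submodule.projection_apply_mem hWK x
    · intro hx
      rw [he, hp, Submodule.projection_apply_of_mem_left hWK hx]
      exact Submodule.sub_projection_mem hcR x

/-- the imaginary part with respect to a totally real subspace -/
lemma exists_im {ρ : Representation ℂ G V} {W : Submodule ℝ V} (hW : RStable ρ W)
    (hd : ∀ u ∈ W, Complex.I • u ∈ W → u = 0) (P : V →ₗ[ℂ] V) (hP : ∀ g x, P (ρ g x) = ρ g (P x))
    (hs : ∀ x, ∃ u ∈ W, ∃ v ∈ W, P x = u + Complex.I • v) :
    ∃ Q : V →ₗ[ℝ] V, (∀ x, Q x ∈ W) ∧ (∀ g x, Q (ρ g x) = ρ g (Q x)) ∧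
      ∀ x, ∀ u ∈ W, ∀ v ∈ W, P x = u + Complex.I • v → Q x = v := by
  have huniq : ∀ u ∈ W, ∀ v ∈ W, ∀ u' ∈ W, ∀ v' ∈ W, u + Complex.I • v = u' + Complex.I • v' →
      v = v' := by
    intro u hu v hv u' hu' v' hv' h
    have h1 : Complex.I • (v' - v) = u - u' := by
      rw [smul_sub]
      have := sub_eq_zero.2 h
      have h2 : Complex.I • v' - Complex.I • v = u - u' - (u + Complex.I • v - (u' + Complex.I • v')) := by
        abel
      rw [h2, this, sub_zero]
    have h3 : v' - v = 0 := hd _ (W.sub_mem hv' hv) (by rw [h1]; exact W.sub_mem hu hu')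
    exact (sub_eq_zero.1 h3).symm
  choose u hu v hv huv using hs
  have hsplit : ∀ x, ∀ a ∈ W, ∀ b ∈ W, P x = a + Complex.I • b → v x = b :=
    fun x a ha b hb h => huniq _ (hu x) _ (hv x) _ ha _ hb (by rw [← huv x, h])
  let Q : V →ₗ[ℝ] V :=
    { toFun := v
      map_add' := fun x y => hsplit (x + y) (u x + u y) (W.add_mem (hu x) (hu y)) (v x + v y)
          (W.add_mem (hv x) (hv y)) (by
            rw [map_add, huv x, huv y, smul_add]
            abel)
      map_smul' := fun r x => hsplit (r • x) (r • u x) (W.smul_mem _ (hu x)) (r • v x)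
          (W.smul_mem _ (hv x)) (by
            have e1 : P (r • x) = r • P x := (P.restrictScalars ℝ).map_smul r x
            rw [e1, huv x, smul_add, I_smul_real]) }
  refine ⟨Q, hv, fun g x => ?_, fun x a ha b hb h => hsplit x a ha b hb h⟩
  exact hsplit (ρ g x) (ρ g (u x)) (hW g _ (hu x)) (ρ g (v x)) (hW g _ (hv x)) (by
    rw [hP, huv x, map_add, map_smul])

end

variable {V : Type} [NormedAddCommGroup V] [NormedSpace ℂ V] {G : Type} [Group G]

/-- A rational totally real subspace `W` gives a rational deformation of `W + iW`. -/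
lemma exists_small [FiniteDimensional ℂ V] [Finite G] (ρ : Representation ℂ G V) {ι : Type}
    [Fintype ι] (b : Basis ι ℝ V)
    (hΛ : ∀ g, ∀ x ∈ Submodule.span ℤ (Set.range b), ρ g x ∈ Submodule.span ℤ (Set.range b))
    {W : Submodule ℝ V} (hW : RStable ρ W) (hWr : RatSub b W)
    (hd : ∀ u ∈ W, Complex.I • u ∈ W → u = 0) :
    ∃ e : V ≃ₗ[ℝ] V, (∀ g x, e (ρ g x) = ρ g (e x)) ∧ ∃ W' : Submodule ℝ V, RatSub b W' ∧
      ∀ x, e x ∈ cSup W ↔ x ∈ W' := by
  have hV : FiniteDimensional ℝ V := Module.Finite.of_basis b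
  obtain ⟨P, hP1, hP2, hP3⟩ := exists_equivariant_proj ρ (cSup W) (cSup_stable hW)
  obtain ⟨Q, hQW, hQG, hQ⟩ := exists_im hW hd P hP3 (fun x => by
    obtain ⟨u, hu, v, hv, h⟩ := hP1 x
    exact ⟨u, hu, v, hv, h⟩)
  obtain ⟨C, hC0, hC⟩ := norm_bound Q
  obtain ⟨a, ha1, ha2, ha3⟩ := exists_rat_near ρ b hΛ mI (fun g x => by
    change Complex.I • ρ g x = ρ g (Complex.I • x)
    rw [map_smul]) (show (0 : ℝ) < 1 / (2 * C) by positivity)
  have hmI : ∀ x : V, mI x = Complex.I • x := fun x => rfl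
  let T : V →ₗ[ℝ] V := LinearMap.id + (a - mI) ∘ₗ Q
  have hT : ∀ x, T x = x + (a (Q x) - Complex.I • Q x) := fun x => rfl
  have hinj : Function.Injective T := by
    rw [injective_iff_map_eq_zero]
    intro x hx
    rw [hT] at hx
    have e1 : x = -(a (Q x) - Complex.I • Q x) := eq_neg_of_add_eq_zero_left hx
    have e2 : ‖x‖ ≤ 1 / 2 * ‖x‖ := by
      calc ‖x‖ = ‖a (Q x) - mI (Q x)‖ := by
            conv_lhs => rw [e1]
            rw [norm_neg, hmI]
        _ ≤ 1 / (2 * C) * ‖Q x‖ := ha3 _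
        _ ≤ 1 / (2 * C) * (C * ‖x‖) := mul_le_mul_of_nonneg_left (hC x) (by positivity)
        _ = 1 / 2 * ‖x‖ := by field_simp
    have e3 : ‖x‖ ≤ 0 := by linarith
    exact norm_le_zero_iff.1 e3
  let T' : V ≃ₗ[ℝ] V := LinearEquiv.ofInjectiveEndo T hinj
  have hT' : ∀ x, T' x = T x := fun x => rfl
  have hTG : ∀ g x, T' (ρ g x) = ρ g (T' x) := by
    intro g x
    rw [hT', hT', hT, hT, hQG, ha1, map_add, map_sub, map_smul]
  have hTuv : ∀ u ∈ W, ∀ v ∈ W, T (u + Complex.I • v) = u + a v := by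
    intro u hu v hv
    have e1 : P (u + Complex.I • v) = u + Complex.I • v := hP2 _ ⟨u, hu, v, hv, rfl⟩
    rw [hT, hQ _ u hu v hv e1]
    abel
  refine ⟨T'.symm, fun g x => ?_, W ⊔ W.map a, ?_, fun x => ?_⟩
  · apply T'.injective
    rw [LinearEquiv.apply_symm_apply, hTG, LinearEquiv.apply_symm_apply]
  · obtain ⟨N, hN1, hN⟩ := ha2
    refine sup_le (hWr.trans (Submodule.span_mono ?_)) ?_
    · rintro x ⟨hx, hxW⟩
      exact ⟨hx, (le_sup_left : W ≤ W ⊔ W.map a) hxW⟩
    · rw [Submodule.map_le_iff_le_comap]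
      refine hWr.trans (Submodule.span_le.2 ?_)
      rintro x ⟨hx, hxW⟩
      change a x ∈ Submodule.span ℝ {x | x ∈ Submodule.span ℤ (Set.range b) ∧ x ∈ W ⊔ W.map a}
      have hN0 : (N : ℝ) ≠ 0 := by exact_mod_cast Nat.one_le_iff_ne_zero.1 hN1
      have e1 : a x = (N : ℝ)⁻¹ • (N • a x) := by
        rw [← Nat.cast_smul_eq_nsmul ℝ, smul_smul, inv_mul_cancel₀ hN0, one_smul]
      rw [e1]
      apply Submodule.smul_mem
      apply Submodule.subset_span
      refine ⟨hN x hx, (le_sup_right : W.map a ≤ W ⊔ W.map a) ?_⟩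
      rw [← Nat.cast_smul_eq_nsmul ℝ]
      exact Submodule.smul_mem _ _ ⟨x, hxW, rfl⟩
  · constructor
    · rintro ⟨u, hu, v, hv, huv⟩
      have e1 : x = T (T'.symm x) := (T'.apply_symm_apply x).symm
      rw [e1, huv, hTuv u hu v hv]
      exact Submodule.add_mem_sup hu ⟨v, hv, rfl⟩
    · intro hx
      obtain ⟨u, hu, w, ⟨v, hv, rfl⟩, rfl⟩ := Submodule.mem_sup.1 hx
      refine ⟨u, hu, v, hv, ?_⟩
      apply T'.injective
      rw [LinearEquiv.apply_symm_apply, hT', hTuv u hu v hv]

/-- A rational stable subspace has a rational stable complement. -/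
lemma exists_rat_compl [Finite G] (ρ : Representation ℂ G V) {ι : Type} [Fintype ι]
    (b : Basis ι ℝ V)
    (hΛ : ∀ g, ∀ x ∈ Submodule.span ℤ (Set.range b), ρ g x ∈ Submodule.span ℤ (Set.range b))
    {W : Submodule ℝ V} (hW : RStable ρ W) (hWr : RatSub b W) :
    ∃ C : Submodule ℝ V, RStable ρ C ∧ RatSub b C ∧ IsCompl W C := by
  classical
  have := Fintype.ofFinite G
  have hV : FiniteDimensional ℝ V := Module.Finite.of_basis b
  let B : LinearMap.BilinForm ℝ V := ∑ g : G, ∑ i : ι,
    LinearMap.BilinForm.linMulLin (b.coord i ∘ₗ (ρ g).restrictScalars ℝ)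
      (b.coord i ∘ₗ (ρ g).restrictScalars ℝ)
  have hB : ∀ x y, B x y = ∑ g : G, ∑ i : ι, b.repr (ρ g x) i * b.repr (ρ g y) i := by
    intro x y
    simp [B, LinearMap.sum_apply, LinearMap.BilinForm.linMulLin_apply]
  have hsymm : ∀ x y, B x y = B y x := by
    intro x y
    rw [hB, hB]
    exact Finset.sum_congr rfl fun g _ => Finset.sum_congr rfl fun i _ => mul_comm _ _
  have hinv : ∀ k x y, B (ρ k x) (ρ k y) = B x y := by
    intro k x y
    rw [hB, hB]
    refine Fintype.sum_equiv (Equiv.mulRight k) _ _ fun g => ?_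
    have e1 : ∀ z, ρ g (ρ k z) = ρ (g * k) z := fun z => by
      rw [map_mul]
      rfl
    refine Finset.sum_congr rfl fun i _ => ?_
    rw [e1, e1]
    rfl
  have hpos : ∀ x, B x x = 0 → x = 0 := by
    intro x hx
    rw [hB] at hx
    have h1 := (Finset.sum_eq_zero_iff_of_nonneg (fun g _ =>
      Finset.sum_nonneg fun i _ => mul_self_nonneg _)).1 hx 1 (Finset.mem_univ _)
    have h2 := (Finset.sum_eq_zero_iff_of_nonneg (fun i _ => mul_self_nonneg _)).1 h1
    have h3 : b.repr (ρ 1 x) = 0 := by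
      ext i
      exact mul_self_eq_zero.1 (h2 i (Finset.mem_univ _))
    rw [map_one] at h3
    have h4 : b.repr x = 0 := h3
    exact b.repr.map_eq_zero_iff.1 h4
  have hint : ∀ x ∈ Submodule.span ℤ (Set.range b), ∀ y ∈ Submodule.span ℤ (Set.range b),
      ∃ n : ℤ, (n : ℝ) = B x y := by
    intro x hx y hy
    have h1 : ∀ g, ∀ z ∈ Submodule.span ℤ (Set.range b), ∀ i, ∃ n : ℤ, (n : ℝ) = b.repr (ρ g z) i :=
      fun g z hz i => by
        obtain ⟨n, hn⟩ := (b.mem_span_iff_repr_mem ℤ (ρ g z)).1 (hΛ g z hz) i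
        exact ⟨n, hn⟩
    choose n hn using fun g i => h1 g x hx i
    choose m hm using fun g i => h1 g y hy i
    refine ⟨∑ g : G, ∑ i : ι, n g i * m g i, ?_⟩
    rw [hB]
    push_cast
    exact Finset.sum_congr rfl fun g _ => Finset.sum_congr rfl fun i _ => by rw [hn, hm]
  have hrefl : B.IsRefl := fun x y h => by rw [hsymm, h]
  have hcompl : IsCompl W (B.orthogonal W) := by
    apply LinearMap.BilinForm.isCompl_orthogonal_of_restrict_nondegenerate hrefl
    exact ⟨fun w hw => Subtype.ext (hpos w.1 (hw w)), fun w hw => Subtype.ext (hpos w.1 (hw w))⟩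
  refine ⟨B.orthogonal W, ?_, ?_, hcompl⟩
  · intro g y hy
    rw [LinearMap.BilinForm.mem_orthogonal_iff] at hy ⊢
    intro x hx
    have e1 : x = ρ g (ρ g⁻¹ x) := by
      rw [← Module.End.mul_apply, ← map_mul, mul_inv_cancel, map_one]
      rfl
    change B x (ρ g y) = 0
    rw [e1, hinv]
    exact hy _ (hW _ x hx)
  · intro y hy
    rw [LinearMap.BilinForm.mem_orthogonal_iff] at hy
    -- the integral matrix
    let κ : Type := {w : V // w ∈ Submodule.span ℤ (Set.range b) ∧ w ∈ W}
    have h1 : ∀ (w : κ) i, ∃ n : ℤ, (n : ℝ) = B w.1 (b i) := fun w i =>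
      hint _ w.2.1 _ (Submodule.subset_span ⟨i, rfl⟩)
    choose M hM using h1
    have h2 : ∀ (w : κ) (c : ι → ℝ), ∑ i, c i * (M w i : ℝ) = B w.1 (∑ i, c i • b i) := by
      intro w c
      rw [map_sum]
      refine Finset.sum_congr rfl fun i _ => ?_
      rw [map_smul, hM, smul_eq_mul]
    have h3 := rational_kernel (fun i (w : κ) => M w i) (b.repr y) (fun w => by
      rw [h2, b.sum_repr]
      exact hy _ w.2.2)
    have h4 : ∀ c : ι → ℝ, c ∈ Submodule.span ℝ {y : ι → ℝ | (∃ z : ι → ℤ, y = fun i => (z i : ℝ)) ∧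
        ∀ w : κ, ∑ i, y i * (M w i : ℝ) = 0} → ∑ i, c i • b i ∈
          Submodule.span ℝ {x | x ∈ Submodule.span ℤ (Set.range b) ∧ x ∈ B.orthogonal W} := by
      intro c hc
      induction hc using Submodule.span_induction with
      | mem c hc =>
        obtain ⟨⟨z, rfl⟩, hz⟩ := hc
        apply Submodule.subset_span
        constructor
        · refine Submodule.sum_mem _ fun i _ => ?_
          rw [Int.cast_smul_eq_zsmul]
          exact Submodule.smul_mem _ _ (Submodule.subset_span ⟨i, rfl⟩)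
        · rw [LinearMap.BilinForm.mem_orthogonal_iff]
          intro x hx
          have h5 : W ≤ LinearMap.ker (B.flip (∑ i, (z i : ℝ) • b i)) := by
            refine hWr.trans (Submodule.span_le.2 ?_)
            rintro w ⟨hw, hwW⟩
            have h6 := hz ⟨w, hw, hwW⟩
            rw [h2] at h6
            exact h6
          exact h5 hx
      | zero => simp
      | add y y' _ _ h h' =>
        have : ∑ i, (y + y') i • b i = ∑ i, y i • b i + ∑ i, y' i • b i := by
          rw [← Finset.sum_add_distrib]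
          exact Finset.sum_congr rfl fun i _ => add_smul _ _ _
        rw [this]
        exact Submodule.add_mem _ h h'
      | smul c y _ h =>
        have : ∑ i, (c • y) i • b i = c • ∑ i, y i • b i := by
          rw [Finset.smul_sum]
          exact Finset.sum_congr rfl fun i _ => by rw [Pi.smul_apply, smul_eq_mul, mul_smul]
        rw [this]
        exact Submodule.smul_mem _ _ h
    have h5 := h4 _ h3
    rwa [b.sum_repr] at h5

end Pool.Agent.MP_e4ecdb_ag.DF
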