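import Pool.Agent.MP_e4ecdb_ag.DConj
import Pool.Agent.MP_e4ecdb_ag.DDense
open Module

namespace Pool.Agent.MP_e4ecdb_ag.SYZ

open QD QC BB DF

variable {V : Type} [NormedAddCommGroup V] [NormedSpace ℂ V] {Γ : Subgroup (Equiv.Perm V)}

/-- the linear parts -/
abbrev GG (Γ : Subgroup (Equiv.Perm V)) := TQ.LG (old Γ)

/-- the representation of the linear parts -/
noncomputable abbrev rr (Γ : Subgroup (Equiv.Perm V)) : Representation ℂ (GG Γ) V := rho (old Γ)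

lemma forall_rr (hΓ : IsCryst Γ) {P : (V → V) → Prop} :
    (∀ g : GG Γ, P (rr Γ g)) ↔ ∀ γ ∈ Γ, P (lin γ) := by
  rw [forall_old hΓ (P := fun γ => P (lin γ))]
  constructor
  · intro h1 a ha
    have h2 := h1 ⟨a.linear, mem_LG ha⟩
    have h3 : (rr Γ ⟨a.linear, mem_LG ha⟩ : V → V) = lin a.toEquiv := by
      funext x
      exact (lin_eq a x).symm
    rwa [h3] at h2
  · rintro h1 ⟨A, a, ha, rfl⟩
    have h3 : (rr Γ ⟨a.linear, a, ha, rfl⟩ : V → V) = lin a.toEquiv := by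
      funext x
      exact (lin_eq a x).symm
    change P (rr Γ ⟨a.linear, a, ha, rfl⟩)
    rw [h3]
    exact h1 a ha

lemma rstable_iff (hΓ : IsCryst Γ) (W : Submodule ℝ V) :
    RStable (rr Γ) W ↔ ∀ γ ∈ Γ, ∀ x ∈ W, lin γ x ∈ W :=
  forall_rr hΓ (P := fun f => ∀ x ∈ W, f x ∈ W)

lemma stable_iff (hΓ : IsCryst Γ) (K : Submodule ℂ V) :
    Stable (rr Γ) K ↔ ∀ γ ∈ Γ, ∀ x ∈ K, lin γ x ∈ K :=
  forall_rr hΓ (P := fun f => ∀ x ∈ K, f x ∈ K)

lemma def_iff (hΓ : IsCryst Γ) (h : V ≃ₗ[ℝ] V) :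
    h ∈ Def Γ ↔ ∀ g x, h (rr Γ g x) = rr Γ g (h x) :=
  (forall_rr hΓ (P := fun f => ∀ x, h (f x) = f (h x))).symm

lemma addLeft_lin (hΓ : IsCryst Γ) {x : V} (hx : Equiv.addLeft x ∈ Γ) {γ : Equiv.Perm V}
    (hγ : γ ∈ Γ) : Equiv.addLeft (lin γ x) ∈ Γ := by
  obtain ⟨A, hA, hA'⟩ := lin_real hΓ hγ
  have h1 : Equiv.addLeft (lin γ x) = γ * Equiv.addLeft x * γ⁻¹ := by
    ext v
    have h2 : v = γ (γ⁻¹ v) := by simp
    have h3 : (γ * Equiv.addLeft x * γ⁻¹) v = γ (x + γ⁻¹ v) := rfl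
    rw [h3, hA', map_add, add_assoc, ← hA', ← h2, hA]
    rfl
  rw [h1]
  exact Γ.mul_mem (Γ.mul_mem hγ hx) (Γ.inv_mem hγ)

/-- the rational stable subspaces of the conjugate group -/
lemma rat_conj (hΓ : IsCryst Γ) {h : V ≃ₗ[ℝ] V} (hh : h ∈ Def Γ) (K : Submodule ℂ V) :
    K ∈ RatStable (conj h Γ) ↔ K ≠ ⊥ ∧ K ≠ ⊤ ∧ (∀ γ ∈ Γ, ∀ x ∈ K, lin γ x ∈ K) ∧
      (K.restrictScalars ℝ).comap (h : V →ₗ[ℝ] V) ≤ Submodule.span ℝ
        {x | Equiv.addLeft x ∈ Γ ∧ x ∈ (K.restrictScalars ℝ).comap (h : V →ₗ[ℝ] V)} := by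
  unfold RatStable
  refine and_congr Iff.rfl (and_congr Iff.rfl (and_congr ?_ ?_))
  · rw [forall_conj]
    refine forall_congr' fun γ => forall_congr' fun hγ => ?_
    simp only [lin_cj hΓ hh hγ]
  · constructor
    · intro h1 x hx
      have h2 : h x ∈ Submodule.span ℝ {x | Equiv.addLeft x ∈ conj h Γ ∧ x ∈ K} := by
        rw [← h1]
        exact hx
      have h3 : Submodule.span ℝ {x | Equiv.addLeft x ∈ conj h Γ ∧ x ∈ K} ≤
          (Submodule.span ℝ {x | Equiv.addLeft x ∈ Γ ∧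
            x ∈ (K.restrictScalars ℝ).comap (h : V →ₗ[ℝ] V)}).comap (h.symm : V →ₗ[ℝ] V) := by
        rw [Submodule.span_le]
        rintro y ⟨hy, hyK⟩
        refine Submodule.subset_span ⟨addLeft_conj y |>.1 hy, ?_⟩
        change h (h.symm y) ∈ K
        rw [LinearEquiv.apply_symm_apply]
        exact hyK
      have h4 := h3 h2
      change h.symm (h x) ∈ Submodule.span ℝ _ at h4
      rwa [LinearEquiv.symm_apply_apply] at h4
    · intro h1
      apply le_antisymm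
      · intro y hy
        have h2 : h.symm y ∈ (K.restrictScalars ℝ).comap (h : V →ₗ[ℝ] V) := by
          change h (h.symm y) ∈ K
          rw [LinearEquiv.apply_symm_apply]
          exact hy
        have h3 : Submodule.span ℝ {x | Equiv.addLeft x ∈ Γ ∧
            x ∈ (K.restrictScalars ℝ).comap (h : V →ₗ[ℝ] V)} ≤
            (Submodule.span ℝ {x | Equiv.addLeft x ∈ conj h Γ ∧ x ∈ K}).comap
              (h : V →ₗ[ℝ] V) := by
          rw [Submodule.span_le]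
          rintro x ⟨hx, hxK⟩
          refine Submodule.subset_span ⟨(addLeft_conj _).2 ?_, hxK⟩
          change Equiv.addLeft (h.symm (h x)) ∈ Γ
          rwa [LinearEquiv.symm_apply_apply]
        have h4 := h3 (h1 h2)
        change h (h.symm y) ∈ Submodule.span ℝ _ at h4
        rwa [LinearEquiv.apply_symm_apply] at h4
      · rw [Submodule.span_le]
        rintro x ⟨-, hx⟩
        exact hx

variable [FiniteDimensional ℂ V]

/-- a proper stable complex subspace exists when `h^{1,1} ≥ 2` -/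
lemma exists_K [Nontrivial V] {σ : LinearMap.BilinForm ℂ V} (hΓ : IsCryst Γ)
    (hσ : IsPrimSympl Γ σ) (h2 : 2 ≤ h11 Γ) :
    ∃ K : Submodule ℂ V, Stable (rr Γ) K ∧ K ≠ ⊥ ∧ K ≠ ⊤ := by
  have hfin := finite_LG (old_cryst hΓ)
  have hpr := QD.prim (old_prim hΓ hσ)
  obtain ⟨h, ⟨hh1, hh2⟩, hpos⟩ := QD.exists_pos (old_cryst hΓ)
  have hI : h ∈ InvHerm (rr Γ) := by
    refine ⟨hh1, ?_⟩
    rintro ⟨A, a, ha, rfl⟩ x y
    exact hh2 a ha x y
  by_contra hcon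
  push Not at hcon
  have hle : MP_e4ecdb_ag.H11 (old Γ) ≤ Submodule.span ℝ {h} := by
    intro H hH
    have hHI : H ∈ InvHerm (rr Γ) := by
      refine ⟨hH.1, ?_⟩
      rintro ⟨A, a, ha, rfl⟩ x y
      exact hH.2 a ha x y
    rcases two_eig hpr hpos (op_self hpos hh1 hH.1) (op_comm hpos hI hHI) with
      ⟨l, hl⟩ | ⟨l, m, -, -, -, -, -, h5, -⟩
    · rw [Submodule.mem_span_singleton]
      refine ⟨l, ?_⟩
      apply LinearMap.ext
      intro x
      apply LinearMap.ext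
      intro y
      have h6 := op_spec hpos H x y
      rw [hl, LinearMap.map_smulₛₗ, Complex.conj_ofReal] at h6
      exact h6
    · exfalso
      have h7 : 0 < finrank ℂ V := finrank_pos
      have h8 := hcon (Ei (op hpos H) l) (Ei_stable (op_comm hpos hI hHI) l) (by
        intro h0
        rw [h0, finrank_bot] at h5
        omega)
      rw [h8, finrank_top] at h5
      omega
  rw [h11_eq hΓ] at h2
  have hf : Module.Finite ℝ (Submodule.span ℝ {h}) := inferInstance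
  have h9 := Submodule.finrank_mono hle
  have h10 := finrank_span_le_card (R := ℝ) ({h} : Set (V →ₗ⋆[ℂ] V →ₗ[ℂ] ℂ))
  simp at h10
  omega

/-- `b_2 = 4`: a rationally reducible lattice has a fibred deformation -/
lemma exists_def [Nontrivial V] {σ : LinearMap.BilinForm ℂ V} (hΓ : IsCryst Γ)
    (hσ : IsPrimSympl Γ σ) (h2 : h11 Γ = 2) (hr : Reducible Γ) :
    ∃ h ∈ Def Γ, (RatStable (conj h Γ)).Nonempty := by
  obtain ⟨W, h0, h1, hst, hrat⟩ := hr
  have hfin := finite_LG (old_cryst hΓ)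
  have hpr := QD.prim (old_prim hΓ hσ)
  obtain ⟨h, ⟨hh1, hh2⟩, hpos⟩ := QD.exists_pos (old_cryst hΓ)
  have hI : h ∈ InvHerm (rr Γ) := by
    refine ⟨hh1, ?_⟩
    rintro ⟨A, a, ha, rfl⟩ x y
    exact hh2 a ha x y
  obtain ⟨K, hK, hK0, hK1⟩ := exists_K hΓ hσ (by omega)
  obtain ⟨P, hP1, hP2, hP3⟩ := exists_equivariant_proj (rr Γ) K hK
  have hPP : ∀ x, P (P x) = P x := fun x => hP2 _ (hP1 x)
  have hK' : Stable (rr Γ) (LinearMap.ker P) := by
    intro g x hx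
    rw [LinearMap.mem_ker] at hx ⊢
    rw [hP3, hx, map_zero]
  have hsub : ∀ x, x - P x ∈ LinearMap.ker P := fun x => by
    rw [LinearMap.mem_ker, map_sub, hPP, sub_self]
  have hc : IsCompl K (LinearMap.ker P) := by
    constructor
    · rw [Submodule.disjoint_def]
      intro x hx hx'
      rw [LinearMap.mem_ker, hP2 x hx] at hx'
      exact hx'
    · rw [codisjoint_iff, eq_top_iff]
      intro x _
      have : x = P x + (x - P x) := by abel
      rw [this]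
      exact Submodule.add_mem_sup (hP1 x) (hsub x)
  have hK'0 : LinearMap.ker P ≠ ⊥ := by
    intro hb
    have := hc.sup_eq_top
    rw [hb, sup_bot_eq] at this
    exact hK1 this
  have hK'1 : LinearMap.ker P ≠ ⊤ := by
    intro hb
    have := hc.inf_eq_bot
    rw [hb, inf_top_eq] at this
    exact hK0 this
  have h3 : ∀ K1 K2 K3 : Submodule ℂ V, Stable (rr Γ) K1 → Stable (rr Γ) K2 →
      Stable (rr Γ) K3 → K1 ≠ ⊥ → K2 ≠ ⊥ → K3 ≠ ⊥ → Disjoint K1 K2 → Disjoint K1 K3 →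
      Disjoint K2 K3 → False := by
    intro K1 K2 K3 s1 s2 s3 n1 n2 n3 d12 d13 d23
    have hfd : Module.Finite ℝ (MP_e4ecdb_ag.H11 (old Γ)) := finite_H11 (by
      rw [← h11_eq hΓ, h2]; norm_num)
    have := finrank_three (old_cryst hΓ) hfd s1 s2 s3 n1 n2 n3 d12 d13 d23
    rw [← h11_eq hΓ, h2] at this
    omega
  obtain ⟨e, he, hor⟩ := exists_shear hK hK' hc
    (fun U hU1 hU2 => real_irr_K hpr hI hpos h3 hK hK0 hK1 U hU1 hU2)
    (fun U hU1 hU2 => real_irr_K hpr hI hpos h3 hK' hK'0 hK'1 U hU1 hU2)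
    ((rstable_iff hΓ W).2 hst) h0 h1
  have heD : e ∈ Def Γ := (def_iff hΓ e).2 he
  have fin : ∀ L : Submodule ℂ V, Stable (rr Γ) L → L ≠ ⊥ → L ≠ ⊤ → (∀ x, e x ∈ L ↔ x ∈ W) →
      L ∈ RatStable (conj e Γ) := by
    intro L hL hL0 hL1 hLW
    rw [rat_conj hΓ heD]
    refine ⟨hL0, hL1, (stable_iff hΓ L).1 hL, ?_⟩
    have hcm : (L.restrictScalars ℝ).comap (e : V →ₗ[ℝ] V) = W := by
      ext x
      exact hLW x
    rw [hcm]
    exact hrat.le
  refine ⟨e, heD, ?_⟩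
  rcases hor with h4 | h4
  · exact ⟨K, fin K hK hK0 hK1 h4⟩
  · exact ⟨_, fin _ hK' hK'0 hK'1 h4⟩

/-- a fibred deformation gives a rationally reducible lattice -/
lemma reducible_of (hΓ : IsCryst Γ) {h : V ≃ₗ[ℝ] V} (hh : h ∈ Def Γ)
    (hr : (RatStable (conj h Γ)).Nonempty) : Reducible Γ := by
  obtain ⟨K, hK⟩ := hr
  obtain ⟨h0, h1, h2, h3⟩ := (rat_conj hΓ hh K).1 hK
  refine ⟨(K.restrictScalars ℝ).comap (h : V →ₗ[ℝ] V), ?_, ?_, ?_, ?_⟩
  · intro hb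
    apply h0
    rw [Submodule.eq_bot_iff]
    intro x hx
    have h4 : h.symm x ∈ (K.restrictScalars ℝ).comap (h : V →ₗ[ℝ] V) := by
      change h (h.symm x) ∈ K
      rw [LinearEquiv.apply_symm_apply]
      exact hx
    rw [hb, Submodule.mem_bot] at h4
    rw [← h.apply_symm_apply x, h4, map_zero]
  · intro ht
    apply h1
    rw [eq_top_iff]
    intro x _
    have h4 : h.symm x ∈ (K.restrictScalars ℝ).comap (h : V →ₗ[ℝ] V) := ht ▸ Submodule.mem_top
    change h (h.symm x) ∈ K at h4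
    rwa [LinearEquiv.apply_symm_apply] at h4
  · intro γ hγ x hx
    change h (lin γ x) ∈ K
    rw [hh γ hγ]
    exact h2 γ hγ _ hx
  · apply le_antisymm h3
    rw [Submodule.span_le]
    rintro x ⟨-, hx⟩
    exact hx

/-- if one deformation is fibred, the fibred deformations are dense -/
lemma dense_def (hΓ : IsCryst Γ) {h0 : V ≃ₗ[ℝ] V} (hh0 : h0 ∈ Def Γ)
    (hr : (RatStable (conj h0 Γ)).Nonempty) {h : V ≃ₗ[ℝ] V} (hh : h ∈ Def Γ) {ε : ℝ} (hε : 0 < ε) :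
    ∃ h' ∈ Def Γ, (∀ x, ‖h' x - h x‖ ≤ ε * ‖x‖) ∧ (RatStable (conj h' Γ)).Nonempty := by
  obtain ⟨K, hK⟩ := hr
  obtain ⟨k0, k1, k2, k3⟩ := (rat_conj hΓ hh0 K).1 hK
  have hfin := finite_LG (old_cryst hΓ)
  obtain ⟨ι, hι, b, hb⟩ := hΓ.lattice
  have hV : FiniteDimensional ℝ V := Module.Finite.of_basis b
  have hΛ : ∀ g : GG Γ, ∀ x ∈ Submodule.span ℤ (Set.range b),
      rr Γ g x ∈ Submodule.span ℤ (Set.range b) := by
    have := (forall_rr hΓ (P := fun f => ∀ x ∈ Submodule.span ℤ (Set.range b),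
      f x ∈ Submodule.span ℤ (Set.range b))).2
    apply this
    intro γ hγ x hx
    rw [hb] at hx ⊢
    exact addLeft_lin hΓ hx hγ
  have c0 := (def_iff hΓ h0).1 hh0
  have c1 := (def_iff hΓ h).1 hh
  let T : V ≃ₗ[ℝ] V := h.trans h0.symm
  have hTx : ∀ x, T x = h0.symm (h x) := fun x => rfl
  have hT : ∀ g x, (T : V →ₗ[ℝ] V) (rr Γ g x) = rr Γ g ((T : V →ₗ[ℝ] V) x) := by
    intro g x
    change h0.symm (h (rr Γ g x)) = rr Γ g (h0.symm (h x))
    rw [c1]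
    apply h0.injective
    rw [LinearEquiv.apply_symm_apply, c0, LinearEquiv.apply_symm_apply]
  obtain ⟨C0, hC0, hb0⟩ := norm_bound (h0 : V →ₗ[ℝ] V)
  obtain ⟨C1, hC1, hb1⟩ := norm_bound (T.symm : V →ₗ[ℝ] V)
  obtain ⟨a, ha1, ha2, ha3⟩ := exists_rat_near (rr Γ) b hΛ (T : V →ₗ[ℝ] V) hT
    (show 0 < min (ε / C0) (1 / (2 * C1)) by positivity)
  have hinj : Function.Injective a := by
    rw [injective_iff_map_eq_zero]
    intro x hx
    have e1 := ha3 x
    rw [hx, zero_sub, norm_neg] at e1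
    have e2 := hb1 (T x)
    change ‖T.symm (T x)‖ ≤ C1 * ‖T x‖ at e2
    rw [LinearEquiv.symm_apply_apply] at e2
    have e3 : ‖T x‖ ≤ 1 / (2 * C1) * ‖x‖ :=
      e1.trans (mul_le_mul_of_nonneg_right (min_le_right _ _) (norm_nonneg _))
    have e4 : ‖x‖ ≤ 1 / 2 * ‖x‖ := by
      calc ‖x‖ ≤ C1 * ‖T x‖ := e2
        _ ≤ C1 * (1 / (2 * C1) * ‖x‖) := mul_le_mul_of_nonneg_left e3 hC1.le
        _ = 1 / 2 * ‖x‖ := by field_simp
    have e5 : ‖x‖ ≤ 0 := by linarith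
    exact norm_le_zero_iff.1 e5
  let a' : V ≃ₗ[ℝ] V := LinearEquiv.ofInjectiveEndo a hinj
  have ha' : ∀ x, a' x = a x := fun x => rfl
  let h' : V ≃ₗ[ℝ] V := a'.trans h0
  have hh' : ∀ x, h' x = h0 (a x) := fun x => rfl
  have hD : h' ∈ Def Γ := by
    rw [def_iff hΓ]
    intro g x
    rw [hh', hh', ha1, c0]
  refine ⟨h', hD, fun x => ?_, K, ?_⟩
  · have e1 : h' x - h x = h0 (a x - T x) := by
      rw [hh', map_sub, hTx, LinearEquiv.apply_symm_apply]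
    rw [e1]
    calc ‖h0 (a x - T x)‖ ≤ C0 * ‖a x - T x‖ := hb0 _
      _ ≤ C0 * (ε / C0 * ‖x‖) := by
          apply mul_le_mul_of_nonneg_left _ hC0.le
          exact (ha3 x).trans (mul_le_mul_of_nonneg_right (min_le_left _ _) (norm_nonneg _))
      _ = ε * ‖x‖ := by field_simp
  · rw [rat_conj hΓ hD]
    refine ⟨k0, k1, k2, ?_⟩
    have e1 : (K.restrictScalars ℝ).comap (h' : V →ₗ[ℝ] V) =
        ((K.restrictScalars ℝ).comap (h0 : V →ₗ[ℝ] V)).comap a := rfl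
    have e2 : ∀ (U : Submodule ℝ V), {x | Equiv.addLeft x ∈ Γ ∧ x ∈ U} =
        {x | x ∈ Submodule.span ℤ (Set.range b) ∧ x ∈ U} := by
      intro U
      ext x
      simp only [Set.mem_setOf_eq, hb]
    rw [e1, e2]
    rw [e2] at k3
    exact rat_preimage b ha2 hinj k3

end Pool.Agent.MP_e4ecdb_ag.SYZ
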