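import Pool.Agent.MP_e4ecdb_ag.BBb
open Module

/-! Real stable subspaces of a primitive symplectic representation. -/

namespace Pool.Agent.MP_e4ecdb_ag.DF

open BB

variable {V : Type} [AddCommGroup V] [Module ℂ V] {G : Type} [Group G]

/-- a real subspace which is stable under the group -/
def RStable (ρ : Representation ℂ G V) (W : Submodule ℝ V) : Prop := ∀ g, ∀ x ∈ W, ρ g x ∈ W

/-- `c = a + b i` acts by real scalars and `i` -/
lemma smul_split (c : ℂ) (x : V) : c • x = c.re • x + Complex.I • (c.im • x) := by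
  have e1 : ∀ (r : ℝ) (z : V), r • z = (r : ℂ) • z := fun r z => rfl
  rw [e1, e1, smul_smul, ← add_smul]
  congr 1
  rw [mul_comm]
  exact (Complex.re_add_im c).symm

lemma I_smul_I (x : V) : Complex.I • (Complex.I • x) = -x := by
  rw [smul_smul, Complex.I_mul_I, neg_smul, one_smul]

lemma I_smul_real (r : ℝ) (x : V) : Complex.I • (r • x) = r • (Complex.I • x) :=
  smul_comm _ _ _

/-- The real subspace `U` gives an invariant complex bilinear form which restricts to the positive
form on `U`. -/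
lemma exists_form {ρ : Representation ℂ G V} {h : V →ₗ⋆[ℂ] V →ₗ[ℂ] ℂ} (hh : h ∈ InvHerm ρ)
    {U : Submodule ℝ V} (hU : RStable ρ U) (hd : ∀ u ∈ U, Complex.I • u ∈ U → u = 0)
    (P : V →ₗ[ℂ] V) (hP : ∀ g x, P (ρ g x) = ρ g (P x))
    (hs : ∀ x, ∃ u ∈ U, ∃ v ∈ U, P x = u + Complex.I • v) :
    ∃ B : LinearMap.BilinForm ℂ V, (∀ g x y, B (ρ g x) (ρ g y) = B x y) ∧
      (∀ u ∈ U, P u = u → B u u = h u u) ∧ (∀ x y, P x = 0 → B x y = 0) ∧
      (∀ x y, P y = 0 → B x y = 0) := by
  have uniq : ∀ u ∈ U, ∀ v ∈ U, ∀ u' ∈ U, ∀ v' ∈ U, u + Complex.I • v = u' + Complex.I • v' →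
      u = u' ∧ v = v' := by
    intro u hu v hv u' hu' v' hv' e
    have h1 : Complex.I • (v - v') = u' - u := by
      rw [smul_sub, sub_eq_sub_iff_add_eq_add, add_comm, e, add_comm]
    have h2 := hd (v - v') (U.sub_mem hv hv') (h1 ▸ U.sub_mem hu' hu)
    have h3 : v = v' := sub_eq_zero.1 h2
    refine ⟨?_, h3⟩
    rw [h3] at e
    exact add_right_cancel e
  choose α hα β hβ hPe using hs
  have real1 : ∀ (r : ℝ) (z : V), r • z = (r : ℂ) • z := fun r z => rfl
  have α_add : ∀ x x', α (x + x') = α x + α x' ∧ β (x + x') = β x + β x' := by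
    intro x x'
    apply uniq _ (hα _) _ (hβ _) _ (U.add_mem (hα _) (hα _)) _ (U.add_mem (hβ _) (hβ _))
    rw [← hPe, map_add, hPe x, hPe x', smul_add]
    abel
  have α_smul : ∀ (c : ℂ) x, α (c • x) = c.re • α x - c.im • β x ∧
      β (c • x) = c.im • α x + c.re • β x := by
    intro c x
    apply uniq _ (hα _) _ (hβ _) _ (U.sub_mem (U.smul_mem _ (hα _)) (U.smul_mem _ (hβ _))) _
      (U.add_mem (U.smul_mem _ (hα _)) (U.smul_mem _ (hβ _)))
    rw [← hPe, map_smul, hPe x, smul_split c, smul_add, smul_add, smul_add, smul_add,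
      I_smul_real c.im (Complex.I • β x), I_smul_I, I_smul_real c.re (β x), smul_neg]
    abel
  have α_g : ∀ g x, α (ρ g x) = ρ g (α x) ∧ β (ρ g x) = ρ g (β x) := by
    intro g x
    apply uniq _ (hα _) _ (hβ _) _ (hU _ _ (hα _)) _ (hU _ _ (hβ _))
    rw [← hPe, hP, hPe x, map_add, map_smul]
  have hr : ∀ (r : ℝ) (x y : V), h (r • x) y = r * h x y := by
    intro r x y
    rw [real1, LinearMap.map_smulₛₗ, Complex.conj_ofReal, LinearMap.smul_apply, smul_eq_mul]
  let B : LinearMap.BilinForm ℂ V := LinearMap.mk₂ ℂ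
    (fun x y => h (α x) (P y) + Complex.I * h (β x) (P y))
    (fun x x' y => by
      rw [(α_add x x').1, (α_add x x').2, map_add, map_add, LinearMap.add_apply,
        LinearMap.add_apply]
      ring)
    (fun c x y => by
      rw [(α_smul c x).1, (α_smul c x).2, map_sub, map_add, LinearMap.sub_apply,
        LinearMap.add_apply, hr, hr, hr, hr, smul_eq_mul]
      nth_rw 5 [← Complex.re_add_im c]
      linear_combination (-(c.im : ℂ) * h (β x) (P y)) * Complex.I_mul_I)
    (fun x y y' => by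
      rw [map_add, map_add, map_add]
      ring)
    (fun c x y => by
      rw [map_smul, map_smul, map_smul, smul_eq_mul, smul_eq_mul, smul_eq_mul]
      ring)
  have hB : ∀ x y, B x y = h (α x) (P y) + Complex.I * h (β x) (P y) := fun x y => rfl
  refine ⟨B, fun g x y => ?_, fun u hu hPu => ?_, fun x y hx => ?_, fun x y hy => ?_⟩
  · rw [hB, hB, (α_g g x).1, (α_g g x).2, hP, hh.2, hh.2]
  · have h1 : α u = u ∧ β u = 0 := by
      apply uniq _ (hα _) _ (hβ _) _ hu _ U.zero_mem
      rw [← hPe, hPu, smul_zero, add_zero]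
    rw [hB, h1.1, h1.2, hPu, map_zero, LinearMap.zero_apply, mul_zero, add_zero]
  · have h1 : α x = 0 ∧ β x = 0 := by
      apply uniq _ (hα _) _ (hβ _) _ U.zero_mem _ U.zero_mem
      rw [← hPe, hx, smul_zero, add_zero]
    rw [hB, h1.1, h1.2, map_zero, LinearMap.zero_apply, mul_zero, add_zero]
  · rw [hB, hy, map_zero, map_zero, mul_zero, add_zero]

/-- an invariant bilinear form is given by an equivariant endomorphism -/
lemma exists_end [FiniteDimensional ℂ V] {ρ : Representation ℂ G V} {σ : LinearMap.BilinForm ℂ V}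
    (hσ : IsPrimitiveSymplectic ρ σ) (B : LinearMap.BilinForm ℂ V)
    (hB : ∀ g x y, B (ρ g x) (ρ g y) = B x y) :
    ∃ A : V →ₗ[ℂ] V, (∀ x y, σ (A x) y = B x y) ∧ ∀ g x, A (ρ g x) = ρ g (A x) := by
  have hinj : Function.Injective σ := by
    rw [injective_iff_map_eq_zero]
    intro x hx
    exact hσ.nondeg x fun y => by rw [hx]; rfl
  have hsurj : Function.Surjective σ :=
    (LinearMap.injective_iff_surjective_of_finrank_eq_finrank
      (Subspace.dual_finrank_eq (K := ℂ) (V := V)).symm).1 hinj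
  let E := LinearEquiv.ofBijective σ ⟨hinj, hsurj⟩
  have hE : ∀ f, σ (E.symm f) = f := fun f => E.apply_symm_apply f
  let A : V →ₗ[ℂ] V := E.symm.toLinearMap ∘ₗ B
  have hA : ∀ x y, σ (A x) y = B x y := by
    intro x y
    have : σ (A x) = B x := hE (B x)
    rw [this]
  refine ⟨A, hA, fun g x => ?_⟩
  apply hinj
  apply LinearMap.ext
  intro y
  have h1 : y = ρ g (ρ g⁻¹ y) := by
    rw [← Module.End.mul_apply, ← map_mul, mul_inv_cancel, map_one]
    rfl
  rw [hA, h1, hB, hσ.inv, hA]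

/-- the complex subspace of the `x` with `x, i x` in `U` -/
def cInf (U : Submodule ℝ V) : Submodule ℂ V where
  carrier := {x | x ∈ U ∧ Complex.I • x ∈ U}
  add_mem' := by
    rintro x y ⟨h1, h2⟩ ⟨h3, h4⟩
    exact ⟨U.add_mem h1 h3, by rw [smul_add]; exact U.add_mem h2 h4⟩
  zero_mem' := ⟨U.zero_mem, by rw [smul_zero]; exact U.zero_mem⟩
  smul_mem' := by
    rintro c x ⟨h1, h2⟩
    constructor
    · rw [smul_split, I_smul_real]
      exact U.add_mem (U.smul_mem _ h1) (U.smul_mem _ h2)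
    · rw [smul_comm, smul_split, I_smul_real, I_smul_I]
      exact U.add_mem (U.smul_mem _ h2) (U.smul_mem _ (U.neg_mem h1))

/-- the complex subspace of the `u + i v` with `u, v` in `U` -/
def cSup (U : Submodule ℝ V) : Submodule ℂ V where
  carrier := {x | ∃ u ∈ U, ∃ v ∈ U, x = u + Complex.I • v}
  add_mem' := by
    rintro _ _ ⟨u, hu, v, hv, rfl⟩ ⟨u', hu', v', hv', rfl⟩
    refine ⟨u + u', U.add_mem hu hu', v + v', U.add_mem hv hv', ?_⟩
    rw [smul_add]
    abel
  zero_mem' := ⟨0, U.zero_mem, 0, U.zero_mem, by rw [smul_zero, add_zero]⟩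
  smul_mem' := by
    rintro c _ ⟨u, hu, v, hv, rfl⟩
    refine ⟨c.re • u - c.im • v, U.sub_mem (U.smul_mem _ hu) (U.smul_mem _ hv),
      c.im • u + c.re • v, U.add_mem (U.smul_mem _ hu) (U.smul_mem _ hv), ?_⟩
    rw [smul_split c, smul_add, smul_add, smul_add, smul_add,
      I_smul_real c.im (Complex.I • v), I_smul_I, I_smul_real c.re v, smul_neg]
    abel

lemma cInf_stable {ρ : Representation ℂ G V} {U : Submodule ℝ V} (hU : RStable ρ U) :
    Stable ρ (cInf U) := by
  rintro g x ⟨h1, h2⟩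
  refine ⟨hU g x h1, ?_⟩
  rw [← map_smul]
  exact hU g _ h2

lemma cSup_stable {ρ : Representation ℂ G V} {U : Submodule ℝ V} (hU : RStable ρ U) :
    Stable ρ (cSup U) := by
  rintro g _ ⟨u, hu, v, hv, rfl⟩
  exact ⟨ρ g u, hU g u hu, ρ g v, hU g v hv, by rw [map_add, map_smul]⟩

/-- If `V` is irreducible over `ℂ`, it is irreducible over `ℝ`. -/
lemma real_irr_top [FiniteDimensional ℂ V] [Nontrivial V] [Finite G] {ρ : Representation ℂ G V}
    {σ : LinearMap.BilinForm ℂ V} (hσ : IsPrimitiveSymplectic ρ σ) {h : V →ₗ⋆[ℂ] V →ₗ[ℂ] ℂ}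
    (hh : h ∈ InvHerm ρ) (hp : ∀ x, x ≠ 0 → 0 < (h x x).re)
    (hirr : ∀ K : Submodule ℂ V, Stable ρ K → K = ⊥ ∨ K = ⊤) (U : Submodule ℝ V)
    (hU : RStable ρ U) : U = ⊥ ∨ U = ⊤ := by
  by_contra hcon
  push Not at hcon
  obtain ⟨h0, h1⟩ := hcon
  have hinf : cInf U = ⊥ := by
    rcases hirr _ (cInf_stable hU) with h2 | h2
    · exact h2
    · exfalso
      apply h1
      rw [eq_top_iff]
      intro x _
      have : x ∈ cInf U := h2 ▸ Submodule.mem_top
      exact this.1
  have hsup : cSup U = ⊤ := by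
    rcases hirr _ (cSup_stable hU) with h2 | h2
    · exfalso
      apply h0
      rw [Submodule.eq_bot_iff]
      intro x hx
      have : x ∈ cSup U := ⟨x, hx, 0, U.zero_mem, by rw [smul_zero, add_zero]⟩
      rw [h2] at this
      exact (Submodule.mem_bot ℂ).1 this
    · exact h2
  obtain ⟨B, hB1, hB2, -, -⟩ := exists_form hh hU (fun u hu hIu => by
    have : u ∈ cInf U := ⟨hu, hIu⟩
    rw [hinf] at this
    exact (Submodule.mem_bot ℂ).1 this) LinearMap.id (fun g x => rfl) (fun x => by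
    have : x ∈ cSup U := hsup ▸ Submodule.mem_top
    exact this)
  obtain ⟨A, hA1, hA2⟩ := exists_end hσ B hB1
  obtain ⟨l, hl⟩ := Module.End.exists_eigenvalue A
  obtain ⟨x, hx⟩ := hl.exists_hasEigenvector
  have hker : LinearMap.ker (A - l • LinearMap.id) = ⊤ := by
    rcases hirr (LinearMap.ker (A - l • LinearMap.id)) (by
      intro g y hy
      rw [LinearMap.mem_ker, LinearMap.sub_apply, LinearMap.smul_apply, LinearMap.id_apply,
        sub_eq_zero] at hy ⊢
      rw [hA2, hy, map_smul]) with h2 | h2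
    · exfalso
      apply hx.2
      have : x ∈ LinearMap.ker (A - l • LinearMap.id) := by
        rw [LinearMap.mem_ker, LinearMap.sub_apply, LinearMap.smul_apply, LinearMap.id_apply,
          sub_eq_zero]
        exact hx.apply_eq_smul
      rw [h2] at this
      exact (Submodule.mem_bot ℂ).1 this
    · exact h2
  have hAl : ∀ y, A y = l • y := by
    intro y
    have : y ∈ LinearMap.ker (A - l • LinearMap.id) := hker ▸ Submodule.mem_top
    rw [LinearMap.mem_ker, LinearMap.sub_apply, LinearMap.smul_apply, LinearMap.id_apply,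
      sub_eq_zero] at this
    exact this
  obtain ⟨u, hu, hu0⟩ := (Submodule.ne_bot_iff U).1 h0
  have h3 := hB2 u hu rfl
  rw [← hA1, hAl, map_smul, LinearMap.smul_apply, hσ.alt, smul_zero] at h3
  have h4 := hp u hu0
  rw [← h3] at h4
  simp at h4

/-- If there are no three proper stable complex subspaces, the proper stable complex subspaces are
irreducible over `ℝ`. -/
lemma real_irr_K [FiniteDimensional ℂ V] [Finite G] {ρ : Representation ℂ G V}
    {σ : LinearMap.BilinForm ℂ V} (hσ : IsPrimitiveSymplectic ρ σ) {h : V →ₗ⋆[ℂ] V →ₗ[ℂ] ℂ}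
    (hh : h ∈ InvHerm ρ) (hp : ∀ x, x ≠ 0 → 0 < (h x x).re)
    (h3 : ∀ K1 K2 K3 : Submodule ℂ V, Stable ρ K1 → Stable ρ K2 → Stable ρ K3 → K1 ≠ ⊥ → K2 ≠ ⊥ →
      K3 ≠ ⊥ → Disjoint K1 K2 → Disjoint K1 K3 → Disjoint K2 K3 → False)
    {K : Submodule ℂ V} (hK : Stable ρ K) (hK0 : K ≠ ⊥) (hK1 : K ≠ ⊤) (U : Submodule ℝ V)
    (hUK : U ≤ K.restrictScalars ℝ) (hU : RStable ρ U) : U = ⊥ ∨ U = K.restrictScalars ℝ := by
  by_contra hcon
  push Not at hcon
  obtain ⟨h0, h1⟩ := hcon
  have hle : ∀ L : Submodule ℂ V, Stable ρ L → L ≤ K → L = ⊥ ∨ L = K := by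
    intro L hL hLK
    by_contra hc
    push Not at hc
    have hLt : L ≠ ⊤ := fun ht => hK1 (eq_top_iff.2 (ht ▸ hLK))
    have := (stable_compl hσ hL hc.1 hLt hK hK0 hK1 hc.2).disjoint
    exact hc.1 (disjoint_self.1 (this.mono_right hLK))
  have hinf : cInf U = ⊥ := by
    rcases hle _ (cInf_stable hU) (fun x hx => hUK hx.1) with h2 | h2
    · exact h2
    · exfalso
      apply h1
      apply le_antisymm hUK
      intro x hx
      have : x ∈ cInf U := h2 ▸ hx
      exact this.1
  have hsup : cSup U = K := by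
    rcases hle _ (cSup_stable hU) (by
      rintro _ ⟨u, hu, v, hv, rfl⟩
      exact K.add_mem (hUK hu) (K.smul_mem _ (hUK hv))) with h2 | h2
    · exfalso
      apply h0
      rw [Submodule.eq_bot_iff]
      intro x hx
      have : x ∈ cSup U := ⟨x, hx, 0, U.zero_mem, by rw [smul_zero, add_zero]⟩
      rw [h2] at this
      exact (Submodule.mem_bot ℂ).1 this
    · exact h2
  obtain ⟨P, hP1, hP2, hP3⟩ := exists_equivariant_proj ρ K hK
  obtain ⟨B, hB1, hB2, hB3, hB4⟩ := exists_form hh hU (fun u hu hIu => by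
    have : u ∈ cInf U := ⟨hu, hIu⟩
    rw [hinf] at this
    exact (Submodule.mem_bot ℂ).1 this) P hP3 (fun x => by
    have : P x ∈ cSup U := hsup ▸ hP1 x
    exact this)
  obtain ⟨A, hA1, hA2⟩ := exists_end hσ B hB1
  set K' : Submodule ℂ V := LinearMap.ker P with hK'def
  have hPP : ∀ x, P (P x) = P x := fun x => hP2 _ (hP1 x)
  have hK' : Stable ρ K' := by
    intro g x hx
    rw [hK'def, LinearMap.mem_ker] at hx ⊢
    rw [hP3, hx, map_zero]
  have hK'0 : K' ≠ ⊥ := by
    intro hb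
    apply hK1
    rw [eq_top_iff]
    intro x _
    have : x - P x ∈ K' := by
      rw [hK'def, LinearMap.mem_ker, map_sub, hPP, sub_self]
    rw [hb, Submodule.mem_bot, sub_eq_zero] at this
    rw [this]
    exact hP1 x
  have hK'1 : K' ≠ ⊤ := by
    intro ht
    apply hK0
    rw [Submodule.eq_bot_iff]
    intro x hx
    have : x ∈ K' := ht ▸ Submodule.mem_top
    rw [hK'def, LinearMap.mem_ker, hP2 x hx] at this
    exact this
  have hisoK := (stable_lagr hσ hK hK0 hK1).1
  have hisoK' := (stable_lagr hσ hK' hK'0 hK'1).1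
  -- the values of `A` are in `K'`
  have hAK' : ∀ x, P (A x) = 0 := by
    intro x
    apply hσ.nondeg
    intro y
    have e1 : σ (P (A x)) y = σ (P (A x)) (P y) + σ (P (A x)) (y - P y) := by
      rw [← map_add, add_sub_cancel]
    have e2 : σ (P (A x)) (y - P y) = σ (A x) (y - P y) - σ (A x - P (A x)) (y - P y) := by
      rw [← LinearMap.sub_apply, ← map_sub, sub_sub_cancel]
    have hy : y - P y ∈ K' := by
      rw [hK'def, LinearMap.mem_ker, map_sub, hPP, sub_self]
    have hx : A x - P (A x) ∈ K' := by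
      rw [hK'def, LinearMap.mem_ker, map_sub, hPP, sub_self]
    rw [e1, hisoK _ (hP1 _) _ (hP1 _), e2, hA1, hB4 _ _ (LinearMap.mem_ker.1 hy),
      hisoK' _ hx _ hy]
    simp
  have hAker : ∀ x, P x = 0 → A x = 0 := by
    intro x hx
    apply hσ.nondeg
    intro y
    rw [hA1, hB3 x y hx]
  let T : V →ₗ[ℂ] V := LinearMap.id - P - A
  have hT : ∀ x, T x = x - P x - A x := fun x => rfl
  set K3 : Submodule ℂ V := LinearMap.ker T with hK3def
  have hK3 : Stable ρ K3 := by
    intro g x hx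
    rw [hK3def, LinearMap.mem_ker, hT] at hx ⊢
    rw [hP3, hA2, ← map_sub, ← map_sub, hx, map_zero]
  obtain ⟨u, hu, hu0⟩ := (Submodule.ne_bot_iff U).1 h0
  have huK : u ∈ K := hUK hu
  have hPu : P u = u := hP2 u huK
  have hAu : A u ≠ 0 := by
    intro hc
    have h4 := hB2 u hu hPu
    rw [← hA1, hc, map_zero, LinearMap.zero_apply] at h4
    have h5 := hp u hu0
    rw [← h4] at h5
    simp at h5
  have hmem : u + A u ∈ K3 := by
    rw [hK3def, LinearMap.mem_ker, hT, map_add, map_add, hPu, hAK', hAker (A u) (hAK' u)]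
    simp
  have hPm : P (u + A u) = u := by rw [map_add, hPu, hAK', add_zero]
  have hne0 : u + A u ≠ 0 := by
    intro hc
    rw [hc, map_zero] at hPm
    exact hu0 hPm.symm
  have hK30 : K3 ≠ ⊥ := (Submodule.ne_bot_iff _).2 ⟨_, hmem, hne0⟩
  have hd23 : Disjoint K' K3 := by
    rw [Submodule.disjoint_def]
    intro x hx hx3
    rw [hK'def, LinearMap.mem_ker] at hx
    rw [hK3def, LinearMap.mem_ker, hT, hx, hAker x hx] at hx3
    simpa using hx3
  have hK31 : K3 ≠ ⊤ := by
    intro ht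
    rw [ht] at hd23
    exact hK'0 (disjoint_top.1 hd23)
  have hne13 : K ≠ K3 := by
    intro hc
    have h4 : u + A u ∈ K := hc ▸ hmem
    have h5 := hP2 _ h4
    rw [hPm] at h5
    apply hAu
    have : u + A u = u + 0 := by rw [add_zero]; exact h5.symm
    exact add_left_cancel this
  have hd13 : Disjoint K K3 := (stable_compl hσ hK hK0 hK1 hK3 hK30 hK31 hne13).disjoint
  have hd12 : Disjoint K K' := by
    rw [Submodule.disjoint_def]
    intro x hx hx'
    rw [hK'def, LinearMap.mem_ker, hP2 x hx] at hx'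
    exact hx'
  exact h3 K K' K3 hK hK' hK3 hK0 hK'0 hK30 hd12 hd13 hd23

end Pool.Agent.MP_e4ecdb_ag.DF
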