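import Pool.Agent.MP_e4ecdb_ag.DSix
open Module

namespace Pool.Agent.MP_e4ecdb_ag.SYZ

open QD QC BB DF

variable {V : Type} [NormedAddCommGroup V] [NormedSpace ℂ V] {Γ : Subgroup (Equiv.Perm V)}

lemma numLin_conj (hΓ : IsCryst Γ) {h : V ≃ₗ[ℝ] V} (hh : h ∈ Def Γ) :
    numLin (conj h Γ) = numLin Γ := by
  unfold numLin
  congr 1
  ext f
  constructor
  · rintro ⟨δ, hδ, rfl⟩
    obtain ⟨γ, hγ, h1⟩ := mem_conj.1 hδ
    have h2 : δ = cj h γ := by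
      ext x
      exact h1 x
    refine ⟨γ, hγ, ?_⟩
    funext x
    rw [h2, lin_cj hΓ hh hγ]
  · rintro ⟨γ, hγ, rfl⟩
    refine ⟨cj h γ, cj_mem hγ, ?_⟩
    funext x
    rw [lin_cj hΓ hh hγ]

variable [FiniteDimensional ℂ V]

/-- the question for all deformations, with the same exponents -/
lemma class_syz [Nontrivial V] {σ : LinearMap.BilinForm ℂ V} (hΓ : IsCryst Γ)
    (hσ : IsPrimSympl Γ σ) {h : V ≃ₗ[ℝ] V} (hh : h ∈ Def Γ)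
    {q : QuadraticForm ℝ (V →ₗ⋆[ℂ] V →ₗ[ℂ] ℂ)} {e : Equiv.Perm V → V → ℂ}
    {H : V →ₗ⋆[ℂ] V →ₗ[ℂ] ℂ} (hq : IsBBF (conj h Γ) q) (he : IsFactor (conj h Γ) e)
    (hH : IsChern (conj h Γ) e H) (hps : IsPsef (conj h Γ) H) (hne : H ≠ 0) (h0 : q H = 0) :
    ∃ K ∈ RatStable (conj h Γ), IsLagr σ K ∧
      ∀ N : ℕ, 1 ≤ N → 3 * numLin Γ ^ 2 ∣ N → InducesAt (conj h Γ) e K N := by
  have hΓ' := conj_cryst hΓ hh
  have hσ' := conj_prim hΓ hσ hh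
  obtain ⟨K, hK, -, h1⟩ := (tri hΓ' hσ' hq he hH).null h0 hne
  refine ⟨K, hK, (lagr_ray hΓ' hσ' hK).1, ?_⟩
  rcases h1 with h1 | h1
  · intro N hN hd
    exact h1 N hN (by rw [numLin_conj hΓ hh]; exact hd)
  · exact absurd hps h1.2

/-- any line bundle with `c_1 ≠ 0`, `q = 0` gives a pair -/
lemma hasPair_iff' [Nontrivial V] {σ : LinearMap.BilinForm ℂ V} (hΓ : IsCryst Γ)
    (hσ : IsPrimSympl Γ σ) : HasPair Γ ↔
      ∃ q e H, IsBBF Γ q ∧ IsFactor Γ e ∧ IsChern Γ e H ∧ H ≠ 0 ∧ q H = 0 := by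
  constructor
  · rintro ⟨q, e, H, hq, he, hH, -, hne, h0⟩
    exact ⟨q, e, H, hq, he, hH, hne, h0⟩
  · rintro ⟨q, e, H, hq, he, hH, hne, h0⟩
    rw [hasPair_iff hΓ hσ]
    obtain ⟨K, hK, -⟩ := (tri hΓ hσ hq he hH).null h0 hne
    exact ⟨K, hK⟩

/-- the criterion -/
theorem criterion [Nontrivial V] {σ : LinearMap.BilinForm ℂ V} (hΓ : IsCryst Γ)
    (hσ : IsPrimSympl Γ σ) : (∃ h ∈ Def Γ, HasPair (conj h Γ)) ↔ 2 ≤ h11 Γ ∧ Reducible Γ := by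
  have key : ∀ h ∈ Def Γ, (HasPair (conj h Γ) ↔ (RatStable (conj h Γ)).Nonempty) :=
    fun h hh => hasPair_iff (conj_cryst hΓ hh) (conj_prim hΓ hσ hh)
  obtain ⟨c1, -⟩ := card hΓ hσ
  constructor
  · rintro ⟨h, hh, hp⟩
    rw [key h hh] at hp
    refine ⟨?_, reducible_of hΓ hh hp⟩
    by_contra hlt
    obtain ⟨-, -, c3, -⟩ := card (conj_cryst hΓ hh) (conj_prim hΓ hσ hh)
    rw [c3 (by rw [conj_h11 hΓ hh]; omega)] at hp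
    exact Set.not_nonempty_empty hp
  · rintro ⟨h2, hr⟩
    rcases c1 with c1 | c1 | c1
    · omega
    · obtain ⟨h, hh, hp⟩ := exists_def hΓ hσ c1 hr
      exact ⟨h, hh, (key h hh).2 hp⟩
    · obtain ⟨h, hh, hp⟩ := exists_def4 hΓ hσ (by omega) hr
      exact ⟨h, hh, (key h hh).2 hp⟩

end Pool.Agent.MP_e4ecdb_ag.SYZ
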