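import Pool.Agent.MP_e4ecdb_ag.DStruct
import Pool.Agent.MP_e4ecdb_ag.DFive
open Module

namespace Pool.Agent.MP_e4ecdb_ag.SYZ

open QD QC BB DF

variable {V : Type} [NormedAddCommGroup V] [NormedSpace ℂ V] {Γ : Subgroup (Equiv.Perm V)}
variable [FiniteDimensional ℂ V]

/-- from an automorphism mapping a rational subspace to a complex one to a fibred deformation -/
lemma fin_def (hΓ : IsCryst Γ) {ι : Type} [Fintype ι] (b : Basis ι ℝ V)
    (hb : ∀ x : V, x ∈ Submodule.span ℤ (Set.range b) ↔ Equiv.addLeft x ∈ Γ)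
    {e : V ≃ₗ[ℝ] V} (he : ∀ g x, e (rr Γ g x) = rr Γ g (e x)) {K : Submodule ℂ V}
    (hK : Stable (rr Γ) K) (hK0 : K ≠ ⊥) (hK1 : K ≠ ⊤) {W : Submodule ℝ V} (hW : RatSub b W)
    (heW : ∀ x, e x ∈ K ↔ x ∈ W) : ∃ h ∈ Def Γ, (RatStable (conj h Γ)).Nonempty := by
  have heD : e ∈ Def Γ := (def_iff hΓ e).2 he
  refine ⟨e, heD, K, ?_⟩
  rw [rat_conj hΓ heD]
  refine ⟨hK0, hK1, (stable_iff hΓ K).1 hK, ?_⟩
  have hcm : (K.restrictScalars ℝ).comap (e : V →ₗ[ℝ] V) = W := by
    ext x
    exact heW x
  rw [hcm]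
  refine hW.trans (Submodule.span_mono ?_)
  rintro x ⟨hx, hxW⟩
  exact ⟨(hb x).1 hx, hxW⟩

/-- a rationally reducible lattice has a fibred deformation, `h^{1,1} = 4` -/
lemma exists_def4 [Nontrivial V] {σ : LinearMap.BilinForm ℂ V} (hΓ : IsCryst Γ)
    (hσ : IsPrimSympl Γ σ) (h4 : 2 < h11 Γ) (hr : Reducible Γ) :
    ∃ h ∈ Def Γ, (RatStable (conj h Γ)).Nonempty := by
  obtain ⟨W, h0, h1, hst, hrat⟩ := hr
  have hfin := finite_LG (old_cryst hΓ)
  have hpr := QD.prim (old_prim hΓ hσ)
  obtain ⟨h, ⟨hh1, hh2⟩, hpos⟩ := QD.exists_pos (old_cryst hΓ)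
  have hI : h ∈ InvHerm (rr Γ) := by
    refine ⟨hh1, ?_⟩
    rintro ⟨A, a, ha, rfl⟩ x y
    exact hh2 a ha x y
  have hV : FiniteDimensional ℝ V := FiniteDimensional.complexToReal V
  have hIH : InvHerm (rr Γ) = MP_e4ecdb_ag.H11 (old Γ) := by
    apply le_antisymm
    · rintro H ⟨h1, h2⟩
      exact ⟨h1, fun a ha x y => h2 ⟨a.linear, mem_LG ha⟩ x y⟩
    · rintro H ⟨h1, h2⟩
      refine ⟨h1, ?_⟩
      rintro ⟨A, a, ha, rfl⟩ x y
      exact h2 a ha x y
  have hr2 : 2 < finrank ℝ (InvHerm (rr Γ)) := by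
    rw [hIH, ← h11_eq hΓ]
    exact h4
  obtain ⟨ι, hι, b, hb⟩ := hΓ.lattice
  have hΛ : ∀ g : GG Γ, ∀ x ∈ Submodule.span ℤ (Set.range b),
      rr Γ g x ∈ Submodule.span ℤ (Set.range b) := by
    have := (forall_rr hΓ (P := fun f => ∀ x ∈ Submodule.span ℤ (Set.range b),
      f x ∈ Submodule.span ℤ (Set.range b))).2
    apply this
    intro γ hγ x hx
    rw [hb] at hx ⊢
    exact addLeft_lin hΓ hx hγ
  have hWr : RatSub b W := by
    have e1 : {x | x ∈ Submodule.span ℤ (Set.range b) ∧ x ∈ W} =
        {x | Equiv.addLeft x ∈ Γ ∧ x ∈ W} := by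
      ext x
      exact and_congr (hb x) Iff.rfl
    unfold RatSub
    rw [e1]
    exact hrat.le
  have hWst : RStable (rr Γ) W := (rstable_iff hΓ W).2 hst
  have hcr : ∀ K : Submodule ℂ V, finrank ℝ (K.restrictScalars ℝ) = 2 * finrank ℂ K :=
    fun K => finrank_real_of_complex K
  have hVr : finrank ℝ V = 2 * finrank ℂ V := finrank_real_of_complex V
  have hVp : 0 < finrank ℂ V := finrank_pos
  -- the complex subspaces attached to a real one
  have hle : ∀ W : Submodule ℝ V, (cInf W).restrictScalars ℝ ≤ W := fun W x hx => hx.1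
  have htr : ∀ W : Submodule ℝ V, cInf W = ⊥ → ∀ u ∈ W, Complex.I • u ∈ W → u = 0 := by
    intro W hb u hu hu'
    have : u ∈ cInf W := ⟨hu, hu'⟩
    rwa [hb, Submodule.mem_bot] at this
  have hsup : ∀ W : Submodule ℝ V, finrank ℝ ((cSup W).restrictScalars ℝ) ≤ 2 * finrank ℝ W ∧
      (cInf W = ⊥ → finrank ℝ ((cSup W).restrictScalars ℝ) = 2 * finrank ℝ W) := by
    intro W
    let f : (W × W) →ₗ[ℝ] V := W.subtype.coprod (mI ∘ₗ W.subtype)
    have hf : ∀ p, f p = (p.1 : V) + Complex.I • (p.2 : V) := fun p => rfl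
    have hrange : LinearMap.range f = (cSup W).restrictScalars ℝ := by
      ext x
      constructor
      · rintro ⟨p, rfl⟩
        exact ⟨p.1, p.1.2, p.2, p.2.2, hf p⟩
      · rintro ⟨u, hu, v, hv, rfl⟩
        exact ⟨(⟨u, hu⟩, ⟨v, hv⟩), rfl⟩
    have hprod : finrank ℝ (W × W) = 2 * finrank ℝ W := by
      rw [Module.finrank_prod]
      ring
    constructor
    · rw [← hrange, ← hprod]
      exact LinearMap.finrank_range_le f
    · intro hb
      have hinj : Function.Injective f := by
        rw [injective_iff_map_eq_zero]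
        rintro ⟨u, v⟩ huv
        rw [hf] at huv
        have e1 : Complex.I • (v : V) = -(u : V) := eq_neg_of_add_eq_zero_right huv
        have e2 : (v : V) = 0 := htr W hb v v.2 (by rw [e1]; exact W.neg_mem u.2)
        rw [e2, smul_zero] at e1
        have e3 : (u : V) = 0 := neg_eq_zero.1 e1.symm
        exact Prod.ext (Subtype.ext e3) (Subtype.ext e2)
      rw [← hrange, LinearMap.finrank_range_of_inj hinj, hprod]
  -- small subspaces
  have small : ∀ W : Submodule ℝ V, RStable (rr Γ) W → RatSub b W → W ≠ ⊥ →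
      finrank ℝ W < finrank ℂ V → ∃ h ∈ Def Γ, (RatStable (conj h Γ)).Nonempty := by
    intro W hW hWr hW0 hd
    have hInf : cInf W = ⊥ := by
      by_contra hb
      have e1 := Submodule.finrank_mono (hle W)
      rw [hcr] at e1
      have ht : cInf W ≠ ⊤ := by
        intro ht
        rw [ht, finrank_top] at e1
        omega
      have e2 := (stable_lagr hpr (cInf_stable hW) hb ht).2
      omega
    have hS1 : cSup W ≠ ⊤ := by
      intro ht
      have e1 := (hsup W).1
      rw [ht, hcr, finrank_top] at e1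
      omega
    have hS0 : cSup W ≠ ⊥ := by
      intro hb'
      apply hW0
      rw [Submodule.eq_bot_iff]
      intro x hx
      have : x ∈ cSup W := ⟨x, hx, 0, W.zero_mem, by rw [smul_zero, add_zero]⟩
      rwa [hb', Submodule.mem_bot] at this
    obtain ⟨e, he, W', hW', heW⟩ := exists_small (rr Γ) b hΛ hW hWr (htr W hInf)
    exact fin_def hΓ b hb he (cSup_stable hW) hS0 hS1 hW' heW
  have hW0 : 0 < finrank ℝ W := by
    rw [Module.finrank_pos_iff, Submodule.nontrivial_iff_ne_bot]
    exact h0
  rcases lt_trichotomy (finrank ℝ W) (finrank ℂ V) with hd | hd | hd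
  · exact small W hWst hWr h0 hd
  · by_cases hInf : cInf W = ⊥
    · -- totally real of half dimension
      have hS : cSup W = ⊤ := by
        apply Submodule.eq_top_of_finrank_eq
        have e1 := (hsup W).2 hInf
        rw [hcr] at e1
        omega
      have hs : ∀ x, ∃ u ∈ W, ∃ v ∈ W, x = u + Complex.I • v := by
        intro x
        have hx : x ∈ cSup W := by
          rw [hS]
          exact Submodule.mem_top
        exact hx
      obtain ⟨K, hK, hK0, hK1, hKW⟩ := exists_K_disj hpr hI hpos hr2 hWst (htr W hInf) hs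
      have hKd := (stable_lagr hpr hK hK0 hK1).2
      obtain ⟨P, hP1, hP2, hP3⟩ := exists_equivariant_proj (rr Γ) K hK
      have hPP : ∀ x, P (P x) = P x := fun x => hP2 _ (hP1 x)
      have hK' : Stable (rr Γ) (LinearMap.ker P) := by
        intro g x hx
        rw [LinearMap.mem_ker] at hx ⊢
        rw [hP3, hx, map_zero]
      have hcR : IsCompl (K.restrictScalars ℝ) ((LinearMap.ker P).restrictScalars ℝ) := by
        constructor
        · rw [Submodule.disjoint_def]
          intro x hx hx'
          have hx2 : P x = 0 := hx'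
          rwa [hP2 x hx] at hx2
        · rw [codisjoint_iff, eq_top_iff]
          intro x _
          have : x = P x + (x - P x) := by abel
          rw [this]
          refine Submodule.add_mem_sup (hP1 x) ?_
          change P (x - P x) = 0
          rw [map_sub, hPP, sub_self]
      have hWK : IsCompl W (K.restrictScalars ℝ) := by
        have hdis : W ⊓ K.restrictScalars ℝ = ⊥ := by
          rw [eq_bot_iff]
          rintro x ⟨hx, hx'⟩
          rw [Submodule.mem_bot]
          exact hKW x hx' hx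
        refine ⟨disjoint_iff.2 hdis, codisjoint_iff.2 ?_⟩
        apply Submodule.eq_top_of_finrank_eq
        have e1 := Submodule.finrank_sup_add_finrank_inf_eq W (K.restrictScalars ℝ)
        rw [hdis, finrank_bot, hcr] at e1
        omega
      obtain ⟨e, he, heW⟩ := exists_shear2 hWst (fun g x hx => hK g x hx)
        (fun g x hx => hK' g x hx) hWK hcR
      have hk0 : LinearMap.ker P ≠ ⊥ := by
        intro hb'
        have e1 := hcR.sup_eq_top
        rw [hb'] at e1
        apply hK1
        rw [eq_top_iff]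
        intro x _
        have hx : x ∈ K.restrictScalars ℝ ⊔ (⊥ : Submodule ℂ V).restrictScalars ℝ := by
          rw [e1]
          exact Submodule.mem_top
        obtain ⟨u, hu, v, hv, rfl⟩ := Submodule.mem_sup.1 hx
        have hv0 : v = 0 := hv
        rw [hv0, add_zero]
        exact hu
      have hk1 : LinearMap.ker P ≠ ⊤ := by
        intro ht
        apply hK0
        rw [Submodule.eq_bot_iff]
        intro x hx
        have hx2 : x ∈ LinearMap.ker P := by
          rw [ht]
          exact Submodule.mem_top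
        rwa [LinearMap.mem_ker, hP2 x hx] at hx2
      exact fin_def hΓ b hb he hK' hk0 hk1 hWr heW
    · -- `W` is complex
      have e1 := Submodule.finrank_mono (hle W)
      rw [hcr] at e1
      have ht : cInf W ≠ ⊤ := by
        intro ht
        rw [ht, finrank_top] at e1
        omega
      have e2 := (stable_lagr hpr (cInf_stable hWst) hInf ht).2
      have e3 : (cInf W).restrictScalars ℝ = W :=
        Submodule.eq_of_le_of_finrank_eq (hle W) (by rw [hcr]; omega)
      refine fin_def hΓ b hb (e := LinearEquiv.refl ℝ V) (fun g x => rfl) (cInf_stable hWst) hInf ht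
        hWr fun x => ?_
      change x ∈ (cInf W).restrictScalars ℝ ↔ x ∈ W
      rw [e3]
  · -- a complement
    obtain ⟨C, hC, hCr, hcompl⟩ := exists_rat_compl (rr Γ) b hΛ hWst hWr
    have e1 := Submodule.finrank_add_eq_of_isCompl hcompl
    refine small C hC hCr ?_ (by omega)
    intro hb'
    apply h1
    have e2 := hcompl.sup_eq_top
    rwa [hb', sup_bot_eq] at e2

end Pool.Agent.MP_e4ecdb_ag.SYZ
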