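import Pool.Agent.MP_e4ecdb_ag.DMain
import Pool.Agent.MP_e4ecdb_ag.DDiv
open Module

namespace Pool.Agent.MP_e4ecdb_ag.SYZ

open QD QC BB DF

variable {V : Type} [NormedAddCommGroup V] [NormedSpace ℂ V] {Γ : Subgroup (Equiv.Perm V)}
variable [FiniteDimensional ℂ V]

/-- Divisibility for an irreducible lattice. -/
theorem struct [Nontrivial V] {σ : LinearMap.BilinForm ℂ V} (hΓ : IsCryst Γ)
    (hσ : IsPrimSympl Γ σ) (hred : ¬ Reducible Γ) :
    2 * h11 Γ ∣ finrank ℂ V ∧ ∀ γ ∈ Γ, ∀ F : Submodule ℂ V, (∀ x, x ∈ F ↔ lin γ x = x) →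
      2 * h11 Γ ∣ finrank ℂ F := by
  have hfin := finite_LG (old_cryst hΓ)
  have hpr := QD.prim (old_prim hΓ hσ)
  obtain ⟨h, ⟨hh1, hh2⟩, hpos⟩ := QD.exists_pos (old_cryst hΓ)
  have hI : h ∈ InvHerm (rr Γ) := by
    refine ⟨hh1, ?_⟩
    rintro ⟨A, a, ha, rfl⟩ x y
    exact hh2 a ha x y
  have hV : FiniteDimensional ℝ V := FiniteDimensional.complexToReal V
  have hIH : InvHerm (rr Γ) = MP_e4ecdb_ag.H11 (old Γ) := by
    apply le_antisymm
    · rintro H ⟨h1, h2⟩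
      exact ⟨h1, fun a ha x y => h2 ⟨a.linear, mem_LG ha⟩ x y⟩
    · rintro H ⟨h1, h2⟩
      refine ⟨h1, ?_⟩
      rintro ⟨A, a, ha, rfl⟩ x y
      exact h2 a ha x y
  have hr0 : 0 < finrank ℝ (InvHerm (rr Γ)) := by
    rw [hIH, ← h11_eq hΓ]
    obtain ⟨c1, -⟩ := card hΓ hσ
    omega
  have hHf : Module.Finite ℝ (InvHerm (rr Γ)) := by
    have hfree : Module.Free ℝ (InvHerm (rr Γ)) := by
      have := Module.Free.of_divisionRing ℝ (InvHerm (rr Γ))
      exact this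
    exact Module.finite_of_finrank_pos hr0
  have hd : finrank ℝ (Cm (rr Γ)) = 4 * h11 Γ := by
    rw [finrank_Cm hpr hpos hI hHf, hIH, ← h11_eq hΓ]
  obtain ⟨ι, hι, b, hb⟩ := hΓ.lattice
  have hΛ : ∀ g : GG Γ, ∀ x ∈ Submodule.span ℤ (Set.range b),
      rr Γ g x ∈ Submodule.span ℤ (Set.range b) := by
    have := (forall_rr hΓ (P := fun f => ∀ x ∈ Submodule.span ℤ (Set.range b),
      f x ∈ Submodule.span ℤ (Set.range b))).2
    apply this
    intro γ hγ x hx
    rw [hb] at hx ⊢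
    exact addLeft_lin hΓ hx hγ
  have hset : ∀ W : Submodule ℝ V, {x | x ∈ Submodule.span ℤ (Set.range b) ∧ x ∈ W} =
      {x | Equiv.addLeft x ∈ Γ ∧ x ∈ W} := by
    intro W
    ext x
    exact and_congr (hb x) Iff.rfl
  have hirr : Irr (rr Γ) b := by
    intro W hW hWr
    by_contra hcon
    push Not at hcon
    refine hred ⟨W, hcon.1, hcon.2, (rstable_iff hΓ W).1 hW, ?_⟩
    rw [← hset]
    refine le_antisymm hWr (Submodule.span_le.2 ?_)
    rintro x ⟨-, hx⟩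
    exact hx
  have hcr : ∀ K : Submodule ℂ V, finrank ℝ (K.restrictScalars ℝ) = 2 * finrank ℂ K :=
    fun K => finrank_real_of_complex K
  have hVr : finrank ℝ V = 2 * finrank ℂ V := finrank_real_of_complex V
  have h1 : 2 * h11 Γ ∣ finrank ℂ V := by
    have e1 := dvd_finrank hΛ hirr (M := ⊤) (by
      intro x _
      rw [← b.sum_repr x]
      exact Submodule.sum_mem _ fun i _ => Submodule.smul_mem _ _
        (Submodule.subset_span ⟨Submodule.subset_span ⟨i, rfl⟩, Submodule.mem_top⟩))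
      (fun a _ x _ => Submodule.mem_top)
    rw [finrank_top, hd, hVr] at e1
    obtain ⟨k, hk⟩ := e1
    exact ⟨k, by nlinarith⟩
  refine ⟨h1, ?_⟩
  intro γ hγ F hF
  obtain ⟨A, hA, -⟩ := lin_real hΓ hγ
  let D : V →ₗ[ℂ] V := (A : V →ₗ[ℂ] V) - LinearMap.id
  have hDx : ∀ x, D x = lin γ x - x := fun x => by
    rw [hA]
    rfl
  have hker : LinearMap.ker D = F := by
    ext x
    rw [LinearMap.mem_ker, hDx, sub_eq_zero, hF]
  have hrat : RatSub b ((LinearMap.range D).restrictScalars ℝ) := by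
    rintro _ ⟨x, rfl⟩
    have e2 : D x = ∑ i, b.repr x i • D (b i) := by
      conv_lhs => rw [← b.sum_repr x]
      have e3 : D (∑ i, b.repr x i • b i) = (D.restrictScalars ℝ) (∑ i, b.repr x i • b i) := rfl
      rw [e3, map_sum]
      refine Finset.sum_congr rfl fun i _ => ?_
      rw [map_smul]
      rfl
    rw [e2]
    refine Submodule.sum_mem _ fun i _ => Submodule.smul_mem _ _ (Submodule.subset_span ⟨?_, ?_⟩)
    · rw [hDx]
      refine Submodule.sub_mem _ ?_ (Submodule.subset_span ⟨i, rfl⟩)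
      rw [hb]
      exact addLeft_lin hΓ ((hb _).1 (Submodule.subset_span ⟨i, rfl⟩)) hγ
    · exact ⟨b i, rfl⟩
  have hC : ∀ a ∈ Cm (rr Γ), ∀ x ∈ (LinearMap.range D).restrictScalars ℝ,
      a x ∈ (LinearMap.range D).restrictScalars ℝ := by
    rintro a ha _ ⟨x, rfl⟩
    refine ⟨a x, ?_⟩
    have e4 : ∀ y, a (lin γ y) = lin γ (a y) := by
      have := (forall_rr hΓ (P := fun f => ∀ y, a (f y) = f (a y))).1 (mem_Cm.1 ha)
      exact this γ hγ
    rw [hDx, hDx, map_sub, e4]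
  have e5 := dvd_finrank hΛ hirr hrat hC
  rw [hd, hcr] at e5
  have e6 := LinearMap.finrank_range_add_finrank_ker D
  rw [hker] at e6
  have e7 : 2 * h11 Γ ∣ finrank ℂ (LinearMap.range D) := by
    obtain ⟨k, hk⟩ := e5
    exact ⟨k, by nlinarith⟩
  exact (Nat.dvd_add_right e7).1 (by rw [e6]; exact h1)

end Pool.Agent.MP_e4ecdb_ag.SYZ
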