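import Pool.Agent.MP_e4ecdb_ag.DDefs
open Module

/-! Definitions for the statement on the classes of primitive symplectic torus quotients without
isotropic line bundles. -/

namespace Pool.Agent.MP_e4ecdb_ag.SYZ

variable {V : Type} [NormedAddCommGroup V] [NormedSpace ℂ V]

/-- `2 h^{1,1}(X)`, `X = V / Γ`, divides `dim X` and the dimension of the fixed space of every linear
part of `Γ`. -/
def Divisible (Γ : Subgroup (Equiv.Perm V)) : Prop :=
  2 * h11 Γ ∣ finrank ℂ V ∧ ∀ γ ∈ Γ, ∀ F : Submodule ℂ V, (∀ x, x ∈ F ↔ lin γ x = x) →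
    2 * h11 Γ ∣ finrank ℂ F

/-- For every deformation `X_h = V / (h Γ h⁻¹)`, every line bundle `L` on `X_h` and every
Beauville-Bogomolov-Fujiki form `q` of `X_h`: if `q(L) = 0`, then `c_1(L) = 0`. -/
def NoIsotropic (Γ : Subgroup (Equiv.Perm V)) : Prop :=
  ∀ h ∈ Def Γ, ∀ q e H, IsBBF (conj h Γ) q → IsFactor (conj h Γ) e → IsChern (conj h Γ) e H →
    q H = 0 → H = 0

end Pool.Agent.MP_e4ecdb_ag.SYZ
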