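import Mathlib
open Module

namespace Pool.Agent.MP_e4ecdb_ag

/-- Linear data of a primitive symplectic torus quotient: `G` acts linearly on the complex vector space
`V`, `σ` is a `G`-invariant symplectic form, every `G`-invariant alternating form is a multiple of `σ`
and `G` has no nonzero invariant vector. -/
structure IsPrimitiveSymplectic {V : Type} [AddCommGroup V] [Module ℂ V] {G : Type} [Group G]
    (ρ : Representation ℂ G V) (σ : LinearMap.BilinForm ℂ V) : Prop where
  alt : ∀ x, σ x x = 0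
  nondeg : ∀ x, (∀ y, σ x y = 0) → x = 0
  inv : ∀ g x y, σ (ρ g x) (ρ g y) = σ x y
  prim : ∀ τ : LinearMap.BilinForm ℂ V, (∀ x, τ x x = 0) →
    (∀ g x y, τ (ρ g x) (ρ g y) = τ x y) → ∃ c : ℂ, τ = c • σ
  no_inv : ∀ x, (∀ g, ρ g x = x) → x = 0

/-- `H` is a `G`-invariant hermitian form on `V` whose imaginary part is integral on the lattice `Λ`,
i.e. a `G`-invariant class in the Neron-Severi group of `V / Λ`. -/
structure IsChernForm {V : Type} [AddCommGroup V] [Module ℂ V] {G : Type} [Group G]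
    (ρ : Representation ℂ G V) (Λ : Submodule ℤ V) (H : V →ₗ⋆[ℂ] V →ₗ[ℂ] ℂ) : Prop where
  herm : ∀ x y, H x y = (starRingEnd ℂ) (H y x)
  inv : ∀ g x y, H (ρ g x) (ρ g y) = H x y
  int : ∀ x ∈ Λ, ∀ y ∈ Λ, ∃ n : ℤ, (H x y).im = n

end Pool.Agent.MP_e4ecdb_ag
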