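import Pool.Agent.MP_e4ecdb_ag.EMink
import Pool.Agent.MP_e4ecdb_ag.TFinal
open Module

set_option linter.unusedSectionVars false

namespace Pool.Agent.MP_e4ecdb_ag.TQ

variable {V : Type} [NormedAddCommGroup V] [NormedSpace ℂ V]

/-- Minkowski's bound for the number of linear parts -/
theorem card_dvd [FiniteDimensional ℂ V] {Γ : Subgroup (V ≃ᵃ[ℂ] V)} (hΓ : IsCrystallographic Γ) :
    Nat.card (LG Γ) ∣ Nat.card (GL (Fin (2 * finrank ℂ V)) (ZMod 3)) := by
  classical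
  obtain ⟨ι, hι, b0, hb0⟩ := hΓ.lattice
  have hcard : Fintype.card ι = 2 * finrank ℂ V := by
    rw [← Module.finrank_eq_card_basis b0, finrank_real_of_complex]
  let e : ι ≃ Fin (2 * finrank ℂ V) := Fintype.equivFinOfCardEq hcard
  let b : Basis (Fin (2 * finrank ℂ V)) ℝ V := b0.reindex e
  have hrange : Set.range b = Set.range b0 := by
    ext x
    constructor
    · rintro ⟨i, rfl⟩
      exact ⟨e.symm i, by simp [b]⟩
    · rintro ⟨i, rfl⟩
      exact ⟨e i, by simp [b]⟩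
  set Λ : Submodule ℤ V := Submodule.span ℤ (Set.range b) with hΛ
  have hb : ∀ x, x ∈ Λ ↔ tr x ∈ Γ := by
    intro x
    rw [hΛ, hrange]
    exact hb0 x
  let bZ : Basis (Fin (2 * finrank ℂ V)) ℤ Λ := b.restrictScalars ℤ
  have hfin : Finite (LG Γ) := by
    have : ((LG Γ : Subgroup (V ≃ₗ[ℂ] V)) : Set (V ≃ₗ[ℂ] V)) =
        {A : V ≃ₗ[ℂ] V | ∃ γ ∈ Γ, γ.linear = A} := by
      ext A
      simp [LG]
    have h2 : ((LG Γ : Subgroup (V ≃ₗ[ℂ] V)) : Set (V ≃ₗ[ℂ] V)).Finite := by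
      rw [this]; exact hΓ.finite
    exact h2.to_subtype
  have hstab : ∀ (A : LG Γ) (x : V), x ∈ Λ → (A : V ≃ₗ[ℂ] V) x ∈ Λ := by
    rintro ⟨A, γ, hγ, rfl⟩ x hx
    rw [hb] at hx ⊢
    exact tr_lin_mem hx hγ
  let ρ : LG Γ →* Module.End ℤ Λ :=
    { toFun := fun A => LinearMap.restrict
        ((((A : V ≃ₗ[ℂ] V) : V →ₗ[ℂ] V)).restrictScalars ℤ) (fun x hx => hstab A x hx)
      map_one' := by ext x; rfl
      map_mul' := fun A B => by ext x; rfl }
  have hρ : ∀ (A : LG Γ) (x : Λ), ((ρ A x : Λ) : V) = (A : V ≃ₗ[ℂ] V) (x : V) := fun A x => rfl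
  let μ : LG Γ →* Matrix (Fin (2 * finrank ℂ V)) (Fin (2 * finrank ℂ V)) ℤ :=
    ((LinearMap.toMatrixAlgEquiv bZ : Module.End ℤ Λ ≃ₐ[ℤ] _) : Module.End ℤ Λ →* _).comp ρ
  let Φ : LG Γ →* Matrix (Fin (2 * finrank ℂ V)) (Fin (2 * finrank ℂ V)) (ZMod 3) :=
    ((RingHom.mapMatrix (Int.castRingHom (ZMod 3)) :
      Matrix (Fin (2 * finrank ℂ V)) (Fin (2 * finrank ℂ V)) ℤ →+* _) :
      Matrix (Fin (2 * finrank ℂ V)) (Fin (2 * finrank ℂ V)) ℤ →* _).comp μ
  have hinj : Function.Injective Φ.toHomUnits := by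
    rw [injective_iff_map_eq_one]
    intro A hA
    have h1 : Φ A = 1 := by
      have := congrArg Units.val hA
      exact this
    have h2 : ∃ B : Matrix (Fin (2 * finrank ℂ V)) (Fin (2 * finrank ℂ V)) ℤ,
        μ A = 1 + (3 : ℤ) • B := by
      have h3 : ∀ i j, ∃ n : ℤ, μ A i j - (1 : Matrix _ _ ℤ) i j = 3 * n := by
        intro i j
        have h4 : ((μ A i j : ℤ) : ZMod 3) = (((1 : Matrix (Fin (2 * finrank ℂ V))
            (Fin (2 * finrank ℂ V)) ℤ) i j : ℤ) : ZMod 3) := by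
          have h5 : Φ A i j = ((μ A i j : ℤ) : ZMod 3) := rfl
          rw [← h5, h1, Matrix.one_apply, Matrix.one_apply]
          split_ifs <;> simp
        rw [← sub_eq_zero, ← Int.cast_sub, ZMod.intCast_zmod_eq_zero_iff_dvd] at h4
        exact h4
      choose B hB using h3
      refine ⟨Matrix.of B, ?_⟩
      ext i j
      have := hB i j
      simp only [Matrix.add_apply, Matrix.smul_apply, Matrix.of_apply, smul_eq_mul]
      linarith
    have h3 : μ A ^ Nat.card (LG Γ) = 1 := by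
      rw [← map_pow, pow_card_eq_one', map_one]
    have h4 : μ A = 1 := Mink.minkowski _ Nat.card_pos _ h2 h3
    have h5 : ρ A = 1 := by
      apply (LinearMap.toMatrixAlgEquiv bZ : Module.End ℤ Λ ≃ₐ[ℤ] _).injective
      rw [map_one]
      exact h4
    apply Subtype.ext
    ext x
    rw [← b.sum_repr x]
    have h6 : ∀ (r : ℝ) (y : V), (A : V ≃ₗ[ℂ] V) (r • y) = r • (A : V ≃ₗ[ℂ] V) y := by
      intro r y
      rw [← Complex.coe_smul, map_smul, Complex.coe_smul]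
    rw [map_sum, map_sum]
    apply Finset.sum_congr rfl
    intro i _
    rw [h6]
    have h7 : (A : V ≃ₗ[ℂ] V) (b i) = b i := by
      have h8 := hρ A ⟨b i, Submodule.subset_span ⟨i, rfl⟩⟩
      rw [h5] at h8
      exact h8.symm
    rw [h7]
    rfl
  exact Subgroup.card_dvd_of_injective Φ.toHomUnits hinj

end Pool.Agent.MP_e4ecdb_ag.TQ
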