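import Mathlib
open Module MeasureTheory

namespace Pool.Agent.MP_e4ecdb_ag.Theta

/-- In this file we normalise the measure on `ℝ / ℤ` to have total volume 1. -/
noncomputable local instance : MeasureSpace UnitAddCircle := ⟨AddCircle.haarAddCircle⟩

local instance : Measure.IsAddHaarMeasure (volume : Measure UnitAddCircle) :=
  inferInstanceAs (Measure.IsAddHaarMeasure AddCircle.haarAddCircle)

local instance : IsProbabilityMeasure (volume : Measure UnitAddCircle) :=
  inferInstanceAs (IsProbabilityMeasure AddCircle.haarAddCircle)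

open UnitAddTorus in
/-- uniqueness of the constant coefficient of an absolutely convergent trigonometric series -/
lemma coeff_zero_of_sum_zero {ι κ : Type*} [Fintype ι] (c : κ → ℂ) (hc : Summable fun k => ‖c k‖)
    (n : κ → ι → ℤ) (k0 : κ) (hk0 : ∀ k, n k = 0 ↔ k = k0)
    (h : ∀ r : ι → ℝ,
      ∑' k, c k * Complex.exp (2 * Real.pi * Complex.I * ∑ i, (n k i : ℂ) * (r i : ℂ)) = 0) :
    c k0 = 0 := by
  classical
  set F : κ → C(UnitAddTorus ι, ℂ) := fun k => c k • mFourier (n k) with hF
  have hFs : Summable F := by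
    refine Summable.of_norm (hc.congr fun k => ?_)
    rw [hF]
    simp only
    rw [norm_smul, mFourier_norm, mul_one]
  have hF0 : ∑' k, F k = 0 := by
    ext t
    rw [← ContinuousMap.tsum_apply hFs t, ContinuousMap.zero_apply]
    have hr : ∀ i, ∃ r : ℝ, (r : UnitAddCircle) = t i := fun i => QuotientAddGroup.mk_surjective (t i)
    choose r hr using hr
    rw [← h r]
    apply tsum_congr
    intro k
    simp only [hF, ContinuousMap.smul_apply, smul_eq_mul, mFourier, ContinuousMap.coe_mk]
    congr 1
    rw [Finset.mul_sum, Complex.exp_sum]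
    apply Finset.prod_congr rfl
    intro i _
    rw [← hr i, fourier_coe_apply]
    congr 1
    push_cast
    ring
  let φ : C(UnitAddTorus ι, ℂ) →L[ℂ] ℂ :=
    (innerSL ℂ (mFourierLp (d := ι) 2 0)).comp
      (ContinuousMap.toLp (E := ℂ) 2 (volume : Measure (UnitAddTorus ι)) ℂ)
  have hφ : ∀ m : ι → ℤ, φ (mFourier m) = if (0 : ι → ℤ) = m then 1 else 0 := by
    intro m
    have := (orthonormal_iff_ite.mp (orthonormal_mFourier (d := ι))) 0 m
    exact this
  have h1 : φ (∑' k, F k) = ∑' k, φ (F k) := φ.map_tsum hFs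
  rw [hF0, map_zero] at h1
  have h2 : ∀ k, φ (F k) = if k = k0 then c k0 else 0 := by
    intro k
    simp only [hF]
    rw [map_smul, hφ, smul_eq_mul]
    by_cases hk : k = k0
    · have h3 := (hk0 k).2 hk
      rw [h3, hk]; simp
    · have h3 : ¬ (0 : ι → ℤ) = n k := fun h => hk ((hk0 k).1 h.symm)
      simp [h3, hk]
  rw [tsum_congr h2, tsum_ite_eq] at h1
  exact h1.symm

end Pool.Agent.MP_e4ecdb_ag.Theta
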