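import Mathlib
open Module

set_option linter.unusedSectionVars false

namespace Pool.Agent.MP_e4ecdb_ag.Theta

variable {W : Type} [NormedAddCommGroup W] [NormedSpace ℂ W]

/-- the nonzero set of a nonzero entire function is dense -/
lemma dense_ne_zero {f : W → ℂ} (hf : Differentiable ℂ f) (h0 : ∃ x, f x ≠ 0) :
    Dense {x | f x ≠ 0} := by
  obtain ⟨y, hy⟩ := h0
  intro x
  by_contra hx
  rw [mem_closure_iff_nhds] at hx
  push Not at hx
  obtain ⟨U, hU, hU2⟩ := hx
  let g : ℂ → ℂ := fun t => f (x + t • (y - x))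
  have hline : Differentiable ℂ (fun t : ℂ => x + t • (y - x)) :=
    (differentiable_id.smul_const (y - x)).const_add x
  have hg : Differentiable ℂ g := hf.comp hline
  have hev : ∀ᶠ t in nhds (0 : ℂ), g t = 0 := by
    have h1 : Filter.Tendsto (fun t : ℂ => x + t • (y - x)) (nhds 0) (nhds x) := by
      have := hline.continuous.tendsto 0
      simpa using this
    filter_upwards [h1.eventually hU] with t ht
    by_contra hne
    have : x + t • (y - x) ∈ U ∩ {x | f x ≠ 0} := ⟨ht, hne⟩
    rw [hU2] at this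
    exact this
  have han : AnalyticOnNhd ℂ g Set.univ := fun t _ => hg.analyticAt t
  have h2 : g = 0 := by
    funext t
    exact han.eqOn_zero_of_preconnected_of_eventuallyEq_zero isPreconnected_univ (Set.mem_univ 0)
      hev (Set.mem_univ t)
  apply hy
  have h3 := congrFun h2 1
  simp only [g, one_smul, add_sub_cancel] at h3
  exact h3

lemma eq_of_mul_eq {f P Q : W → ℂ} (hf : Differentiable ℂ f) (h0 : ∃ x, f x ≠ 0)
    (hP : Continuous P) (hQ : Continuous Q) (h : ∀ a, f a * P a = f a * Q a) (a : W) :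
    P a = Q a := by
  have hd := dense_ne_zero hf h0
  have : P = Q := Continuous.ext_on hd hP hQ (fun a ha => mul_left_cancel₀ ha (h a))
  rw [this]

/-- two nonzero entire functions are simultaneously nonzero somewhere -/
lemma exists_ne_zero_two {f g : W → ℂ} (hf : Differentiable ℂ f) (hg : Differentiable ℂ g)
    (hf0 : ∃ x, f x ≠ 0) (hg0 : ∃ x, g x ≠ 0) : ∃ z, f z ≠ 0 ∧ g z ≠ 0 := by
  have h1 := (dense_ne_zero hf hf0).inter_of_isOpen_left (dense_ne_zero hg hg0)
    (isOpen_ne_fun hf.continuous continuous_const)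
  obtain ⟨z, hz⟩ := h1.nonempty
  exact ⟨z, hz.1, hz.2⟩

lemma differentiable_shift {f : W → ℂ} (hf : Differentiable ℂ f) (v : W) :
    Differentiable ℂ (fun a => f (v + a)) := hf.comp (differentiable_id.const_add v)

lemma differentiable_refl {f : W → ℂ} (hf : Differentiable ℂ f) (v : W) :
    Differentiable ℂ (fun a => f (v - a)) := hf.comp (differentiable_id.const_sub v)

lemma ne_zero_shift {f : W → ℂ} (h0 : ∃ x, f x ≠ 0) (v : W) : ∃ a, f (v + a) ≠ 0 := by
  obtain ⟨x, hx⟩ := h0
  exact ⟨x - v, by rwa [add_sub_cancel]⟩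

lemma ne_zero_refl {f : W → ℂ} (h0 : ∃ x, f x ≠ 0) (v : W) : ∃ a, f (v - a) ≠ 0 := by
  obtain ⟨x, hx⟩ := h0
  exact ⟨v - x, by rwa [sub_sub_cancel]⟩

/-- a multiplicative entire function is an exponential -/
lemma exp_of_mul {k : W → ℂ} (hk : Differentiable ℂ k) (h0 : k 0 = 1)
    (hmul : ∀ a b, k (a + b) = k a * k b) : ∃ ℓ : W →L[ℂ] ℂ, ∀ a, k a = Complex.exp (ℓ a) := by
  set ℓ : W →L[ℂ] ℂ := fderiv ℂ k 0 with hℓ
  have hd : ∀ a, HasFDerivAt k (k a • ℓ) a := by
    intro a
    have h1 : HasFDerivAt k ℓ (a - a) := by rw [sub_self]; exact (hk 0).hasFDerivAt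
    have h2 : HasFDerivAt (fun x : W => x - a) (ContinuousLinearMap.id ℂ W) a :=
      (hasFDerivAt_id a).sub_const a
    have h3 : HasFDerivAt (fun x : W => k a * k (x - a)) (k a • (ℓ.comp
        (ContinuousLinearMap.id ℂ W))) a :=
      (HasFDerivAt.comp (g := k) (f := fun x : W => x - a) a h1 h2).const_mul (k a)
    rw [ContinuousLinearMap.comp_id] at h3
    refine h3.congr_of_eventuallyEq (Filter.Eventually.of_forall fun x => ?_)
    simp only
    rw [← hmul, add_sub_cancel]
  refine ⟨ℓ, fun a => ?_⟩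
  have hconst : ∀ x y, k x * Complex.exp (-ℓ x) = k y * Complex.exp (-ℓ y) := by
    apply is_const_of_fderiv_eq_zero (𝕜 := ℂ)
    · exact hk.mul (ℓ.differentiable.neg.cexp)
    · intro x
      have h1 : HasFDerivAt (fun x => Complex.exp (-ℓ x)) (Complex.exp (-ℓ x) • (-ℓ)) x :=
        (ℓ.hasFDerivAt.neg).cexp
      have h2 := (hd x).fun_mul h1
      rw [h2.fderiv]
      ext y
      simp only [_root_.add_apply, _root_.smul_apply,
        _root_.neg_apply, smul_eq_mul, _root_.zero_apply]
      ring
  have h1 := hconst a 0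
  rw [h0, map_zero, neg_zero, Complex.exp_zero, mul_one] at h1
  calc k a = k a * Complex.exp (-ℓ a) * Complex.exp (ℓ a) := by
        rw [mul_assoc, ← Complex.exp_add, neg_add_cancel, Complex.exp_zero, mul_one]
    _ = _ := by rw [h1, one_mul]

/-- the functional equation of the proof of Lefschetz' theorem -/
theorem ratio_exp {F G : W → ℂ} (hF : Differentiable ℂ F) (hG : Differentiable ℂ G)
    (hF0 : ∃ x, F x ≠ 0) (hG0 : ∃ x, G x ≠ 0) {c : ℂ} (hc : c ≠ 0)
    (heq : ∀ a b, F a * F b * F (-a - b) = c * (G a * G b * G (-a - b))) :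
    ∃ (C : ℂ) (ℓ : W →L[ℂ] ℂ), C ≠ 0 ∧ ∀ a, F a = C * Complex.exp (ℓ a) * G a := by
  classical
  have hG3 : ∀ a, G a = 0 → F a = 0 := by
    intro a ha
    obtain ⟨b, hb1, hb2⟩ := exists_ne_zero_two hF (differentiable_refl hF (-a)) hF0
      (ne_zero_refl hF0 (-a))
    have h1 := heq a b
    rw [ha, zero_mul, zero_mul, mul_zero] at h1
    have h2 := mul_eq_zero.1 h1
    rcases h2 with h2 | h2
    · exact (mul_eq_zero.1 h2).resolve_right hb1
    · exact absurd h2 hb2
  have hF3 : ∀ a, F a = 0 → G a = 0 := by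
    intro a ha
    obtain ⟨b, hb1, hb2⟩ := exists_ne_zero_two hG (differentiable_refl hG (-a)) hG0
      (ne_zero_refl hG0 (-a))
    have h1 := heq a b
    rw [ha, zero_mul, zero_mul] at h1
    have h2 := mul_eq_zero.1 ((mul_eq_zero.1 h1.symm).resolve_left hc)
    rcases h2 with h2 | h2
    · exact (mul_eq_zero.1 h2).resolve_right hb1
    · exact absurd h2 hb2
  -- the identity without `a`
  have hid : ∀ a b b', (G b * G (-a - b)) * (F b' * F (-a - b')) =
      (G b' * G (-a - b')) * (F b * F (-a - b)) := by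
    intro a b b'
    refine eq_of_mul_eq (f := G) (P := fun a => (G b * G (-a - b)) * (F b' * F (-a - b')))
      (Q := fun a => (G b' * G (-a - b')) * (F b * F (-a - b))) hG hG0 ?_ ?_ ?_ a
    · have h1 := hF.continuous
      have h2 := hG.continuous
      fun_prop
    · have h1 := hF.continuous
      have h2 := hG.continuous
      fun_prop
    · intro a
      have h1 := heq a b
      have h2 := heq a b'
      apply mul_left_cancel₀ hc
      linear_combination (-(F b' * F (-a - b'))) * h1 + (F b * F (-a - b)) * h2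
  have hch : ∀ a, ∃ b, F b ≠ 0 ∧ F (-a - b) ≠ 0 := fun a =>
    exists_ne_zero_two hF (differentiable_refl hF (-a)) hF0 (ne_zero_refl hF0 (-a))
  choose β hβ1 hβ2 using hch
  let R : W → W → ℂ := fun b a => c * (G b * G (-a - b)) / (F b * F (-a - b))
  let h : W → ℂ := fun a => R (β a) a
  have hR : ∀ a b, F b ≠ 0 → F (-a - b) ≠ 0 → h a = R b a := by
    intro a b hb1 hb2
    simp only [h, R]
    rw [div_eq_div_iff (mul_ne_zero (hβ1 a) (hβ2 a)) (mul_ne_zero hb1 hb2)]
    linear_combination c * hid a (β a) b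
  have hh0 : ∀ a, h a ≠ 0 := by
    intro a
    simp only [h, R]
    refine div_ne_zero (mul_ne_zero hc (mul_ne_zero ?_ ?_)) (mul_ne_zero (hβ1 a) (hβ2 a))
    · exact fun h0 => hβ1 a (hG3 _ h0)
    · exact fun h0 => hβ2 a (hG3 _ h0)
  have hFG : ∀ a, F a = h a * G a := by
    intro a
    have h1 := heq a (β a)
    have h2 := hβ1 a
    have h3 := hβ2 a
    simp only [h, R]
    rw [div_mul_eq_mul_div, eq_div_iff (mul_ne_zero h2 h3)]
    linear_combination h1
  have hhd : Differentiable ℂ h := by
    intro a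
    have h1 : ∀ᶠ x in nhds a, F (-x - β a) ≠ 0 := by
      have h2 : Continuous fun x => F (-x - β a) := by
        have := hF.continuous
        fun_prop
      exact h2.continuousAt.eventually_ne (hβ2 a)
    have h3 : h =ᶠ[nhds a] R (β a) := by
      filter_upwards [h1] with x hx
      exact hR x (β a) (hβ1 a) hx
    have h4 : DifferentiableAt ℂ (R (β a)) a := by
      have h5 : Differentiable ℂ (fun x : W => -x - β a) := (differentiable_id.neg).sub_const _
      have h6 : DifferentiableAt ℂ (fun x => c * (G (β a) * G (-x - β a))) a :=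
        (((hG.comp h5).const_mul (G (β a))).const_mul c) a
      have h7 : DifferentiableAt ℂ (fun x => F (β a) * F (-x - β a)) a :=
        ((hF.comp h5).const_mul (F (β a))) a
      have h8 : DifferentiableAt ℂ (fun x => (c * (G (β a) * G (-x - β a))) *
          (F (β a) * F (-x - β a))⁻¹) a :=
        h6.fun_mul (DifferentiableAt.fun_inv h7 (mul_ne_zero (hβ1 a) (hβ2 a)))
      exact h8
    exact h4.congr_of_eventuallyEq h3
  -- functional equation of `h`
  have hfe : ∀ a b, h a * h b * h (-a - b) = c := by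
    have h1 : ∀ b, G b ≠ 0 → ∀ a, h a * h b * h (-a - b) = c := by
      intro b hb a
      refine eq_of_mul_eq (f := fun a => G a) (P := fun a => h a * h b * h (-a - b))
        (Q := fun _ => c) hG hG0 ?_ continuous_const ?_ a
      · have h1 := hhd.continuous
        fun_prop
      · intro a
        refine eq_of_mul_eq (f := fun a => G (-b - a)) (P := fun a => G a * (h a * h b * h (-a - b)))
          (Q := fun a => G a * c) (differentiable_refl hG (-b)) (ne_zero_refl hG0 (-b)) ?_ ?_ ?_ a
        · have h1 := hhd.continuous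
          have h2 := hG.continuous
          fun_prop
        · have h2 := hG.continuous
          fun_prop
        · intro a
          have h2 := heq a b
          rw [hFG a, hFG b, hFG (-a - b)] at h2
          have h3 : -b - a = -a - b := by abel
          rw [h3]
          apply mul_left_cancel₀ hb
          linear_combination h2
    intro a b
    refine eq_of_mul_eq (f := G) (P := fun b => h a * h b * h (-a - b))
      (Q := fun _ => c) hG hG0 ?_ continuous_const ?_ b
    · have h1 := hhd.continuous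
      fun_prop
    · intro b
      by_cases hb : G b = 0
      · rw [hb, zero_mul, zero_mul]
      · rw [h1 b hb a]
  have hmul : ∀ a b, h (a + b) / h 0 = h a / h 0 * (h b / h 0) := by
    intro a b
    have h1 := hfe a b
    have h2 := hfe (a + b) 0
    have h3 : -(a + b) - 0 = -a - b := by abel
    rw [h3] at h2
    have h4 := hh0 0
    have h5 := hh0 (-a - b)
    field_simp
    apply mul_right_cancel₀ h5
    linear_combination h2 - h1
  have hkd : Differentiable ℂ (fun a => h a / h 0) := by
    simpa only [div_eq_mul_inv] using hhd.mul_const (h 0)⁻¹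
  obtain ⟨ℓ, hℓ⟩ := exp_of_mul (k := fun a => h a / h 0) hkd (div_self (hh0 0)) hmul
  refine ⟨h 0, ℓ, hh0 0, fun a => ?_⟩
  rw [hFG a, ← hℓ a, mul_div_cancel₀ _ (hh0 0)]

end Pool.Agent.MP_e4ecdb_ag.Theta
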