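import Pool.Agent.MP_e4ecdb_ag.EOne
import Pool.Agent.MP_e4ecdb_ag.EHol
open Module

set_option linter.unusedSectionVars false

namespace Pool.Agent.MP_e4ecdb_ag.Theta

variable {W : Type} [NormedAddCommGroup W] [NormedSpace ℂ W] [FiniteDimensional ℂ W]
  {L : Submodule ℤ W} {H : W →ₗ⋆[ℂ] W →ₗ[ℂ] ℂ} {α : W → ℂ}

lemma ef_shift (l v u : W) :
    ef H α l (v + u) = ef H α l v * Complex.exp (Real.pi * H l u) := by
  unfold ef
  rw [mul_assoc, ← Complex.exp_add, map_add]
  congr 2
  ring

/-- products of three translates -/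
lemma prod_three_mem {θ : W → ℂ} (hθ : θ ∈ Th L H α 1) (a b : W) :
    (fun z => θ (z + a) * θ (z + b) * θ (z - a - b)) ∈ Th L H α 3 := by
  obtain ⟨h1, h2⟩ := hθ
  refine ⟨?_, fun l hl v => ?_⟩
  · have e1 : Differentiable ℂ (fun z : W => z + a) := differentiable_id.add_const a
    have e2 : Differentiable ℂ (fun z : W => z + b) := differentiable_id.add_const b
    have e3 : Differentiable ℂ (fun z : W => z - a - b) :=
      (differentiable_id.sub_const a).sub_const b
    exact ((h1.comp e1).mul (h1.comp e2)).mul (h1.comp e3)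
  · simp only
    have e1 : l + v + a = l + (v + a) := by abel
    have e2 : l + v + b = l + (v + b) := by abel
    have e3 : l + v - a - b = l + (v - a - b) := by abel
    rw [e1, e2, e3, h2 l hl, h2 l hl, h2 l hl]
    have e4 : v - a - b = v + (-a - b) := by abel
    rw [e4, ef_shift, ef_shift, ef_shift]
    have e5 : Complex.exp (Real.pi * H l a) * Complex.exp (Real.pi * H l b) *
        Complex.exp (Real.pi * H l (-a - b)) = 1 := by
      rw [← Complex.exp_add, ← Complex.exp_add, ← Complex.exp_zero]
      congr 1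
      rw [map_sub, map_neg]
      ring
    linear_combination (ef H α l v ^ 3 * (θ (v + a) * θ (v + b) * θ (v + (-a - b)))) * e5

/-- the third power is globally generated -/
lemma bpf_three {θ : W → ℂ} (hθ : θ ∈ Th L H α 1) (h0 : ∃ z, θ z ≠ 0) (v : W) :
    ∃ a b, θ (v + a) * θ (v + b) * θ (v - a - b) ≠ 0 := by
  obtain ⟨a, ha⟩ := ne_zero_shift h0 v
  obtain ⟨b, hb1, hb2⟩ := exists_ne_zero_two (differentiable_shift hθ.1 v)
    (differentiable_refl hθ.1 (v - a)) (ne_zero_shift h0 v) (ne_zero_refl h0 (v - a))
  exact ⟨a, b, mul_ne_zero (mul_ne_zero ha hb1) hb2⟩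

lemma exp_sub_symm (h : ∀ x y, H x y = (starRingEnd ℂ) (H y x)) (x y : W) :
    (Real.pi * H x y - Real.pi * H y x : ℂ) = ((H x y).im : ℂ) * (2 * Real.pi * Complex.I) := by
  rw [h y x, ← mul_sub, Complex.sub_conj]
  push_cast
  ring

/-- translations by vectors of the dual lattice -/
lemma translate_mem (h : AH L H α) {θ : W → ℂ} (hθ : θ ∈ Th L H α 1) {y : W}
    (hy : ∀ l ∈ L, ∃ n : ℤ, (H l y).im = n) :
    (fun z => Complex.exp (-(Real.pi * H y z)) * θ (z + y)) ∈ Th L H α 1 := by
  obtain ⟨h1, h2⟩ := hθ
  refine ⟨?_, fun l hl v => ?_⟩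
  · have e1 : Differentiable ℂ (fun z : W => z + y) := differentiable_id.add_const y
    have e2 : Differentiable ℂ (fun z : W => H y z) := by
      have : Differentiable ℂ (fun z => (LinearMap.toContinuousLinearMap (H y)) z) :=
        (LinearMap.toContinuousLinearMap (H y)).differentiable
      exact this
    exact ((e2.const_mul _).neg.cexp).mul (h1.comp e1)
  · simp only
    have e1 : l + v + y = l + (v + y) := by abel
    obtain ⟨n, hn⟩ := hy l hl
    have e2 : Complex.exp (Real.pi * H l y - Real.pi * H y l) = 1 := by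
      rw [exp_sub_symm h.herm, hn]
      have : (((n : ℝ) : ℂ)) = (n : ℂ) := by push_cast; rfl
      rw [this]
      exact Complex.exp_int_mul_two_pi_mul_I n
    rw [e1, h2 l hl, pow_one, pow_one, ef_shift, map_add]
    have e3 : Complex.exp (-(Real.pi * (H y l + H y v))) * Complex.exp (Real.pi * H l y) =
        Complex.exp (-(Real.pi * H y v)) * Complex.exp (Real.pi * H l y - Real.pi * H y l) := by
      rw [← Complex.exp_add, ← Complex.exp_add]
      congr 1
      ring
    linear_combination (ef H α l v * θ (v + y)) * e3 +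
      (ef H α l v * θ (v + y) * Complex.exp (-(Real.pi * H y v))) * e2

lemma re_bilin_zero {ι : Type} [Fintype ι] (b : Basis ι ℝ W) (D : W →ₗ[ℂ] ℂ)
    (h : ∀ i, (D (b i)).re = 0) : D = 0 := by
  have h1 : ∀ y, (D y).re = 0 := by
    intro y
    rw [← b.sum_repr y, map_sum, Complex.re_sum]
    apply Finset.sum_eq_zero
    intro i _
    have h2 : (b.repr y i • b i : W) = ((b.repr y i : ℂ)) • b i :=
      (Complex.coe_smul (b.repr y i) (b i)).symm
    rw [h2, map_smul, smul_eq_mul, Complex.re_ofReal_mul, h i, mul_zero]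
  ext y
  apply Complex.ext
  · exact h1 y
  · have h2 := h1 (Complex.I • y)
    rw [map_smul, smul_eq_mul, Complex.I_mul_re] at h2
    simp only [LinearMap.zero_apply, Complex.zero_im]
    linarith

/-- If all theta functions of level one were eigenfunctions of the translation by `x` ... -/
lemma eigen_of_not_sep {ι : Type} [Fintype ι] (b : Basis ι ℝ W)
    (h : AH (Submodule.span ℤ (Set.range b)) H α) {v w : W}
    (hns : ∀ s ∈ Th (Submodule.span ℤ (Set.range b)) H α 3, s v = 0 → s w = 0)
    {θ : W → ℂ} (hθ : θ ∈ Th (Submodule.span ℤ (Set.range b)) H α 1) (h0 : ∃ z, θ z ≠ 0) :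
    (∀ l ∈ Submodule.span ℤ (Set.range b), ∃ n : ℤ, (H l (w - v)).im = n) ∧
    ∃ C : ℂ, C ≠ 0 ∧ ∀ z, θ (z + (w - v)) = C * Complex.exp (Real.pi * H (w - v) z) * θ z := by
  set L := Submodule.span ℤ (Set.range b) with hL
  set x := w - v with hx
  obtain ⟨a0, b0, hab⟩ := bpf_three hθ h0 v
  obtain ⟨a1, b1, hab1⟩ := bpf_three hθ h0 w
  set s0 : W → ℂ := fun z => θ (z + a0) * θ (z + b0) * θ (z - a0 - b0) with hs0
  have hs0m : s0 ∈ Th L H α 3 := prod_three_mem hθ a0 b0
  have hs0v : s0 v ≠ 0 := hab
  have hprop : ∀ s ∈ Th L H α 3, s w * s0 v = s0 w * s v := by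
    intro s hs
    have h1 := hns (s0 v • s - s v • s0) (Submodule.sub_mem _ (Submodule.smul_mem _ _ hs)
      (Submodule.smul_mem _ _ hs0m)) (by
        simp only [Pi.sub_apply, Pi.smul_apply, smul_eq_mul]; ring)
    simp only [Pi.sub_apply, Pi.smul_apply, smul_eq_mul] at h1
    linear_combination h1
  have hs0w : s0 w ≠ 0 := by
    intro h1
    have h2 := hprop _ (prod_three_mem hθ a1 b1)
    rw [h1, zero_mul] at h2
    exact (mul_ne_zero hab1 hs0v) h2
  have hc : s0 w / s0 v ≠ 0 := div_ne_zero hs0w hs0v
  obtain ⟨C, ℓ, hC, hCℓ⟩ := ratio_exp (F := fun a => θ (w + a)) (G := fun a => θ (v + a))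
    (differentiable_shift hθ.1 w) (differentiable_shift hθ.1 v) (ne_zero_shift h0 w)
    (ne_zero_shift h0 v) hc (by
      intro a b
      have h1 := hprop _ (prod_three_mem hθ a b)
      have e1 : w + (-a - b) = w - a - b := by abel
      have e2 : v + (-a - b) = v - a - b := by abel
      rw [e1, e2]
      field_simp
      linear_combination h1)
  have hsh : ∀ z, θ (z + x) = (C * Complex.exp (-ℓ v)) * Complex.exp (ℓ z) * θ z := by
    intro z
    have h1 := hCℓ (z - v)
    have e1 : w + (z - v) = z + x := by rw [hx]; abel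
    have e2 : v + (z - v) = z := by abel
    rw [e1, e2, map_sub] at h1
    rw [h1, sub_eq_add_neg, Complex.exp_add]
    ring
  set C' := C * Complex.exp (-ℓ v) with hC'
  have hC'0 : C' ≠ 0 := mul_ne_zero hC (Complex.exp_ne_zero _)
  -- comparison of the factors
  obtain ⟨z0, hz0⟩ := h0
  have hfac : ∀ l ∈ L, Complex.exp (Real.pi * H l x) = Complex.exp (ℓ l) := by
    intro l hl
    have h1 := hsh (l + z0)
    have e1 : l + z0 + x = l + (z0 + x) := by abel
    rw [e1, hθ.2 l hl, hθ.2 l hl, pow_one, pow_one, ef_shift, hsh z0, map_add, Complex.exp_add] at h1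
    have h2 := ef_ne_zero h hl z0
    have h3 : ef H α l z0 * (C' * Complex.exp (ℓ z0) * θ z0) ≠ 0 :=
      mul_ne_zero h2 (mul_ne_zero (mul_ne_zero hC'0 (Complex.exp_ne_zero _)) hz0)
    apply mul_left_cancel₀ h3
    linear_combination h1
  have hℓ : ∀ z, ℓ z = Real.pi * H x z := by
    have h1 := re_bilin_zero b ((ℓ : W →ₗ[ℂ] ℂ) - (Real.pi : ℂ) • H x) (by
      intro i
      have h2 := hfac (b i) (Submodule.subset_span ⟨i, rfl⟩)
      have h3 := congrArg norm h2
      rw [Complex.norm_exp, Complex.norm_exp] at h3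
      have h4 := Real.exp_injective h3
      have h5 : ((ℓ : W →ₗ[ℂ] ℂ) - (Real.pi : ℂ) • H x) (b i) = ℓ (b i) - Real.pi * H x (b i) := rfl
      rw [h5, Complex.sub_re, ← h4, Complex.re_ofReal_mul, Complex.re_ofReal_mul, h.herm (b i) x,
        Complex.conj_re, sub_self])
    intro z
    have h2 := congrArg (fun f => f z) h1
    have h3 : ((ℓ : W →ₗ[ℂ] ℂ) - (Real.pi : ℂ) • H x) z = ℓ z - Real.pi * H x z := rfl
    simp only [h3, LinearMap.zero_apply] at h2
    exact sub_eq_zero.1 h2
  refine ⟨?_, C', hC'0, fun z => by rw [hsh z, hℓ]⟩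
  intro l hl
  have h1 := hfac l hl
  rw [hℓ] at h1
  have h2 : Complex.exp (Real.pi * H l x - Real.pi * H x l) = 1 := by
    rw [Complex.exp_sub, h1, div_self (Complex.exp_ne_zero _)]
  rw [exp_sub_symm h.herm, Complex.exp_eq_one_iff] at h2
  obtain ⟨n, hn⟩ := h2
  refine ⟨n, ?_⟩
  have h8 : (2 * Real.pi * Complex.I : ℂ) ≠ 0 := by
    simp [Complex.I_ne_zero, Real.pi_ne_zero]
  have h3 := mul_right_cancel₀ h8 hn
  exact_mod_cast h3

/-- dual basis for the imaginary part -/
lemma exists_dual {ι : Type} [Fintype ι] [DecidableEq ι] (b : Basis ι ℝ W)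
    (hnd : ∀ y, (∀ x, (H x y).im = 0) → y = 0) (j : ι) :
    ∃ y : W, ∀ i, (H (b i) y).im = if i = j then 1 else 0 := by
  have hfd : FiniteDimensional ℝ W := FiniteDimensional.complexToReal W
  let Φ : W →ₗ[ℝ] (ι → ℝ) :=
    { toFun := fun y i => (H (b i) y).im
      map_add' := fun y y' => by funext i; simp
      map_smul' := fun c y => by
        funext i
        have h2 : (c • y : W) = ((c : ℂ)) • y := (Complex.coe_smul c y).symm
        simp only [RingHom.id_apply, Pi.smul_apply, smul_eq_mul]
        rw [h2, map_smul, smul_eq_mul, Complex.im_ofReal_mul] }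
  have hinj : Function.Injective Φ := by
    rw [injective_iff_map_eq_zero]
    intro y hy
    apply hnd
    intro x
    rw [← b.sum_repr x, im_sum]
    apply Finset.sum_eq_zero
    intro i _
    have : (H (b i) y).im = 0 := congrFun hy i
    rw [this, mul_zero]
  have hfr : finrank ℝ W = finrank ℝ (ι → ℝ) := by
    rw [Module.finrank_fintype_fun_eq_card, Module.finrank_eq_card_basis b]
  have hsurj : Function.Surjective Φ := (LinearMap.injective_iff_surjective_of_finrank_eq_finrank
    hfr).1 hinj
  obtain ⟨y, hy⟩ := hsurj (fun i => if i = j then 1 else 0)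
  exact ⟨y, fun i => congrFun hy i⟩

/-- Level three of a positive definite Appell-Humbert datum is globally generated and separates the
points of the torus. -/
theorem level_three {ι : Type} [Fintype ι] (b : Basis ι ℝ W) (H : W →ₗ⋆[ℂ] W →ₗ[ℂ] ℂ)
    (α : W → ℂ) (h : AH (Submodule.span ℤ (Set.range b)) H α) :
    (∀ v, ∃ s ∈ Th (Submodule.span ℤ (Set.range b)) H α 3, s v ≠ 0) ∧
      ∀ v w, w - v ∉ Submodule.span ℤ (Set.range b) →
        ∃ s ∈ Th (Submodule.span ℤ (Set.range b)) H α 3, s v = 0 ∧ s w ≠ 0 := by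
  classical
  have hfd : FiniteDimensional ℝ W := FiniteDimensional.complexToReal W
  obtain ⟨θ, hθ, hθ0⟩ := exists_level_one b H α h
  set L := Submodule.span ℤ (Set.range b) with hL
  constructor
  · intro v
    obtain ⟨a, b', hab⟩ := bpf_three hθ hθ0 v
    exact ⟨_, prod_three_mem hθ a b', hab⟩
  · intro v w hvw
    by_contra hcon
    push Not at hcon
    have hns : ∀ s ∈ Th L H α 3, s v = 0 → s w = 0 := hcon
    set x := w - v with hx
    obtain ⟨hxint, C, hC, hCθ⟩ := eigen_of_not_sep b h hns hθ hθ0
    apply hvw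
    -- all coordinates of `x` are integers
    have hcoord : ∀ j, ∃ n : ℤ, b.repr x j = n := by
      intro j
      obtain ⟨y, hy⟩ := exists_dual (H := H) b (fun y hy => h.nondeg hy) j
      have hyL : ∀ l ∈ L, ∃ n : ℤ, (H l y).im = n := by
        intro l hl
        have hl' := hl
        rw [hL, b.mem_span_iff_repr_mem ℤ] at hl'
        obtain ⟨n, hn⟩ := hl' j
        refine ⟨n, ?_⟩
        have h1 : (H l y).im = b.repr l j := by
          conv_lhs => rw [← b.sum_repr l]
          rw [im_sum]
          simp only [hy, mul_ite, mul_one, mul_zero, Finset.sum_ite_eq', Finset.mem_univ, if_true]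
        rw [h1, ← hn]
        simp
      have hxy : (H x y).im = b.repr x j := by
        conv_lhs => rw [← b.sum_repr x]
        rw [im_sum]
        simp only [hy, mul_ite, mul_one, mul_zero, Finset.sum_ite_eq', Finset.mem_univ, if_true]
      rw [← hxy]
      -- the translate
      set θ' : W → ℂ := fun z => Complex.exp (-(Real.pi * H y z)) * θ (z + y) with hθ'
      have hθ'm : θ' ∈ Th L H α 1 := translate_mem h hθ hyL
      have hθ'0 : ∃ z, θ' z ≠ 0 := by
        obtain ⟨z, hz⟩ := hθ0
        exact ⟨z - y, mul_ne_zero (Complex.exp_ne_zero _) (by rwa [sub_add_cancel])⟩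
      set q : ℂ := Complex.exp (((H x y).im : ℂ) * (2 * Real.pi * Complex.I)) with hq
      have hθ'C : ∀ z, θ' (z + x) = (C * q) * Complex.exp (Real.pi * H x z) * θ' z := by
        intro z
        simp only [hθ']
        have e1 : z + x + y = (z + y) + x := by abel
        rw [e1, hCθ, map_add, map_add, hq, ← exp_sub_symm h.herm]
        have e2 : Complex.exp (-(Real.pi * (H y z + H y x))) *
            Complex.exp (Real.pi * (H x z + H x y)) =
            Complex.exp (Real.pi * H x y - Real.pi * H y x) * Complex.exp (Real.pi * H x z) *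
              Complex.exp (-(Real.pi * H y z)) := by
          rw [← Complex.exp_add, ← Complex.exp_add, ← Complex.exp_add]
          congr 1
          ring
        linear_combination (C * θ (z + y)) * e2
      -- `q = 1`
      have hq1 : q = 1 := by
        -- proportional case
        have hpropo : ∀ μ : ℂ, (∀ z, θ' z = μ * θ z) → q = 1 := by
          intro μ hμ
          obtain ⟨z, hz⟩ := hθ'0
          have h1 := hθ'C z
          rw [hμ, hμ z, hCθ] at h1
          have h2 : C * Complex.exp (Real.pi * H x z) * (μ * θ z) ≠ 0 :=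
            mul_ne_zero (mul_ne_zero hC (Complex.exp_ne_zero _)) (by rw [← hμ]; exact hz)
          apply mul_left_cancel₀ h2
          linear_combination -h1
        by_cases hsum : ∃ z, (θ + θ') z ≠ 0
        · obtain ⟨-, C'', hC'', hC''θ⟩ := eigen_of_not_sep b h hns (Submodule.add_mem _ hθ hθ'm) hsum
          have hrel : ∀ z, (C'' - C) * θ z = (C * q - C'') * θ' z := by
            intro z
            have h1 := hC''θ z
            simp only [Pi.add_apply] at h1
            rw [hCθ z, hθ'C z] at h1
            apply mul_left_cancel₀ (Complex.exp_ne_zero (Real.pi * H x z))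
            linear_combination -h1
          by_cases h1 : C * q - C'' = 0
          · by_cases h2 : C'' - C = 0
            · apply mul_left_cancel₀ hC
              linear_combination h1 + h2
            · exfalso
              obtain ⟨z, hz⟩ := hθ0
              have h3 := hrel z
              rw [h1, zero_mul] at h3
              exact (mul_ne_zero h2 hz) h3
          · apply hpropo ((C'' - C) / (C * q - C''))
            intro z
            have h3 := hrel z
            field_simp
            linear_combination -h3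
        · push Not at hsum
          apply hpropo (-1)
          intro z
          have h1 := hsum z
          simp only [Pi.add_apply] at h1
          linear_combination h1
      rw [hq, Complex.exp_eq_one_iff] at hq1
      obtain ⟨n, hn⟩ := hq1
      have h8 : (2 * Real.pi * Complex.I : ℂ) ≠ 0 := by
        simp [Complex.I_ne_zero, Real.pi_ne_zero]
      have h3 := mul_right_cancel₀ h8 hn
      exact ⟨n, by exact_mod_cast h3⟩
    rw [hL, b.mem_span_iff_repr_mem ℤ]
    intro j
    obtain ⟨n, hn⟩ := hcoord j
    exact ⟨n, by rw [hn]; simp⟩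

end Pool.Agent.MP_e4ecdb_ag.Theta
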