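import Pool.Agent.MP_e4ecdb_ag.TQuot
import Pool.Agent.MP_e4ecdb_ag.EThree
open Module

namespace Pool.Agent.MP_e4ecdb_ag.TQ

open Theta

variable {V : Type} [NormedAddCommGroup V] [NormedSpace ℂ V]

theorem trSec_level_three [FiniteDimensional ℂ V] {Γ : Subgroup (V ≃ᵃ[ℂ] V)}
    {H : V →ₗ⋆[ℂ] V →ₗ[ℂ] ℂ} {f : (V ≃ᵃ[ℂ] V) → V → ℂ} {c : (V ≃ᵃ[ℂ] V) → ℂ}
    (hN : Normal Γ H f c) {ι : Type} [Fintype ι] (b : Basis ι ℝ V)
    (hb : ∀ x, x ∈ Submodule.span ℤ (Set.range b) ↔ tr x ∈ Γ)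
    (hpos : ∀ x, (∃ y, H x y ≠ 0) → 0 < (H x x).re)
    (P : V →ₗ[ℂ] V) (hP1 : ∀ x y, H (P x) y = 0) (hP2 : ∀ x, (∀ y, H x y = 0) → P x = x)
    (hK : (kerForm H).restrictScalars ℝ ≤ Submodule.span ℝ
      {x | x ∈ Submodule.span ℤ (Set.range b) ∧ x ∈ (kerForm H).restrictScalars ℝ})
    {n : ℕ} (hn1 : 1 ≤ n) (hn : ∀ x, tr x ∈ Γ → (∀ y, H x y = 0) → c (tr x) ^ n = 1) :
    (∀ v, ∃ s ∈ TrSec Γ f (n * 3), s v ≠ 0) ∧
      ∀ v w, (∀ x, tr x ∈ Γ → ¬ (∀ y, H (w - v - x) y = 0)) →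
        ∃ s ∈ TrSec Γ f (n * 3), s v = 0 ∧ s w ≠ 0 := by
  classical
  set W : Submodule ℂ V := LinearMap.ker P with hW
  have hPP : ∀ x, P (P x) = P x := fun x => hP2 _ (hP1 x)
  let pr : V →ₗ[ℂ] W := LinearMap.codRestrict W (LinearMap.id - P) (fun x => by
    rw [hW, LinearMap.mem_ker]
    simp [hPP])
  have hpr : ∀ x, ((pr x : W) : V) = x - P x := fun x => rfl
  have hprW : ∀ w : W, pr (w : V) = w := by
    intro w
    apply Subtype.ext
    have hw : P (w : V) = 0 := w.2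
    rw [hpr, hw, sub_zero]
  have hker : ∀ x, pr x = 0 ↔ ∀ y, H x y = 0 := by
    intro x
    constructor
    · intro h y
      have h1 : ((pr x : W) : V) = 0 := by rw [h]; rfl
      rw [hpr, sub_eq_zero] at h1
      rw [h1]; exact hP1 x y
    · intro h
      apply Subtype.ext
      rw [hpr, hP2 x h, sub_self]; rfl
  have hHpr : ∀ x y, H x y = H ((pr x : W) : V) ((pr y : W) : V) := by
    intro x y
    rw [hpr, hpr]
    have h1 : ∀ z, H z (P y) = 0 := fun z => by rw [hN.herm, hP1, map_zero]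
    simp only [map_sub, LinearMap.sub_apply, hP1, h1, sub_zero]
  -- the lattice in W
  obtain ⟨r, c0, hc0⟩ := exists_quotient_lattice b ((kerForm H).restrictScalars ℝ) hK
  let prR : V →ₗ[ℝ] W := pr.restrictScalars ℝ
  have hkerR : (kerForm H).restrictScalars ℝ = LinearMap.ker prR := by
    ext x
    rw [Submodule.restrictScalars_mem, mem_kerForm, LinearMap.mem_ker]
    exact (hker x).symm
  have hsurj : Function.Surjective prR := fun w => ⟨(w : V), hprW w⟩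
  let e1 : (V ⧸ (kerForm H).restrictScalars ℝ) ≃ₗ[ℝ] W :=
    (Submodule.quotEquivOfEq _ _ hkerR).trans (prR.quotKerEquivOfSurjective hsurj)
  have he1 : ∀ x, e1 (((kerForm H).restrictScalars ℝ).mkQ x) = pr x := fun x => rfl
  let cW : Basis (Fin r) ℝ W := c0.map e1
  have hLW : ∀ l : W, l ∈ Submodule.span ℤ (Set.range cW) ↔ ∃ x, tr x ∈ Γ ∧ pr x = l := by
    intro l
    have h1 : Set.range cW = (e1.toLinearMap.restrictScalars ℤ) '' Set.range c0 := by
      rw [← Set.range_comp]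
      congr 1
    rw [h1, ← Submodule.map_span, hc0, Submodule.mem_map]
    constructor
    · rintro ⟨y, hy, rfl⟩
      obtain ⟨x, hx, rfl⟩ := Submodule.mem_map.1 hy
      exact ⟨x, (hb x).1 hx, (he1 x).symm⟩
    · rintro ⟨x, hx, rfl⟩
      exact ⟨((kerForm H).restrictScalars ℝ).mkQ x,
        Submodule.mem_map.2 ⟨x, (hb x).2 hx, rfl⟩, he1 x⟩
  -- the semicharacter on W
  let αW : W → ℂ := fun l => if h : ∃ x, tr x ∈ Γ ∧ pr x = l then c (tr h.choose) ^ n else 1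
  have hα : ∀ x, tr x ∈ Γ → αW (pr x) = c (tr x) ^ n := by
    intro x hx
    have hex : ∃ x', tr x' ∈ Γ ∧ pr x' = pr x := ⟨x, hx, rfl⟩
    simp only [αW, hex, dif_pos]
    obtain ⟨h1, h2⟩ := hex.choose_spec
    set x' := hex.choose
    have h3 : pr (x - x') = 0 := by rw [map_sub, h2, sub_self]
    rw [hker] at h3
    have h4 : tr (x - x') ∈ Γ := by
      have h5 : tr (x - x') = tr x * (tr x')⁻¹ := by
        rw [eq_mul_inv_iff_mul_eq, tr_mul, sub_add_cancel]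
      rw [h5]
      exact Γ.mul_mem hx (Γ.inv_mem h1)
    have h6 := c_add hN h1 h4 h3
    rw [add_sub_cancel] at h6
    rw [h6, mul_pow, hn _ h4 h3, mul_one]
  have hef : ∀ x, tr x ∈ Γ → ∀ v, ef (HW H W n) αW (pr x) (pr v) = f (tr x) v ^ n := by
    intro x hx v
    unfold ef
    rw [hα x hx, HW_apply, HW_apply, ← hHpr, ← hHpr, f_tr hN hx, mul_pow, ← Complex.exp_nat_mul]
    congr 2
    ring
  have hAH : AH (Submodule.span ℤ (Set.range cW)) (HW H W n) αW := by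
    refine ⟨?_, ?_, ?_, ?_⟩
    · intro x y
      rw [HW_apply, HW_apply, hN.herm, map_mul, Complex.conj_natCast]
    · intro x hx
      rw [HW_apply]
      have h1 : ((n : ℂ) * H (x : V) (x : V)).re = n * (H (x : V) (x : V)).re := by
        have : (n : ℂ) = ((n : ℝ) : ℂ) := by push_cast; rfl
        rw [this, Complex.re_ofReal_mul]
      rw [h1]
      have h2 : ∃ y, H (x : V) y ≠ 0 := by
        by_contra hcon
        push Not at hcon
        apply hx
        rw [← hprW x]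
        exact (hker _).2 hcon
      have h3 : (0 : ℝ) < n := by exact_mod_cast hn1
      exact mul_pos h3 (hpos _ h2)
    · intro l hl
      obtain ⟨x, hx, rfl⟩ := (hLW l).1 hl
      rw [hα x hx, norm_pow, hN.norm _ hx, one_pow]
    · intro l hl k hk v
      obtain ⟨x, hx, rfl⟩ := (hLW l).1 hl
      obtain ⟨y, hy, rfl⟩ := (hLW k).1 hk
      have h1 : v = pr (v : V) := (hprW v).symm
      have hxy : tr (x + y) ∈ Γ := by rw [← tr_mul]; exact Γ.mul_mem hx hy
      rw [h1, ← map_add, ← map_add, hef _ hxy, hef _ hx, hef _ hy, ← mul_pow, ← tr_mul,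
        hN.mul _ hx _ hy, tr_apply]
  obtain ⟨hm2, hm3⟩ := level_three cW (HW H W n) αW hAH
  have hsec : ∀ θ ∈ Th (Submodule.span ℤ (Set.range cW)) (HW H W n) αW 3,
      (fun v => θ (pr v)) ∈ TrSec Γ f (n * 3) := by
    rintro θ ⟨h1, h2⟩
    refine ⟨?_, fun x hx v => ?_⟩
    · have h3 : Differentiable ℂ (fun v => (LinearMap.toContinuousLinearMap pr) v) :=
        (LinearMap.toContinuousLinearMap pr).differentiable
      exact h1.comp h3
    · simp only
      rw [map_add, h2 (pr x) ((hLW _).2 ⟨x, hx, rfl⟩) (pr v), hef x hx, ← pow_mul]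
  refine ⟨fun v => ?_, fun v w hvw => ?_⟩
  · obtain ⟨θ, hθ, hθv⟩ := hm2 (pr v)
    exact ⟨_, hsec θ hθ, hθv⟩
  · obtain ⟨θ, hθ, hθv, hθw⟩ := hm3 (pr v) (pr w) (by
      intro hmem
      obtain ⟨x, hx, hx2⟩ := (hLW _).1 hmem
      apply hvw x hx
      rw [← hker, map_sub, map_sub, hx2, sub_self])
    exact ⟨_, hsec θ hθ, hθv, hθw⟩

end Pool.Agent.MP_e4ecdb_ag.TQ
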