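import Pool.Agent.MP_e4ecdb_ag.TFinal
open Module

namespace Pool.Agent.MP_e4ecdb_ag

variable {V : Type} [NormedAddCommGroup V] [NormedSpace ℂ V]

/-- The classes generating the pseudoeffective cone of `X = V / Γ`: Chern classes of line bundles with
a nonzero section, and semipositive `Γ`-invariant forms (limits of Kähler classes). -/
def IsEffectiveClass (Γ : Subgroup (V ≃ᵃ[ℂ] V)) (F : V →ₗ⋆[ℂ] V →ₗ[ℂ] ℂ) : Prop :=
  (∃ e, IsFactor Γ e ∧ IsChern Γ e F ∧ ∃ s ∈ sections Γ e 1, s ≠ 0) ∨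
  ((∀ x y, F x y = (starRingEnd ℂ) (F y x)) ∧ (∀ γ ∈ Γ, ∀ x y, F (γ.linear x) (γ.linear y) = F x y) ∧
    ∀ x, 0 ≤ (F x x).re)

/-- `H` is pseudoeffective: it is a limit of finite sums of nonnegative real multiples of the classes
of `IsEffectiveClass`. -/
def IsPseudoeffective (Γ : Subgroup (V ≃ᵃ[ℂ] V)) (H : V →ₗ⋆[ℂ] V →ₗ[ℂ] ℂ) : Prop :=
  ∃ (N : ℕ → ℕ) (a : (n : ℕ) → Fin (N n) → ℝ) (F : (n : ℕ) → Fin (N n) → (V →ₗ⋆[ℂ] V →ₗ[ℂ] ℂ)),
    (∀ n i, 0 ≤ a n i ∧ IsEffectiveClass Γ (F n i)) ∧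
    ∀ x y, Filter.Tendsto (fun n => ∑ i, (a n i : ℂ) * F n i x y) Filter.atTop (nhds (H x y))

namespace TQ

open Theta

/-- the Chern class of a line bundle with a nonzero section is semipositive -/
lemma semipos_of_section [FiniteDimensional ℂ V] {Γ : Subgroup (V ≃ᵃ[ℂ] V)}
    (hΓ : IsCrystallographic Γ) {e : (V ≃ᵃ[ℂ] V) → V → ℂ} (he : IsFactor Γ e)
    {H : V →ₗ⋆[ℂ] V →ₗ[ℂ] ℂ} (hH : IsChern Γ e H) {s : V → ℂ} (hs : s ∈ sections Γ e 1)
    (hs0 : s ≠ 0) : ∀ x, 0 ≤ (H x x).re := by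
  classical
  have hfdR : FiniteDimensional ℝ V := FiniteDimensional.complexToReal V
  have hprop : ProperSpace V := FiniteDimensional.proper ℂ V
  obtain ⟨ι, hι, b, hb⟩ := hΓ.lattice
  obtain ⟨u, c, hu, hu0, hN⟩ := exists_normal he hH
  set f : (V ≃ᵃ[ℂ] V) → V → ℂ := fun γ v => e γ v * u (γ v) / u v with hf
  intro x
  by_contra hx
  push Not at hx
  obtain ⟨v0, hv0⟩ : ∃ v, s v ≠ 0 := by
    by_contra hcon
    push Not at hcon
    exact hs0 (funext hcon)
  -- the pointwise norm
  let N : V → ℝ := fun v => ‖s v * u v‖ * Real.exp (-(Real.pi / 2) * (H v v).re)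
  have hNc : Continuous N := by
    apply Continuous.mul
    · exact (hs.1.continuous.mul hu.continuous).norm
    · exact Real.continuous_exp.comp (continuous_const.mul (continuous_quad H))
  have hper : ∀ l, tr l ∈ Γ → ∀ v, N (l + v) = N v := by
    intro l hl v
    have h1 : s (l + v) = e (tr l) v * s v := by
      have := hs.2 (tr l) hl v
      rwa [tr_apply, pow_one] at this
    have h2 : s (l + v) * u (l + v) = f (tr l) v * (s v * u v) := by
      have h3 : f (tr l) v = e (tr l) v * u (l + v) / u v := rfl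
      have h4 := hu0 v
      rw [h1, h3]
      field_simp
    have h5 : ‖f (tr l) v‖ = Real.exp (Real.pi * (H l v).re + Real.pi / 2 * (H l l).re) := by
      rw [f_tr hN hl, norm_mul, hN.norm _ hl, one_mul, Complex.norm_exp]
      congr 1
      have : (Real.pi * H l v + Real.pi / 2 * H l l : ℂ) =
        ((Real.pi : ℝ) : ℂ) * H l v + ((Real.pi / 2 : ℝ) : ℂ) * H l l := by push_cast; ring
      rw [this, Complex.add_re, Complex.re_ofReal_mul, Complex.re_ofReal_mul]
    simp only [N]
    rw [h2, norm_mul, h5]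
    have h6 : (H (l + v) (l + v)).re = (H v v).re + 2 * (H l v).re + (H l l).re := by
      simp only [map_add, LinearMap.add_apply, Complex.add_re]
      have h3 : (H v l).re = (H l v).re := by rw [hN.herm, Complex.conj_re]
      rw [h3]; ring
    rw [h6]
    have h7 : Real.exp (Real.pi * (H l v).re + Real.pi / 2 * (H l l).re) *
        Real.exp (-(Real.pi / 2) * ((H v v).re + 2 * (H l v).re + (H l l).re)) =
        Real.exp (-(Real.pi / 2) * (H v v).re) := by
      rw [← Real.exp_add]; congr 1; ring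
    calc _ = ‖s v * u v‖ * (Real.exp (Real.pi * (H l v).re + Real.pi / 2 * (H l l).re) *
        Real.exp (-(Real.pi / 2) * ((H v v).re + 2 * (H l v).re + (H l l).re))) := by ring
      _ = _ := by rw [h7]
  -- boundedness
  obtain ⟨M, hM⟩ : ∃ M, ∀ v, N v ≤ M := by
    obtain ⟨v1, -, hv1⟩ := (isCompact_closedBall (0 : V) (∑ i, ‖b i‖)).exists_isMaxOn
      ⟨0, by rw [Metric.mem_closedBall, dist_self]; positivity⟩ hNc.continuousOn
    refine ⟨N v1, fun v => ?_⟩
    have h1 : v = (ZSpan.floor b v : V) + ZSpan.fract b v := by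
      rw [ZSpan.fract_apply]; abel
    have h2 : N v = N (ZSpan.fract b v) := by
      conv_lhs => rw [h1]
      exact hper _ ((hb _).1 (ZSpan.floor b v).2) _
    rw [h2]
    exact hv1 (by rw [mem_closedBall_zero_iff]; exact ZSpan.norm_fract_le b v)
  -- restriction to a line
  let g : ℂ → ℂ := fun z => s (v0 + z • x) * u (v0 + z • x)
  have hgd : Differentiable ℂ g := by
    have h1 : Differentiable ℂ (fun z : ℂ => v0 + z • x) :=
      (differentiable_id.smul_const x).const_add v0
    exact (hs.1.comp h1).mul (hu.comp h1)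
  set A : ℝ := -(H x x).re with hA
  have hA0 : 0 < A := by rw [hA]; linarith
  set B : ℝ := ‖H v0 x‖ with hB
  have hgb : ∀ z : ℂ, ‖g z‖ ≤ M * Real.exp (Real.pi / 2 * ((H v0 v0).re + 2 * B * ‖z‖ - A * ‖z‖ ^ 2)) := by
    intro z
    have h1 := hM (v0 + z • x)
    have h2 : (H (v0 + z • x) (v0 + z • x)).re ≤ (H v0 v0).re + 2 * B * ‖z‖ - A * ‖z‖ ^ 2 := by
      simp only [map_add, LinearMap.add_apply, Complex.add_re]
      have h3 : (H (z • x) v0).re = (H v0 (z • x)).re := by rw [hN.herm, Complex.conj_re]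
      have h4 : (H v0 (z • x)).re ≤ B * ‖z‖ := by
        rw [map_smul, smul_eq_mul]
        refine (Complex.re_le_norm _).trans ?_
        rw [norm_mul, mul_comm]
      have h5 : (H (z • x) (z • x)).re = -(A * ‖z‖ ^ 2) := by
        have h6 : H (z • x) (z • x) = ((‖z‖ ^ 2 : ℝ) : ℂ) * H x x := by
          rw [map_smul, LinearMap.map_smulₛₗ, LinearMap.smul_apply, smul_eq_mul, smul_eq_mul,
            ← mul_assoc, Complex.mul_conj, Complex.normSq_eq_norm_sq]
        rw [h6, Complex.re_ofReal_mul, hA]; ring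
      rw [h3, h5]
      linarith
    have h3 : ‖g z‖ = N (v0 + z • x) * Real.exp (Real.pi / 2 * (H (v0 + z • x) (v0 + z • x)).re) := by
      simp only [N, g]
      rw [mul_assoc, ← Real.exp_add]
      have : -(Real.pi / 2) * (H (v0 + z • x) (v0 + z • x)).re +
        Real.pi / 2 * (H (v0 + z • x) (v0 + z • x)).re = 0 := by ring
      rw [this, Real.exp_zero, mul_one]
    have hN0 : 0 ≤ N (v0 + z • x) := by simp only [N]; positivity
    rw [h3]
    have hM0 : 0 ≤ M := hN0.trans h1
    gcongr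
  have hlim : Filter.Tendsto g (Filter.cocompact ℂ) (nhds 0) := by
    rw [tendsto_zero_iff_norm_tendsto_zero]
    have h1 : Filter.Tendsto (fun t : ℝ => M * Real.exp (Real.pi / 2 *
        ((H v0 v0).re + 2 * B * t - A * t ^ 2))) Filter.atTop (nhds 0) := by
      have h2 : Filter.Tendsto (fun t : ℝ => Real.pi / 2 *
          ((H v0 v0).re + 2 * B * t - A * t ^ 2)) Filter.atTop Filter.atBot := by
        apply Filter.Tendsto.const_mul_atBot (by positivity)
        have h3 : (fun t : ℝ => (H v0 v0).re + 2 * B * t - A * t ^ 2) =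
            fun t => (H v0 v0).re + t * (2 * B + (-A) * t) := by funext t; ring
        rw [h3]
        apply Filter.tendsto_atBot_add_const_left
        apply Filter.Tendsto.atTop_mul_atBot₀ Filter.tendsto_id
        apply Filter.tendsto_atBot_add_const_left
        exact Filter.Tendsto.const_mul_atTop_of_neg (by linarith) Filter.tendsto_id
      simpa using (Real.tendsto_exp_atBot.comp h2).const_mul M
    have h4 := h1.comp (tendsto_norm_cocompact_atTop (E := ℂ))
    exact squeeze_zero (fun z => norm_nonneg _) (fun z => hgb z) h4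
  have hg0 : g 0 = 0 := hgd.apply_eq_of_tendsto_cocompact 0 hlim
  simp only [g, zero_smul, add_zero] at hg0
  exact (mul_ne_zero hv0 (hu0 v0)) hg0

lemma semipos_of_psef [FiniteDimensional ℂ V] {Γ : Subgroup (V ≃ᵃ[ℂ] V)}
    (hΓ : IsCrystallographic Γ) {H : V →ₗ⋆[ℂ] V →ₗ[ℂ] ℂ} (hH : IsPseudoeffective Γ H) :
    ∀ x, 0 ≤ (H x x).re := by
  obtain ⟨N, a, F, h1, h2⟩ := hH
  intro x
  have h3 := (Complex.continuous_re.tendsto _).comp (h2 x x)
  refine ge_of_tendsto' h3 (fun n => ?_)
  simp only [Function.comp]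
  rw [Complex.re_sum]
  apply Finset.sum_nonneg
  intro i _
  rw [Complex.re_ofReal_mul]
  apply mul_nonneg (h1 n i).1
  rcases (h1 n i).2 with ⟨e, he, hc, s, hs, hs0⟩ | ⟨_, _, h⟩
  · exact semipos_of_section hΓ he hc hs hs0 x
  · exact h x

end TQ

end Pool.Agent.MP_e4ecdb_ag
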