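import Mathlib
open Module

set_option linter.unusedSectionVars false

namespace Pool.Agent.MP_e4ecdb_ag.Mink

variable {ι : Type} [Fintype ι] [DecidableEq ι]

lemma pow_expand (X : Matrix ι ι ℤ) (n : ℕ) :
    ∃ Y : Matrix ι ι ℤ, (1 + X) ^ n = 1 + (n : ℤ) • X + X * X * Y := by
  induction n with
  | zero => exact ⟨0, by simp⟩
  | succ n ih =>
    obtain ⟨Y, hY⟩ := ih
    refine ⟨(n : ℤ) • 1 + Y + Y * X, ?_⟩
    rw [pow_succ, hY]
    push_cast
    simp only [add_mul, mul_add, one_mul, mul_one, smul_mul_assoc, mul_smul_comm, add_smul,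
      one_smul]
    rw [mul_assoc (X * X) Y X]
    abel

lemma step_coprime {n : ℕ} (hn : IsCoprime (n : ℤ) 3) {k : ℕ} (B : Matrix ι ι ℤ)
    (h : (1 + (3 : ℤ) ^ (k + 1) • B) ^ n = 1) : ∃ B' : Matrix ι ι ℤ, B = (3 : ℤ) • B' := by
  obtain ⟨Y, hY⟩ := pow_expand ((3 : ℤ) ^ (k + 1) • B) n
  rw [h] at hY
  have h1 : (3 : ℤ) ^ (k + 1) • ((n : ℤ) • B + (3 : ℤ) ^ (k + 1) • (B * B * Y)) = 0 := by
    have h2 : (n : ℤ) • (3 : ℤ) ^ (k + 1) • B +
        ((3 : ℤ) ^ (k + 1) • B) * ((3 : ℤ) ^ (k + 1) • B) * Y = 0 := by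
      have h3 : (1 : Matrix ι ι ℤ) + ((n : ℤ) • (3 : ℤ) ^ (k + 1) • B +
        ((3 : ℤ) ^ (k + 1) • B) * ((3 : ℤ) ^ (k + 1) • B) * Y) = 1 + 0 := by
        rw [← add_assoc, ← hY, add_zero]
      exact add_left_cancel h3
    rw [smul_add, smul_comm ((3 : ℤ) ^ (k + 1)) (n : ℤ) B]
    simp only [smul_mul_assoc, mul_smul_comm] at h2 ⊢
    exact h2
  have h3 : (n : ℤ) • B + (3 : ℤ) ^ (k + 1) • (B * B * Y) = 0 := by
    rcases smul_eq_zero.1 h1 with h4 | h4
    · exact absurd h4 (by positivity)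
    · exact h4
  obtain ⟨u, v, huv⟩ := hn
  refine ⟨v • B - (u * (3 : ℤ) ^ k) • (B * B * Y), ?_⟩
  have h4 : (n : ℤ) • B = -((3 : ℤ) ^ (k + 1) • (B * B * Y)) := eq_neg_of_add_eq_zero_left h3
  calc B = (u * n + v * 3) • B := by rw [huv, one_smul]
    _ = u • ((n : ℤ) • B) + (3 * v) • B := by rw [add_smul, mul_smul, mul_comm v 3]
    _ = _ := by
      rw [h4, smul_sub, smul_smul, smul_neg, smul_smul, smul_smul, pow_succ]
      rw [show u * ((3 : ℤ) ^ k * 3) = 3 * (u * 3 ^ k) by ring]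
      abel

lemma step_three {k : ℕ} (B : Matrix ι ι ℤ)
    (h : (1 + (3 : ℤ) ^ (k + 1) • B) ^ 3 = 1) : ∃ B' : Matrix ι ι ℤ, B = (3 : ℤ) • B' := by
  have h0 : (3 : ℤ) ^ (k + 2) • (B + (3 : ℤ) • ((3 : ℤ) ^ k • (B * B) +
      (3 : ℤ) ^ (2 * k) • (B * B * B))) = 0 := by
    have h1 : ∀ X : Matrix ι ι ℤ, (1 + X) ^ 3 = 1 + ((3 : ℤ) • X + (3 : ℤ) • (X * X) + X * X * X) := by
      intro X
      have : (3 : ℤ) • X + (3 : ℤ) • (X * X) = X + X + X + (X * X + X * X + X * X) := by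
        rw [show (3 : ℤ) = 1 + 1 + 1 by norm_num, add_smul, add_smul, add_smul, add_smul, one_smul,
          one_smul]
      rw [this]
      noncomm_ring
    rw [h1] at h
    have h2 := add_eq_left.1 h
    rw [← h2]
    simp only [smul_mul_assoc, mul_smul_comm, smul_add, smul_smul]
    rw [← add_assoc]
    congr 1
    · congr 1
      · congr 1
        ring
      · congr 1
        ring
    · congr 1
      ring
  have h3 : B + (3 : ℤ) • ((3 : ℤ) ^ k • (B * B) + (3 : ℤ) ^ (2 * k) • (B * B * B)) = 0 := by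
    rcases smul_eq_zero.1 h0 with h4 | h4
    · exact absurd h4 (by positivity)
    · exact h4
  refine ⟨-((3 : ℤ) ^ k • (B * B) + (3 : ℤ) ^ (2 * k) • (B * B * B)), ?_⟩
  rw [smul_neg]
  exact eq_neg_of_add_eq_zero_left h3

lemma eq_one_of_steps {M : Matrix ι ι ℤ} (h1 : ∃ B : Matrix ι ι ℤ, M = 1 + (3 : ℤ) • B)
    (hs : ∀ (k : ℕ) (B : Matrix ι ι ℤ), M = 1 + (3 : ℤ) ^ (k + 1) • B →
      ∃ B' : Matrix ι ι ℤ, B = (3 : ℤ) • B') : M = 1 := by
  have hall : ∀ k : ℕ, ∃ B : Matrix ι ι ℤ, M = 1 + (3 : ℤ) ^ (k + 1) • B := by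
    intro k
    induction k with
    | zero =>
      obtain ⟨B, hB⟩ := h1
      exact ⟨B, by rw [zero_add, pow_one]; exact hB⟩
    | succ k ih =>
      obtain ⟨B, hB⟩ := ih
      obtain ⟨B', hB'⟩ := hs k B hB
      refine ⟨B', ?_⟩
      rw [hB, hB', smul_smul, ← pow_succ]
  rw [← sub_eq_zero]
  ext i j
  rw [Matrix.zero_apply]
  by_contra hne
  have hdvd : ∀ k : ℕ, (3 : ℤ) ^ (k + 1) ∣ (M - 1) i j := by
    intro k
    obtain ⟨B, hB⟩ := hall k
    refine ⟨B i j, ?_⟩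
    rw [hB, add_sub_cancel_left]
    simp
  have h2 := Int.natAbs_dvd_natAbs.2 (hdvd ((M - 1) i j).natAbs)
  have h3 := Nat.le_of_dvd (Int.natAbs_pos.2 hne) h2
  rw [Int.natAbs_pow] at h3
  have h4 : ((M - 1) i j).natAbs < 3 ^ (((M - 1) i j).natAbs + 1) :=
    (Nat.lt_succ_self _).trans (Nat.lt_pow_self (by norm_num))
  have h5 : (3 : ℤ).natAbs = 3 := rfl
  rw [h5] at h3
  omega

/-- Minkowski's lemma modulo 3 -/
theorem minkowski (n : ℕ) (hn : 1 ≤ n) : ∀ M : Matrix ι ι ℤ,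
    (∃ B : Matrix ι ι ℤ, M = 1 + (3 : ℤ) • B) → M ^ n = 1 → M = 1 := by
  induction n using Nat.strong_induction_on with
  | _ n ih =>
    intro M hM hMn
    by_cases h3 : 3 ∣ n
    · obtain ⟨m, rfl⟩ := h3
      have hM3 : M ^ 3 = 1 := by
        apply ih m (by omega) (by omega)
        · obtain ⟨B, hB⟩ := hM
          obtain ⟨Y, hY⟩ := pow_expand ((3 : ℤ) • B) 3
          refine ⟨(3 : ℤ) • B + (3 : ℤ) • (B * B * Y), ?_⟩
          rw [hB, hY]
          simp only [smul_mul_assoc, mul_smul_comm, smul_add, smul_smul]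
          rw [add_assoc]
          push_cast
          norm_num
        · rw [← pow_mul]; exact hMn
      exact eq_one_of_steps hM (fun k B hB => step_three (k := k) B (by rw [← hB]; exact hM3))
    · have hco : IsCoprime (n : ℤ) 3 := by
        have : Nat.Coprime n 3 := (Nat.Prime.coprime_iff_not_dvd (by norm_num)).2 h3 |>.symm
        exact_mod_cast Nat.isCoprime_iff_coprime.2 this
      exact eq_one_of_steps hM
        (fun k B hB => step_coprime (k := k) hco B (by rw [← hB]; exact hMn))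

end Pool.Agent.MP_e4ecdb_ag.Mink
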