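import Pool.Agent.MP_e4ecdb_ag.ThetaC
import Pool.Agent.MP_e4ecdb_ag.EFour
open Module

set_option linter.unusedSectionVars false

namespace Pool.Agent.MP_e4ecdb_ag.Theta

variable {W : Type} [NormedAddCommGroup W] [NormedSpace ℂ W] [FiniteDimensional ℂ W]

/-- integrality of the imaginary part -/
lemma AH.int {L : Submodule ℤ W} {H : W →ₗ⋆[ℂ] W →ₗ[ℂ] ℂ} {α : W → ℂ} (h : AH L H α)
    {x y : W} (hx : x ∈ L) (hy : y ∈ L) : ∃ n : ℤ, (H x y).im = n := by
  have h1 := h.coc x hx y hy 0
  have h2 := h.coc y hy x hx 0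
  rw [add_comm y x, h1] at h2
  unfold ef at h2
  simp only [add_zero, map_zero, mul_zero, zero_add] at h2
  have hcx : α x ≠ 0 := by
    intro h0
    have := h.norm x hx
    rw [h0, norm_zero] at this
    exact zero_ne_one this
  have hcy : α y ≠ 0 := by
    intro h0
    have := h.norm y hy
    rw [h0, norm_zero] at this
    exact zero_ne_one this
  have h3 : Complex.exp (Real.pi * H x y - Real.pi * H y x) = 1 := by
    have h4 : Complex.exp (Real.pi * H x y + Real.pi / 2 * H x x) *
        Complex.exp (Real.pi / 2 * H y y) =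
        Complex.exp (Real.pi * H y x + Real.pi / 2 * H y y) *
        Complex.exp (Real.pi / 2 * H x x) := by
      apply mul_left_cancel₀ (mul_ne_zero hcx hcy)
      linear_combination h2
    rw [← Complex.exp_add, ← Complex.exp_add] at h4
    have h5 : (Real.pi * H x y - Real.pi * H y x : ℂ) =
        (Real.pi * H x y + Real.pi / 2 * H x x + Real.pi / 2 * H y y) -
        (Real.pi * H y x + Real.pi / 2 * H y y + Real.pi / 2 * H x x) := by ring
    rw [h5, Complex.exp_sub, h4, div_self (Complex.exp_ne_zero _)]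
  rw [Complex.exp_eq_one_iff] at h3
  obtain ⟨n, hn⟩ := h3
  refine ⟨n, ?_⟩
  have h6 : (Real.pi * H x y - Real.pi * H y x : ℂ) = (Real.pi : ℂ) * (H x y - H y x) := by ring
  rw [h6, h.herm y x, Complex.sub_conj] at hn
  have h8 : (2 * Real.pi * Complex.I : ℂ) ≠ 0 := by
    simp [Complex.I_ne_zero, Real.pi_ne_zero]
  have h9 : (((H x y).im : ℝ) : ℂ) = (n : ℂ) := by
    apply mul_left_cancel₀ h8
    push_cast at hn ⊢
    linear_combination hn
  exact_mod_cast h9

/-- nondegeneracy of the imaginary part -/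
lemma AH.nondeg {L : Submodule ℤ W} {H : W →ₗ⋆[ℂ] W →ₗ[ℂ] ℂ} {α : W → ℂ} (h : AH L H α)
    {y : W} (hy : ∀ x, (H x y).im = 0) : y = 0 := by
  by_contra hne
  have h1 := h.pos y hne
  have h2 := hy (Complex.I • y)
  rw [LinearMap.map_smulₛₗ, LinearMap.smul_apply, smul_eq_mul, Complex.conj_I] at h2
  simp at h2
  linarith

lemma im_sum {ι : Type} [Fintype ι] (H : W →ₗ⋆[ℂ] W →ₗ[ℂ] ℂ) (b : ι → W) (r : ι → ℝ) (y : W) :
    (H (∑ i, r i • b i) y).im = ∑ i, r i * (H (b i) y).im := by
  rw [map_sum, LinearMap.sum_apply, Complex.im_sum]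
  apply Finset.sum_congr rfl
  intro i _
  have h1 : (r i • b i : W) = ((r i : ℂ)) • b i := (Complex.coe_smul (r i) (b i)).symm
  rw [h1, LinearMap.map_smulₛₗ, Complex.conj_ofReal, LinearMap.smul_apply, smul_eq_mul,
    Complex.im_ofReal_mul]

/-- every positive definite Appell-Humbert datum has a nonzero theta function (of level one) -/
theorem exists_level_one {ι : Type} [Fintype ι] (b : Basis ι ℝ W) (H : W →ₗ⋆[ℂ] W →ₗ[ℂ] ℂ)
    (α : W → ℂ) (h : AH (Submodule.span ℤ (Set.range b)) H α) :
    ∃ θ ∈ Th (Submodule.span ℤ (Set.range b)) H α 1, ∃ z, θ z ≠ 0 := by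
  classical
  have hfd : FiniteDimensional ℝ W := FiniteDimensional.complexToReal W
  set L := Submodule.span ℤ (Set.range b) with hL
  have hdisc : DiscreteTopology L := inferInstance
  by_contra hcon
  push Not at hcon
  have h1 : ∀ x, dd L H α 1 x x = 0 := by
    intro x
    have h2 := hcon _ (theta_mem h le_rfl x) x
    rw [theta_eq_dd] at h2
    exact (mul_eq_zero.1 h2).resolve_left (Complex.exp_ne_zero _)
  have hbL : ∀ i, b i ∈ L := fun i => Submodule.subset_span ⟨i, rfl⟩
  have hint : ∀ (l : L) (i : ι), ∃ n : ℤ, (H (b i) (l : W)).im = n := fun l i => h.int (hbL i) l.2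
  choose n hn using hint
  have h3 := coeff_zero_of_sum_zero (ι := ι) (κ := L) (fun l => gg H α 1 0 0 l)
    ((summable_gg h le_rfl 0 0).norm) n 0 ?_ ?_
  · rw [show ((0 : L) : W) = 0 from rfl, gg_zero h] at h3
    exact one_ne_zero h3
  · intro l
    constructor
    · intro h4
      apply Subtype.ext
      apply h.nondeg
      intro x
      rw [← b.sum_repr x, im_sum]
      apply Finset.sum_eq_zero
      intro i _
      rw [hn l i, h4]; simp
    · rintro rfl
      funext i
      have h5 := hn 0 i
      rw [show ((0 : L) : W) = 0 from rfl, map_zero, Complex.zero_im] at h5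
      exact_mod_cast h5.symm
  · intro r
    rw [← h1 (∑ i, r i • b i)]
    unfold dd
    apply tsum_congr
    intro l
    unfold gg
    simp only [map_zero, LinearMap.zero_apply, sub_zero, zero_sub]
    rw [mul_assoc, ← Complex.exp_add]
    congr 2
    set x := ∑ i, r i • b i with hx
    have h6 : H x l - H l x = 2 * Complex.I * ((H x l).im : ℂ) := by
      rw [h.herm l x, Complex.sub_conj]
      push_cast; ring
    have h7 : ((H x l).im : ℂ) = ∑ i, (n l i : ℂ) * (r i : ℂ) := by
      rw [hx, im_sum]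
      push_cast
      apply Finset.sum_congr rfl
      intro i _
      rw [hn l i]
      push_cast
      ring
    rw [h6, h7]
    push_cast
    ring

end Pool.Agent.MP_e4ecdb_ag.Theta
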