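import Mathlib
open Module

namespace Pool.Agent.MP_e4ecdb_ag

/-- averaging a projection -/
lemma exists_equivariant_proj {V : Type*} [AddCommGroup V] [Module ℂ V]
    {G : Type*} [Group G] [Finite G] (ρ : Representation ℂ G V) (K : Submodule ℂ V)
    (hK : ∀ g, ∀ x ∈ K, ρ g x ∈ K) :
    ∃ P : V →ₗ[ℂ] V, (∀ x, P x ∈ K) ∧ (∀ x ∈ K, P x = x) ∧ ∀ g x, P (ρ g x) = ρ g (P x) := by
  classical
  have := Fintype.ofFinite G
  obtain ⟨p, hp⟩ := K.subtype.exists_leftInverse_of_injective (by simp)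
  let q : V →ₗ[ℂ] V := K.subtype ∘ₗ p
  have hqK : ∀ x, q x ∈ K := fun x => (p x).2
  have hq : ∀ x ∈ K, q x = x := by
    intro x hx
    have := congrArg (fun f => f ⟨x, hx⟩) hp
    simp only [LinearMap.comp_apply, Submodule.subtype_apply, LinearMap.id_apply] at this
    simp [q, this]
  have hn : (Fintype.card G : ℂ) ≠ 0 := by
    exact_mod_cast Fintype.card_ne_zero
  let P : V →ₗ[ℂ] V := (Fintype.card G : ℂ)⁻¹ • ∑ g : G, (ρ g) ∘ₗ q ∘ₗ (ρ g⁻¹)
  have hP : ∀ x, P x = (Fintype.card G : ℂ)⁻¹ • ∑ g : G, ρ g (q (ρ g⁻¹ x)) := by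
    intro x
    simp [P, LinearMap.sum_apply]
  have hinv : ∀ g x, ρ g (ρ g⁻¹ x) = x := by
    intro g x
    rw [← Module.End.mul_apply, ← map_mul, mul_inv_cancel, map_one]
    rfl
  refine ⟨P, ?_, ?_, ?_⟩
  · intro x
    rw [hP]
    exact K.smul_mem _ (K.sum_mem fun g _ => hK g _ (hqK _))
  · intro x hx
    rw [hP]
    have : ∀ g ∈ (Finset.univ : Finset G), ρ g (q (ρ g⁻¹ x)) = x := by
      intro g _
      rw [hq _ (hK _ _ hx), hinv]
    rw [Finset.sum_congr rfl this, Finset.sum_const, Finset.card_univ, ← Nat.cast_smul_eq_nsmul ℂ,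
      smul_smul, inv_mul_cancel₀ hn, one_smul]
  · intro h x
    rw [hP, hP, map_smul, map_sum]
    congr 1
    refine Finset.sum_bij' (fun g _ => h⁻¹ * g) (fun g _ => h * g) ?_ ?_ ?_ ?_ ?_
    · simp
    · simp
    · simp
    · simp
    · intro g _
      have e1 : ρ h (ρ (h⁻¹ * g) (q (ρ (h⁻¹ * g)⁻¹ x))) = ρ g (q (ρ (h⁻¹ * g)⁻¹ x)) := by
        rw [← Module.End.mul_apply, ← map_mul, mul_inv_cancel_left]
      rw [e1]
      congr 2
      rw [← Module.End.mul_apply, ← map_mul, mul_inv_rev, inv_inv]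

/-- In a symplectic representation whose only invariant alternating forms are the multiples of the
symplectic form, every proper nonzero invariant subspace is isotropic. -/
lemma isotropic_of_invariant {V : Type*} [AddCommGroup V] [Module ℂ V]
    {G : Type*} [Group G] [Finite G] (ρ : Representation ℂ G V)
    (σ : LinearMap.BilinForm ℂ V) (hnd : ∀ x, (∀ y, σ x y = 0) → x = 0) (halt : ∀ x, σ x x = 0)
    (hinv : ∀ g x y, σ (ρ g x) (ρ g y) = σ x y)
    (hprim : ∀ τ : LinearMap.BilinForm ℂ V, (∀ x, τ x x = 0) →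
      (∀ g x y, τ (ρ g x) (ρ g y) = τ x y) → ∃ c : ℂ, τ = c • σ)
    (P : V →ₗ[ℂ] V) (hP : ∀ g x, P (ρ g x) = ρ g (P x)) (hne : ∃ x, x ≠ 0 ∧ P x = 0) :
    ∀ x y, σ (P x) (P y) = 0 := by
  obtain ⟨c, hc⟩ := hprim (σ.compl₁₂ P P) (fun x => by simp [halt]) (fun g x y => by
    simp [hP, hinv])
  have hc' : ∀ x y, σ (P x) (P y) = c * σ x y := by
    intro x y
    have := congrArg (fun f => f x y) hc
    simpa using this
  obtain ⟨x, hx, hPx⟩ := hne
  have hc0 : c = 0 := by
    by_contra h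
    apply hx
    apply hnd
    intro y
    have := hc' x y
    rw [hPx] at this
    simp only [map_zero, LinearMap.zero_apply] at this
    rcases mul_eq_zero.mp this.symm with h1 | h1
    · exact absurd h1 h
    · exact h1
  intro x y
  rw [hc', hc0, zero_mul]

/-- the real kernel of an integral matrix is spanned by integral vectors -/
lemma rational_kernel {ι κ : Type*} [Fintype ι] (M : ι → κ → ℤ) (x : ι → ℝ)
    (hx : ∀ j, ∑ i, x i * (M i j : ℝ) = 0) :
    x ∈ Submodule.span ℝ {y : ι → ℝ | (∃ z : ι → ℤ, y = fun i => (z i : ℝ)) ∧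
      ∀ j, ∑ i, y i * (M i j : ℝ) = 0} := by
  classical
  let e := Basis.ofVectorSpace ℚ ℝ
  let S : Finset (Basis.ofVectorSpaceIndex ℚ ℝ) := Finset.univ.biUnion (fun i => (e.repr (x i)).support)
  have hx' : x = ∑ k ∈ S, (e k) • (fun i => ((e.repr (x i) k : ℚ) : ℝ)) := by
    funext i
    rw [Finset.sum_apply]
    conv_lhs => rw [← e.linearCombination_repr (x i)]
    rw [Finsupp.linearCombination_apply, Finsupp.sum_of_support_subset (s := S)]
    · apply Finset.sum_congr rfl
      intro k _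
      simp only [Pi.smul_apply, smul_eq_mul]
      rw [Rat.smul_def, mul_comm]
    · exact Finset.subset_biUnion_of_mem (fun i => (e.repr (x i)).support) (Finset.mem_univ i)
    · intro k _; simp
  rw [hx']
  apply Submodule.sum_mem
  intro k _
  apply Submodule.smul_mem
  -- the rational vector
  have hker : ∀ j, ∑ i, (e.repr (x i) k : ℚ) * (M i j : ℚ) = 0 := by
    intro j
    have h1 := congrArg (fun r => e.repr r k) (hx j)
    simp only [map_sum, map_zero, Finsupp.coe_zero, Pi.zero_apply, Finsupp.finsetSum_apply] at h1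
    rw [← h1]
    apply Finset.sum_congr rfl
    intro i _
    have h2 : x i * (M i j : ℝ) = (M i j : ℚ) • x i := by
      rw [Rat.smul_def, mul_comm]; simp
    rw [h2, map_smul]
    simp [mul_comm]
  -- common denominator
  obtain ⟨⟨N, hN⟩, hN'⟩ := IsLocalization.exist_integer_multiples_of_finset (nonZeroDivisors ℤ)
    (Finset.univ.image (fun i => (e.repr (x i) k : ℚ)))
  have hN0 : N ≠ 0 := nonZeroDivisors.ne_zero hN
  have hz : ∀ i, ∃ z : ℤ, (z : ℚ) = (N : ℚ) * (e.repr (x i) k : ℚ) := by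
    intro i
    obtain ⟨z, hz⟩ := hN' (e.repr (x i) k) (Finset.mem_image_of_mem _ (Finset.mem_univ i))
    refine ⟨z, ?_⟩
    simpa using hz
  choose z hz using hz
  have hq : (fun i => ((e.repr (x i) k : ℚ) : ℝ)) = (N : ℝ)⁻¹ • (fun i => ((z i : ℤ) : ℝ)) := by
    funext i
    have h3 : ((z i : ℚ) : ℝ) = ((N : ℚ) * (e.repr (x i) k : ℚ) : ℚ) := by rw [hz i]
    have hN1 : (N : ℝ) ≠ 0 := by exact_mod_cast hN0
    simp only [Pi.smul_apply, smul_eq_mul]
    push_cast at h3
    rw [h3]
    field_simp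
  rw [hq]
  apply Submodule.smul_mem
  apply Submodule.subset_span
  refine ⟨⟨z, rfl⟩, fun j => ?_⟩
  have h4 : ∑ i, (z i : ℚ) * (M i j : ℚ) = 0 := by
    have : ∑ i, (z i : ℚ) * (M i j : ℚ) = (N : ℚ) * ∑ i, (e.repr (x i) k : ℚ) * (M i j : ℚ) := by
      rw [Finset.mul_sum]
      apply Finset.sum_congr rfl
      intro i _
      rw [hz i]; ring
    rw [this, hker j, mul_zero]
  have h5 : ((∑ i, (z i : ℚ) * (M i j : ℚ) : ℚ) : ℝ) = 0 := by rw [h4]; simp
  push_cast at h5
  exact h5

lemma torsionFree_of_real (V : Type*) [AddCommGroup V] [Module ℝ V] : IsAddTorsionFree V := by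
  let _ : Module ℚ V := Module.compHom V (algebraMap ℚ ℝ)
  exact IsAddTorsionFree.of_module_rat V

lemma finrank_le_of_span {V : Type*} [AddCommGroup V] [Module ℝ V] [FiniteDimensional ℝ V]
    (K : Submodule ℝ V) (Γ : Submodule ℤ V) [Module.Finite ℤ Γ]
    (hK : K ≤ Submodule.span ℝ (Γ : Set V)) : finrank ℝ K ≤ finrank ℤ Γ := by
  have : IsAddTorsionFree V := torsionFree_of_real V
  have : IsTorsionFree ℤ Γ := inferInstance
  have : Module.Free ℤ Γ := inferInstance
  let c := Module.finBasis ℤ Γ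
  have h1 : Submodule.span ℝ (Γ : Set V) ≤ Submodule.span ℝ (Set.range (fun i => (c i : V))) := by
    rw [Submodule.span_le]
    intro x hx
    have h3 : x = ∑ i, (c.repr ⟨x, hx⟩ i) • (c i : V) := by
      have := congrArg Γ.subtype (c.sum_repr ⟨x, hx⟩).symm
      rw [map_sum] at this
      simpa only [map_smul, Submodule.subtype_apply] using this
    rw [h3]
    apply Submodule.sum_mem
    intro i _
    rw [← Int.cast_smul_eq_zsmul ℝ]
    exact Submodule.smul_mem _ _ (Submodule.subset_span ⟨i, rfl⟩)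
  calc finrank ℝ K ≤ finrank ℝ (Submodule.span ℝ (Set.range (fun i => (c i : V)))) :=
        Submodule.finrank_mono (hK.trans h1)
    _ ≤ Fintype.card (Fin (finrank ℤ Γ)) := finrank_range_le_card _
    _ = finrank ℤ Γ := Fintype.card_fin _

/-- If a real subspace `K` is spanned by its lattice vectors then the image of the lattice in the quotient
is a lattice. -/
lemma exists_quotient_lattice {V : Type*} [AddCommGroup V] [Module ℝ V]
    {ι : Type*} [Fintype ι] (b : Basis ι ℝ V) (K : Submodule ℝ V)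
    (hK : K ≤ Submodule.span ℝ {x | x ∈ Submodule.span ℤ (Set.range b) ∧ x ∈ K}) :
    ∃ (r : ℕ) (c : Basis (Fin r) ℝ (V ⧸ K)), Submodule.span ℤ (Set.range c) =
      (Submodule.span ℤ (Set.range b)).map (K.mkQ.restrictScalars ℤ) := by
  classical
  have : FiniteDimensional ℝ V := Module.Finite.of_basis b
  have : IsAddTorsionFree V := torsionFree_of_real V
  have : IsAddTorsionFree (V ⧸ K) := torsionFree_of_real (V ⧸ K)
  set Λ : Submodule ℤ V := Submodule.span ℤ (Set.range b) with hΛ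
  have hfin : Module.Finite ℤ Λ := Module.Finite.span_of_finite ℤ (Set.finite_range b)
  have hfree : Module.Free ℤ Λ := inferInstance
  -- the rank of the lattice
  have hrank : finrank ℤ Λ = finrank ℝ V := by
    let b' : Basis ι ℤ Λ := b.restrictScalars ℤ
    rw [Module.finrank_eq_card_basis b', Module.finrank_eq_card_basis b]
  let π : Λ →ₗ[ℤ] (V ⧸ K) := (K.mkQ.restrictScalars ℤ) ∘ₗ Λ.subtype
  have hrn := Submodule.finrank_quotient_add_finrank (LinearMap.ker π)
  rw [π.quotKerEquivRange.finrank_eq] at hrn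
  -- the kernel
  have hker : finrank ℝ K ≤ finrank ℤ (LinearMap.ker π) := by
    have h1 : K ≤ Submodule.span ℝ (((LinearMap.ker π).map Λ.subtype : Submodule ℤ V) : Set V) := by
      refine hK.trans (Submodule.span_mono ?_)
      rintro x ⟨hx, hxK⟩
      refine ⟨⟨x, hx⟩, ?_, rfl⟩
      simp [π, hxK]
    have h2 := finrank_le_of_span K ((LinearMap.ker π).map Λ.subtype) h1
    rwa [LinearEquiv.finrank_eq (Submodule.equivMapOfInjective Λ.subtype Λ.injective_subtype _).symm] at h2
  have hrange : finrank ℤ (LinearMap.range π) ≤ finrank ℝ (V ⧸ K) := by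
    have := Submodule.finrank_quotient_add_finrank K
    omega
  set Γ : Submodule ℤ (V ⧸ K) := LinearMap.range π with hΓ
  have hΓfree : Module.Free ℤ Γ := inferInstance
  let c := Module.finBasis ℤ Γ
  have hspan : ⊤ ≤ Submodule.span ℝ (Set.range (fun i => (c i : V ⧸ K))) := by
    have h1 : Submodule.span ℝ (Γ : Set (V ⧸ K)) ≤
        Submodule.span ℝ (Set.range (fun i => (c i : V ⧸ K))) := by
      rw [Submodule.span_le]
      intro x hx
      have h3 : x = ∑ i, (c.repr ⟨x, hx⟩ i) • (c i : V ⧸ K) := by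
        have := congrArg Γ.subtype (c.sum_repr ⟨x, hx⟩).symm
        rw [map_sum] at this
        simpa only [map_smul, Submodule.subtype_apply] using this
      rw [h3]
      apply Submodule.sum_mem
      intro i _
      rw [← Int.cast_smul_eq_zsmul ℝ]
      exact Submodule.smul_mem _ _ (Submodule.subset_span ⟨i, rfl⟩)
    refine le_trans ?_ h1
    intro y _
    obtain ⟨x, rfl⟩ := K.mkQ_surjective y
    have hx : x ∈ Submodule.span ℝ (Set.range b) := by rw [b.span_eq]; trivial
    have h4 : K.mkQ x ∈ (Submodule.span ℝ (Set.range b)).map K.mkQ := Submodule.mem_map_of_mem hx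
    rw [Submodule.map_span] at h4
    refine Submodule.span_mono ?_ h4
    rintro _ ⟨_, ⟨i, rfl⟩, rfl⟩
    exact ⟨⟨b i, Submodule.subset_span ⟨i, rfl⟩⟩, rfl⟩
  have hcard : Fintype.card (Fin (finrank ℤ Γ)) = finrank ℝ (V ⧸ K) := by
    apply le_antisymm
    · rw [Fintype.card_fin]; exact hrange
    · have h5 := finrank_range_le_card (R := ℝ) (fun i => (c i : V ⧸ K))
      have h6 : finrank ℝ (V ⧸ K) = (Set.range (fun i => (c i : V ⧸ K))).finrank ℝ := by
        rw [Set.finrank, top_le_iff.mp hspan, finrank_top]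
      rw [h6]
      exact h5
  refine ⟨finrank ℤ Γ, basisOfTopLeSpanOfCardEqFinrank _ hspan hcard, ?_⟩
  rw [coe_basisOfTopLeSpanOfCardEqFinrank]
  have h7 : Submodule.span ℤ (Set.range (fun i => (c i : V ⧸ K))) = Γ := by
    have h8 : (Set.range (fun i => (c i : V ⧸ K))) = Γ.subtype '' (Set.range c) := by
      rw [← Set.range_comp]; rfl
    rw [h8, ← Submodule.map_span, c.span_eq, Submodule.map_top, Submodule.range_subtype]
  rw [h7, hΓ]
  ext y
  constructor
  · rintro ⟨⟨x, hx⟩, rfl⟩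
    exact ⟨x, hx, rfl⟩
  · rintro ⟨x, hx, rfl⟩
    exact ⟨⟨x, hx⟩, rfl⟩

end Pool.Agent.MP_e4ecdb_ag
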