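import Pool.Agent.MP_e4ecdb_ag.Defs
import Pool.Agent.MP_e4ecdb_ag.Linear
open Module

namespace Pool.Agent.MP_e4ecdb_ag

variable {V : Type} [AddCommGroup V] [Module ℂ V]

lemma herm_re_smul_add (H : V →ₗ⋆[ℂ] V →ₗ[ℂ] ℂ) (hh : ∀ x y, H x y = (starRingEnd ℂ) (H y x))
    (x y : V) (s : ℂ) : (H (s • x + y) (s • x + y)).re =
      Complex.normSq s * (H x x).re + 2 * ((starRingEnd ℂ) s * H x y).re + (H y y).re := by
  have h1 : H (s • x + y) (s • x + y) = (starRingEnd ℂ) s * s * H x x + (starRingEnd ℂ) s * H x y +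
      s * H y x + H y y := by
    simp only [map_add, LinearMap.map_smulₛₗ, LinearMap.add_apply, LinearMap.smul_apply, map_smul,
      smul_eq_mul]
    ring
  have h2 : (s * H y x).re = ((starRingEnd ℂ) s * H x y).re := by
    rw [hh x y]
    simp [Complex.mul_re]
  have h3 : ((starRingEnd ℂ) s * s * H x x).re = Complex.normSq s * (H x x).re := by
    rw [mul_comm ((starRingEnd ℂ) s) s, Complex.mul_conj]
    simp
  rw [h1, Complex.add_re, Complex.add_re, Complex.add_re, h2, h3]
  ring

lemma herm_zero_of_re_zero (H : V →ₗ⋆[ℂ] V →ₗ[ℂ] ℂ) (hh : ∀ x y, H x y = (starRingEnd ℂ) (H y x))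
    (hpos : ∀ x, 0 ≤ (H x x).re) (x : V) (hx : (H x x).re = 0) (y : V) : H x y = 0 := by
  by_contra hne
  have hn : 0 < Complex.normSq (H x y) := Complex.normSq_pos.mpr hne
  set t : ℝ := ((H y y).re + 1) / (2 * Complex.normSq (H x y)) with ht
  have h1 := hpos ((-(t : ℂ) * H x y) • x + y)
  rw [herm_re_smul_add H hh, hx, mul_zero, zero_add] at h1
  have h2 : ((starRingEnd ℂ) (-(t : ℂ) * H x y) * H x y).re = - t * Complex.normSq (H x y) := by
    rw [map_mul, map_neg, Complex.conj_ofReal, mul_assoc, mul_comm ((starRingEnd ℂ) (H x y)),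
      Complex.mul_conj]
    simp
  rw [h2, ht] at h1
  have h3 : ((H y y).re + 1) / (2 * Complex.normSq (H x y)) * Complex.normSq (H x y) =
      ((H y y).re + 1) / 2 := by
    field_simp
  nlinarith

/-- the kernel of a hermitian form -/
def kerForm (H : V →ₗ⋆[ℂ] V →ₗ[ℂ] ℂ) : Submodule ℂ V := LinearMap.ker H

lemma mem_kerForm (H : V →ₗ⋆[ℂ] V →ₗ[ℂ] ℂ) (x : V) : x ∈ kerForm H ↔ ∀ y, H x y = 0 := by
  unfold kerForm
  rw [LinearMap.mem_ker]
  constructor
  · intro h y; rw [h]; rfl
  · intro h; ext y; exact h y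

lemma kerForm_span {ι : Type} [Fintype ι] (b : Basis ι ℝ V) (H : V →ₗ⋆[ℂ] V →ₗ[ℂ] ℂ)
    (hint : ∀ i j, ∃ n : ℤ, (H (b i) (b j)).im = n) :
    (kerForm H).restrictScalars ℝ ≤
      Submodule.span ℝ {x | x ∈ Submodule.span ℤ (Set.range b) ∧ x ∈ (kerForm H).restrictScalars ℝ} := by
  choose M hM using hint
  have hexp : ∀ (y : ι → ℝ) (j : ι), (H (∑ i, y i • b i) (b j)).im = ∑ i, y i * (M i j : ℝ) := by
    intro y j
    rw [map_sum, LinearMap.sum_apply, Complex.im_sum]
    apply Finset.sum_congr rfl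
    intro i _
    have h1 : H (y i • b i) = (y i : ℂ) • H (b i) := by
      have : (y i • b i : V) = ((y i : ℂ)) • b i := by
        exact (Complex.coe_smul (y i) (b i)).symm
      rw [this, LinearMap.map_smulₛₗ, Complex.conj_ofReal]
    rw [h1, LinearMap.smul_apply, smul_eq_mul, Complex.im_ofReal_mul, hM]
  -- vanishing of the imaginary parts on the basis characterises the kernel
  have hker : ∀ y : ι → ℝ, (∀ j, ∑ i, y i * (M i j : ℝ) = 0) ↔ ∑ i, y i • b i ∈ kerForm H := by
    intro y
    rw [mem_kerForm]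
    constructor
    · intro h
      have him : ∀ z, (H (∑ i, y i • b i) z).im = 0 := by
        intro z
        rw [← b.sum_repr z, map_sum, Complex.im_sum]
        apply Finset.sum_eq_zero
        intro j _
        have h2 : (b.repr z j • b j : V) = ((b.repr z j : ℂ)) • b j :=
          (Complex.coe_smul (b.repr z j) (b j)).symm
        rw [h2, map_smul, smul_eq_mul, Complex.im_ofReal_mul, hexp, h j, mul_zero]
      intro z
      apply Complex.ext
      · have := him (Complex.I • z)
        rw [map_smul, smul_eq_mul, Complex.I_mul_im] at this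
        exact this
      · exact him z
    · intro h j
      rw [← hexp, h]
      rfl
  intro x hx
  have hx1 : x = ∑ i, b.repr x i • b i := (b.sum_repr x).symm
  have hx2 : ∀ j, ∑ i, b.repr x i * (M i j : ℝ) = 0 := by
    rw [hker, ← hx1]
    exact hx
  have hx3 := rational_kernel M (fun i => b.repr x i) hx2
  let Φ : (ι → ℝ) →ₗ[ℝ] V := b.equivFun.symm.toLinearMap
  have hΦ : ∀ y, Φ y = ∑ i, y i • b i := fun y => b.equivFun_symm_apply y
  have hx4 := Submodule.mem_map_of_mem (f := Φ) hx3
  rw [Submodule.map_span, hΦ, ← hx1] at hx4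
  refine Submodule.span_mono ?_ hx4
  rintro _ ⟨y, ⟨⟨z, rfl⟩, hy⟩, rfl⟩
  rw [hΦ]
  refine ⟨?_, (hker _).mp hy⟩
  apply Submodule.sum_mem
  intro i _
  rw [Int.cast_smul_eq_zsmul]
  exact Submodule.smul_mem _ _ (Submodule.subset_span ⟨i, rfl⟩)

/-- complementary isotropic subspaces of a symplectic space are half-dimensional -/
lemma finrank_of_isotropic_compl [FiniteDimensional ℂ V] (σ : LinearMap.BilinForm ℂ V)
    (hnd : ∀ x, (∀ y, σ x y = 0) → x = 0) (halt : ∀ x, σ x x = 0) (K K' : Submodule ℂ V)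
    (hK : ∀ x ∈ K, ∀ y ∈ K, σ x y = 0) (hK' : ∀ x ∈ K', ∀ y ∈ K', σ x y = 0)
    (hc : IsCompl K K') : 2 * finrank ℂ K = finrank ℂ V := by
  have hN : σ.Nondegenerate := by
    constructor
    · exact hnd
    · intro y hy
      apply hnd
      intro x
      have h1 := halt (x + y)
      simp only [map_add, LinearMap.add_apply, halt] at h1
      have h2 := hy x
      rw [h2] at h1
      simpa using h1
  have h1 : finrank ℂ (LinearMap.BilinForm.orthogonal σ K) = finrank ℂ V - finrank ℂ K :=
    LinearMap.BilinForm.finrank_orthogonal hN K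
  have h1' : finrank ℂ (LinearMap.BilinForm.orthogonal σ K') = finrank ℂ V - finrank ℂ K' :=
    LinearMap.BilinForm.finrank_orthogonal hN K'
  have h2 : K ≤ LinearMap.BilinForm.orthogonal σ K := by
    intro y hy x hx
    exact hK x hx y hy
  have h2' : K' ≤ LinearMap.BilinForm.orthogonal σ K' := by
    intro y hy x hx
    exact hK' x hx y hy
  have h3 := Submodule.finrank_mono h2
  have h3' := Submodule.finrank_mono h2'
  have h4 := Submodule.finrank_add_eq_of_isCompl hc
  omega

end Pool.Agent.MP_e4ecdb_ag
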