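import Pool.Agent.MP_e4ecdb_ag.KGeo
open Module

/-! The data attached to an irreducible lattice in dimension four. -/

namespace Pool.Agent.MP_e4ecdb_ag.DK

open BB DF

variable {V : Type} [NormedAddCommGroup V] [NormedSpace ℂ V] {G : Type} [Group G]
  {ι : Type}

lemma exists_J' [FiniteDimensional ℂ V] {ρ : Representation ℂ G V} {σ : LinearMap.BilinForm ℂ V}
    (hσ : IsPrimitiveSymplectic ρ σ) {h : V →ₗ⋆[ℂ] V →ₗ[ℂ] ℂ}
    (hp : ∀ x, x ≠ 0 → 0 < (h x x).re) (hh : h ∈ InvHerm ρ) :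
    ∃ J : V →ₗ[ℝ] V, (∀ (c : ℂ) x, J (c • x) = (starRingEnd ℂ) c • J x) ∧ J ∈ Cm ρ ∧
      (∀ x y, h (J x) y = σ x y) ∧ Function.Injective J := by
  set E := LinearEquiv.ofBijective h (surj_of_pos hp) with hE
  have hEs : ∀ x y, h (E.symm (σ x)) y = σ x y := by
    intro x y
    have h1 : h (E.symm (σ x)) = σ x := E.apply_symm_apply (σ x)
    rw [h1]
  have hsc : ∀ (c : ℂ) x, E.symm (σ (c • x)) = (starRingEnd ℂ) c • E.symm (σ x) := by
    intro c x
    rw [map_smul, LinearEquiv.map_smulₛₗ]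
  let J : V →ₗ[ℝ] V :=
    { toFun := fun x => E.symm (σ x)
      map_add' := fun x y => by rw [map_add, map_add]
      map_smul' := fun c x => by
        have h1 := hsc (c : ℂ) x
        rw [Complex.conj_ofReal] at h1
        exact h1 }
  have hJ : ∀ x y, h (J x) y = σ x y := hEs
  have hinj : Function.Injective J := by
    rw [injective_iff_map_eq_zero]
    intro x hx
    apply hσ.nondeg
    intro y
    rw [← hJ, hx, map_zero, LinearMap.zero_apply]
  refine ⟨J, hsc, fun g x => ?_, hJ, hinj⟩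
  apply (surj_of_pos hp).1
  apply LinearMap.ext
  intro y
  have h1 : y = ρ g (ρ g⁻¹ y) := by
    rw [← Module.End.mul_apply, ← map_mul, mul_inv_cancel, map_one]
    rfl
  rw [hJ, h1, hσ.inv, hh.2, hJ]

/-- the trace of a rational map is rational -/
lemma trace_rat [Fintype ι] (b : Basis ι ℝ V) (Z : V →ₗ[ℝ] V) {N : ℕ} (hN1 : 1 ≤ N)
    (hN : ∀ x ∈ Submodule.span ℤ (Set.range b), N • Z x ∈ Submodule.span ℤ (Set.range b)) :
    ∃ q : ℚ, (q : ℝ) = LinearMap.trace ℝ V Z := by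
  classical
  have h1 : ∀ i, ∃ k : ℤ, (k : ℝ) = N * b.repr (Z (b i)) i := by
    intro i
    have h2 := hN (b i) (Submodule.subset_span ⟨i, rfl⟩)
    obtain ⟨M, hM⟩ := (Submodule.mem_span_range_iff_exists_fun ℤ).1 h2
    refine ⟨M i, ?_⟩
    have h3 := congrArg (fun v => b.repr v i) hM
    rw [← Nat.cast_smul_eq_nsmul ℝ, map_smul, Finsupp.smul_apply, smul_eq_mul, map_sum,
      Finsupp.finsetSum_apply, Finset.sum_eq_single i] at h3
    · rw [← h3, ← Int.cast_smul_eq_zsmul ℝ, map_smul, Finsupp.smul_apply, b.repr_self,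
        Finsupp.single_eq_same, smul_eq_mul, mul_one]
    · intro j _ hj
      rw [← Int.cast_smul_eq_zsmul ℝ, map_smul, Finsupp.smul_apply, b.repr_self,
        Finsupp.single_eq_of_ne (Ne.symm hj), smul_zero]
    · intro hi
      exact absurd (Finset.mem_univ i) hi
  choose k hk using h1
  refine ⟨(∑ i, k i : ℤ) / N, ?_⟩
  have hN0 : (N : ℝ) ≠ 0 := by exact_mod_cast Nat.one_le_iff_ne_zero.1 hN1
  rw [LinearMap.trace_eq_matrix_trace ℝ b, Matrix.trace]
  push_cast
  rw [div_eq_iff hN0, Finset.sum_mul]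
  refine Finset.sum_congr rfl fun i _ => ?_
  rw [hk, Matrix.diag_apply, LinearMap.toMatrix_apply, mul_comm]

variable {W W' : Submodule ℂ V}

/-- central elements act by conjugate scalars -/
lemma re_rat [FiniteDimensional ℂ V] [Fintype ι] {ρ : Representation ℂ G V} {b : Basis ι ℝ V}
    {σ : LinearMap.BilinForm ℂ V}
    (hσ : IsPrimitiveSymplectic ρ σ) {h : V →ₗ⋆[ℂ] V →ₗ[ℂ] ℂ}
    (hp : ∀ x, x ≠ 0 → 0 < (h x x).re) (hh : h ∈ InvHerm ρ) (hc : IsCompl W W')
    (d1 : finrank ℂ W = 2) (d2 : finrank ℂ W' = 2)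
    (ho : ∀ x ∈ W, ∀ y ∈ W', h x y = 0) (hi : ∀ x ∈ W, ∀ y ∈ W, σ x y = 0)
    {c : Module.End ℂ V} (hcR : c ∈ RV ρ b) {z : ℂ} (hz : ∀ w ∈ W, c w = z • w) :
    ∃ q : ℚ, (q : ℝ) = z.re := by
  obtain ⟨J, J1, J2, J3, J4⟩ := exists_J' hσ hp hh
  have hV : FiniteDimensional ℝ V := FiniteDimensional.complexToReal V
  -- J maps W onto W'
  have hJW : ∀ w ∈ W, J w ∈ W' := by
    intro w hw
    obtain ⟨u, hu, u', hu', e⟩ := Submodule.mem_sup.1
      (hc.sup_eq_top ▸ Submodule.mem_top : J w ∈ W ⊔ W')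
    have h1 : h (J w) u = 0 := by rw [J3, hi w hw u hu]
    have h2 : h u' u = 0 := by rw [hh.1, ho u hu u' hu', map_zero]
    rw [← e, map_add, LinearMap.add_apply, h2, add_zero] at h1
    have h3 : u = 0 := by
      by_contra hne
      have := hp u hne
      rw [h1] at this
      simp at this
    rw [← e, h3, zero_add]
    exact hu'
  have hr1 : finrank ℝ (W.restrictScalars ℝ) = 4 := by
    rw [show finrank ℝ (W.restrictScalars ℝ) = 2 * finrank ℂ W from finrank_real_of_complex W, d1]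
  have hr2 : finrank ℝ (W'.restrictScalars ℝ) = 4 := by
    rw [show finrank ℝ (W'.restrictScalars ℝ) = 2 * finrank ℂ W' from finrank_real_of_complex W', d2]
  have hmap : (W.restrictScalars ℝ).map J = W'.restrictScalars ℝ := by
    apply Submodule.eq_of_le_of_finrank_eq
    · rintro _ ⟨w, hw, rfl⟩
      exact hJW w hw
    · rw [hr2, ← hr1]
      exact (LinearEquiv.finrank_eq ((W.restrictScalars ℝ).equivMapOfInjective J J4)).symm
  have hz' : ∀ w' ∈ W', c w' = (starRingEnd ℂ) z • w' := by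
    intro w' hw'
    have h1 : w' ∈ (W.restrictScalars ℝ).map J := by rw [hmap]; exact hw'
    obtain ⟨w, hw, rfl⟩ := h1
    rw [← hcR.1 J J2, hz w hw, J1]
  -- the trace
  let φ : W ≃ₗ[ℂ] W' := LinearEquiv.ofFinrankEq W W' (by rw [d1, d2])
  let e : (W × W') ≃ₗ[ℂ] V := W.prodEquivOfIsCompl W' hc
  have he : ∀ p : W × W', e p = (p.1 : V) + (p.2 : V) := fun p => by
    rw [Submodule.coe_prodEquivOfIsCompl']
  let m1 : W →ₗ[ℝ] W := (z • (1 : Module.End ℂ W)).restrictScalars ℝ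
  let m2 : W' →ₗ[ℝ] W' := ((starRingEnd ℂ) z • (1 : Module.End ℂ W')).restrictScalars ℝ
  let m3 : W →ₗ[ℝ] W := ((starRingEnd ℂ) z • (1 : Module.End ℂ W)).restrictScalars ℝ
  have hconj : (e.restrictScalars ℝ).conj (m1.prodMap m2) = c.restrictScalars ℝ := by
    apply LinearMap.ext
    intro x
    obtain ⟨p, rfl⟩ := e.surjective x
    rw [LinearEquiv.conj_apply_apply]
    have h1 : (e.restrictScalars ℝ).symm (e p) = p := e.symm_apply_apply p
    rw [h1]
    change e (m1.prodMap m2 p) = c (e p)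
    rw [he, he, map_add, hz _ p.1.2, hz' _ p.2.2]
    rfl
  have htr : LinearMap.trace ℝ V (c.restrictScalars ℝ) = 8 * z.re := by
    rw [← hconj, LinearMap.trace_conj', LinearMap.trace_prodMap']
    have h2 : LinearMap.trace ℝ W' m2 = LinearMap.trace ℝ W m3 := by
      have h3 : (φ.restrictScalars ℝ).conj m3 = m2 := by
        apply LinearMap.ext
        intro x
        rw [LinearEquiv.conj_apply_apply]
        change φ ((starRingEnd ℂ) z • φ.symm x) = (starRingEnd ℂ) z • x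
        rw [map_smul, LinearEquiv.apply_symm_apply]
      rw [← h3, LinearMap.trace_conj']
    have h4 : m1 + m3 = (2 * z.re) • (LinearMap.id : W →ₗ[ℝ] W) := by
      apply LinearMap.ext
      intro x
      change z • x + (starRingEnd ℂ) z • x = (2 * z.re) • x
      rw [← add_smul, Complex.add_conj]
      rfl
    rw [h2, ← map_add, h4, map_smul, LinearMap.trace_id]
    have h5 : finrank ℝ W = 4 := hr1
    rw [h5, smul_eq_mul]
    push_cast
    ring
  obtain ⟨N, hN1, hN⟩ := hcR.2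
  obtain ⟨q, hq⟩ := trace_rat b (c.restrictScalars ℝ) hN1 hN
  refine ⟨q / 8, ?_⟩
  push_cast
  rw [hq, htr]
  ring

end Pool.Agent.MP_e4ecdb_ag.DK
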