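import Mathlib
open Matrix

/-! A finite group spanning a division ring inside the 2 x 2 matrices: basic facts. -/

namespace Pool.Agent.MP_e4ecdb_ag.DK

abbrev M2 := Matrix (Fin 2) (Fin 2) ℂ

lemma ch (g : M2) : g * g = g.trace • g - g.det • (1 : M2) := by
  ext i j
  fin_cases i <;> fin_cases j <;>
    simp [Matrix.mul_apply, Fin.sum_univ_two, Matrix.trace_fin_two, Matrix.det_fin_two] <;> ring

lemma pol (h k : M2) : h * k + k * h = h.trace • k + k.trace • h +
    ((h * k).trace - h.trace * k.trace) • (1 : M2) := by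
  ext i j
  fin_cases i <;> fin_cases j <;>
    simp [Matrix.mul_apply, Fin.sum_univ_two, Matrix.trace_fin_two] <;> ring

lemma tr_sq (g : M2) : (g * g).trace = g.trace ^ 2 - 2 * g.det := by
  simp [Matrix.mul_apply, Fin.sum_univ_two, Matrix.trace_fin_two, Matrix.det_fin_two]
  ring

lemma tr_smul (c : ℂ) (g : M2) : (c • g).trace = c * g.trace := by
  rw [Matrix.trace_smul, smul_eq_mul]

lemma tr_one : (1 : M2).trace = 2 := by
  simp

lemma det_smul2 (c : ℂ) (g : M2) : (c • g).det = c ^ 2 * g.det := by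
  rw [Matrix.det_smul]
  simp

/-- inverse of a matrix of determinant one -/
lemma inv_one {h h' : M2} (h1 : h.det = 1) (hh : h * h' = 1) : h' = h.trace • (1 : M2) - h := by
  have e1 : h * (h.trace • (1 : M2) - h) = 1 := by
    rw [mul_sub, ch, h1, mul_smul_comm, mul_one, one_smul]
    abel
  have e2 : h' * h = 1 := by
    rw [mul_eq_one_comm]
    exact hh
  calc h' = h' * (h * (h.trace • (1 : M2) - h)) := by rw [e1, mul_one]
    _ = _ := by rw [← mul_assoc, e2, one_mul]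

lemma tr_pair {h k k' : M2} (k1 : k.det = 1) (hk : k * k' = 1) :
    (h * k).trace + (h * k').trace = h.trace * k.trace := by
  rw [inv_one k1 hk, mul_sub, mul_smul_comm, mul_one, Matrix.trace_sub, tr_smul]
  ring

/-- trace of a commutator -/
lemma tr_comm {h g h' g' : M2} (h1 : h.det = 1) (hh : h * h' = 1) (hg : g * g' = 1) :
    g.det * (h * g * h' * g').trace = g.det * h.trace ^ 2 + g.trace ^ 2 + (h * g).trace ^ 2 -
      h.trace * g.trace * (h * g).trace - 2 * g.det := by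
  have e1 := inv_one h1 hh
  have hd : g.det * g'.det = 1 := by rw [← Matrix.det_mul, hg, Matrix.det_one]
  have hd0 : g.det ≠ 0 := left_ne_zero_of_mul_eq_one hd
  have e2 : g.det • g' = g.trace • (1 : M2) - g := by
    have e3 : g * (g.trace • (1 : M2) - g) = g.det • (1 : M2) := by
      rw [mul_sub, ch, mul_smul_comm, mul_one]
      abel
    have e4 : g' * g = 1 := by
      rw [mul_eq_one_comm]
      exact hg
    calc g.det • g' = g' * (g * (g.trace • (1 : M2) - g)) := by rw [e3, mul_smul_comm, mul_one]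
      _ = _ := by rw [← mul_assoc, e4, one_mul]
  have e5 : g.det * (h * g * h' * g').trace = (h * g * h' * (g.det • g')).trace := by
    rw [mul_smul_comm, tr_smul]
  rw [e5, e2, e1]
  rw [Matrix.det_fin_two] at h1
  simp [Matrix.mul_apply, Fin.sum_univ_two, Matrix.trace_fin_two, Matrix.det_fin_two]
  linear_combination (g 0 0 ^ 2 + 2 * g 0 1 * g 1 0 + g 1 1 ^ 2) * h1

/-- eigenvalues of a matrix of finite order -/
lemma eig {g : M2} {m : ℕ} (hg : g ^ m = 1) : ∃ l u : ℂ, l + u = g.trace ∧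
    l * u = g.det ∧ l ^ m = 1 ∧ u ^ m = 1 := by
  have key : ∀ l : ℂ, l ^ 2 - g.trace * l + g.det = 0 → l ^ m = 1 := by
    intro l hl
    have h1 : (g - l • (1 : M2)).det = 0 := by
      rw [Matrix.det_fin_two] at hl ⊢
      rw [Matrix.trace_fin_two] at hl
      simp
      linear_combination hl
    obtain ⟨v, hv, hv0⟩ := Matrix.exists_mulVec_eq_zero_iff.2 h1
    have h2 : g *ᵥ v = l • v := by
      rw [Matrix.sub_mulVec, Matrix.smul_mulVec, Matrix.one_mulVec, sub_eq_zero] at hv0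
      exact hv0
    have h3 : ∀ k : ℕ, (g ^ k) *ᵥ v = l ^ k • v := by
      intro k
      induction k with
      | zero => simp
      | succ k ih => rw [pow_succ, ← Matrix.mulVec_mulVec, h2, Matrix.mulVec_smul, ih, smul_smul,
          pow_succ, mul_comm]
    have h4 := h3 m
    rw [hg, Matrix.one_mulVec] at h4
    have h5 : (l ^ m - 1) • v = 0 := by rw [sub_smul, one_smul, ← h4, sub_self]
    exact sub_eq_zero.1 ((smul_eq_zero.1 h5).resolve_right hv)
  obtain ⟨s, hs⟩ := IsAlgClosed.exists_pow_nat_eq (g.trace ^ 2 - 4 * g.det) (n := 2) (by norm_num)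
  refine ⟨(g.trace + s) / 2, (g.trace - s) / 2, by ring, ?_, key _ ?_, key _ ?_⟩
  · linear_combination (-1 / 4) * hs
  · linear_combination (1 / 4) * hs
  · linear_combination (1 / 4) * hs

lemma conj_root {l : ℂ} {m : ℕ} (hm : 1 ≤ m) (hl : l ^ m = 1) : l * (starRingEnd ℂ) l = 1 := by
  have h1 : ‖l‖ = 1 := Complex.norm_eq_one_of_pow_eq_one hl (by omega)
  rw [Complex.mul_conj, Complex.normSq_eq_norm_sq, h1]
  norm_num

/-- an algebraic integer of the form `l + u`, with roots of unity `l`, `u`, which is rational -/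
lemma int_of_rat {l u : ℂ} {m : ℕ} (hm : 1 ≤ m) (hl : l ^ m = 1) (hu : u ^ m = 1) {q : ℚ}
    (hq : l + u = q) : ∃ k : ℤ, -2 ≤ k ∧ k ≤ 2 ∧ l + u = k := by
  have i1 : ∀ z : ℂ, z ^ m = 1 → IsIntegral ℤ z := by
    intro z hz
    have : IsIntegral ℤ (z ^ m) := by
      rw [hz]
      exact isIntegral_one
    exact this.of_pow (by omega)
  have i2 : IsIntegral ℤ (q : ℂ) := by
    rw [← hq]
    exact (i1 l hl).add (i1 u hu)
  have i3 : IsIntegral ℤ q := by
    have : IsIntegral ℤ (algebraMap ℚ ℂ q) := i2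
    rwa [isIntegral_algebraMap_iff (algebraMap ℚ ℂ).injective] at this
  obtain ⟨k, hk⟩ := IsIntegrallyClosed.isIntegral_iff.1 i3
  have hk2 : (k : ℚ) = q := hk
  have hk3 : l + u = (k : ℂ) := by
    rw [hq, ← hk2]
    norm_cast
  have hn : ‖l + u‖ ≤ 2 := by
    calc ‖l + u‖ ≤ ‖l‖ + ‖u‖ := norm_add_le _ _
      _ = 2 := by
        rw [Complex.norm_eq_one_of_pow_eq_one hl (by omega),
          Complex.norm_eq_one_of_pow_eq_one hu (by omega)]
        norm_num
  rw [hk3] at hn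
  have hn2 : |(k : ℝ)| ≤ 2 := by
    have e1 : ‖(k : ℂ)‖ = |(k : ℝ)| := by
      rw [← Complex.ofReal_intCast, Complex.norm_real, Real.norm_eq_abs]
    rwa [← e1]
  rw [abs_le] at hn2
  refine ⟨k, by exact_mod_cast hn2.1, by exact_mod_cast hn2.2, hk3⟩

/-- the data -/
structure Data (R : Subring M2) (G : Submonoid M2) : Prop where
  sub : ∀ g ∈ G, g ∈ R
  fin : ∀ g ∈ G, ∃ m : ℕ, 1 ≤ m ∧ g ^ m = 1
  tr : ∀ g ∈ G, g.trace • (1 : M2) ∈ R
  re : ∀ c : ℂ, c • (1 : M2) ∈ R → ∃ q : ℚ, (q : ℝ) = c.re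
  rat : ∀ q : ℚ, (q : ℂ) • (1 : M2) ∈ R
  dom : ∀ a ∈ R, ∀ b ∈ R, a * b = 0 → a = 0 ∨ b = 0
  scl : ∀ s : ℂ, s • (1 : M2) ∈ R → s ^ 12 = 1 → ∀ g ∈ G, s • g ∈ G
  irr : ∀ a : M2, (∀ g ∈ G, a * g = g * a) → ∃ c : ℂ, a = c • (1 : M2)
  det : ∃ g ∈ G, g.det ≠ 1

/-- the scalars -/
def S (R : Subring M2) : Subring ℂ := R.comap (algebraMap ℂ M2)

lemma mem_S {R : Subring M2} {c : ℂ} : c ∈ S R ↔ c • (1 : M2) ∈ R := by
  rw [S, Subring.mem_comap, Algebra.algebraMap_eq_smul_one]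

variable {R : Subring M2} {G : Submonoid M2}

namespace Data

lemma smul_mem (_D : Data R G) {c : ℂ} (hc : c ∈ S R) {a : M2} (ha : a ∈ R) : c • a ∈ R := by
  have := R.mul_mem (mem_S.1 hc) ha
  rwa [smul_mul_assoc, one_mul] at this

lemma rat_mem (D : Data R G) (q : ℚ) : (q : ℂ) ∈ S R := mem_S.2 (D.rat q)

lemma tr_mem (D : Data R G) {g : M2} (hg : g ∈ G) : g.trace ∈ S R := mem_S.2 (D.tr g hg)

lemma det_mem (D : Data R G) {g : M2} (hg : g ∈ G) : g.det ∈ S R := by
  have h1 := D.tr_mem hg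
  have h2 := D.tr_mem (G.mul_mem hg hg)
  rw [tr_sq] at h2
  have h3 : g.det = ((1 / 2 : ℚ) : ℂ) * (g.trace ^ 2 - (g.trace ^ 2 - 2 * g.det)) := by
    push_cast
    ring
  rw [h3]
  exact (S R).mul_mem (D.rat_mem _) ((S R).sub_mem ((S R).pow_mem h1 2) h2)

lemma conj_mem (D : Data R G) {c : ℂ} (hc : c ∈ S R) : (starRingEnd ℂ) c ∈ S R := by
  obtain ⟨q, hq⟩ := D.re c (mem_S.1 hc)
  have h1 : (starRingEnd ℂ) c = ((2 * q : ℚ) : ℂ) - c := by
    apply Complex.ext
    · have e1 : (((2 * q : ℚ) : ℂ)).re = 2 * (q : ℝ) := by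
        rw [← Complex.ofReal_ratCast, Complex.ofReal_re]
        push_cast
        ring
      rw [Complex.conj_re, Complex.sub_re, e1, hq]
      ring
    · have e1 : (((2 * q : ℚ) : ℂ)).im = 0 := by
        rw [← Complex.ofReal_ratCast, Complex.ofReal_im]
      rw [Complex.conj_im, Complex.sub_im, e1]
      ring
  rw [h1]
  exact (S R).sub_mem (D.rat_mem _) hc

/-- inverses -/
lemma inv (D : Data R G) {g : M2} (hg : g ∈ G) : ∃ g' ∈ G, g * g' = 1 ∧ g' * g = 1 := by
  obtain ⟨m, hm, h1⟩ := D.fin g hg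
  refine ⟨g ^ (m - 1), G.pow_mem hg _, ?_, ?_⟩
  · rw [← pow_succ', Nat.sub_add_cancel hm, h1]
  · rw [← pow_succ, Nat.sub_add_cancel hm, h1]

lemma det_ne (D : Data R G) {g : M2} (hg : g ∈ G) : g.det ≠ 0 := by
  obtain ⟨g', -, h1, -⟩ := D.inv hg
  have : g.det * g'.det = 1 := by rw [← Matrix.det_mul, h1, Matrix.det_one]
  exact left_ne_zero_of_mul_eq_one this

/-- `t = n * conj t` -/
lemma tr_conj (D : Data R G) {g : M2} (hg : g ∈ G) :
    g.trace = g.det * (starRingEnd ℂ) g.trace ∧ g.det * (starRingEnd ℂ) g.det = 1 := by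
  obtain ⟨m, hm, h1⟩ := D.fin g hg
  obtain ⟨l, u, e1, e2, e3, e4⟩ := eig h1
  have c1 := conj_root hm e3
  have c2 := conj_root hm e4
  rw [← e1, ← e2, map_add, map_mul]
  constructor
  · linear_combination (-u) * c1 + (-l) * c2
  · linear_combination (u * (starRingEnd ℂ) u) * c1 + c2

/-- traces of elements of determinant one -/
lemma tr_int (D : Data R G) {h : M2} (hh : h ∈ G) (h1 : h.det = 1) :
    ∃ k : ℤ, -2 ≤ k ∧ k ≤ 2 ∧ h.trace = k := by
  obtain ⟨m, hm, h2⟩ := D.fin h hh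
  obtain ⟨l, u, e1, e2, e3, e4⟩ := eig h2
  obtain ⟨q, hq⟩ := D.re _ (D.tr h hh)
  have h3 := (D.tr_conj hh).1
  rw [h1, one_mul] at h3
  have h4 : l + u = (q : ℂ) := by
    rw [e1]
    have h5 : (h.trace).im = 0 := by
      have := congrArg Complex.im h3
      rw [Complex.conj_im] at this
      linarith
    apply Complex.ext
    · rw [← hq, ← Complex.ofReal_ratCast, Complex.ofReal_re]
    · rw [h5, ← Complex.ofReal_ratCast, Complex.ofReal_im]
  obtain ⟨k, k1, k2, k3⟩ := int_of_rat hm e3 e4 h4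
  exact ⟨k, k1, k2, by rw [← e1, k3]⟩

/-- determinants -/
lemma det_int (D : Data R G) {g : M2} (hg : g ∈ G) :
    ∃ k : ℤ, -2 ≤ k ∧ k ≤ 2 ∧ g.det ^ 2 - k * g.det + 1 = 0 := by
  obtain ⟨m, hm, h2⟩ := D.fin g hg
  have h3 := (D.tr_conj hg).2
  have h4 : g.det ^ m = 1 := by rw [← Matrix.det_pow, h2, Matrix.det_one]
  have h5 : ((starRingEnd ℂ) g.det) ^ m = 1 := by rw [← map_pow, h4, map_one]
  obtain ⟨q, hq⟩ := D.re _ (mem_S.1 (D.det_mem hg))
  have h6 : g.det + (starRingEnd ℂ) g.det = ((2 * q : ℚ) : ℂ) := by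
    rw [Complex.add_conj, ← hq]
    push_cast
    ring
  obtain ⟨k, k1, k2, k3⟩ := int_of_rat hm h4 h5 h6
  exact ⟨k, k1, k2, by linear_combination g.det * k3 - h3⟩

lemma eq_one (D : Data R G) {h : M2} (hh : h ∈ R) (h1 : h.det = 1) (h2 : h.trace = 2) : h = 1 := by
  have e1 : (h - 1) * (h - 1) = 0 := by
    rw [mul_sub, sub_mul, ch, h1, h2, one_smul, two_smul, mul_one, one_mul]
    abel
  have := D.dom _ (R.sub_mem hh R.one_mem) _ (R.sub_mem hh R.one_mem) e1
  rcases this with h | h <;> exact sub_eq_zero.1 h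

lemma eq_neg_one (D : Data R G) {h : M2} (hh : h ∈ R) (h1 : h.det = 1) (h2 : h.trace = -2) :
    h = -1 := by
  have e1 : (h + 1) * (h + 1) = 0 := by
    rw [mul_add, add_mul, ch, h1, h2, one_smul, neg_smul, two_smul, mul_one, one_mul]
    abel
  have := D.dom _ (R.add_mem hh R.one_mem) _ (R.add_mem hh R.one_mem) e1
  rcases this with h | h <;> exact eq_neg_of_add_eq_zero_left h

/-- an element of square one is plus or minus one -/
lemma sq_one (D : Data R G) {e : M2} (he : e ∈ R) (h : e * e = 1) : e = 1 ∨ e = -1 := by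
  have e1 : (e - 1) * (e + 1) = 0 := by
    rw [mul_add, sub_mul, h, mul_one, one_mul]
    abel
  rcases D.dom _ (R.sub_mem he R.one_mem) _ (R.add_mem he R.one_mem) e1 with h | h
  · exact Or.inl (sub_eq_zero.1 h)
  · exact Or.inr (eq_neg_of_add_eq_zero_left h)

/-- the group is not contained in the scalars -/
lemma not_scalar (D : Data R G) (h : ∀ g ∈ G, ∀ k ∈ G, g * k = k * g) : False := by
  have h1 : ∀ g ∈ G, ∃ c : ℂ, g = c • (1 : M2) := fun g hg => D.irr g fun k hk => h g hg k hk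
  obtain ⟨c, hc⟩ := D.irr !![0, 1; 0, 0] (fun g hg => by
    obtain ⟨c, rfl⟩ := h1 g hg
    rw [mul_smul_comm, smul_mul_assoc, mul_one, one_mul])
  have := congrFun (congrFun hc 0) 1
  simp at this

end Data

end Pool.Agent.MP_e4ecdb_ag.DK
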