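import Pool.Agent.MP_e4ecdb_ag.KBase
open Matrix

/-! The cases with more roots of unity. -/

namespace Pool.Agent.MP_e4ecdb_ag.DK

variable {R : Subring M2} {G : Submonoid M2}

lemma nsq (n : ℕ) (hn : ¬ IsSquare n) (q : ℚ) : q ^ 2 ≠ n := by
  intro h
  apply hn
  rw [← Rat.isSquare_natCast_iff]
  exact ⟨q, by rw [← h, sq]⟩

lemma ns {m : ℕ} (hm : m = 2 ∨ m = 3 ∨ m = 6 ∨ m = 8 ∨ m = 12) : ¬ IsSquare m := by
  rintro ⟨r, hr⟩
  have h1 : r < 4 := by
    by_contra h
    push Not at h
    have : 4 * 4 ≤ r * r := Nat.mul_le_mul h h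
    omega
  interval_cases r <;> omega

lemma cancel_left {x x' a b : M2} (hx : x' * x = 1) (h : x * a = x * b) : a = b := by
  have : x' * (x * a) = x' * (x * b) := by rw [h]
  rwa [← mul_assoc, ← mul_assoc, hx, one_mul, one_mul] at this

lemma smul_comm_iff {c : ℂ} (hc : c ≠ 0) {a b : M2} (h : (c • a) * b = b * (c • a)) :
    a * b = b * a := by
  rw [smul_mul_assoc, mul_smul_comm] at h
  exact smul_right_injective M2 hc h

namespace Data

/-- Case II: `i` is a scalar -/
lemma case_two (D : Data R G) (hI : Complex.I ∈ S R) : False := by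
  have hI2 : Complex.I ^ 2 = -1 := Complex.I_sq
  have hI0 : Complex.I ≠ 0 := Complex.I_ne_zero
  have scI : ∀ g ∈ G, Complex.I • g ∈ G := D.scl Complex.I (mem_S.1 hI) (by
    have : Complex.I ^ 12 = (Complex.I ^ 2) ^ 6 := by ring
    rw [this, hI2]
    norm_num)
  have hneg : ∀ g ∈ G, -g ∈ G := by
    intro g hg
    have := scI _ (scI g hg)
    rwa [smul_smul, Complex.I_mul_I, neg_one_smul] at this
  have hrat : ∀ c ∈ S R, ∃ p q : ℚ, c = p + q * Complex.I := by
    intro c hc
    obtain ⟨p, hp⟩ := D.re c (mem_S.1 hc)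
    obtain ⟨q, hq⟩ := D.re _ (mem_S.1 ((S R).mul_mem ((S R).neg_mem hI) hc))
    refine ⟨p, q, ?_⟩
    apply Complex.ext
    · rw [← Complex.ofReal_ratCast, ← Complex.ofReal_ratCast, hp]
      simp
    · rw [← Complex.ofReal_ratCast, ← Complex.ofReal_ratCast, hq]
      simp
  -- (a)
  have ha : ∀ h ∈ G, h.det = 1 → h.trace ≠ 0 := by
    intro h hh hd ht
    have e1 : (h - Complex.I • (1 : M2)) * (h + Complex.I • (1 : M2)) = 0 := by
      rw [mul_add, sub_mul, sub_mul, ch, hd, ht, zero_smul, one_smul, mul_smul_comm,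
        smul_mul_assoc, smul_mul_smul_comm, Complex.I_mul_I, mul_one, one_mul, mul_one,
        neg_one_smul]
      abel
    have e2 : h.det = -1 := by
      rcases D.dom _ (R.sub_mem (D.sub h hh) (mem_S.1 hI)) _
        (R.add_mem (D.sub h hh) (mem_S.1 hI)) e1 with h' | h'
      · rw [sub_eq_zero.1 h', det_smul2, hI2, Matrix.det_one, mul_one]
      · rw [eq_neg_of_add_eq_zero_left h', ← neg_smul, det_smul2, neg_sq, hI2, Matrix.det_one,
          mul_one]
    rw [hd] at e2
    norm_num at e2
  -- traces of elements of determinant one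
  have htr : ∀ h ∈ G, h.det = 1 → (h = 1 ∨ h = -1) ∨ h.trace = 1 ∨ h.trace = -1 := by
    intro h hh hd
    obtain ⟨k, k1, k2, k3⟩ := D.tr_int hh hd
    have k0 := ha h hh hd
    interval_cases k
    · left; right
      exact D.eq_neg_one (D.sub h hh) hd (by rw [k3]; norm_num)
    · right; right
      rw [k3]; norm_num
    · exact absurd (by rw [k3]; norm_num) k0
    · right; left
      rw [k3]; norm_num
    · left; left
      exact D.eq_one (D.sub h hh) hd (by rw [k3]; norm_num)
  -- (b)
  have hab : ∀ h ∈ G, h.det = 1 → ∀ k ∈ G, k.det = 1 → h * k = k * h := by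
    intro h hh hd k hk kd
    rcases htr h hh hd with (rfl | rfl) | t1
    · rw [one_mul, mul_one]
    · rw [neg_mul, mul_neg, one_mul, mul_one]
    rcases htr k hk kd with (rfl | rfl) | t2
    · rw [one_mul, mul_one]
    · rw [neg_mul, mul_neg, one_mul, mul_one]
    obtain ⟨k', hk', kk1, kk2⟩ := D.inv hk
    have kd' : k'.det = 1 := by
      have : k.det * k'.det = 1 := by rw [← Matrix.det_mul, kk1, Matrix.det_one]
      rwa [kd, one_mul] at this
    have e1 := tr_pair (h := h) kd kk1
    have d1 : (h * k).det = 1 := by rw [Matrix.det_mul, hd, kd, one_mul]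
    have d2 : (h * k').det = 1 := by rw [Matrix.det_mul, hd, kd', one_mul]
    have c1 : ∀ c : M2, (∀ a : M2, c * a = a * c) → h * k = c → h * k = k * h := by
      intro c hc e
      obtain ⟨h', hh', hh1, hh2⟩ := D.inv hh
      apply cancel_left hh2
      rw [← mul_assoc h k h, e, hc]
    have c2 : ∀ c : M2, (∀ a : M2, c * a = a * c) → h * k' = c → h * k = k * h := by
      intro c hc e
      have : h = c * k := by rw [← e, mul_assoc, kk2, mul_one]
      rw [this, mul_assoc, ← mul_assoc k c k, ← hc k, mul_assoc]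
    have o1 : ∀ a : M2, 1 * a = a * 1 := fun a => by rw [one_mul, mul_one]
    have o2 : ∀ a : M2, (-1) * a = a * (-1) := fun a => by rw [neg_mul, mul_neg, one_mul, mul_one]
    rcases htr _ (G.mul_mem hh hk) d1 with (s1 | s1) | s1
    · exact c1 _ o1 s1
    · exact c1 _ o2 s1
    rcases htr _ (G.mul_mem hh hk') d2 with (s2 | s2) | s2
    · exact c2 _ o1 s2
    · exact c2 _ o2 s2
    exfalso
    rcases t1 with t1 | t1 <;> rcases t2 with t2 | t2 <;> rcases s1 with s1 | s1 <;>
      rcases s2 with s2 | s2 <;> rw [t1, t2, s1, s2] at e1 <;> norm_num at e1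
  -- elements of even type commute with elements of determinant one
  have hev : ∀ y ∈ G, y.det = 1 ∨ y.det = -1 → ∀ h ∈ G, h.det = 1 → y * h = h * y := by
    intro y hy hd h hh hd'
    rcases hd with hd | hd
    · exact hab y hy hd h hh hd'
    · have e1 : (Complex.I • y).det = 1 := by rw [det_smul2, hI2, hd]; norm_num
      exact smul_comm_iff hI0 (hab _ (scI y hy) e1 h hh hd')
  -- the determinants
  have hdet : ∀ y ∈ G, (y.det = 1 ∨ y.det = -1) ∨ (y.det = Complex.I ∨ y.det = -Complex.I) := by
    intro y hy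
    obtain ⟨k, k1, k2, k3⟩ := D.det_int hy
    have odd : ∀ k : ℤ, y.det ^ 2 - k * y.det + 1 = 0 → k ^ 2 = 1 → False := by
      intro k k3 hk
      obtain ⟨p, q, hpq⟩ := hrat _ (D.det_mem hy)
      rw [hpq] at k3
      have r1 := congrArg Complex.re k3
      have r2 := congrArg Complex.im k3
      simp [sq] at r1 r2
      have hkr : (k : ℝ) * k = 1 := by
        have : k * k = 1 := by rw [← sq]; exact hk
        exact_mod_cast this
      have r3 : (q : ℝ) * (2 * p - k) = 0 := by linear_combination r2
      rcases mul_eq_zero.1 r3 with h | h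
      · rw [h] at r1
        nlinarith [sq_nonneg ((p : ℝ) - k / 2)]
      · have h2 : (2 * q : ℝ) ^ 2 = 3 := by
          have : (p : ℝ) = k / 2 := by linarith
          rw [this] at r1
          nlinarith
        have h3 : (2 * q : ℚ) ^ 2 = (3 : ℕ) := by exact_mod_cast h2
        exact nsq 3 (ns (by norm_num)) _ h3
    interval_cases k
    · left; right
      have : (y.det + 1) ^ 2 = 0 := by
        push_cast at k3
        linear_combination k3
      exact eq_neg_of_add_eq_zero_left (pow_eq_zero_iff (two_ne_zero) |>.1 this)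
    · exact (odd (-1) k3 (by norm_num)).elim
    · right
      have h1 : (y.det - Complex.I) * (y.det + Complex.I) = 0 := by
        push_cast at k3
        linear_combination k3 - Complex.I_mul_I
      rcases mul_eq_zero.1 h1 with h | h
      · left; exact sub_eq_zero.1 h
      · right; exact eq_neg_of_add_eq_zero_left h
    · exact (odd 1 k3 (by norm_num)).elim
    · left; left
      have : (y.det - 1) ^ 2 = 0 := by
        push_cast at k3
        linear_combination k3
      exact sub_eq_zero.1 (pow_eq_zero_iff (two_ne_zero) |>.1 this)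
  by_cases hx : ∃ x ∈ G, x.det = Complex.I ∨ x.det = -Complex.I
  swap
  · apply D.not_scalar
    push Not at hx
    have he : ∀ y ∈ G, y.det = 1 ∨ y.det = -1 := fun y hy =>
      (hdet y hy).resolve_right fun h => by
        rcases h with h | h
        · exact (hx y hy).1 h
        · exact (hx y hy).2 h
    intro g hg k hk
    rcases he k hk with h | h
    · exact hev g hg (he g hg) k hk h
    · have e1 : (Complex.I • k).det = 1 := by rw [det_smul2, hI2, h]; norm_num
      exact (smul_comm_iff hI0 (hev g hg (he g hg) _ (scI k hk) e1).symm).symm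
  obtain ⟨x, hxG, hxd⟩ := hx
  set n := x.det with hn
  have hn2 : n ^ 2 = -1 := by
    rcases hxd with h | h
    · rw [h, hI2]
    · rw [h, neg_sq, hI2]
  have hn0 : n ≠ 0 := by
    intro h
    rw [h] at hn2
    norm_num at hn2
  have hnS : n ∈ S R := D.det_mem hxG
  obtain ⟨x', hx', xx1, xx2⟩ := D.inv hxG
  -- products with x of odd elements are even
  have hodd : ∀ y ∈ G, ¬ (y.det = 1 ∨ y.det = -1) → (x * y).det = 1 ∨ (x * y).det = -1 := by
    intro y hy h
    have h1 := (hdet y hy).resolve_left h
    have : ((x * y).det) ^ 2 = 1 := by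
      rw [Matrix.det_mul, mul_pow, hn2]
      rcases h1 with h1 | h1
      · rw [h1, hI2]; norm_num
      · rw [h1, neg_sq, hI2]; norm_num
    have h2 : ((x * y).det - 1) * ((x * y).det + 1) = 0 := by linear_combination this
    rcases mul_eq_zero.1 h2 with h3 | h3
    · left; exact sub_eq_zero.1 h3
    · right; exact eq_neg_of_add_eq_zero_left h3
  -- the trace of x vanishes
  have ht : x.trace = 0 := by
    obtain ⟨p, q, hpq⟩ := hrat _ (D.tr_mem hxG)
    have h1 := (D.tr_conj hxG).1
    have hyd : (Complex.I • (x * x)).det = 1 := by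
      rw [det_smul2, Matrix.det_mul, ← sq, hn2, hI2]
      norm_num
    have hyG := scI _ (G.mul_mem hxG hxG)
    obtain ⟨k, k1, k2, k3⟩ := D.tr_int hyG hyd
    have k0 := ha _ hyG hyd
    rw [tr_smul, tr_sq, ← hn] at k3 k0
    rw [← hn] at h1
    have hp2 : ∀ m : ℕ, ¬ IsSquare m → (2 * p : ℚ) ^ 2 ≠ m := fun m hm => nsq m hm _
    have key : (q : ℝ) ^ 2 = (p : ℝ) ^ 2 ∧ ((k : ℝ) = 2 - 2 * p ^ 2 ∨ (k : ℝ) = 2 * p ^ 2 - 2) := by
      rw [hpq] at h1 k3
      rcases hxd with h | h
      · rw [h] at h1 k3
        have r1 := congrArg Complex.re h1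
        have r3 := congrArg Complex.re k3
        simp [sq] at r1 r3
        constructor
        · rw [← r1]
        · left
          rw [← r3, ← r1]
          ring
      · rw [h] at h1 k3
        have r1 := congrArg Complex.re h1
        have r3 := congrArg Complex.re k3
        simp [sq] at r1 r3
        have r4 : (q : ℝ) = -p := by linarith
        constructor
        · rw [r4]; ring
        · right
          rw [← r3, r4]
          ring
    obtain ⟨hqp, hk⟩ := key
    have hk0 : k ≠ 0 := by
      rintro rfl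
      apply k0
      rw [k3]
      norm_num
    have hp : (p : ℝ) = 0 := by
      have hcast : ∀ m : ℕ, (4 * (p : ℝ) ^ 2 = m) → (2 * p : ℚ) ^ 2 = m := by
        intro m hm
        have : ((2 * p : ℚ) : ℝ) ^ 2 = (m : ℝ) := by
          push_cast
          linarith
        exact_mod_cast this
      rcases hk with hk | hk <;> interval_cases k
      · exact (hp2 8 (ns (by norm_num)) (hcast 8 (by push_cast at hk ⊢; linarith))).elim
      · exact (hp2 6 (ns (by norm_num)) (hcast 6 (by push_cast at hk ⊢; linarith))).elim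
      · exact (hk0 rfl).elim
      · exact (hp2 2 (ns (by norm_num)) (hcast 2 (by push_cast at hk ⊢; linarith))).elim
      · have : (p : ℝ) ^ 2 = 0 := by push_cast at hk; linarith
        exact pow_eq_zero_iff (two_ne_zero) |>.1 this
      · have : (p : ℝ) ^ 2 = 0 := by push_cast at hk; linarith
        exact pow_eq_zero_iff (two_ne_zero) |>.1 this
      · exact (hp2 2 (ns (by norm_num)) (hcast 2 (by push_cast at hk ⊢; linarith))).elim
      · exact (hk0 rfl).elim
      · exact (hp2 6 (ns (by norm_num)) (hcast 6 (by push_cast at hk ⊢; linarith))).elim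
      · exact (hp2 8 (ns (by norm_num)) (hcast 8 (by push_cast at hk ⊢; linarith))).elim
    have hq : (q : ℝ) = 0 := by
      rw [hp] at hqp
      have : (q : ℝ) ^ 2 = 0 := by rw [hqp]; norm_num
      exact pow_eq_zero_iff (two_ne_zero) |>.1 this
    have hp' : p = 0 := by exact_mod_cast hp
    have hq' : q = 0 := by exact_mod_cast hq
    rw [hpq, hp', hq']
    norm_num
  have hxx : x * x = -(n • (1 : M2)) := by rw [ch, ht, zero_smul, zero_sub]
  have hxns : ∀ c : ℂ, x ≠ c • (1 : M2) := by
    intro c hc
    have h1 := ht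
    rw [hc, tr_smul, tr_one] at h1
    have h2 : c = 0 := by linear_combination (1 / 2) * h1
    have h3 := D.det_ne hxG
    rw [hc, h2, det_smul2] at h3
    apply h3
    ring
  -- an element of order three
  obtain ⟨h, hh, hd, hth⟩ : ∃ h ∈ G, h.det = 1 ∧ h.trace = -1 := by
    by_contra hcon
    push Not at hcon
    have h1 : ∀ h ∈ G, h.det = 1 → h = 1 ∨ h = -1 := by
      intro h hh hd
      rcases htr h hh hd with h' | h' | h'
      · exact h'
      · exfalso
        apply hcon (-h) (hneg h hh)
        · rw [← neg_one_smul ℂ, det_smul2, hd]; norm_num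
        · rw [Matrix.trace_neg, h']
      · exact (hcon h hh hd h').elim
    have h2 : ∀ y ∈ G, y.det = 1 ∨ y.det = -1 → ∃ c : ℂ, y = c • (1 : M2) := by
      intro y hy hd
      rcases hd with hd | hd
      · rcases h1 y hy hd with h | h
        · exact ⟨1, by rw [h, one_smul]⟩
        · exact ⟨-1, by rw [h, neg_smul, one_smul]⟩
      · have e1 : (Complex.I • y).det = 1 := by rw [det_smul2, hI2, hd]; norm_num
        have e2 : y = (-Complex.I) • (Complex.I • y) := by
          rw [smul_smul, neg_mul, Complex.I_mul_I, neg_neg, one_smul]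
        rcases h1 _ (scI y hy) e1 with h | h
        · exact ⟨-Complex.I, by rw [e2, h]⟩
        · exact ⟨Complex.I, by rw [e2, h, neg_smul, smul_neg, neg_neg]⟩
    obtain ⟨c, hc⟩ := D.irr x (by
      intro y hy
      by_cases he : y.det = 1 ∨ y.det = -1
      · obtain ⟨c, rfl⟩ := h2 y hy he
        rw [mul_smul_comm, smul_mul_assoc, mul_one, one_mul]
      · obtain ⟨c, hc⟩ := h2 _ (G.mul_mem hxG hy) (hodd y hy he)
        apply cancel_left xx2
        rw [← mul_assoc x y x, hc, mul_smul_comm, smul_mul_assoc, mul_one, one_mul])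
    exact hxns c hc
  have hhh : h * h = -h - 1 := by rw [ch, hth, hd, neg_one_smul, one_smul]
  have hh3 : h * h * h = 1 := by
    rw [hhh, sub_mul, neg_mul, hhh, one_mul]
    abel
  have hhc := fun y hy he => hev y hy he h hh hd
  have hxh : x * h ≠ h * x := by
    intro hc
    obtain ⟨c, hc2⟩ := D.irr h (by
      intro y hy
      by_cases he : y.det = 1 ∨ y.det = -1
      · exact (hhc y hy he).symm
      · have e1 := hhc _ (G.mul_mem hxG hy) (hodd y hy he)
        apply cancel_left xx2
        rw [← mul_assoc, hc, mul_assoc, ← e1, mul_assoc])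
    have h1 := hth
    rw [hc2, tr_smul, tr_one] at h1
    have h2 := hd
    rw [hc2, det_smul2, Matrix.det_one] at h2
    have h3 : c = -1 / 2 := by linear_combination (1 / 2) * h1
    rw [h3] at h2
    norm_num at h2
  -- the conjugate of h
  set k := x * h * x' with hk
  have hkG : k ∈ G := G.mul_mem (G.mul_mem hxG hh) hx'
  have hkd : k.det = 1 := by
    have : x.det * x'.det = 1 := by rw [← Matrix.det_mul, xx1, Matrix.det_one]
    rw [hk, Matrix.det_mul, Matrix.det_mul, hd, mul_one, this]
  have hkt : k.trace = -1 := by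
    rw [hk, Matrix.trace_mul_comm, ← mul_assoc, xx2, one_mul, hth]
  have hkk : k * k = -k - 1 := by rw [ch, hkt, hkd, neg_one_smul, one_smul]
  have hkh := hab k hkG hkd h hh hd
  have e1 : (k - h) * (k - h * h) = 0 := by
    have : (k - h) * (k - h * h) = k * k - k * (h * h) - h * k + h * h * h := by
      noncomm_ring
    rw [this, hkk, hh3, hhh, mul_sub, mul_neg, mul_one, hkh]
    abel
  have hxk : x * h = k * x := by rw [hk, mul_assoc, xx2, mul_one]
  rcases D.dom _ (R.sub_mem (D.sub k hkG) (D.sub h hh)) _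
    (R.sub_mem (D.sub k hkG) (R.mul_mem (D.sub h hh) (D.sub h hh))) e1 with h' | h'
  · apply hxh
    rw [hxk, sub_eq_zero.1 h']
  have hxh2 : x * h = h * h * x := by rw [hxk, sub_eq_zero.1 h']
  have hhx : h * x = x * (h * h) := by
    calc h * x = (h * h * h) * (h * x) := by rw [hh3, one_mul]
      _ = h * h * (h * h * x) := by noncomm_ring
      _ = h * h * (x * h) := by rw [hxh2]
      _ = (h * h * x) * h := by noncomm_ring
      _ = x * h * h := by rw [hxh2]
      _ = x * (h * h) := mul_assoc _ _ _
  set u : M2 := n • (1 : M2) + (1 + n) • h with hu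
  have huR : u ∈ R := R.add_mem (mem_S.1 hnS)
    (D.smul_mem ((S R).add_mem (S R).one_mem hnS) (D.sub h hh))
  have hux : u * x = x * (n • (1 : M2) + (1 + n) • (h * h)) := by
    rw [hu, add_mul, mul_add, smul_mul_assoc, smul_mul_assoc, mul_smul_comm, mul_smul_comm, hhx,
      one_mul, mul_one]
  have huu : (n • (1 : M2) + (1 + n) • (h * h)) * u = n • (1 : M2) := by
    rw [hu, mul_add, add_mul, add_mul, smul_mul_smul_comm, smul_mul_smul_comm, smul_mul_smul_comm,
      smul_mul_smul_comm, hh3, mul_one, mul_one, one_mul, hhh]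
    have e2 : n * n = -1 := by rw [← sq]; exact hn2
    have e3 : (1 + n) * n = n - 1 := by linear_combination e2
    have e4 : n * (1 + n) = n - 1 := by linear_combination e2
    have e5 : (1 + n) * (1 + n) = 2 * n := by linear_combination e2
    rw [e2, e3, e4, e5]
    module
  have hee : (x * u) * (x * u) = 1 := by
    calc (x * u) * (x * u) = x * (u * x) * u := by noncomm_ring
      _ = (x * x) * ((n • (1 : M2) + (1 + n) • (h * h)) * u) := by rw [hux]; noncomm_ring
      _ = 1 := by
        rw [huu, hxx, neg_mul, smul_mul_smul_comm, mul_one, ← sq, hn2, neg_one_smul, neg_neg]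
  have hc : ∃ c : ℂ, x * u = c • (1 : M2) := by
    rcases D.sq_one (R.mul_mem (D.sub x hxG) huR) hee with h | h
    · exact ⟨1, by rw [h, one_smul]⟩
    · exact ⟨-1, by rw [h, neg_smul, one_smul]⟩
  obtain ⟨c, hc⟩ := hc
  have hux2 : x * u = u * x := by
    apply cancel_left xx2
    rw [← mul_assoc x u x, hc, mul_smul_comm, smul_mul_assoc, mul_one, one_mul]
  have h1n : (1 + n) ≠ 0 := by
    intro h
    have : n = -1 := by linear_combination h
    rw [this] at hn2
    norm_num at hn2
  apply hxh
  rw [hu, mul_add, add_mul, mul_smul_comm, mul_smul_comm, smul_mul_assoc, smul_mul_assoc, mul_one,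
    one_mul] at hux2
  exact smul_right_injective M2 h1n (add_left_cancel hux2)

/-- Case III: a primitive third root of unity is a scalar -/
lemma case_three (D : Data R G) {w : ℂ} (hw : w ∈ S R) (hw2 : w ^ 2 + w + 1 = 0) : False := by
  have hw3 : w ^ 3 = 1 := by linear_combination (w - 1) * hw2
  have hneg : ∀ g ∈ G, -g ∈ G := by
    intro g hg
    have := D.scl (-1) (by
      rw [neg_smul, one_smul]
      exact R.neg_mem R.one_mem) (by norm_num) g hg
    rwa [neg_one_smul] at this
  -- (a)
  have ha : ∀ h ∈ G, h.det = 1 → h.trace ≠ -1 := by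
    intro h hh hd ht
    have e1 : (h - w • (1 : M2)) * (h - (w ^ 2) • (1 : M2)) = 0 := by
      have e2 : (h - w • (1 : M2)) * (h - (w ^ 2) • (1 : M2)) =
          h * h - (w + w ^ 2) • h + (w ^ 3) • (1 : M2) := by
        rw [mul_sub, sub_mul, sub_mul, mul_smul_comm, smul_mul_assoc, smul_mul_smul_comm,
          mul_one, one_mul, mul_one, add_smul]
        have : w * w ^ 2 = w ^ 3 := by ring
        rw [this]
        abel
      have e3 : w + w ^ 2 = -1 := by linear_combination hw2
      rw [e2, e3, hw3, ch, ht, hd, neg_one_smul, one_smul]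
      abel
    have h1 : ∀ z : ℂ, h = z • (1 : M2) → z ^ 2 = 1 := by
      intro z hz
      rw [hz, det_smul2, Matrix.det_one, mul_one] at hd
      exact hd
    rcases D.dom _ (R.sub_mem (D.sub h hh) (mem_S.1 hw)) _
      (R.sub_mem (D.sub h hh) (mem_S.1 ((S R).pow_mem hw 2))) e1 with h' | h'
    · have h2 := h1 w (sub_eq_zero.1 h')
      have h3 : w = -2 := by linear_combination hw2 - h2
      rw [h3] at h2
      norm_num at h2
    · have h2 := h1 (w ^ 2) (sub_eq_zero.1 h')
      have h3 : w = 1 := by linear_combination h2 - w * hw3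
      rw [h3] at hw2
      norm_num at hw2
  have htr : ∀ h ∈ G, h.det = 1 → (∃ c : ℂ, h = c • (1 : M2)) ∨ h.trace = 0 := by
    intro h hh hd
    obtain ⟨k, k1, k2, k3⟩ := D.tr_int hh hd
    have k0 := ha h hh hd
    have k0' := ha (-h) (hneg h hh) (by rw [← neg_one_smul ℂ, det_smul2, hd]; norm_num)
    rw [Matrix.trace_neg] at k0'
    interval_cases k
    · left
      exact ⟨-1, by
        rw [D.eq_neg_one (D.sub h hh) hd (by rw [k3]; norm_num), neg_smul, one_smul]⟩
    · exact absurd (by rw [k3]; norm_num) k0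
    · right
      rw [k3]; norm_num
    · exact absurd (by rw [k3]; norm_num) k0'
    · left
      exact ⟨1, by rw [D.eq_one (D.sub h hh) hd (by rw [k3]; norm_num), one_smul]⟩
  have hz2 : (2 * w + 1) ^ 2 = -3 := by linear_combination 4 * hw2
  have hzS : 2 * w + 1 ∈ S R := by
    have := D.rat_mem 2
    push_cast at this
    exact (S R).add_mem ((S R).mul_mem this hw) (S R).one_mem
  have hzre : (2 * w + 1).re = 0 ∧ (2 * w + 1).im ^ 2 = 3 := by
    have r1 := congrArg Complex.re hz2
    have r2 := congrArg Complex.im hz2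
    set z := 2 * w + 1
    rw [sq] at r1 r2
    rw [Complex.mul_re] at r1
    rw [Complex.mul_im] at r2
    simp at r1 r2
    have r3 : z.re * z.im = 0 := by linarith
    rcases mul_eq_zero.1 r3 with h | h
    · refine ⟨h, ?_⟩
      rw [h] at r1
      linarith
    · exfalso
      rw [h] at r1
      nlinarith [sq_nonneg z.re]
  -- (b)
  have hb : ∀ n ∈ S R, n ^ 2 ≠ -1 := by
    intro n hn h
    obtain ⟨q, hq⟩ := D.re _ (mem_S.1 ((S R).mul_mem hn hzS))
    have h1 : (n * (2 * w + 1)) ^ 2 = 3 := by rw [mul_pow, h, hz2]; norm_num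
    set z := n * (2 * w + 1)
    have r1 := congrArg Complex.re h1
    have r2 := congrArg Complex.im h1
    rw [sq] at r1 r2
    rw [Complex.mul_re] at r1
    rw [Complex.mul_im] at r2
    simp at r1 r2
    have r3 : z.re * z.im = 0 := by linarith
    rcases mul_eq_zero.1 r3 with h | h
    · rw [h] at r1
      nlinarith [sq_nonneg z.im]
    · rw [h, ← hq] at r1
      have h3 : q ^ 2 = (3 : ℕ) := by
        have : (q : ℝ) ^ 2 = 3 := by rw [sq]; linarith
        exact_mod_cast this
      exact nsq 3 (ns (by norm_num)) _ h3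
  -- (c)
  have hc : ∀ y ∈ G, y.det ≠ -1 := by
    intro y hy hd
    have hyd : (y * y).det = 1 := by rw [Matrix.det_mul, hd]; norm_num
    obtain ⟨q, hq⟩ := D.re _ (mem_S.1 ((S R).mul_mem hzS (D.tr_mem hy)))
    have h1 := (D.tr_conj hy).1
    rw [hd] at h1
    have h2 : y.trace.re = 0 := by
      have := congrArg Complex.re h1
      simp at this
      linarith
    have h3 : y.trace = (y.trace.im : ℂ) * Complex.I := by
      apply Complex.ext <;> simp [h2]
    rw [Complex.mul_re, hzre.1, h2] at hq
    have h4 : (y.trace.im) ^ 2 * 3 = (q : ℝ) ^ 2 := by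
      have e := hzre.2
      have hq' : (q : ℝ) = -((2 * w + 1).im * y.trace.im) := by linarith
      rw [hq', neg_sq, mul_pow, e]
      ring
    have h5 : (y * y).trace = ((2 - (q : ℝ) ^ 2 / 3 : ℝ) : ℂ) := by
      rw [tr_sq, hd, h3]
      have : ((y.trace.im : ℂ) * Complex.I) ^ 2 = -((y.trace.im ^ 2 : ℝ) : ℂ) := by
        rw [mul_pow, Complex.I_sq]
        push_cast
        ring
      rw [this]
      have h6 : (y.trace.im) ^ 2 = (q : ℝ) ^ 2 / 3 := by linarith
      rw [h6]
      push_cast
      ring
    have h6 : ∀ r : ℝ, (y * y).trace = (r : ℂ) → r = 2 - (q : ℝ) ^ 2 / 3 := by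
      intro r hr
      rw [h5] at hr
      exact (Complex.ofReal_injective hr).symm
    obtain ⟨k, k1, k2, k3⟩ := D.tr_int (G.mul_mem hy hy) hyd
    have k0 := ha _ (G.mul_mem hy hy) hyd
    have k0' := ha (-(y * y)) (hneg _ (G.mul_mem hy hy)) (by
      rw [← neg_one_smul ℂ, det_smul2, hyd]; norm_num)
    rw [Matrix.trace_neg] at k0'
    have k4 := h6 k (by rw [k3]; norm_cast)
    have hcast : ∀ m : ℕ, ((q : ℝ) ^ 2 = m) → q ^ 2 = m := by
      intro m hm
      exact_mod_cast hm
    interval_cases k
    · exact nsq 12 (ns (by norm_num)) _ (hcast 12 (by push_cast at k4 ⊢; linarith))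
    · exact absurd (by rw [k3]; norm_num) k0
    · exact nsq 6 (ns (by norm_num)) _ (hcast 6 (by push_cast at k4 ⊢; linarith))
    · exact absurd (by rw [k3]; norm_num) k0'
    · have h7 : (q : ℝ) ^ 2 = 0 := by push_cast at k4; linarith
      have h8 : y.trace.im = 0 := by
        have : (y.trace.im) ^ 2 = 0 := by linarith
        exact pow_eq_zero_iff (two_ne_zero) |>.1 this
      have h9 : y.trace = 0 := by rw [h3, h8]; norm_num
      have h10 : y * y = 1 := by rw [ch, h9, hd, zero_smul, neg_one_smul, zero_sub, neg_neg]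
      rcases D.sq_one (D.sub y hy) h10 with h | h
      · rw [h, Matrix.det_one] at hd
        norm_num at hd
      · rw [h, ← neg_one_smul ℂ, det_smul2, Matrix.det_one] at hd
        norm_num at hd
  -- (d)
  have hdd : ∀ x ∈ G, x.det ^ 3 = 1 := by
    intro x hx
    obtain ⟨k, k1, k2, k3⟩ := D.det_int hx
    have hS := D.det_mem hx
    interval_cases k
    · exfalso
      apply hc x hx
      have : (x.det + 1) ^ 2 = 0 := by
        push_cast at k3
        linear_combination k3
      exact eq_neg_of_add_eq_zero_left (pow_eq_zero_iff (two_ne_zero) |>.1 this)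
    · push_cast at k3
      linear_combination (x.det - 1) * k3
    · exfalso
      apply hb _ hS
      push_cast at k3
      linear_combination k3
    · exfalso
      push_cast at k3
      have h3 : x.det ^ 3 = -1 := by linear_combination (x.det + 1) * k3
      apply hc (x.det • x) (D.scl _ (mem_S.1 hS) (by
        have : x.det ^ 12 = (x.det ^ 3) ^ 4 := by ring
        rw [this, h3]
        norm_num) x hx)
      rw [det_smul2, ← h3]
      ring
    · have h1 : x.det = 1 := by
        have : (x.det - 1) ^ 2 = 0 := by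
          push_cast at k3
          linear_combination k3
        exact sub_eq_zero.1 (pow_eq_zero_iff (two_ne_zero) |>.1 this)
      rw [h1, one_pow]
  have hnorm : ∀ x ∈ G, x.det • x ∈ G ∧ (x.det • x).det = 1 := by
    intro x hx
    have h3 := hdd x hx
    constructor
    · exact D.scl _ (mem_S.1 (D.det_mem hx)) (by
        have : x.det ^ 12 = (x.det ^ 3) ^ 4 := by ring
        rw [this, h3]
        norm_num) x hx
    · rw [det_smul2, ← h3]
      ring
  -- (e)
  obtain ⟨h, hh, hd, k, hk, kd, hne⟩ : ∃ h ∈ G, h.det = 1 ∧ ∃ k ∈ G, k.det = 1 ∧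
      h * k ≠ k * h := by
    by_contra hcon
    push Not at hcon
    apply D.not_scalar
    intro x hx z hz
    obtain ⟨x1, x2⟩ := hnorm x hx
    obtain ⟨z1, z2⟩ := hnorm z hz
    have h1 := hcon _ x1 x2 _ z1 z2
    have h2 := smul_comm_iff (D.det_ne hx) h1
    exact (smul_comm_iff (D.det_ne hz) h2.symm).symm
  have sc : ∀ a b : M2, (∃ c : ℂ, a = c • (1 : M2)) → a * b = b * a := by
    rintro a b ⟨c, rfl⟩
    rw [mul_smul_comm, smul_mul_assoc, mul_one, one_mul]
  have t1 : h.trace = 0 := (htr h hh hd).resolve_left fun hs => hne (sc h k hs)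
  have t2 : k.trace = 0 := (htr k hk kd).resolve_left fun hs => hne (sc k h hs).symm
  have t3 : (h * k).trace = 0 := by
    refine (htr _ (G.mul_mem hh hk) (by rw [Matrix.det_mul, hd, kd, one_mul])).resolve_left ?_
    intro hs
    apply hne
    obtain ⟨h', hh', hh1, hh2⟩ := D.inv hh
    apply cancel_left hh2
    rw [← mul_assoc h k h]
    exact (sc _ h hs).symm
  have q1 : h * h = -1 := by rw [ch, t1, hd, zero_smul, one_smul, zero_sub]
  have q2 : k * k = -1 := by rw [ch, t2, kd, zero_smul, one_smul, zero_sub]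
  have q3 : h * k + k * h = 0 := by
    rw [pol, t1, t2, t3]
    simp
  have q4 : (w • h + (w ^ 2) • k) * (w • h + (w ^ 2) • k) = 1 := by
    have e1 : (w • h + (w ^ 2) • k) * (w • h + (w ^ 2) • k) =
        (w ^ 2) • (h * h) + (w ^ 3) • (h * k + k * h) + (w ^ 4) • (k * k) := by
      simp only [mul_add, add_mul, smul_mul_smul_comm, smul_add]
      module
    have e2 : w ^ 4 = w := by linear_combination w * hw3
    have e3 : -(w ^ 2) + -w = 1 := by linear_combination -hw2
    rw [e1, q1, q2, q3, smul_zero, add_zero, e2, smul_neg, smul_neg, ← neg_smul, ← neg_smul,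
      ← add_smul, e3, one_smul]
  have hwR := D.smul_mem hw (D.sub h hh)
  have hwR2 := D.smul_mem ((S R).pow_mem hw 2) (D.sub k hk)
  have hs : ∃ c : ℂ, w • h + (w ^ 2) • k = c • (1 : M2) := by
    rcases D.sq_one (R.add_mem hwR hwR2) q4 with h | h
    · exact ⟨1, by rw [h, one_smul]⟩
    · exact ⟨-1, by rw [h, neg_smul, one_smul]⟩
  have e5 := sc _ k hs
  rw [add_mul, mul_add, smul_mul_assoc (w ^ 2), mul_smul_comm (w ^ 2)] at e5
  have hw0 : w ≠ 0 := by
    intro h
    rw [h] at hw3
    norm_num at hw3
  exact hne (smul_comm_iff hw0 (add_right_cancel e5))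

end Data

end Pool.Agent.MP_e4ecdb_ag.DK
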