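import Pool.Agent.MP_e4ecdb_ag.KOne
import Pool.Agent.MP_e4ecdb_ag.KTwo

namespace Pool.Agent.MP_e4ecdb_ag.DK

/-- No finite group spans a quaternion division algebra over an imaginary quadratic field. -/
theorem core {R : Subring M2} {G : Submonoid M2} (D : Data R G) : False := by
  by_cases hI : Complex.I ∈ S R
  · exact D.case_two hI
  by_cases hw : ∃ w ∈ S R, w ^ 2 + w + 1 = 0
  · obtain ⟨w, h1, h2⟩ := hw
    exact D.case_three h1 h2
  · push Not at hw
    exact D.case_one hI hw

end Pool.Agent.MP_e4ecdb_ag.DK
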