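import Pool.Agent.MP_e4ecdb_ag.KAsm
open Module

/-! In dimension four there is no irreducible lattice with `h^{1,1} = 2`. -/

namespace Pool.Agent.MP_e4ecdb_ag.DK

open BB DF

variable {V : Type} [NormedAddCommGroup V] [NormedSpace ℂ V] {G : Type} [Group G]
  {ι : Type} {W W' : Submodule ℂ V}

/-- the matrix of the restriction to `W` -/
noncomputable def mat {ρ : Representation ℂ G V} {b : Basis ι ℝ V} (hc : IsCompl W W')
    (hW : Stable ρ W) (hW' : Stable ρ W') (bW : Basis (Fin 2) ℂ W) : RV ρ b →+* M2 :=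
  ((LinearMap.toMatrixAlgEquiv bW : Module.End ℂ W ≃ₐ[ℂ] M2) : Module.End ℂ W →+* M2).comp
    (res hc hW hW')

lemma mat_apply {ρ : Representation ℂ G V} {b : Basis ι ℝ V} (hc : IsCompl W W')
    (hW : Stable ρ W) (hW' : Stable ρ W') (bW : Basis (Fin 2) ℂ W) (c : RV ρ b) :
    mat hc hW hW' bW c = LinearMap.toMatrixAlgEquiv bW (res hc hW hW' c) := rfl

lemma mat_sc {ρ : Representation ℂ G V} {b : Basis ι ℝ V} (hc : IsCompl W W')
    (hW : Stable ρ W) (hW' : Stable ρ W') (bW : Basis (Fin 2) ℂ W) (c : RV ρ b) (z : ℂ) :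
    mat hc hW hW' bW c = z • (1 : M2) ↔ ∀ w ∈ W, c.1 w = z • w := by
  have h1 : (z • (1 : M2)) = LinearMap.toMatrixAlgEquiv bW (z • (1 : Module.End ℂ W)) := by
    rw [map_smul, map_one]
  rw [mat_apply, h1, (LinearMap.toMatrixAlgEquiv bW).injective.eq_iff]
  constructor
  · intro h w hw
    have := congrArg (fun f : Module.End ℂ W => (f ⟨w, hw⟩ : V)) h
    exact this
  · intro h
    apply LinearMap.ext
    intro w
    exact Subtype.ext (h w w.2)

/-- the group with scalars -/
noncomputable def GS (R : Subring M2) (r : G →* M2) : Submonoid M2 where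
  carrier := {A | ∃ g, ∃ s : ℂ, s • (1 : M2) ∈ R ∧ s ^ 12 = 1 ∧ A = s • r g}
  one_mem' := ⟨1, 1, by rw [one_smul]; exact R.one_mem, one_pow _, by rw [map_one, one_smul]⟩
  mul_mem' := by
    rintro _ _ ⟨g, s, h1, h2, rfl⟩ ⟨g', s', h1', h2', rfl⟩
    refine ⟨g * g', s * s', ?_, by rw [mul_pow, h2, h2', one_mul], ?_⟩
    · have := R.mul_mem h1 h1'
      rwa [smul_mul_smul_comm, one_mul] at this
    · rw [map_mul, smul_mul_smul_comm]

theorem no_irr [FiniteDimensional ℂ V] [Nontrivial V] [Finite G] [Fintype ι]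
    {ρ : Representation ℂ G V} {b : Basis ι ℝ V} {σ : LinearMap.BilinForm ℂ V}
    (hσ : IsPrimitiveSymplectic ρ σ) {h : V →ₗ⋆[ℂ] V →ₗ[ℂ] ℂ}
    (hp : ∀ x, x ≠ 0 → 0 < (h x x).re) (hh : h ∈ InvHerm ρ)
    (hΛ : ∀ g, ∀ x ∈ Submodule.span ℤ (Set.range b), ρ g x ∈ Submodule.span ℤ (Set.range b))
    (hirr : Irr ρ b) (hdim : finrank ℝ (Cm ρ) = finrank ℝ V)
    (hc : IsCompl W W') (hW : Stable ρ W) (hW' : Stable ρ W')
    (d1 : finrank ℂ W = 2) (d2 : finrank ℂ W' = 2)
    (ho : ∀ x ∈ W, ∀ y ∈ W', h x y = 0) (hi : ∀ x ∈ W, ∀ y ∈ W, σ x y = 0) : False := by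
  classical
  have hW0 : W ≠ ⊥ := by
    rintro rfl
    rw [finrank_bot] at d1
    omega
  have hW1 : W ≠ ⊤ := by
    rintro rfl
    have := hc.disjoint
    rw [top_disjoint] at this
    rw [this, finrank_bot] at d2
    omega
  let bW : Basis (Fin 2) ℂ W := finBasisOfFinrankEq ℂ W d1
  let f : RV ρ b →+* M2 := mat hc hW hW' bW
  have hf_inj : ∀ c, f c = 0 → c = 0 := by
    intro c h0
    by_contra hne
    have h1 : c.1 ≠ 0 := fun h => hne (Subtype.ext h)
    have h2 := inj_RV hΛ hirr hdim c.2 h1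
    obtain ⟨w, hw, hw0⟩ := (Submodule.ne_bot_iff W).1 hW0
    have h3 := (mat_sc hc hW hW' bW c 0).1 (by rw [zero_smul]; exact h0) w hw
    rw [zero_smul] at h3
    exact hw0 (h2 (by rw [h3, map_zero]))
  let r : G →* M2 :=
    { toFun := fun g => f ⟨ρ g, rho_mem hΛ g⟩
      map_one' := by
        have : (⟨ρ 1, rho_mem hΛ 1⟩ : RV ρ b) = 1 := Subtype.ext (map_one ρ)
        rw [this, map_one]
      map_mul' := fun g g' => by
        have : (⟨ρ (g * g'), rho_mem hΛ (g * g')⟩ : RV ρ b) =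
            ⟨ρ g, rho_mem hΛ g⟩ * ⟨ρ g', rho_mem hΛ g'⟩ := Subtype.ext (map_mul ρ g g')
        rw [this, map_mul] }
  have hr : ∀ g, r g = f ⟨ρ g, rho_mem hΛ g⟩ := fun g => rfl
  have hrR : ∀ g, r g ∈ f.range := fun g => ⟨_, rfl⟩
  have hq : ∀ q : ℚ, (q : ℂ) • (1 : M2) ∈ f.range := by
    intro q
    refine ⟨⟨(q : ℂ) • 1, sc_mem q⟩, ?_⟩
    rw [mat_sc]
    intro w hw
    rfl
  have hinv : ∀ g, r g * r g⁻¹ = 1 := fun g => by rw [← map_mul, mul_inv_cancel, map_one]
  -- traces of group elements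
  have htr : ∀ x, (r x).trace • (1 : M2) ∈ f.range := by
    intro x
    have hfin : Fintype G := Fintype.ofFinite G
    let T : RV ρ b := ∑ g : G, ⟨ρ (g * x * g⁻¹), rho_mem hΛ _⟩
    have hT : ∀ v, T.1 v = ∑ g : G, ρ (g * x * g⁻¹) v := by
      intro v
      have e1 : T.1 = ∑ g : G, ρ (g * x * g⁻¹) := by
        rw [AddSubmonoidClass.coe_finsetSum]
      rw [e1, LinearMap.sum_apply]
    have hTc : ∀ k v, T.1 (ρ k v) = ρ k (T.1 v) := by
      intro k v
      rw [hT, hT, map_sum]
      have e1 : ∀ g : G, ρ (g * x * g⁻¹) (ρ k v) = ρ k (ρ ((k⁻¹ * g) * x * (k⁻¹ * g)⁻¹) v) := by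
        intro g
        rw [← Module.End.mul_apply, ← Module.End.mul_apply, ← map_mul, ← map_mul]
        congr 2
        group
      rw [Finset.sum_congr rfl fun g _ => e1 g]
      exact (Equiv.sum_comp (Equiv.mulLeft k⁻¹) fun g => ρ k (ρ (g * x * g⁻¹) v))
    obtain ⟨τ, hτ⟩ := schur hσ hW hW0 hW1 (res hc hW hW' T) (by
      intro g w w' hww
      rw [res_apply, res_apply, hww, hTc])
    have hfT : f T = τ • (1 : M2) := by
      rw [mat_sc]
      intro w hw
      have := congrArg (fun A : Module.End ℂ W => (A ⟨w, hw⟩ : V)) hτ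
      exact this
    have hfT2 : f T = ∑ g : G, r (g * x * g⁻¹) := by
      rw [map_sum]
      rfl
    have h1 : (f T).trace = (Fintype.card G : ℂ) * (r x).trace := by
      rw [hfT2, Matrix.trace_sum]
      have e1 : ∀ g : G, (r (g * x * g⁻¹)).trace = (r x).trace := by
        intro g
        rw [map_mul, map_mul, Matrix.trace_mul_comm, ← mul_assoc]
        have : r g⁻¹ * r g = 1 := by rw [← map_mul, inv_mul_cancel, map_one]
        rw [this, one_mul]
      rw [Finset.sum_congr rfl fun g _ => e1 g, Finset.sum_const, Finset.card_univ,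
        nsmul_eq_mul]
    rw [hfT, tr_smul, tr_one] at h1
    have hcard : (Fintype.card G : ℂ) ≠ 0 := by
      exact_mod_cast Fintype.card_ne_zero
    have h2 : (r x).trace • (1 : M2) = ((((2 / Fintype.card G : ℚ)) : ℂ) • (1 : M2)) * f T := by
      rw [hfT, smul_mul_smul_comm, one_mul]
      congr 1
      push_cast
      field_simp
      linear_combination -h1
    rw [h2]
    exact f.range.mul_mem (hq _) ⟨T, rfl⟩
  refine core (R := f.range) (G := GS f.range r) ⟨?_, ?_, ?_, ?_, hq, ?_, ?_, ?_, ?_⟩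
  · rintro _ ⟨g, s, h1, -, rfl⟩
    have := f.range.mul_mem h1 (hrR g)
    rwa [smul_mul_assoc, one_mul] at this
  · rintro _ ⟨g, s, -, h2, rfl⟩
    refine ⟨12 * Nat.card G, Nat.mul_pos (by norm_num) Nat.card_pos, ?_⟩
    rw [smul_pow, pow_mul, h2, one_pow, one_smul, mul_comm, pow_mul, ← map_pow, pow_card_eq_one',
      map_one, one_pow]
  · rintro _ ⟨g, s, h1, -, rfl⟩
    rw [tr_smul]
    have := f.range.mul_mem h1 (htr g)
    rwa [smul_mul_smul_comm, one_mul] at this
  · rintro z ⟨c, hcz⟩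
    exact re_rat hσ hp hh hc d1 d2 ho hi c.2 ((mat_sc hc hW hW' bW c z).1 hcz)
  · rintro _ ⟨A, rfl⟩ _ ⟨B, rfl⟩ hAB
    rw [← map_mul] at hAB
    have h1 := hf_inj _ hAB
    by_cases hA : A = 0
    · left; rw [hA, map_zero]
    · right
      have h2 := inj_RV hΛ hirr hdim A.2 (fun h => hA (Subtype.ext h))
      have h3 : B = 0 := by
        apply Subtype.ext
        apply LinearMap.ext
        intro x
        apply h2
        have := congrArg (fun c : RV ρ b => c.1 x) h1
        change A.1 (B.1 x) = A.1 0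
        rw [map_zero]
        exact this
      rw [h3, map_zero]
  · rintro s h1 h2 _ ⟨g, t, h3, h4, rfl⟩
    refine ⟨g, s * t, ?_, by rw [mul_pow, h2, h4, one_mul], by rw [smul_smul]⟩
    have := f.range.mul_mem h1 h3
    rwa [smul_mul_smul_comm, one_mul] at this
  · intro a ha
    have ha' : ∀ g, a * r g = r g * a := by
      intro g
      apply ha
      exact ⟨g, 1, by rw [one_smul]; exact f.range.one_mem, one_pow _, by rw [one_smul]⟩
    set A : Module.End ℂ W := (LinearMap.toMatrixAlgEquiv bW).symm a with hA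
    have hA2 : LinearMap.toMatrixAlgEquiv bW A = a := by
      rw [hA, AlgEquiv.apply_symm_apply]
    obtain ⟨c, hcA⟩ := schur hσ hW hW0 hW1 A (by
      intro g w w' hww
      have h1 : A * res hc hW hW' (⟨ρ g, rho_mem hΛ g⟩ : RV ρ b) =
          res hc hW hW' (⟨ρ g, rho_mem hΛ g⟩ : RV ρ b) * A := by
        apply (LinearMap.toMatrixAlgEquiv bW).injective
        rw [map_mul, map_mul, hA2]
        exact ha' g
      have h2 := congrArg (fun B : Module.End ℂ W => (B w : V)) h1
      have h3 : w' = res hc hW hW' (⟨ρ g, rho_mem hΛ g⟩ : RV ρ b) w := Subtype.ext hww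
      rw [h3]
      exact h2)
    refine ⟨c, ?_⟩
    rw [← hA2, hcA, map_smul, map_one]
  · -- an element of determinant different from one
    by_contra hcon
    push Not at hcon
    have hdet : ∀ g, (r g).det = 1 := fun g =>
      hcon _ ⟨g, 1, by rw [one_smul]; exact f.range.one_mem, one_pow _, by rw [one_smul]⟩
    let u : Fin 2 → V →ₗ[ℂ] ℂ := fun i => bW.coord i ∘ₗ W.projectionOnto W' hc
    have hu : ∀ i x, u i x = bW.repr (W.projectionOnto W' hc x) i := fun i x => rfl
    have hug : ∀ g i x, u i (ρ g x) = r g i 0 * u 0 x + r g i 1 * u 1 x := by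
      intro g i x
      have e1 : W.projectionOnto W' hc (ρ g x) =
          res hc hW hW' (⟨ρ g, rho_mem hΛ g⟩ : RV ρ b) (W.projectionOnto W' hc x) := by
        apply Subtype.ext
        rw [proj_equivar hc hW hW', res_apply]
      have e2 := congrFun (LinearMap.toMatrix_mulVec_repr bW bW
        (res hc hW hW' (⟨ρ g, rho_mem hΛ g⟩ : RV ρ b)) (W.projectionOnto W' hc x)) i
      rw [Matrix.mulVec, dotProduct, Fin.sum_univ_two] at e2
      rw [hu, e1, hu, hu, ← e2]
      rfl
    let τ : LinearMap.BilinForm ℂ V := LinearMap.mk₂ ℂ (fun x y => u 0 x * u 1 y - u 1 x * u 0 y)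
      (fun x x' y => by rw [map_add, map_add]; ring)
      (fun c x y => by rw [map_smul, map_smul, smul_eq_mul, smul_eq_mul, smul_eq_mul]; ring)
      (fun x y y' => by rw [map_add, map_add]; ring)
      (fun c x y => by rw [map_smul, map_smul, smul_eq_mul, smul_eq_mul, smul_eq_mul]; ring)
    have hτ : ∀ x y, τ x y = u 0 x * u 1 y - u 1 x * u 0 y := fun x y => rfl
    obtain ⟨c, hc2⟩ := hσ.prim τ (fun x => by rw [hτ]; ring) (by
      intro g x y
      have e1 := hdet g
      rw [Matrix.det_fin_two] at e1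
      rw [hτ, hτ, hug, hug, hug, hug]
      linear_combination (u 0 x * u 1 y - u 1 x * u 0 y) * e1)
    have hW'0 : W' ≠ ⊥ := by
      rintro rfl
      rw [finrank_bot] at d2
      omega
    obtain ⟨w', hw', hw0⟩ := (Submodule.ne_bot_iff W').1 hW'0
    have e2 : ∀ i, u i w' = 0 := by
      intro i
      rw [hu, Submodule.projectionOnto_apply_of_mem_right hc hw', map_zero]
      rfl
    have e3 : ∀ y, c * σ w' y = 0 := by
      intro y
      have e4 : τ w' y = c * σ w' y := by rw [hc2]; rfl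
      rw [← e4, hτ, e2, e2]
      ring
    have e5 : c = 0 := by
      by_contra hne
      exact hw0 (hσ.nondeg w' fun y => (mul_eq_zero.1 (e3 y)).resolve_left hne)
    have e6 : τ (bW 0 : V) (bW 1 : V) = 0 := by rw [hc2, e5, zero_smul]; rfl
    have e7 : ∀ i j, u i (bW j : V) = if j = i then 1 else 0 := by
      intro i j
      rw [hu]
      have : W.projectionOnto W' hc (bW j : V) = bW j := Submodule.projectionOnto_apply_left hc (bW j)
      rw [this, bW.repr_self, Finsupp.single_apply]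
    rw [hτ, e7, e7, e7, e7] at e6
    simp at e6

end Pool.Agent.MP_e4ecdb_ag.DK
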