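import Pool.Agent.MP_e4ecdb_ag.DSeven
import Pool.Agent.MP_e4ecdb_ag.DStruct
import Pool.Agent.MP_e4ecdb_ag.KData
open Module

/-! Dimension four: the lattice is rationally reducible as soon as `h^{1,1} ≥ 2`. -/

namespace Pool.Agent.MP_e4ecdb_ag.SYZ

open QD QC BB DF

variable {V : Type} [NormedAddCommGroup V] [NormedSpace ℂ V] {Γ : Subgroup (Equiv.Perm V)}
variable [FiniteDimensional ℂ V]

omit [FiniteDimensional ℂ V] in
/-- nef classes are pseudoeffective -/
lemma nef_psef {H : V →ₗ⋆[ℂ] V →ₗ[ℂ] ℂ} (hH : H ∈ H11 Γ) (hn : IsNef H) : IsPsef Γ H := by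
  refine ⟨fun _ => 1, fun _ _ => 1, fun _ _ => H, fun n i => ⟨zero_le_one, Or.inr ⟨hH, hn⟩⟩,
    fun x y => ?_⟩
  simp

/-- the lattice of a fourfold with `b_2 ≥ 4` is rationally reducible -/
theorem four [Nontrivial V] {σ : LinearMap.BilinForm ℂ V} (hΓ : IsCryst Γ)
    (hσ : IsPrimSympl Γ σ) (hd4 : finrank ℂ V = 4) (h2 : 2 ≤ h11 Γ) : Reducible Γ := by
  by_contra hred
  have hfin := finite_LG (old_cryst hΓ)
  have hpr := QD.prim (old_prim hΓ hσ)
  obtain ⟨h, ⟨hh1, hh2⟩, hpos⟩ := QD.exists_pos (old_cryst hΓ)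
  have hI : h ∈ InvHerm (rr Γ) := by
    refine ⟨hh1, ?_⟩
    rintro ⟨A, a, ha, rfl⟩ x y
    exact hh2 a ha x y
  have hV : FiniteDimensional ℝ V := FiniteDimensional.complexToReal V
  have hIH : InvHerm (rr Γ) = MP_e4ecdb_ag.H11 (old Γ) := by
    apply le_antisymm
    · rintro H ⟨h1, h2⟩
      exact ⟨h1, fun a ha x y => h2 ⟨a.linear, mem_LG ha⟩ x y⟩
    · rintro H ⟨h1, h2⟩
      refine ⟨h1, ?_⟩
      rintro ⟨A, a, ha, rfl⟩ x y
      exact h2 a ha x y
  have hr0 : 0 < finrank ℝ (InvHerm (rr Γ)) := by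
    rw [hIH, ← h11_eq hΓ]
    omega
  have hHf : Module.Finite ℝ (InvHerm (rr Γ)) := by
    have hfree : Module.Free ℝ (InvHerm (rr Γ)) := by
      have := Module.Free.of_divisionRing ℝ (InvHerm (rr Γ))
      exact this
    exact Module.finite_of_finrank_pos hr0
  have h22 : h11 Γ = 2 := by
    have h1 := (struct hΓ hσ hred).1
    rw [hd4] at h1
    have h3 := Nat.le_of_dvd (by norm_num) h1
    omega
  have hd : finrank ℝ (Cm (rr Γ)) = 8 := by
    rw [finrank_Cm hpr hpos hI hHf, hIH, ← h11_eq hΓ, h22]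
  obtain ⟨ι, hι, b, hb⟩ := hΓ.lattice
  have hΛ : ∀ g : GG Γ, ∀ x ∈ Submodule.span ℤ (Set.range b),
      rr Γ g x ∈ Submodule.span ℤ (Set.range b) := by
    have := (forall_rr hΓ (P := fun f => ∀ x ∈ Submodule.span ℤ (Set.range b),
      f x ∈ Submodule.span ℤ (Set.range b))).2
    apply this
    intro γ hγ x hx
    rw [hb] at hx ⊢
    exact addLeft_lin hΓ hx hγ
  have hset : ∀ W : Submodule ℝ V, {x | x ∈ Submodule.span ℤ (Set.range b) ∧ x ∈ W} =
      {x | Equiv.addLeft x ∈ Γ ∧ x ∈ W} := by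
    intro W
    ext x
    exact and_congr (hb x) Iff.rfl
  have hirr : Irr (rr Γ) b := by
    intro W hW hWr
    by_contra hcon
    push Not at hcon
    refine hred ⟨W, hcon.1, hcon.2, (rstable_iff hΓ W).1 hW, ?_⟩
    rw [← hset]
    refine le_antisymm hWr (Submodule.span_le.2 ?_)
    rintro x ⟨-, hx⟩
    exact hx
  have hVr : finrank ℝ V = 2 * finrank ℂ V := finrank_real_of_complex V
  -- a non-scalar invariant form
  obtain ⟨H, hH, hns⟩ : ∃ H ∈ InvHerm (rr Γ), ¬ ∃ l : ℝ, ∀ x, op hpos H x = (l : ℂ) • x := by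
    by_contra hcon
    push Not at hcon
    have h1 : finrank ℝ (InvHerm (rr Γ)) ≤ 1 := by
      apply finrank_le_one (⟨h, hI⟩ : InvHerm (rr Γ))
      rintro ⟨H, hH⟩
      obtain ⟨l, hl⟩ := hcon H hH
      refine ⟨l, ?_⟩
      apply Subtype.ext
      apply LinearMap.ext
      intro x
      apply LinearMap.ext
      intro y
      have h3 : H x y = h ((l : ℂ) • x) y := by rw [← hl, op_spec]
      rw [h3, LinearMap.map_smulₛₗ, LinearMap.smul_apply, Complex.conj_ofReal]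
      rfl
    rw [hIH, ← h11_eq hΓ, h22] at h1
    omega
  rcases two_eig hpr hpos (op_self hpos hI.1 hH.1) (op_comm hpos hI hH) with h1 |
    ⟨l, m, hlm, hc, ho, hi, hi', d1, d2⟩
  · exact hns h1
  · exact DK.no_irr hpr hpos hI hΛ hirr (by rw [hd, hVr, hd4]) hc
      (Ei_stable (op_comm hpos hI hH) l) (Ei_stable (op_comm hpos hI hH) m) (by omega) (by omega)
      ho hi

end Pool.Agent.MP_e4ecdb_ag.SYZ
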