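import Pool.Agent.MP_e4ecdb_ag.DDiv
import Pool.Agent.MP_e4ecdb_ag.KCore
open Module

/-! The ring spanned by the group, restricted to an irreducible Lagrangian. -/

namespace Pool.Agent.MP_e4ecdb_ag.DK

open BB DF

variable {V : Type} [NormedAddCommGroup V] [NormedSpace ℂ V] {G : Type} [Group G]
  {ι : Type}

/-- rational complex-linear maps commuting with the commutant of the group -/
def RV (ρ : Representation ℂ G V) (b : Basis ι ℝ V) : Subring (Module.End ℂ V) where
  carrier := {c | (∀ T ∈ Cm ρ, ∀ x, T (c x) = c (T x)) ∧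
    ∃ N : ℕ, 1 ≤ N ∧ ∀ x ∈ Submodule.span ℤ (Set.range b), N • c x ∈ Submodule.span ℤ (Set.range b)}
  mul_mem' := by
    rintro c d ⟨hc, N, hN1, hN⟩ ⟨hd, M, hM1, hM⟩
    refine ⟨fun T hT x => by rw [Module.End.mul_apply, hc T hT, hd T hT]; rfl, N * M,
      Nat.mul_pos hN1 hM1, fun x hx => ?_⟩
    have h1 := hN _ (hM x hx)
    rw [map_nsmul, smul_smul] at h1
    exact h1
  one_mem' := ⟨fun T _ x => rfl, 1, le_refl _, fun x hx => by rw [one_smul]; exact hx⟩
  add_mem' := by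
    rintro c d ⟨hc, N, hN1, hN⟩ ⟨hd, M, hM1, hM⟩
    refine ⟨fun T hT x => by
      rw [LinearMap.add_apply, map_add, hc T hT, hd T hT]; rfl, N * M,
      Nat.mul_pos hN1 hM1, fun x hx => ?_⟩
    rw [LinearMap.add_apply, smul_add]
    apply Submodule.add_mem
    · rw [mul_comm, mul_smul]
      exact Submodule.smul_of_tower_mem _ M (hN x hx)
    · rw [mul_smul]
      exact Submodule.smul_of_tower_mem _ N (hM x hx)
  zero_mem' := ⟨fun T _ x => by
    rw [LinearMap.zero_apply, LinearMap.zero_apply, map_zero], 1, le_refl _, fun x hx => by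
    rw [LinearMap.zero_apply, smul_zero]; exact Submodule.zero_mem _⟩
  neg_mem' := by
    rintro c ⟨hc, N, hN1, hN⟩
    refine ⟨fun T hT x => by
      rw [LinearMap.neg_apply, LinearMap.neg_apply, map_neg, hc T hT], N, hN1, fun x hx => ?_⟩
    rw [LinearMap.neg_apply, smul_neg]
    exact Submodule.neg_mem _ (hN x hx)

lemma rho_mem {ρ : Representation ℂ G V} {b : Basis ι ℝ V}
    (hΛ : ∀ g, ∀ x ∈ Submodule.span ℤ (Set.range b), ρ g x ∈ Submodule.span ℤ (Set.range b))
    (g : G) : ρ g ∈ RV ρ b :=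
  ⟨fun T hT x => mem_Cm.1 hT g x, 1, le_refl _, fun x hx => by rw [one_smul]; exact hΛ g x hx⟩

lemma sc_mem {ρ : Representation ℂ G V} {b : Basis ι ℝ V} (q : ℚ) :
    (q : ℂ) • (1 : Module.End ℂ V) ∈ RV ρ b := by
  have hr : ∀ x : V, (q : ℂ) • x = (q : ℝ) • x := fun x => by
    rw [smulR, Complex.ofReal_ratCast]
  refine ⟨fun T _ x => ?_, q.den, q.pos, fun x hx => ?_⟩
  · rw [LinearMap.smul_apply, LinearMap.smul_apply, Module.End.one_apply, Module.End.one_apply, hr,
      hr, map_smul]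
  · rw [LinearMap.smul_apply, Module.End.one_apply]
    have h1 : q.den • ((q : ℂ) • x) = q.num • x := by
      rw [← Nat.cast_smul_eq_nsmul ℂ, smul_smul, ← Int.cast_smul_eq_zsmul ℂ]
      congr 1
      have := Rat.den_mul_eq_num q
      have h2 : (((q.den : ℚ) * q : ℚ) : ℂ) = ((q.num : ℚ) : ℂ) := by rw [this]
      push_cast at h2
      rw [h2]
    rw [h1]
    exact Submodule.smul_mem _ _ hx

/-- nonzero elements are injective when the commutant is as large as the lattice -/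
lemma inj_RV [Nontrivial V] [Finite G] [Fintype ι] {ρ : Representation ℂ G V} {b : Basis ι ℝ V}
    (hΛ : ∀ g, ∀ x ∈ Submodule.span ℤ (Set.range b), ρ g x ∈ Submodule.span ℤ (Set.range b))
    (hirr : Irr ρ b) (hdim : finrank ℝ (Cm ρ) = finrank ℝ V) {c : Module.End ℂ V}
    (hc : c ∈ RV ρ b) (h0 : c ≠ 0) : Function.Injective c := by
  have hV : FiniteDimensional ℝ V := Module.Finite.of_basis b
  set K : Submodule ℝ V := LinearMap.ker (c.restrictScalars ℝ) with hK
  have hmem : ∀ x, x ∈ K ↔ c x = 0 := fun x => Iff.rfl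
  have h1 : RatSub b K := ker_rat b hc.2
  have h2 : ∀ a ∈ Cm ρ, ∀ x ∈ K, a x ∈ K := by
    intro a ha x hx
    rw [hmem] at hx ⊢
    rw [← hc.1 a ha, hx, map_zero]
  have h3 := dvd_finrank hΛ hirr h1 h2
  rw [hdim] at h3
  have h4 : finrank ℝ K ≤ finrank ℝ V := Submodule.finrank_le K
  have h5 : finrank ℝ K = 0 ∨ finrank ℝ K = finrank ℝ V := by
    rcases Nat.eq_zero_or_pos (finrank ℝ K) with h | h
    · exact Or.inl h
    · exact Or.inr (le_antisymm h4 (Nat.le_of_dvd h h3))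
  rcases h5 with h | h
  · have h6 : K = ⊥ := Submodule.finrank_eq_zero.1 h
    rw [injective_iff_map_eq_zero]
    intro x hx
    have : x ∈ K := hx
    rwa [h6, Submodule.mem_bot] at this
  · exfalso
    have h6 : K = ⊤ := Submodule.eq_top_of_finrank_eq h
    apply h0
    ext x
    have : x ∈ K := h6 ▸ Submodule.mem_top
    exact this

variable {W W' : Submodule ℂ V}

lemma proj_equivar {ρ : Representation ℂ G V} (hc : IsCompl W W') (hW : Stable ρ W)
    (hW' : Stable ρ W') (g : G) (x : V) :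
    (W.projectionOnto W' hc (ρ g x) : V) = ρ g (W.projectionOnto W' hc x : V) := by
  obtain ⟨u, hu, u', hu', rfl⟩ := Submodule.mem_sup.1 (hc.sup_eq_top ▸ Submodule.mem_top : x ∈ W ⊔ W')
  have e1 : ∀ w ∈ W, ∀ w' ∈ W', (W.projectionOnto W' hc (w + w') : V) = w := by
    intro w hw w' hw'
    rw [map_add, Submodule.projectionOnto_apply_of_mem_right hc hw', add_zero]
    exact congrArg Subtype.val (Submodule.projectionOnto_apply_left hc ⟨w, hw⟩)
  rw [map_add (ρ g), e1 _ (hW g u hu) _ (hW' g u' hu'), e1 u hu u' hu']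

lemma proj_mem {ρ : Representation ℂ G V} (hc : IsCompl W W') (hW : Stable ρ W)
    (hW' : Stable ρ W') :
    ((W.subtype ∘ₗ W.projectionOnto W' hc : V →ₗ[ℂ] V).restrictScalars ℝ) ∈ Cm ρ :=
  fun g x => proj_equivar hc hW hW' g x

lemma pres {ρ : Representation ℂ G V} {b : Basis ι ℝ V} (hc : IsCompl W W') (hW : Stable ρ W)
    (hW' : Stable ρ W') {c : Module.End ℂ V} (h : c ∈ RV ρ b) {w : V} (hw : w ∈ W) : c w ∈ W := by
  have e1 := h.1 _ (proj_mem hc hW hW') w
  have e2 : (W.subtype ∘ₗ W.projectionOnto W' hc : V →ₗ[ℂ] V) w = w :=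
    congrArg Subtype.val (Submodule.projectionOnto_apply_left hc ⟨w, hw⟩)
  have e3 : c w = (W.projectionOnto W' hc (c w) : V) := by
    calc c w = c ((W.subtype ∘ₗ W.projectionOnto W' hc : V →ₗ[ℂ] V) w) := by rw [e2]
      _ = _ := e1.symm
  rw [e3]
  exact Subtype.mem _

/-- restriction to `W` -/
noncomputable def res {ρ : Representation ℂ G V} {b : Basis ι ℝ V} (hc : IsCompl W W')
    (hW : Stable ρ W) (hW' : Stable ρ W') : RV ρ b →+* Module.End ℂ W where
  toFun c := c.1.restrict fun w hw => pres hc hW hW' c.2 hw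
  map_one' := by ext x; rfl
  map_mul' c d := by ext x; rfl
  map_zero' := by ext x; rfl
  map_add' c d := by ext x; rfl

lemma res_apply {ρ : Representation ℂ G V} {b : Basis ι ℝ V} (hc : IsCompl W W')
    (hW : Stable ρ W) (hW' : Stable ρ W') (c : RV ρ b) (w : W) :
    (res hc hW hW' c w : V) = c.1 w := rfl

/-- Schur's lemma -/
lemma schur [FiniteDimensional ℂ V] [Finite G] {ρ : Representation ℂ G V}
    {σ : LinearMap.BilinForm ℂ V} (hσ : IsPrimitiveSymplectic ρ σ) (hW : Stable ρ W)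
    (h0 : W ≠ ⊥) (h1 : W ≠ ⊤) (A : Module.End ℂ W)
    (hA : ∀ g, ∀ w : W, ∀ w' : W, (w' : V) = ρ g w → (A w' : V) = ρ g (A w)) :
    ∃ c : ℂ, A = c • 1 := by
  have hnt : Nontrivial W := Submodule.nontrivial_iff_ne_bot.2 h0
  obtain ⟨c, hc⟩ := Module.End.exists_eigenvalue A
  refine ⟨c, ?_⟩
  set E : Submodule ℂ V := (Module.End.eigenspace A c).map W.subtype with hE
  have hEW : E ≤ W := by
    rintro _ ⟨w, -, rfl⟩
    exact w.2
  have hEs : Stable ρ E := by
    rintro g _ ⟨w, hw, rfl⟩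
    refine ⟨⟨ρ g w, hW g w w.2⟩, ?_, rfl⟩
    rw [SetLike.mem_coe, Module.End.mem_eigenspace_iff] at hw ⊢
    apply Subtype.ext
    rw [hA g w ⟨ρ g w, hW g w w.2⟩ rfl, hw]
    exact (ρ g).map_smul c w
  have hE0 : E ≠ ⊥ := by
    intro h
    obtain ⟨w, hw⟩ := hc.exists_hasEigenvector
    apply hw.2
    have h2 : (w : V) ∈ E := ⟨w, hw.1, rfl⟩
    rw [h, Submodule.mem_bot] at h2
    exact Subtype.ext h2
  have hE1 : E ≠ ⊤ := fun h => h1 (top_le_iff.1 (h ▸ hEW))
  have d1 := (stable_lagr hσ hEs hE0 hE1).2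
  have d2 := (stable_lagr hσ hW h0 h1).2
  have e1 : E = W := Submodule.eq_of_le_of_finrank_eq hEW (by omega)
  apply LinearMap.ext
  intro w
  have h2 : (w : V) ∈ E := by
    rw [e1]
    exact w.2
  obtain ⟨w', hw', h3⟩ := h2
  have h4 : w' = w := Subtype.ext h3
  rw [SetLike.mem_coe, Module.End.mem_eigenspace_iff, h4] at hw'
  rw [hw']
  rfl

end Pool.Agent.MP_e4ecdb_ag.DK
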