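import Pool.Agent.MP_e4ecdb_ag.KBase
open Matrix

/-! The three cases. -/

namespace Pool.Agent.MP_e4ecdb_ag.DK

variable {R : Subring M2} {G : Submonoid M2}

namespace Data

/-- Case I: no fourth or third roots of unity among the scalars. -/
lemma case_one (D : Data R G) (hI : Complex.I ∉ S R)
    (hw : ∀ w ∈ S R, w ^ 2 + w + 1 ≠ 0) : False := by
  have hpm : ∀ g ∈ G, g.det = 1 ∨ g.det = -1 := by
    intro g hg
    obtain ⟨k, k1, k2, k3⟩ := D.det_int hg
    have hd := D.det_mem hg
    interval_cases k
    · right
      have : (g.det + 1) ^ 2 = 0 := by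
        push_cast at k3
        linear_combination k3
      exact eq_neg_of_add_eq_zero_left (pow_eq_zero_iff (two_ne_zero) |>.1 this)
    · exfalso
      apply hw _ hd
      push_cast at k3
      linear_combination k3
    · exfalso
      have h1 : (g.det - Complex.I) * (g.det + Complex.I) = 0 := by
        push_cast at k3
        linear_combination k3 - Complex.I_mul_I
      rcases mul_eq_zero.1 h1 with h | h
      · exact hI (by rw [← sub_eq_zero.1 h]; exact hd)
      · exact hI (by
          have : Complex.I = -g.det := by linear_combination h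
          rw [this]
          exact (S R).neg_mem hd)
    · exfalso
      apply hw _ ((S R).neg_mem hd)
      push_cast at k3
      linear_combination k3
    · left
      have : (g.det - 1) ^ 2 = 0 := by
        push_cast at k3
        linear_combination k3
      exact sub_eq_zero.1 (pow_eq_zero_iff (two_ne_zero) |>.1 this)
  obtain ⟨g, hg, hg1⟩ := D.det
  have hn : g.det = -1 := (hpm g hg).resolve_left hg1
  set t := g.trace with ht
  have htS : t ∈ S R := D.tr_mem hg
  -- t is purely imaginary
  have hJG : g * g ∈ G := G.mul_mem hg hg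
  have hJd : (g * g).det = 1 := by rw [Matrix.det_mul, hn]; norm_num
  have hJt : (g * g).trace = t ^ 2 + 2 := by rw [tr_sq, hn]; ring
  have hch : g * g = t • g + 1 := by rw [ch, hn, neg_one_smul, sub_neg_eq_add]
  have hre : t.re = 0 := by
    have h1 := (D.tr_conj hg).1
    rw [hn] at h1
    have := congrArg Complex.re h1
    simp at this
    linarith
  have htI : t = (t.im : ℂ) * Complex.I := by
    apply Complex.ext <;> simp [hre]
  have hI2 : ∀ y : ℂ, y * Complex.I ∈ S R → (∃ q : ℚ, y = q ∧ q ≠ 0) → False := by
    rintro y hy ⟨q, rfl, hq⟩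
    apply hI
    have h1 := (S R).mul_mem (D.rat_mem q⁻¹) hy
    have h2 : ((q⁻¹ : ℚ) : ℂ) * ((q : ℂ) * Complex.I) = Complex.I := by
      have : (q : ℂ) ≠ 0 := by exact_mod_cast hq
      push_cast
      field_simp
    rwa [h2] at h1
  obtain ⟨k, k1, k2, k3⟩ := D.tr_int hJG hJd
  rw [hJt] at k3
  have ht2 : t ^ 2 = -2 := by
    have hsq : ∀ z : ℂ, z ∈ S R → z ^ 2 = -1 → False := by
      intro z hz h
      have h1 : (z - Complex.I) * (z + Complex.I) = 0 := by
        linear_combination h - Complex.I_mul_I
      rcases mul_eq_zero.1 h1 with h | h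
      · exact hI (by rw [← sub_eq_zero.1 h]; exact hz)
      · exact hI (by
          have : Complex.I = -z := by linear_combination h
          rw [this]
          exact (S R).neg_mem hz)
    interval_cases k
    · -- t ^ 2 = -4
      exfalso
      have h1 := (S R).mul_mem (D.rat_mem (1 / 2)) htS
      apply hsq _ h1
      push_cast at k3 ⊢
      linear_combination (1 / 4) * k3
    · exfalso
      have h1 := (S R).mul_mem (D.rat_mem (1 / 2)) ((S R).sub_mem htS (S R).one_mem)
      apply hw _ h1
      push_cast at k3 ⊢
      linear_combination (1 / 4) * k3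
    · push_cast at k3
      linear_combination k3
    · exfalso
      apply hsq _ htS
      push_cast at k3
      linear_combination k3
    · exfalso
      have h0 : t ^ 2 = 0 := by
        push_cast at k3
        linear_combination k3
      have h1 : t = 0 := pow_eq_zero_iff (two_ne_zero) |>.1 h0
      rw [h1, zero_smul, zero_add] at hch
      rcases D.sq_one (D.sub g hg) hch with h | h
      · apply hg1
        rw [h, Matrix.det_one]
      · apply hg1
        rw [h]
        simp [Matrix.det_fin_two]
  have ht0 : t ≠ 0 := by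
    intro h
    rw [h] at ht2
    norm_num at ht2
  set J := g * g with hJ
  have hJtr : J.trace = 0 := by rw [hJt, ht2]; ring
  have hJ2 : J * J = -1 := by rw [ch, hJtr, hJd, zero_smul, one_smul, zero_sub]
  have hJR : J ∈ R := D.sub _ hJG
  obtain ⟨g', hg', gg1, gg2⟩ := D.inv hg
  -- a non-commuting element of determinant one
  obtain ⟨h, hh, hd, hne⟩ : ∃ h ∈ G, h.det = 1 ∧ h * J ≠ J * h := by
    by_contra hcon
    push Not at hcon
    have h1 : ∀ x ∈ G, J * x = x * J := by
      intro x hx
      rcases hpm x hx with h | h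
      · exact (hcon x hx h).symm
      · have h2 : (x * g).det = 1 := by rw [Matrix.det_mul, h, hn]; norm_num
        have h3 := hcon (x * g) (G.mul_mem hx hg) h2
        have h4 : g * J = J * g := by rw [hJ, mul_assoc]
        have h5 : (x * J) * g = (J * x) * g := by
          calc (x * J) * g = x * (J * g) := mul_assoc _ _ _
            _ = x * (g * J) := by rw [h4]
            _ = x * g * J := (mul_assoc _ _ _).symm
            _ = J * (x * g) := h3
            _ = J * x * g := (mul_assoc _ _ _).symm
        calc J * x = J * x * (g * g') := by rw [gg1, mul_one]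
          _ = (J * x * g) * g' := by rw [mul_assoc (J * x)]
          _ = (x * J * g) * g' := by rw [h5]
          _ = x * J := by rw [mul_assoc (x * J), gg1, mul_one]
    obtain ⟨c, hc⟩ := D.irr J h1
    have h2 : c ^ 2 = -1 := by
      have h3 := hJ2
      rw [hc, smul_mul_smul_comm, mul_one] at h3
      have h4 := congrFun (congrFun h3 0) 0
      simp at h4
      rw [sq]
      exact h4
    have h5 : c ∈ S R := by
      rw [mem_S, ← hc]
      exact hJR
    have h1 : (c - Complex.I) * (c + Complex.I) = 0 := by
      linear_combination h2 - Complex.I_mul_I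
    rcases mul_eq_zero.1 h1 with h | h
    · exact hI (by rw [← sub_eq_zero.1 h]; exact h5)
    · exact hI (by
        have : Complex.I = -c := by linear_combination h
        rw [this]
        exact (S R).neg_mem h5)
  obtain ⟨h', hh', hh1, hh2⟩ := D.inv hh
  have hhR := D.sub _ hh
  obtain ⟨x, x1, x2, x3⟩ := D.tr_int hh hd
  have hhJd : (h * J).det = 1 := by rw [Matrix.det_mul, hd, hJd, one_mul]
  obtain ⟨w, w1, w2, w3⟩ := D.tr_int (G.mul_mem hh hJG) hhJd
  have hcd : (h * g * h' * g').det = 1 := by
    have e1 : h.det * h'.det = 1 := by rw [← Matrix.det_mul, hh1, Matrix.det_one]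
    have e2 : g.det * g'.det = 1 := by rw [← Matrix.det_mul, gg1, Matrix.det_one]
    rw [Matrix.det_mul, Matrix.det_mul, Matrix.det_mul]
    linear_combination (g.det * g'.det) * e1 + e2
  obtain ⟨u, u1, u2, u3⟩ := D.tr_int (G.mul_mem (G.mul_mem (G.mul_mem hh hg) hh') hg') hcd
  -- the trace identity
  have hz : t * (h * g).trace = w - x := by
    have e1 : h * J = t • (h * g) + h := by rw [hch, mul_add, mul_smul_comm, mul_one]
    rw [e1, Matrix.trace_add, tr_smul, x3] at w3
    linear_combination w3
  have huw : 2 * u = x ^ 2 + w ^ 2 := by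
    have e1 := tr_comm hd hh1 gg1
    rw [u3, hn, x3, ← ht] at e1
    have e2 : (t * (h * g).trace) ^ 2 = (w - x : ℂ) ^ 2 := by rw [hz]
    have e3 : (2 * u : ℂ) = x ^ 2 + w ^ 2 := by
      have e4 : (h * g).trace ^ 2 = -((w : ℂ) - x) ^ 2 / 2 := by
        rw [← e2, mul_pow, ht2]
        ring
      rw [e4, ht2] at e1
      linear_combination (-2) * e1 + (2 * (x : ℂ)) * hz
    exact_mod_cast e3
  have hx2 : x ^ 2 ≠ 4 := by
    intro hx
    have : x = 2 ∨ x = -2 := by
      have : (x - 2) * (x + 2) = 0 := by linear_combination hx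
      rcases mul_eq_zero.1 this with h | h
      · left; linarith
      · right; linarith
    rcases this with rfl | rfl
    · apply hne
      rw [D.eq_one hhR hd (by rw [x3]; norm_num), one_mul, mul_one]
    · apply hne
      rw [D.eq_neg_one hhR hd (by rw [x3]; norm_num), neg_mul, mul_neg, one_mul, mul_one]
  have hw2 : w ^ 2 ≠ 4 := by
    intro hx
    have hw : w = 2 ∨ w = -2 := by
      have : (w - 2) * (w + 2) = 0 := by linear_combination hx
      rcases mul_eq_zero.1 this with h | h
      · left; linarith
      · right; linarith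
    have hJh : ∀ c : ℂ, h * J = c • (1 : M2) → h * J = J * h := by
      intro c hc
      have e1 : h = -(c • J) := by
        have : h * J * J = c • J := by rw [hc, smul_mul_assoc, one_mul]
        rw [mul_assoc, hJ2, mul_neg, mul_one] at this
        rw [← this, neg_neg]
      rw [e1, neg_mul, mul_neg, smul_mul_assoc, mul_smul_comm]
    have hJR2 := R.mul_mem hhR hJR
    rcases hw with rfl | rfl
    · exact hne (hJh 1 (by rw [D.eq_one hJR2 hhJd (by rw [w3]; norm_num), one_smul]))
    · exact hne (hJh (-1) (by
        rw [D.eq_neg_one hJR2 hhJd (by rw [w3]; norm_num), neg_smul, one_smul]))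
  have hcases : (x = 0 ∧ w = 0) ∨ (x ^ 2 = 1 ∧ w ^ 2 = 1) := by
    have a1 : x ≠ 2 := by rintro rfl; exact hx2 (by norm_num)
    have a2 : x ≠ -2 := by rintro rfl; exact hx2 (by norm_num)
    have a3 : w ≠ 2 := by rintro rfl; exact hw2 (by norm_num)
    have a4 : w ≠ -2 := by rintro rfl; exact hw2 (by norm_num)
    have b1 : x = -1 ∨ x = 0 ∨ x = 1 := by omega
    have b2 : w = -1 ∨ w = 0 ∨ w = 1 := by omega
    rcases b1 with rfl | rfl | rfl <;> rcases b2 with rfl | rfl | rfl
    · right; constructor <;> norm_num
    · exfalso; norm_num at huw; omega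
    · right; constructor <;> norm_num
    · exfalso; norm_num at huw; omega
    · left; exact ⟨rfl, rfl⟩
    · exfalso; norm_num at huw; omega
    · right; constructor <;> norm_num
    · exfalso; norm_num at huw; omega
    · right; constructor <;> norm_num
  rcases hcases with ⟨rfl, rfl⟩ | ⟨hx, hw1⟩
  · -- h ^ 2 = -1, h J = - J h
    have e1 : h * h = -1 := by rw [ch, x3, hd, one_smul, Int.cast_zero, zero_smul, zero_sub]
    have e2 : h * J + J * h = 0 := by
      rw [pol, x3, hJtr, w3]
      simp
    have e3 : (J + t • h) * (J + t • h) = 1 := by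
      rw [mul_add, add_mul, add_mul, smul_mul_smul_comm, e1, hJ2, smul_mul_assoc, mul_smul_comm,
        ← sq, ht2]
      have : t • (h * J) + t • (J * h) = 0 := by rw [← smul_add, e2, smul_zero]
      calc -1 + t • (h * J) + (t • (J * h) + (-2 : ℂ) • (-1 : M2)) =
            -1 + (t • (h * J) + t • (J * h)) + (2 : ℂ) • (1 : M2) := by
              rw [neg_smul, smul_neg, neg_neg]; abel
        _ = 1 := by rw [this, two_smul]; abel
    have e4 := D.sq_one (R.add_mem hJR (D.smul_mem htS hhR)) e3
    have e5 : ∃ c : ℂ, J + t • h = c • (1 : M2) := by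
      rcases e4 with h | h
      · exact ⟨1, by rw [h, one_smul]⟩
      · exact ⟨-1, by rw [h, neg_smul, one_smul]⟩
    obtain ⟨c, hc⟩ := e5
    have e6 : t • h = c • (1 : M2) - J := by rw [← hc]; abel
    apply hne
    have e7 : t • (h * J) = t • (J * h) := by
      rw [← smul_mul_assoc, ← mul_smul_comm, e6, sub_mul, mul_sub, smul_mul_assoc, mul_smul_comm,
        one_mul, mul_one]
    exact smul_right_injective M2 ht0 e7
  · -- v = 2 h - x + w J has square -2
    set v : M2 := (2 : ℂ) • h - (x : ℂ) • (1 : M2) + (w : ℂ) • J with hv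
    have e1 : v * v = (t ^ 2) • (1 : M2) := by
      have p1 := pol h J
      rw [x3, hJtr, w3, zero_smul, add_zero, mul_zero, sub_zero] at p1
      have p2 := ch h
      rw [x3, hd, one_smul] at p2
      have q1 : v * v = (4 : ℂ) • (h * h) + ((x : ℂ) ^ 2) • (1 : M2) + ((w : ℂ) ^ 2) • (J * J)
          - (4 * x : ℂ) • h + (2 * w : ℂ) • (h * J + J * h) - (2 * x * w : ℂ) • J := by
        rw [hv]
        simp only [mul_add, add_mul, mul_sub, sub_mul, smul_mul_smul_comm, mul_one, one_mul,
          smul_add, smul_sub]
        module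
      have hxc : (x : ℂ) ^ 2 = 1 := by exact_mod_cast hx
      have hwc : (w : ℂ) ^ 2 = 1 := by exact_mod_cast hw1
      rw [q1, p1, p2, hJ2, ht2, hxc, hwc]
      have q2 : (2 * w : ℂ) • ((x : ℂ) • J + (w : ℂ) • (1 : M2)) =
          (2 * x * w : ℂ) • J + (2 : ℂ) • (1 : M2) := by
        rw [smul_add, smul_smul, smul_smul]
        congr 2
        · ring
        · linear_combination 2 * hwc
      rw [q2]
      module
    have hvR : v ∈ R := by
      have i1 : ∀ n : ℤ, (n : ℂ) ∈ S R := fun n => by
        have := D.rat_mem (n : ℚ)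
        simpa using this
      have i2 := i1 2
      push_cast at i2
      exact R.add_mem (R.sub_mem (D.smul_mem i2 hhR) (mem_S.1 (i1 x))) (D.smul_mem (i1 w) hJR)
    have e2 : (v - t • (1 : M2)) * (v + t • (1 : M2)) = 0 := by
      rw [mul_add, sub_mul, sub_mul, e1, mul_smul_comm, smul_mul_assoc, smul_mul_smul_comm,
        one_mul, mul_one, mul_one, sq]
      abel
    have e3 : ∃ c : ℂ, v = c • (1 : M2) := by
      rcases D.dom _ (R.sub_mem hvR (mem_S.1 htS)) _ (R.add_mem hvR (mem_S.1 htS)) e2 with h | h
      · exact ⟨t, sub_eq_zero.1 h⟩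
      · exact ⟨-t, by rw [neg_smul]; exact eq_neg_of_add_eq_zero_left h⟩
    obtain ⟨c, hc⟩ := e3
    have e4 : (2 : ℂ) • h = (c + x) • (1 : M2) - (w : ℂ) • J := by
      rw [add_smul, ← hc, hv]
      abel
    apply hne
    have e7 : (2 : ℂ) • (h * J) = (2 : ℂ) • (J * h) := by
      rw [← smul_mul_assoc, ← mul_smul_comm, e4, sub_mul, mul_sub, smul_mul_assoc, mul_smul_comm,
        one_mul, mul_one, smul_mul_assoc, mul_smul_comm]
    exact smul_right_injective M2 (two_ne_zero (α := ℂ)) e7

end Data

end Pool.Agent.MP_e4ecdb_ag.DK
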