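import Pool.Agent.MP_e4ecdb_ag.QDefs
import Pool.Agent.MP_e4ecdb_ag.TFinal

/-!
Primitive symplectic torus quotients: the real dimension of the space of invariant hermitian forms
is 1, 2 or 4.
-/

open Module

namespace Pool.Agent.MP_e4ecdb_ag.QD

/-! ## Spaces of anticommuting involutions -/

section clifford

variable {B : Type*} [Ring B] [Algebra ℂ B] [Nontrivial B]

/-- A real subspace `S` of a complex algebra in which all squares are real numbers, positive for
nonzero elements, and which contains `i a b` for anticommuting `a, b` in `S`, has real dimension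
0, 1 or 3. -/
theorem finrank_clifford (S : Submodule ℝ B)
    (sq : ∀ a ∈ S, ∃ c : ℝ, 0 ≤ c ∧ (c = 0 → a = 0) ∧ a * a = c • (1 : B))
    (cl : ∀ a ∈ S, ∀ b ∈ S, a * b = -(b * a) → Complex.I • (a * b) ∈ S) :
    finrank ℝ S = 0 ∨ finrank ℝ S = 1 ∨ finrank ℝ S = 3 := by
  classical
  -- the inner product
  have inn : ∀ a ∈ S, ∀ b ∈ S, ∃ c : ℝ, a * b + b * a = c • (1 : B) := by
    intro a ha b hb
    obtain ⟨c1, -, -, h1⟩ := sq a ha
    obtain ⟨c2, -, -, h2⟩ := sq b hb
    obtain ⟨c3, -, -, h3⟩ := sq (a + b) (S.add_mem ha hb)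
    refine ⟨c3 - c1 - c2, ?_⟩
    rw [sub_smul, sub_smul, ← h1, ← h2, ← h3]
    noncomm_ring
  have nrm : ∀ a ∈ S, a ≠ 0 → ∃ r : ℝ, (r • a) * (r • a) = 1 := by
    intro a ha h0
    obtain ⟨c, hc, hc0, h1⟩ := sq a ha
    have hc' : 0 < c := lt_of_le_of_ne hc fun h => h0 (hc0 h.symm)
    refine ⟨(√c)⁻¹, ?_⟩
    rw [smul_mul_smul_comm, h1, smul_smul]
    have : (√c)⁻¹ * (√c)⁻¹ * c = 1 := by
      rw [← mul_inv, Real.mul_self_sqrt hc, inv_mul_cancel₀ hc'.ne']
    rw [this, one_smul]
  by_cases hS0 : S = ⊥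
  · left
    rw [hS0]
    simp
  obtain ⟨e1, h1S, hr⟩ : ∃ e1 ∈ S, e1 * e1 = 1 := by
    obtain ⟨a, haS, ha0⟩ := (Submodule.ne_bot_iff S).1 hS0
    obtain ⟨r, hr⟩ := nrm a haS ha0
    exact ⟨r • a, S.smul_mem _ haS, hr⟩
  have h10 : e1 ≠ 0 := by
    intro h
    rw [h, mul_zero] at hr
    exact zero_ne_one hr
  -- orthogonal part
  have orth : ∀ b ∈ S, ∀ e ∈ S, e * e = 1 → ∃ c : ℝ, (b - c • e) * e = -(e * (b - c • e)) := by
    intro b hb e he h1
    obtain ⟨c, hc⟩ := inn b hb e he
    refine ⟨c / 2, ?_⟩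
    have h2 : (b - (c / 2) • e) * e + e * (b - (c / 2) • e) = 0 := by
      have h3 : (b - (c / 2) • e) * e + e * (b - (c / 2) • e) =
          (b * e + e * b) - c • (e * e) := by
        rw [sub_mul, mul_sub, smul_mul_assoc, mul_smul_comm]
        have h4 : c • (e * e) = (c / 2) • (e * e) + (c / 2) • (e * e) := by
          rw [← add_smul, add_halves]
        rw [h4]
        abel
      rw [h3, hc, h1, sub_self]
    exact eq_neg_of_add_eq_zero_left h2
  by_cases hS1 : S ≤ Submodule.span ℝ {e1}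
  · right; left
    have h2 : S = Submodule.span ℝ {e1} :=
      le_antisymm hS1 ((Submodule.span_singleton_le_iff_mem _ _).2 h1S)
    rw [h2]
    exact finrank_span_singleton h10
  right; right
  obtain ⟨e2, h2S, hr2, a21⟩ : ∃ e2 ∈ S, e2 * e2 = 1 ∧ e2 * e1 = -(e1 * e2) := by
    obtain ⟨b, hbS, hb⟩ := SetLike.not_le_iff_exists.1 hS1
    obtain ⟨c, hc⟩ := orth b hbS e1 h1S hr
    have hb' : b - c • e1 ∈ S := S.sub_mem hbS (S.smul_mem _ h1S)
    have hb0 : b - c • e1 ≠ 0 := by
      intro h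
      apply hb
      rw [sub_eq_zero.1 h]
      exact Submodule.smul_mem _ _ (Submodule.mem_span_singleton_self _)
    obtain ⟨r2, hr2⟩ := nrm _ hb' hb0
    refine ⟨r2 • (b - c • e1), S.smul_mem _ hb', hr2, ?_⟩
    rw [smul_mul_assoc, hc, mul_smul_comm, smul_neg]
  have a12 : e1 * e2 = -(e2 * e1) := by rw [a21, neg_neg]
  obtain ⟨e3, he3⟩ : ∃ e3 : B, e3 = Complex.I • (e1 * e2) := ⟨_, rfl⟩
  have h3S : e3 ∈ S := he3 ▸ cl e1 h1S e2 h2S a12
  have h33 : e3 * e3 = 1 := by
    rw [he3, smul_mul_smul_comm, Complex.I_mul_I]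
    have : e1 * e2 * (e1 * e2) = -1 := by
      calc e1 * e2 * (e1 * e2) = e1 * (e2 * e1) * e2 := by noncomm_ring
        _ = e1 * (-(e1 * e2)) * e2 := by rw [a21]
        _ = -((e1 * e1) * (e2 * e2)) := by noncomm_ring
        _ = -1 := by rw [hr, hr2, mul_one]
    rw [this]
    simp
  have a13 : e1 * e3 = -(e3 * e1) := by
    rw [he3, mul_smul_comm, smul_mul_assoc, ← smul_neg]
    congr 1
    calc e1 * (e1 * e2) = e1 * (-(e2 * e1)) := by rw [← a12]
      _ = -(e1 * e2 * e1) := by noncomm_ring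
  have a23 : e2 * e3 = -(e3 * e2) := by
    rw [he3, mul_smul_comm, smul_mul_assoc, ← smul_neg]
    congr 1
    calc e2 * (e1 * e2) = (e2 * e1) * e2 := by noncomm_ring
      _ = -(e1 * e2 * e2) := by rw [a21]; noncomm_ring
  -- anticommuting with all three means zero
  have key : ∀ d : B, d * e1 = -(e1 * d) → d * e2 = -(e2 * d) → d * e3 = -(e3 * d) → d = 0 := by
    intro d k1 k2 k3
    have k4 : d * (e1 * e2) = (e1 * e2) * d := by
      calc d * (e1 * e2) = (d * e1) * e2 := by noncomm_ring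
        _ = -(e1 * (d * e2)) := by rw [k1]; noncomm_ring
        _ = (e1 * e2) * d := by rw [k2]; noncomm_ring
    have k5 : d * e3 = e3 * d := by
      rw [he3, mul_smul_comm, k4, smul_mul_assoc]
    have k6 : e3 * d = -(e3 * d) := by rw [← k3, k5]
    have k7 : (2 : ℂ) • (e3 * d) = 0 := by
      rw [two_smul]
      nth_rw 1 [k6]
      exact neg_add_cancel _
    have k8 : e3 * d = 0 := by
      rcases smul_eq_zero.1 k7 with h | h
      · norm_num at h
      · exact h
    calc d = (e3 * e3) * d := by rw [h33, one_mul]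
      _ = e3 * (e3 * d) := mul_assoc _ _ _
      _ = 0 := by rw [k8, mul_zero]
  have hspan : S = Submodule.span ℝ (Set.range ![e1, e2, e3]) := by
    apply le_antisymm
    · intro d hd
      obtain ⟨c1, k1⟩ := orth d hd e1 h1S hr
      obtain ⟨c2, k2⟩ := orth d hd e2 h2S hr2
      obtain ⟨c3, k3⟩ := orth d hd e3 h3S h33
      have k0 : d - c1 • e1 - c2 • e2 - c3 • e3 = 0 := by
        refine key _ ?_ ?_ ?_
        · have m2 : e2 * e1 = -(e1 * e2) := a21
          have m3 : e3 * e1 = -(e1 * e3) := by rw [a13, neg_neg]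
          simp only [sub_mul, mul_sub, smul_mul_assoc, mul_smul_comm, m2, m3] at k1 ⊢
          rw [k1]
          simp only [smul_neg]
          abel
        · have m1 : e1 * e2 = -(e2 * e1) := a12
          have m3 : e3 * e2 = -(e2 * e3) := by rw [a23, neg_neg]
          simp only [sub_mul, mul_sub, smul_mul_assoc, mul_smul_comm, m3] at k2 ⊢
          have k2' : d * e2 = c2 • (e2 * e2) + -(e2 * d - c2 • (e2 * e2)) := by
            rw [← k2]; abel
          rw [k2', m1]
          simp only [smul_neg]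
          abel
        · simp only [sub_mul, mul_sub, smul_mul_assoc, mul_smul_comm] at k3 ⊢
          have k3' : d * e3 = c3 • (e3 * e3) + -(e3 * d - c3 • (e3 * e3)) := by
            rw [← k3]; abel
          rw [k3', a13, a23]
          simp only [smul_neg]
          abel
      have k00 : d = c1 • e1 + c2 • e2 + c3 • e3 := by
        have := sub_eq_zero.1 k0
        rw [sub_eq_iff_eq_add, sub_eq_iff_eq_add] at this
        rw [this]; abel
      rw [k00]
      refine Submodule.add_mem _ (Submodule.add_mem _ ?_ ?_) ?_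
      · exact Submodule.smul_mem _ _ (Submodule.subset_span ⟨0, rfl⟩)
      · exact Submodule.smul_mem _ _ (Submodule.subset_span ⟨1, rfl⟩)
      · exact Submodule.smul_mem _ _ (Submodule.subset_span ⟨2, rfl⟩)
    · rw [Submodule.span_le]
      rintro _ ⟨i, rfl⟩
      fin_cases i
      · exact h1S
      · exact h2S
      · exact h3S
  have hind : LinearIndependent ℝ ![e1, e2, e3] := by
    rw [Fintype.linearIndependent_iff]
    intro g hg
    rw [Fin.sum_univ_three] at hg
    simp only [Matrix.cons_val_zero, Matrix.cons_val_one, Matrix.cons_val] at hg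
    have two : ∀ x : ℝ, x • (1 : B) + x • (1 : B) = 0 → x = 0 := by
      intro x hx
      rw [← add_smul] at hx
      rcases smul_eq_zero.1 hx with h | h
      · linarith
      · exact absurd h one_ne_zero
    have m21 : e2 * e1 = -(e1 * e2) := a21
    have m31 : e3 * e1 = -(e1 * e3) := by rw [a13, neg_neg]
    have m32 : e3 * e2 = -(e2 * e3) := by rw [a23, neg_neg]
    have g0 : g 0 = 0 := by
      apply two
      have := congrArg (fun t => t * e1 + e1 * t) hg
      simp only [add_mul, mul_add, smul_mul_assoc, mul_smul_comm, m21, m31, hr, zero_mul, mul_zero,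
        add_zero, smul_neg] at this
      rw [← this]; abel
    have g1 : g 1 = 0 := by
      apply two
      have := congrArg (fun t => t * e2 + e2 * t) hg
      simp only [add_mul, mul_add, smul_mul_assoc, mul_smul_comm, m21, m32, hr2, zero_mul, mul_zero,
        add_zero, smul_neg] at this
      rw [← this]; abel
    have g2 : g 2 = 0 := by
      apply two
      have := congrArg (fun t => t * e3 + e3 * t) hg
      simp only [add_mul, mul_add, smul_mul_assoc, mul_smul_comm, m31, m32, h33, zero_mul, mul_zero,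
        add_zero, smul_neg] at this
      rw [← this]; abel
    intro i
    fin_cases i
    · exact g0
    · exact g1
    · exact g2
  rw [hspan, finrank_span_eq_card hind]
  simp

end clifford

/-! ## Invariant hermitian forms -/

variable {V : Type} [AddCommGroup V] [Module ℂ V]

/-- The real vector space of the hermitian forms which are invariant under the linear maps in `G`. -/
def SH (G : Set (V ≃ₗ[ℂ] V)) : Submodule ℝ (V →ₗ⋆[ℂ] V →ₗ[ℂ] ℂ) where
  carrier := {H | (∀ x y, H x y = (starRingEnd ℂ) (H y x)) ∧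
    ∀ g ∈ G, ∀ x y, H (g x) (g y) = H x y}
  zero_mem' := by simp
  add_mem' := by
    rintro H H' ⟨h1, h2⟩ ⟨h1', h2'⟩
    refine ⟨fun x y => ?_, fun g hg x y => ?_⟩
    · simp only [LinearMap.add_apply, map_add]
      rw [h1 x y, h1' x y]
    · simp only [LinearMap.add_apply]
      rw [h2 g hg, h2' g hg]
  smul_mem' := by
    rintro c H ⟨h1, h2⟩
    refine ⟨fun x y => ?_, fun g hg x y => ?_⟩
    · simp only [LinearMap.smul_apply, Complex.real_smul, map_mul, Complex.conj_ofReal]
      rw [h1 x y]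
    · simp only [LinearMap.smul_apply]
      rw [h2 g hg]

/-- The real vector space of the endomorphisms which commute with `G` and are selfadjoint for `h`. -/
def SA (G : Set (V ≃ₗ[ℂ] V)) (h : V →ₗ⋆[ℂ] V →ₗ[ℂ] ℂ) : Submodule ℝ (Module.End ℂ V) where
  carrier := {a | (∀ x y, h (a x) y = h x (a y)) ∧ ∀ g ∈ G, ∀ x, a (g x) = g (a x)}
  zero_mem' := by simp
  add_mem' := by
    rintro a b ⟨h1, h2⟩ ⟨h1', h2'⟩
    refine ⟨fun x y => ?_, fun g hg x => ?_⟩
    · simp only [LinearMap.add_apply, map_add]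
      rw [h1 x y, h1' x y]
    · simp only [LinearMap.add_apply, map_add]
      rw [h2 g hg, h2' g hg]
  smul_mem' := by
    rintro c a ⟨h1, h2⟩
    refine ⟨fun x y => ?_, fun g hg x => ?_⟩
    · have e1 : (c • a) x = (c : ℂ) • a x := rfl
      have e2 : (c • a) y = (c : ℂ) • a y := rfl
      rw [e1, e2, LinearMap.map_smulₛₗ, map_smul, LinearMap.smul_apply, Complex.conj_ofReal, h1 x y]
    · have e1 : ∀ z, (c • a) z = (c : ℂ) • a z := fun z => rfl
      rw [e1, e1, h2 g hg, map_smul]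

variable [FiniteDimensional ℂ V]

/-- A positive definite hermitian form is a bijection onto the dual space. -/
lemma bij_of_pos (h : V →ₗ⋆[ℂ] V →ₗ[ℂ] ℂ) (hpos : ∀ x, x ≠ 0 → 0 < (h x x).re) :
    Function.Bijective h := by
  have hinj : ∀ x, h x = 0 → x = 0 := by
    intro x hx
    by_contra h0
    have := hpos x h0
    rw [hx] at this
    simp at this
  let hR : V →ₗ[ℝ] (V →ₗ[ℂ] ℂ) :=
    { toFun := fun x => h x
      map_add' := fun x y => map_add h x y
      map_smul' := fun c x => by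
        have e1 : (c • x : V) = (c : ℂ) • x := rfl
        simp only [e1, LinearMap.map_smulₛₗ, Complex.conj_ofReal, RingHom.id_apply]
        rfl }
  have h1 : Function.Injective hR := by
    rw [injective_iff_map_eq_zero]
    exact hinj
  have h2 : finrank ℝ V = finrank ℝ (V →ₗ[ℂ] ℂ) := by
    rw [finrank_real_of_complex, finrank_real_of_complex]
    congr 1
    exact (Subspace.dual_finrank_eq (K := ℂ) (V := V)).symm
  have h3 : Function.Surjective hR := (LinearMap.injective_iff_surjective_of_finrank_eq_finrank h2).1 h1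
  exact ⟨h1, h3⟩

theorem finrank_SH_eq (G : Set (V ≃ₗ[ℂ] V)) (h : V →ₗ⋆[ℂ] V →ₗ[ℂ] ℂ)
    (hh : ∀ x y, h x y = (starRingEnd ℂ) (h y x)) (hG : ∀ g ∈ G, ∀ x y, h (g x) (g y) = h x y)
    (hpos : ∀ x, x ≠ 0 → 0 < (h x x).re) : finrank ℝ (SH G) = finrank ℝ (SA G h) := by
  have hb := bij_of_pos h hpos
  have hinj : ∀ x y, h x = h y → x = y := fun x y hxy => hb.1 hxy
  let Φ : SA G h →ₗ[ℝ] SH G :=
    { toFun := fun a => ⟨h.comp (a : V →ₗ[ℂ] V), by
        obtain ⟨a, h1, h2⟩ := a
        refine ⟨fun x y => ?_, fun g hg x y => ?_⟩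
        · simp only [LinearMap.comp_apply]
          rw [h1, hh x]
        · simp only [LinearMap.comp_apply]
          rw [h2 g hg, hG g hg]⟩
      map_add' := fun a b => by
        ext x y
        simp
      map_smul' := fun c a => by
        ext x y
        have e1 : (c • (a : Module.End ℂ V) x : V) = (c : ℂ) • (a : Module.End ℂ V) x := rfl
        simp only [SetLike.val_smul, LinearMap.comp_apply, LinearMap.smul_apply, RingHom.id_apply]
        rw [e1, LinearMap.map_smulₛₗ, Complex.conj_ofReal]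
        rfl }
  have h1 : Function.Injective Φ := by
    rw [injective_iff_map_eq_zero]
    intro a ha
    ext x
    apply hinj
    have h2 := congrArg (fun H : SH G => (H : V →ₗ⋆[ℂ] V →ₗ[ℂ] ℂ) x) ha
    simpa [Φ] using h2
  have h2 : Function.Surjective Φ := by
    rintro ⟨H, k1, k2⟩
    choose b hb' using fun x => hb.2 (H x)
    let a : V →ₗ[ℂ] V :=
      { toFun := b
        map_add' := fun x y => hinj _ _ (by rw [hb', map_add, map_add, hb', hb'])
        map_smul' := fun c x => hinj _ _ (by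
          rw [hb', LinearMap.map_smulₛₗ, RingHom.id_apply, LinearMap.map_smulₛₗ, hb']) }
    have ha : ∀ x y, h (a x) y = H x y := fun x y => by
      change h (b x) y = H x y
      rw [hb']
    refine ⟨⟨a, fun x y => ?_, fun g hg x => ?_⟩, ?_⟩
    · rw [ha, k1, ← ha, ← hh]
    · apply hinj
      ext y
      have h3 : h (g (a x)) y = h (a x) (g.symm y) := by
        rw [← hG g hg (a x) (g.symm y), LinearEquiv.apply_symm_apply]
      rw [ha, h3, ha, ← k2 g hg x (g.symm y), LinearEquiv.apply_symm_apply]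
    · ext x y
      exact ha x y
  exact (LinearEquiv.ofBijective Φ ⟨h1, h2⟩).finrank_eq.symm

/-- For a primitive symplectic representation the space of the invariant hermitian forms has real
dimension 1, 2 or 4. -/
theorem finrank_SH [Nontrivial V] (G : Set (V ≃ₗ[ℂ] V)) (σ : LinearMap.BilinForm ℂ V)
    (halt : ∀ x, σ x x = 0) (hnd : ∀ x, (∀ y, σ x y = 0) → x = 0)
    (hinv : ∀ g ∈ G, ∀ x y, σ (g x) (g y) = σ x y)
    (hprim : ∀ τ : LinearMap.BilinForm ℂ V, (∀ x, τ x x = 0) →
      (∀ g ∈ G, ∀ x y, τ (g x) (g y) = τ x y) → ∃ c : ℂ, τ = c • σ)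
    (h : V →ₗ⋆[ℂ] V →ₗ[ℂ] ℂ)
    (hh : ∀ x y, h x y = (starRingEnd ℂ) (h y x)) (hG : ∀ g ∈ G, ∀ x y, h (g x) (g y) = h x y)
    (hpos : ∀ x, x ≠ 0 → 0 < (h x x).re) :
    finrank ℝ (SH G) = 1 ∨ finrank ℝ (SH G) = 2 ∨ finrank ℝ (SH G) = 4 := by
  classical
  rw [finrank_SH_eq G h hh hG hpos]
  -- trace and norm
  have htr : ∀ a ∈ SA G h, ∃ t : ℂ, ∀ x y, σ (a x) y + σ x (a y) = t * σ x y := by
    rintro a ⟨-, ha⟩
    obtain ⟨t, ht⟩ := hprim (σ.compl₁₂ a LinearMap.id + σ.compl₁₂ LinearMap.id a) (fun x => by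
      have h1 : σ x (a x) = -σ (a x) x := by
        have h2 := halt (x + a x)
        simp only [map_add, LinearMap.add_apply, halt] at h2
        linear_combination h2
      simp [h1]) (fun g hg x y => by simp [ha g hg, hinv g hg])
    refine ⟨t, fun x y => ?_⟩
    have := congrArg (fun f => f x y) ht
    simpa using this
  have hnm : ∀ a ∈ SA G h, ∃ c : ℂ, ∀ x y, σ (a x) (a y) = c * σ x y := by
    rintro a ⟨-, ha⟩
    obtain ⟨c, hc⟩ := hprim (σ.compl₁₂ a a) (fun x => by simp [halt])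
      (fun g hg x y => by simp [ha g hg, hinv g hg])
    refine ⟨c, fun x y => ?_⟩
    have := congrArg (fun f => f x y) hc
    simpa using this
  have hquad : ∀ a ∈ SA G h, ∀ t c : ℂ, (∀ x y, σ (a x) y + σ x (a y) = t * σ x y) →
      (∀ x y, σ (a x) (a y) = c * σ x y) → ∀ x, a (a x) = t • a x - c • x := by
    intro a _ t c ht hc x
    rw [← sub_eq_zero]
    apply hnd
    intro y
    have h1 := ht (a x) y
    rw [hc] at h1
    simp only [map_sub, LinearMap.sub_apply, map_smul, LinearMap.smul_apply, smul_eq_mul]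
    linear_combination h1
  obtain ⟨x0, hx0⟩ := exists_ne (0 : V)
  obtain ⟨y0, hy0⟩ : ∃ y, σ x0 y ≠ 0 := by
    by_contra hcon
    push Not at hcon
    exact hx0 (hnd x0 hcon)
  have him : ∀ x, (h x x).im = 0 := by
    intro x
    have h1 := congrArg Complex.im (hh x x)
    rw [Complex.conj_im] at h1
    linarith
  have hre0 : ∀ x, (h x x).re = 0 → x = 0 := by
    intro x hx
    by_contra h0
    exact absurd hx (hpos x h0).ne'
  have hself : ∀ a ∈ SA G h, ∀ x, (h x (a x)).im = 0 := by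
    intro a ha x
    have h1 := congrArg Complex.im ((hh x (a x)).trans (congrArg _ (ha.1 x x)))
    rw [Complex.conj_im] at h1
    linarith
  -- a selfadjoint map with vanishing diagonal is zero
  have hdiag : ∀ b ∈ SA G h, (∀ x, (h x (b x)).re = 0) → ∀ y, b y = 0 := by
    intro b hb hd y
    apply hre0
    have h1 := hd (b y + y)
    have h2 := hd (b y)
    have h3 := hd y
    have h4 := hb.1 y (b y)
    simp only [map_add, LinearMap.add_apply, Complex.add_re] at h1
    rw [← h4] at h1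
    linarith
  -- the trace is real
  have htr' : ∀ a ∈ SA G h, ∃ t : ℝ, ∀ x y, σ (a x) y + σ x (a y) = (t : ℂ) * σ x y := by
    intro a ha
    obtain ⟨t, ht⟩ := htr a ha
    obtain ⟨c, hc⟩ := hnm a ha
    have hq := hquad a ha t c ht hc
    suffices h0 : t.im = 0 by
      refine ⟨t.re, fun x y => ?_⟩
      rw [ht]
      congr 1
      exact Complex.ext (by simp) (by simp [h0])
    by_contra h0
    have e1 : ∀ x, t.im * (h x (a x)).re = c.im * (h x x).re := by
      intro x
      have k1 : h (a x) (a x) = t * h x (a x) - c * h x x := by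
        rw [ha.1, hq]
        simp
      have k2 := congrArg Complex.im k1
      rw [him, Complex.sub_im, Complex.mul_im, Complex.mul_im, hself a ha, him] at k2
      linarith
    set κ : ℝ := c.im / t.im with hκ
    have hbS : a - κ • (1 : Module.End ℂ V) ∈ SA G h := by
      refine (SA G h).sub_mem ha ((SA G h).smul_mem _ ⟨fun x y => rfl, fun g _ x => rfl⟩)
    have hb0 := hdiag _ hbS (fun x => by
      have k1 : (a - κ • (1 : Module.End ℂ V)) x = a x - (κ : ℂ) • x := rfl
      rw [k1, map_sub, map_smul, Complex.sub_re, smul_eq_mul, Complex.re_ofReal_mul, hκ,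
        div_mul_eq_mul_div, ← e1 x, mul_div_assoc, mul_comm, div_mul_cancel₀ _ h0, sub_self])
    have k2 : ∀ x, a x = (κ : ℂ) • x := by
      intro x
      have k1 : (a - κ • (1 : Module.End ℂ V)) x = a x - (κ : ℂ) • x := rfl
      have := hb0 x
      rw [k1] at this
      exact sub_eq_zero.1 this
    have k3 := ht x0 y0
    simp only [k2, map_smul, LinearMap.smul_apply, smul_eq_mul, ← add_mul] at k3
    have k4 := mul_right_cancel₀ hy0 k3
    apply h0
    rw [← k4]
    simp
  -- the trace zero part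
  let S0 : Submodule ℝ (Module.End ℂ V) :=
    { carrier := {a | a ∈ SA G h ∧ ∀ x y, σ (a x) y + σ x (a y) = 0}
      zero_mem' := ⟨(SA G h).zero_mem, by simp⟩
      add_mem' := by
        rintro a b ⟨h1, h2⟩ ⟨h1', h2'⟩
        refine ⟨(SA G h).add_mem h1 h1', fun x y => ?_⟩
        simp only [LinearMap.add_apply, map_add]
        linear_combination h2 x y + h2' x y
      smul_mem' := by
        rintro c a ⟨h1, h2⟩
        refine ⟨(SA G h).smul_mem _ h1, fun x y => ?_⟩
        have e1 : ∀ z, (c • a) z = (c : ℂ) • a z := fun z => rfl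
        rw [e1, e1, map_smul, map_smul, LinearMap.smul_apply, smul_eq_mul, smul_eq_mul]
        linear_combination (c : ℂ) * h2 x y }
  have hS0 : ∀ a, a ∈ S0 ↔ a ∈ SA G h ∧ ∀ x y, σ (a x) y + σ x (a y) = 0 := fun a => Iff.rfl
  have h1S : (1 : Module.End ℂ V) ∈ SA G h := ⟨fun x y => rfl, fun g _ x => rfl⟩
  have hsup : SA G h = Submodule.span ℝ {(1 : Module.End ℂ V)} ⊔ S0 := by
    apply le_antisymm
    · intro a ha
      obtain ⟨t, ht⟩ := htr' a ha
      have h2 : a = (t / 2) • (1 : Module.End ℂ V) + (a - (t / 2) • (1 : Module.End ℂ V)) := by abel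
      rw [h2]
      refine Submodule.add_mem_sup (Submodule.smul_mem _ _ (Submodule.mem_span_singleton_self _)) ?_
      refine ⟨(SA G h).sub_mem ha ((SA G h).smul_mem _ h1S), fun x y => ?_⟩
      have k1 : ∀ z, (a - (t / 2) • (1 : Module.End ℂ V)) z = a z - ((t / 2 : ℝ) : ℂ) • z :=
        fun z => rfl
      simp only [k1, map_sub, LinearMap.sub_apply, map_smul, LinearMap.smul_apply, smul_eq_mul]
      have := ht x y
      push_cast
      linear_combination this
    · refine sup_le ((Submodule.span_singleton_le_iff_mem _ _).2 h1S) fun a ha => ha.1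
  have hinf : Submodule.span ℝ {(1 : Module.End ℂ V)} ⊓ S0 = ⊥ := by
    rw [eq_bot_iff]
    rintro a ⟨h1, h2⟩
    obtain ⟨c, rfl⟩ := Submodule.mem_span_singleton.1 h1
    have k1 := h2.2 x0 y0
    have k2 : ∀ z, (c • (1 : Module.End ℂ V)) z = (c : ℂ) • z := fun z => rfl
    simp only [k2, map_smul, LinearMap.smul_apply, smul_eq_mul, ← add_mul] at k1
    have k3 : (c : ℂ) + c = 0 := by
      rcases mul_eq_zero.1 k1 with h | h
      · exact h
      · exact absurd h hy0
    have k4 : c = 0 := by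
      have := congrArg Complex.re k3
      simp at this
      linarith
    rw [k4, zero_smul]
    exact Submodule.zero_mem _
  have hfd : FiniteDimensional ℝ (Module.End ℂ V) := by
    infer_instance
  have hrank : finrank ℝ (SA G h) = 1 + finrank ℝ S0 := by
    have h1 := Submodule.finrank_sup_add_finrank_inf_eq (Submodule.span ℝ {(1 : Module.End ℂ V)}) S0
    rw [hinf, ← hsup, finrank_bot, add_zero, finrank_span_singleton one_ne_zero] at h1
    exact h1
  rw [hrank]
  have hcl := finrank_clifford S0 (fun a ha => by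
    obtain ⟨haS, ha0⟩ := ha
    obtain ⟨c, hc⟩ := hnm a haS
    have hq := hquad a haS 0 c (fun x y => by rw [ha0, zero_mul]) hc
    have k1 : ∀ x, h (a x) (a x) = -c * h x x := by
      intro x
      rw [haS.1, hq]
      simp
    have k2 : ∀ x, (h (a x) (a x)).re = (-c).re * (h x x).re := by
      intro x
      rw [k1, Complex.mul_re, him]
      ring
    have k3 : (-c).im = 0 := by
      have := congrArg Complex.im (k1 x0)
      rw [him, Complex.mul_im, him, mul_zero, zero_add] at this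
      rcases mul_eq_zero.1 this.symm with h | h
      · exact h
      · exact absurd h (hpos x0 hx0).ne'
    have k5 : ∀ x, 0 ≤ (h x x).re := by
      intro x
      by_cases hx : x = 0
      · rw [hx]; simp
      · exact (hpos x hx).le
    have k4 : 0 ≤ (-c).re := by
      by_contra hneg
      have := k2 x0
      have h3 := mul_neg_of_neg_of_pos (not_le.1 hneg) (hpos x0 hx0)
      linarith [k5 (a x0)]
    refine ⟨(-c).re, k4, fun h0 => ?_, ?_⟩
    · ext x
      apply hre0
      rw [k2, h0, zero_mul]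
    · ext x
      have k6 : ((-c).re • (1 : Module.End ℂ V)) x = ((-c).re : ℂ) • x := rfl
      have k7 : (((-c).re : ℝ) : ℂ) = -c := Complex.ext (by simp) (by simpa using k3.symm)
      rw [k6, k7, Module.End.mul_apply, hq]
      simp) (fun a ha b hb hab => by
    have k1 : ∀ x, a (b x) = -(b (a x)) := fun x => congrArg (fun f : Module.End ℂ V => f x) hab
    have k2 : ∀ x, (Complex.I • (a * b)) x = Complex.I • a (b x) := fun x => rfl
    have ka : ∀ x y, σ (a x) y = -σ x (a y) := fun x y => eq_neg_of_add_eq_zero_left (ha.2 x y)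
    have kb : ∀ x y, σ (b x) y = -σ x (b y) := fun x y => eq_neg_of_add_eq_zero_left (hb.2 x y)
    refine ⟨⟨fun x y => ?_, fun g hg x => ?_⟩, fun x y => ?_⟩
    · rw [k2, k2, LinearMap.map_smulₛₗ, LinearMap.smul_apply, map_smul, ha.1.1, hb.1.1, k1 y]
      simp
    · rw [k2, k2, hb.1.2 g hg, ha.1.2 g hg, map_smul]
    · rw [k2, k2, map_smul, map_smul, LinearMap.smul_apply, ka, kb, k1 y]
      simp)
  rcases hcl with h1 | h1 | h1 <;> omega

end Pool.Agent.MP_e4ecdb_ag.QD

namespace Pool.Agent.MP_e4ecdb_ag.QD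

variable {V : Type} [NormedAddCommGroup V] [NormedSpace ℂ V]

/-- the group of the linear parts acts on `V` -/
noncomputable def rho (Γ : Subgroup (V ≃ᵃ[ℂ] V)) : Representation ℂ (TQ.LG Γ) V :=
  (LinearEquiv.automorphismGroup.toLinearMapMonoidHom (R := ℂ) (M := V)).comp (TQ.LG Γ).subtype

lemma rho_apply (Γ : Subgroup (V ≃ᵃ[ℂ] V)) (A : TQ.LG Γ) (x : V) :
    rho Γ A x = (A : V ≃ₗ[ℂ] V) x := rfl

lemma mem_LG {Γ : Subgroup (V ≃ᵃ[ℂ] V)} {γ : V ≃ᵃ[ℂ] V} (hγ : γ ∈ Γ) : γ.linear ∈ TQ.LG Γ :=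
  ⟨γ, hγ, rfl⟩

lemma finite_LG {Γ : Subgroup (V ≃ᵃ[ℂ] V)} (hΓ : IsCrystallographic Γ) : Finite (TQ.LG Γ) := by
  have h1 : ((TQ.LG Γ : Subgroup (V ≃ₗ[ℂ] V)) : Set (V ≃ₗ[ℂ] V)) =
      {A : V ≃ₗ[ℂ] V | ∃ γ ∈ Γ, γ.linear = A} := by
    ext A
    simp [TQ.LG]
  have h2 : ((TQ.LG Γ : Subgroup (V ≃ₗ[ℂ] V)) : Set (V ≃ₗ[ℂ] V)).Finite := by
    rw [h1]; exact hΓ.finite
  exact h2.to_subtype

lemma prim {Γ : Subgroup (V ≃ᵃ[ℂ] V)} {σ : LinearMap.BilinForm ℂ V} (hσ : IsPrimSympl Γ σ) :
    IsPrimitiveSymplectic (rho Γ) σ := by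
  refine ⟨hσ.alt, hσ.nondeg, ?_, ?_, ?_⟩
  · rintro ⟨A, γ, hγ, rfl⟩ x y
    exact hσ.inv γ hγ x y
  · intro τ h1 h2
    apply hσ.prim τ h1
    intro γ hγ x y
    exact h2 ⟨γ.linear, mem_LG hγ⟩ x y
  · intro x hx
    apply hσ.no_inv x
    intro γ hγ
    exact hx ⟨γ.linear, mem_LG hγ⟩

/-- a hermitian form from a basis -/
noncomputable def stdForm {ι : Type} [Fintype ι] (b : Basis ι ℂ V) : V →ₗ⋆[ℂ] V →ₗ[ℂ] ℂ :=
  LinearMap.mk₂'ₛₗ (starRingEnd ℂ) (RingHom.id ℂ)
    (fun x y => ∑ i, (starRingEnd ℂ) (b.repr x i) * b.repr y i)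
    (fun x x' y => by simp [add_mul, Finset.sum_add_distrib])
    (fun c x y => by simp [Finset.mul_sum, mul_assoc])
    (fun x y y' => by simp [mul_add, Finset.sum_add_distrib])
    (fun c x y => by
      simp only [map_smul, Finsupp.smul_apply, smul_eq_mul, Finset.mul_sum, RingHom.id_apply]
      exact Finset.sum_congr rfl fun i _ => by ring)

lemma stdForm_apply {ι : Type} [Fintype ι] (b : Basis ι ℂ V) (x y : V) :
    stdForm b x y = ∑ i, (starRingEnd ℂ) (b.repr x i) * b.repr y i := rfl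

lemma stdForm_pos {ι : Type} [Fintype ι] (b : Basis ι ℂ V) (x : V) (hx : x ≠ 0) :
    0 < (stdForm b x x).re := by
  have h1 : (stdForm b x x).re = ∑ i, Complex.normSq (b.repr x i) := by
    rw [stdForm_apply, Complex.re_sum]
    refine Finset.sum_congr rfl fun i _ => ?_
    rw [← Complex.normSq_eq_conj_mul_self, Complex.ofReal_re]
  rw [h1]
  have h2 : ∃ i, b.repr x i ≠ 0 := by
    by_contra h
    push Not at h
    apply hx
    apply b.repr.map_eq_zero_iff.1
    ext i
    exact h i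
  obtain ⟨i, hi⟩ := h2
  exact Finset.sum_pos' (fun j _ => Complex.normSq_nonneg _)
    ⟨i, Finset.mem_univ _, Complex.normSq_pos.2 hi⟩

/-- there is an invariant Kaehler class -/
theorem exists_pos [FiniteDimensional ℂ V] {Γ : Subgroup (V ≃ᵃ[ℂ] V)} (hΓ : IsCrystallographic Γ) :
    ∃ h ∈ H11 Γ, IsPos h := by
  classical
  have hfin := finite_LG hΓ
  have := Fintype.ofFinite (TQ.LG Γ)
  let b := Module.finBasis ℂ V
  let h : V →ₗ⋆[ℂ] V →ₗ[ℂ] ℂ := LinearMap.mk₂'ₛₗ (starRingEnd ℂ) (RingHom.id ℂ)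
    (fun x y => ∑ A : TQ.LG Γ, stdForm b ((A : V ≃ₗ[ℂ] V) x) ((A : V ≃ₗ[ℂ] V) y))
    (fun x x' y => by simp [Finset.sum_add_distrib])
    (fun c x y => by simp [Finset.mul_sum])
    (fun x y y' => by simp [Finset.sum_add_distrib])
    (fun c x y => by simp [Finset.mul_sum])
  have hh : ∀ x y, h x y = ∑ A : TQ.LG Γ, stdForm b ((A : V ≃ₗ[ℂ] V) x) ((A : V ≃ₗ[ℂ] V) y) :=
    fun x y => rfl
  refine ⟨h, ⟨fun x y => ?_, fun γ hγ x y => ?_⟩, fun x hx => ?_⟩
  · rw [hh, hh, map_sum]
    refine Finset.sum_congr rfl fun A _ => ?_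
    rw [stdForm_apply, stdForm_apply, map_sum]
    refine Finset.sum_congr rfl fun i _ => ?_
    rw [map_mul, Complex.conj_conj, mul_comm]
  · rw [hh, hh]
    refine Fintype.sum_equiv (Equiv.mulRight (⟨γ.linear, mem_LG hγ⟩ : TQ.LG Γ)) _ _ fun A => ?_
    rfl
  · rw [hh, Complex.re_sum]
    refine Finset.sum_pos (fun A _ => stdForm_pos b _ ?_) ⟨1, Finset.mem_univ _⟩
    exact fun h0 => hx ((A : V ≃ₗ[ℂ] V).map_eq_zero_iff.1 h0)


end Pool.Agent.MP_e4ecdb_ag.QD

namespace Pool.Agent.MP_e4ecdb_ag.TQ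

variable {V : Type} [NormedAddCommGroup V] [NormedSpace ℂ V]

/-- The space `H^{1,1}(X, ℝ)` of a primitive symplectic torus quotient has dimension 1, 2 or 4. -/
theorem finrank_H11 [FiniteDimensional ℂ V] {Γ : Subgroup (V ≃ᵃ[ℂ] V)}
    {σ : LinearMap.BilinForm ℂ V} (hΓ : IsCrystallographic Γ) (hσ : IsPrimSympl Γ σ)
    (hV : Nontrivial V) :
    finrank ℝ (H11 Γ) = 1 ∨ finrank ℝ (H11 Γ) = 2 ∨ finrank ℝ (H11 Γ) = 4 := by
  obtain ⟨h, ⟨hh1, hh2⟩, hpos⟩ := QD.exists_pos hΓ
  have e : H11 Γ = QD.SH {A : V ≃ₗ[ℂ] V | ∃ γ ∈ Γ, γ.linear = A} := by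
    ext H
    constructor
    · rintro ⟨h1, h2⟩
      refine ⟨h1, ?_⟩
      rintro _ ⟨γ, hγ, rfl⟩ x y
      exact h2 γ hγ x y
    · rintro ⟨h1, h2⟩
      exact ⟨h1, fun γ hγ x y => h2 γ.linear ⟨γ, hγ, rfl⟩ x y⟩
  rw [e]
  refine QD.finrank_SH _ σ hσ.alt hσ.nondeg ?_ ?_ h hh1 ?_ hpos
  · rintro _ ⟨γ, hγ, rfl⟩ x y
    exact hσ.inv γ hγ x y
  · intro τ h1 h2
    exact hσ.prim τ h1 fun γ hγ x y => h2 γ.linear ⟨γ, hγ, rfl⟩ x y
  · rintro _ ⟨γ, hγ, rfl⟩ x y
    exact hh2 γ hγ x y


end Pool.Agent.MP_e4ecdb_ag.TQ
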