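import Pool.Agent.MP_e4ecdb_ag.QDefs
open Module

/-! Uniqueness of the Beauville-Bogomolov-Fujiki form up to a positive factor. -/

namespace Pool.Agent.MP_e4ecdb_ag.TQ

variable {V : Type} [NormedAddCommGroup V] [NormedSpace ℂ V]

/-- two real quadratic polynomials whose `n`-th powers are proportional and which are positive at `0`
are proportional -/
lemma quad_prop {n : ℕ} (hn : 1 ≤ n) {a b c a' b' c' l : ℝ} (hl : 0 < l) (ha : 0 < a) (ha' : 0 < a')
    (h : ∀ t : ℝ, (a' + b' * t + c' * t ^ 2) ^ n = l ^ n * (a + b * t + c * t ^ 2) ^ n) :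
    c' = l * c := by
  -- near `0` both are positive, so they are proportional there
  have h0 : ∀ᶠ t : ℝ in nhds 0, 0 < a + b * t + c * t ^ 2 ∧ 0 < a' + b' * t + c' * t ^ 2 := by
    apply Filter.Eventually.and
    · have : ContinuousAt (fun t : ℝ => a + b * t + c * t ^ 2) 0 := by fun_prop
      apply this.eventually_const_lt
      simpa using ha
    · have : ContinuousAt (fun t : ℝ => a' + b' * t + c' * t ^ 2) 0 := by fun_prop
      apply this.eventually_const_lt
      simpa using ha'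
  obtain ⟨r, hr, hr2⟩ := Metric.eventually_nhds_iff.1 h0
  have h1 : ∀ t : ℝ, |t| < r → a' + b' * t + c' * t ^ 2 = l * (a + b * t + c * t ^ 2) := by
    intro t ht
    obtain ⟨h2, h3⟩ := hr2 (y := t) (by simpa [Real.dist_eq] using ht)
    have h4 := h t
    rw [← mul_pow] at h4
    exact (pow_left_inj₀ h3.le (mul_pos hl h2).le (by omega)).1 h4
  have e0 := h1 0 (by simpa using hr)
  have e1 := h1 (r / 2) (by rw [abs_of_pos (by linarith)]; linarith)
  have e2 := h1 (-(r / 2)) (by rw [abs_neg, abs_of_pos (by linarith)]; linarith)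
  have h5 : (c' - l * c) * (r ^ 2 / 2) = 0 := by linear_combination e1 + e2 - 2 * e0
  rcases mul_eq_zero.1 h5 with h6 | h6
  · linarith
  · nlinarith

theorem bbf_unique [FiniteDimensional ℂ V] {Γ : Subgroup (V ≃ᵃ[ℂ] V)} (hV : 2 ≤ finrank ℂ V)
    {q q' : QuadraticForm ℝ (H11 Γ)} (hq : IsBBF Γ q) (hq' : IsBBF Γ q') {h : H11 Γ}
    (hh : IsPos h.1) : ∃ l : ℝ, 0 < l ∧ ∀ H, q' H = l * q H := by
  set n := finrank ℂ V / 2 with hn
  have hn1 : 1 ≤ n := by omega
  obtain ⟨c, hc, h1⟩ := hq.fujiki (finBasis ℂ V)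
  obtain ⟨c', hc', h2⟩ := hq'.fujiki (finBasis ℂ V)
  have h3 : ∀ H : H11 Γ, c' * q' H ^ n = c * q H ^ n := by
    intro H
    have := (h2 H).symm.trans (h1 H)
    exact_mod_cast this
  obtain ⟨l, hl, hln⟩ : ∃ l : ℝ, 0 < l ∧ l ^ n = c / c' := by
    refine ⟨(c / c') ^ (1 / (n : ℝ)), Real.rpow_pos_of_pos (div_pos hc hc') _, ?_⟩
    rw [← Real.rpow_natCast, ← Real.rpow_mul (div_pos hc hc').le]
    have : (n : ℝ) ≠ 0 := by positivity
    rw [one_div_mul_cancel this, Real.rpow_one]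
  have h4 : ∀ H : H11 Γ, q' H ^ n = l ^ n * q H ^ n := by
    intro H
    rw [hln, div_mul_eq_mul_div, eq_div_iff hc'.ne']
    linarith [h3 H]
  refine ⟨l, hl, fun H => ?_⟩
  have hexp : ∀ (Q : QuadraticForm ℝ (H11 Γ)) (t : ℝ),
      Q (h + t • H) = Q h + QuadraticMap.polar Q h H * t + Q H * t ^ 2 := by
    intro Q t
    rw [QuadraticMap.map_add (⇑Q), QuadraticMap.map_smul, QuadraticMap.polar_smul_right]
    simp only [smul_eq_mul]
    ring
  exact quad_prop hn1 hl (hq.pos h hh) (hq'.pos h hh) (fun t => by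
    rw [← hexp, ← hexp]; exact h4 _)

/-- Fujiki's relation: `q(H) = 0` if and only if `H` is degenerate. -/
theorem q_zero_iff [FiniteDimensional ℂ V] {Γ : Subgroup (V ≃ᵃ[ℂ] V)} (hV : 2 ≤ finrank ℂ V)
    {q : QuadraticForm ℝ (H11 Γ)} (hq : IsBBF Γ q) (H : H11 Γ) :
    q H = 0 ↔ ∃ x, x ≠ 0 ∧ ∀ y, H.1 x y = 0 := by
  set b := finBasis ℂ V with hb
  obtain ⟨c, hc, h1⟩ := hq.fujiki b
  have hn : finrank ℂ V / 2 ≠ 0 := by omega
  have h2 : q H = 0 ↔ (Matrix.of fun i j => H.1 (b i) (b j)).det = 0 := by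
    rw [h1 H, Complex.ofReal_eq_zero, mul_eq_zero, pow_eq_zero_iff hn]
    exact ⟨Or.inr, fun h => h.resolve_left hc.ne'⟩
  rw [h2, ← Matrix.exists_vecMul_eq_zero_iff]
  constructor
  · rintro ⟨v, hv, hv2⟩
    refine ⟨∑ i, (starRingEnd ℂ) (v i) • b i, ?_, fun y => ?_⟩
    · intro h0
      apply hv
      ext i
      have h3 := Fintype.linearIndependent_iff.1 b.linearIndependent _ h0 i
      simpa using h3
    · have h4 : ∀ j, H.1 (∑ i, (starRingEnd ℂ) (v i) • b i) (b j) = 0 := by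
        intro j
        have h5 := congrFun hv2 j
        simp only [Matrix.vecMul, dotProduct, Matrix.of_apply, Pi.zero_apply] at h5
        rw [map_sum, LinearMap.sum_apply, ← h5]
        apply Finset.sum_congr rfl
        intro i _
        rw [LinearMap.map_smulₛₗ, LinearMap.smul_apply, smul_eq_mul, Complex.conj_conj]
      have h6 : H.1 (∑ i, (starRingEnd ℂ) (v i) • b i) = 0 := b.ext (fun j => by
        rw [h4]; rfl)
      rw [h6]; rfl
  · rintro ⟨x, hx, hx2⟩
    refine ⟨fun i => (starRingEnd ℂ) (b.repr x i), ?_, ?_⟩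
    · intro h0
      apply hx
      apply b.repr.injective
      ext i
      have h3 := congrFun h0 i
      simpa using h3
    · ext j
      simp only [Matrix.vecMul, dotProduct, Matrix.of_apply, Pi.zero_apply]
      rw [← hx2 (b j)]
      conv_rhs => rw [← b.sum_repr x, map_sum, LinearMap.sum_apply]
      apply Finset.sum_congr rfl
      intro i _
      rw [LinearMap.map_smulₛₗ, LinearMap.smul_apply, smul_eq_mul]

/-- two nonzero orthogonal isotropic vectors of a form of signature `(1, m)` are proportional -/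
lemma isotropic_prop {Γ : Subgroup (V ≃ᵃ[ℂ] V)} (q : QuadraticForm ℝ (H11 Γ)) {h : H11 Γ}
    (hneg : ∀ H, H ≠ 0 → QuadraticMap.polar q h H = 0 → q H < 0) {H F : H11 Γ} (hH : H ≠ 0)
    (h1 : q H = 0) (h2 : q F = 0) (h3 : QuadraticMap.polar q H F = 0) : ∃ c : ℝ, F = c • H := by
  have h4 : QuadraticMap.polar q h H ≠ 0 := fun h0 => (hneg H hH h0).ne h1
  refine ⟨QuadraticMap.polar q h F / QuadraticMap.polar q h H, ?_⟩
  set t := QuadraticMap.polar q h F / QuadraticMap.polar q h H with ht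
  by_contra hne
  have h5 : F + (-t) • H ≠ 0 := by
    intro h0
    apply hne
    have h9 : F = F + (-t) • H + t • H := by
      apply Subtype.ext
      simp only [Submodule.coe_add, Submodule.coe_smul]
      module
    rw [h9, h0, zero_add]
  have h6 : QuadraticMap.polar q h (F + (-t) • H) = 0 := by
    rw [QuadraticMap.polar_add_right, QuadraticMap.polar_smul_right, smul_eq_mul, ht,
      neg_mul, div_mul_cancel₀ _ h4, add_neg_cancel]
  have h7 := hneg _ h5 h6
  have h8 : q (F + (-t) • H) = 0 := by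
    rw [QuadraticMap.map_add (⇑q), QuadraticMap.map_smul, h1, h2,
      QuadraticMap.polar_smul_right, QuadraticMap.polar_comm, h3]
    simp
  exact h7.ne h8

/-- two nonzero classes with the same nonzero radical are proportional -/
theorem ray_unique [FiniteDimensional ℂ V] {Γ : Subgroup (V ≃ᵃ[ℂ] V)} (hV : 2 ≤ finrank ℂ V)
    {q : QuadraticForm ℝ (H11 Γ)} (hq : IsBBF Γ q) {h : H11 Γ}
    (hneg : ∀ H, H ≠ 0 → QuadraticMap.polar q h H = 0 → q H < 0) {H F : H11 Γ} (hH : H ≠ 0)
    {x : V} (hx : x ≠ 0) (h1 : ∀ y, H.1 x y = 0) (h2 : ∀ y, F.1 x y = 0) :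
    ∃ c : ℝ, F = c • H := by
  have e1 : q H = 0 := (q_zero_iff hV hq H).2 ⟨x, hx, h1⟩
  have e2 : q F = 0 := (q_zero_iff hV hq F).2 ⟨x, hx, h2⟩
  have e3 : q (H + F) = 0 := (q_zero_iff hV hq _).2 ⟨x, hx, fun y => by
    rw [Submodule.coe_add, LinearMap.add_apply, LinearMap.add_apply, h1, h2, add_zero]⟩
  have e4 : QuadraticMap.polar q H F = 0 := by
    rw [QuadraticMap.polar, e3, e1, e2]
    ring
  exact isotropic_prop q hneg hH e1 e2 e4

end Pool.Agent.MP_e4ecdb_ag.TQ
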