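import Pool.Agent.MP_e4ecdb_ag.BBf
import Pool.Agent.MP_e4ecdb_ag.QCount
import Pool.Agent.MP_e4ecdb_ag.QNorm
import Pool.Agent.MP_e4ecdb_ag.QLine
import Pool.Agent.MP_e4ecdb_ag.QUniq
open Module

/-! Assembly of the numerical trichotomy for line bundles on primitive symplectic torus quotients. -/

namespace Pool.Agent.MP_e4ecdb_ag.TQ

variable {V : Type} [NormedAddCommGroup V] [NormedSpace ℂ V] [FiniteDimensional ℂ V]
  {Γ : Subgroup (V ≃ᵃ[ℂ] V)} {σ : LinearMap.BilinForm ℂ V}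

lemma two_le_finrank (hσ : IsPrimSympl Γ σ) (hV : Nontrivial V) : 2 ≤ finrank ℂ V := by
  by_contra hcon
  have h1 : 0 < finrank ℂ V := finrank_pos
  have h2 : finrank ℂ V = 1 := by omega
  obtain ⟨v, hv, hv2⟩ := finrank_eq_one_iff'.1 h2
  apply hv
  apply hσ.nondeg
  intro y
  obtain ⟨c, rfl⟩ := hv2 y
  rw [map_smul, hσ.alt, smul_zero]

omit [FiniteDimensional ℂ V] in
lemma numLin_eq (Γ : Subgroup (V ≃ᵃ[ℂ] V)) : numLin Γ = Nat.card (LG Γ) := by
  have h1 : ((LG Γ : Subgroup (V ≃ₗ[ℂ] V)) : Set (V ≃ₗ[ℂ] V)) =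
      {A : V ≃ₗ[ℂ] V | ∃ γ ∈ Γ, γ.linear = A} := by
    ext A
    simp [LG]
  unfold numLin
  rw [← h1]
  exact (Nat.card_coe_set_eq _).symm

/-- the line bundles, with `Nat.card (LG Γ)` for the number of linear parts -/
theorem trichotomy (hΓ : IsCrystallographic Γ) (hσ : IsPrimSympl Γ σ) (hV : Nontrivial V) :
    (∃ q, IsBBF Γ q) ∧
    ∀ q, IsBBF Γ q →
      (∃ h, 0 < q h ∧ ∀ H, H ≠ 0 → QuadraticMap.polar q h H = 0 → q H < 0) ∧
      (∀ H, 0 < q H ↔ IsPos H.1 ∨ IsPos (-H.1)) ∧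
      (∀ H, 0 ≤ q H ↔ IsNef H.1 ∨ IsNef (-H.1)) ∧
      (∀ H, q H = 0 ↔ ∃ x, x ≠ 0 ∧ ∀ y, H.1 x y = 0) ∧
      ∀ e, IsFactor Γ e → ∀ H : H11 Γ, IsChern Γ e H.1 →
        (0 < q H → (∀ N ∈ Exps Γ, Induces Γ e ⊥ N) ∨ ∀ N ∈ Exps Γ, Induces Γ (dual e) ⊥ N) ∧
        (q H = 0 → H ≠ 0 → ∃ K ∈ RatStable Γ, (∀ x, x ∈ K ↔ ∀ y, H.1 x y = 0) ∧
          ((∀ N ∈ Exps Γ, Induces Γ e K N) ∨
            ((∀ N ∈ Exps Γ, Induces Γ (dual e) K N) ∧ ¬ IsPseudoeffective Γ H.1))) ∧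
        (q H < 0 → ∀ N, 1 ≤ N → (∀ s ∈ sections Γ e N, s = 0) ∧
          ∀ s ∈ sections Γ (dual e) N, s = 0) ∧
        (H = 0 → ∀ N ∈ Exps Γ, Induces Γ e ⊤ N) := by
  obtain ⟨q, hq, hp1, hp2, hp3, h, hh, hneg⟩ := exists_bbf hΓ hσ hV
  refine ⟨⟨q, hq⟩, fun q' hq' => ?_⟩
  obtain ⟨l, hl, hll⟩ := bbf_unique (two_le_finrank hσ hV) hq hq' hh
  have hpos : ∀ H, 0 < q' H ↔ 0 < q H := by
    intro H
    rw [hll]
    exact mul_pos_iff_of_pos_left hl
  have hzero : ∀ H, q' H = 0 ↔ q H = 0 := by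
    intro H
    rw [hll, mul_eq_zero]
    exact ⟨fun h => h.resolve_left hl.ne', Or.inr⟩
  have hlt : ∀ H, q' H < 0 ↔ q H < 0 := by
    intro H
    rw [hll]
    refine ⟨fun h1 => ?_, fun h1 => mul_neg_of_pos_of_neg hl h1⟩
    by_contra h2
    exact absurd h1 (not_lt.2 (mul_nonneg hl.le (not_lt.1 h2)))
  have hq_neg : ∀ H : H11 Γ, q (-H) = q H := fun H => QuadraticMap.map_neg q H
  have c1 : ∀ H, 0 < q H ↔ IsPos H.1 ∨ IsPos (-H.1) := by
    intro H
    refine ⟨hp1 H, ?_⟩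
    rintro (h1 | h1)
    · exact hq.pos H h1
    · have h2 : IsPos ((-H : H11 Γ) : V →ₗ⋆[ℂ] V →ₗ[ℂ] ℂ) := by
        rw [Submodule.coe_neg]; exact h1
      rw [← hq_neg]
      exact hq.pos _ h2
  have posnef : ∀ F : V →ₗ⋆[ℂ] V →ₗ[ℂ] ℂ, IsPos F → IsNef F := by
    intro F h1 x
    by_cases hx : x = 0
    · simp [hx]
    · exact (h1 x hx).le
  have c2 : ∀ H, 0 ≤ q H ↔ IsNef H.1 ∨ IsNef (-H.1) := by
    intro H
    constructor
    · intro h0
      rcases h0.lt_or_eq with h1 | h1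
      · exact (hp1 H h1).imp (posnef _) (posnef _)
      · by_cases h2 : H = 0
        · left
          intro x
          rw [h2]
          simp
        · exact (hp2 H h1.symm h2).1
    · intro h0
      by_contra hcon
      push Not at hcon
      obtain ⟨⟨x, hx⟩, y, hy⟩ := hp3 H hcon
      rcases h0 with h1 | h1
      · exact absurd (h1 x) (not_le.2 hx)
      · have h2 := h1 y
        rw [LinearMap.neg_apply, LinearMap.neg_apply, Complex.neg_re] at h2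
        linarith
  have hex : ∀ N ∈ Exps Γ, 1 ≤ N ∧ 3 * Nat.card (LG Γ) ^ 2 ∣ N := by
    intro N hN
    rw [← numLin_eq]
    exact hN
  refine ⟨⟨h, (hpos h).2 (hq.pos h hh), fun H hH hpol => ?_⟩, fun H => (hpos H).trans (c1 H),
    fun H => ?_, fun H => q_zero_iff (two_le_finrank hσ hV) hq' H, fun e he H hH => ⟨fun h0 => ?_, fun h0 hne => ?_, fun h0 N hN => ⟨?_, ?_⟩, fun h0 N hN => ?_⟩⟩
  · rw [hlt]
    apply hneg H hH
    have h1 : QuadraticMap.polar q' h H = l * QuadraticMap.polar q h H := by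
      simp only [QuadraticMap.polar, hll]
      ring
    rw [h1, mul_eq_zero] at hpol
    exact hpol.resolve_left hl.ne'
  · rw [← c2]
    constructor
    · intro h1
      by_contra hcon
      push Not at hcon
      exact absurd h1 (not_le.2 ((hlt H).2 hcon))
    · intro h1
      by_contra hcon
      push Not at hcon
      exact absurd h1 (not_le.2 ((hlt H).1 hcon))
  · rcases hp1 H ((hpos H).1 h0) with h1 | h1
    · left
      intro N hN
      exact line_pos hΓ hσ.no_inv he hH h1 (hex N hN).1 (hex N hN).2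
    · right
      intro N hN
      exact line_pos hΓ hσ.no_inv (dual_factor he) (dual_chern hH) h1 (hex N hN).1 (hex N hN).2
  · have hne' : H.1 ≠ 0 := fun h1 => hne (Subtype.ext h1)
    obtain ⟨h1, x, hx, hx2⟩ := hp2 H ((hzero H).1 h0) hne
    by_cases h2 : IsNef H.1
    · obtain ⟨h3, h4⟩ := line_nef hΓ hσ.no_inv he hH h2 hne' ⟨x, hx, hx2⟩
      exact ⟨kerForm H.1, h3, fun x => mem_kerForm _ x,
        Or.inl fun N hN => h4 N (hex N hN).1 (hex N hN).2⟩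
    · have h5 := h1.resolve_left h2
      have hne2 : -H.1 ≠ 0 := neg_ne_zero.2 hne'
      obtain ⟨h3, h4⟩ := line_nef hΓ hσ.no_inv (dual_factor he) (dual_chern hH) h5 hne2
        ⟨x, hx, fun y => by rw [LinearMap.neg_apply, LinearMap.neg_apply, hx2, neg_zero]⟩
      rw [kerForm_neg] at h3 h4
      refine ⟨kerForm H.1, h3, fun x => mem_kerForm _ x,
        Or.inr ⟨fun N hN => h4 N (hex N hN).1 (hex N hN).2, fun h6 => h2 ?_⟩⟩
      exact semipos_of_psef hΓ h6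
  · intro s hs
    exact sections_zero hΓ he hH (hp3 H ((hlt H).1 h0)).1 hN hs
  · intro s hs
    obtain ⟨y, hy⟩ := (hp3 H ((hlt H).1 h0)).2
    refine sections_zero hΓ (dual_factor he) (dual_chern hH) ⟨y, ?_⟩ hN hs
    rw [LinearMap.neg_apply, LinearMap.neg_apply, Complex.neg_re]
    linarith
  · have h1 : kerForm H.1 = ⊤ := by
      rw [eq_top_iff]
      intro x _
      rw [mem_kerForm, h0]
      intro y
      rfl
    have h2 := (effective_nef hΓ hσ.no_inv he hH (fun x => by rw [h0]; simp)).2.2 N (hex N hN).1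
      (hex N hN).2
    rw [h1] at h2
    exact h2

/-- the classes with a given radical form one line -/
theorem ray_unique' (hΓ : IsCrystallographic Γ) (hσ : IsPrimSympl Γ σ) (hV : Nontrivial V)
    {K : Submodule ℂ V} (hK : K ≠ ⊥) {H F : H11 Γ} (hH : H ≠ 0) (h1 : ∀ x ∈ K, ∀ y, H.1 x y = 0)
    (h2 : ∀ x ∈ K, ∀ y, F.1 x y = 0) : ∃ c : ℝ, F = c • H := by
  obtain ⟨q, hq, -, -, -, h, -, hneg⟩ := exists_bbf hΓ hσ hV
  obtain ⟨x, hx, hx0⟩ := Submodule.exists_mem_ne_zero_of_ne_bot hK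
  exact ray_unique (two_le_finrank hσ hV) hq hneg hH hx0 (h1 x hx) (h2 x hx)

end Pool.Agent.MP_e4ecdb_ag.TQ
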