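import Mathlib
open Module

/-! Definitions for the statement on primitive symplectic torus quotients `X = V / Γ`: affine
automorphisms, line bundles, their sections, the classes in `H^{1,1}(X, ℝ)`, the
Beauville-Bogomolov-Fujiki form and the Lagrangian fibrations. -/

namespace Pool.Agent.MP_e4ecdb_ag.SYZ

variable {V : Type} [NormedAddCommGroup V] [NormedSpace ℂ V]

/-- The linear part of an affine map `γ : V → V`. -/
def lin (γ : Equiv.Perm V) (x : V) : V := γ x - γ 0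

/-- `Γ` is a group of `ℂ`-affine automorphisms of the complex vector space `V` whose translations form
a lattice `Λ` (the `ℤ`-span of a real basis) and whose linear parts form a finite set. So
`X = V / Γ = T / G` with the complex torus `T = V / Λ` and the finite group `G = Γ / Λ`. -/
structure IsCryst (Γ : Subgroup (Equiv.Perm V)) : Prop where
  affine : ∀ γ ∈ Γ, ∃ A : V ≃ₗ[ℂ] V, ∀ v, γ v = A v + γ 0
  lattice : ∃ (ι : Type) (_ : Fintype ι) (b : Basis ι ℝ V), ∀ x : V,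
    x ∈ Submodule.span ℤ (Set.range b) ↔ Equiv.addLeft x ∈ Γ
  finite : {f : V → V | ∃ γ ∈ Γ, lin γ = f}.Finite

/-- `X = V / Γ` is a primitive symplectic variety with symplectic form `σ`: `σ` is a `Γ`-invariant
nondegenerate alternating form on `V`, every `Γ`-invariant alternating form is a multiple of `σ`
(`H^0(X, Ω^[2]) = ℂ σ`), and no nonzero vector is fixed by all linear parts (`H^1(X, O_X) = 0`). -/
structure IsPrimSympl (Γ : Subgroup (Equiv.Perm V)) (σ : LinearMap.BilinForm ℂ V) : Prop where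
  alt : ∀ x, σ x x = 0
  nondeg : ∀ x, (∀ y, σ x y = 0) → x = 0
  inv : ∀ γ ∈ Γ, ∀ x y, σ (lin γ x) (lin γ y) = σ x y
  prim : ∀ τ : LinearMap.BilinForm ℂ V, (∀ x, τ x x = 0) →
    (∀ γ ∈ Γ, ∀ x y, τ (lin γ x) (lin γ y) = τ x y) → ∃ c : ℂ, τ = c • σ
  no_inv : ∀ x, (∀ γ ∈ Γ, lin γ x = x) → x = 0

/-- A holomorphic line bundle `L` on `X = V / Γ`, given by the factor of automorphy `e` of its
pull-back to `V` (a holomorphic `1`-cocycle; the line bundles on the space `X` are the case where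
`e γ v = 1` whenever `γ v = v`, which is not needed). -/
structure IsFactor (Γ : Subgroup (Equiv.Perm V)) (e : Equiv.Perm V → V → ℂ) : Prop where
  holo : ∀ γ ∈ Γ, Differentiable ℂ (e γ)
  ne_zero : ∀ γ ∈ Γ, ∀ v, e γ v ≠ 0
  mul : ∀ γ ∈ Γ, ∀ δ ∈ Γ, ∀ v, e (γ * δ) v = e γ (δ v) * e δ v

/-- The global sections of `L^k` on `X = V / Γ`. -/
def sections (Γ : Subgroup (Equiv.Perm V)) (e : Equiv.Perm V → V → ℂ) (k : ℕ) : Set (V → ℂ) :=
  {s | Differentiable ℂ s ∧ ∀ γ ∈ Γ, ∀ v, s (γ v) = e γ v ^ k * s v}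

/-- The factor of automorphy of the dual line bundle. -/
noncomputable def dual (e : Equiv.Perm V → V → ℂ) : Equiv.Perm V → V → ℂ := fun γ v => (e γ v)⁻¹

/-- `H^{1,1}(X, ℝ)` for `X = V / Γ`: the real vector space of the `Γ`-invariant hermitian forms. -/
def H11 (Γ : Subgroup (Equiv.Perm V)) : Set (V →ₗ⋆[ℂ] V →ₗ[ℂ] ℂ) :=
  {H | (∀ x y, H x y = (starRingEnd ℂ) (H y x)) ∧
    ∀ γ ∈ Γ, ∀ x y, H (lin γ x) (lin γ y) = H x y}

/-- `r = dim H^{1,1}(X, ℝ)`, so that `b_2(X) = r + 2`. -/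
noncomputable def h11 (Γ : Subgroup (Equiv.Perm V)) : ℕ := finrank ℝ (Submodule.span ℝ (H11 Γ))

/-- `H` represents `c_1(L)`: it is in `H11 Γ`, and the bundle has the hermitian metric
`|s|^2 |u|^2 exp (-π H(v, v))` for a nowhere zero entire function `u`, that is, this expression is
`Γ`-invariant when `s (γ v) = e γ v * s v`. -/
structure IsChern (Γ : Subgroup (Equiv.Perm V)) (e : Equiv.Perm V → V → ℂ)
    (H : V →ₗ⋆[ℂ] V →ₗ[ℂ] ℂ) : Prop where
  mem : H ∈ H11 Γ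
  metric : ∃ u : V → ℂ, Differentiable ℂ u ∧ (∀ v, u v ≠ 0) ∧ ∀ γ ∈ Γ, ∀ v,
    ‖e γ v‖ ^ 2 * (‖u (γ v)‖ ^ 2 * Real.exp (-Real.pi * (H (γ v) (γ v)).re)) =
      ‖u v‖ ^ 2 * Real.exp (-Real.pi * (H v v).re)

/-- `H` is a Kaehler class: the hermitian form is positive definite. -/
def IsPos (H : V →ₗ⋆[ℂ] V →ₗ[ℂ] ℂ) : Prop := ∀ x, x ≠ 0 → 0 < (H x x).re

/-- `H` is a nef class: the hermitian form is positive semidefinite. -/
def IsNef (H : V →ₗ⋆[ℂ] V →ₗ[ℂ] ℂ) : Prop := ∀ x, 0 ≤ (H x x).re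

/-- `x` is in the radical of `H`. -/
def InRad (H : V →ₗ⋆[ℂ] V →ₗ[ℂ] ℂ) (x : V) : Prop := ∀ y, H x y = 0

/-- `H` is an integral class: its imaginary part takes integral values on lattice vectors. -/
def IsInt (Γ : Subgroup (Equiv.Perm V)) (H : V →ₗ⋆[ℂ] V →ₗ[ℂ] ℂ) : Prop :=
  ∀ x y, Equiv.addLeft x ∈ Γ → Equiv.addLeft y ∈ Γ → ∃ n : ℤ, (H x y).im = n

/-- The classes generating the pseudoeffective cone of `X = V / Γ`: Chern classes of line bundles with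
a nonzero section, and nef classes (limits of Kaehler classes). -/
def IsEff (Γ : Subgroup (Equiv.Perm V)) (F : V →ₗ⋆[ℂ] V →ₗ[ℂ] ℂ) : Prop :=
  (∃ e, IsFactor Γ e ∧ IsChern Γ e F ∧ ∃ s ∈ sections Γ e 1, s ≠ 0) ∨ (F ∈ H11 Γ ∧ IsNef F)

/-- `H` is pseudoeffective: it is a limit of finite sums of nonnegative real multiples of the classes
of `IsEff`. -/
def IsPsef (Γ : Subgroup (Equiv.Perm V)) (H : V →ₗ⋆[ℂ] V →ₗ[ℂ] ℂ) : Prop :=
  ∃ (N : ℕ → ℕ) (a : (n : ℕ) → Fin (N n) → ℝ) (F : (n : ℕ) → Fin (N n) → (V →ₗ⋆[ℂ] V →ₗ[ℂ] ℂ)),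
    (∀ n i, 0 ≤ a n i ∧ IsEff Γ (F n i)) ∧
    ∀ x y, Filter.Tendsto (fun n => ∑ i, (a n i : ℂ) * F n i x y) Filter.atTop (nhds (H x y))

/-- `q` restricts on `H11 Γ` to a Beauville-Bogomolov-Fujiki form of `X = V / Γ` (up to a positive
factor): it satisfies Fujiki's relation `∫ H^(2n) = c q(H)^n`, `2n = dim X` (the integral is a constant
times the Gram determinant in any basis of `V`), and is positive on Kaehler classes. -/
structure IsBBF (Γ : Subgroup (Equiv.Perm V)) (q : QuadraticForm ℝ (V →ₗ⋆[ℂ] V →ₗ[ℂ] ℂ)) : Prop where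
  fujiki : ∀ b : Basis (Fin (finrank ℂ V)) ℂ V, ∃ c : ℝ, 0 < c ∧ ∀ H ∈ H11 Γ,
    (Matrix.of fun i j => H (b i) (b j)).det = ((c * q H ^ (finrank ℂ V / 2) : ℝ) : ℂ)
  pos : ∀ H ∈ H11 Γ, IsPos H → 0 < q H

/-- The number of linear parts of `Γ`, that is, the order of `G` for `X = T / G`. -/
noncomputable def numLin (Γ : Subgroup (Equiv.Perm V)) : ℕ :=
  Set.ncard {f : V → V | ∃ γ ∈ Γ, lin γ = f}

/-- The linear system `|L^N|` on `X = V / Γ` has no base points, and the map it defines takes the same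
value at `v` and `w` if and only if `w` is `Γ`-equivalent to a point of `v + K`: it is the quotient map
`X → (V / K) / Γ`. For `K = 0` it is injective on `X`, for `K = V` the bundle `L^N` is trivial. -/
def InducesAt (Γ : Subgroup (Equiv.Perm V)) (e : Equiv.Perm V → V → ℂ) (K : Submodule ℂ V) (N : ℕ) : Prop :=
  (∀ v, ∃ s ∈ sections Γ e N, s v ≠ 0) ∧
    ∀ v w, (∀ s ∈ sections Γ e N, ∀ t ∈ sections Γ e N, s v * t w = s w * t v) ↔
      ∃ γ ∈ Γ, γ w - v ∈ K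

/-- `InducesAt` for every positive multiple `N` of `3 g ^ 2`, `g = numLin Γ`. -/
def Induces (Γ : Subgroup (Equiv.Perm V)) (e : Equiv.Perm V → V → ℂ) (K : Submodule ℂ V) : Prop :=
  ∀ N : ℕ, 1 ≤ N → 3 * numLin Γ ^ 2 ∣ N → InducesAt Γ e K N

/-- The `Γ`-stable complex subspaces `K ≠ 0, V` of `V` spanned over `ℝ` by lattice vectors. They
correspond to the fibrations `X → (V / K) / Γ` of `X = V / Γ`. -/
def RatStable (Γ : Subgroup (Equiv.Perm V)) : Set (Submodule ℂ V) :=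
  {K | K ≠ ⊥ ∧ K ≠ ⊤ ∧ (∀ γ ∈ Γ, ∀ x ∈ K, lin γ x ∈ K) ∧
    K.restrictScalars ℝ = Submodule.span ℝ {x | Equiv.addLeft x ∈ Γ ∧ x ∈ K}}

/-- `q` has signature `(1, r - 1)` on `H11 Γ` and describes the cones of `X = V / Γ`: `q(H) > 0` if and
only if `H` or `-H` is a Kaehler class, `q(H) ≥ 0` if and only if `H` or `-H` is nef, and `q(H) = 0` if
and only if `H` is degenerate. -/
structure Cones (Γ : Subgroup (Equiv.Perm V)) (q : QuadraticForm ℝ (V →ₗ⋆[ℂ] V →ₗ[ℂ] ℂ)) : Prop where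
  signature : ∃ h ∈ H11 Γ, 0 < q h ∧ ∀ H ∈ H11 Γ, H ≠ 0 → QuadraticMap.polar q h H = 0 → q H < 0
  kaehler : ∀ H ∈ H11 Γ, (0 < q H ↔ IsPos H ∨ IsPos (-H))
  nef : ∀ H ∈ H11 Γ, (0 ≤ q H ↔ IsNef H ∨ IsNef (-H))
  degenerate : ∀ H ∈ H11 Γ, (q H = 0 ↔ ∃ x, x ≠ 0 ∧ InRad H x)

/-- What the sign of `q(H)`, `H = c_1(L)`, says about the line bundle `L` with factor of automorphy
`e`; `N` is any positive multiple of `3 g ^ 2`. If `q(H) > 0`, then `|L^N|` or `|L^(-N)|` is base point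
free and injective on `X`. If `q(H) = 0` and `H ≠ 0`, then `|L^N|` or `|L^(-N)|` is base point free and
defines the map `X → (V / K) / Γ`, where `K`, the radical of `H`, is in `RatStable Γ`, and in the second
case `L` is not pseudoeffective. If `q(H) < 0`, then no `L^k`, `k ≠ 0`, has a nonzero section. If
`H = 0`, then `L^N` is trivial. -/
structure Trichotomy (Γ : Subgroup (Equiv.Perm V)) (q : QuadraticForm ℝ (V →ₗ⋆[ℂ] V →ₗ[ℂ] ℂ))
    (e : Equiv.Perm V → V → ℂ) (H : V →ₗ⋆[ℂ] V →ₗ[ℂ] ℂ) : Prop where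
  pos : 0 < q H → Induces Γ e ⊥ ∨ Induces Γ (dual e) ⊥
  null : q H = 0 → H ≠ 0 → ∃ K ∈ RatStable Γ, (∀ x, x ∈ K ↔ InRad H x) ∧
    (Induces Γ e K ∨ (Induces Γ (dual e) K ∧ ¬ IsPsef Γ H))
  neg : q H < 0 → ∀ k, 1 ≤ k → ∀ s, s ∈ sections Γ e k ∨ s ∈ sections Γ (dual e) k → s = 0
  zero : H = 0 → Induces Γ e ⊤

/-- `K` is a Lagrangian subspace for `σ`. -/
def IsLagr (σ : LinearMap.BilinForm ℂ V) (K : Submodule ℂ V) : Prop :=
  (∀ x ∈ K, ∀ y ∈ K, σ x y = 0) ∧ 2 * finrank ℂ K = finrank ℂ V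

/-- `K` is the radical of an integral nef class `H`, and the classes `F` with `F(K, V) = 0` are the
real multiples of `H`. -/
def IsRay (Γ : Subgroup (Equiv.Perm V)) (K : Submodule ℂ V) : Prop :=
  ∃ H ∈ H11 Γ, IsInt Γ H ∧ IsNef H ∧ (∀ x, x ∈ K ↔ InRad H x) ∧
    ∀ F ∈ H11 Γ, (∀ x ∈ K, InRad F x) → ∃ c : ℝ, F = c • H

/-- Every meromorphic function `s / t` on `X = V / Γ`, where `s`, `t` are sections of a line bundle,
is constant along the translates of `K`. -/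
def ConstAlong (Γ : Subgroup (Equiv.Perm V)) (K : Submodule ℂ V) : Prop :=
  ∀ e H, IsFactor Γ e → IsChern Γ e H → ∀ s ∈ sections Γ e 1, ∀ t ∈ sections Γ e 1,
    ∀ v w, w - v ∈ K → s v * t w = s w * t v

end Pool.Agent.MP_e4ecdb_ag.SYZ
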