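import Mathlib
open Module

/-! Torus quotients `X = V / Γ`, line bundles on them, and their sections. -/

namespace Pool.Agent.MP_e4ecdb_ag

variable {V : Type} [NormedAddCommGroup V] [NormedSpace ℂ V]

/-- `Γ` is a group of affine automorphisms of the complex vector space `V` whose translations form a
lattice `Λ` (the `ℤ`-span of a real basis) and whose linear parts form a finite set. So
`X = V / Γ = T / G` with the complex torus `T = V / Λ` and the finite group `G = Γ / Λ`. -/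
structure IsCrystallographic (Γ : Subgroup (V ≃ᵃ[ℂ] V)) : Prop where
  lattice : ∃ (ι : Type) (_ : Fintype ι) (b : Basis ι ℝ V), ∀ x : V,
    x ∈ Submodule.span ℤ (Set.range b) ↔ AffineEquiv.constVAdd ℂ V x ∈ Γ
  finite : {A : V ≃ₗ[ℂ] V | ∃ γ ∈ Γ, γ.linear = A}.Finite

/-- `X = V / Γ` is a primitive symplectic variety with symplectic form `σ`: `σ` is a `Γ`-invariant
nondegenerate alternating form on `V`, every `Γ`-invariant alternating form is a multiple of `σ`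
(`H^0(X, Ω^[2]) = ℂ σ`), and no nonzero vector is fixed by all linear parts (`H^1(X, O_X) = 0`). -/
structure IsPrimSympl (Γ : Subgroup (V ≃ᵃ[ℂ] V)) (σ : LinearMap.BilinForm ℂ V) : Prop where
  alt : ∀ x, σ x x = 0
  nondeg : ∀ x, (∀ y, σ x y = 0) → x = 0
  inv : ∀ γ ∈ Γ, ∀ x y, σ (γ.linear x) (γ.linear y) = σ x y
  prim : ∀ τ : LinearMap.BilinForm ℂ V, (∀ x, τ x x = 0) →
    (∀ γ ∈ Γ, ∀ x y, τ (γ.linear x) (γ.linear y) = τ x y) → ∃ c : ℂ, τ = c • σ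
  no_inv : ∀ x, (∀ γ ∈ Γ, γ.linear x = x) → x = 0

/-- A holomorphic line bundle `L` on `X = V / Γ`, given by the factor of automorphy `e` of its
pull-back to `V` (a holomorphic `1`-cocycle; the line bundles on `X` are the case where
`e γ v = 1` whenever `γ v = v`, which is not needed). -/
structure IsFactor (Γ : Subgroup (V ≃ᵃ[ℂ] V)) (e : (V ≃ᵃ[ℂ] V) → V → ℂ) : Prop where
  holo : ∀ γ ∈ Γ, Differentiable ℂ (e γ)
  ne_zero : ∀ γ ∈ Γ, ∀ v, e γ v ≠ 0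
  mul : ∀ γ ∈ Γ, ∀ δ ∈ Γ, ∀ v, e (γ * δ) v = e γ (δ v) * e δ v

/-- The `Γ`-invariant hermitian form `H` represents `c_1(L)`: the bundle has the hermitian metric
`|s|^2 |u|^2 exp (-π H(v, v))` for a nowhere zero entire function `u`, that is, this expression is
`Γ`-invariant when `s (γ v) = e γ v * s v`. -/
structure IsChern (Γ : Subgroup (V ≃ᵃ[ℂ] V)) (e : (V ≃ᵃ[ℂ] V) → V → ℂ)
    (H : V →ₗ⋆[ℂ] V →ₗ[ℂ] ℂ) : Prop where
  herm : ∀ x y, H x y = (starRingEnd ℂ) (H y x)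
  inv : ∀ γ ∈ Γ, ∀ x y, H (γ.linear x) (γ.linear y) = H x y
  metric : ∃ u : V → ℂ, Differentiable ℂ u ∧ (∀ v, u v ≠ 0) ∧ ∀ γ ∈ Γ, ∀ v,
    ‖e γ v‖ ^ 2 * (‖u (γ v)‖ ^ 2 * Real.exp (-Real.pi * (H (γ v) (γ v)).re)) =
      ‖u v‖ ^ 2 * Real.exp (-Real.pi * (H v v).re)

/-- The global sections of `L^k` on `X = V / Γ`. -/
def sections (Γ : Subgroup (V ≃ᵃ[ℂ] V)) (e : (V ≃ᵃ[ℂ] V) → V → ℂ) (k : ℕ) : Set (V → ℂ) :=
  {s | Differentiable ℂ s ∧ ∀ γ ∈ Γ, ∀ v, s (γ v) = e γ v ^ k * s v}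

end Pool.Agent.MP_e4ecdb_ag
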