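import Pool.Agent.MP_e4ecdb_ag.TNormal
open Module

namespace Pool.Agent.MP_e4ecdb_ag.TQ

variable {V : Type} [NormedAddCommGroup V] [NormedSpace ℂ V]

lemma tr_lin_mem {Γ : Subgroup (V ≃ᵃ[ℂ] V)} {x : V} (hx : tr x ∈ Γ) {γ : V ≃ᵃ[ℂ] V}
    (hγ : γ ∈ Γ) : tr (γ.linear x) ∈ Γ := by
  have h1 := mul_tr γ x
  have h2 : tr (γ.linear x) = γ * tr x * γ⁻¹ := by rw [h1, mul_assoc, mul_inv_cancel, mul_one]
  rw [h2]
  exact Γ.mul_mem (Γ.mul_mem hγ hx) (Γ.inv_mem hγ)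

section lat

variable {Γ : Subgroup (V ≃ᵃ[ℂ] V)} {H : V →ₗ⋆[ℂ] V →ₗ[ℂ] ℂ}
  {f : (V ≃ᵃ[ℂ] V) → V → ℂ} {c : (V ≃ᵃ[ℂ] V) → ℂ} (hN : Normal Γ H f c)

include hN

lemma c_ne_zero {γ : V ≃ᵃ[ℂ] V} (hγ : γ ∈ Γ) : c γ ≠ 0 := by
  intro h
  have := hN.norm γ hγ
  rw [h, norm_zero] at this
  exact zero_ne_one this

lemma f_ne_zero {γ : V ≃ᵃ[ℂ] V} (hγ : γ ∈ Γ) (v : V) : f γ v ≠ 0 := by
  rw [hN.form γ hγ v]
  exact mul_ne_zero (c_ne_zero hN hγ) (Complex.exp_ne_zero _)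

lemma f_tr {x : V} (hx : tr x ∈ Γ) (v : V) :
    f (tr x) v = c (tr x) * Complex.exp (Real.pi * H x v + Real.pi / 2 * H x x) := by
  rw [hN.form _ hx v]
  have : tr x 0 = x := by rw [tr_apply, add_zero]
  rw [this, tr_linear]

lemma f_tr_ker {x : V} (hx : tr x ∈ Γ) (hk : ∀ y, H x y = 0) (v : V) :
    f (tr x) v = c (tr x) := by
  rw [f_tr hN hx v, hk, hk]
  simp

lemma ker_symm {x : V} (hk : ∀ y, H x y = 0) (y : V) : H y x = 0 := by
  rw [hN.herm, hk, map_zero]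

lemma c_add {x y : V} (hx : tr x ∈ Γ) (hy : tr y ∈ Γ) (hk : ∀ z, H y z = 0) :
    c (tr (x + y)) = c (tr x) * c (tr y) := by
  have h1 := hN.mul _ hx _ hy 0
  rw [tr_mul] at h1
  have hxy : tr (x + y) ∈ Γ := by rw [← tr_mul]; exact Γ.mul_mem hx hy
  rw [f_tr hN hxy, f_tr hN hx, f_tr_ker hN hy hk, tr_apply, add_zero] at h1
  simp only [map_add, LinearMap.add_apply, hk, ker_symm hN hk, map_zero, mul_zero, add_zero,
    zero_add] at h1
  have h2 := Complex.exp_ne_zero (Real.pi / 2 * H x x : ℂ)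
  apply mul_right_cancel₀ h2
  rw [h1]; ring

lemma ker_lin {x : V} (hk : ∀ y, H x y = 0) {γ : V ≃ᵃ[ℂ] V} (hγ : γ ∈ Γ) (y : V) :
    H (γ.linear x) y = 0 := by
  have h1 : y = γ.linear (γ.linear.symm y) := by simp
  rw [h1, hN.inv γ hγ, hk]

lemma c_lin {x : V} (hx : tr x ∈ Γ) (hk : ∀ z, H x z = 0) {γ : V ≃ᵃ[ℂ] V} (hγ : γ ∈ Γ) :
    c (tr (γ.linear x)) = c (tr x) := by
  have h1 := hN.mul _ hγ _ hx 0
  rw [mul_tr] at h1
  have hx' := tr_lin_mem hx hγ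
  have h2 := hN.mul _ hx' _ hγ 0
  rw [h1, f_tr_ker hN hx hk, f_tr_ker hN hx' (ker_lin hN hk hγ), tr_apply, add_zero] at h2
  have h3 : f γ x = f γ 0 := by
    have h5 : H (γ 0) (γ.linear x) = 0 := ker_symm hN (ker_lin hN hk hγ) _
    have h6 : H (γ 0) (γ.linear 0) = 0 := by rw [γ.linear.map_zero, LinearMap.map_zero]
    rw [hN.form γ hγ, hN.form γ hγ, h5, h6]
  rw [h3] at h2
  have h4 := f_ne_zero hN hγ 0
  apply mul_right_cancel₀ h4
  rw [← h2]; ring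

lemma c_zero : c (tr (0 : V)) = 1 := by
  have h0 : tr (0 : V) = 1 := by ext v; simp
  have h1 : tr (0 : V) ∈ Γ := by rw [h0]; exact Γ.one_mem
  have h2 := c_add hN h1 h1 (fun z => by simp)
  rw [add_zero] at h2
  have h3 := c_ne_zero hN h1
  have h4 : c (tr (0 : V)) * 1 = c (tr (0 : V)) * c (tr (0 : V)) := by rw [mul_one]; exact h2
  exact (mul_left_cancel₀ h3 h4).symm

/-- integrality -/
lemma im_int {x y : V} (hx : tr x ∈ Γ) (hy : tr y ∈ Γ) : ∃ n : ℤ, (H x y).im = n := by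
  have h1 := hN.mul _ hx _ hy 0
  have h2 := hN.mul _ hy _ hx 0
  rw [tr_mul] at h1 h2
  rw [add_comm y x, h1] at h2
  rw [f_tr hN hx, f_tr hN hy, f_tr hN hx, f_tr hN hy, tr_apply, tr_apply] at h2
  simp only [add_zero, map_zero, mul_zero, zero_add] at h2
  have hcx := c_ne_zero hN hx
  have hcy := c_ne_zero hN hy
  have h3 : Complex.exp (Real.pi * H x y - Real.pi * H y x) = 1 := by
    have h4 : Complex.exp (Real.pi * H x y + Real.pi / 2 * H x x) *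
        Complex.exp (Real.pi / 2 * H y y) =
        Complex.exp (Real.pi * H y x + Real.pi / 2 * H y y) *
        Complex.exp (Real.pi / 2 * H x x) := by
      apply mul_left_cancel₀ (mul_ne_zero hcx hcy)
      linear_combination h2
    rw [← Complex.exp_add, ← Complex.exp_add] at h4
    have h5 : (Real.pi * H x y - Real.pi * H y x : ℂ) =
        (Real.pi * H x y + Real.pi / 2 * H x x + Real.pi / 2 * H y y) -
        (Real.pi * H y x + Real.pi / 2 * H y y + Real.pi / 2 * H x x) := by ring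
    rw [h5, Complex.exp_sub, h4, div_self (Complex.exp_ne_zero _)]
  rw [Complex.exp_eq_one_iff] at h3
  obtain ⟨n, hn⟩ := h3
  refine ⟨n, ?_⟩
  have h6 : (Real.pi * H x y - Real.pi * H y x : ℂ) = (Real.pi : ℂ) * (H x y - H y x) := by ring
  rw [h6, hN.herm y x, Complex.sub_conj] at hn
  have h7 : (Real.pi : ℂ) ≠ 0 := by exact_mod_cast Real.pi_ne_zero
  have h8 : (2 * Real.pi * Complex.I : ℂ) ≠ 0 := by
    simp [Complex.I_ne_zero, Real.pi_ne_zero]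
  have h9 : (((H x y).im : ℝ) : ℂ) = (n : ℂ) := by
    apply mul_left_cancel₀ h8
    push_cast at hn ⊢
    linear_combination hn
  exact_mod_cast h9

/-- the linear parts -/
lemma torsion [Finite (Γ.map (AffineEquiv.linearHom : (V ≃ᵃ[ℂ] V) →* (V ≃ₗ[ℂ] V)))]
    (hinv : ∀ x, (∀ γ ∈ Γ, γ.linear x = x) → x = 0)
    {x : V} (hx : tr x ∈ Γ) (hk : ∀ z, H x z = 0) :
    c (tr x) ^ Nat.card (Γ.map (AffineEquiv.linearHom : (V ≃ᵃ[ℂ] V) →* (V ≃ₗ[ℂ] V))) = 1 := by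
  classical
  set G := Γ.map (AffineEquiv.linearHom : (V ≃ᵃ[ℂ] V) →* (V ≃ₗ[ℂ] V)) with hG
  have := Fintype.ofFinite G
  have hmem : ∀ A : G, ∃ γ ∈ Γ, γ.linear = (A : V ≃ₗ[ℂ] V) := by
    rintro ⟨A, γ, hγ, rfl⟩
    exact ⟨γ, hγ, rfl⟩
  have hsum : ∑ A : G, (A : V ≃ₗ[ℂ] V) x = 0 := by
    apply hinv
    intro γ hγ
    rw [map_sum]
    let B : G := ⟨γ.linear, γ, hγ, rfl⟩
    have h1 : ∀ A : G, γ.linear ((A : V ≃ₗ[ℂ] V) x) = ((B * A : G) : V ≃ₗ[ℂ] V) x := fun A => rfl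
    simp_rw [h1]
    exact Equiv.sum_comp (Equiv.mulLeft B) (fun A : G => (A : V ≃ₗ[ℂ] V) x)
  have hprod : ∀ s : Finset G, tr (∑ A ∈ s, (A : V ≃ₗ[ℂ] V) x) ∈ Γ ∧
      (∀ z, H (∑ A ∈ s, (A : V ≃ₗ[ℂ] V) x) z = 0) ∧
      c (tr (∑ A ∈ s, (A : V ≃ₗ[ℂ] V) x)) = c (tr x) ^ s.card := by
    intro s
    induction s using Finset.induction_on with
    | empty =>
      simp only [Finset.sum_empty, Finset.card_empty, pow_zero, map_zero, LinearMap.zero_apply,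
        implies_true, true_and]
      refine ⟨?_, c_zero hN⟩
      have h0 : tr (0 : V) = 1 := by ext v; simp
      rw [h0]; exact Γ.one_mem
    | insert A s hA ih =>
      obtain ⟨ih1, ih2, ih3⟩ := ih
      obtain ⟨γ, hγ, hγA⟩ := hmem A
      have h1 : tr ((A : V ≃ₗ[ℂ] V) x) ∈ Γ := by rw [← hγA]; exact tr_lin_mem hx hγ
      have h2 : ∀ z, H ((A : V ≃ₗ[ℂ] V) x) z = 0 := by rw [← hγA]; exact ker_lin hN hk hγ
      have h3 : c (tr ((A : V ≃ₗ[ℂ] V) x)) = c (tr x) := by rw [← hγA]; exact c_lin hN hx hk hγ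
      rw [Finset.sum_insert hA, Finset.card_insert_of_notMem hA]
      refine ⟨by rw [← tr_mul]; exact Γ.mul_mem h1 ih1, fun z => ?_, ?_⟩
      · rw [map_add, LinearMap.add_apply, h2, ih2, add_zero]
      · rw [c_add hN h1 ih1 ih2, h3, ih3, pow_succ, mul_comm]
  have h4 := (hprod Finset.univ).2.2
  rw [hsum, c_zero hN, Finset.card_univ] at h4
  rw [Nat.card_eq_fintype_card]
  exact h4.symm

end lat

end Pool.Agent.MP_e4ecdb_ag.TQ
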