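import Pool.Agent.MP_e4ecdb_ag.ThetaB
open Module

namespace Pool.Agent.MP_e4ecdb_ag.Theta

section theta

variable {W : Type} [NormedAddCommGroup W] [NormedSpace ℂ W] [FiniteDimensional ℂ W]

/-- normalised term -/
noncomputable def gg (H : W →ₗ⋆[ℂ] W →ₗ[ℂ] ℂ) (α : W → ℂ) (m : ℕ) (x z l : W) : ℂ :=
  (α l)⁻¹ ^ m * Complex.exp (Real.pi * m * (H x l - H l z - H l l / 2))

lemma tt_eq_gg {H : W →ₗ⋆[ℂ] W →ₗ[ℂ] ℂ} {α : W → ℂ} (m : ℕ) (x z l : W) :
    tt H α m x z l = Complex.exp (Real.pi * m * H x z) * gg H α m x z l := by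
  unfold tt gg
  rw [mul_left_comm, ← Complex.exp_add]
  congr 2
  rw [map_add]; ring

/-- normalised series -/
noncomputable def dd (L : Submodule ℤ W) (H : W →ₗ⋆[ℂ] W →ₗ[ℂ] ℂ) (α : W → ℂ) (m : ℕ)
    (x z : W) : ℂ := ∑' l : L, gg H α m x z l

lemma theta_eq_dd {L : Submodule ℤ W} {H : W →ₗ⋆[ℂ] W →ₗ[ℂ] ℂ} {α : W → ℂ} (m : ℕ) (x z : W) :
    theta L H α m x z = Complex.exp (Real.pi * m * H x z) * dd L H α m x z := by
  unfold theta dd
  rw [← tsum_mul_left]
  exact tsum_congr fun l => tt_eq_gg m x z l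

lemma summable_gg {L : Submodule ℤ W} [DiscreteTopology L] {H : W →ₗ⋆[ℂ] W →ₗ[ℂ] ℂ} {α : W → ℂ}
    (h : AH L H α) {m : ℕ} (hm : 1 ≤ m) (x z : W) : Summable fun l : L => gg H α m x z l := by
  have := (summable_tt h hm x z).mul_left (Complex.exp (Real.pi * m * H x z))⁻¹
  refine this.congr fun l => ?_
  rw [tt_eq_gg, inv_mul_cancel_left₀ (Complex.exp_ne_zero _)]

lemma re_symm {L : Submodule ℤ W} {H : W →ₗ⋆[ℂ] W →ₗ[ℂ] ℂ} {α : W → ℂ} (h : AH L H α) (x y : W) :
    (H x y).re = (H y x).re := by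
  rw [h.herm x y, Complex.conj_re]

lemma alpha_zero {L : Submodule ℤ W} {H : W →ₗ⋆[ℂ] W →ₗ[ℂ] ℂ} {α : W → ℂ} (h : AH L H α) :
    α 0 = 1 := by
  have h1 := h.coc 0 L.zero_mem 0 L.zero_mem 0
  unfold ef at h1
  simp only [add_zero, map_zero, mul_zero, Complex.exp_zero, mul_one] at h1
  have h2 : α 0 ≠ 0 := by
    intro h0
    have := h.norm 0 L.zero_mem
    rw [h0, norm_zero] at this
    exact zero_ne_one this
  have h3 : α 0 * 1 = α 0 * α 0 := by rw [mul_one]; exact h1
  exact (mul_left_cancel₀ h2 h3).symm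

lemma gg_zero {L : Submodule ℤ W} {H : W →ₗ⋆[ℂ] W →ₗ[ℂ] ℂ} {α : W → ℂ} (h : AH L H α) (m : ℕ)
    (x z : W) : gg H α m x z 0 = 1 := by
  unfold gg
  rw [alpha_zero h]
  simp

lemma norm_gg {L : Submodule ℤ W} {H : W →ₗ⋆[ℂ] W →ₗ[ℂ] ℂ} {α : W → ℂ} (h : AH L H α) (m : ℕ)
    (x y : W) {l : W} (hl : l ∈ L) :
    ‖gg H α m x (x + y) l‖ = Real.exp (Real.pi * m * (-(H l y).re - (H l l).re / 2)) := by
  unfold gg
  rw [norm_mul, norm_pow, norm_inv, h.norm l hl, inv_one, one_pow, one_mul, Complex.norm_exp]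
  congr 1
  have : (Real.pi * m * (H x l - H l (x + y) - H l l / 2) : ℂ) =
      ((Real.pi * m : ℝ) : ℂ) * (H x l - H l (x + y) - H l l / 2) := by push_cast; ring
  rw [this, Complex.re_ofReal_mul, map_add]
  simp only [Complex.sub_re, Complex.add_re, Complex.div_ofNat_re]
  rw [re_symm h x l]
  ring

lemma gg_add {H : W →ₗ⋆[ℂ] W →ₗ[ℂ] ℂ} {α : W → ℂ} (m : ℕ) (x z u l : W) :
    gg H α m x (z + u) l = gg H α m x z l * Complex.exp (-(Real.pi * m * H l u)) := by
  unfold gg
  rw [mul_assoc ((α l)⁻¹ ^ m), ← Complex.exp_add, map_add]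
  congr 2
  ring

lemma norm_theta_far {L : Submodule ℤ W} [DiscreteTopology L] {H : W →ₗ⋆[ℂ] W →ₗ[ℂ] ℂ}
    {α : W → ℂ} (h : AH L H α) {k : ℝ} (hk0 : 0 < k) (hk : ∀ x, k * ‖x‖ ^ 2 ≤ (H x x).re) {m : ℕ}
    (hm : 1 ≤ m) (x z : W) :
    ‖theta L H α m x z‖ ≤ Real.exp (Real.pi * m * ((H z z).re + (H x x).re) / 2) *
      ∑' l : L, Real.exp (-(m * (Real.pi * k / 2)) * ‖(z - x) + (l : W)‖ ^ 2) := by
  have hfd : FiniteDimensional ℝ W := FiniteDimensional.complexToReal W
  have hm' : (0 : ℝ) < m := by exact_mod_cast hm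
  rw [← tsum_mul_left]
  unfold theta
  refine tsum_of_norm_bounded (Summable.hasSum ?_) (fun l => ?_)
  · exact (summable_shift L (c := m * (Real.pi * k / 2)) (by positivity) _).mul_left _
  · rw [norm_tt h m x z l.2, ← Real.exp_add]
    apply Real.exp_le_exp.2
    have h1 := hk ((z - x) + (l : W))
    have h2 : (H ((z - x) + (l : W)) ((z - x) + (l : W))).re = (H z z).re + (H x x).re +
        (H l l).re + 2 * (H l z).re - 2 * (H x z).re - 2 * (H x l).re := by
      simp only [map_add, map_sub, LinearMap.add_apply, LinearMap.sub_apply, Complex.add_re,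
        Complex.sub_re]
      rw [re_symm h z x, re_symm h z l, re_symm h (l : W) x]
      ring
    rw [h2] at h1
    rw [map_add, Complex.add_re]
    have hpm : 0 ≤ Real.pi * m := by positivity
    nlinarith

/-- Positive definite Appell-Humbert data: some level is globally generated and separates points of
the torus. -/
theorem exists_level {ι : Type} [Fintype ι] (b : Basis ι ℝ W) (H : W →ₗ⋆[ℂ] W →ₗ[ℂ] ℂ)
    (α : W → ℂ) (h : AH (Submodule.span ℤ (Set.range b)) H α) :
    ∃ m : ℕ, 1 ≤ m ∧ (∀ v, ∃ s ∈ Th (Submodule.span ℤ (Set.range b)) H α m, s v ≠ 0) ∧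
      ∀ v w, w - v ∉ Submodule.span ℤ (Set.range b) →
        ∃ s ∈ Th (Submodule.span ℤ (Set.range b)) H α m, s v = 0 ∧ s w ≠ 0 := by
  classical
  have hfd : FiniteDimensional ℝ W := FiniteDimensional.complexToReal W
  set L := Submodule.span ℤ (Set.range b) with hL
  have hdisc : DiscreteTopology L := inferInstance
  obtain ⟨C, hC0, hC⟩ := exists_bound H
  obtain ⟨k, hk0, hk⟩ := exists_lower H h.pos
  obtain ⟨r, hr0, hr⟩ := exists_min_norm L
  set ρ : ℝ := k * r / (16 * C) with hρ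
  have hρ0 : 0 < ρ := by positivity
  have hCρ : C * ρ = k * r / 16 := by rw [hρ]; field_simp
  set c0 : ℝ := Real.pi * k / 8 with hc0
  have hc00 : 0 < c0 := by positivity
  obtain ⟨M1, hM1⟩ := tail_tendsto L hc00 (ε := min (1 / 10) (ρ * k / (4 * C))) (by positivity)
  obtain ⟨M2, hM2⟩ := far_bound b (c := Real.pi * k / 2) (r := ρ) (ε := 1 / 4) (by positivity) hρ0
    (by norm_num)
  set m : ℕ := max 1 (max M1 M2) with hm
  have hm1 : 1 ≤ m := le_max_left _ _
  have hmM1 : M1 ≤ m := (le_max_left _ _).trans (le_max_right _ _)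
  have hmM2 : M2 ≤ m := (le_max_right _ _).trans (le_max_right _ _)
  have hm' : (0 : ℝ) < m := by exact_mod_cast hm1
  have hT := hM1 m hmM1
  have hT1 : tail L c0 m ≤ 1 / 10 := hT.trans (min_le_left _ _)
  have hT2 : tail L c0 m ≤ ρ * k / (4 * C) := hT.trans (min_le_right _ _)
  have hpm : 0 < Real.pi * m := by positivity
  have htail0 : 0 ≤ tail L c0 m := by
    unfold tail
    refine tsum_nonneg fun l => ?_
    split_ifs
    · exact le_rfl
    · positivity
  -- norm of the terms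
  have hgg : ∀ (x y : W), ‖y‖ ≤ 2 * ρ → ∀ l : L, l ≠ 0 →
      ‖gg H α m x (x + y) l‖ ≤ Real.exp (-(m * (3 * c0)) * ‖(l : W)‖ ^ 2) := by
    intro x y hy l hl
    rw [norm_gg h m x y l.2]
    apply Real.exp_le_exp.2
    have h1 : -(H l y).re ≤ C * ‖(l : W)‖ * (2 * ρ) := by
      refine (neg_le_abs _).trans ((Complex.abs_re_le_norm _).trans ((hC _ _).trans ?_))
      gcongr
    have h2 : C * ‖(l : W)‖ * (2 * ρ) ≤ k / 8 * ‖(l : W)‖ ^ 2 := by
      have h3 := hr l hl
      have h4 : C * ‖(l : W)‖ * (2 * ρ) = k / 8 * (r * ‖(l : W)‖) := by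
        calc C * ‖(l : W)‖ * (2 * ρ) = (C * ρ) * 2 * ‖(l : W)‖ := by ring
          _ = _ := by rw [hCρ]; ring
      rw [h4, sq]
      gcongr
    have h3 := hk (l : W)
    have h4 : -(H l y).re - (H l l).re / 2 ≤ -(3 * k / 8) * ‖(l : W)‖ ^ 2 := by nlinarith
    calc Real.pi * m * (-(H l y).re - (H l l).re / 2)
        ≤ Real.pi * m * (-(3 * k / 8) * ‖(l : W)‖ ^ 2) := by gcongr
      _ = _ := by rw [hc0]; ring
  have hexp : ∀ l : L, Real.exp (-(m * (3 * c0)) * ‖(l : W)‖ ^ 2) ≤
      (1 + ‖(l : W)‖) * Real.exp (-(m * c0) * ‖(l : W)‖ ^ 2) := by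
    intro l
    have h1 : Real.exp (-(m * (3 * c0)) * ‖(l : W)‖ ^ 2) ≤ Real.exp (-(m * c0) * ‖(l : W)‖ ^ 2) := by
      apply Real.exp_le_exp.2
      have : 0 ≤ m * c0 * ‖(l : W)‖ ^ 2 := by positivity
      nlinarith
    have h2 : 0 ≤ ‖(l : W)‖ := norm_nonneg _
    nlinarith [Real.exp_pos (-(m * c0) * ‖(l : W)‖ ^ 2)]
  have hD1 : ∀ (x y : W), ‖y‖ ≤ 2 * ρ → ‖dd L H α m x (x + y) - 1‖ ≤ tail L c0 m := by
    intro x y hy
    have h1 : dd L H α m x (x + y) = 1 + ∑' l : L, if l = 0 then 0 else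
        gg H α m x (x + y) l := by
      unfold dd
      rw [(summable_gg h hm1 x (x + y)).tsum_eq_add_tsum_ite 0]
      congr 1
      exact gg_zero h m x (x + y)
    rw [h1, add_sub_cancel_left]
    unfold tail
    refine tsum_of_norm_bounded (summable_tail' L hc00 hm1).hasSum (fun l => ?_)
    by_cases hl : l = 0
    · simp [hl]
    · simp only [hl, if_false]
      exact (hgg x y hy l hl).trans (hexp l)
  have hD2 : ∀ (x y u : W), ‖y‖ ≤ 2 * ρ → ‖u‖ ≤ ρ →
      ‖dd L H α m x (x + y + u) - dd L H α m x (x + y)‖ ≤ Real.pi * m * C * ‖u‖ * tail L c0 m := by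
    intro x y u hy hu
    unfold dd
    rw [← (summable_gg h hm1 x (x + y + u)).tsum_sub (summable_gg h hm1 x (x + y))]
    unfold tail
    rw [← tsum_mul_left]
    refine tsum_of_norm_bounded ((summable_tail' L hc00 hm1).mul_left _).hasSum (fun l => ?_)
    by_cases hl : l = 0
    · simp [hl, gg_zero h]
    · simp only [hl, if_false]
      rw [gg_add, ← mul_sub_one, norm_mul]
      have h1 := hgg x y hy l hl
      have h2 : ‖Complex.exp (-(Real.pi * m * H l u)) - 1‖ ≤
          Real.pi * m * C * ‖(l : W)‖ * ‖u‖ * Real.exp (m * c0 * ‖(l : W)‖ ^ 2) := by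
        have h3 := Complex.norm_exp_sub_sum_le_norm_mul_exp (-(Real.pi * m * H l u)) 1
        simp only [Finset.range_one, Finset.sum_singleton, pow_zero, Nat.factorial_zero,
          Nat.cast_one, div_one, pow_one] at h3
        refine h3.trans ?_
        have h4 : ‖(-(Real.pi * m * H l u) : ℂ)‖ ≤ Real.pi * m * (C * ‖(l : W)‖ * ‖u‖) := by
          rw [norm_neg, norm_mul]
          have h5 : ‖(Real.pi * m : ℂ)‖ = Real.pi * m := by
            rw [norm_mul, Complex.norm_real, Real.norm_of_nonneg Real.pi_pos.le]; simp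
          rw [h5]
          gcongr
          exact hC _ _
        have h6 : Real.pi * m * (C * ‖(l : W)‖ * ‖u‖) ≤ m * c0 * ‖(l : W)‖ ^ 2 := by
          have h7 := hr l hl
          calc Real.pi * m * (C * ‖(l : W)‖ * ‖u‖) ≤ Real.pi * m * (C * ‖(l : W)‖ * ρ) := by gcongr
            _ = Real.pi * m * (k / 16) * (r * ‖(l : W)‖) := by
                calc _ = Real.pi * m * (C * ρ) * ‖(l : W)‖ := by ring
                  _ = _ := by rw [hCρ]; ring
            _ ≤ Real.pi * m * (k / 16) * (‖(l : W)‖ * ‖(l : W)‖) := by gcongr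
            _ ≤ m * c0 * ‖(l : W)‖ ^ 2 := by
                rw [hc0, sq]
                have : 0 ≤ Real.pi * m * k * (‖(l : W)‖ * ‖(l : W)‖) := by positivity
                nlinarith
        calc _ ≤ Real.pi * m * (C * ‖(l : W)‖ * ‖u‖) * Real.exp (m * c0 * ‖(l : W)‖ ^ 2) := by
              gcongr
              exact h4.trans h6
          _ = _ := by ring
      calc ‖gg H α m x (x + y) l‖ * ‖Complex.exp (-(Real.pi * m * H l u)) - 1‖
          ≤ Real.exp (-(m * (3 * c0)) * ‖(l : W)‖ ^ 2) *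
            (Real.pi * m * C * ‖(l : W)‖ * ‖u‖ * Real.exp (m * c0 * ‖(l : W)‖ ^ 2)) := by
            gcongr
        _ = Real.pi * m * C * ‖u‖ * (‖(l : W)‖ *
            Real.exp (-(m * (2 * c0)) * ‖(l : W)‖ ^ 2)) := by
            have : Real.exp (-(m * (2 * c0)) * ‖(l : W)‖ ^ 2) =
                Real.exp (-(m * (3 * c0)) * ‖(l : W)‖ ^ 2) *
                Real.exp (m * c0 * ‖(l : W)‖ ^ 2) := by
              rw [← Real.exp_add]; congr 1; ring
            rw [this]; ring
        _ ≤ _ := by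
            gcongr
            · linarith
            · linarith
  have hDn : ∀ (x y : W), ‖y‖ ≤ 2 * ρ → 9 / 10 ≤ ‖dd L H α m x (x + y)‖ ∧
      ‖dd L H α m x (x + y)‖ ≤ 11 / 10 := by
    intro x y hy
    have h1 := (hD1 x y hy).trans hT1
    have h2 : dd L H α m x (x + y) = 1 + (dd L H α m x (x + y) - 1) := by ring
    constructor
    · have := norm_sub_norm_le (1 : ℂ) (-(dd L H α m x (x + y) - 1))
      rw [sub_neg_eq_add, ← h2, norm_neg, norm_one] at this
      linarith
    · rw [h2]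
      refine (norm_add_le _ _).trans ?_
      rw [norm_one]; linarith
  have hdiag : ∀ x, 9 / 10 * Real.exp (Real.pi * m * (H x x).re) ≤ ‖theta L H α m x x‖ := by
    intro x
    have h1 := (hDn x 0 (by rw [norm_zero]; positivity)).1
    rw [add_zero] at h1
    rw [theta_eq_dd, norm_mul, Complex.norm_exp, mul_comm]
    have h2 : ((Real.pi * m * H x x : ℂ)).re = Real.pi * m * (H x x).re := by
      have : (Real.pi * m * H x x : ℂ) = ((Real.pi * m : ℝ) : ℂ) * H x x := by push_cast; ring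
      rw [this, Complex.re_ofReal_mul]
    rw [h2]
    gcongr
  -- separation from the failure of proportionality
  have hsep : ∀ v w x1 x2 : W, theta L H α m x1 w * theta L H α m x2 v ≠
      theta L H α m x2 w * theta L H α m x1 v → ∃ s ∈ Th L H α m, s v = 0 ∧ s w ≠ 0 := by
    intro v w x1 x2 hne
    refine ⟨theta L H α m x2 v • theta L H α m x1 - theta L H α m x1 v • theta L H α m x2,
      Submodule.sub_mem _ (Submodule.smul_mem _ _ (theta_mem h hm1 x1))
        (Submodule.smul_mem _ _ (theta_mem h hm1 x2)), ?_, ?_⟩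
    · simp only [Pi.sub_apply, Pi.smul_apply, smul_eq_mul]; ring
    · simp only [Pi.sub_apply, Pi.smul_apply, smul_eq_mul]
      intro h0
      apply hne
      linear_combination h0
  have hnear : ∀ v u : W, u ≠ 0 → ‖u‖ ≤ ρ → ∃ s ∈ Th L H α m, s v = 0 ∧ s (v + u) ≠ 0 := by
    intro v u hu0 hu
    have hun : 0 < ‖u‖ := norm_pos_iff.2 hu0
    set τ : W := ((ρ / ‖u‖ : ℝ) : ℂ) • u with hτ
    have hτn : ‖τ‖ = ρ := by
      rw [hτ, norm_smul, Complex.norm_real, Real.norm_of_nonneg (by positivity)]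
      field_simp
    apply hsep v (v + u) (v + τ) v
    intro heq
    -- values
    have e1 : v = (v + τ) + (-τ) := by abel
    have hy1 : ‖-τ‖ ≤ 2 * ρ := by rw [norm_neg, hτn]; linarith
    have hy1' : ‖-τ + u‖ ≤ 2 * ρ := (norm_add_le _ _).trans (by rw [norm_neg, hτn]; linarith)
    set A := dd L H α m (v + τ) (v + u) with hA
    set B := dd L H α m v v with hB
    set A' := dd L H α m v (v + u) with hA'
    set B' := dd L H α m (v + τ) v with hB'
    have hAn : 9 / 10 ≤ ‖A‖ := by
      have := (hDn (v + τ) (-τ + u) hy1').1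
      have h2 : (v + τ) + (-τ + u) = v + u := by abel
      rwa [h2] at this
    have hBn : 9 / 10 ≤ ‖B‖ := by
      have := (hDn v 0 (by rw [norm_zero]; positivity)).1
      rwa [add_zero] at this
    have hBn2 : ‖B‖ ≤ 11 / 10 := by
      have := (hDn v 0 (by rw [norm_zero]; positivity)).2
      rwa [add_zero] at this
    have hB'n2 : ‖B'‖ ≤ 11 / 10 := by
      have := (hDn (v + τ) (-τ) hy1).2
      rwa [← e1] at this
    have hd1 : ‖A - B'‖ ≤ Real.pi * m * C * ‖u‖ * tail L c0 m := by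
      have := hD2 (v + τ) (-τ) u hy1 hu
      rwa [← e1] at this
    have hd2 : ‖A' - B‖ ≤ Real.pi * m * C * ‖u‖ * tail L c0 m := by
      have := hD2 v 0 u (by rw [norm_zero]; positivity) hu
      rwa [add_zero] at this
    rw [theta_eq_dd, theta_eq_dd, theta_eq_dd, theta_eq_dd] at heq
    set E : ℂ := Complex.exp (Real.pi * m * H τ u) with hE
    have hEq : E * A * B = A' * B' := by
      have h1 : Complex.exp (Real.pi * m * H (v + τ) (v + u)) * Complex.exp (Real.pi * m * H v v) =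
          Complex.exp (Real.pi * m * H v (v + u)) * Complex.exp (Real.pi * m * H (v + τ) v) * E := by
        rw [hE, ← Complex.exp_add, ← Complex.exp_add, ← Complex.exp_add]
        congr 1
        simp only [map_add, LinearMap.add_apply]
        ring
      have h2 : (Complex.exp (Real.pi * m * H v (v + u)) *
          Complex.exp (Real.pi * m * H (v + τ) v)) * (E * A * B) =
          (Complex.exp (Real.pi * m * H v (v + u)) *
          Complex.exp (Real.pi * m * H (v + τ) v)) * (A' * B') := by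
        calc _ = (Complex.exp (Real.pi * m * H v (v + u)) *
          Complex.exp (Real.pi * m * H (v + τ) v) * E) * (A * B) := by ring
          _ = (Complex.exp (Real.pi * m * H (v + τ) (v + u)) *
            Complex.exp (Real.pi * m * H v v)) * (A * B) := by rw [h1]
          _ = (Complex.exp (Real.pi * m * H (v + τ) (v + u)) * A) *
            (Complex.exp (Real.pi * m * H v v) * B) := by ring
          _ = _ := by rw [heq]; ring
      exact mul_left_cancel₀ (mul_ne_zero (Complex.exp_ne_zero _) (Complex.exp_ne_zero _)) h2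
    -- E is real
    have hquad : (H u u).im = 0 := by
      have := h.herm u u
      have h2 := congrArg Complex.im this
      rw [Complex.conj_im] at h2
      linarith
    have hHτ : H τ u = ((ρ / ‖u‖ * (H u u).re : ℝ) : ℂ) := by
      have h1 : H u u = (((H u u).re : ℝ) : ℂ) := by
        apply Complex.ext
        · simp
        · rw [hquad]; simp
      rw [hτ, LinearMap.map_smulₛₗ, LinearMap.smul_apply, Complex.conj_ofReal, smul_eq_mul]
      conv_lhs => rw [h1]
      push_cast
      ring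
    have hEr : E = ((Real.exp (Real.pi * m * (ρ / ‖u‖ * (H u u).re)) : ℝ) : ℂ) := by
      rw [hE, hHτ]
      push_cast
      rfl
    have hE1 : Real.pi * m * (ρ * k * ‖u‖) ≤ ‖E - 1‖ := by
      have h1 : E - 1 = ((Real.exp (Real.pi * m * (ρ / ‖u‖ * (H u u).re)) - 1 : ℝ) : ℂ) := by
        rw [hEr]; push_cast; rfl
      rw [h1, Complex.norm_real]
      refine le_trans ?_ (le_abs_self _)
      have h2 := Real.add_one_le_exp (Real.pi * m * (ρ / ‖u‖ * (H u u).re))
      have h3 : ρ * k * ‖u‖ ≤ ρ / ‖u‖ * (H u u).re := by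
        calc ρ * k * ‖u‖ = ρ / ‖u‖ * (k * ‖u‖ ^ 2) := by field_simp
          _ ≤ _ := by gcongr; exact hk u
      have h4 : Real.pi * m * (ρ * k * ‖u‖) ≤ Real.pi * m * (ρ / ‖u‖ * (H u u).re) := by gcongr
      linarith
    have hfin : ‖E - 1‖ * (9 / 10 * (9 / 10)) ≤ 11 / 10 * (Real.pi * m * C * ‖u‖ * tail L c0 m) +
        11 / 10 * (Real.pi * m * C * ‖u‖ * tail L c0 m) := by
      have h1 : (E - 1) * (A * B) = (A' - B) * B' + B * (B' - A) := by
        linear_combination hEq
      calc ‖E - 1‖ * (9 / 10 * (9 / 10)) ≤ ‖E - 1‖ * (‖A‖ * ‖B‖) := by gcongr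
        _ = ‖(A' - B) * B' + B * (B' - A)‖ := by rw [← h1, norm_mul, norm_mul]
        _ ≤ ‖(A' - B) * B'‖ + ‖B * (B' - A)‖ := norm_add_le _ _
        _ = ‖A' - B‖ * ‖B'‖ + ‖B‖ * ‖A - B'‖ := by
            rw [norm_mul, norm_mul, norm_sub_rev B' A]
        _ ≤ (Real.pi * m * C * ‖u‖ * tail L c0 m) * (11 / 10) +
            11 / 10 * (Real.pi * m * C * ‖u‖ * tail L c0 m) := by gcongr
        _ = _ := by ring
    have h5 : Real.pi * m * C * ‖u‖ * tail L c0 m ≤ Real.pi * m * ‖u‖ * (ρ * k / 4) := by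
      calc Real.pi * m * C * ‖u‖ * tail L c0 m ≤ Real.pi * m * C * ‖u‖ * (ρ * k / (4 * C)) := by
            gcongr
        _ = _ := by field_simp
    have h6 : 0 < Real.pi * m * ‖u‖ * (ρ * k) := by positivity
    nlinarith
  refine ⟨m, hm1, fun v => ⟨theta L H α m v, theta_mem h hm1 v, ?_⟩, fun v w hvw => ?_⟩
  · intro h0
    have := hdiag v
    rw [h0, norm_zero] at this
    have h2 := Real.exp_pos (Real.pi * m * (H v v).re)
    linarith
  · by_cases hfar : ∀ l : L, ρ ≤ ‖(w - v) + (l : W)‖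
    · apply hsep v w v w
      intro heq
      have hfar' : ∀ l : L, ρ ≤ ‖(v - w) + (l : W)‖ := by
        intro l
        have := hfar (-l)
        have e : (v - w) + (l : W) = -((w - v) + ((-l : L) : W)) := by
          rw [Submodule.coe_neg]; abel
        rw [e, norm_neg]
        exact this
      have h1 := norm_theta_far h hk0 hk hm1 v w
      have h2 := norm_theta_far h hk0 hk hm1 w v
      have h3 := hM2 m hmM2 (w - v) hfar
      have h4 := hM2 m hmM2 (v - w) hfar'
      have h5 := hdiag v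
      have h6 := hdiag w
      set Ev := Real.exp (Real.pi * m * ((H v v).re + (H w w).re) / 2) with hEv
      have hEv2 : Real.exp (Real.pi * m * ((H w w).re + (H v v).re) / 2) = Ev := by
        rw [hEv]; congr 2; ring
      rw [hEv2] at h1
      have h7 : ‖theta L H α m v w‖ ≤ Ev * (1 / 4) := h1.trans (by gcongr)
      have h8 : ‖theta L H α m w v‖ ≤ Ev * (1 / 4) := h2.trans (by gcongr)
      have h9 : Ev * Ev = Real.exp (Real.pi * m * (H v v).re) *
          Real.exp (Real.pi * m * (H w w).re) := by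
        rw [hEv, ← Real.exp_add, ← Real.exp_add]; congr 1; ring
      have h10 := congrArg norm heq
      rw [norm_mul, norm_mul] at h10
      have h11 : ‖theta L H α m v w‖ * ‖theta L H α m w v‖ ≤ (Ev * (1 / 4)) * (Ev * (1 / 4)) := by
        gcongr
      have h12 : (9 / 10 * Real.exp (Real.pi * m * (H w w).re)) *
          (9 / 10 * Real.exp (Real.pi * m * (H v v).re)) ≤
          ‖theta L H α m w w‖ * ‖theta L H α m v v‖ := by gcongr
      have h13 : 0 < Ev * Ev := by positivity
      have h14 : (9 / 10 * Real.exp (Real.pi * m * (H w w).re)) *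
          (9 / 10 * Real.exp (Real.pi * m * (H v v).re)) = 81 / 100 * (Ev * Ev) := by
        rw [h9]; ring
      have h15 : (Ev * (1 / 4)) * (Ev * (1 / 4)) = 1 / 16 * (Ev * Ev) := by ring
      rw [h14, ← h10] at h12
      rw [h15] at h11
      linarith
    · push Not at hfar
      obtain ⟨l, hl⟩ := hfar
      have hu0 : (w - v) + (l : W) ≠ 0 := by
        intro h0
        apply hvw
        have : w - v = -(l : W) := by rw [← sub_eq_zero, sub_neg_eq_add]; exact h0
        rw [this]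
        exact L.neg_mem l.2
      obtain ⟨s, hs, hs1, hs2⟩ := hnear v ((w - v) + (l : W)) hu0 hl.le
      refine ⟨s, hs, hs1, ?_⟩
      intro h0
      apply hs2
      have h1 : v + ((w - v) + (l : W)) = (l : W) + w := by abel
      rw [h1, hs.2 l l.2 w, h0, mul_zero]

end theta

end Pool.Agent.MP_e4ecdb_ag.Theta
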