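import Pool.Agent.MP_e4ecdb_ag.TDefs
import Pool.Agent.MP_e4ecdb_ag.Herm
import Pool.Agent.MP_e4ecdb_ag.ThetaC
open Module

namespace Pool.Agent.MP_e4ecdb_ag.TQ

variable {V : Type} [NormedAddCommGroup V] [NormedSpace ℂ V]

lemma aff_apply (γ : V ≃ᵃ[ℂ] V) (v : V) : γ v = γ.linear v + γ 0 := by
  have := γ.map_vadd (0 : V) v
  simpa using this

lemma aff_add (γ : V ≃ᵃ[ℂ] V) (x v : V) : γ (x + v) = γ.linear x + γ v := by
  have := γ.map_vadd v x
  simpa using this

lemma aff_mul (γ δ : V ≃ᵃ[ℂ] V) (v : V) : (γ * δ) v = γ (δ v) := rfl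

lemma lin_mul (γ δ : V ≃ᵃ[ℂ] V) (v : V) : (γ * δ).linear v = γ.linear (δ.linear v) := rfl

/-- translation -/
abbrev tr (x : V) : V ≃ᵃ[ℂ] V := AffineEquiv.constVAdd ℂ V x

lemma tr_apply (x v : V) : tr x v = x + v := rfl

lemma tr_linear (x v : V) : (tr x).linear v = v := rfl

lemma tr_mul (x y : V) : tr x * tr y = tr (x + y) := by
  ext v; simp [aff_mul, add_assoc]

lemma mul_tr (γ : V ≃ᵃ[ℂ] V) (x : V) : γ * tr x = tr (γ.linear x) * γ := by
  ext v; simp only [aff_mul, tr_apply, aff_add]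

/-- everything that we know about a normalised factor -/
structure Normal (Γ : Subgroup (V ≃ᵃ[ℂ] V)) (H : V →ₗ⋆[ℂ] V →ₗ[ℂ] ℂ)
    (f : (V ≃ᵃ[ℂ] V) → V → ℂ) (c : (V ≃ᵃ[ℂ] V) → ℂ) : Prop where
  herm : ∀ x y, H x y = (starRingEnd ℂ) (H y x)
  inv : ∀ γ ∈ Γ, ∀ x y, H (γ.linear x) (γ.linear y) = H x y
  norm : ∀ γ ∈ Γ, ‖c γ‖ = 1
  form : ∀ γ ∈ Γ, ∀ v, f γ v =
    c γ * Complex.exp (Real.pi * H (γ 0) (γ.linear v) + Real.pi / 2 * H (γ 0) (γ 0))
  mul : ∀ γ ∈ Γ, ∀ δ ∈ Γ, ∀ v, f (γ * δ) v = f γ (δ v) * f δ v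

lemma herm_im (H : V →ₗ⋆[ℂ] V →ₗ[ℂ] ℂ) (hh : ∀ x y, H x y = (starRingEnd ℂ) (H y x)) (x : V) :
    H x x = (((H x x).re : ℝ) : ℂ) := by
  apply Complex.ext
  · simp
  · have := hh x x
    have h2 := congrArg Complex.im this
    rw [Complex.conj_im] at h2
    have : (H x x).im = 0 := by linarith
    simp [this]

lemma exists_normal [FiniteDimensional ℂ V] {Γ : Subgroup (V ≃ᵃ[ℂ] V)}
    {e : (V ≃ᵃ[ℂ] V) → V → ℂ} (he : IsFactor Γ e) {H : V →ₗ⋆[ℂ] V →ₗ[ℂ] ℂ}
    (hH : IsChern Γ e H) :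
    ∃ (u : V → ℂ) (c : (V ≃ᵃ[ℂ] V) → ℂ), Differentiable ℂ u ∧ (∀ v, u v ≠ 0) ∧
      Normal Γ H (fun γ v => e γ v * u (γ v) / u v) c := by
  obtain ⟨u, hu, hu0, hmet⟩ := hH.metric
  have key : ∀ γ ∈ Γ, ∃ c : ℂ, ‖c‖ = 1 ∧ ∀ v, e γ v * u (γ v) / u v =
    c * Complex.exp (Real.pi * H (γ 0) (γ.linear v) + Real.pi / 2 * H (γ 0) (γ 0)) := by
    intro γ hγ
    let g : V → ℂ := fun v => e γ v * u (γ v) / u v *
      Complex.exp (-(Real.pi * H (γ 0) (γ.linear v) + Real.pi / 2 * H (γ 0) (γ 0)))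
    have hγd : Differentiable ℂ (fun v => γ v) := by
      have h1 : (fun v => γ v) = fun v => γ.linear v + γ 0 := funext fun v => aff_apply γ v
      rw [h1]
      have h2 : Differentiable ℂ (fun v => (LinearMap.toContinuousLinearMap
        (γ.linear : V →ₗ[ℂ] V)) v) := (LinearMap.toContinuousLinearMap
        (γ.linear : V →ₗ[ℂ] V)).differentiable
      exact h2.add_const _
    have hlin : Differentiable ℂ (fun v => H (γ 0) (γ.linear v)) := by
      have h2 : Differentiable ℂ (fun v => (LinearMap.toContinuousLinearMap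
        ((H (γ 0)).comp (γ.linear : V →ₗ[ℂ] V))) v) := (LinearMap.toContinuousLinearMap
        ((H (γ 0)).comp (γ.linear : V →ₗ[ℂ] V))).differentiable
      exact h2
    have hg : Differentiable ℂ g := by
      apply Differentiable.mul
      · have h3 : Differentiable ℂ (fun v => (e γ v * u (γ v)) * (u v)⁻¹) :=
          ((he.holo γ hγ).mul (hu.comp hγd)).mul (hu.fun_inv hu0)
        exact h3
      · apply Differentiable.cexp
        exact ((hlin.const_mul _).add_const _).neg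
    have hnorm : ∀ v, ‖g v‖ = 1 := by
      intro v
      have h1 := hmet γ hγ v
      have h2 : (H (γ v) (γ v)).re = (H v v).re + 2 * (H (γ 0) (γ.linear v)).re +
          (H (γ 0) (γ 0)).re := by
        rw [aff_apply γ v]
        simp only [map_add, LinearMap.add_apply, Complex.add_re]
        rw [hH.inv γ hγ v v]
        have h3 : (H (γ.linear v) (γ 0)).re = (H (γ 0) (γ.linear v)).re := by
          rw [hH.herm, Complex.conj_re]
        rw [h3]
        ring
      have hre : ((Real.pi * H (γ 0) (γ.linear v) + Real.pi / 2 * H (γ 0) (γ 0) : ℂ)).re =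
          Real.pi * (H (γ 0) (γ.linear v)).re + Real.pi / 2 * (H (γ 0) (γ 0)).re := by
        have : (Real.pi * H (γ 0) (γ.linear v) + Real.pi / 2 * H (γ 0) (γ 0) : ℂ) =
          ((Real.pi : ℝ) : ℂ) * H (γ 0) (γ.linear v) + ((Real.pi / 2 : ℝ) : ℂ) * H (γ 0) (γ 0) := by
          push_cast; ring
        rw [this, Complex.add_re, Complex.re_ofReal_mul, Complex.re_ofReal_mul]
      have hun : 0 < ‖u v‖ := norm_pos_iff.2 (hu0 v)
      have h4 : ‖g v‖ ^ 2 = 1 := by
        simp only [g]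
        rw [norm_mul, norm_div, norm_mul, Complex.norm_exp, Complex.neg_re, hre]
        rw [h2] at h1
        have h5 : Real.exp (-Real.pi * (H v v).re) ≠ 0 := (Real.exp_pos _).ne'
        have h6 : Real.exp (-Real.pi * ((H v v).re + 2 * (H (γ 0) (γ.linear v)).re +
          (H (γ 0) (γ 0)).re)) = Real.exp (-Real.pi * (H v v).re) *
          Real.exp (-(Real.pi * (H (γ 0) (γ.linear v)).re + Real.pi / 2 * (H (γ 0) (γ 0)).re)) ^ 2 := by
          rw [← Real.exp_nat_mul, ← Real.exp_add]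
          congr 1
          push_cast
          ring
        rw [h6] at h1
        have h7 : (‖e γ v‖ * ‖u (γ v)‖ / ‖u v‖ *
          Real.exp (-(Real.pi * (H (γ 0) (γ.linear v)).re + Real.pi / 2 * (H (γ 0) (γ 0)).re))) ^ 2 *
            (‖u v‖ ^ 2 * Real.exp (-Real.pi * (H v v).re)) =
            ‖u v‖ ^ 2 * Real.exp (-Real.pi * (H v v).re) := by
          calc _ = ‖e γ v‖ ^ 2 * (‖u (γ v)‖ ^ 2 * (Real.exp (-Real.pi * (H v v).re) *
            Real.exp (-(Real.pi * (H (γ 0) (γ.linear v)).re +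
              Real.pi / 2 * (H (γ 0) (γ 0)).re)) ^ 2)) := by field_simp
            _ = _ := h1
        have h8 : ‖u v‖ ^ 2 * Real.exp (-Real.pi * (H v v).re) ≠ 0 := by positivity
        exact mul_right_cancel₀ h8 (by rw [h7, one_mul])
      have h9 : 0 ≤ ‖g v‖ := norm_nonneg _
      nlinarith [sq_nonneg (‖g v‖ - 1)]
    obtain ⟨c, hc⟩ := hg.exists_const_forall_eq_of_bounded (by
      rw [Metric.isBounded_iff_subset_closedBall 0]
      refine ⟨1, ?_⟩
      rintro _ ⟨v, rfl⟩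
      rw [mem_closedBall_zero_iff, hnorm v])
    refine ⟨c, by rw [← hc 0]; exact hnorm 0, fun v => ?_⟩
    rw [← hc v]
    simp only [g]
    rw [mul_assoc, ← Complex.exp_add, neg_add_cancel, Complex.exp_zero, mul_one]
  classical
  refine ⟨u, fun γ => if h : γ ∈ Γ then (key γ h).choose else 1, hu, hu0, hH.herm, hH.inv, ?_, ?_, ?_⟩
  · intro γ hγ
    simp only [hγ, dif_pos]
    exact (key γ hγ).choose_spec.1
  · intro γ hγ v
    simp only [hγ, dif_pos]
    exact (key γ hγ).choose_spec.2 v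
  · intro γ hγ δ hδ v
    rw [he.mul γ hγ δ hδ v, aff_mul]
    have h1 := hu0 v
    have h2 := hu0 (δ v)
    field_simp

end Pool.Agent.MP_e4ecdb_ag.TQ
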