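import Pool.Agent.MP_e4ecdb_ag.TLattice
open Module

namespace Pool.Agent.MP_e4ecdb_ag.TQ

variable {V : Type} [NormedAddCommGroup V] [NormedSpace ℂ V]

/-- an entire function that is periodic under a lattice of a complex subspace is constant along it -/
lemma const_along [FiniteDimensional ℂ V] (K : Submodule ℂ V) (S : AddSubgroup V)
    (hK : K.restrictScalars ℝ = Submodule.span ℝ {x | x ∈ S ∧ x ∈ K})
    {s : V → ℂ} (hs : Differentiable ℂ s) (hper : ∀ x ∈ S, x ∈ K → ∀ v, s (x + v) = s v) :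
    ∀ x ∈ K, ∀ v, s (x + v) = s v := by
  have hfd : FiniteDimensional ℝ V := FiniteDimensional.complexToReal V
  have hfg : (Submodule.span ℝ {x | x ∈ S ∧ x ∈ K}).FG := IsNoetherian.noetherian _
  rw [Submodule.fg_span_iff_fg_span_finset_subset] at hfg
  obtain ⟨T, hT1, hT2⟩ := hfg
  intro x hx v
  let g : K → ℂ := fun y => s ((y : V) + v)
  have hg : Differentiable ℂ g := by
    apply hs.comp
    exact (K.subtypeL.differentiable).add_const v
  -- approximation by lattice points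
  have happ : ∀ y : K, ∃ y' : K, ‖y'‖ ≤ ∑ t ∈ T, ‖t‖ ∧ g y = g y' := by
    intro y
    have hy : (y : V) ∈ Submodule.span ℝ (T : Set V) := by
      rw [← hT2, ← hK]; exact y.2
    rw [Submodule.mem_span_finset] at hy
    obtain ⟨a, ha1, ha2⟩ := hy
    set z : V := ∑ t ∈ T, (⌊a t⌋ : ℤ) • t with hz
    have hzS : z ∈ S := AddSubgroup.sum_mem _ fun t ht => AddSubgroup.zsmul_mem _ (hT1 ht).1 _
    have hzK : z ∈ K := Submodule.sum_mem _ fun t ht => by
      have := (hT1 ht).2
      exact (K.toAddSubgroup).zsmul_mem this _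
    refine ⟨⟨(y : V) - z, K.sub_mem y.2 hzK⟩, ?_, ?_⟩
    · have h1 : (y : V) - z = ∑ t ∈ T, (a t - ⌊a t⌋) • t := by
        rw [hz, ← ha2, ← Finset.sum_sub_distrib]
        apply Finset.sum_congr rfl
        intro t _
        rw [sub_smul, Int.cast_smul_eq_zsmul]
      change ‖(y : V) - z‖ ≤ _
      rw [h1]
      refine (norm_sum_le _ _).trans (Finset.sum_le_sum fun t _ => ?_)
      rw [norm_smul]
      have h2 : ‖a t - ⌊a t⌋‖ ≤ 1 := by
        rw [Real.norm_eq_abs, abs_le]
        constructor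
        · linarith [Int.floor_le (a t)]
        · linarith [Int.lt_floor_add_one (a t)]
      exact mul_le_of_le_one_left (norm_nonneg _) h2
    · change s ((y : V) + v) = s (((y : V) - z) + v)
      have := hper z hzS hzK (((y : V) - z) + v)
      rw [← this]
      congr 1
      abel
  have hpr : ProperSpace K := FiniteDimensional.proper ℂ K
  have hbdd : Bornology.IsBounded (Set.range g) := by
    have hc : IsCompact (g '' Metric.closedBall (0 : K) (∑ t ∈ T, ‖t‖)) :=
      (isCompact_closedBall (0 : K) _).image hg.continuous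
    refine hc.isBounded.subset ?_
    rintro _ ⟨y, rfl⟩
    obtain ⟨y', hy1, hy2⟩ := happ y
    exact ⟨y', by rwa [mem_closedBall_zero_iff], hy2.symm⟩
  have := hg.apply_eq_apply_of_bounded hbdd ⟨x, hx⟩ 0
  simpa [g] using this

/-- the restriction of `n H` to a subspace -/
noncomputable def HW (H : V →ₗ⋆[ℂ] V →ₗ[ℂ] ℂ) (W : Submodule ℂ V) (n : ℕ) :
    W →ₗ⋆[ℂ] W →ₗ[ℂ] ℂ :=
  LinearMap.mk₂'ₛₗ (starRingEnd ℂ) (RingHom.id ℂ) (fun x y => (n : ℂ) * H x y)
    (fun x x' y => by simp [mul_add]) (fun a x y => by simp; ring)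
    (fun x y y' => by simp [mul_add]) (fun a x y => by simp; ring)

lemma HW_apply (H : V →ₗ⋆[ℂ] V →ₗ[ℂ] ℂ) (W : Submodule ℂ V) (n : ℕ) (x y : W) :
    HW H W n x y = (n : ℂ) * H x y := rfl

/-- the functions on `V` that transform under the translation lattice like sections of `L^k` -/
def TrSec (Γ : Subgroup (V ≃ᵃ[ℂ] V)) (f : (V ≃ᵃ[ℂ] V) → V → ℂ) (k : ℕ) : Submodule ℂ (V → ℂ) where
  carrier := {s | Differentiable ℂ s ∧ ∀ x, tr x ∈ Γ → ∀ v, s (x + v) = f (tr x) v ^ k * s v}
  zero_mem' := ⟨by simp, by simp⟩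
  add_mem' := by
    rintro s t ⟨h1, h2⟩ ⟨h3, h4⟩
    refine ⟨h1.add h3, fun l hl v => ?_⟩
    simp only [Pi.add_apply]
    rw [h2 l hl, h4 l hl]; ring
  smul_mem' := by
    rintro c s ⟨h1, h2⟩
    refine ⟨h1.const_smul c, fun l hl v => ?_⟩
    simp only [Pi.smul_apply, smul_eq_mul]
    rw [h2 l hl]; ring

end Pool.Agent.MP_e4ecdb_ag.TQ
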