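import Mathlib
open Module

/-! Gaussian series on lattices and theta functions for positive definite Appell-Humbert data. -/

namespace Pool.Agent.MP_e4ecdb_ag.Theta

section gauss

variable {W : Type} [NormedAddCommGroup W] [NormedSpace ℝ W] [FiniteDimensional ℝ W]

lemma exp_bound {a B : ℝ} (ha : 0 < a) (N : ℕ) : ∃ C : ℝ, 0 ≤ C ∧ ∀ t : ℝ, 0 ≤ t →
    (1 + t) * t ^ N * Real.exp (-a * t ^ 2 + B * t) ≤ C := by
  refine ⟨Real.exp ((B + 2) ^ 2 / (4 * a)) * N.factorial, by positivity, fun t ht => ?_⟩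
  have h1 : -a * t ^ 2 + B * t ≤ (B + 2) ^ 2 / (4 * a) - 2 * t := by
    have : 0 ≤ (2 * a * t - (B + 2)) ^ 2 / (4 * a) := by positivity
    have h2 : (2 * a * t - (B + 2)) ^ 2 / (4 * a) =
        a * t ^ 2 - (B + 2) * t + (B + 2) ^ 2 / (4 * a) := by
      field_simp; ring
    nlinarith
  have h3 : Real.exp (-a * t ^ 2 + B * t) ≤
      Real.exp ((B + 2) ^ 2 / (4 * a)) * (Real.exp (-t) * Real.exp (-t)) := by
    rw [← Real.exp_add, ← Real.exp_add]
    apply Real.exp_le_exp.2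
    linarith
  have h4 : 1 + t ≤ Real.exp t := by linarith [Real.add_one_le_exp t]
  have h5 : t ^ N ≤ N.factorial * Real.exp t := by
    have := Real.pow_div_factorial_le_exp t ht N
    have hN : (0 : ℝ) < N.factorial := by positivity
    rw [div_le_iff₀ hN] at this
    linarith
  have h6 : Real.exp t * Real.exp (-t) = 1 := by rw [← Real.exp_add]; simp
  calc (1 + t) * t ^ N * Real.exp (-a * t ^ 2 + B * t)
      ≤ Real.exp t * (N.factorial * Real.exp t) *
        (Real.exp ((B + 2) ^ 2 / (4 * a)) * (Real.exp (-t) * Real.exp (-t))) := by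
        gcongr
    _ = Real.exp ((B + 2) ^ 2 / (4 * a)) * N.factorial * (Real.exp t * Real.exp (-t)) *
        (Real.exp t * Real.exp (-t)) := by ring
    _ = _ := by rw [h6]; ring

lemma summable_gauss (L : Submodule ℤ W) [DiscreteTopology L] {a : ℝ} (ha : 0 < a) (B : ℝ) :
    Summable fun l : L => (1 + ‖(l : W)‖) * Real.exp (-a * ‖(l : W)‖ ^ 2 + B * ‖(l : W)‖) := by
  set N := Module.finrank ℤ L + 1 with hN
  obtain ⟨C, hC0, hC⟩ := exp_bound (B := B) ha N
  have h1 : Summable fun z : L ↦ C * ‖z‖⁻¹ ^ N :=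
    (ZLattice.summable_norm_pow_inv L N (by omega)).mul_left C
  refine Summable.of_norm_bounded_eventually h1 ?_
  have : {z : L | ¬ ‖(1 + ‖(z : W)‖) * Real.exp (-a * ‖(z : W)‖ ^ 2 + B * ‖(z : W)‖)‖ ≤
      C * ‖z‖⁻¹ ^ N} ⊆ {0} := by
    intro z hz
    by_contra hne
    apply hz
    have hz0 : 0 < ‖(z : W)‖ := by
      rw [norm_pos_iff]
      intro h
      exact hne (by simpa using h)
    rw [Real.norm_of_nonneg (by positivity)]
    have := hC ‖(z : W)‖ hz0.le
    have h2 : ‖z‖ = ‖(z : W)‖ := rfl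
    rw [h2, inv_pow, ← div_eq_mul_inv, le_div_iff₀ (by positivity)]
    calc _ = _ := ?_
      _ ≤ C := this
    ring
  exact (Set.finite_singleton (0 : L)).subset this

lemma exists_min_norm (L : Submodule ℤ W) [DiscreteTopology L] :
    ∃ r : ℝ, 0 < r ∧ ∀ l : L, l ≠ 0 → r ≤ ‖(l : W)‖ := by
  have h : IsOpen ({0} : Set L) := isOpen_discrete _
  rw [Metric.isOpen_iff] at h
  obtain ⟨r, hr, hr2⟩ := h 0 rfl
  refine ⟨r, hr, fun l hl => ?_⟩
  by_contra hcon
  push Not at hcon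
  apply hl
  apply hr2
  rw [Metric.mem_ball, dist_zero_right]
  exact hcon

open Classical in
/-- the tail of the Gaussian series -/
noncomputable def tail (L : Submodule ℤ W) (c : ℝ) (m : ℕ) : ℝ :=
  ∑' l : L, if l = 0 then 0 else (1 + ‖(l : W)‖) * Real.exp (-(m * c) * ‖(l : W)‖ ^ 2)

lemma summable_tail (L : Submodule ℤ W) [DiscreteTopology L] {c : ℝ} (hc : 0 < c) {m : ℕ}
    (hm : 1 ≤ m) : Summable fun l : L => (1 + ‖(l : W)‖) * Real.exp (-(m * c) * ‖(l : W)‖ ^ 2) := by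
  have hm' : (1 : ℝ) ≤ m := by exact_mod_cast hm
  have := summable_gauss L (a := m * c) (by positivity) 0
  refine this.congr fun l => ?_
  congr 2
  ring

open Classical in
lemma summable_tail' (L : Submodule ℤ W) [DiscreteTopology L] {c : ℝ} (hc : 0 < c) {m : ℕ}
    (hm : 1 ≤ m) : Summable fun l : L => if l = 0 then 0 else
      (1 + ‖(l : W)‖) * Real.exp (-(m * c) * ‖(l : W)‖ ^ 2) := by
  refine Summable.of_nonneg_of_le ?_ ?_ (summable_tail L hc hm)
  · intro l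
    split_ifs
    · exact le_rfl
    · positivity
  · intro l
    split_ifs
    · positivity
    · exact le_rfl

lemma tail_tendsto (L : Submodule ℤ W) [DiscreteTopology L] {c : ℝ} (hc : 0 < c) {ε : ℝ}
    (hε : 0 < ε) : ∃ M : ℕ, ∀ m : ℕ, M ≤ m → tail L c m ≤ ε := by
  classical
  obtain ⟨r, hr, hr2⟩ := exists_min_norm L
  have ht : Filter.Tendsto (fun n : ℕ => Real.exp (-(n * (c * r ^ 2))) * tail L c 1) Filter.atTop
      (nhds 0) := by
    have h1 : Filter.Tendsto (fun n : ℕ => Real.exp (-(n * (c * r ^ 2)))) Filter.atTop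
        (nhds 0) := by
      apply Real.tendsto_exp_neg_atTop_nhds_zero.comp
      exact Filter.Tendsto.atTop_mul_const (by positivity) tendsto_natCast_atTop_atTop
    simpa using h1.mul_const (tail L c 1)
  have ht2 := ht.eventually (ge_mem_nhds hε)
  obtain ⟨M, hM⟩ := Filter.eventually_atTop.1 ht2
  refine ⟨M + 1, fun m hm => ?_⟩
  obtain ⟨n, rfl⟩ : ∃ n, m = n + 1 := ⟨m - 1, by omega⟩
  refine le_trans ?_ (hM n (by omega))
  unfold tail
  rw [← tsum_mul_left]
  refine Summable.tsum_le_tsum ?_ (summable_tail' L hc (by omega))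
    ((summable_tail' L hc le_rfl).mul_left _)
  intro l
  by_cases hl : l = 0
  · simp [hl]
  · simp only [hl, if_false]
    have h2 := hr2 l hl
    have h3 : Real.exp (-(((n + 1 : ℕ) : ℝ) * c) * ‖(l : W)‖ ^ 2) ≤
        Real.exp (-(n * (c * r ^ 2))) * Real.exp (-(((1 : ℕ) : ℝ) * c) * ‖(l : W)‖ ^ 2) := by
      rw [← Real.exp_add]
      apply Real.exp_le_exp.2
      push_cast
      have h4 : r ^ 2 ≤ ‖(l : W)‖ ^ 2 := by gcongr
      have h5 : (n : ℝ) * c * r ^ 2 ≤ n * c * ‖(l : W)‖ ^ 2 := by gcongr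
      nlinarith
    calc (1 + ‖(l : W)‖) * Real.exp (-(((n + 1 : ℕ) : ℝ) * c) * ‖(l : W)‖ ^ 2)
        ≤ (1 + ‖(l : W)‖) * (Real.exp (-(n * (c * r ^ 2))) *
          Real.exp (-(((1 : ℕ) : ℝ) * c) * ‖(l : W)‖ ^ 2)) := by gcongr
      _ = _ := by ring

lemma shift_bound {c R : ℝ} (hc : 0 < c) {u l : W} (hu : ‖u‖ ≤ R) :
    Real.exp (-c * ‖u + l‖ ^ 2) ≤ Real.exp (-c * ‖l‖ ^ 2 + 2 * c * R * ‖l‖) := by
  apply Real.exp_le_exp.2
  have h1 : ‖l‖ - R ≤ ‖u + l‖ := by
    have := norm_sub_norm_le l (-u)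
    rw [sub_neg_eq_add, norm_neg, add_comm] at this
    linarith
  have h2 : ‖l‖ ^ 2 - 2 * R * ‖l‖ ≤ ‖u + l‖ ^ 2 := by
    have hR : 0 ≤ R := (norm_nonneg u).trans hu
    rcases le_or_gt R ‖l‖ with h | h
    · have : (‖l‖ - R) ^ 2 ≤ ‖u + l‖ ^ 2 := by
        apply pow_le_pow_left₀ (by linarith) h1
      nlinarith
    · have : 0 ≤ ‖l‖ := norm_nonneg l
      have h3 : ‖l‖ ^ 2 ≤ R * ‖l‖ := by nlinarith
      have h4 : 0 ≤ ‖u + l‖ ^ 2 := by positivity
      nlinarith
  nlinarith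

lemma summable_shift (L : Submodule ℤ W) [DiscreteTopology L] {c : ℝ} (hc : 0 < c) (u : W) :
    Summable fun l : L => Real.exp (-c * ‖u + (l : W)‖ ^ 2) := by
  refine Summable.of_nonneg_of_le (fun l => by positivity) (fun l => ?_)
    (summable_gauss L (a := c) hc (2 * c * ‖u‖))
  refine (shift_bound hc (le_refl ‖u‖)).trans ?_
  have : 0 ≤ ‖(l : W)‖ := norm_nonneg _
  have h2 : 0 < Real.exp (-c * ‖(l : W)‖ ^ 2 + 2 * c * ‖u‖ * ‖(l : W)‖) := Real.exp_pos _
  nlinarith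

lemma far_bound {ι : Type} [Fintype ι] (b : Basis ι ℝ W) {c r ε : ℝ} (hc : 0 < c) (hr : 0 < r)
    (hε : 0 < ε) :
    ∃ M : ℕ, ∀ m : ℕ, M ≤ m → ∀ u : W,
      (∀ l : Submodule.span ℤ (Set.range b), r ≤ ‖u + (l : W)‖) →
      ∑' l : Submodule.span ℤ (Set.range b), Real.exp (-(m * c) * ‖u + (l : W)‖ ^ 2) ≤ ε := by
  set L := Submodule.span ℤ (Set.range b) with hL
  set R := ∑ i, ‖b i‖ with hR
  set S := ∑' l : L, (1 + ‖(l : W)‖) * Real.exp (-c * ‖(l : W)‖ ^ 2 + 2 * c * R * ‖(l : W)‖) with hS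
  have hunif : ∀ u : W, ∑' l : L, Real.exp (-c * ‖u + (l : W)‖ ^ 2) ≤ S := by
    intro u
    have h1 : u = ZSpan.fract b u + (ZSpan.floor b u : W) := by
      rw [ZSpan.fract_apply]; abel
    have h2 : ∑' l : L, Real.exp (-c * ‖u + (l : W)‖ ^ 2) =
        ∑' l : L, Real.exp (-c * ‖ZSpan.fract b u + (l : W)‖ ^ 2) := by
      rw [← Equiv.tsum_eq (Equiv.addLeft (ZSpan.floor b u))
        (fun l : L => Real.exp (-c * ‖ZSpan.fract b u + (l : W)‖ ^ 2))]
      apply tsum_congr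
      intro l
      congr 4
      simp only [Equiv.coe_addLeft, Submodule.coe_add]
      conv_lhs => rw [h1]
      abel
    rw [h2]
    refine Summable.tsum_le_tsum (fun l => ?_) (summable_shift L hc _)
      (summable_gauss L (a := c) hc (2 * c * R))
    refine (shift_bound hc (ZSpan.norm_fract_le b u)).trans ?_
    have : 0 ≤ ‖(l : W)‖ := norm_nonneg _
    have h2 : 0 < Real.exp (-c * ‖(l : W)‖ ^ 2 + 2 * c * R * ‖(l : W)‖) := Real.exp_pos _
    nlinarith
  have ht : Filter.Tendsto (fun n : ℕ => Real.exp (-(n * (c * r ^ 2))) * S) Filter.atTop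
      (nhds 0) := by
    have h1 : Filter.Tendsto (fun n : ℕ => Real.exp (-(n * (c * r ^ 2)))) Filter.atTop
        (nhds 0) := by
      apply Real.tendsto_exp_neg_atTop_nhds_zero.comp
      exact Filter.Tendsto.atTop_mul_const (by positivity) tendsto_natCast_atTop_atTop
    simpa using h1.mul_const S
  have ht2 := ht.eventually (ge_mem_nhds hε)
  obtain ⟨M, hM⟩ := Filter.eventually_atTop.1 ht2
  refine ⟨M + 1, fun m hm u hu => ?_⟩
  obtain ⟨n, rfl⟩ : ∃ n, m = n + 1 := ⟨m - 1, by omega⟩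
  refine le_trans ?_ (hM n (by omega))
  have hn : (0 : ℝ) < ((n + 1 : ℕ) : ℝ) * c := by positivity
  calc ∑' l : L, Real.exp (-(((n + 1 : ℕ) : ℝ) * c) * ‖u + (l : W)‖ ^ 2)
      ≤ ∑' l : L, Real.exp (-(n * (c * r ^ 2))) * Real.exp (-c * ‖u + (l : W)‖ ^ 2) := by
        refine Summable.tsum_le_tsum (fun l => ?_) (summable_shift L hn u)
          ((summable_shift L hc u).mul_left _)
        rw [← Real.exp_add]
        apply Real.exp_le_exp.2
        push_cast
        have h2 := hu l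
        have h4 : r ^ 2 ≤ ‖u + (l : W)‖ ^ 2 := by gcongr
        have h5 : (n : ℝ) * c * r ^ 2 ≤ n * c * ‖u + (l : W)‖ ^ 2 := by gcongr
        nlinarith
    _ = Real.exp (-(n * (c * r ^ 2))) * ∑' l : L, Real.exp (-c * ‖u + (l : W)‖ ^ 2) := by
        rw [tsum_mul_left]
    _ ≤ _ := by
        gcongr
        exact hunif u

end gauss

end Pool.Agent.MP_e4ecdb_ag.Theta
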