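import Pool.Agent.MP_e4ecdb_ag.ThetaA
open Module

namespace Pool.Agent.MP_e4ecdb_ag.Theta

section theta

variable {W : Type} [NormedAddCommGroup W] [NormedSpace ℂ W] [FiniteDimensional ℂ W]

/-- Appell-Humbert factor of automorphy -/
noncomputable def ef (H : W →ₗ⋆[ℂ] W →ₗ[ℂ] ℂ) (α : W → ℂ) (l v : W) : ℂ :=
  α l * Complex.exp (Real.pi * H l v + Real.pi / 2 * H l l)

/-- Positive definite Appell-Humbert data on the lattice `L`. -/
structure AH (L : Submodule ℤ W) (H : W →ₗ⋆[ℂ] W →ₗ[ℂ] ℂ) (α : W → ℂ) : Prop where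
  herm : ∀ x y, H x y = (starRingEnd ℂ) (H y x)
  pos : ∀ x, x ≠ 0 → 0 < (H x x).re
  norm : ∀ l ∈ L, ‖α l‖ = 1
  coc : ∀ l ∈ L, ∀ k ∈ L, ∀ v, ef H α (l + k) v = ef H α l (k + v) * ef H α k v

/-- theta functions of level `m` -/
def Th (L : Submodule ℤ W) (H : W →ₗ⋆[ℂ] W →ₗ[ℂ] ℂ) (α : W → ℂ) (m : ℕ) : Submodule ℂ (W → ℂ) where
  carrier := {s | Differentiable ℂ s ∧ ∀ l ∈ L, ∀ v, s (l + v) = ef H α l v ^ m * s v}
  zero_mem' := ⟨by simp, by simp⟩
  add_mem' := by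
    rintro s t ⟨h1, h2⟩ ⟨h3, h4⟩
    refine ⟨h1.add h3, fun l hl v => ?_⟩
    simp only [Pi.add_apply]
    rw [h2 l hl, h4 l hl]; ring
  smul_mem' := by
    rintro c s ⟨h1, h2⟩
    refine ⟨h1.const_smul c, fun l hl v => ?_⟩
    simp only [Pi.smul_apply, smul_eq_mul]
    rw [h2 l hl]; ring

lemma exists_bound (H : W →ₗ⋆[ℂ] W →ₗ[ℂ] ℂ) : ∃ C : ℝ, 0 < C ∧ ∀ x y, ‖H x y‖ ≤ C * ‖x‖ * ‖y‖ := by
  let B : W →ₗ[ℝ] W →ₗ[ℝ] ℂ := LinearMap.mk₂ ℝ (fun x y => H x y)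
    (fun x x' y => by simp) (fun c x y => by
      have : (c • x : W) = (c : ℂ) • x := (Complex.coe_smul c x).symm
      rw [this, LinearMap.map_smulₛₗ]; simp) (fun x y y' => by simp) (fun c x y => by
      have : (c • y : W) = (c : ℂ) • y := (Complex.coe_smul c y).symm
      rw [this, map_smul]; simp)
  let B1 : W →ₗ[ℝ] (W →L[ℝ] ℂ) := (LinearMap.toContinuousLinearMap : _ ≃ₗ[ℝ] _).toLinearMap ∘ₗ B
  let B2 : W →L[ℝ] (W →L[ℝ] ℂ) := LinearMap.toContinuousLinearMap B1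
  refine ⟨‖B2‖ + 1, by positivity, fun x y => ?_⟩
  have h : H x y = B2 x y := rfl
  rw [h]
  refine (B2.le_opNorm₂ x y).trans ?_
  gcongr
  linarith

lemma continuous_quad (H : W →ₗ⋆[ℂ] W →ₗ[ℂ] ℂ) : Continuous fun x => (H x x).re := by
  let B : W →ₗ[ℝ] W →ₗ[ℝ] ℂ := LinearMap.mk₂ ℝ (fun x y => H x y)
    (fun x x' y => by simp) (fun c x y => by
      have : (c • x : W) = (c : ℂ) • x := (Complex.coe_smul c x).symm
      rw [this, LinearMap.map_smulₛₗ]; simp) (fun x y y' => by simp) (fun c x y => by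
      have : (c • y : W) = (c : ℂ) • y := (Complex.coe_smul c y).symm
      rw [this, map_smul]; simp)
  let B1 : W →ₗ[ℝ] (W →L[ℝ] ℂ) := (LinearMap.toContinuousLinearMap : _ ≃ₗ[ℝ] _).toLinearMap ∘ₗ B
  let B2 : W →L[ℝ] (W →L[ℝ] ℂ) := LinearMap.toContinuousLinearMap B1
  have h : (fun x => (H x x).re) = fun x => (B2 x x).re := rfl
  rw [h]
  exact Complex.continuous_re.comp (B2.continuous.clm_apply continuous_id)

lemma exists_lower (H : W →ₗ⋆[ℂ] W →ₗ[ℂ] ℂ) (hpos : ∀ x, x ≠ 0 → 0 < (H x x).re) :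
    ∃ k : ℝ, 0 < k ∧ ∀ x, k * ‖x‖ ^ 2 ≤ (H x x).re := by
  have : FiniteDimensional ℝ W := FiniteDimensional.complexToReal W
  have : ProperSpace W := FiniteDimensional.proper ℂ W
  rcases subsingleton_or_nontrivial W with hW | hW
  · refine ⟨1, one_pos, fun x => ?_⟩
    rw [Subsingleton.elim x 0]; simp
  · have hc : IsCompact (Metric.sphere (0 : W) 1) := isCompact_sphere 0 1
    have hne : (Metric.sphere (0 : W) 1).Nonempty := NormedSpace.sphere_nonempty.2 zero_le_one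
    obtain ⟨x0, hx0, hmin⟩ := hc.exists_isMinOn hne (continuous_quad H).continuousOn
    have hx0' : x0 ≠ 0 := by
      rintro rfl
      simp at hx0
    refine ⟨(H x0 x0).re, hpos x0 hx0', fun x => ?_⟩
    rcases eq_or_ne x 0 with rfl | hx
    · simp
    · have hn : 0 < ‖x‖ := norm_pos_iff.2 hx
      have h1 : ((‖x‖⁻¹ : ℝ) : ℂ) • x ∈ Metric.sphere (0 : W) 1 := by
        rw [mem_sphere_zero_iff_norm, norm_smul, Complex.norm_real, norm_inv, norm_norm]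
        exact inv_mul_cancel₀ hn.ne'
      have h2 := hmin h1
      have h5 : H (((‖x‖⁻¹ : ℝ) : ℂ) • x) (((‖x‖⁻¹ : ℝ) : ℂ) • x) =
          ((‖x‖⁻¹ : ℝ) : ℂ) * (((‖x‖⁻¹ : ℝ) : ℂ) * H x x) := by
        rw [map_smul, LinearMap.map_smulₛₗ, LinearMap.smul_apply, Complex.conj_ofReal, smul_eq_mul,
          smul_eq_mul]
      change (H x0 x0).re ≤ (H (((‖x‖⁻¹ : ℝ) : ℂ) • x) (((‖x‖⁻¹ : ℝ) : ℂ) • x)).re at h2
      rw [h5, Complex.re_ofReal_mul, Complex.re_ofReal_mul] at h2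
      have h3 : (H x0 x0).re * ‖x‖ ^ 2 ≤ ‖x‖⁻¹ * (‖x‖⁻¹ * (H x x).re) * ‖x‖ ^ 2 := by gcongr
      have h4 : ‖x‖⁻¹ * (‖x‖⁻¹ * (H x x).re) * ‖x‖ ^ 2 = (H x x).re := by field_simp
      linarith

/-- a term of the Gaussian Poincare series -/
noncomputable def tt (H : W →ₗ⋆[ℂ] W →ₗ[ℂ] ℂ) (α : W → ℂ) (m : ℕ) (x z l : W) : ℂ :=
  (α l)⁻¹ ^ m * Complex.exp (Real.pi * m * (H x (z + l) - H l z - H l l / 2))

lemma tt_eq {H : W →ₗ⋆[ℂ] W →ₗ[ℂ] ℂ} {α : W → ℂ} (m : ℕ) (x z l : W) :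
    tt H α m x z l = (ef H α l z)⁻¹ ^ m * Complex.exp (Real.pi * m * H x (z + l)) := by
  unfold tt ef
  rw [mul_inv, mul_pow, ← Complex.exp_neg, ← Complex.exp_nat_mul, mul_assoc ((α l)⁻¹ ^ m),
    ← Complex.exp_add]
  congr 2
  ring

lemma norm_tt {L : Submodule ℤ W} {H : W →ₗ⋆[ℂ] W →ₗ[ℂ] ℂ} {α : W → ℂ} (h : AH L H α) (m : ℕ)
    (x z : W) {l : W} (hl : l ∈ L) :
    ‖tt H α m x z l‖ =
      Real.exp (Real.pi * m * ((H x (z + l)).re - (H l z).re - (H l l).re / 2)) := by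
  unfold tt
  rw [norm_mul, norm_pow, norm_inv, h.norm l hl, inv_one, one_pow, one_mul, Complex.norm_exp]
  congr 1
  have : (Real.pi * m * (H x (z + l) - H l z - H l l / 2) : ℂ) =
      ((Real.pi * m : ℝ) : ℂ) * (H x (z + l) - H l z - H l l / 2) := by push_cast; ring
  rw [this, Complex.re_ofReal_mul]
  simp

/-- the Gaussian Poincare series -/
noncomputable def theta (L : Submodule ℤ W) (H : W →ₗ⋆[ℂ] W →ₗ[ℂ] ℂ) (α : W → ℂ) (m : ℕ)
    (x z : W) : ℂ := ∑' l : L, tt H α m x z l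

lemma theta_bound {H : W →ₗ⋆[ℂ] W →ₗ[ℂ] ℂ} {C k : ℝ} (hC : ∀ x y, ‖H x y‖ ≤ C * ‖x‖ * ‖y‖)
    (hC0 : 0 < C) (hk : ∀ x, k * ‖x‖ ^ 2 ≤ (H x x).re) (m : ℕ) {x z l : W} {R : ℝ} (hz : ‖z‖ ≤ R) :
    Real.exp (Real.pi * m * ((H x (z + l)).re - (H l z).re - (H l l).re / 2)) ≤
      Real.exp (Real.pi * m * C * ‖x‖ * R) * Real.exp (-(Real.pi * m * k / 2) * ‖l‖ ^ 2 +
        Real.pi * m * C * (R + ‖x‖) * ‖l‖) := by
  rw [← Real.exp_add]
  apply Real.exp_le_exp.2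
  have h1 : (H x (z + l)).re ≤ C * ‖x‖ * (R + ‖l‖) := by
    refine (Complex.re_le_norm _).trans ((hC _ _).trans ?_)
    gcongr
    exact (norm_add_le _ _).trans (by gcongr)
  have h2 : -(H l z).re ≤ C * ‖l‖ * R := by
    refine (neg_le_abs _).trans ((Complex.abs_re_le_norm _).trans ((hC _ _).trans ?_))
    gcongr
  have h3 := hk l
  have hpm : 0 ≤ Real.pi * m := by positivity
  have h4 : (H x (z + l)).re - (H l z).re - (H l l).re / 2 ≤
      C * ‖x‖ * (R + ‖l‖) + C * ‖l‖ * R - k * ‖l‖ ^ 2 / 2 := by linarith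
  calc Real.pi * m * ((H x (z + l)).re - (H l z).re - (H l l).re / 2)
      ≤ Real.pi * m * (C * ‖x‖ * (R + ‖l‖) + C * ‖l‖ * R - k * ‖l‖ ^ 2 / 2) := by gcongr
    _ = _ := by ring

lemma summable_tt {L : Submodule ℤ W} [DiscreteTopology L] {H : W →ₗ⋆[ℂ] W →ₗ[ℂ] ℂ} {α : W → ℂ}
    (h : AH L H α) {m : ℕ} (hm : 1 ≤ m) (x z : W) : Summable fun l : L => tt H α m x z l := by
  have : FiniteDimensional ℝ W := FiniteDimensional.complexToReal W
  obtain ⟨C, hC0, hC⟩ := exists_bound H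
  obtain ⟨k, hk0, hk⟩ := exists_lower H h.pos
  have hm' : (0 : ℝ) < m := by exact_mod_cast hm
  refine Summable.of_norm_bounded (g := fun l : L => Real.exp (Real.pi * m * C * ‖x‖ * ‖z‖) *
    ((1 + ‖(l : W)‖) * Real.exp (-(Real.pi * m * k / 2) * ‖(l : W)‖ ^ 2 +
        Real.pi * m * C * (‖z‖ + ‖x‖) * ‖(l : W)‖))) ?_ ?_
  · exact (summable_gauss L (a := Real.pi * m * k / 2) (by positivity) _).mul_left _
  · intro l
    rw [norm_tt h m x z l.2]
    refine (theta_bound hC hC0 hk m (le_refl ‖z‖)).trans ?_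
    gcongr
    have : 0 ≤ ‖(l : W)‖ := norm_nonneg _
    have h2 : 0 < Real.exp (-(Real.pi * m * k / 2) * ‖(l : W)‖ ^ 2 +
        Real.pi * m * C * (‖z‖ + ‖x‖) * ‖(l : W)‖) := Real.exp_pos _
    nlinarith

lemma differentiable_theta {L : Submodule ℤ W} [DiscreteTopology L] {H : W →ₗ⋆[ℂ] W →ₗ[ℂ] ℂ}
    {α : W → ℂ} (h : AH L H α) {m : ℕ} (hm : 1 ≤ m) (x : W) :
    Differentiable ℂ (theta L H α m x) := by
  have : FiniteDimensional ℝ W := FiniteDimensional.complexToReal W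
  obtain ⟨C, hC0, hC⟩ := exists_bound H
  obtain ⟨k, hk0, hk⟩ := exists_lower H h.pos
  have hm' : (0 : ℝ) < m := by exact_mod_cast hm
  intro z0
  set R := ‖z0‖ + 1 with hR
  let φ : W → (W →L[ℂ] ℂ) := fun l => LinearMap.toContinuousLinearMap (H x - H l)
  have hφ : ∀ l, ‖φ l‖ ≤ C * (‖x‖ + ‖l‖) := by
    intro l
    apply ContinuousLinearMap.opNorm_le_bound _ (by positivity)
    intro y
    have : φ l y = H x y - H l y := rfl
    rw [this]
    refine (norm_sub_le _ _).trans ?_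
    have h1 := hC x y
    have h2 := hC l y
    nlinarith
  let u : L → ℝ := fun l => (Real.exp (Real.pi * m * C * ‖x‖ * R) * (Real.pi * m) * (C * (‖x‖ + 1))) *
    ((1 + ‖(l : W)‖) * Real.exp (-(Real.pi * m * k / 2) * ‖(l : W)‖ ^ 2 +
        Real.pi * m * C * (R + ‖x‖) * ‖(l : W)‖))
  have hu : Summable u :=
    (summable_gauss L (a := Real.pi * m * k / 2) (by positivity) _).mul_left _
  have hd : ∀ (l : L) (z : W), z ∈ Metric.ball (0 : W) R →
      HasFDerivAt (fun z => tt H α m x z l) ((tt H α m x z l * (Real.pi * m)) • φ l) z := by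
    intro l z _
    have h1 : HasFDerivAt (fun z : W => (Real.pi * m * (H x (z + l) - H l z - H l l / 2) : ℂ))
        ((Real.pi * m : ℂ) • φ l) z := by
      have h2 : HasFDerivAt (fun z : W => φ l z) (φ l) z := (φ l).hasFDerivAt
      have h3 := (h2.const_mul (Real.pi * m : ℂ)).add_const
        (Real.pi * m * (H x l - H l l / 2) : ℂ)
      refine h3.congr_of_eventuallyEq (Filter.Eventually.of_forall fun y => ?_)
      have : φ l y = H x y - H l y := rfl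
      simp only [this, map_add]
      ring
    have h4 := (h1.cexp).const_mul ((α l)⁻¹ ^ m)
    refine h4.congr_fderiv ?_
    unfold tt
    rw [smul_smul, smul_smul]
  have hball : z0 ∈ Metric.ball (0 : W) R := by
    rw [mem_ball_zero_iff]; linarith
  have key := hasFDerivAt_tsum_of_isPreconnected (u := u) hu Metric.isOpen_ball
    (convex_ball (0 : W) R).isPreconnected hd (fun l z hz => ?_) hball
    (summable_tt h hm x z0) hball
  · exact key.differentiableAt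
  · rw [norm_smul, norm_mul, norm_tt h m x z l.2]
    have hz' : ‖z‖ ≤ R := (mem_ball_zero_iff.1 hz).le
    have h1 := theta_bound hC hC0 hk m (x := x) (l := l) hz'
    have h2 := hφ l
    have h3 : ‖(Real.pi * m : ℂ)‖ = Real.pi * m := by
      rw [norm_mul, Complex.norm_real, Real.norm_of_nonneg Real.pi_pos.le]; simp
    rw [h3]
    have h5 : C * (‖x‖ + ‖(l : W)‖) ≤ C * (‖x‖ + 1) * (1 + ‖(l : W)‖) := by
      have : 0 ≤ ‖x‖ * ‖(l : W)‖ := by positivity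
      have h6 : 0 ≤ ‖(l : W)‖ := norm_nonneg _
      have h7 : 0 ≤ ‖x‖ := norm_nonneg _
      nlinarith
    calc _ ≤ (Real.exp (Real.pi * m * C * ‖x‖ * R) * Real.exp (-(Real.pi * m * k / 2) * ‖(l : W)‖ ^ 2 +
        Real.pi * m * C * (R + ‖x‖) * ‖(l : W)‖)) * (Real.pi * m) *
          (C * (‖x‖ + 1) * (1 + ‖(l : W)‖)) := by
          gcongr
          exact h2.trans h5
      _ = u l := by simp only [u]; ring

lemma ef_ne_zero {L : Submodule ℤ W} {H : W →ₗ⋆[ℂ] W →ₗ[ℂ] ℂ} {α : W → ℂ} (h : AH L H α) {l : W}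
    (hl : l ∈ L) (z : W) : ef H α l z ≠ 0 := by
  unfold ef
  apply mul_ne_zero _ (Complex.exp_ne_zero _)
  intro h0
  have := h.norm l hl
  rw [h0, norm_zero] at this
  exact zero_ne_one this

lemma theta_mem {L : Submodule ℤ W} [DiscreteTopology L] {H : W →ₗ⋆[ℂ] W →ₗ[ℂ] ℂ}
    {α : W → ℂ} (h : AH L H α) {m : ℕ} (hm : 1 ≤ m) (x : W) :
    theta L H α m x ∈ Th L H α m := by
  refine ⟨differentiable_theta h hm x, fun k hk v => ?_⟩
  unfold theta
  rw [← tsum_mul_left, ← Equiv.tsum_eq (Equiv.addRight (⟨k, hk⟩ : L))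
    (fun l : L => ef H α k v ^ m * tt H α m x v l)]
  apply tsum_congr
  intro l
  simp only [Equiv.coe_addRight, Submodule.coe_add]
  rw [tt_eq, tt_eq, h.coc l l.2 k hk v, mul_inv, mul_pow, inv_pow (ef H α k v)]
  have h1 := ef_ne_zero h hk v
  field_simp
  congr 3
  abel_nf

end theta

end Pool.Agent.MP_e4ecdb_ag.Theta
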